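import Pool.Agent.Lib.MP_d9f52e_nt.ADef

/-!
# Powers with exponents in the integral group ring
-/

open NumberField

namespace MPd9f52e

variable {K L : Type} [Field K] [Field L] [Algebra K L] [FiniteDimensional K L]

theorem pw_ne_zero (A : (L ≃ₐ[K] L) → ℤ) {z : L} (hz : z ≠ 0) : pw A z ≠ 0 := by
  classical
  unfold pw
  exact Finset.prod_ne_zero_iff.2 fun σ _ =>
    zpow_ne_zero _ ((map_ne_zero_iff σ σ.injective).2 hz)

theorem pw_add (A B : (L ≃ₐ[K] L) → ℤ) {z : L} (hz : z ≠ 0) :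
    pw (fun σ => A σ + B σ) z = pw A z * pw B z := by
  classical
  unfold pw
  rw [← Finset.prod_mul_distrib]
  exact Finset.prod_congr rfl fun σ _ =>
    zpow_add₀ ((map_ne_zero_iff σ σ.injective).2 hz) _ _

theorem pw_neg (A : (L ≃ₐ[K] L) → ℤ) (z : L) : pw (fun σ => - A σ) z = (pw A z)⁻¹ := by
  classical
  unfold pw
  rw [← Finset.prod_inv_distrib]
  exact Finset.prod_congr rfl fun σ _ => zpow_neg _ _

theorem pw_mul (A : (L ≃ₐ[K] L) → ℤ) (n : ℕ) (z : L) :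
    pw (fun σ => (n : ℤ) * A σ) z = pw A z ^ n := by
  classical
  unfold pw
  rw [← Finset.prod_pow]
  refine Finset.prod_congr rfl fun σ _ => ?_
  show (σ z) ^ ((n : ℤ) * A σ) = _
  rw [mul_comm, zpow_mul, zpow_natCast]

theorem apply_pw (τ : L ≃ₐ[K] L) (A : (L ≃ₐ[K] L) → ℤ) (z : L) :
    τ (pw A z) = pw (fun σ => A (τ⁻¹ * σ)) z := by
  classical
  unfold pw
  rw [map_prod]
  refine Fintype.prod_equiv (Equiv.mulLeft τ) _ _ fun σ => ?_
  rw [map_zpow₀]
  simp [Equiv.coe_mulLeft]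

end MPd9f52e
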