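import Pool.Agent.Lib.MP_d9f52e_nt.ADef

/-!
# An abelian Kummer criterion
-/

open NumberField

namespace MPd9f52e

private theorem kum_key {K L E F : Type} [Field K] [Field L] [Algebra K L] [Field E] [Algebra L E]
    [Field F] (ι f : E →+* F) (τ : L ≃ₐ[K] L) {e : ℕ} (he : 0 < e) {ζ : L}
    (hζ : IsPrimitiveRoot ζ e) {u : L} {x : E} (hu : u ≠ 0) (c : ℕ) (w : L)
    (h1 : τ u = u ^ c * w ^ e) (hx : x ^ e = algebraMap L E u)
    (hf : ∀ l, f (algebraMap L E l) = ι (algebraMap L E (τ l))) :
    ∃ η : L, η ^ e = 1 ∧ f x = ι (algebraMap L E η * (x ^ c * algebraMap L E w)) := by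
  have hx0 : x ≠ 0 := by
    rintro rfl
    rw [zero_pow he.ne'] at hx
    exact hu ((map_eq_zero (algebraMap L E)).1 hx.symm)
  have hw : w ≠ 0 := by
    intro h0
    rw [h0, zero_pow he.ne', mul_zero] at h1
    exact hu ((map_eq_zero_iff τ τ.injective).1 h1)
  set y : E := x ^ c * algebraMap L E w with hy
  have hy0 : y ≠ 0 := mul_ne_zero (pow_ne_zero _ hx0)
    ((map_ne_zero (algebraMap L E)).2 hw)
  have hye : y ^ e = algebraMap L E (τ u) := by
    rw [hy, mul_pow, ← pow_mul, mul_comm c e, pow_mul, hx, h1, map_mul, map_pow, map_pow]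
  have hιy : ι y ≠ 0 := (map_ne_zero ι).2 hy0
  have hpow : (f x / ι y) ^ e = 1 := by
    rw [div_pow, ← map_pow, hx, hf, ← map_pow, hye, div_self]
    rw [← hye, map_pow]
    exact pow_ne_zero _ hιy
  have hζF : IsPrimitiveRoot (ι (algebraMap L E ζ)) e :=
    (hζ.map_of_injective (algebraMap L E).injective).map_of_injective ι.injective
  have : NeZero e := ⟨he.ne'⟩
  obtain ⟨i, _, hi⟩ := hζF.eq_pow_of_pow_eq_one hpow
  refine ⟨ζ ^ i, ?_, ?_⟩
  · rw [← pow_mul, mul_comm, pow_mul, hζ.pow_eq_one, one_pow]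
  · rw [map_mul, map_pow, map_pow, hi, div_mul_cancel₀ _ hιy]

theorem kummer_abelian {K L : Type} [Field K] [CharZero K] [Field L] [Algebra K L]
    [FiniteDimensional K L] [IsGalois K L] (hab : ∀ σ τ : L ≃ₐ[K] L, σ * τ = τ * σ)
    {e : ℕ} (he : 0 < e) (hroot : ∃ η : L, IsPrimitiveRoot η e) {u : L} (hu : u ≠ 0)
    (c : (L ≃ₐ[K] L) → ℕ) (w : (L ≃ₐ[K] L) → L)
    (h1 : ∀ σ : L ≃ₐ[K] L, σ u = u ^ c σ * w σ ^ e)
    (h2 : ∀ (σ : L ≃ₐ[K] L) (η : L), η ^ e = 1 → σ η = η ^ c σ)
    (h3 : ∀ σ τ : L ≃ₐ[K] L, σ (w τ) * w σ ^ c τ = τ (w σ) * w τ ^ c σ)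
    (E : Type) [Field E] [Algebra K E] [Algebra L E] [IsScalarTower K L E] (x : E)
    (hx : x ^ e = algebraMap L E u) (hE : IntermediateField.adjoin L {x} = ⊤) :
    IsGalois K E ∧ ∀ σ τ : E ≃ₐ[K] E, σ * τ = τ * σ := by
  obtain ⟨ζ, hζ⟩ := hroot
  have hint : IsIntegral L x := by
    refine ⟨Polynomial.X ^ e - Polynomial.C u, Polynomial.monic_X_pow_sub_C u he.ne', ?_⟩
    simp [hx]
  have hfd1 : FiniteDimensional L (IntermediateField.adjoin L {x}) :=
    IntermediateField.adjoin.finiteDimensional hint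
  have hfd2 : FiniteDimensional L E := by
    rw [hE] at hfd1
    exact LinearEquiv.finiteDimensional
      (IntermediateField.topEquiv (F := L) (E := E)).toLinearEquiv
  have hfd3 : FiniteDimensional K E := FiniteDimensional.trans K L E
  have hind : ∀ (p : E → Prop), p x → (∀ l : L, p (algebraMap L E l)) →
      (∀ a b, p a → p b → p (a + b)) → (∀ a, p a → p a⁻¹) → (∀ a b, p a → p b → p (a * b)) →
      ∀ y, p y := by
    intro p hp1 hp2 hp3 hp4 hp5 y
    have hy : y ∈ IntermediateField.adjoin L {x} := by rw [hE]; trivial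
    induction hy using IntermediateField.adjoin_induction with
    | mem z hz => rw [Set.mem_singleton_iff.1 hz]; exact hp1
    | algebraMap l => exact hp2 l
    | add a b _ _ ha hb => exact hp3 a b ha hb
    | inv a _ ha => exact hp4 a ha
    | mul a b _ _ ha hb => exact hp5 a b ha hb
  constructor
  · have hnorm : Normal K E := by
      let Ω := AlgebraicClosure E
      have : Algebra.IsAlgebraic K Ω := Algebra.IsAlgebraic.trans K E Ω
      have : IsAlgClosure K Ω := ⟨inferInstance, inferInstance⟩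
      have : Normal K Ω := IsAlgClosure.normal K Ω
      let ι : E →ₐ[K] Ω := IsScalarTower.toAlgHom K E Ω
      have hN : Normal K ι.fieldRange := by
        rw [IntermediateField.normal_iff_forall_map_le]
        intro σ y hy
        obtain ⟨z, hz, rfl⟩ := hy
        obtain ⟨y0, rfl⟩ := hz
        show σ (ι y0) ∈ ι.fieldRange
        let τ : L ≃ₐ[K] L := σ.restrictNormal' L
        have hτ : ∀ l : L, σ (ι (algebraMap L E l)) = ι (algebraMap L E (τ l)) := by
          intro l
          have h := AlgHom.restrictNormal_commutes σ L l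
          have e1 : ι (algebraMap L E l) = algebraMap L Ω l :=
            (IsScalarTower.algebraMap_apply L E Ω l).symm
          have e2 : ι (algebraMap L E (τ l)) = algebraMap L Ω (τ l) :=
            (IsScalarTower.algebraMap_apply L E Ω (τ l)).symm
          rw [e1, e2]
          exact h.symm
        refine hind (fun y => σ (ι y) ∈ ι.fieldRange) ?_ ?_ ?_ ?_ ?_ y0
        · obtain ⟨η, _, hη⟩ := kum_key (K := K) (ι : E →+* Ω) ((σ : Ω →+* Ω).comp (ι : E →+* Ω)) τ he hζ
            hu (c τ) (w τ) (h1 τ) hx hτ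
          exact ⟨_, hη.symm⟩
        · intro l
          exact ⟨_, (hτ l).symm⟩
        · intro a b ha hb
          show σ (ι (a + b)) ∈ ι.fieldRange
          rw [map_add, map_add]
          exact add_mem ha hb
        · intro a ha
          show σ (ι a⁻¹) ∈ ι.fieldRange
          rw [map_inv₀, map_inv₀]
          exact inv_mem ha
        · intro a b ha hb
          show σ (ι (a * b)) ∈ ι.fieldRange
          rw [map_mul, map_mul]
          exact mul_mem ha hb
      let f : E →ₐ[K] ι.fieldRange := ι.codRestrict ι.fieldRange.toSubalgebra fun y => ⟨y, rfl⟩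
      have hf : Function.Bijective f := by
        refine ⟨fun a b hab' => ι.injective (congrArg Subtype.val hab'), fun y => ?_⟩
        obtain ⟨z, hz⟩ := y.2
        exact ⟨z, Subtype.ext hz⟩
      exact Normal.of_algEquiv (AlgEquiv.ofBijective f hf).symm
    exact isGalois_iff.2 ⟨inferInstance, hnorm⟩
  · intro s t
    let σ : L ≃ₐ[K] L := s.restrictNormal L
    let τ : L ≃ₐ[K] L := t.restrictNormal L
    have hs : ∀ l : L, s (algebraMap L E l) = algebraMap L E (σ l) := fun l =>
      (AlgEquiv.restrictNormal_commutes s L l).symm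
    have ht : ∀ l : L, t (algebraMap L E l) = algebraMap L E (τ l) := fun l =>
      (AlgEquiv.restrictNormal_commutes t L l).symm
    obtain ⟨η, hη1, hη⟩ := kum_key (K := K) (RingHom.id E) (s : E →+* E) σ he hζ
      hu (c σ) (w σ) (h1 σ) hx hs
    obtain ⟨ε, hε1, hε⟩ := kum_key (K := K) (RingHom.id E) (t : E →+* E) τ he hζ
      hu (c τ) (w τ) (h1 τ) hx ht
    have hη' : s x = algebraMap L E η * (x ^ c σ * algebraMap L E (w σ)) := hη
    have hε' : t x = algebraMap L E ε * (x ^ c τ * algebraMap L E (w τ)) := hε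
    have hcomm : ∀ y : E, s (t y) = t (s y) := by
      refine hind (fun y => s (t y) = t (s y)) ?_ ?_ ?_ ?_ ?_
      · rw [hη', hε']
        simp only [map_mul, map_pow, hs, ht]
        rw [hη', hε', h2 σ ε hε1, h2 τ η hη1]
        have h := congrArg (algebraMap L E) (h3 σ τ)
        simp only [map_mul, map_pow] at h ⊢
        simp only [mul_pow, ← pow_mul]
        have e1 : x ^ (c σ * c τ) = x ^ (c τ * c σ) := by rw [mul_comm]
        rw [e1]
        linear_combination (algebraMap L E ε) ^ c σ * (algebraMap L E η) ^ c τ *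
          x ^ (c τ * c σ) * h
      · intro l
        rw [ht, hs, hs, ht]
        have h := congrArg (fun ρ : L ≃ₐ[K] L => ρ l) (hab σ τ)
        exact congrArg (algebraMap L E) h
      · intro a b ha hb
        simp only [map_add, ha, hb]
      · intro a ha
        simp only [map_inv₀, ha]
      · intro a b ha hb
        simp only [map_mul, ha, hb]
    ext y
    exact hcomm y

end MPd9f52e
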