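import Mathlib

/-!
# The rank one Stark conjecture over a complex cubic field: definitions
-/

open NumberField

namespace MPd9f52e

/-- `σ` is a Frobenius at the prime ideal `P` of `K`: `σ x ≡ x ^ (N P)` modulo every prime ideal
of `L` above `P`, for all algebraic integers `x` of `L`. -/
def IsFrob (K L : Type) [Field K] [NumberField K] [Field L] [NumberField L] [Algebra K L]
    (P : Ideal (𝓞 K)) (σ : L ≃ₐ[K] L) : Prop :=
  ∀ Q : Ideal (𝓞 L), Q.IsPrime → Q.comap (algebraMap (𝓞 K) (𝓞 L)) = P →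
    ∀ x y : 𝓞 L, (y : L) = σ (x : L) → y - x ^ Ideal.absNorm P ∈ Q

/-- `σ` is an Artin symbol of the integral ideal `a` in the abelian extension `L / K`: a product
of Frobenius automorphisms over the prime factors of `a`. -/
inductive IsArtin (K L : Type) [Field K] [NumberField K] [Field L] [NumberField L]
    [Algebra K L] : Ideal (𝓞 K) → (L ≃ₐ[K] L) → Prop
  | one : IsArtin K L 1 1
  | mul (P a : Ideal (𝓞 K)) (σ τ : L ≃ₐ[K] L) : P.IsPrime → P ≠ ⊥ → IsFrob K L P σ →
      IsArtin K L a τ → IsArtin K L (P * a) (σ * τ)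

/-- The conclusion of Stark's conjecture (conditions 1, 2, 3) for the abelian extension `L / K`,
the ideal `f` of `K` and the complex place `v` of `L`; `e` is the number of roots of unity of
`L`. The partial zeta function of `ρ` is the sum of `N(a) ^ (-s)` over the nonzero ideals `a`
prime to `f` with Artin symbol `ρ`, continued from `Re s > 1` to `Re s > -1/2`, `s ≠ 1`. -/
def Stark (K L : Type) [Field K] [NumberField K] [Field L] [NumberField L] [Algebra K L]
    (f : Ideal (𝓞 K)) (v : InfinitePlace L) : Prop :=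
  ∃ u : L, u ≠ 0 ∧
    (∀ w : IsDedekindDomain.HeightOneSpectrum (𝓞 L), w.valuation L u = 1) ∧
    (∀ w : InfinitePlace L, (w.comap (algebraMap K L)).IsReal → w u = 1) ∧
    (∀ ρ : L ≃ₐ[K] L, ∃ Z : ℂ → ℂ,
      DifferentiableOn ℂ Z {s : ℂ | -1 / 2 < s.re ∧ s ≠ 1} ∧
      (∀ s : ℂ, 1 < s.re →
        HasSum (fun a : {a : Ideal (𝓞 K) // a ≠ ⊥ ∧ IsCoprime a f ∧ IsArtin K L a ρ} =>
          (Ideal.absNorm a.1 : ℂ) ^ (-s)) (Z s)) ∧
      deriv Z 0 = ((-(1 / (Units.torsionOrder L : ℝ)) * Real.log (v (ρ u) ^ 2) : ℝ) : ℂ)) ∧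
    (∀ (E : Type) [Field E] [Algebra K E] [Algebra L E] [IsScalarTower K L E] (x : E),
      x ^ Units.torsionOrder L = algebraMap L E u → IntermediateField.adjoin L {x} = ⊤ →
      IsGalois K E ∧ ∀ σ τ : E ≃ₐ[K] E, σ * τ = τ * σ)

/-- `K = ℚ(θ)` with `θ ^ 3 = d` cube-free, and `M = K(ζ)` with `ζ` a primitive `m`-th root of
unity. -/
structure Cyc (d m : ℕ) (K M : Type) [Field K] [NumberField K] [Field M] [NumberField M]
    [Algebra K M] (θ : K) (ζ : M) : Prop where
  two_le : 2 ≤ d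
  cubefree : ∀ p : ℕ, p.Prime → ¬ p ^ 3 ∣ d
  three_le : 3 ≤ m
  finrank : Module.finrank ℚ K = 3
  theta : θ ^ 3 = (d : K)
  prim : IsPrimitiveRoot ζ m
  gen : IntermediateField.adjoin K {ζ} = ⊤

/-- `S` is the isomorphism of `(ℤ/m)ˣ` onto the Galois group of `M / K` given by the action on
`ζ`. -/
def IsCycEquiv (m : ℕ) (K M : Type) [Field K] [Field M] [Algebra K M] (ζ : M)
    (S : (ZMod m)ˣ ≃* (M ≃ₐ[K] M)) : Prop :=
  ∀ g : (ZMod m)ˣ, S g ζ = ζ ^ (g : ZMod m).val

/-- Restriction to `L` of the automorphism belonging to `g`. -/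
noncomputable def rs {m : ℕ} {K M : Type} (L : Type) [Field K] [Field M] [Algebra K M] [Field L]
    [Algebra K L] [Algebra L M] [IsScalarTower K L M] [Normal K L]
    (S : (ZMod m)ˣ ≃* (M ≃ₐ[K] M)) : (ZMod m)ˣ →* (L ≃ₐ[K] L) :=
  (AlgEquiv.restrictNormalHom L).comp S.toMonoidHom

/-- The rational number `1/2 - b/m`, `0 ≤ b < m`. -/
noncomputable def bet (m : ℕ) (g : (ZMod m)ˣ) : ℚ := 1 / 2 - ((g : ZMod m).val : ℚ) / m

/-- Coefficients of the image in the group ring of the Galois group of `L / K` of the sum of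
`(1/2 - b/m) σ_b⁻¹` over all `b`. -/
noncomputable def thQ {m : ℕ} [NeZero m] {K L : Type} [Field K] [Field L] [Algebra K L]
    (r : (ZMod m)ˣ →* (L ≃ₐ[K] L)) (σ : L ≃ₐ[K] L) : ℚ := by
  classical
  exact ∑ g : (ZMod m)ˣ, if r g⁻¹ = σ then bet m g else 0

/-- Coefficients of `(σ_c - c)` times the element above. -/
noncomputable def thB {m : ℕ} [NeZero m] {K L : Type} [Field K] [Field L] [Algebra K L]
    (r : (ZMod m)ˣ →* (L ≃ₐ[K] L)) (c : ℕ) (σ : L ≃ₐ[K] L) : ℤ := by
  classical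
  exact ∑ g : (ZMod m)ˣ, if r g⁻¹ = σ then
    (1 - (c : ℤ)) / 2 + ((c * (g : ZMod m).val / m : ℕ) : ℤ) else 0

/-- `z` to the power of the element of the integral group ring with coefficients `A`. -/
noncomputable def pw {K L : Type} [Field K] [Field L] [Algebra K L] [FiniteDimensional K L]
    (A : (L ≃ₐ[K] L) → ℤ) (z : L) : L := by
  classical
  exact ∏ σ : L ≃ₐ[K] L, (σ z) ^ (A σ)

end MPd9f52e
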