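import Mathlib

/-!
# Definitions for the project STARK (MP_d9f52e_nt)

Rank one Stark conjecture for `K(ζ_m)/K`, `K` a pure cubic field.  `Eis = ℤ[ω]`, the lattice `ec(Eis) = LO.lattice`
in `ℂ`, the curve `y² + y = x³`, the lattice zeta function, the function `phi`, the elliptic numbers `RR a z`,
cubic residue symbols.  See the paper `MP_d9f52e_paper.md` in the team store.
-/

set_option autoImplicit false

namespace MPd9f52e

open Complex

/-! ## Eisenstein integers -/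

/-- `ℤ[ω]`, `ω² = -1 - ω` -/
abbrev Eis := QuadraticAlgebra ℤ (-1) (-1)

/-- `ω` in `Eis` -/
def om : Eis := ⟨0, 1⟩

/-- `√-3 = 1 + 2ω` in `Eis` -/
def s3 : Eis := ⟨1, 2⟩

/-- the norm `a² - ab + b²` -/
def nm (b : Eis) : ℕ := (b.re ^ 2 - b.re * b.im + b.im ^ 2).natAbs

/-- `ω = (-1 + i√3)/2` in `ℂ` -/
noncomputable def w : ℂ := ⟨-1 / 2, Real.sqrt 3 / 2⟩

lemma w_sq : w ^ 2 = -1 - w := by
  apply Complex.ext
  · simp only [w, pow_two, Complex.mul_re, Complex.sub_re, Complex.neg_re, Complex.one_re]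
    have h := Real.mul_self_sqrt (show (0 : ℝ) ≤ 3 by norm_num)
    nlinarith [h]
  · simp only [w, pow_two, Complex.mul_im, Complex.sub_im, Complex.neg_im, Complex.one_im]
    ring

/-- the embedding `a + bω ↦ a + b w` of `Eis` in `ℂ` -/
noncomputable def ec : Eis →+* ℂ where
  toFun b := (b.re : ℂ) + (b.im : ℂ) * w
  map_one' := by simp [QuadraticAlgebra.re_one, QuadraticAlgebra.im_one]
  map_mul' a b := by
    simp only [QuadraticAlgebra.re_mul, QuadraticAlgebra.im_mul]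
    push_cast
    linear_combination (-(a.im : ℂ) * b.im) * w_sq
  map_zero' := by simp
  map_add' a b := by
    simp only [QuadraticAlgebra.re_add, QuadraticAlgebra.im_add]
    push_cast
    ring

/-- the six units; `a` and `b` are associated modulo `f` -/
def Rel (f : ℕ) (a b : Eis) : Prop := ∃ ε : Eisˣ, (f : Eis) ∣ a - ε * b

/-- the lattice `ℤ[ω]` of `ℂ` as a period pair -/
noncomputable def LO : PeriodPair where
  ω₁ := 1
  ω₂ := w
  indep := by
    rw [LinearIndependent.pair_iff]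
    intro s t h
    have him := congrArg Complex.im h
    have hre := congrArg Complex.re h
    simp [w] at him hre
    subst him
    simpa using hre

/-! ## The curve `y² + y = x³` -/

/-- `Ω`, `Ω⁶ = -g₃(ℤ[ω])` -/
noncomputable def Om : ℂ := (-LO.g₃) ^ ((1 : ℂ) / 6)

/-- the coordinate `x(z)`, `ℤ[ω]`-periodic -/
noncomputable def xx (z : ℂ) : ℂ := LO.weierstrassP z / Om ^ 2

/-- the coordinate `y(z)` -/
noncomputable def yy (z : ℂ) : ℂ := (LO.derivWeierstrassP z / Om ^ 3 - 1) / 2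

/-- the curve `y² + y = x³` -/
def E0 : WeierstrassCurve.Affine ℤ := ⟨0, 0, 1, 0, 0⟩

/-! ## The lattice zeta function -/

/-- the quadratic character modulo 3 -/
noncomputable def chi3 : DirichletCharacter ℂ 3 :=
  haveI : Fact (Nat.Prime 3) := ⟨Nat.prime_three⟩
  (quadraticChar (ZMod 3)).ringHomComp (Int.castRingHom ℂ)

/-- `E(s) = Σ_{l ≠ 0} |l|^{-2s} = 6 ζ(s) L(s, χ₃)` -/
noncomputable def Ez (s : ℂ) : ℂ := 6 * riemannZeta s * DirichletCharacter.LFunction chi3 s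

/-- the residue of `Ez` at `1` -/
noncomputable def r0 : ℝ := 2 * Real.pi / Real.sqrt 3

/-- the remainder of the second order expansion of `|z + l|^{-2s}` -/
noncomputable def remT (z s : ℂ) (l : ℂ) : ℂ :=
  (‖z + l‖ : ℂ) ^ (-2 * s) - (‖l‖ : ℂ) ^ (-2 * s) *
    (1 - s * (z / l + (starRingEnd ℂ) (z / l)) + s * (s + 1) / 2 * ((z / l) ^ 2 + (starRingEnd ℂ) (z / l) ^ 2) +
      s ^ 2 * (z / l * (starRingEnd ℂ) (z / l)))

/-- the sum of the remainders -/
noncomputable def Rem (z s : ℂ) : ℂ := ∑' l : Eis, if l = 0 then 0 else remT z s (ec l)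

/-- the lattice zeta function `H(s, z) = Σ |z + l|^{-2s}` (continued to `Re s > -1/2`) -/
noncomputable def Hc (z s : ℂ) : ℂ :=
  (‖z‖ : ℂ) ^ (-2 * s) + Ez s + s ^ 2 * (‖z‖ : ℂ) ^ 2 * Ez (s + 1) + Rem z s

/-- the domain `Re s > -1/2`, `s ≠ 1` -/
def Dom : Set ℂ := {s : ℂ | -1 / 2 < s.re ∧ s ≠ 1}

open Classical in
/-- `phi(z) = exp(-H'(0,z)/2)` off the lattice, `0` on the lattice -/
noncomputable def phi (z : ℂ) : ℝ :=
  if z ∈ LO.lattice then 0 else Real.exp (-(deriv (Hc z) 0).re / 2)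

/-- the constant `exp(-E'(0)/2)` -/
noncomputable def c0 : ℝ := Real.exp (-(deriv Ez 0).re / 2)

/-- the factor of the sigma product -/
noncomputable def sigF (z : ℂ) (l : Eis) : ℂ :=
  if l = 0 then 1 else (1 + z / ec l) * Complex.exp (-(z / ec l) + z ^ 2 / (2 * ec l ^ 2))

/-- the Weierstrass sigma function of `ℤ[ω]` -/
noncomputable def sigma (z : ℂ) : ℂ := z * ∏' l : Eis, sigF z l

/-! ## Residue systems -/

/-- complete residue system modulo `b` -/
def IsCRS (b : Eis) (S : Finset Eis) : Prop :=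
  (∀ r ∈ S, ∀ r' ∈ S, b ∣ r - r' → r = r') ∧ ∀ x : Eis, ∃ r ∈ S, b ∣ x - r

/-- representatives of the nonzero residues modulo `a` up to sign -/
def IsHalf (a : Eis) (V : Finset Eis) : Prop :=
  (∀ v ∈ V, ¬ a ∣ v) ∧ (∀ v ∈ V, ∀ v' ∈ V, (a ∣ v - v' ∨ a ∣ v + v') → v = v') ∧
    ∀ x : Eis, ¬ a ∣ x → ∃ v ∈ V, a ∣ x - v ∨ a ∣ x + v

/-- representatives of the nonzero residues modulo `a` up to the six units -/
def IsSixth (a : Eis) (V : Finset Eis) : Prop :=
  (∀ v ∈ V, ¬ a ∣ v) ∧ (∀ v ∈ V, ∀ v' ∈ V, (∃ ε : Eisˣ, a ∣ v - ε * v') → v = v') ∧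
    ∀ x : Eis, ¬ a ∣ x → ∃ v ∈ V, ∃ ε : Eisˣ, a ∣ x - ε * v

/-- representatives of the classes prime to `f` modulo `f` and the units -/
def IsSys (f : ℕ) (S : Finset Eis) : Prop :=
  (∀ r ∈ S, IsCoprime r (f : Eis)) ∧ (∀ r ∈ S, ∀ r' ∈ S, Rel f r r' → r = r') ∧
    ∀ x : Eis, IsCoprime x (f : Eis) → ∃ r ∈ S, Rel f x r

open Classical in
/-- a half system modulo `a` -/
noncomputable def V2 (a : Eis) : Finset Eis := if h : ∃ V, IsHalf a V then h.choose else ∅

open Classical in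
/-- a system of classes modulo `f` and units -/
noncomputable def Sys (f : ℕ) : Finset Eis := if h : ∃ S, IsSys f S then h.choose else ∅

/-! ## The elliptic numbers -/

/-- `R'_a(z) = a⁻¹ ∏ (x(z) - x(v))⁻¹`, `v` over the nonzero `a`-torsion up to sign -/
noncomputable def Rp (a : Eis) (z : ℂ) : ℂ := (ec a)⁻¹ * ∏ v ∈ V2 a, (xx z - xx (ec v / ec a))⁻¹

/-- `R_a(z) = (√-3³)^{(N a - 1)/6} R'_a(z)` -/
noncomputable def RR (a : Eis) (z : ℂ) : ℂ := ((1 + 2 * w) ^ 3) ^ ((nm a - 1) / 6) * Rp a z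

/-- the automorphism `t` of `ℂ` acts by `u` on the `n`-torsion of `y² + y = x³` -/
def ActsBy (t : ℂ ≃+* ℂ) (n : ℕ) (u : Eis) : Prop :=
  IsCoprime u (n : Eis) ∧ ∀ r : Eis, ec r / n ∉ LO.lattice →
    t (xx (ec r / n)) = xx (ec (u * r) / n) ∧ t (yy (ec r / n)) = yy (ec (u * r) / n)

/-! ## Cubic residue symbols -/

open Classical in
/-- the cubic residue symbol: `b^{(N p - 1)/3} ≡ ω^{cs p b}` modulo the prime `p` of `Eis` (junk `0` if `p ∣ b`) -/
noncomputable def cs (p b : Eis) : ZMod 3 :=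
  if p ∣ b ^ ((nm p - 1) / 3) - om then 1 else if p ∣ b ^ ((nm p - 1) / 3) - om ^ 2 then 2 else 0

open Classical in
/-- for a prime number `p ≠ 3`: the product of the symbols over the primes above `p` -/
noncomputable def csp (p : ℕ) (b : Eis) : ZMod 3 :=
  if h : ∃ l : Eis, nm l = p then cs h.choose b + cs (star h.choose) b else cs (p : Eis) b

/-- the symbol `χ_n(b)` for `n` prime to `3` -/
noncomputable def csn (n : ℕ) (b : Eis) : ZMod 3 := n.factorization.sum fun p k => (k : ZMod 3) * csp p b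

open Classical in
/-- the associate `≡ 1 mod 3` of `b` (if `b` is prime to `3`) -/
noncomputable def prim (b : Eis) : Eis := if h : ∃ ε : Eisˣ, (3 : Eis) ∣ ε * b - 1 then h.choose * b else b

/-- `n(b)`: the associate `≡ 1 mod 3` of `b` is `1 + 3 (m + n(b) ω)` -/
noncomputable def nn (b : Eis) : ZMod 3 := (((prim b).im / 3 : ℤ) : ZMod 3)

/-- case C: `3 ∤ m` and `d ≡ ±1 mod 9` -/
def caseC (d m : ℕ) : Prop := ¬ 3 ∣ m ∧ (d % 9 = 1 ∨ d % 9 = 8)

open Classical in
/-- the level `f` -/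
noncomputable def lev (d m : ℕ) : ℕ := if caseC d m then d * m else 9 * d * m

open Classical in
/-- the cubic character `kappa` of level `lev d m` attached to `d` -/
noncomputable def kap (d m : ℕ) (b : Eis) : ZMod 3 :=
  if caseC d m then csn d b
  else csn (d / 3 ^ d.factorization 3) (prim b) + (d.factorization 3 : ZMod 3) * nn b

/-- the complex number `w^{j}`, `j ∈ ℤ/3` -/
noncomputable def wj (j : ZMod 3) : ℂ := w ^ j.val

/-! ## The numbers `Phi(i, g)` -/

open Classical in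
/-- `Phi(i,g)`: product of `phi(r/f)` over the classes with `kappa = i` and norm `≡ g mod m` -/
noncomputable def Phi (d m : ℕ) (i : ZMod 3) (g : ZMod m) : ℝ :=
  ∏ r ∈ (Sys (lev d m)).filter (fun r => kap d m r = i ∧ (nm r : ZMod m) = g), phi (ec r / lev d m)

/-! ## Dirichlet coefficients -/

/-- the elements of norm `n` -/
noncomputable def ofNorm (n : ℕ) : Finset Eis :=
  ((Finset.Icc (-(2 * n : ℤ)) (2 * n) ×ˢ Finset.Icc (-(2 * n : ℤ)) (2 * n)).image
    (fun p => (⟨p.1, p.2⟩ : Eis))).filter (fun b => nm b = n)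

open Classical in
/-- `t(n) = (1/6) Σ_{N b = n, (b,f)=1} w^{kappa(b)}` -/
noncomputable def tt (d m n : ℕ) : ℂ :=
  (1 / 6 : ℂ) * ∑ b ∈ (ofNorm n).filter (fun b => IsCoprime b ((lev d m : ℕ) : Eis)), wj (kap d m b)

open Classical in
/-- `T_g(s) = Σ_{n ≡ g} t(n) n^{-s}`, continued -/
noncomputable def TT (d m : ℕ) (g : ZMod m) (s : ℂ) : ℂ :=
  ∑ r ∈ (Sys (lev d m)).filter (fun r => (nm r : ZMod m) = g),
    wj (kap d m r) * ((lev d m : ℕ) : ℂ) ^ (-2 * s) * Hc (ec r / lev d m) s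

/-- `Σ_{n ≡ b mod m} n^{-s}`, continued -/
noncomputable def zQ (m : ℕ) (b : ZMod m) (s : ℂ) : ℂ :=
  (m : ℂ) ^ (-s) * HurwitzZeta.hurwitzZeta (((b.val : ℝ) / m : ℝ) : UnitAddCircle) s

open Classical in
/-- `Σ_{(a,m)=1, N a ≡ g} N a^{-s}` over the ideals of `ℤ_K`, `K = ℚ(∛d)`, continued -/
noncomputable def ZZ (d m : ℕ) [NeZero m] (g : ZMod m) (s : ℂ) : ℂ :=
  ∑ b : (ZMod m)ˣ, zQ m (b : ZMod m) s * TT d m (g * ((b⁻¹ : (ZMod m)ˣ) : ZMod m)) s

end MPd9f52e
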