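import Mathlib
import Pool.Agent.Lib.MP_d9f52e_nt.Defs

/-!
# GExt: automorphisms of C  (about 200 lines)

`exists_aut`: two embeddings `i, j` of a number field `F` in `ℂ` differ by an automorphism `t` of `ℂ`: make `ℂ` an `F`-algebra through `i` and through `j`; both are algebraically closed and have transcendence bases over `F` of cardinality continuum (`F` is countable; `Cardinal.mk_complex`-type lemmas as in
Mathlib's `IsAlgClosed.ringEquivOfCardinalEqOfCharEq`), then use `IsAlgClosed.equivOfTranscendenceBasis` (as `F`-algebra equivalence; if only a ring equivalence is available, look at its construction: `IsAlgClosure.equivOfEquiv`).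
Alternative: choose a transcendence basis `B` of `ℂ` over `ℚ`; `A = algebraicClosure ℚ ℂ`; extend `j i^{-1}` to an automorphism of `A` (`IsAlgClosed.lift`), then to `A(B)` (fixing `B`), then to the algebraic closure `ℂ` of `A(B)`.
`descent`: `y` algebraic over `ℚ`, not in `i(F)`: its minimal polynomial over `F` has degree > 1 and is separable, so it has another root `y'` in `ℂ`; `F(y) = F[X]/(minpoly)` has embeddings `i' , j'` over `i` with `i'(X) = y`, `j'(X) = y'`; `exists_aut` for `F(y)` gives `t` with `t i = i`, `t y = y' <> y`.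
-/

set_option autoImplicit false

namespace MPd9f52e

open Complex

open Cardinal in
private theorem aut_aux {F : Type*} {K L : Type} [Field F] [Field K] [Field L] [Algebra F K] [Algebra F L]
    [IsAlgClosed K] [IsAlgClosed L] (hF : #F ≤ ℵ₀) (hK : ℵ₀ < #K) (hL : ℵ₀ < #L) (hKL : #K = #L) :
    ∃ e : K ≃+* L, ∀ x : F, e (algebraMap F K x) = algebraMap F L x := by
  obtain ⟨s, hs⟩ := exists_isTranscendenceBasis F K
  obtain ⟨t, ht⟩ := exists_isTranscendenceBasis F L
  have h1 := IsAlgClosed.cardinal_eq_cardinal_transcendence_basis_of_aleph0_lt _ hs hF hK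
  have h2 := IsAlgClosed.cardinal_eq_cardinal_transcendence_basis_of_aleph0_lt _ ht hF hL
  have h3 : #s = #t := by
    have h1' := h1
    have h2' := h2
    simp only [Cardinal.lift_id] at h1' h2'
    rw [← h1', ← h2', hKL]
  obtain ⟨e0⟩ := Cardinal.eq.1 h3
  let := IsAlgClosed.isAlgClosure_of_transcendence_basis _ hs
  let := IsAlgClosed.isAlgClosure_of_transcendence_basis _ ht
  let e : Algebra.adjoin F (Set.range ((↑) : s → K)) ≃ₐ[F] Algebra.adjoin F (Set.range ((↑) : t → L)) :=
    (hs.1.aevalEquiv.symm.trans (MvPolynomial.renameEquiv F e0)).trans ht.1.aevalEquiv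
  refine ⟨IsAlgClosure.equivOfEquiv K L e.toRingEquiv, fun x => ?_⟩
  have h4 := IsAlgClosure.equivOfEquiv_algebraMap K L e.toRingEquiv
    (algebraMap F (Algebra.adjoin F (Set.range ((↑) : s → K))) x)
  have h5 : algebraMap (Algebra.adjoin F (Set.range ((↑) : s → K))) K
      (algebraMap F (Algebra.adjoin F (Set.range ((↑) : s → K))) x) = algebraMap F K x := rfl
  rw [h5] at h4
  rw [h4]
  have h6 : e.toRingEquiv (algebraMap F (Algebra.adjoin F (Set.range ((↑) : s → K))) x) =
    algebraMap F (Algebra.adjoin F (Set.range ((↑) : t → L))) x := e.commutes x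
  rw [h6]
  rfl

theorem exists_aut {F : Type*} [Field F] [NumberField F] (i j : F →+* ℂ) : ∃ t : ℂ ≃+* ℂ, ∀ x, t (i x) = j x := by
  have hc : Countable F := (Module.finBasis ℚ F).equivFun.toEquiv.injective.countable
  have hF : Cardinal.mk F ≤ Cardinal.aleph0 := Cardinal.mk_le_aleph0_iff.mpr hc
  have hC : Cardinal.aleph0 < Cardinal.mk ℂ := by
    rw [Cardinal.mk_complex]; exact Cardinal.aleph0_lt_continuum
  exact @aut_aux F ℂ ℂ _ _ _ i.toAlgebra j.toAlgebra _ _ hF hC hC rfl

theorem descent {F : Type*} [Field F] [NumberField F] (i : F →+* ℂ) (y : ℂ) (hy : IsAlgebraic ℚ y)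
    (h : ∀ t : ℂ ≃+* ℂ, (∀ x, t (i x) = i x) → t y = y) : ∃ x, i x = y := by
  let : Algebra F ℂ := i.toAlgebra
  have hi : ∀ x, algebraMap F ℂ x = i x := fun x => rfl
  have hyF : IsIntegral F y := by
    have h1 : IsIntegral ℚ y := hy.isIntegral
    obtain ⟨p, hp, hp0⟩ := h1
    refine ⟨p.map (algebraMap ℚ F), hp.map _, ?_⟩
    rw [Polynomial.eval₂_map]
    have : (algebraMap F ℂ).comp (algebraMap ℚ F) = algebraMap ℚ ℂ := Subsingleton.elim _ _
    rw [this]
    exact hp0
  by_contra hne
  push Not at hne
  -- the minimal polynomial has degree > 1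
  have hdeg : (minpoly F y).natDegree ≠ 1 := by
    intro hd
    have h2 := (minpoly.natDegree_eq_one_iff (A := F) (B := ℂ)).1 hd
    obtain ⟨x, hx⟩ := h2
    exact hne x hx
  have hsep : (minpoly F y).Separable := (minpoly.irreducible hyF).separable
  -- another root
  have hcard : 1 < ((minpoly F y).rootSet ℂ).ncard := by
    have h3 := Polynomial.card_rootSet_eq_natDegree hsep (IsAlgClosed.splits ((minpoly F y).map (algebraMap F ℂ)))
    rw [Set.ncard_eq_toFinset_card', Set.toFinset_card, h3]
    have h4 := minpoly.natDegree_pos hyF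
    omega
  obtain ⟨y', hy', hyy'⟩ := Set.exists_ne_of_one_lt_ncard hcard y
  have hy'0 : Polynomial.aeval y' (minpoly F y) = 0 := (Polynomial.mem_rootSet.1 hy').2
  -- embeddings of F(y)
  let E := IntermediateField.adjoin F {y}
  have : FiniteDimensional F E := IntermediateField.adjoin.finiteDimensional hyF
  have : NumberField E := NumberField.of_module_finite F E
  let φ : E →ₐ[F] ℂ := (IntermediateField.algHomAdjoinIntegralEquiv F hyF).symm
    ⟨y', by rw [Polynomial.mem_aroots]; exact ⟨minpoly.ne_zero hyF, hy'0⟩⟩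
  have hφ : φ (IntermediateField.AdjoinSimple.gen F y) = y' :=
    IntermediateField.algHomAdjoinIntegralEquiv_symm_apply_gen F hyF _
  obtain ⟨t, ht⟩ := exists_aut (E.val : E →+* ℂ) (φ : E →+* ℂ)
  have h5 : ∀ x, t (i x) = i x := by
    intro x
    have h6 := ht (algebraMap F E x)
    have h7 : (E.val : E →+* ℂ) (algebraMap F E x) = i x := rfl
    have h8 : (φ : E →+* ℂ) (algebraMap F E x) = i x := φ.commutes x
    rw [h7, h8] at h6
    exact h6
  have h9 := h t h5
  have h10 := ht (IntermediateField.AdjoinSimple.gen F y)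
  have h11 : (E.val : E →+* ℂ) (IntermediateField.AdjoinSimple.gen F y) = y := rfl
  rw [h11, h9] at h10
  exact hyy' (by rw [← hφ]; exact h10.symm)

/-- complex conjugation -/
noncomputable def cj : ℂ ≃+* ℂ where
  toFun z := (starRingEnd ℂ) z
  invFun z := (starRingEnd ℂ) z
  left_inv z := Complex.conj_conj z
  right_inv z := Complex.conj_conj z
  map_mul' a b := map_mul _ a b
  map_add' a b := map_add _ a b

/-- an automorphism sends `w` to `w` or `w²` -/
theorem aut_w (t : ℂ ≃+* ℂ) : t w = w ∨ t w = w ^ 2 := by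
  have h1 : (t w) ^ 2 = -1 - t w := by
    rw [← map_pow, w_sq]
    simp
  have h2 : (t w - w) * (t w - w ^ 2) = 0 := by
    have h3 := w_sq
    linear_combination h1 + (t w * (-1 : ℂ) + w - 1) * h3
  rcases mul_eq_zero.1 h2 with h | h
  · left; linear_combination h
  · right; linear_combination h

end MPd9f52e
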