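import Mathlib
import Pool.Agent.Lib.MP_d9f52e_nt.Defs

/-!
# EBas: basic facts on Eis and the embedding ec  (about 200 lines)

Everything is direct: `ec b = b.re + b.im w`, `w = (-1 + i sqrt 3)/2`, so `|ec b|^2 = re^2 - re im + im^2`.
`nm` is multiplicative because `(nm b : R) = |ec b|^2`.  A unit has norm one (`nm e * nm e' = 1`), conversely
`b * star b = nm b`.  The elements of norm one are `±1, ±om, ±om^2`: `4 nm b = (2 re - im)^2 + 3 im^2 = 4`.
`mem_LO`: `LO.lattice` is the `Z`-span of `1` and `w` (PeriodPair.mem_lattice).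
`mem_ofNorm`: `4 nm b = (2re-im)^2+3im^2 >= 3 im^2` and the same for `re`, so `|re|, |im| <= 2 nm b`.
-/

set_option autoImplicit false

namespace MPd9f52e

open Complex

private theorem w_re : w.re = -1 / 2 := rfl

private theorem w_im : w.im = Real.sqrt 3 / 2 := rfl

private theorem s3s : Real.sqrt 3 * Real.sqrt 3 = 3 := Real.mul_self_sqrt (by norm_num)

private theorem s3pos : 0 < Real.sqrt 3 := Real.sqrt_pos.mpr (by norm_num)

theorem w_exp : w = Complex.exp (2 * Real.pi * I / 3) := by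
  have h : (2 * Real.pi * I / 3 : ℂ) = ((Real.pi - Real.pi / 3 : ℝ) : ℂ) * I := by
    push_cast
    ring
  rw [h, Complex.exp_mul_I, ← Complex.ofReal_cos, ← Complex.ofReal_sin, Real.cos_pi_sub,
    Real.sin_pi_sub, Real.cos_pi_div_three, Real.sin_pi_div_three]
  apply Complex.ext
  · simp [w]
    norm_num
  · simp [w]

theorem w_pow_three : w ^ 3 = 1 := by
  have h : w ^ 3 = w * w ^ 2 := by ring
  rw [h, w_sq]
  have h2 : w * (-1 - w) = -w - w ^ 2 := by ring
  rw [h2, w_sq]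
  ring

theorem w_ne_one : w ≠ 1 := by
  intro h
  have h2 := congrArg Complex.re h
  rw [w_re] at h2
  norm_num at h2

theorem norm_w : ‖w‖ = 1 := by
  have h : ‖w‖ ^ 3 = 1 := by rw [← norm_pow, w_pow_three, norm_one]
  exact (pow_eq_one_iff_of_nonneg (norm_nonneg _) (by norm_num)).mp h

theorem conj_w : (starRingEnd ℂ) w = w ^ 2 := by
  rw [w_sq]
  apply Complex.ext
  · simp only [Complex.conj_re, Complex.sub_re, Complex.neg_re, Complex.one_re, w_re]
    norm_num
  · simp only [Complex.conj_im, Complex.sub_im, Complex.neg_im, Complex.one_im, w_im]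
    ring

/-- `1 + 2w = √3 i` -/
theorem s3_val : (1 + 2 * w) = (Real.sqrt 3 : ℂ) * I := by
  apply Complex.ext
  · simp [w_re]
    norm_num
  · simp [w_im]
    ring

theorem ec_om : ec om = w := by
  change ((om.re : ℤ) : ℂ) + ((om.im : ℤ) : ℂ) * w = w
  simp [om]

theorem ec_s3 : ec s3 = 1 + 2 * w := by
  change ((s3.re : ℤ) : ℂ) + ((s3.im : ℤ) : ℂ) * w = 1 + 2 * w
  simp [s3]

theorem ec_eq (b : Eis) : ec b = (b.re : ℂ) + (b.im : ℂ) * w := rfl

theorem ec_inj : Function.Injective ec := by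
  intro a b h
  rw [ec_eq, ec_eq] at h
  have him := congrArg Complex.im h
  have hre := congrArg Complex.re h
  simp [w_re, w_im] at him hre
  have h2 : a.im = b.im := by exact_mod_cast him
  have h3 : (a.re : ℝ) = b.re := by
    rw [h2] at hre
    linarith
  have h4 : a.re = b.re := by exact_mod_cast h3
  exact QuadraticAlgebra.ext h4 h2

theorem ec_star (b : Eis) : ec (star b) = (starRingEnd ℂ) (ec b) := by
  rw [ec_eq, ec_eq]
  simp only [map_add, map_mul, conj_w, w_sq, QuadraticAlgebra.re_star, QuadraticAlgebra.im_star]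
  have h1 : (starRingEnd ℂ) (b.re : ℂ) = b.re := map_intCast _ _
  have h2 : (starRingEnd ℂ) (b.im : ℂ) = b.im := map_intCast _ _
  rw [h1, h2]
  push_cast
  ring

theorem om_sq : om ^ 2 = -1 - om := by
  apply ec_inj
  rw [map_pow, map_sub, map_neg, map_one, ec_om, w_sq]

theorem om_pow_three : om ^ 3 = 1 := by
  apply ec_inj
  rw [map_pow, map_one, ec_om, w_pow_three]

theorem star_om : star om = om ^ 2 := by
  apply ec_inj
  rw [ec_star, map_pow, ec_om, conj_w]

theorem s3_sq : s3 ^ 2 = -3 := by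
  apply ec_inj
  have h3 : ec (-3) = -3 := by
    rw [map_neg]
    congr 1
    exact map_ofNat ec 3
  rw [map_pow, ec_s3, h3]
  linear_combination 4 * w_sq

/-- the norm as an integer -/
private def nz (b : Eis) : ℤ := b.re ^ 2 - b.re * b.im + b.im ^ 2

private theorem four_nz (b : Eis) : 4 * nz b = (2 * b.re - b.im) ^ 2 + 3 * b.im ^ 2 := by
  unfold nz
  ring

private theorem four_nz' (b : Eis) : 4 * nz b = (2 * b.im - b.re) ^ 2 + 3 * b.re ^ 2 := by
  unfold nz
  ring

private theorem nz_nonneg (b : Eis) : 0 ≤ nz b := by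
  have h := four_nz b
  nlinarith [sq_nonneg (2 * b.re - b.im), sq_nonneg b.im]

private theorem nm_eq (b : Eis) : (nm b : ℤ) = nz b := by
  have h : nm b = (nz b).natAbs := rfl
  rw [h]
  exact Int.natAbs_of_nonneg (nz_nonneg b)

theorem nm_cast (b : Eis) : (nm b : ℝ) = ‖ec b‖ ^ 2 := by
  have h : (nm b : ℝ) = ((nz b : ℤ) : ℝ) := by
    rw [← nm_eq]
    simp
  rw [h, ← Complex.normSq_eq_norm_sq, ec_eq, Complex.normSq_apply]
  simp [w_re, w_im, nz]
  have := s3s
  linear_combination (-(b.im : ℝ) ^ 2 / 4) * this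

theorem nm_mul (a b : Eis) : nm (a * b) = nm a * nm b := by
  have h : (nm (a * b) : ℝ) = nm a * nm b := by
    rw [nm_cast, nm_cast, nm_cast, map_mul, norm_mul]
    ring
  exact_mod_cast h

theorem nm_one : nm 1 = 1 := by
  have h : (nm 1 : ℝ) = 1 := by
    rw [nm_cast, map_one]
    simp
  exact_mod_cast h

theorem nm_om : nm om = 1 := by
  have h : (nm om : ℝ) = 1 := by
    rw [nm_cast, ec_om, norm_w]
    simp
  exact_mod_cast h

theorem nm_s3 : nm s3 = 3 := by
  rfl

theorem nm_neg (b : Eis) : nm (-b) = nm b := by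
  have h : (nm (-b) : ℝ) = nm b := by
    rw [nm_cast, nm_cast, map_neg, norm_neg]
  exact_mod_cast h

theorem nm_pow (a : Eis) (n : ℕ) : nm (a ^ n) = nm a ^ n := by
  induction n with
  | zero => simp [nm_one]
  | succ n ih => rw [pow_succ, nm_mul, ih, pow_succ]

theorem nm_star (b : Eis) : nm (star b) = nm b := by
  have h : (nm (star b) : ℝ) = nm b := by
    rw [nm_cast, nm_cast, ec_star, Complex.norm_conj]
  exact_mod_cast h

theorem nm_natCast (n : ℕ) : nm (n : Eis) = n ^ 2 := by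
  have h : (nm (n : Eis) : ℝ) = (n : ℝ) ^ 2 := by
    rw [nm_cast, map_natCast, Complex.norm_natCast]
  exact_mod_cast h

theorem nm_eq_zero (b : Eis) : nm b = 0 ↔ b = 0 := by
  constructor
  · intro h
    have h1 : (nm b : ℝ) = 0 := by rw [h]; simp
    rw [nm_cast] at h1
    have h2 : ec b = 0 := by
      have := pow_eq_zero_iff (two_ne_zero) |>.mp h1
      exact norm_eq_zero.mp this
    apply ec_inj
    rw [h2, map_zero]
  · rintro rfl
    rfl

theorem mul_star_self (b : Eis) : b * star b = (nm b : Eis) := by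
  have h : ((nm b : ℕ) : Eis) = ((nz b : ℤ) : Eis) := by
    rw [← nm_eq]
    simp
  rw [h]
  ext
  · simp only [QuadraticAlgebra.re_mul, QuadraticAlgebra.re_star, QuadraticAlgebra.im_star,
      QuadraticAlgebra.re_intCast, nz]
    ring_nf
    simp
  · simp only [QuadraticAlgebra.im_mul, QuadraticAlgebra.re_star, QuadraticAlgebra.im_star,
      QuadraticAlgebra.im_intCast]
    ring

theorem nm_dvd {a b : Eis} (h : a ∣ b) : nm a ∣ nm b := by
  obtain ⟨c, rfl⟩ := h
  exact ⟨nm c, nm_mul a c⟩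

theorem mem_LO (z : ℂ) : z ∈ LO.lattice ↔ ∃ b : Eis, ec b = z := by
  rw [PeriodPair.mem_lattice]
  constructor
  · rintro ⟨m, n, h⟩
    refine ⟨⟨m, n⟩, ?_⟩
    rw [ec_eq, ← h]
    simp [LO]
  · rintro ⟨b, h⟩
    refine ⟨b.re, b.im, ?_⟩
    rw [← h, ec_eq]
    simp [LO]

theorem ec_mem (b : Eis) : ec b ∈ LO.lattice := (mem_LO _).mpr ⟨b, rfl⟩

theorem ec_ne_zero {b : Eis} (h : b ≠ 0) : ec b ≠ 0 := by
  intro h2
  apply h
  apply ec_inj
  rw [h2, map_zero]

/-- nonzero elements have absolute value at least one -/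
theorem one_le_norm_ec {b : Eis} (h : b ≠ 0) : 1 ≤ ‖ec b‖ := by
  have h1 : nm b ≠ 0 := fun h2 => h ((nm_eq_zero b).mp h2)
  have h2 : 1 ≤ nm b := Nat.one_le_iff_ne_zero.mpr h1
  have h3 : (1 : ℝ) ≤ ‖ec b‖ ^ 2 := by
    rw [← nm_cast]
    exact_mod_cast h2
  have h4 := norm_nonneg (ec b)
  nlinarith

/-- `ec r / ec b` is in the lattice iff `b ∣ r` -/
theorem div_mem {b r : Eis} (hb : b ≠ 0) : ec r / ec b ∈ LO.lattice ↔ b ∣ r := by
  have h0 := ec_ne_zero hb
  rw [mem_LO]
  constructor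
  · rintro ⟨c, hc⟩
    refine ⟨c, ?_⟩
    apply ec_inj
    rw [map_mul, hc]
    field_simp
  · rintro ⟨c, rfl⟩
    refine ⟨c, ?_⟩
    rw [map_mul]
    field_simp

theorem unit_iff (b : Eis) : IsUnit b ↔ nm b = 1 := by
  constructor
  · intro h
    have h2 := nm_dvd (isUnit_iff_dvd_one.mp h)
    rw [nm_one] at h2
    exact Nat.dvd_one.mp h2
  · intro h
    have h2 := mul_star_self b
    rw [h, Nat.cast_one] at h2
    exact IsUnit.of_mul_eq_one _ h2

private theorem nm_one_cases (b : Eis) (h : nm b = 1) :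
    ∃ j : ℕ, j < 3 ∧ (b = om ^ j ∨ b = -om ^ j) := by
  have h1 : nz b = 1 := by rw [← nm_eq, h]; rfl
  have h2 := four_nz b
  have h3 := four_nz' b
  rw [h1] at h2 h3
  have hi1 : b.im ≤ 1 := by nlinarith [sq_nonneg (2 * b.re - b.im)]
  have hi2 : -1 ≤ b.im := by nlinarith [sq_nonneg (2 * b.re - b.im)]
  have hr1 : b.re ≤ 1 := by nlinarith [sq_nonneg (2 * b.im - b.re)]
  have hr2 : -1 ≤ b.re := by nlinarith [sq_nonneg (2 * b.im - b.re)]
  have ho : om ^ 2 = (⟨-1, -1⟩ : Eis) := by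
    rw [om_sq]
    rfl
  obtain ⟨x, y⟩ := b
  simp only [nz] at h1 hi1 hi2 hr1 hr2
  interval_cases x <;> interval_cases y <;> simp at h1 <;> first
    | exact ⟨0, by norm_num, Or.inl (by rw [pow_zero]; rfl)⟩
    | exact ⟨0, by norm_num, Or.inr (by rw [pow_zero]; rfl)⟩
    | exact ⟨1, by norm_num, Or.inl (by rw [pow_one]; rfl)⟩
    | exact ⟨1, by norm_num, Or.inr (by rw [pow_one]; rfl)⟩
    | exact ⟨2, by norm_num, Or.inl ho.symm⟩
    | exact ⟨2, by norm_num, Or.inr (by rw [ho]; rfl)⟩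

theorem units_eq (ε : Eisˣ) : ∃ j : ℕ, j < 3 ∧ ((ε : Eis) = om ^ j ∨ (ε : Eis) = -om ^ j) :=
  nm_one_cases _ ((unit_iff _).mp ε.isUnit)

theorem nm_unit (ε : Eisˣ) : nm (ε : Eis) = 1 := (unit_iff _).mp ε.isUnit

theorem norm_unit (ε : Eisˣ) : ‖ec (ε : Eis)‖ = 1 := by
  have h := nm_cast (ε : Eis)
  rw [nm_unit, Nat.cast_one] at h
  have h2 := norm_nonneg (ec (ε : Eis))
  nlinarith

/-- the list of the units -/
private noncomputable def uf : Fin 3 × Bool → Eisˣ := fun p =>
  if p.2 then ((unit_iff (om ^ (p.1 : ℕ))).mpr (by rw [nm_pow, nm_om, one_pow])).unit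
  else ((unit_iff (-om ^ (p.1 : ℕ))).mpr (by rw [nm_neg, nm_pow, nm_om, one_pow])).unit

private theorem uf_val (p : Fin 3 × Bool) :
    ((uf p : Eisˣ) : Eis) = if p.2 then om ^ (p.1 : ℕ) else -om ^ (p.1 : ℕ) := by
  unfold uf
  split_ifs <;> rfl

private theorem om2 : om ^ 2 = (⟨-1, -1⟩ : Eis) := by
  rw [om_sq]
  rfl

private theorem uf_inj : Function.Injective uf := by
  intro p q h
  have h2 : ((uf p : Eisˣ) : Eis) = ((uf q : Eisˣ) : Eis) := by rw [h]
  rw [uf_val, uf_val] at h2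
  obtain ⟨i, s⟩ := p
  obtain ⟨j, t⟩ := q
  fin_cases i <;> fin_cases j <;> cases s <;> cases t <;>
    first
    | rfl
    | exact absurd h2 (by decide)

private theorem uf_surj : Function.Surjective uf := by
  intro ε
  obtain ⟨j, hj, h | h⟩ := units_eq ε
  · refine ⟨(⟨j, hj⟩, true), ?_⟩
    apply Units.ext
    rw [uf_val, h]
    rfl
  · refine ⟨(⟨j, hj⟩, false), ?_⟩
    apply Units.ext
    rw [uf_val, h]
    rfl

theorem finite_units : Finite Eisˣ := Finite.of_surjective uf uf_surj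

theorem card_units : Nat.card Eisˣ = 6 := by
  rw [← Nat.card_congr (Equiv.ofBijective uf ⟨uf_inj, uf_surj⟩)]
  simp

/-- units are distinct modulo every `b` of norm at least `5` -/
theorem unit_congr {b : Eis} (hb : 5 ≤ nm b) {ε ε' : Eisˣ} (h : b ∣ (ε : Eis) - ε') : ε = ε' := by
  by_contra hne
  have h1 : (ε : Eis) - ε' ≠ 0 := fun h2 => hne (Units.ext (sub_eq_zero.mp h2))
  have h2 := nm_dvd h
  have h3 : nm ((ε : Eis) - ε') ≠ 0 := fun h4 => h1 ((nm_eq_zero _).mp h4)
  have h4 : nm b ≤ nm ((ε : Eis) - ε') := Nat.le_of_dvd (Nat.pos_of_ne_zero h3) h2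
  have h5 : (nm ((ε : Eis) - ε') : ℝ) ≤ 4 := by
    rw [nm_cast, map_sub]
    have h6 : ‖ec (ε : Eis) - ec (ε' : Eis)‖ ≤ 2 := by
      calc ‖ec (ε : Eis) - ec (ε' : Eis)‖ ≤ ‖ec (ε : Eis)‖ + ‖ec (ε' : Eis)‖ := norm_sub_le _ _
        _ = 2 := by rw [norm_unit, norm_unit]; norm_num
    have h7 := norm_nonneg (ec (ε : Eis) - ec (ε' : Eis))
    nlinarith
  have h6 : nm ((ε : Eis) - ε') ≤ 4 := by exact_mod_cast h5
  omega

theorem mem_ofNorm (n : ℕ) (b : Eis) : b ∈ ofNorm n ↔ nm b = n := by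
  unfold ofNorm
  rw [Finset.mem_filter]
  constructor
  · exact fun h => h.2
  · intro h
    refine ⟨?_, h⟩
    rw [Finset.mem_image]
    refine ⟨(b.re, b.im), ?_, rfl⟩
    have h1 : nz b = n := by rw [← nm_eq, h]
    have h2 := four_nz b
    have h3 := four_nz' b
    rw [h1] at h2 h3
    have hn : (0 : ℤ) ≤ n := Int.natCast_nonneg n
    have key : ∀ x : ℤ, 3 * x ^ 2 ≤ 4 * (n : ℤ) → -(2 * n : ℤ) ≤ x ∧ x ≤ 2 * n := by
      intro x hx
      have hx2 : |x| ≤ x ^ 2 := by
        rw [← sq_abs x]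
        rcases eq_or_ne x 0 with rfl | hx0
        · simp
        · have : 1 ≤ |x| := Int.one_le_abs hx0
          nlinarith
      have hx3 : |x| ≤ 2 * n := by linarith
      exact abs_le.mp hx3
    rw [Finset.mem_product, Finset.mem_Icc, Finset.mem_Icc]
    exact ⟨key b.re (by nlinarith [sq_nonneg (2 * b.im - b.re)]),
      key b.im (by nlinarith [sq_nonneg (2 * b.re - b.im)])⟩

theorem exists_eq_om_pow (j : ZMod 3) : ec (om ^ j.val) = wj j := by
  rw [map_pow, ec_om]
  rfl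

private theorem w_pow_mod (n : ℕ) : w ^ (n % 3) = w ^ n := by
  conv_rhs => rw [← Nat.mod_add_div n 3, pow_add, pow_mul, w_pow_three, one_pow, mul_one]

theorem wj_add (i j : ZMod 3) : wj (i + j) = wj i * wj j := by
  unfold wj
  rw [ZMod.val_add, w_pow_mod, pow_add]

theorem wj_zero : wj 0 = 1 := by
  unfold wj
  simp

theorem wj_injective : Function.Injective wj := by
  intro i j h
  have h0 : wj 0 = 1 := wj_zero
  have h1 : wj 1 = w := by
    unfold wj
    have : ((1 : ZMod 3)).val = 1 := rfl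
    rw [this, pow_one]
  have h2 : wj 2 = -1 - w := by
    unfold wj
    have : ((2 : ZMod 3)).val = 2 := rfl
    rw [this, w_sq]
  have n1 : (1 : ℂ) ≠ w := fun h => w_ne_one h.symm
  have n2 : (1 : ℂ) ≠ -1 - w := by
    intro h
    have := congrArg Complex.re h
    simp [w_re] at this
    norm_num at this
  have n3 : w ≠ -1 - w := by
    intro h
    have := congrArg Complex.im h
    simp [w_im] at this
    have := s3pos
    linarith
  fin_cases i <;> fin_cases j
  · rfl
  · exact absurd (h0.symm.trans (h.trans h1)) n1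
  · exact absurd (h0.symm.trans (h.trans h2)) n2
  · exact absurd (h0.symm.trans (h.symm.trans h1)) n1
  · rfl
  · exact absurd (h1.symm.trans (h.trans h2)) n3
  · exact absurd (h0.symm.trans (h.symm.trans h2)) n2
  · exact absurd (h1.symm.trans (h.symm.trans h2)) n3
  · rfl

theorem norm_wj (j : ZMod 3) : ‖wj j‖ = 1 := by
  unfold wj
  rw [norm_pow, norm_w, one_pow]

theorem sum_wj : wj 0 + wj 1 + wj 2 = 0 := by
  have h1 : wj 1 = w := by
    unfold wj
    have : ((1 : ZMod 3)).val = 1 := rfl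
    rw [this, pow_one]
  have h2 : wj 2 = -1 - w := by
    unfold wj
    have : ((2 : ZMod 3)).val = 2 := rfl
    rw [this, w_sq]
  rw [wj_zero, h1, h2]
  ring

theorem star_unit (ε : Eisˣ) : ∃ ε' : Eisˣ, (ε' : Eis) = star (ε : Eis) := by
  have h : IsUnit (star (ε : Eis)) := by
    rw [unit_iff, nm_star, nm_unit]
  exact ⟨h.unit, rfl⟩

end MPd9f52e
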