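import Mathlib
import Pool.Agent.Lib.MP_d9f52e_nt.EBas

/-!
# HHz: the values at 0 of the Hurwitz zeta function  (about 150 lines)

For `0 < a <= 1`: `hurwitzZeta a 0 = 1/2 - a`.  Proof: for `Re s > 1`, `hurwitzZeta a s = a^{-s} + sum_{n>=1} (n+a)^{-s}` (`hasSum_hurwitzZeta_of_one_lt_re`) and
`hurwitzZeta a s = a^{-s} + riemannZeta s - s a riemannZeta (s+1) + R(s)`, `R(s) = sum_{n>=1} ((n+a)^{-s} - n^{-s} + s a n^{-s-1})`.  The terms of `R` are `O(n^{-Re s - 2})` locally uniformly in `s`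
((1+x)^{-s} = 1 - s x + O(x^2) for 0 <= x <= 1), so `R` is analytic for `Re s > -1`, and `R(0) = 0`.  By the identity theorem the formula holds on `Re s > -1`, `s <> 0, 1`; let `s -> 0`:
`1 + riemannZeta 0 - a lim s riemannZeta(s+1) + 0 = 1 - 1/2 - a`  (`riemannZeta_zero`, `riemannZeta_residue_one`).
(Alternative: functional equation + `sum sin(2 pi n a)/n = pi (1/2 - a)`.)
`L(0, chi3) = chi3(1) hurwitz(1/3,0) + chi3(2) hurwitz(2/3,0) = (1/2-1/3) - (1/2-2/3) = 1/3` (`DirichletCharacter.LFunction`, `ZMod.LFunction`: `N^(-s) sum_j chi(j) hurwitz(j/N, s)`).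
-/

set_option autoImplicit false

namespace MPd9f52e

open Complex

private theorem hz_bound {x : ℝ} (hx : 0 ≤ x) (hx1 : x ≤ 1) {s : ℂ} (hs : ‖s‖ ≤ 3) :
    ‖((1 + x : ℝ) : ℂ) ^ (-s) - 1 + s * x‖ ≤ (9 * Real.exp 3 + 3) * x ^ 2 := by
  have h1 : (0:ℝ) < 1 + x := by linarith
  have hl0 : 0 ≤ Real.log (1 + x) := Real.log_nonneg (by linarith)
  have hl1 : Real.log (1 + x) ≤ x := by
    have := Real.log_le_sub_one_of_pos h1
    linarith
  have hl2 : x - Real.log (1 + x) ≤ x ^ 2 := by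
    have h2 := Real.le_log_one_add_of_nonneg hx
    have h3 : x - 2 * x / (x + 2) = x ^ 2 / (x + 2) := by
      field_simp
      ring
    have h4 : x ^ 2 / (x + 2) ≤ x ^ 2 := div_le_self (sq_nonneg x) (by linarith)
    linarith
  obtain ⟨u, hu⟩ : ∃ u : ℂ, u = (Real.log (1 + x) : ℂ) * (-s) := ⟨_, rfl⟩
  have e1 : ((1 + x : ℝ) : ℂ) ^ (-s) = Complex.exp u := by
    rw [Complex.cpow_def_of_ne_zero (by exact_mod_cast h1.ne'), ← Complex.ofReal_log h1.le, hu]
  have hun : ‖u‖ ≤ 3 * x := by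
    rw [hu, norm_mul, norm_neg, Complex.norm_real, Real.norm_eq_abs, abs_of_nonneg hl0]
    nlinarith [norm_nonneg s]
  have h2 := Complex.norm_exp_sub_sum_le_norm_mul_exp u 2
  have e2 : ∑ m ∈ Finset.range 2, u ^ m / (m.factorial : ℂ) = 1 + u := by
    simp [Finset.sum_range_succ]
  rw [e2] at h2
  have h3 : ‖u‖ ^ 2 * Real.exp ‖u‖ ≤ (9 * Real.exp 3) * x ^ 2 := by
    have h4 : ‖u‖ ^ 2 ≤ (3 * x) ^ 2 := pow_le_pow_left₀ (norm_nonneg _) hun 2
    have h5 : Real.exp ‖u‖ ≤ Real.exp 3 := Real.exp_le_exp.mpr (by linarith)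
    calc ‖u‖ ^ 2 * Real.exp ‖u‖ ≤ (3 * x) ^ 2 * Real.exp 3 :=
          mul_le_mul h4 h5 (Real.exp_pos _).le (by positivity)
      _ = _ := by ring
  have h6 : ‖u + s * x‖ ≤ 3 * x ^ 2 := by
    have e3 : u + s * x = s * ((x - Real.log (1 + x) : ℝ) : ℂ) := by
      rw [hu]
      push_cast
      ring
    rw [e3, norm_mul, Complex.norm_real, Real.norm_eq_abs, abs_of_nonneg (by linarith)]
    nlinarith [norm_nonneg s]
  rw [e1]
  have e4 : Complex.exp u - 1 + s * x = (Complex.exp u - (1 + u)) + (u + s * x) := by ring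
  rw [e4]
  refine (norm_add_le _ _).trans ?_
  linarith

/-- the remainder terms -/
private noncomputable def hT (a : ℝ) (n : ℕ) (s : ℂ) : ℂ :=
  (((n + 1 : ℕ) : ℂ) + a) ^ (-s) - ((n + 1 : ℕ) : ℂ) ^ (-s) + s * a * ((n + 1 : ℕ) : ℂ) ^ (-(s + 1))

private theorem hT_bound {a : ℝ} (h0 : 0 < a) (h1 : a ≤ 1) (n : ℕ) {s : ℂ} (hs : ‖s‖ ≤ 3)
    (hs2 : -1 / 2 < s.re) : ‖hT a n s‖ ≤ (9 * Real.exp 3 + 3) * ((n + 1 : ℕ) : ℝ) ^ (-(3 / 2) : ℝ) := by
  have hN : (0:ℝ) < ((n + 1 : ℕ) : ℝ) := by positivity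
  have hN1 : (1:ℝ) ≤ ((n + 1 : ℕ) : ℝ) := by
    push_cast
    have : (0:ℝ) ≤ n := Nat.cast_nonneg n
    linarith
  have hx0 : 0 ≤ a / ((n + 1 : ℕ) : ℝ) := by positivity
  have hx1 : a / ((n + 1 : ℕ) : ℝ) ≤ 1 := by
    rw [div_le_one hN]
    linarith
  have hNC : ((n + 1 : ℕ) : ℂ) ≠ 0 := by exact_mod_cast (Nat.succ_ne_zero n)
  have e1 : (((n + 1 : ℕ) : ℂ) + a) ^ (-s) = ((n + 1 : ℕ) : ℂ) ^ (-s) *
      ((1 + a / ((n + 1 : ℕ) : ℝ) : ℝ) : ℂ) ^ (-s) := by
    have h2 : ((n + 1 : ℕ) : ℂ) + a = ((((n + 1 : ℕ) : ℝ) : ℝ) : ℂ) *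
        ((1 + a / ((n + 1 : ℕ) : ℝ) : ℝ) : ℂ) := by
      rw [← Complex.ofReal_mul]
      have : ((n + 1 : ℕ) : ℝ) * (1 + a / ((n + 1 : ℕ) : ℝ)) = ((n + 1 : ℕ) : ℝ) + a := by
        field_simp
      rw [this]
      push_cast
      ring
    rw [h2, Complex.mul_cpow_ofReal_nonneg hN.le (by linarith)]
    congr 1
  have e2 : ((n + 1 : ℕ) : ℂ) ^ (-(s + 1)) = ((n + 1 : ℕ) : ℂ) ^ (-s) / ((n + 1 : ℕ) : ℂ) := by
    rw [neg_add, Complex.cpow_add _ _ hNC, Complex.cpow_neg_one, div_eq_mul_inv]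
  have e3 : hT a n s = ((n + 1 : ℕ) : ℂ) ^ (-s) *
      (((1 + a / ((n + 1 : ℕ) : ℝ) : ℝ) : ℂ) ^ (-s) - 1 + s * ((a / ((n + 1 : ℕ) : ℝ) : ℝ) : ℂ)) := by
    unfold hT
    rw [e1, e2]
    push_cast
    field_simp
  rw [e3, norm_mul]
  have h3 := hz_bound hx0 hx1 hs
  have h4 : ‖((n + 1 : ℕ) : ℂ) ^ (-s)‖ ≤ ((n + 1 : ℕ) : ℝ) ^ (1 / 2 : ℝ) := by
    rw [Complex.norm_natCast_cpow_of_pos (Nat.succ_pos n), Complex.neg_re]
    apply Real.rpow_le_rpow_of_exponent_le hN1
    linarith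
  have h5 : (a / ((n + 1 : ℕ) : ℝ)) ^ 2 ≤ ((n + 1 : ℕ) : ℝ) ^ (-2 : ℝ) := by
    rw [Real.rpow_neg hN.le, div_pow, div_eq_mul_inv]
    have h6 : ((n + 1 : ℕ) : ℝ) ^ (2 : ℝ) = ((n + 1 : ℕ) : ℝ) ^ 2 := by
      exact_mod_cast Real.rpow_natCast ((n + 1 : ℕ) : ℝ) 2
    rw [h6]
    have h7 : a ^ 2 ≤ 1 := by nlinarith
    have h8 : 0 ≤ (((n + 1 : ℕ) : ℝ) ^ 2)⁻¹ := by positivity
    nlinarith
  have hK : 0 ≤ 9 * Real.exp 3 + 3 := by positivity
  calc ‖((n + 1 : ℕ) : ℂ) ^ (-s)‖ * ‖((1 + a / ((n + 1 : ℕ) : ℝ) : ℝ) : ℂ) ^ (-s) - 1 +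
        s * ((a / ((n + 1 : ℕ) : ℝ) : ℝ) : ℂ)‖
      ≤ ((n + 1 : ℕ) : ℝ) ^ (1 / 2 : ℝ) * ((9 * Real.exp 3 + 3) * ((n + 1 : ℕ) : ℝ) ^ (-2 : ℝ)) := by
        apply mul_le_mul h4 _ (norm_nonneg _) (by positivity)
        exact h3.trans (mul_le_mul_of_nonneg_left h5 hK)
    _ = (9 * Real.exp 3 + 3) * (((n + 1 : ℕ) : ℝ) ^ (1 / 2 : ℝ) * ((n + 1 : ℕ) : ℝ) ^ (-2 : ℝ)) := by
        ring
    _ = (9 * Real.exp 3 + 3) * ((n + 1 : ℕ) : ℝ) ^ (-(3 / 2) : ℝ) := by
        rw [← Real.rpow_add hN]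
        norm_num

private theorem hT_diff {a : ℝ} (h0 : 0 < a) (n : ℕ) : Differentiable ℂ (hT a n) := by
  have hNC : ((n + 1 : ℕ) : ℂ) ≠ 0 := by exact_mod_cast (Nat.succ_ne_zero n)
  have hNa : ((n + 1 : ℕ) : ℂ) + a ≠ 0 := by
    have h2 : ((n + 1 : ℕ) : ℝ) + a ≠ 0 := by positivity
    intro h
    apply h2
    exact_mod_cast h
  intro s
  unfold hT
  apply DifferentiableAt.add
  · apply DifferentiableAt.sub
    · exact differentiableAt_id.neg.const_cpow (Or.inl hNa)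
    · exact differentiableAt_id.neg.const_cpow (Or.inl hNC)
  · apply DifferentiableAt.mul
    · exact differentiableAt_id.mul_const _
    · exact ((differentiableAt_id.add_const 1).neg).const_cpow (Or.inl hNC)

/-- `s ζ(s+1)`, continued -/
private noncomputable def hW (s : ℂ) : ℂ :=
  (s * completedRiemannZeta₀ (s + 1) - s / (s + 1) + 1) * (Complex.Gammaℝ (s + 1))⁻¹

private theorem hW_eq {s : ℂ} (h0 : s ≠ 0) (h1 : s + 1 ≠ 0) : hW s = s * riemannZeta (s + 1) := by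
  unfold hW
  rw [riemannZeta_def_of_ne_zero h1, completedRiemannZeta_eq]
  have e : 1 - (s + 1) = -s := by ring
  rw [e]
  field_simp
  ring

private theorem hW_zero : hW 0 = 1 := by
  unfold hW
  simp [Complex.Gammaℝ_one]

private theorem hW_diff {s : ℂ} (h1 : s + 1 ≠ 0) : DifferentiableAt ℂ hW s := by
  have h2 : DifferentiableAt ℂ (fun s : ℂ => s + 1) s := differentiableAt_id.add_const 1
  unfold hW
  apply DifferentiableAt.mul
  · apply DifferentiableAt.add_const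
    apply DifferentiableAt.sub
    · apply DifferentiableAt.mul differentiableAt_id
      exact (differentiable_completedZeta₀ (s + 1)).comp s h2
    · exact differentiableAt_id.div h2 h1
  · exact DifferentiableAt.comp (g := fun s => (Complex.Gammaℝ s)⁻¹) s
      (Complex.differentiable_Gammaℝ_inv (s + 1)) h2

private def hU : Set ℂ := {s : ℂ | -1 / 2 < s.re} ∩ Metric.ball 0 3

private theorem hU_open : IsOpen hU :=
  (isOpen_lt continuous_const Complex.continuous_re).inter Metric.isOpen_ball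

private theorem hU_conn : IsPreconnected hU := by
  have h1 : Convex ℝ {s : ℂ | -1 / 2 < s.re} := convex_halfSpace_re_gt (-1 / 2)
  exact (h1.inter (convex_ball (0:ℂ) 3)).isPreconnected

private theorem hsum_summable : Summable (fun n : ℕ =>
    (9 * Real.exp 3 + 3) * ((n + 1 : ℕ) : ℝ) ^ (-(3 / 2) : ℝ)) := by
  apply Summable.mul_left
  have h := (summable_nat_add_iff 1).mpr (Real.summable_nat_rpow (p := -(3 / 2)).mpr (by norm_num))
  exact h

private theorem hR_diff {a : ℝ} (h0 : 0 < a) (h1 : a ≤ 1) :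
    DifferentiableOn ℂ (fun s => ∑' n, hT a n s) hU := by
  apply differentiableOn_tsum_of_summable_norm hsum_summable
    (fun n => (hT_diff h0 n).differentiableOn) hU_open
  intro n s hs
  have h2 : ‖s‖ ≤ 3 := by
    have := hs.2
    rw [Metric.mem_ball, dist_zero_right] at this
    exact this.le
  exact hT_bound h0 h1 n h2 hs.1

theorem hurwitz_zero {a : ℝ} (h0 : 0 < a) (h1 : a ≤ 1) :
    HurwitzZeta.hurwitzZeta (a : UnitAddCircle) 0 = 1 / 2 - a := by
  obtain ⟨D, hD⟩ : ∃ D : ℂ → ℂ, D = fun s => HurwitzZeta.hurwitzZeta (a : UnitAddCircle) s -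
    riemannZeta s := ⟨_, rfl⟩
  have hDd : Differentiable ℂ D := by
    rw [hD]
    have := HurwitzZeta.differentiable_hurwitzZeta_sub_hurwitzZeta (a : UnitAddCircle) 0
    rw [HurwitzZeta.hurwitzZeta_zero] at this
    exact this
  have haC : (a : ℂ) ≠ 0 := by exact_mod_cast h0.ne'
  have hU_ne : ∀ s ∈ hU, s + 1 ≠ 0 := by
    intro s hs h
    have h2 : (s + 1).re = 0 := by rw [h]; simp
    have h3 := hs.1
    simp only [Set.mem_ofPred_eq] at h3
    rw [Complex.add_re, Complex.one_re] at h2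
    linarith
  have hL : DifferentiableOn ℂ (fun s => D s - (a : ℂ) ^ (-s) + a * hW s) hU := by
    intro s hs
    apply DifferentiableAt.differentiableWithinAt
    apply DifferentiableAt.add
    · apply (hDd s).sub
      exact differentiableAt_id.neg.const_cpow (Or.inl haC)
    · exact (hW_diff (hU_ne s hs)).const_mul _
  have hR := hR_diff h0 h1
  have key : Set.EqOn (fun s => D s - (a : ℂ) ^ (-s) + a * hW s) (fun s => ∑' n, hT a n s) hU := by
    have hz0 : (2:ℂ) ∈ hU := by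
      constructor
      · simp
        norm_num
      · rw [Metric.mem_ball, dist_zero_right]
        simp
        norm_num
    apply (hL.analyticOnNhd hU_open).eqOn_of_preconnected_of_eventuallyEq
      (hR.analyticOnNhd hU_open) hU_conn hz0
    have hev : ∀ᶠ s : ℂ in nhds 2, 1 < s.re := by
      apply (isOpen_lt continuous_const Complex.continuous_re).mem_nhds
      simp
    filter_upwards [hev] with s hs
    have hs0 : s ≠ 0 := by
      intro h
      rw [h] at hs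
      simp at hs
      linarith
    have hs1 : s + 1 ≠ 0 := by
      intro h
      have h2 : (s + 1).re = 0 := by rw [h]; simp
      rw [Complex.add_re, Complex.one_re] at h2
      linarith
    -- the three series
    have hA := HurwitzZeta.hasSum_hurwitzZeta_of_one_lt_re (a := a) ⟨h0.le, h1⟩ hs
    have hA' := (hasSum_nat_add_iff' 1).mpr hA
    have hB := HurwitzZeta.hasSum_hurwitzZeta_of_one_lt_re (a := (0:ℝ)) ⟨le_rfl, zero_le_one⟩ hs
    have hB' := (hasSum_nat_add_iff' 1).mpr hB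
    have hC := HurwitzZeta.hasSum_hurwitzZeta_of_one_lt_re (a := (0:ℝ)) ⟨le_rfl, zero_le_one⟩
      (s := s + 1) (by rw [Complex.add_re, Complex.one_re]; linarith)
    have hC' := (hasSum_nat_add_iff' 1).mpr hC
    have e0 : (((0:ℝ) : UnitAddCircle)) = 0 := by simp
    rw [e0, HurwitzZeta.hurwitzZeta_zero] at hB' hC'
    simp only [Finset.range_one, Finset.sum_singleton, Nat.cast_zero, Complex.ofReal_zero,
      add_zero, zero_add] at hA' hB' hC'
    rw [Complex.zero_cpow hs0] at hB'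
    rw [Complex.zero_cpow hs1] at hC'
    have hS := (hA'.sub hB').add (hC'.mul_left (s * a))
    have hS2 : HasSum (fun n => hT a n s) ((HurwitzZeta.hurwitzZeta (a : UnitAddCircle) s -
        1 / (a:ℂ) ^ s - (riemannZeta s - 1 / 0)) + s * a * (riemannZeta (s + 1) - 1 / 0)) := by
      refine hS.congr_fun ?_
      intro n
      unfold hT
      rw [Complex.cpow_neg, Complex.cpow_neg, Complex.cpow_neg]
      push_cast
      ring
    rw [hS2.tsum_eq, hW_eq hs0 hs1, hD, Complex.cpow_neg]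
    simp only [div_zero, sub_zero]
    ring
  have h00 : (0:ℂ) ∈ hU := by
    constructor
    · simp
      norm_num
    · simp
  have hfin := key h00
  simp only [neg_zero, Complex.cpow_zero, hW_zero, mul_one] at hfin
  have hT0 : ∀ n, hT a n 0 = 0 := by
    intro n
    simp [hT]
  simp only [hT0, tsum_zero] at hfin
  rw [hD] at hfin
  simp only [riemannZeta_zero] at hfin
  linear_combination hfin

private theorem chi3_val (j : ZMod 3) : chi3 j = ((quadraticChar (ZMod 3) j : ℤ) : ℂ) := rfl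

private theorem chi3_zero : chi3 (0 : ZMod 3) = 0 := by
  rw [chi3_val]
  simp

private theorem chi3_one : chi3 (1 : ZMod 3) = 1 := by
  rw [chi3_val]
  simp

private theorem chi3_two : chi3 (2 : ZMod 3) = -1 := by
  rw [chi3_val]
  have : quadraticChar (ZMod 3) 2 = -1 := by decide
  rw [this]
  simp

theorem LFunction_chi3_zero : DirichletCharacter.LFunction chi3 0 = 1 / 3 := by
  unfold DirichletCharacter.LFunction ZMod.LFunction
  have e1 : (Finset.univ : Finset (ZMod 3)) = {0, 1, 2} := by decide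
  rw [e1, Finset.sum_insert (by decide), Finset.sum_insert (by decide), Finset.sum_singleton]
  rw [chi3_zero, chi3_one, chi3_two]
  have t1 : ZMod.toAddCircle (1 : ZMod 3) = ((1 / 3 : ℝ) : UnitAddCircle) := by
    rw [ZMod.toAddCircle_apply]
    congr 1
    have : (1 : ZMod 3).val = 1 := rfl
    rw [this]
    norm_num
  have t2 : ZMod.toAddCircle (2 : ZMod 3) = ((2 / 3 : ℝ) : UnitAddCircle) := by
    rw [ZMod.toAddCircle_apply]
    congr 1
  rw [t1, t2, hurwitz_zero (by norm_num) (by norm_num), hurwitz_zero (by norm_num) (by norm_num)]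
  simp
  norm_num

theorem chi3_ne_one : chi3 ≠ 1 := by
  intro h
  have h2 := chi3_two
  rw [h] at h2
  have h3 : (1 : DirichletCharacter ℂ 3) (2 : ZMod 3) = 1 := by
    apply MulChar.one_apply
    decide
  rw [h3] at h2
  norm_num at h2

end MPd9f52e
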