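import Mathlib
import Pool.Agent.Lib.MP_d9f52e_nt.HHz

/-!
# TZQ: the partial zeta functions of Q  (about 120 lines)

`b` a unit of `ZMod m`, `m >= 2`, so `1 <= b.val <= m-1`.  `n = b mod m` iff `n = b.val + m k`, `n^{-s} = m^{-s} (k + b.val/m)^{-s}`: `hasSum_hurwitzZeta_of_one_lt_re` with `a = b.val/m` in `[0,1]`.  `hurwitz_zero`.  `differentiableAt_hurwitzZeta`.
-/

set_option autoImplicit false

namespace MPd9f52e

open Complex

variable {m : ℕ}

private theorem val_pos (hm : 2 ≤ m) (b : (ZMod m)ˣ) :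
    0 < (b : ZMod m).val ∧ (b : ZMod m).val < m := by
  haveI : NeZero m := ⟨by omega⟩
  haveI : Fact (1 < m) := ⟨by omega⟩
  refine ⟨Nat.pos_of_ne_zero ?_, ZMod.val_lt _⟩
  intro h
  rw [ZMod.val_eq_zero] at h
  exact b.ne_zero h

theorem zQ_hasSum (hm : 2 ≤ m) (b : (ZMod m)ˣ) {s : ℂ} (hs : 1 < s.re) :
    HasSum (fun n : ℕ => if (n : ZMod m) = b then (n : ℂ) ^ (-s) else 0) (zQ m b s) := by
  haveI : NeZero m := ⟨by omega⟩
  obtain ⟨h0, h1⟩ := val_pos hm b
  obtain ⟨v, hv⟩ : ∃ v : ℕ, v = (b : ZMod m).val := ⟨_, rfl⟩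
  rw [← hv] at h0 h1
  have hm0 : (0:ℝ) < m := by
    have : 0 < m := by omega
    exact_mod_cast this
  have ha : ((v : ℝ) / m) ∈ Set.Icc (0:ℝ) 1 := by
    refine ⟨by positivity, ?_⟩
    rw [div_le_one hm0]
    exact_mod_cast h1.le
  have hA := HurwitzZeta.hasSum_hurwitzZeta_of_one_lt_re ha hs
  have hB := hA.mul_left ((m : ℂ) ^ (-s))
  have hC : HasSum (fun k : ℕ => ((m * k + v : ℕ) : ℂ) ^ (-s)) (zQ m b s) := by
    have e0 : zQ m b s = (m : ℂ) ^ (-s) * HurwitzZeta.hurwitzZeta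
        (((v : ℝ) / m : ℝ) : UnitAddCircle) s := by
      unfold zQ
      rw [hv]
    rw [e0]
    refine hB.congr_fun ?_
    intro k
    have e1 : ((m * k + v : ℕ) : ℂ) = ((m : ℝ) : ℂ) * (((k : ℝ) + (v : ℝ) / m : ℝ) : ℂ) := by
      rw [← Complex.ofReal_mul]
      have : (m : ℝ) * ((k : ℝ) + (v : ℝ) / m) = ((m * k + v : ℕ) : ℝ) := by
        push_cast
        field_simp
      rw [this]
      push_cast
      ring
    rw [e1, Complex.mul_cpow_ofReal_nonneg hm0.le (by positivity)]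
    simp only [Complex.cpow_neg, one_div]
    push_cast
    ring
  have hinj : Function.Injective (fun k : ℕ => m * k + v) := by
    intro k k' h
    have h2 : m * k = m * k' := by
      simp only at h
      omega
    exact Nat.eq_of_mul_eq_mul_left (by omega) h2
  have hz : ∀ n : ℕ, n ∉ Set.range (fun k : ℕ => m * k + v) →
      (if (n : ZMod m) = b then (n : ℂ) ^ (-s) else 0) = 0 := by
    intro n hn
    rw [if_neg]
    intro h
    apply hn
    refine ⟨n / m, ?_⟩
    have h2 : n % m = v := by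
      rw [hv, ← h, ZMod.val_natCast]
    simp only
    rw [← h2]
    exact Nat.div_add_mod n m
  rw [← hinj.hasSum_iff hz]
  refine hC.congr_fun ?_
  intro k
  have h3 : ((m * k + v : ℕ) : ZMod m) = b := by
    push_cast
    rw [ZMod.natCast_self, zero_mul, zero_add, hv, ZMod.natCast_zmod_val]
  simp only [Function.comp_apply]
  rw [if_pos h3]

theorem zQ_zero (hm : 2 ≤ m) (b : (ZMod m)ˣ) : zQ m b 0 = 1 / 2 - ((b : ZMod m).val : ℂ) / m := by
  obtain ⟨h0, h1⟩ := val_pos hm b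
  have hm0 : (0:ℝ) < m := by
    have : 0 < m := by omega
    exact_mod_cast this
  have hv0 : (0:ℝ) < (b : ZMod m).val := by exact_mod_cast h0
  unfold zQ
  rw [hurwitz_zero (by positivity) (by
    rw [div_le_one hm0]
    exact_mod_cast h1.le)]
  simp

theorem zQ_diff (hm : 1 ≤ m) (b : ZMod m) {s : ℂ} (hs : s ≠ 1) : DifferentiableAt ℂ (zQ m b) s := by
  unfold zQ
  apply DifferentiableAt.mul
  · apply differentiableAt_id.neg.const_cpow
    left
    have : m ≠ 0 := by omega
    exact_mod_cast this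
  · exact HurwitzZeta.differentiableAt_hurwitzZeta _ hs

end MPd9f52e
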