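import Pool.Agent.Lib.MP_d9f52e_nt.ARay
import Pool.Agent.Lib.MP_ea3785_nt.WeakCheb

/-!
# Uniqueness of the narrow ray class field

Every narrow ray class field `L` of `K` modulo `f` (`f ^ 3 = (m)`, class number one) is isomorphic
over `K` to `K(ζ_m)`. By the weak Chebotarev theorem, if `L` does not contain a primitive `m`-th
root of unity, some prime of degree one of `L`, of large norm `p`, does not split in `L(ζ_m)`, so
`p` is not `1` modulo `m`; but its restriction to `K` has trivial Artin symbol in `L`.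
-/

open NumberField

namespace MPd9f52e

section extend

private theorem equiv_of_frob {k : Type} [CommRing k] [IsDomain k] [Finite k] {p : ℕ} (hp : p.Prime)
    (hchar : CharP k p) (hfrob : ∀ x : k, x ^ p = x) : Nonempty (k ≃+* ZMod p) := by
  classical
  have : Fact p.Prime := ⟨hp⟩
  have hk : IsField k := Finite.isField_of_domain k
  let j : ZMod p →+* k := ZMod.castHom (dvd_refl p) k
  have hj : Function.Injective j := RingHom.injective j
  have := Fintype.ofFinite k
  have hcardle : Fintype.card k ≤ p := by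
    have hFdeg : (Polynomial.X ^ p - Polynomial.X : Polynomial k).natDegree = p := by
      have h1 : (Polynomial.X : Polynomial k).natDegree < (Polynomial.X ^ p : Polynomial k).natDegree := by
        rw [Polynomial.natDegree_X, Polynomial.natDegree_X_pow]
        exact hp.one_lt
      rw [Polynomial.natDegree_sub_eq_left_of_natDegree_lt h1, Polynomial.natDegree_X_pow]
    have hF0 : (Polynomial.X ^ p - Polynomial.X : Polynomial k) ≠ 0 := by
      intro h0
      rw [h0, Polynomial.natDegree_zero] at hFdeg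
      exact hp.ne_zero hFdeg.symm
    have h5 : (Finset.univ : Finset k) ⊆
        (Polynomial.X ^ p - Polynomial.X : Polynomial k).roots.toFinset := by
      intro x _
      rw [Multiset.mem_toFinset, Polynomial.mem_roots hF0, Polynomial.IsRoot.def,
        Polynomial.eval_sub, Polynomial.eval_pow, Polynomial.eval_X, hfrob x, sub_self]
    have h6 := Finset.card_le_card h5
    rw [Finset.card_univ] at h6
    refine h6.trans ((Multiset.toFinset_card_le _).trans ?_)
    have h7 := Polynomial.card_roots' (Polynomial.X ^ p - Polynomial.X : Polynomial k)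
    rw [hFdeg] at h7
    exact h7
  have hbij : Function.Bijective j := by
    refine hj.bijective_of_nat_card_le ?_
    rw [Nat.card_zmod, Nat.card_eq_fintype_card]
    exact hcardle
  exact ⟨(RingEquiv.ofBijective j hbij).symm⟩

variable {L N : Type} [Field L] [NumberField L] [Field N] [NumberField N] [Algebra L N]

/-- In the extension generated by a primitive `m`-th root of unity the primes of degree one whose
norm is `1` modulo `m` split. -/
theorem uniq_extend {m : ℕ} (hm : 0 < m) {ξ : N} (hξ : IsPrimitiveRoot ξ m)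
    (hgen : IntermediateField.adjoin L {ξ} = ⊤) (hgal : IsGalois L N) {p : ℕ} (hp : p.Prime)
    (hpm : ¬ p ∣ m) (h1 : p % m = 1 % m) (φ : 𝓞 L →+* ZMod p) :
    ∃ ψ : 𝓞 N →+* ZMod p, ψ.comp (algebraMap (𝓞 L) (𝓞 N)) = φ := by
  have : Fact p.Prime := ⟨hp⟩
  set P := RingHom.ker φ with hP
  have hPp : P.IsPrime := RingHom.ker_isPrime φ
  have hpP : (p : 𝓞 L) ∈ P := by rw [hP, RingHom.mem_ker, map_natCast, CharP.cast_eq_zero]
  obtain ⟨Q, -, hQ, hQP⟩ := Ideal.exists_ideal_over_prime_of_isIntegral (S := 𝓞 N) P ⊥ (by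
    rw [Ideal.comap_bot_of_injective _ (FaithfulSMul.algebraMap_injective (𝓞 L) (𝓞 N))]
    exact bot_le)
  have hpQ : (p : 𝓞 N) ∈ Q := by
    have : (p : 𝓞 L) ∈ Q.comap (algebraMap (𝓞 L) (𝓞 N)) := by rw [hQP]; exact hpP
    rw [Ideal.mem_comap, map_natCast] at this
    exact this
  have hQ0 : Q ≠ ⊥ := by
    rintro rfl
    rw [Ideal.mem_bot] at hpQ
    exact hp.ne_zero (by exact_mod_cast hpQ)
  have hmQ : (m : 𝓞 N) ∉ Q := by
    intro hmQ
    apply hQ.ne_top
    rw [Ideal.eq_top_iff_one]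
    have hcop : IsCoprime (p : ℤ) (m : ℤ) :=
      Nat.isCoprime_iff_coprime.2 ((Nat.Prime.coprime_iff_not_dvd hp).2 hpm)
    obtain ⟨a, b, hab⟩ := hcop
    have h2 := congrArg (fun z : ℤ => (z : 𝓞 N)) hab
    push_cast at h2
    rw [← h2]
    exact add_mem (Q.mul_mem_left _ hpQ) (Q.mul_mem_left _ hmQ)
  have : Finite (𝓞 N ⧸ Q) := Ideal.finiteQuotientOfFreeOfNeBot Q hQ0
  have : SMulCommClass (N ≃ₐ[L] N) (𝓞 L) (𝓞 N) := by
    constructor
    intro σ a x
    rw [Algebra.smul_def, Algebra.smul_def, smul_mul']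
    congr 1
    apply RingOfIntegers.ext
    show σ (algebraMap L N (a : L)) = algebraMap L N (a : L)
    exact σ.commutes _
  obtain ⟨σ, hσ⟩ := IsArithFrobAt.exists_of_isInvariant (𝓞 L) (N ≃ₐ[L] N) Q
  have hcard : Nat.card (𝓞 L ⧸ Q.under (𝓞 L)) = p := by
    have h2 : Q.under (𝓞 L) = P := hQP
    rw [h2]
    have e := RingHom.quotientKerEquivOfSurjective (ZMod.ringHom_surjective φ)
    rw [Nat.card_congr e.toEquiv, Nat.card_zmod]
  obtain ⟨z, hz, hzm⟩ : ∃ z : 𝓞 N, (z : N) = ξ ∧ z ^ m = 1 := by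
    refine ⟨⟨ξ, hξ.isIntegral hm⟩, rfl, ?_⟩
    apply RingOfIntegers.ext
    show ξ ^ m = 1
    exact hξ.pow_eq_one
  have h3 := hσ.apply_of_pow_eq_one hzm hmQ
  rw [hcard] at h3
  have hzp : z ^ p = z := by
    have h4 : z ^ p = z ^ (p % m) := pow_eq_pow_mod p hzm
    have h5 : z ^ 1 = z ^ (1 % m) := pow_eq_pow_mod 1 hzm
    rw [h4, h1, ← h5, pow_one]
  -- the Frobenius automorphism is trivial
  have hσ1 : σ = 1 := by
    have h4 : σ ξ = ξ := by
      have h5 := congrArg (fun t : 𝓞 N => (t : N)) (h3.trans hzp)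
      have h6 : ((σ • z : 𝓞 N) : N) = (z : N) := h5
      rw [← hz]
      exact h6
    ext x
    have hx : x ∈ IntermediateField.adjoin L {ξ} := by rw [hgen]; exact IntermediateField.mem_top
    induction hx using IntermediateField.adjoin_induction with
    | mem x hx => rcases hx with rfl; exact h4
    | algebraMap q => exact σ.commutes q
    | add x y _ _ hx hy => rw [map_add, hx, hy]; rfl
    | inv x _ hx => rw [map_inv₀, hx]; rfl
    | mul x y _ _ hx hy => rw [map_mul, hx, hy]; rfl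
  have hfrob : ∀ x : 𝓞 N ⧸ Q, x ^ p = x := by
    intro x
    obtain ⟨x, rfl⟩ := Ideal.Quotient.mk_surjective x
    have h5 := hσ x
    rw [hcard, hσ1] at h5
    rw [← map_pow]
    refine (Ideal.Quotient.eq.2 ?_).symm
    simpa using h5
  have hdom : IsDomain (𝓞 N ⧸ Q) := Ideal.Quotient.isDomain Q
  have hchar : CharP (𝓞 N ⧸ Q) p := by
    refine (CharP.charP_iff_prime_eq_zero hp).2 ?_
    rw [← map_natCast (Ideal.Quotient.mk Q)]
    exact Ideal.Quotient.eq_zero_iff_mem.2 hpQ
  obtain ⟨e⟩ := equiv_of_frob hp hchar hfrob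
  refine ⟨(e : (𝓞 N ⧸ Q) →+* ZMod p).comp (Ideal.Quotient.mk Q), ?_⟩
  apply ZMod.ringHom_eq_of_ker_eq
  ext x
  rw [RingHom.mem_ker, RingHom.comp_apply, RingHom.comp_apply]
  have h7 : (e : (𝓞 N ⧸ Q) →+* ZMod p) (Ideal.Quotient.mk Q (algebraMap (𝓞 L) (𝓞 N) x)) = 0 ↔
      Ideal.Quotient.mk Q (algebraMap (𝓞 L) (𝓞 N) x) = 0 :=
    map_eq_zero_iff e e.injective
  rw [h7, Ideal.Quotient.eq_zero_iff_mem, ← Ideal.mem_comap, hQP]

end extend

section prim

variable {K L : Type} [Field K] [NumberField K] [Field L] [NumberField L] [Algebra K L] {m : ℕ}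
  {f : Ideal (𝓞 K)}

/-- a prime of degree one of `L` has trivial Frobenius automorphism over `K` -/
theorem uniq_frob (hgal : IsGalois K L) {p : ℕ} (hp : p.Prime) (φ : 𝓞 L →+* ZMod p) :
    IsFrob K L ((RingHom.ker φ).comap (algebraMap (𝓞 K) (𝓞 L))) 1 ∧
      Ideal.absNorm ((RingHom.ker φ).comap (algebraMap (𝓞 K) (𝓞 L))) = p := by
  have : Fact p.Prime := ⟨hp⟩
  have hPp : (RingHom.ker φ).IsPrime := RingHom.ker_isPrime φ
  have hcard : Ideal.absNorm ((RingHom.ker φ).comap (algebraMap (𝓞 K) (𝓞 L))) = p := by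
    have h1 : (RingHom.ker φ).comap (algebraMap (𝓞 K) (𝓞 L)) =
        RingHom.ker (φ.comp (algebraMap (𝓞 K) (𝓞 L))) := by
      ext x; simp [RingHom.mem_ker]
    rw [h1, Ideal.absNorm_apply, Submodule.cardQuot_apply]
    have e := RingHom.quotientKerEquivOfSurjective
      (ZMod.ringHom_surjective (φ.comp (algebraMap (𝓞 K) (𝓞 L))))
    have h2 := Nat.card_congr e.toEquiv
    rw [Nat.card_zmod] at h2
    exact h2
  refine ⟨?_, hcard⟩
  intro Q hQ hQP x y hxy
  rw [hcard]
  have : SMulCommClass (L ≃ₐ[K] L) (𝓞 K) (𝓞 L) := by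
    constructor
    intro σ a x
    rw [Algebra.smul_def, Algebra.smul_def, smul_mul']
    congr 1
    apply RingOfIntegers.ext
    show σ (algebraMap K L (a : K)) = algebraMap K L (a : K)
    exact σ.commutes _
  obtain ⟨g, hg⟩ := Algebra.IsInvariant.exists_smul_of_under_eq (𝓞 K) (𝓞 L) (L ≃ₐ[K] L)
    (RingHom.ker φ) Q hQP.symm
  have hyx : y = x := by
    apply RingOfIntegers.ext
    rw [hxy]
    rfl
  rw [hyx, hg, Ideal.mem_pointwise_smul_iff_inv_smul_mem, smul_sub, smul_pow', RingHom.mem_ker,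
    map_sub, map_pow, ZMod.pow_card, sub_self]

end prim

section cycl

/-- a field generated by a primitive root of unity is a cyclotomic extension -/
private theorem cyc_of_adjoin {K F : Type} [Field K] [Field F] [Algebra K F] {m : ℕ} [NeZero m]
    {ξ : F} (hξ : IsPrimitiveRoot ξ m) (h : Algebra.adjoin K {ξ} = ⊤) :
    IsCyclotomicExtension {m} K F := by
  refine ⟨?_, ?_⟩
  · intro n hn _
    rw [Set.mem_singleton_iff] at hn
    subst hn
    exact ⟨ξ, hξ⟩
  · intro x
    have hx : x ∈ Algebra.adjoin K {ξ} := by rw [h]; exact Algebra.mem_top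
    refine Algebra.adjoin_mono ?_ hx
    rintro y (rfl : y = ξ)
    exact ⟨m, rfl, NeZero.ne m, hξ.pow_eq_one⟩

end cycl

section main

variable {d m : ℕ} {K L M : Type} [Field K] [NumberField K] [Field L] [NumberField L]
  [Field M] [NumberField M] [Algebra K L] [Algebra K M] {θ : K} {ζ : M}

/-- narrow ray class fields contain the `m`-th roots of unity -/
theorem uniq_root (h : Cyc d m K M θ ζ) (hsq : Squarefree m)
    (h1 : ∀ p : ℕ, p.Prime → p ∣ m → p % 3 ≠ 1) {f : Ideal (𝓞 K)}
    (hf : f ^ 3 = Ideal.span {(m : 𝓞 K)}) (hcl : IsPrincipalIdealRing (𝓞 K))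
    (hL : IsRayField K L f) : ∃ ξ : L, IsPrimitiveRoot ξ m := by
  by_contra hno
  push Not at hno
  have hm : m ≠ 0 := by have := h.three_le; omega
  have : NeZero m := ⟨hm⟩
  have hξ := IsCyclotomicExtension.zeta_spec m L (CyclotomicField m L)
  set ξ := IsCyclotomicExtension.zeta m L (CyclotomicField m L) with hξd
  have hgal : IsGalois L (CyclotomicField m L) := IsCyclotomicExtension.isGalois {m} L _
  have hgen : IntermediateField.adjoin L {ξ} = ⊤ := by
    have h2 := IsCyclotomicExtension.adjoin_primitive_root_eq_top (A := L)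
      (B := CyclotomicField m L) hξ
    exact IntermediateField.adjoin_eq_top_of_algebra L {ξ} h2
  obtain ⟨g, hg⟩ : ∃ g : CyclotomicField m L ≃ₐ[L] CyclotomicField m L, g ≠ 1 := by
    by_contra hall
    push Not at hall
    have h2 : Nat.card (CyclotomicField m L ≃ₐ[L] CyclotomicField m L) = 1 := by
      rw [Nat.card_eq_one_iff_unique]
      exact ⟨⟨fun a b => by rw [hall a, hall b]⟩, ⟨1⟩⟩
    rw [IsGalois.card_aut_eq_finrank] at h2
    have h3 : (⊥ : Subalgebra L (CyclotomicField m L)) = ⊤ :=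
      Subalgebra.bot_eq_top_iff_finrank_eq_one.2 h2
    have h4 : ξ ∈ (⊥ : Subalgebra L (CyclotomicField m L)) := by rw [h3]; exact Algebra.mem_top
    obtain ⟨y, hy⟩ := Algebra.mem_bot.1 h4
    refine hno y ?_
    rw [← hy] at hξ
    exact IsPrimitiveRoot.of_map_of_injective hξ (algebraMap L (CyclotomicField m L)).injective
  obtain ⟨p, hp, hmp, φ, hφ⟩ :=
    Pool.Agent.Lib.WeakCheb.exists_no_extension L (CyclotomicField m L) g hg m
  have hpm : ¬ p ∣ m := fun hd => absurd (Nat.le_of_dvd (Nat.pos_of_ne_zero hm) hd) (by omega)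
  obtain ⟨hfrob, hnorm⟩ := uniq_frob (K := K) hL.galois hp φ
  have : Fact p.Prime := ⟨hp⟩
  have hker : (RingHom.ker φ).IsPrime := RingHom.ker_isPrime φ
  set P := (RingHom.ker φ).comap (algebraMap (𝓞 K) (𝓞 L)) with hP
  have hPp : P.IsPrime := Ideal.comap_isPrime _ _
  have hP0 : P ≠ ⊥ := by
    intro h0
    rw [h0, Ideal.absNorm_bot] at hnorm
    exact hp.ne_zero hnorm.symm
  have hfP := ray_f_mem_iff hf
  have hcop : IsCoprime P f := by
    rw [absNorm_coprime hfP hP0, hnorm]
    exact (Nat.Prime.coprime_iff_not_dvd hp).2 hpm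
  have hA : IsArtin K L P 1 := by
    have := IsArtin.mul P 1 (1 : L ≃ₐ[K] L) 1 hPp hP0 hfrob IsArtin.one
    simpa using this
  have hone : (1 : Ideal (𝓞 K)) ≠ ⊥ := by
    rw [Ideal.one_eq_top]; exact top_ne_bot
  have hray : RayEquiv K f P 1 :=
    (hL.kernel P 1 hP0 hone hcop isCoprime_one_left 1 1 hA IsArtin.one).1 rfl
  have hmod := (ray_equiv_iff h.two_le h.cubefree hm h.finrank h.theta hsq h1 hf hcl hP0 hone
    ((absNorm_coprime hfP hP0).1 hcop) ((absNorm_coprime hfP hone).1 isCoprime_one_left)).2 hray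
  rw [hnorm, map_one, ZMod.natCast_eq_natCast_iff'] at hmod
  obtain ⟨ψ, hψ⟩ := uniq_extend (Nat.pos_of_ne_zero hm) hξ hgen hgal hp hpm hmod φ
  exact hφ ψ hψ

/-- the degree of a narrow ray class field is at most `φ(m)` -/
theorem uniq_card (h : Cyc d m K M θ ζ) (hsq : Squarefree m)
    (h1 : ∀ p : ℕ, p.Prime → p ∣ m → p % 3 ≠ 1) {f : Ideal (𝓞 K)}
    (hf : f ^ 3 = Ideal.span {(m : 𝓞 K)}) (hcl : IsPrincipalIdealRing (𝓞 K))
    (hL : IsRayField K L f) : Module.finrank K L ≤ Nat.totient m := by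
  have hm : m ≠ 0 := by have := h.three_le; omega
  have : NeZero m := ⟨hm⟩
  have hgal := hL.galois
  have hfP := ray_f_mem_iff hf
  choose a ha using hL.surj
  have hcop : ∀ σ, Nat.Coprime (Ideal.absNorm (a σ)) m :=
    fun σ => (absNorm_coprime hfP (ha σ).1).1 (ha σ).2.1
  let F : (L ≃ₐ[K] L) → (ZMod m)ˣ := fun σ => ZMod.unitOfCoprime _ (hcop σ)
  have hF : Function.Injective F := by
    intro σ τ hστ
    have h2 := congrArg (fun u : (ZMod m)ˣ => (u : ZMod m)) hστ
    simp only [F, ZMod.coe_unitOfCoprime] at h2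
    have h3 := (ray_equiv_iff h.two_le h.cubefree hm h.finrank h.theta hsq h1 hf hcl (ha σ).1
      (ha τ).1 (hcop σ) (hcop τ)).1 h2
    exact (hL.kernel _ _ (ha σ).1 (ha τ).1 (ha σ).2.1 (ha τ).2.1 σ τ (ha σ).2.2 (ha τ).2.2).2 h3
  have h2 := Nat.card_le_card_of_injective F hF
  rw [IsGalois.card_aut_eq_finrank, Nat.card_eq_fintype_card, ZMod.card_units_eq_totient] at h2
  exact h2

/-- uniqueness of the narrow ray class field -/
theorem uniq_iso (h : Cyc d m K M θ ζ) (hsq : Squarefree m)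
    (h1 : ∀ p : ℕ, p.Prime → p ∣ m → p % 3 ≠ 1) {f : Ideal (𝓞 K)}
    (hf : f ^ 3 = Ideal.span {(m : 𝓞 K)}) (hcl : IsPrincipalIdealRing (𝓞 K))
    (hL : IsRayField K L f) : Nonempty (L ≃ₐ[K] M) := by
  have hm : m ≠ 0 := by have := h.three_le; omega
  have : NeZero m := ⟨hm⟩
  obtain ⟨ξ, hξ⟩ := uniq_root h hsq h1 hf hcl hL
  have hirr := cyc_irr h
  have : NeZero ((m : ℕ) : K) := ⟨by exact_mod_cast hm⟩
  have hint : IsIntegral K ξ := IsIntegral.of_finite K ξ
  have hfr : Module.finrank K (IntermediateField.adjoin K {ξ}) = Nat.totient m := by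
    rw [IntermediateField.adjoin.finrank hint, ← hξ.minpoly_eq_cyclotomic_of_irreducible hirr,
      Polynomial.natDegree_cyclotomic]
  have htop : IntermediateField.adjoin K {ξ} = ⊤ := by
    refine IntermediateField.eq_of_le_of_finrank_le le_top ?_
    rw [IntermediateField.finrank_top', hfr]
    exact uniq_card h hsq h1 hf hcl hL
  have hL' : IsCyclotomicExtension {m} K L := by
    refine cyc_of_adjoin hξ ?_
    have := congrArg IntermediateField.toSubalgebra htop
    rw [IntermediateField.adjoin_simple_toSubalgebra_of_isAlgebraic hint.isAlgebraic] at this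
    simpa using this
  have hM' : IsCyclotomicExtension {m} K M := by
    refine cyc_of_adjoin h.prim ?_
    have := congrArg IntermediateField.toSubalgebra h.gen
    rw [IntermediateField.adjoin_simple_toSubalgebra_of_isAlgebraic
      (IsIntegral.of_finite K ζ).isAlgebraic] at this
    simpa using this
  exact ⟨IsCyclotomicExtension.algEquiv {m} K L M⟩

end main

/-! ## Question Q1 -/

theorem q1_holds {d m : ℕ} {K M : Type} [Field K] [NumberField K] [Field M] [NumberField M]
    [Algebra K M] {θ : K} {ζ : M} (h : Cyc d m K M θ ζ) (hsq : Squarefree m)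
    (h1 : ∀ p : ℕ, p.Prime → p ∣ m → p % 3 ≠ 1) {f : Ideal (𝓞 K)}
    (hf : f ^ 3 = Ideal.span {(m : 𝓞 K)}) (hcl : IsPrincipalIdealRing (𝓞 K)) : Q1 K f := by
  intro L _ _ _ hL v hv
  have : NeZero m := ⟨by have := h.three_le; omega⟩
  obtain ⟨e⟩ := uniq_iso h hsq h1 hf hcl hL
  letI : Algebra L M := (e : L →+* M).toAlgebra
  have : IsScalarTower K L M := IsScalarTower.of_algebraMap_eq fun x => (e.commutes x).symm
  exact stark_cyc (L := L) (M := M) h (ray_f_mem_iff hf) v hv

end MPd9f52e
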