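import Mathlib
import Pool.Agent.Lib.MP_d9f52e_nt.EBas

/-!
# HTay: second order expansion  (about 200 lines)

`TayB`: for `|x| <= 1/2` put `L = log |1+x|^2 = 2 Re log(1+x)`, `L = x + x' - (x^2+x'^2)/2 + e1`, `|e1| <= 2 |x|^3` (Taylor of log, `Complex.norm_log_one_add_sub_self_le`-type, or the third order bound `Complex.norm_log_sub_logTaylor_le`), `x' = conj x`.
`|1+x|^{-2s} = exp(-s L)` and `|exp(z) - 1 - z - z^2/2| <= |z|^3 exp|z|` (`Complex.exp_bound`-type, or from the series), `|L| <= 4|x|`.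
`L^2 = (x+x')^2 + O(|x|^3)`.  So `exp(-sL) = 1 - s(x+x') + (s/2)(x^2+x'^2) + (s^2/2)(x+x')^2 + O(|x|^3)` and `(x+x')^2 = x^2+x'^2+2xx'`.  The constant depends on `R >= |s|` only.
`remT_eq`: `|z+l| = |l| |1+z/l|`.
-/

set_option autoImplicit false

namespace MPd9f52e

open Complex

/-- the bracket -/
noncomputable def br (s x : ℂ) : ℂ :=
  1 - s * (x + (starRingEnd ℂ) x) + s * (s + 1) / 2 * (x ^ 2 + (starRingEnd ℂ) x ^ 2) + s ^ 2 * (x * (starRingEnd ℂ) x)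

private lemma br_eq (s x : ℂ) : br s x = 1 - s * (x + (starRingEnd ℂ) x) +
    s * (s + 1) / 2 * (x ^ 2 + (starRingEnd ℂ) x ^ 2) + s ^ 2 * (x * (starRingEnd ℂ) x) := rfl

private lemma cpow_norm {a : ℝ} (ha : 0 < a) (s : ℂ) :
    (a : ℂ) ^ (-2 * s) = Complex.exp (-s * (2 * (Real.log a : ℂ))) := by
  have h0 : (a : ℂ) ≠ 0 := by exact_mod_cast ha.ne'
  rw [Complex.cpow_def_of_ne_zero h0, ← Complex.ofReal_log ha.le]
  congr 1
  ring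

theorem tayB (R : ℝ) : ∃ C : ℝ, 0 ≤ C ∧ ∀ s : ℂ, ‖s‖ ≤ R → ∀ x : ℂ, ‖x‖ ≤ 1 / 2 →
    ‖(‖1 + x‖ : ℂ) ^ (-2 * s) - br s x‖ ≤ C * ‖x‖ ^ 3 := by
  set Q : ℝ := |R| with hQ
  have Q0 : 0 ≤ Q := abs_nonneg R
  refine ⟨27 * Q ^ 3 * Real.exp (3 / 2 * Q) + 4 / 3 * Q + 25 / 6 * Q ^ 2, by positivity, ?_⟩
  intro s hs x hx
  have hsQ : ‖s‖ ≤ Q := hs.trans (le_abs_self R)
  have hx0 : 0 ≤ ‖x‖ := norm_nonneg x
  have hx1 : ‖x‖ < 1 := by linarith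
  set x' : ℂ := (starRingEnd ℂ) x with hx'
  have nx' : ‖x'‖ = ‖x‖ := by rw [hx']; exact RCLike.norm_conj x
  have h1x : 0 < ‖1 + x‖ := by
    have h : ‖(1 : ℂ)‖ - ‖x‖ ≤ ‖1 + x‖ := by
      have := norm_sub_norm_le (1 : ℂ) (-x)
      rw [norm_neg, sub_neg_eq_add] at this
      exact this
    rw [norm_one] at h
    linarith
  set e : ℂ := Complex.log (1 + x) - (x - x ^ 2 / 2) with he
  have ne : ‖e‖ ≤ 2 / 3 * ‖x‖ ^ 3 := by
    have h := Complex.norm_log_sub_logTaylor_le 2 hx1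
    have e2 : Complex.logTaylor (2 + 1) x = x - x ^ 2 / 2 := by
      simp only [Complex.logTaylor_succ, Complex.logTaylor_zero]
      norm_num
      ring
    rw [e2] at h
    refine h.trans ?_
    have h2 : (1 - ‖x‖)⁻¹ ≤ 2 := by
      rw [inv_eq_one_div, div_le_iff₀] <;> linarith
    have h3 : 0 ≤ ‖x‖ ^ 3 := by positivity
    have h4 := mul_le_mul_of_nonneg_left h2 h3
    norm_num
    linarith
  set L : ℂ := 2 * (Real.log ‖1 + x‖ : ℂ) with hL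
  have hLe : L = x + x' - (x ^ 2 + x' ^ 2) / 2 + (e + (starRingEnd ℂ) e) := by
    have h1 : L = Complex.log (1 + x) + (starRingEnd ℂ) (Complex.log (1 + x)) := by
      rw [Complex.add_conj, Complex.log_re, hL]
      push_cast
      ring
    have h2 : Complex.log (1 + x) = x - x ^ 2 / 2 + e := by rw [he]; ring
    rw [h1, h2]
    simp only [map_add, map_sub, map_pow, map_div₀, map_ofNat, ← hx']
    ring
  have nee : ‖e + (starRingEnd ℂ) e‖ ≤ 4 / 3 * ‖x‖ ^ 3 := by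
    refine (norm_add_le _ _).trans ?_
    rw [RCLike.norm_conj]
    linarith
  have x3 : ‖x‖ ^ 3 ≤ 1 / 2 * ‖x‖ ^ 2 := by
    have : ‖x‖ ^ 3 = ‖x‖ * ‖x‖ ^ 2 := by ring
    rw [this]
    exact mul_le_mul_of_nonneg_right hx (by positivity)
  have hq : ‖(x ^ 2 + x' ^ 2) / 2‖ ≤ ‖x‖ ^ 2 := by
    rw [norm_div]
    have := norm_add_le (x ^ 2) (x' ^ 2)
    rw [norm_pow, norm_pow, nx'] at this
    have e2 : ‖(2 : ℂ)‖ = 2 := by norm_num
    rw [e2]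
    linarith
  have nLx : ‖L - (x + x')‖ ≤ 5 / 3 * ‖x‖ ^ 2 := by
    have e1 : L - (x + x') = -((x ^ 2 + x' ^ 2) / 2) + (e + (starRingEnd ℂ) e) := by
      rw [hLe]; ring
    rw [e1]
    refine (norm_add_le _ _).trans ?_
    rw [norm_neg]
    linarith
  have x2 : ‖x‖ ^ 2 ≤ 1 / 2 * ‖x‖ := by
    rw [pow_two]
    exact mul_le_mul_of_nonneg_right hx hx0
  have nxx : ‖x + x'‖ ≤ 2 * ‖x‖ := by
    refine (norm_add_le _ _).trans ?_
    rw [nx']; linarith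
  have nL : ‖L‖ ≤ 3 * ‖x‖ := by
    have e1 : L = (L - (x + x')) + (x + x') := by ring
    rw [e1]
    refine (norm_add_le _ _).trans ?_
    linarith
  have nLx2 : ‖L + (x + x')‖ ≤ 5 * ‖x‖ := by
    refine (norm_add_le _ _).trans ?_
    linarith
  -- exponential
  set z : ℂ := -s * L with hz
  have nz : ‖z‖ ≤ 3 * Q * ‖x‖ := by
    rw [hz, norm_mul, norm_neg]
    calc ‖s‖ * ‖L‖ ≤ Q * (3 * ‖x‖) := mul_le_mul hsQ nL (norm_nonneg _) Q0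
      _ = 3 * Q * ‖x‖ := by ring
  have nz2 : ‖z‖ ≤ 3 / 2 * Q := by
    refine nz.trans ?_
    have := mul_le_mul_of_nonneg_left hx (by positivity : 0 ≤ 3 * Q)
    linarith
  have hexp : ‖Complex.exp z - (1 + z + z ^ 2 / 2)‖ ≤ 27 * Q ^ 3 * Real.exp (3 / 2 * Q) * ‖x‖ ^ 3 := by
    have h := Complex.norm_exp_sub_sum_le_norm_mul_exp z 3
    have e1 : ∑ m ∈ Finset.range 3, z ^ m / (m.factorial : ℂ) = 1 + z + z ^ 2 / 2 := by
      simp [Finset.sum_range_succ, Nat.factorial]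
    rw [e1] at h
    refine h.trans ?_
    have h2 : ‖z‖ ^ 3 ≤ (3 * Q * ‖x‖) ^ 3 := pow_le_pow_left₀ (norm_nonneg _) nz 3
    have h3 : Real.exp ‖z‖ ≤ Real.exp (3 / 2 * Q) := Real.exp_le_exp.2 nz2
    calc ‖z‖ ^ 3 * Real.exp ‖z‖ ≤ (3 * Q * ‖x‖) ^ 3 * Real.exp (3 / 2 * Q) :=
          mul_le_mul h2 h3 (Real.exp_pos _).le (by positivity)
      _ = 27 * Q ^ 3 * Real.exp (3 / 2 * Q) * ‖x‖ ^ 3 := by ring
  have hmain : (1 + z + z ^ 2 / 2) - br s x = -s * (e + (starRingEnd ℂ) e) +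
      s ^ 2 / 2 * ((L - (x + x')) * (L + (x + x'))) := by
    have hz' : z = -s * (x + x' - (x ^ 2 + x' ^ 2) / 2 + (e + (starRingEnd ℂ) e)) := by
      rw [hz, hLe]
    have hz2 : z ^ 2 / 2 = s ^ 2 / 2 * L ^ 2 := by rw [hz]; ring
    rw [hz2, hz', br_eq, ← hx']
    ring
  have hm1 : ‖-s * (e + (starRingEnd ℂ) e)‖ ≤ 4 / 3 * Q * ‖x‖ ^ 3 := by
    rw [norm_mul, norm_neg]
    calc ‖s‖ * ‖e + (starRingEnd ℂ) e‖ ≤ Q * (4 / 3 * ‖x‖ ^ 3) :=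
          mul_le_mul hsQ nee (norm_nonneg _) Q0
      _ = 4 / 3 * Q * ‖x‖ ^ 3 := by ring
  have hm2 : ‖s ^ 2 / 2 * ((L - (x + x')) * (L + (x + x')))‖ ≤ 25 / 6 * Q ^ 2 * ‖x‖ ^ 3 := by
    rw [norm_mul, norm_mul, norm_div, norm_pow]
    have e2 : ‖(2 : ℂ)‖ = 2 := by norm_num
    rw [e2]
    have h1 : ‖s‖ ^ 2 / 2 ≤ Q ^ 2 / 2 := by
      have := pow_le_pow_left₀ (norm_nonneg s) hsQ 2
      linarith
    have h2 : ‖L - (x + x')‖ * ‖L + (x + x')‖ ≤ 5 / 3 * ‖x‖ ^ 2 * (5 * ‖x‖) :=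
      mul_le_mul nLx nLx2 (norm_nonneg _) (by positivity)
    calc ‖s‖ ^ 2 / 2 * (‖L - (x + x')‖ * ‖L + (x + x')‖) ≤
        Q ^ 2 / 2 * (5 / 3 * ‖x‖ ^ 2 * (5 * ‖x‖)) :=
          mul_le_mul h1 h2 (by positivity) (by positivity)
      _ = 25 / 6 * Q ^ 2 * ‖x‖ ^ 3 := by ring
  have hcp : (‖1 + x‖ : ℂ) ^ (-2 * s) = Complex.exp z := by
    rw [cpow_norm h1x, hz, hL]
  have hfin : (‖1 + x‖ : ℂ) ^ (-2 * s) - br s x = (Complex.exp z - (1 + z + z ^ 2 / 2)) +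
      ((1 + z + z ^ 2 / 2) - br s x) := by
    rw [hcp]; ring
  rw [hfin, hmain]
  refine (norm_add_le _ _).trans ?_
  have := norm_add_le (-s * (e + (starRingEnd ℂ) e))
    (s ^ 2 / 2 * ((L - (x + x')) * (L + (x + x'))))
  linarith

theorem remT_eq {z s l : ℂ} (hl : l ≠ 0) :
    remT z s l = (‖l‖ : ℂ) ^ (-2 * s) * ((‖1 + z / l‖ : ℂ) ^ (-2 * s) - br s (z / l)) := by
  have h1 : ‖z + l‖ = ‖l‖ * ‖1 + z / l‖ := by
    rw [← norm_mul]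
    congr 1
    field_simp
    ring
  unfold remT
  rw [h1, Complex.ofReal_mul, Complex.mul_cpow_ofReal_nonneg (norm_nonneg _) (norm_nonneg _),
    br_eq]
  ring

theorem remT_bound (z : ℂ) (R : ℝ) : ∃ C : ℝ, 0 ≤ C ∧ ∀ s : ℂ, ‖s‖ ≤ R → ∀ l : ℂ, l ≠ 0 → 2 * ‖z‖ ≤ ‖l‖ →
    ‖remT z s l‖ ≤ C * ‖l‖ ^ (-2 * s.re - 3) := by
  obtain ⟨C, hC, h⟩ := tayB R
  refine ⟨C * ‖z‖ ^ 3, by positivity, fun s hs l hl hzl => ?_⟩
  have h0 : (0 : ℝ) < ‖l‖ := norm_pos_iff.2 hl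
  have hx : ‖z / l‖ ≤ 1 / 2 := by
    rw [norm_div, div_le_iff₀ h0]
    linarith
  have h1 := h s hs (z / l) hx
  rw [remT_eq hl, norm_mul, Complex.norm_cpow_eq_rpow_re_of_pos h0]
  have e1 : (-2 * s).re = -2 * s.re := by simp
  rw [e1]
  have h2 : 0 ≤ ‖l‖ ^ (-2 * s.re) := Real.rpow_nonneg h0.le _
  refine (mul_le_mul_of_nonneg_left h1 h2).trans (le_of_eq ?_)
  have e2 : ‖l‖ ^ (-2 * s.re - 3) = ‖l‖ ^ (-2 * s.re) / ‖l‖ ^ (3 : ℝ) := Real.rpow_sub h0 _ _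
  have e3 : ‖l‖ ^ (3 : ℝ) = ‖l‖ ^ 3 := by
    have := Real.rpow_natCast ‖l‖ 3
    simpa using this
  rw [e2, e3, norm_div, div_pow]
  ring

theorem remT_diff {z l : ℂ} (hl : l ≠ 0) (hz : z + l ≠ 0) : Differentiable ℂ (fun s => remT z s l) := by
  have h1 : (‖l‖ : ℂ) ≠ 0 := by
    have := norm_ne_zero_iff.2 hl
    exact_mod_cast this
  have h2 : (‖z + l‖ : ℂ) ≠ 0 := by
    have := norm_ne_zero_iff.2 hz
    exact_mod_cast this
  intro s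
  unfold remT
  have d1 : DifferentiableAt ℂ (fun s : ℂ => -2 * s) s := differentiableAt_id.const_mul (-2)
  have d2 : DifferentiableAt ℂ (fun s : ℂ => (‖z + l‖ : ℂ) ^ (-2 * s)) s :=
    d1.const_cpow (Or.inl h2)
  have d3 : DifferentiableAt ℂ (fun s : ℂ => (‖l‖ : ℂ) ^ (-2 * s)) s :=
    d1.const_cpow (Or.inl h1)
  refine d2.sub (d3.mul ?_)
  fun_prop

theorem remT_zero {z l : ℂ} (hl : l ≠ 0) (hz : z + l ≠ 0) : remT z 0 l = 0 := by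
  unfold remT
  simp

theorem remT_deriv {z : ℂ} {l : Eis} (hl : l ≠ 0) (hz : z + ec l ≠ 0) :
    HasDerivAt (fun s => remT z s (ec l)) ((-2 * Real.log ‖sigF z l‖ : ℝ) : ℂ) 0 := by
  have hl' : ec l ≠ 0 := ec_ne_zero hl
  have n1 : (0 : ℝ) < ‖ec l‖ := norm_pos_iff.2 hl'
  have n2 : (0 : ℝ) < ‖z + ec l‖ := norm_pos_iff.2 hz
  set x : ℂ := z / ec l with hx
  set x' : ℂ := (starRingEnd ℂ) x with hx'
  have c1 : (‖ec l‖ : ℂ) ≠ 0 := by exact_mod_cast n1.ne'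
  have c2 : (‖z + ec l‖ : ℂ) ≠ 0 := by exact_mod_cast n2.ne'
  have d1 : HasDerivAt (fun s : ℂ => -2 * s) (-2) 0 := by
    simpa using (hasDerivAt_id (0 : ℂ)).const_mul (-2 : ℂ)
  have d2 : HasDerivAt (fun s : ℂ => (‖z + ec l‖ : ℂ) ^ (-2 * s))
      ((‖z + ec l‖ : ℂ) ^ (-2 * (0 : ℂ)) * Complex.log (‖z + ec l‖ : ℂ) * (-2)) 0 :=
    d1.const_cpow (Or.inl c2)
  have d3 : HasDerivAt (fun s : ℂ => (‖ec l‖ : ℂ) ^ (-2 * s))
      ((‖ec l‖ : ℂ) ^ (-2 * (0 : ℂ)) * Complex.log (‖ec l‖ : ℂ) * (-2)) 0 :=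
    d1.const_cpow (Or.inl c1)
  have i0 : HasDerivAt (fun s : ℂ => s) 1 0 := hasDerivAt_id 0
  have d4 : HasDerivAt (fun s : ℂ => br s x) (-(x + x') + (x ^ 2 + x' ^ 2) / 2) 0 := by
    have a1 := (i0.mul_const (x + x')).const_sub 1
    have a2 := ((i0.mul (i0.add_const 1)).div_const 2).mul_const (x ^ 2 + x' ^ 2)
    have a3 := (i0.pow 2).mul_const (x * x')
    have a4 := (a1.add a2).add a3
    refine (a4.congr_deriv ?_).congr_of_eventuallyEq ?_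
    · simp
      ring
    · filter_upwards with s
      simp only [br_eq, Pi.add_apply, Pi.mul_apply, Pi.pow_apply, ← hx']
  have d5 := d2.sub (d3.mul d4)
  refine (d5.congr_deriv ?_).congr_of_eventuallyEq ?_
  · have hb : br 0 x = 1 := by rw [br_eq]; simp
    have hx1 : ‖z + ec l‖ = ‖ec l‖ * ‖1 + x‖ := by
      rw [← norm_mul, hx]
      congr 1
      field_simp
      ring
    have n3 : (0 : ℝ) < ‖1 + x‖ := by
      rw [hx1] at n2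
      exact (pos_iff_pos_of_mul_pos n2).1 n1
    have hs : ‖sigF z l‖ = ‖1 + x‖ * Real.exp (-x.re + (x ^ 2).re / 2) := by
      unfold sigF
      rw [if_neg hl, norm_mul, Complex.norm_exp, ← hx]
      congr 2
      have : z ^ 2 / (2 * ec l ^ 2) = x ^ 2 / 2 := by
        rw [hx, div_pow]; field_simp
      rw [this]
      simp
    have hlog : Real.log ‖sigF z l‖ = Real.log ‖1 + x‖ + (-x.re + (x ^ 2).re / 2) := by
      rw [hs, Real.log_mul n3.ne' (Real.exp_pos _).ne', Real.log_exp]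
    rw [hlog, hb, ← Complex.ofReal_log n1.le, ← Complex.ofReal_log n2.le, hx1,
      Real.log_mul n1.ne' n3.ne']
    have e1 : x + x' = ((2 * x.re : ℝ) : ℂ) := by rw [hx']; exact Complex.add_conj x
    have e2 : x ^ 2 + x' ^ 2 = ((2 * (x ^ 2).re : ℝ) : ℂ) := by
      rw [hx', ← map_pow]; exact Complex.add_conj (x ^ 2)
    rw [e1, e2]
    simp only [mul_zero, Complex.cpow_zero]
    push_cast
    ring
  · filter_upwards with s
    simp only [Pi.sub_apply, Pi.mul_apply]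
    unfold remT
    rw [br_eq, ← hx]

end MPd9f52e
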