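import Mathlib
import Pool.Agent.Lib.MP_d9f52e_nt.EBas

/-!
# EEuc: Eis is a principal ideal domain; coprimality  (about 200 lines)

Division with remainder: for `a, b`, `b <> 0` write `ec a / ec b = x + y w` with `x, y` rational, round both:
`q`, and `|x' + y' w|^2 = x'^2 - x'y' + y'^2 <= 3/4` for `|x'|, |y'| <= 1/2`; so `nm (a - b q) < nm b`.
Every ideal is generated by a nonzero element of minimal norm (or use `EuclideanDomain`).
`isCoprime_iff`: if `x b + y n = 1` and a prime number `p` divides `nm b` and `n`, then `p | nm b` and `p | n` give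
`nm(x b) = nm(1 - y n) = 1 mod p`, contradiction.  Conversely if `(nm b, n) = 1` then `1 = u nm b + v n = (u star b) b + v n`.
-/

set_option autoImplicit false

namespace MPd9f52e

open Complex

private lemma nmZ (b : Eis) : ((nm b : ℕ) : ℤ) = b.re ^ 2 - b.re * b.im + b.im ^ 2 := by
  unfold nm
  rw [Int.natCast_natAbs, abs_of_nonneg]
  nlinarith [sq_nonneg (2 * b.re - b.im), sq_nonneg b.im]

instance instIsDomainEis : IsDomain Eis := ec_inj.isDomain ec

theorem exists_div (a b : Eis) (hb : b ≠ 0) : ∃ q : Eis, nm (a - b * q) < nm b := by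
  have hN : 0 < nm b := Nat.pos_of_ne_zero fun h => hb ((nm_eq_zero b).1 h)
  set N : ℤ := ((nm b : ℕ) : ℤ) with hNdef
  have hN' : 0 < N := by rw [hNdef]; exact_mod_cast hN
  set c : Eis := a * star b with hc
  have key : ∀ x : ℤ, ∃ q : ℤ, -N ≤ 2 * (x - N * q) ∧ 2 * (x - N * q) ≤ N := by
    intro x
    refine ⟨(2 * x + N) / (2 * N), ?_, ?_⟩
    · have := Int.ediv_mul_le (2 * x + N) (show (2 * N : ℤ) ≠ 0 by positivity)
      nlinarith
    · have := Int.lt_ediv_add_one_mul_self (2 * x + N) (show (0 : ℤ) < 2 * N by positivity)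
      nlinarith
  obtain ⟨q1, h1, h1'⟩ := key c.re
  obtain ⟨q2, h2, h2'⟩ := key c.im
  refine ⟨⟨q1, q2⟩, ?_⟩
  set q : Eis := ⟨q1, q2⟩ with hq
  have e : (a - b * q) * star b = c - (nm b : Eis) * q := by
    rw [← mul_star_self b, hc]; ring
  have hre : (c - (nm b : Eis) * q).re = c.re - N * q1 := by
    simp [hq, hNdef]
  have him : (c - (nm b : Eis) * q).im = c.im - N * q2 := by
    simp [hq, hNdef]
  have h3 : (nm ((a - b * q) * star b) : ℤ) < N * N := by
    rw [e, nmZ, hre, him]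
    set x := c.re - N * q1
    set y := c.im - N * q2
    nlinarith [mul_nonneg (sub_nonneg.2 h1') (sub_nonneg.2 h2'),
      mul_nonneg (sub_nonneg.2 h1') (by linarith : (0 : ℤ) ≤ 2 * y + N),
      mul_nonneg (by linarith : (0 : ℤ) ≤ 2 * x + N) (sub_nonneg.2 h2'),
      mul_nonneg (by linarith : (0 : ℤ) ≤ 2 * x + N) (by linarith : (0 : ℤ) ≤ 2 * y + N),
      mul_nonneg (sub_nonneg.2 h1') (by linarith : (0 : ℤ) ≤ 2 * x + N),
      mul_nonneg (sub_nonneg.2 h2') (by linarith : (0 : ℤ) ≤ 2 * y + N)]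
  rw [nm_mul, nm_star] at h3
  have h4 : nm (a - b * q) * nm b < nm b * nm b := by
    rw [hNdef] at h3; exact_mod_cast h3
  exact lt_of_mul_lt_mul_right h4 (Nat.zero_le _)

instance instPIREis : IsPrincipalIdealRing Eis := by
  constructor
  intro S
  by_cases hS : S = ⊥
  · subst hS; infer_instance
  · obtain ⟨x, hx, hx0⟩ := Submodule.exists_mem_ne_zero_of_ne_bot hS
    have hex : ∃ n : ℕ, ∃ b ∈ S, b ≠ 0 ∧ nm b = n := ⟨nm x, x, hx, hx0, rfl⟩
    classical
    obtain ⟨b, hb, hb0, hbn⟩ := Nat.find_spec hex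
    refine ⟨⟨b, le_antisymm ?_ ?_⟩⟩
    · intro a ha
      obtain ⟨q, hq⟩ := exists_div a b hb0
      have hr : a - b * q ∈ S := S.sub_mem ha (by
        have := S.smul_mem q hb
        rwa [smul_eq_mul, mul_comm] at this)
      have h0 : a - b * q = 0 := by
        by_contra hne
        have := Nat.find_min' hex ⟨a - b * q, hr, hne, rfl⟩
        omega
      rw [Submodule.mem_span_singleton]
      exact ⟨q, by rw [smul_eq_mul, mul_comm]; exact (sub_eq_zero.1 h0).symm⟩
    · rw [Submodule.span_singleton_le_iff_mem]; exact hb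

private lemma nm_congr' {n : ℕ} {a b : Eis} (h : (n : Eis) ∣ a - b) :
    (nm a : ZMod n) = (nm b : ZMod n) := by
  obtain ⟨c, hc⟩ := h
  have ha : a = b + (n : Eis) * c := by rw [← hc]; ring
  have h1 : ((nm a : ℕ) : ZMod n) = (((nm a : ℕ) : ℤ) : ZMod n) := by simp
  have h2 : ((nm b : ℕ) : ZMod n) = (((nm b : ℕ) : ℤ) : ZMod n) := by simp
  rw [h1, h2, nmZ, nmZ, ha]
  simp

theorem isCoprime_iff (b : Eis) (n : ℕ) : IsCoprime b (n : Eis) ↔ (nm b).Coprime n := by
  constructor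
  · rintro ⟨x, y, h⟩
    have h1 : (n : Eis) ∣ x * b - 1 := ⟨-y, by rw [← h]; ring⟩
    have h2 := nm_congr' h1
    rw [nm_one, nm_mul] at h2
    push_cast at h2
    rw [← ZMod.isUnit_iff_coprime]
    exact IsUnit.of_mul_eq_one_right _ h2
  · intro h
    obtain ⟨u, v, huv⟩ := Nat.isCoprime_iff_coprime.2 h
    refine ⟨(u : Eis) * star b, (v : Eis), ?_⟩
    have h1 : ((u * (nm b : ℕ) + v * (n : ℕ) : ℤ) : Eis) = 1 := by rw [huv]; simp
    push_cast at h1
    rw [mul_assoc, mul_comm (star b) b, mul_star_self]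
    exact h1

theorem isCoprime_of_nm {a b : Eis} (h : (nm a).Coprime (nm b)) : IsCoprime a b := by
  obtain ⟨u, v, huv⟩ := Nat.isCoprime_iff_coprime.2 h
  refine ⟨(u : Eis) * star a, (v : Eis) * star b, ?_⟩
  have h1 : ((u * (nm a : ℕ) + v * (nm b : ℕ) : ℤ) : Eis) = 1 := by rw [huv]; simp
  push_cast at h1
  rw [mul_assoc, mul_comm (star a) a, mul_star_self, mul_assoc, mul_comm (star b) b, mul_star_self]
  exact h1

theorem prime_of_nm {b : Eis} (h : (nm b).Prime) : Prime b := by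
  rw [← UniqueFactorizationMonoid.irreducible_iff_prime]
  refine ⟨fun hu => ?_, fun x y hxy => ?_⟩
  · rw [unit_iff] at hu
    rw [hu] at h
    exact Nat.not_prime_one h
  · rw [hxy, nm_mul] at h
    rcases Nat.prime_mul_iff.1 h with ⟨_, h2⟩ | ⟨_, h2⟩
    · right; rw [unit_iff]; exact h2
    · left; rw [unit_iff]; exact h2

theorem isCoprime_star {b : Eis} {n : ℕ} (h : IsCoprime b (n : Eis)) : IsCoprime (star b) (n : Eis) := by
  rw [isCoprime_iff] at h ⊢
  rwa [nm_star]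

theorem star_dvd {a b : Eis} (h : a ∣ b) : star a ∣ star b := by
  obtain ⟨c, rfl⟩ := h
  exact ⟨star c, by rw [star_mul, mul_comm]⟩

theorem dvd_natCast {n : ℕ} {b : Eis} (h : b ∣ (n : Eis)) : nm b ∣ n ^ 2 := by
  rw [← nm_natCast]; exact nm_dvd h

/-- a natural number divides another one in `Eis` iff it does in `ℕ` -/
theorem natCast_dvd {m n : ℕ} : (m : Eis) ∣ (n : Eis) ↔ m ∣ n := by
  constructor
  · rintro ⟨c, hc⟩
    have := congrArg QuadraticAlgebra.re hc
    simp at this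
    exact Int.natCast_dvd_natCast.1 ⟨c.re, this⟩
  · rintro ⟨c, rfl⟩
    exact ⟨c, by push_cast; ring⟩

theorem intCast_dvd {m n : ℤ} : (m : Eis) ∣ (n : Eis) ↔ m ∣ n := by
  constructor
  · rintro ⟨c, hc⟩
    have := congrArg QuadraticAlgebra.re hc
    simp at this
    exact ⟨c.re, this⟩
  · rintro ⟨c, rfl⟩
    exact ⟨c, by push_cast; ring⟩

/-- componentwise criterion -/
theorem natCast_dvd_iff {m : ℕ} {b : Eis} : (m : Eis) ∣ b ↔ (m : ℤ) ∣ b.re ∧ (m : ℤ) ∣ b.im := by
  constructor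
  · rintro ⟨c, rfl⟩
    exact ⟨⟨c.re, by simp⟩, ⟨c.im, by simp⟩⟩
  · rintro ⟨⟨x, hx⟩, ⟨y, hy⟩⟩
    refine ⟨⟨x, y⟩, ?_⟩
    ext
    · simp [hx]
    · simp [hy]

theorem nm_congr {n : ℕ} {a b : Eis} (h : (n : Eis) ∣ a - b) : (nm a : ZMod n) = (nm b : ZMod n) :=
  nm_congr' h

end MPd9f52e
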