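import Mathlib
import Pool.Agent.Lib.MP_d9f52e_nt.EEuc

/-!
# EPri: primes of Eis, primary associates  (about 250 lines)

`exists_nm_eq`: `p = 1 mod 3`: -3 is a square mod p (or: an element `x` of order 3 in `(Z/p)^*`, `p | x^2+x+1 = nm (x - om)`), so `p` divides
`(x - om)(x - om^2)` but none of the factors: `p` is not prime in `Eis`, hence not irreducible, `p = a b` with `nm a = nm b = p`.
`prime_inert`: `p = 2 mod 3`: if `p = a b` with non-units then `nm a = p`, but `4 nm a = (2re-im)^2+3im^2`, `nm a = (re + im)^2 mod 3` is `0, 1`.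
`not_dvd_star`: if `l | star l` then `l` divides `l + star l = trace` and `l - star l = im l * s3`, hence (as `nm l = p <> 3` is prime, `l` does not divide `s3`)
`l | im l`, `p | (im l)^2`, and `l | re`, so `p^2 | nm l`.
`prime_cases`: a prime `q` of `Eis` divides `nm q`, hence a prime number `p`; use the three types of `p`.
`exists_prim`: modulo 3 the elements of norm prime to 3 are exactly the six units: `b = re + im om`, finitely many cases mod 3 (`decide`);
uniqueness by `unit_congr` (nm 3 = 9).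
-/

set_option autoImplicit false

namespace MPd9f52e

open Complex

private lemma nmZ (b : Eis) : ((nm b : ℕ) : ℤ) = b.re ^ 2 - b.re * b.im + b.im ^ 2 := by
  unfold nm
  rw [Int.natCast_natAbs, abs_of_nonneg]
  nlinarith [sq_nonneg (2 * b.re - b.im), sq_nonneg b.im]

private lemma re_one' : (1 : Eis).re = 1 := rfl

private lemma im_one' : (1 : Eis).im = 0 := rfl

private lemma re_three' : (3 : Eis).re = 3 := rfl

private lemma im_three' : (3 : Eis).im = 0 := rfl

private lemma re_nine' : (9 : Eis).re = 9 := rfl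

private lemma im_nine' : (9 : Eis).im = 0 := rfl

attribute [local simp] re_one' im_one' re_three' im_three' re_nine' im_nine'

private lemma nm_cast_three (b : Eis) : ((nm b : ℕ) : ZMod 3) = ((b.re : ZMod 3) + b.im) ^ 2 := by
  have h1 : ((nm b : ℕ) : ZMod 3) = (((nm b : ℕ) : ℤ) : ZMod 3) := by simp
  rw [h1, nmZ]
  push_cast
  have h3 : (3 : ZMod 3) = 0 := by decide
  linear_combination (-(b.re : ZMod 3) * b.im) * h3

theorem nm_mod_three (b : Eis) : nm b % 3 = 0 ∨ nm b % 3 = 1 := by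
  have h1 := nm_cast_three b
  have h2 : ∀ x : ZMod 3, x ^ 2 = ((0 : ℕ) : ZMod 3) ∨ x ^ 2 = ((1 : ℕ) : ZMod 3) := by decide
  rcases h2 ((b.re : ZMod 3) + b.im) with h | h
  · left
    rw [h, ZMod.natCast_eq_natCast_iff] at h1
    exact h1
  · right
    rw [h, ZMod.natCast_eq_natCast_iff] at h1
    exact h1

private lemma star_natCast' (n : ℕ) : star (n : Eis) = (n : Eis) := by
  ext <;> simp [QuadraticAlgebra.star_mk, star]

private lemma not_unit_of_nm {b : Eis} (h : nm b ≠ 1) : ¬ IsUnit b := fun hu => h ((unit_iff b).1 hu)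

private lemma not_unit_prime {p : ℕ} (hp : p.Prime) : ¬ IsUnit (p : Eis) := by
  apply not_unit_of_nm
  rw [nm_natCast]
  have := hp.one_lt
  nlinarith

theorem exists_nm_eq {p : ℕ} (hp : p.Prime) (h : p % 3 = 1) : ∃ l : Eis, nm l = p := by
  have : Fact p.Prime := ⟨hp⟩
  have h3 : 3 ∣ Nat.card (ZMod p)ˣ := by
    rw [Nat.card_eq_fintype_card, ZMod.card_units]
    omega
  have : Fact (Nat.Prime 3) := ⟨Nat.prime_three⟩
  obtain ⟨x, hx⟩ := exists_prime_orderOf_dvd_card' (G := (ZMod p)ˣ) 3 h3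
  have hx3 : (x : ZMod p) ^ 3 = 1 := by
    have := pow_orderOf_eq_one x
    rw [hx] at this
    have := congrArg (Units.val) this
    simpa using this
  have hx1 : (x : ZMod p) ≠ 1 := by
    intro h1
    have : x = 1 := Units.ext h1
    rw [this, orderOf_one] at hx
    omega
  have hq : (x : ZMod p) ^ 2 + x + 1 = 0 := by
    have : ((x : ZMod p) - 1) * ((x : ZMod p) ^ 2 + x + 1) = 0 := by
      linear_combination hx3
    rcases mul_eq_zero.1 this with h | h
    · exact absurd (sub_eq_zero.1 h) hx1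
    · exact h
  set n := (x : ZMod p).val with hn
  have hn' : ((n : ℕ) : ZMod p) = x := ZMod.natCast_zmod_val _
  set b : Eis := ⟨n, -1⟩ with hb
  have hnb : nm b = n ^ 2 + n + 1 := by
    have := nmZ b
    zify
    rw [this, hb]
    ring
  have hpd : (p : Eis) ∣ b * star b := by
    rw [mul_star_self, natCast_dvd, hnb, ← ZMod.natCast_eq_zero_iff]
    push_cast
    rw [hn']
    exact hq
  have hnp : ¬ Prime (p : Eis) := by
    intro hP
    rcases hP.dvd_or_dvd hpd with h1 | h1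
    · have := (natCast_dvd_iff.1 h1).2
      rw [hb] at this
      have h2 : (p : ℤ) ∣ 1 := by simpa using this
      have := Int.le_of_dvd (by norm_num) h2
      have := hp.one_lt
      omega
    · have h2 := star_dvd h1
      rw [star_star, star_natCast'] at h2
      have := (natCast_dvd_iff.1 h2).2
      rw [hb] at this
      have h2 : (p : ℤ) ∣ 1 := by simpa using this
      have := Int.le_of_dvd (by norm_num) h2
      have := hp.one_lt
      omega
  rw [← UniqueFactorizationMonoid.irreducible_iff_prime, irreducible_iff] at hnp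
  push Not at hnp
  obtain ⟨a, c, hac, ha, hc⟩ := hnp (not_unit_prime hp)
  rw [unit_iff] at ha hc
  have h1 : nm a * nm c = p ^ 2 := by rw [← nm_mul, ← hac, nm_natCast]
  exact ⟨a, ((Nat.Prime.mul_eq_prime_sq_iff hp ha hc).1 h1).1⟩

theorem prime_inert {p : ℕ} (hp : p.Prime) (h : p % 3 = 2) : Prime (p : Eis) := by
  rw [← UniqueFactorizationMonoid.irreducible_iff_prime]
  refine ⟨not_unit_prime hp, fun a c hac => ?_⟩
  by_contra hcon
  push Not at hcon
  obtain ⟨ha, hc⟩ := hcon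
  rw [unit_iff] at ha hc
  have h1 : nm a * nm c = p ^ 2 := by rw [← nm_mul, ← hac, nm_natCast]
  have h2 := ((Nat.Prime.mul_eq_prime_sq_iff hp ha hc).1 h1).1
  have := nm_mod_three a
  omega

theorem inert_dvd {p : ℕ} (hp : p.Prime) (h : p % 3 = 2) {b : Eis} (hb : p ∣ nm b) : (p : Eis) ∣ b := by
  have h1 : (p : Eis) ∣ b * star b := by rw [mul_star_self, natCast_dvd]; exact hb
  rcases (prime_inert hp h).dvd_or_dvd h1 with h2 | h2
  · exact h2
  · have := star_dvd h2
    rwa [star_star, star_natCast'] at this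

theorem dvd_or_of_dvd_nm {p : ℕ} (hp : p.Prime) {l : Eis} (hl : nm l = p) {b : Eis} (hb : p ∣ nm b) :
    l ∣ b ∨ star l ∣ b := by
  have hlp : Prime l := prime_of_nm (by rw [hl]; exact hp)
  have h1 : l ∣ b * star b := by
    rw [mul_star_self]
    refine dvd_trans ?_ (natCast_dvd.2 hb)
    rw [← hl, ← mul_star_self]
    exact dvd_mul_right _ _
  rcases hlp.dvd_or_dvd h1 with h2 | h2
  · exact Or.inl h2
  · right
    have := star_dvd h2
    rwa [star_star] at this

private lemma nm_intCast (n : ℤ) : (nm (n : Eis) : ℤ) = n ^ 2 := by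
  rw [nmZ]; simp

theorem not_dvd_star {l : Eis} (hl : (nm l).Prime) (h3 : nm l ≠ 3) : ¬ l ∣ star l := by
  intro h
  have hlp : Prime l := prime_of_nm hl
  have h1 : l ∣ l - star l := dvd_sub dvd_rfl h
  have h2 : l - star l = (l.im : Eis) * s3 := by
    ext <;> simp [s3, star] <;> ring
  rw [h2] at h1
  rcases hlp.dvd_or_dvd h1 with h4 | h4
  · have h5 : l ∣ (l.re : Eis) := by
      have : (l.re : Eis) = l - (l.im : Eis) * om := by
        ext <;> simp [om]
      rw [this]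
      exact dvd_sub dvd_rfl (Dvd.dvd.mul_right h4 _)
    have key : ∀ x : ℤ, l ∣ (x : Eis) → ((nm l : ℕ) : ℤ) ∣ x := by
      intro x hx
      have h6 := nm_dvd hx
      have h7 : ((nm l : ℕ) : ℤ) ∣ x ^ 2 := by
        rw [← nm_intCast]; exact_mod_cast h6
      exact (Nat.prime_iff_prime_int.1 hl).dvd_of_dvd_pow h7
    obtain ⟨x, hx⟩ := key _ h4
    obtain ⟨y, hy⟩ := key _ h5
    have h8 := nmZ l
    have hp0 : (0 : ℤ) < ((nm l : ℕ) : ℤ) := by exact_mod_cast hl.pos
    set P : ℤ := ((nm l : ℕ) : ℤ) with hP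
    rw [hx, hy] at h8
    have h9 : P * 1 = P * (P * (y ^ 2 - y * x + x ^ 2)) := by linear_combination h8
    have h10 := mul_left_cancel₀ hp0.ne' h9
    have h11 : P ∣ 1 := ⟨_, h10⟩
    have h12 := Int.le_of_dvd (by norm_num) h11
    have := hl.one_lt
    rw [hP] at h12
    omega
  · have := nm_dvd h4
    rw [nm_s3] at this
    rcases (Nat.dvd_prime Nat.prime_three).1 this with h5 | h5
    · rw [h5] at hl; exact Nat.not_prime_one hl
    · exact h3 h5

theorem prime_s3 : Prime s3 := prime_of_nm (by rw [nm_s3]; exact Nat.prime_three)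

theorem s3_dvd_iff (b : Eis) : s3 ∣ b ↔ 3 ∣ nm b := by
  constructor
  · intro h
    have := nm_dvd h
    rwa [nm_s3] at this
  · intro h
    rcases dvd_or_of_dvd_nm Nat.prime_three nm_s3 h with h1 | h1
    · exact h1
    · have : star s3 = -s3 := by
        ext <;> simp [s3, star]
      rw [this, neg_dvd] at h1
      exact h1

private lemma exists_prime_dvd_of {q : Eis} (hq : Prime q) : ∀ n : ℕ, n ≠ 0 → q ∣ (n : Eis) →
    ∃ p : ℕ, p.Prime ∧ q ∣ (p : Eis) := by
  intro n
  induction n using induction_on_primes with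
  | zero => intro h; exact absurd rfl h
  | one =>
    intro _ h
    exact absurd (isUnit_of_dvd_one (by simpa using h)) hq.not_isUnit
  | prime_mul p a hp ih =>
    intro h0 h
    push_cast at h
    rcases hq.dvd_or_dvd h with h1 | h1
    · exact ⟨p, hp, h1⟩
    · exact ih (by rintro rfl; simp at h0) h1

theorem prime_cases {q : Eis} (hq : Prime q) :
    (∃ p : ℕ, p.Prime ∧ p % 3 = 2 ∧ Associated q (p : Eis)) ∨ ((nm q).Prime ∧ nm q % 3 = 1) ∨ Associated q s3 := by
  have h0 : nm q ≠ 0 := fun h => hq.ne_zero ((nm_eq_zero q).1 h)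
  have h1 : q ∣ ((nm q : ℕ) : Eis) := by rw [← mul_star_self]; exact dvd_mul_right _ _
  obtain ⟨p, hp, hqp⟩ := exists_prime_dvd_of hq _ h0 h1
  have hn1 : nm q ≠ 1 := fun h => hq.not_isUnit ((unit_iff q).2 h)
  have hcases : p % 3 = 0 ∨ p % 3 = 1 ∨ p % 3 = 2 := by omega
  rcases hcases with h | h | h
  · right; right
    have hp3 : p = 3 := by
      have : 3 ∣ p := by omega
      exact ((Nat.prime_dvd_prime_iff_eq Nat.prime_three hp).1 this).symm
    subst hp3
    have h2 : q ∣ s3 ^ 2 := by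
      rw [s3_sq]
      have : (-3 : Eis) = -((3 : ℕ) : Eis) := by norm_num
      rw [this]
      exact (dvd_neg).2 hqp
    exact hq.associated_of_dvd prime_s3 (hq.dvd_of_dvd_pow h2)
  · right; left
    obtain ⟨l, hl⟩ := exists_nm_eq hp h
    have h2 : nm q ∣ p := by
      rw [← hl, ← mul_star_self] at hqp
      rcases hq.dvd_or_dvd hqp with h3 | h3
      · have := nm_dvd h3
        rwa [hl] at this
      · have := nm_dvd h3
        rwa [nm_star, hl] at this
    rcases (Nat.dvd_prime hp).1 h2 with h3 | h3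
    · exact absurd h3 hn1
    · rw [h3]; exact ⟨hp, h⟩
  · left
    exact ⟨p, hp, h, hq.associated_of_dvd (prime_inert hp h) hqp⟩

private def omU : Eisˣ := ⟨om, om ^ 2, by rw [← pow_succ', om_pow_three], by rw [← pow_succ, om_pow_three]⟩

private lemma dvd_three_iff {b : Eis} : (3 : Eis) ∣ b ↔ (3 : ℤ) ∣ b.re ∧ (3 : ℤ) ∣ b.im := by
  have := @natCast_dvd_iff 3 b
  simpa using this

theorem exists_prim {b : Eis} (h : ¬ 3 ∣ nm b) : ∃ ε : Eisˣ, (3 : Eis) ∣ ε * b - 1 := by
  have h1 : ¬ (3 : ℤ) ∣ b.re + b.im := by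
    intro h2
    apply h
    have h3 := nmZ b
    have h4 : (3 : ℤ) ∣ ((nm b : ℕ) : ℤ) := by
      rw [h3]
      obtain ⟨k, hk⟩ := h2
      refine ⟨3 * k ^ 2 - b.re * b.im, ?_⟩
      linear_combination (b.re + b.im + 3 * k) * hk
    exact_mod_cast h4
  have ho : (omU : Eis) = ⟨0, 1⟩ := rfl
  have ho2 : ((omU⁻¹ : Eisˣ) : Eis) = ⟨-1, -1⟩ := by
    change om ^ 2 = _
    rw [om_sq]
    ext <;> simp [om]
  have hc : (b.re % 3 = 0 ∨ b.re % 3 = 1 ∨ b.re % 3 = 2) ∧ (b.im % 3 = 0 ∨ b.im % 3 = 1 ∨ b.im % 3 = 2) := by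
    constructor <;> omega
  obtain ⟨h2 | h2 | h2, h3 | h3 | h3⟩ := hc
  · exact absurd (by omega) h1
  · refine ⟨omU⁻¹, dvd_three_iff.2 ?_⟩
    rw [ho2]
    constructor
    · simp; omega
    · simp; omega
  · refine ⟨-omU⁻¹, dvd_three_iff.2 ?_⟩
    rw [Units.val_neg, ho2]
    constructor
    · simp; omega
    · simp; omega
  · refine ⟨1, dvd_three_iff.2 ?_⟩
    constructor
    · simp; omega
    · simp; omega
  · refine ⟨-omU, dvd_three_iff.2 ?_⟩
    rw [Units.val_neg, ho]
    constructor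
    · simp; omega
    · simp; omega
  · exact absurd (by omega) h1
  · refine ⟨-1, dvd_three_iff.2 ?_⟩
    constructor
    · simp; omega
    · simp; omega
  · exact absurd (by omega) h1
  · refine ⟨omU, dvd_three_iff.2 ?_⟩
    rw [ho]
    constructor
    · simp; omega
    · simp; omega

theorem unit_eq_of_prim {b : Eis} (h : ¬ 3 ∣ nm b) {ε ε' : Eisˣ} (h1 : (3 : Eis) ∣ ε * b - 1)
    (h2 : (3 : Eis) ∣ ε' * b - 1) : ε = ε' := by
  have h3 : (3 : Eis) ∣ ((ε : Eis) - ε') * b := by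
    have := dvd_sub h1 h2
    have e : (ε : Eis) * b - 1 - (ε' * b - 1) = ((ε : Eis) - ε') * b := by ring
    rwa [e] at this
  have hc : IsCoprime b ((3 : ℕ) : Eis) := by
    rw [isCoprime_iff]
    exact ((Nat.Prime.coprime_iff_not_dvd Nat.prime_three).2 h).symm
  have h4 : (3 : Eis) ∣ (ε : Eis) - ε' := by
    have hc' : IsCoprime (3 : Eis) b := by simpa using hc.symm
    exact hc'.dvd_of_dvd_mul_right h3
  refine unit_congr (b := 3) ?_ h4
  have := nm_natCast 3
  have e : ((3 : ℕ) : Eis) = 3 := by norm_num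
  rw [e] at this
  rw [this]; norm_num

theorem prim_spec {b : Eis} (h : ¬ 3 ∣ nm b) : ∃ ε : Eisˣ, prim b = ε * b ∧ (3 : Eis) ∣ prim b - 1 := by
  have hex := exists_prim h
  refine ⟨hex.choose, ?_, ?_⟩
  · unfold prim; rw [dif_pos hex]
  · unfold prim; rw [dif_pos hex]; exact hex.choose_spec

private lemma prim_eq {b : Eis} (h : ¬ 3 ∣ nm b) {ε : Eisˣ} (h1 : (3 : Eis) ∣ ε * b - 1) :
    prim b = ε * b := by
  obtain ⟨ε', h2, h3⟩ := prim_spec h
  rw [h2] at h3 ⊢
  rw [unit_eq_of_prim h h1 h3]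

private lemma not_dvd_of_one {b : Eis} (h : (3 : Eis) ∣ b - 1) : ¬ 3 ∣ nm b := by
  have h1 : ((3 : ℕ) : Eis) ∣ b - 1 := by simpa using h
  have h2 := nm_congr h1
  rw [nm_one, ZMod.natCast_eq_natCast_iff] at h2
  intro h3
  have h4 : nm b % 3 = 1 % 3 := h2
  omega

theorem prim_of_one {b : Eis} (h : (3 : Eis) ∣ b - 1) : prim b = b := by
  have := prim_eq (not_dvd_of_one h) (ε := 1) (by simpa using h)
  simpa using this

private lemma three_mul {a b : Eis} (ha : (3 : Eis) ∣ a - 1) (hb : (3 : Eis) ∣ b - 1) :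
    (3 : Eis) ∣ a * b - 1 := by
  have e : a * b - 1 = (a - 1) * b + (b - 1) := by ring
  rw [e]
  exact dvd_add (Dvd.dvd.mul_right ha _) hb

private lemma not_dvd_mul {a b : Eis} (ha : ¬ 3 ∣ nm a) (hb : ¬ 3 ∣ nm b) : ¬ 3 ∣ nm (a * b) := by
  rw [nm_mul]
  intro h
  rcases (Nat.Prime.dvd_mul Nat.prime_three).1 h with h1 | h1
  · exact ha h1
  · exact hb h1

theorem prim_mul {a b : Eis} (ha : ¬ 3 ∣ nm a) (hb : ¬ 3 ∣ nm b) : prim (a * b) = prim a * prim b := by
  obtain ⟨ε, h1, h2⟩ := prim_spec ha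
  obtain ⟨ε', h3, h4⟩ := prim_spec hb
  have h5 := three_mul h2 h4
  have e : prim a * prim b = ((ε * ε' : Eisˣ) : Eis) * (a * b) := by
    rw [h1, h3]; push_cast; ring
  rw [e] at h5 ⊢
  exact prim_eq (not_dvd_mul ha hb) h5

theorem prim_unit_mul {b : Eis} (ε : Eisˣ) (hb : ¬ 3 ∣ nm b) : prim (ε * b) = prim b := by
  obtain ⟨ε', h3, h4⟩ := prim_spec hb
  have e : prim b = ((ε' * ε⁻¹ : Eisˣ) : Eis) * (ε * b) := by
    rw [h3]; push_cast
    rw [mul_assoc, ← mul_assoc ((ε⁻¹ : Eisˣ) : Eis), Units.inv_mul, one_mul]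
  rw [e] at h4 ⊢
  refine prim_eq ?_ h4
  rw [nm_mul, nm_unit, one_mul]; exact hb

theorem prim_star {b : Eis} (hb : ¬ 3 ∣ nm b) : prim (star b) = star (prim b) := by
  obtain ⟨ε', h3, h4⟩ := prim_spec hb
  obtain ⟨ε, hε⟩ := star_unit ε'
  have e : star (prim b) = (ε : Eis) * star b := by
    rw [h3, star_mul, hε, mul_comm]
  have h5 : (3 : Eis) ∣ star (prim b) - 1 := by
    have h6 := star_dvd h4
    have e3 : star (3 : Eis) = 3 := by
      have := star_natCast' 3
      simpa using this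
    rw [e3, star_sub, star_one] at h6
    exact h6
  rw [e] at h5 ⊢
  refine prim_eq ?_ h5
  rw [nm_star]; exact hb

/-- if `a ≡ b` modulo `n`, `9 ∣ n`, then the primary associates are congruent mod `n` -/
theorem prim_congr {n : ℕ} (hn : 3 ∣ n) {a b : Eis} (ha : ¬ 3 ∣ nm a) (h : (n : Eis) ∣ a - b) :
    (n : Eis) ∣ prim a - prim b := by
  obtain ⟨ε, h1, h2⟩ := prim_spec ha
  have h3 : (3 : Eis) ∣ a - b := by
    have h4 : ((3 : ℕ) : Eis) ∣ (n : Eis) := natCast_dvd.2 hn
    exact dvd_trans (by simpa using h4) h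
  have h4 : (3 : Eis) ∣ ε * b - 1 := by
    have e : (ε : Eis) * b - 1 = (prim a - 1) - ε * (a - b) := by rw [h1]; ring
    rw [e]
    exact dvd_sub h2 (Dvd.dvd.mul_left h3 _)
  have hb : ¬ 3 ∣ nm b := by
    have := not_dvd_of_one h4
    rwa [nm_mul, nm_unit, one_mul] at this
  rw [prim_eq hb h4, h1, ← mul_sub]
  exact Dvd.dvd.mul_left h _

private lemma nn_eq {b α : Eis} (h : prim b = 1 + 3 * α) : nn b = (α.im : ZMod 3) := by
  unfold nn
  rw [h]
  have : (1 + 3 * α : Eis).im = 3 * α.im := by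
    simp
  rw [this, Int.mul_ediv_cancel_left _ (by norm_num)]

private lemma exists_alpha {b : Eis} (h : ¬ 3 ∣ nm b) : ∃ α : Eis, prim b = 1 + 3 * α := by
  obtain ⟨ε, h1, h2⟩ := prim_spec h
  obtain ⟨α, hα⟩ := h2
  exact ⟨α, by rw [← hα]; ring⟩

theorem nn_mul {a b : Eis} (ha : ¬ 3 ∣ nm a) (hb : ¬ 3 ∣ nm b) : nn (a * b) = nn a + nn b := by
  obtain ⟨α, hα⟩ := exists_alpha ha
  obtain ⟨β, hβ⟩ := exists_alpha hb
  have h : prim (a * b) = 1 + 3 * (α + β + 3 * (α * β)) := by
    rw [prim_mul ha hb, hα, hβ]; ring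
  rw [nn_eq h, nn_eq hα, nn_eq hβ]
  have : (α + β + 3 * (α * β) : Eis).im = α.im + β.im + 3 * (α * β).im := by
    simp
  rw [this]
  push_cast
  have h3 : (3 : ZMod 3) = 0 := by decide
  rw [h3, zero_mul, add_zero]

theorem nn_star {b : Eis} (hb : ¬ 3 ∣ nm b) : nn (star b) = -nn b := by
  obtain ⟨β, hβ⟩ := exists_alpha hb
  have h : prim (star b) = 1 + 3 * star β := by
    have e3 : star (3 : Eis) = 3 := by
      have := star_natCast' 3
      simpa using this
    rw [prim_star hb, hβ, star_add, star_one, star_mul, e3, mul_comm]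
  rw [nn_eq h, nn_eq hβ]
  simp [star]

theorem nn_congr {a b : Eis} (ha : ¬ 3 ∣ nm a) (h : (9 : Eis) ∣ a - b) : nn a = nn b := by
  have h9 : ((9 : ℕ) : Eis) ∣ a - b := by simpa using h
  have h1 := prim_congr (n := 9) (by norm_num) ha h9
  obtain ⟨α, hα⟩ := exists_alpha ha
  have hb : ¬ 3 ∣ nm b := by
    have h3 : ((3 : ℕ) : Eis) ∣ a - b := dvd_trans (natCast_dvd.2 (by norm_num)) h9
    have h4 := nm_congr h3
    rw [ZMod.natCast_eq_natCast_iff] at h4
    have h5 : nm a % 3 = nm b % 3 := h4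
    omega
  obtain ⟨β, hβ⟩ := exists_alpha hb
  rw [nn_eq hα, nn_eq hβ]
  rw [hα, hβ] at h1
  obtain ⟨c, hc⟩ := h1
  have h2 := congrArg QuadraticAlgebra.im hc
  simp at h2
  have h3 : α.im - β.im = 3 * c.im := by linarith
  have h4 : ((α.im - β.im : ℤ) : ZMod 3) = 0 := by
    rw [h3]; push_cast
    have h3 : (3 : ZMod 3) = 0 := by decide
    rw [h3, zero_mul]
  push_cast at h4
  exact sub_eq_zero.1 h4

theorem nn_unit_mul {b : Eis} (ε : Eisˣ) (hb : ¬ 3 ∣ nm b) : nn (ε * b) = nn b := by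
  unfold nn
  rw [prim_unit_mul ε hb]

theorem nn_eval (a c : ℤ) : nn (⟨1 + 3 * a, 3 * c⟩ : Eis) = (c : ZMod 3) := by
  have h : prim (⟨1 + 3 * a, 3 * c⟩ : Eis) = 1 + 3 * (⟨a, c⟩ : Eis) := by
    have e : (1 + 3 * (⟨a, c⟩ : Eis)) = (⟨1 + 3 * a, 3 * c⟩ : Eis) := by
      ext <;> simp
    rw [e]
    apply prim_of_one
    refine ⟨⟨a, c⟩, ?_⟩
    rw [← e]; ring
  rw [nn_eq h]

end MPd9f52e
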