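import Mathlib
import Pool.Agent.Lib.MP_d9f52e_nt.EPri

/-!
# ERes: complete and half systems
-/

set_option autoImplicit false

namespace MPd9f52e

open Complex

private theorem mk_eq_iff (b x y : Eis) :
    (Ideal.Quotient.mk (Ideal.span {b}) x = Ideal.Quotient.mk (Ideal.span {b}) y) ↔ b ∣ x - y := by
  rw [Ideal.Quotient.eq, Ideal.mem_span_singleton]

private theorem algNorm_eq (b : Eis) : (Algebra.norm ℤ b).natAbs = nm b := by
  have h1 : Algebra.norm ℤ b = QuadraticAlgebra.norm b := by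
    rw [Algebra.norm_apply, ← QuadraticAlgebra.det_toLinearMap_eq_norm]
    apply congrArg
    apply LinearMap.ext
    intro x
    rfl
  rw [h1, nm, QuadraticAlgebra.norm_def]
  apply congrArg
  ring

private theorem card_quot (b : Eis) : Nat.card (Eis ⧸ Ideal.span {b}) = nm b := by
  rw [← algNorm_eq, ← Ideal.absNorm_span_singleton, Ideal.absNorm_apply]
  rfl

private theorem finite_quot {b : Eis} (hb : b ≠ 0) : Finite (Eis ⧸ Ideal.span {b}) := by
  apply Nat.finite_of_card_ne_zero
  rw [card_quot]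
  intro h
  exact hb ((nm_eq_zero b).1 h)

theorem exists_CRS {b : Eis} (hb : b ≠ 0) : ∃ S, IsCRS b S := by
  classical
  have := finite_quot hb
  have := Fintype.ofFinite (Eis ⧸ Ideal.span {b})
  obtain ⟨g, hg⟩ := (Ideal.Quotient.mk_surjective (I := Ideal.span {b})).hasRightInverse
  refine ⟨Finset.univ.image g, ?_, ?_⟩
  · intro r hr r' hr' h
    obtain ⟨q, -, rfl⟩ := Finset.mem_image.1 hr
    obtain ⟨q', -, rfl⟩ := Finset.mem_image.1 hr'
    rw [← mk_eq_iff, hg, hg] at h
    rw [h]
  · intro x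
    refine ⟨g (Ideal.Quotient.mk _ x), Finset.mem_image_of_mem _ (Finset.mem_univ _), ?_⟩
    rw [← mk_eq_iff, hg]

theorem card_CRS {b : Eis} (hb : b ≠ 0) {S : Finset Eis} (hS : IsCRS b S) : S.card = nm b := by
  have := finite_quot hb
  rw [← card_quot b, ← Fintype.card_coe S, ← Nat.card_eq_fintype_card]
  apply Nat.card_eq_of_bijective (fun x : S => Ideal.Quotient.mk (Ideal.span {b}) (x : Eis))
  constructor
  · intro x y h
    exact Subtype.ext (hS.1 _ x.2 _ y.2 ((mk_eq_iff _ _ _).1 h))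
  · intro q
    obtain ⟨x, rfl⟩ := Ideal.Quotient.mk_surjective q
    obtain ⟨r, hr, h⟩ := hS.2 x
    exact ⟨⟨r, hr⟩, ((mk_eq_iff _ _ _).2 h).symm⟩

/-- two systems of representatives have the same products -/
private theorem prod_sys {M : Type*} [CommMonoid M] (R : Eis → Eis → Prop) (hsy : ∀ x y, R x y → R y x)
    (htr : ∀ x y z, R x y → R y z → R x z) (P : Eis → Prop) {V V' : Finset Eis}
    (h1 : ∀ v ∈ V, P v) (h2 : ∀ v ∈ V, ∀ v' ∈ V, R v v' → v = v') (h3 : ∀ x, P x → ∃ v ∈ V, R x v)
    (h1' : ∀ v ∈ V', P v) (h2' : ∀ v ∈ V', ∀ v' ∈ V', R v v' → v = v') (h3' : ∀ x, P x → ∃ v ∈ V', R x v)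
    (F : Eis → M) (hF : ∀ x y, R x y → F x = F y) : ∏ r ∈ V, F r = ∏ r ∈ V', F r := by
  apply Finset.prod_bij (fun v hv => (h3' v (h1 v hv)).choose)
  · intro v hv
    exact (h3' v (h1 v hv)).choose_spec.1
  · intro v hv w hw h
    have e1 := (h3' v (h1 v hv)).choose_spec.2
    have e2 := (h3' w (h1 w hw)).choose_spec.2
    rw [h] at e1
    exact h2 v hv w hw (htr _ _ _ e1 (hsy _ _ e2))
  · intro v hv
    obtain ⟨w, hw, e⟩ := h3 v (h1' v hv)
    refine ⟨w, hw, ?_⟩
    have e1 := (h3' w (h1 w hw)).choose_spec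
    exact h2' _ e1.1 _ hv (hsy _ _ (htr _ _ _ e e1.2))
  · intro v hv
    exact hF _ _ (h3' v (h1 v hv)).choose_spec.2

private theorem congr_symm {b x y : Eis} (h : b ∣ x - y) : b ∣ y - x := by
  rw [← neg_sub]
  exact (dvd_neg).2 h

private theorem congr_trans {b x y z : Eis} (h : b ∣ x - y) (h' : b ∣ y - z) : b ∣ x - z := by
  have := dvd_add h h'
  rwa [sub_add_sub_cancel] at this

theorem prod_CRS_congr {M : Type*} [CommMonoid M] {b : Eis} {S S' : Finset Eis} (hS : IsCRS b S) (hS' : IsCRS b S')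
    (F : Eis → M) (hF : ∀ x y, b ∣ x - y → F x = F y) : ∏ r ∈ S, F r = ∏ r ∈ S', F r := by
  apply prod_sys (fun x y => b ∣ x - y) (fun x y h => congr_symm h) (fun x y z h h' => congr_trans h h')
    (fun _ => True) (fun _ _ => trivial) hS.1 (fun x _ => hS.2 x) (fun _ _ => trivial) hS'.1 (fun x _ => hS'.2 x) F hF

/-- existence of systems of representatives -/
private theorem exists_sys {a : Eis} (ha : a ≠ 0) (R : Eis → Eis → Prop) (hR : Equivalence R)
    (hc : ∀ x y, a ∣ x - y → R x y) (P : Eis → Prop) (hP : ∀ x y, R x y → P x → P y) :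
    ∃ V : Finset Eis, (∀ v ∈ V, P v) ∧ (∀ v ∈ V, ∀ v' ∈ V, R v v' → v = v') ∧ ∀ x, P x → ∃ v ∈ V, R x v := by
  classical
  obtain ⟨S, hS⟩ := exists_CRS ha
  let s : Setoid Eis := ⟨R, hR⟩
  have hout : ∀ x : Eis, R (Quotient.out (Quotient.mk s x)) x := fun x => Quotient.mk_out (s := s) x
  refine ⟨(S.filter P).image (fun x => Quotient.out (Quotient.mk s x)), ?_, ?_, ?_⟩
  · intro v hv
    obtain ⟨x, hx, rfl⟩ := Finset.mem_image.1 hv
    exact hP _ _ (hR.symm (hout x)) (Finset.mem_filter.1 hx).2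
  · intro v hv v' hv' h
    obtain ⟨x, hx, rfl⟩ := Finset.mem_image.1 hv
    obtain ⟨x', hx', rfl⟩ := Finset.mem_image.1 hv'
    have e : R x x' := hR.trans (hR.symm (hout x)) (hR.trans h (hout x'))
    have e' : Quotient.mk s x = Quotient.mk s x' := Quotient.sound e
    show Quotient.out (Quotient.mk s x) = Quotient.out (Quotient.mk s x')
    rw [e']
  · intro x hx
    obtain ⟨r, hr, h⟩ := hS.2 x
    have h' := hc _ _ h
    exact ⟨_, Finset.mem_image_of_mem _ (Finset.mem_filter.2 ⟨hr, hP _ _ h' hx⟩), hR.trans h' (hR.symm (hout r))⟩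

private theorem half_equiv (a : Eis) : Equivalence (fun x y : Eis => a ∣ x - y ∨ a ∣ x + y) := by
  constructor
  · intro x
    left
    simp
  · intro x y h
    rcases h with h | h
    · left
      exact congr_symm h
    · right
      rwa [add_comm]
  · intro x y z h h'
    rcases h with h | h <;> rcases h' with h' | h'
    · left
      exact congr_trans h h'
    · right
      have := dvd_add h h'
      have e : x - y + (y + z) = x + z := by ring
      rwa [e] at this
    · right
      have := dvd_sub h h'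
      have e : x + y - (y - z) = x + z := by ring
      rwa [e] at this
    · left
      have := dvd_sub h h'
      have e : x + y - (y + z) = x - z := by ring
      rwa [e] at this

private theorem ne_zero_of {a : Eis} (h : ¬ 2 ∣ nm a) : a ≠ 0 := by
  rintro rfl
  apply h
  rw [(nm_eq_zero 0).2 rfl]
  exact dvd_zero 2

private theorem half_pred {a : Eis} (x y : Eis) (h : a ∣ x - y ∨ a ∣ x + y) (hx : ¬ a ∣ x) : ¬ a ∣ y := by
  intro hy
  apply hx
  rcases h with h | h
  · have := dvd_add h hy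
    rwa [sub_add_cancel] at this
  · have := dvd_sub h hy
    rwa [add_sub_cancel_right] at this

theorem exists_half {a : Eis} (h : ¬ 2 ∣ nm a) : ∃ V, IsHalf a V :=
  exists_sys (ne_zero_of h) (fun x y => a ∣ x - y ∨ a ∣ x + y) (half_equiv a) (fun _ _ h => Or.inl h)
    (fun x => ¬ a ∣ x) (fun x y h => half_pred x y h)

theorem V2_spec {a : Eis} (h : ¬ 2 ∣ nm a) : IsHalf a (V2 a) := by
  have h' := exists_half h
  rw [V2, dif_pos h']
  exact h'.choose_spec

private theorem two_mul_dvd {a v : Eis} (h : ¬ 2 ∣ nm a) (hv : a ∣ v + v) : a ∣ v := by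
  have h1 : IsCoprime a ((2 : ℕ) : Eis) := by
    rw [isCoprime_iff]
    exact ((Nat.Prime.coprime_iff_not_dvd Nat.prime_two).2 h).symm
  have h2 : a ∣ ((2 : ℕ) : Eis) * v := by
    rw [Nat.cast_two, two_mul]
    exact hv
  exact h1.dvd_of_dvd_mul_left h2

private theorem crs_of_half {a : Eis} (h : ¬ 2 ∣ nm a) {V : Finset Eis} (hV : IsHalf a V) :
    IsCRS a (insert 0 (V ∪ V.image (fun v => -v))) ∧ (0 : Eis) ∉ V ∪ V.image (fun v => -v) ∧
      Disjoint V (V.image (fun v => -v)) := by
  classical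
  obtain ⟨h1, h2, h3⟩ := hV
  have key : ∀ v ∈ V, ∀ v' ∈ V, ¬ a ∣ v + v' := by
    intro v hv v' hv' hd
    have e := h2 v hv v' hv' (Or.inr hd)
    subst e
    exact h1 v hv (two_mul_dvd h hd)
  refine ⟨⟨?_, ?_⟩, ?_, ?_⟩
  · intro r hr r' hr' hd
    simp only [Finset.mem_insert, Finset.mem_union, Finset.mem_image] at hr hr'
    rcases hr with rfl | hr | ⟨v, hv, rfl⟩ <;> rcases hr' with rfl | hr' | ⟨v', hv', rfl⟩
    · rfl
    · exfalso
      rw [zero_sub, dvd_neg] at hd
      exact h1 _ hr' hd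
    · exfalso
      rw [zero_sub, neg_neg] at hd
      exact h1 _ hv' hd
    · exfalso
      rw [sub_zero] at hd
      exact h1 _ hr hd
    · exact h2 _ hr _ hr' (Or.inl hd)
    · exfalso
      rw [sub_neg_eq_add] at hd
      exact key _ hr _ hv' hd
    · exfalso
      rw [sub_zero, dvd_neg] at hd
      exact h1 _ hv hd
    · exfalso
      have e : -v - r' = -(v + r') := by ring
      rw [e, dvd_neg] at hd
      exact key _ hv _ hr' hd
    · have e : -v - -v' = v' - v := by ring
      rw [e] at hd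
      rw [h2 _ hv' _ hv (Or.inl hd)]
  · intro x
    by_cases hx : a ∣ x
    · exact ⟨0, Finset.mem_insert_self _ _, by rwa [sub_zero]⟩
    · obtain ⟨v, hv, hd | hd⟩ := h3 x hx
      · exact ⟨v, Finset.mem_insert_of_mem (Finset.mem_union_left _ hv), hd⟩
      · refine ⟨-v, Finset.mem_insert_of_mem (Finset.mem_union_right _ (Finset.mem_image_of_mem _ hv)), ?_⟩
        rwa [sub_neg_eq_add]
  · intro h0
    rw [Finset.mem_union, Finset.mem_image] at h0
    rcases h0 with h0 | ⟨v, hv, h0⟩
    · exact h1 _ h0 (dvd_zero a)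
    · rw [neg_eq_zero] at h0
      subst h0
      exact h1 _ hv (dvd_zero a)
  · rw [Finset.disjoint_left]
    intro v hv hv'
    obtain ⟨v', hv'', e⟩ := Finset.mem_image.1 hv'
    apply key _ hv _ hv''
    rw [← e, neg_add_cancel]
    exact dvd_zero a

/-- the product over a complete system in terms of a half system -/
theorem prod_CRS_half {M : Type*} [CommMonoid M] {a : Eis} (h : ¬ 2 ∣ nm a) {S V : Finset Eis} (hS : IsCRS a S)
    (hV : IsHalf a V) (F : Eis → M) (hF : ∀ x y, a ∣ x - y → F x = F y) :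
    ∏ r ∈ S, F r = F 0 * ∏ v ∈ V, (F v * F (-v)) := by
  classical
  obtain ⟨c1, c2, c3⟩ := crs_of_half h hV
  rw [prod_CRS_congr hS c1 F hF, Finset.prod_insert c2, Finset.prod_union c3, Finset.prod_mul_distrib]
  congr 2
  apply Finset.prod_image
  intro x _ y _ e
  exact neg_injective e

theorem card_half {a : Eis} (h : ¬ 2 ∣ nm a) {V : Finset Eis} (hV : IsHalf a V) : 2 * V.card + 1 = nm a := by
  classical
  obtain ⟨c1, c2, c3⟩ := crs_of_half h hV
  rw [← card_CRS (ne_zero_of h) c1, Finset.card_insert_of_notMem c2, Finset.card_union_of_disjoint c3,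
    Finset.card_image_of_injective _ neg_injective]
  ring

/-- half products of even functions do not depend on the half system -/
theorem prod_half_congr {M : Type*} [CommMonoid M] {a : Eis} {V V' : Finset Eis} (hV : IsHalf a V)
    (hV' : IsHalf a V') (F : Eis → M) (hF : ∀ x y, a ∣ x - y → F x = F y) (hF' : ∀ x, F (-x) = F x) :
    ∏ v ∈ V, F v = ∏ v ∈ V', F v := by
  apply prod_sys (fun x y => a ∣ x - y ∨ a ∣ x + y) (fun x y h => (half_equiv a).symm h)
    (fun x y z h h' => (half_equiv a).trans h h') (fun x => ¬ a ∣ x) hV.1 hV.2.1 hV.2.2 hV'.1 hV'.2.1 hV'.2.2 F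
  intro x y h
  rcases h with h | h
  · exact hF _ _ h
  · rw [← hF' y]
    apply hF
    rwa [sub_neg_eq_add]

/-- multiplication by `u` prime to `a` maps half systems to half systems -/
theorem half_mul {a u : Eis} (hu : IsCoprime u a) {V : Finset Eis} (hV : IsHalf a V) :
    IsHalf a (V.image (fun v => u * v)) ∧ Set.InjOn (fun v => u * v) (V : Set Eis) := by
  classical
  obtain ⟨h1, h2, h3⟩ := hV
  have hd : ∀ x, a ∣ u * x → a ∣ x := fun x hx => hu.symm.dvd_of_dvd_mul_left hx
  refine ⟨⟨?_, ?_, ?_⟩, ?_⟩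
  · intro v hv
    obtain ⟨w, hw, rfl⟩ := Finset.mem_image.1 hv
    exact fun hx => h1 w hw (hd _ hx)
  · intro v hv v' hv' h
    obtain ⟨w, hw, rfl⟩ := Finset.mem_image.1 hv
    obtain ⟨w', hw', rfl⟩ := Finset.mem_image.1 hv'
    rw [← mul_sub, ← mul_add] at h
    have e := h2 w hw w' hw' (h.imp (hd _) (hd _))
    rw [e]
  · intro x hx
    obtain ⟨s, t, hst⟩ := hu
    -- s * u + t * a = 1
    have hsx : ¬ a ∣ s * x := by
      intro hh
      apply hx
      have e : x = u * (s * x) + a * (t * x) := by linear_combination (-x) * hst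
      rw [e]
      exact dvd_add (hh.mul_left _) (dvd_mul_right _ _)
    obtain ⟨v, hv, h⟩ := h3 _ hsx
    refine ⟨u * v, Finset.mem_image_of_mem _ hv, ?_⟩
    rcases h with h | h
    · left
      have e : x - u * v = u * (s * x - v) + a * (t * x) := by linear_combination (-x) * hst
      rw [e]
      exact dvd_add (h.mul_left _) (dvd_mul_right _ _)
    · right
      have e : x + u * v = u * (s * x + v) + a * (t * x) := by linear_combination (-x) * hst
      rw [e]
      exact dvd_add (h.mul_left _) (dvd_mul_right _ _)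
  · intro v hv v' hv' h
    apply h2 v hv v' hv'
    left
    apply hd
    rw [mul_sub]
    have h' : u * v = u * v' := h
    rw [h', sub_self]
    exact dvd_zero a

end MPd9f52e
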