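import Mathlib
import Pool.Agent.Lib.MP_d9f52e_nt.EPri

/-!
# HCnt: the number of elements of norm n  (about 250 lines)

`r(n) = #(ofNorm n)`; claim `r(n) = 6 sum_{c | n} chi3(c)` for `n >= 1`.
Put `R(n) = r(n)/6` (`R(1) = 1`: the six units).  For a prime `q` of `Eis`: the elements of norm `n` divisible by `q` correspond to the elements of norm `n / nm q` (`b -> b/q`).
So with `R^(q)(n)` = (1/6) number of the elements not divisible by `q`: `R(n) = R^(q)(n) + R(n/nm q)` (`R(x) = 0` if `x` is not an integer).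
For a prime number `p | n`:
* `p = 2 mod 3`: every element of norm `n` is divisible by `p` (`inert_dvd`): `R(n) = R(n/p^2)`.
* `p = 3`: every element is divisible by `s3` (`s3_dvd_iff`): `R(n) = R(n/3)`.
* `p = 1 mod 3`, `p = nm l`: every element is divisible by `l` or `star l` (`dvd_or_of_dvd_nm`), inclusion-exclusion (`l`, `star l` coprime primes, `l * star l = p` of norm `p^2`): `R(n) = 2R(n/p) - R(n/p^2)`.
The function `G(n) = sum_{c|n} chi3(c)` satisfies the same recursions (`chi3(p) = -1, 0, 1`): write `n = p^k n'`, `G(n) = G(p^k) G(n')`, `G(p^k) = sum_{i<=k} chi3(p)^i`.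
Strong induction on `n`.
-/

set_option autoImplicit false

namespace MPd9f52e

open Complex

private noncomputable def hG (n : ℕ) : ℂ := ∑ c ∈ n.divisors, chi3 (c : ZMod 3)

private noncomputable def hA (p n : ℕ) : ℂ :=
  ∑ c ∈ n.divisors.filter (fun c => ¬ p ∣ c), chi3 (c : ZMod 3)

private lemma hG_split {p n : ℕ} (hp : p.Prime) (hn : n ≠ 0) (h : p ∣ n) :
    hG n = hA p n + chi3 (p : ZMod 3) * hG (n / p) := by
  classical
  obtain ⟨m, rfl⟩ := h
  have hm : m ≠ 0 := by rintro rfl; simp at hn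
  rw [Nat.mul_div_cancel_left _ hp.pos]
  unfold hG hA
  rw [← Finset.sum_filter_add_sum_filter_not (p * m).divisors (fun c => ¬ p ∣ c)]
  congr 1
  rw [Finset.mul_sum]
  symm
  refine Finset.sum_bij (fun c _ => p * c) ?_ ?_ ?_ ?_
  · intro c hc
    rw [Finset.mem_filter, Nat.mem_divisors, not_not]
    exact ⟨⟨Nat.mul_dvd_mul_left _ (Nat.dvd_of_mem_divisors hc), hn⟩, dvd_mul_right _ _⟩
  · intro a _ b _ hab
    exact Nat.eq_of_mul_eq_mul_left hp.pos hab
  · intro c hc
    rw [Finset.mem_filter, Nat.mem_divisors, not_not] at hc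
    obtain ⟨⟨h1, -⟩, ⟨e, rfl⟩⟩ := hc
    exact ⟨e, Nat.mem_divisors.2 ⟨Nat.dvd_of_mul_dvd_mul_left hp.pos h1, hm⟩, rfl⟩
  · intro c _
    rw [← map_mul]
    push_cast
    rfl

private lemma hA_div {p n : ℕ} (hp : p.Prime) (hn : n ≠ 0) (h : p ∣ n) :
    hA p n = hA p (n / p) := by
  obtain ⟨m, rfl⟩ := h
  have hm : m ≠ 0 := by rintro rfl; simp at hn
  rw [Nat.mul_div_cancel_left _ hp.pos]
  unfold hA
  congr 1
  ext c
  simp only [Finset.mem_filter, Nat.mem_divisors]
  constructor
  · rintro ⟨⟨h1, -⟩, h2⟩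
    refine ⟨⟨?_, hm⟩, h2⟩
    have h3 : Nat.Coprime c p := ((Nat.Prime.coprime_iff_not_dvd hp).2 h2).symm
    exact h3.dvd_of_dvd_mul_left h1
  · rintro ⟨⟨h1, -⟩, h2⟩
    exact ⟨⟨dvd_mul_of_dvd_right h1 p, hn⟩, h2⟩

private lemma hA_eq_hG {p m : ℕ} (h : ¬ p ∣ m) : hA p m = hG m := by
  unfold hA hG
  rw [Finset.filter_true_of_mem]
  intro c hc hpc
  exact h (hpc.trans (Nat.dvd_of_mem_divisors hc))

private lemma chi3_of_one {p : ℕ} (h : p % 3 = 1) : chi3 (p : ZMod 3) = 1 := by
  have : (p : ZMod 3) = 1 := by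
    have h1 : (p : ZMod 3) = ((p % 3 : ℕ) : ZMod 3) := (ZMod.natCast_mod p 3).symm
    rw [h1, h]
    rfl
  rw [this, map_one]

private lemma qc_two : quadraticChar (ZMod 3) 2 = -1 := by decide

private lemma chi3_of_two {p : ℕ} (h : p % 3 = 2) : chi3 (p : ZMod 3) = -1 := by
  have h0 : (p : ZMod 3) = 2 := by
    have h1 : (p : ZMod 3) = ((p % 3 : ℕ) : ZMod 3) := (ZMod.natCast_mod p 3).symm
    rw [h1, h]
    rfl
  rw [h0]
  unfold chi3
  rw [MulChar.ringHomComp_apply]
  exact (congrArg (Int.castRingHom ℂ) qc_two).trans (by simp)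

private lemma chi3_three : chi3 ((3 : ℕ) : ZMod 3) = 0 := by
  have h0 : ((3 : ℕ) : ZMod 3) = 0 := rfl
  rw [h0]
  exact MulChar.map_zero _

open Classical in
private lemma card_dvd_mul {q : Eis} (hq : q ≠ 0) {n : ℕ} (h : nm q ∣ n) :
    ((ofNorm n).filter (fun b => q ∣ b)).card = (ofNorm (n / nm q)).card := by
  have hq0 : 0 < nm q := Nat.pos_of_ne_zero fun h => hq ((nm_eq_zero q).1 h)
  have h1 : (ofNorm n).filter (fun b => q ∣ b) = (ofNorm (n / nm q)).image (fun b => q * b) := by
    ext b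
    rw [Finset.mem_filter, Finset.mem_image, mem_ofNorm]
    constructor
    · rintro ⟨h2, c, rfl⟩
      refine ⟨c, ?_, rfl⟩
      rw [mem_ofNorm, ← h2, nm_mul, Nat.mul_div_cancel_left _ hq0]
    · rintro ⟨c, hc, rfl⟩
      rw [mem_ofNorm] at hc
      refine ⟨?_, dvd_mul_right _ _⟩
      rw [nm_mul, hc, Nat.mul_div_cancel' h]
  rw [h1, Finset.card_image_of_injective]
  intro a b hab
  exact mul_left_cancel₀ hq hab

open Classical in
private lemma card_dvd_zero {q : Eis} {n : ℕ} (h : ¬ nm q ∣ n) :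
    ((ofNorm n).filter (fun b => q ∣ b)).card = 0 := by
  rw [Finset.card_eq_zero, Finset.filter_eq_empty_iff]
  intro b hb hqb
  rw [mem_ofNorm] at hb
  exact h (hb ▸ nm_dvd hqb)

private lemma card_one : (ofNorm 1).card = 6 := by
  have h : Nat.card {b // b ∈ ofNorm 1} = Nat.card Eisˣ := Nat.card_congr
    ⟨fun b => ((unit_iff b.1).2 ((mem_ofNorm 1 b.1).1 b.2)).unit,
      fun u => ⟨u, (mem_ofNorm 1 _).2 (nm_unit u)⟩, fun b => Subtype.ext (by simp),
      fun u => Units.ext (by simp)⟩
  rw [card_units, Nat.card_eq_fintype_card, Fintype.card_coe] at h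
  exact h

theorem card_ofNorm {n : ℕ} (hn : 1 ≤ n) :
    ((ofNorm n).card : ℂ) = 6 * ∑ c ∈ n.divisors, chi3 (c : ZMod 3) := by
  classical
  show ((ofNorm n).card : ℂ) = 6 * hG n
  induction n using Nat.strong_induction_on with
  | _ n ih =>
  rcases Nat.eq_or_lt_of_le hn with h1 | h1
  · rw [← h1, card_one]
    unfold hG
    simp
  have hn0 : n ≠ 0 := by omega
  set p := n.minFac with hpdef
  have hp : p.Prime := Nat.minFac_prime (by omega)
  have hpn : p ∣ n := Nat.minFac_dvd n
  have hdiv_lt : n / p < n := Nat.div_lt_self (by omega) hp.one_lt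
  have hdiv_pos : 1 ≤ n / p := Nat.div_pos (Nat.le_of_dvd (by omega) hpn) hp.pos
  have hdiv0 : n / p ≠ 0 := by omega
  have ih1 := ih (n / p) hdiv_lt hdiv_pos
  have h3 : p % 3 = 0 ∨ p % 3 = 1 ∨ p % 3 = 2 := by omega
  have hdd : n / p / p = n / p ^ 2 := by rw [Nat.div_div_eq_div_mul, sq]
  rcases h3 with h3 | h3 | h3
  · -- p = 3
    have hp3 : p = 3 := by
      have : 3 ∣ p := Nat.dvd_of_mod_eq_zero h3
      exact ((Nat.prime_dvd_prime_iff_eq Nat.prime_three hp).1 this).symm
    have e1 : (ofNorm n).card = (ofNorm (n / 3)).card := by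
      have h4 := card_dvd_mul (q := s3) prime_s3.ne_zero (n := n) (by rw [nm_s3, ← hp3]; exact hpn)
      rw [nm_s3] at h4
      rw [← h4, Finset.filter_true_of_mem]
      intro b hb
      rw [mem_ofNorm] at hb
      rw [s3_dvd_iff, hb, ← hp3]
      exact hpn
    have hG0 : ∀ m : ℕ, m ≠ 0 → hG m = hA 3 m := by
      intro m _
      unfold hG hA
      rw [← Finset.sum_filter_add_sum_filter_not m.divisors (fun c => ¬ 3 ∣ c)]
      have : ∑ x ∈ m.divisors.filter (fun c => ¬ ¬ 3 ∣ c), chi3 (x : ZMod 3) = 0 := by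
        refine Finset.sum_eq_zero fun c hc => ?_
        have h5 := (Finset.mem_filter.1 hc).2
        rw [not_not] at h5
        obtain ⟨e, rfl⟩ := h5
        have : ((3 * e : ℕ) : ZMod 3) = 0 := by
          push_cast
          have h6 : (3 : ZMod 3) = 0 := rfl
          rw [h6, zero_mul]
        rw [this]
        exact MulChar.map_zero _
      rw [this, add_zero]
    rw [hp3] at ih1 hpn hdiv0
    rw [e1, ih1, hG0 n hn0, hG0 (n / 3) hdiv0, hA_div Nat.prime_three hn0 hpn]
  · -- p = 1 mod 3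
    obtain ⟨l, hl⟩ := exists_nm_eq hp h3
    have hl0 : l ≠ 0 := by
      rintro rfl
      rw [(nm_eq_zero 0).2 rfl] at hl
      exact hp.ne_zero hl.symm
    have hls0 : star l ≠ 0 := by
      intro h
      apply hl0
      rw [← star_star l, h, star_zero]
    have hlp : Prime l := prime_of_nm (by rw [hl]; exact hp)
    have hlsp : Prime (star l) := prime_of_nm (by rw [nm_star, hl]; exact hp)
    have hnd : ¬ l ∣ star l := not_dvd_star (by rw [hl]; exact hp) (by
      rw [hl]; intro h; rw [h] at h3; omega)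
    have hG1 := hG_split hp hn0 hpn
    rw [chi3_of_one h3, one_mul, hA_div hp hn0 hpn] at hG1
    -- counting
    have c1 : ((ofNorm n).filter (fun b => l ∣ b)).card = (ofNorm (n / p)).card := by
      have := card_dvd_mul hl0 (n := n) (by rw [hl]; exact hpn)
      rwa [hl] at this
    have c2 : ((ofNorm n).filter (fun b => star l ∣ b)).card = (ofNorm (n / p)).card := by
      have := card_dvd_mul hls0 (n := n) (by rw [nm_star, hl]; exact hpn)
      rwa [nm_star, hl] at this
    have hun : (ofNorm n).filter (fun b => l ∣ b) ∪ (ofNorm n).filter (fun b => star l ∣ b) =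
        ofNorm n := by
      ext b
      rw [Finset.mem_union, Finset.mem_filter, Finset.mem_filter]
      constructor
      · rintro (h | h) <;> exact h.1
      · intro hb
        have h5 : p ∣ nm b := by
          rw [(mem_ofNorm n b).1 hb]
          exact hpn
        rcases dvd_or_of_dvd_nm hp hl h5 with h6 | h6
        · exact Or.inl ⟨hb, h6⟩
        · exact Or.inr ⟨hb, h6⟩
    have hint : (ofNorm n).filter (fun b => l ∣ b) ∩ (ofNorm n).filter (fun b => star l ∣ b) =
        (ofNorm n).filter (fun b => (p : Eis) ∣ b) := by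
      ext b
      rw [Finset.mem_inter, Finset.mem_filter, Finset.mem_filter, Finset.mem_filter]
      have hpl : (p : Eis) = l * star l := by rw [mul_star_self, hl]
      constructor
      · rintro ⟨⟨hb, h5⟩, -, h6⟩
        refine ⟨hb, ?_⟩
        obtain ⟨c, rfl⟩ := h6
        rcases hlp.dvd_or_dvd h5 with h7 | h7
        · exact absurd h7 hnd
        · obtain ⟨e, rfl⟩ := h7
          exact ⟨e, by rw [hpl]; ring⟩
      · rintro ⟨hb, c, rfl⟩
        exact ⟨⟨hb, ⟨star l * c, by rw [hpl]; ring⟩⟩, hb, ⟨l * c, by rw [hpl]; ring⟩⟩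
    have hcard := Finset.card_union_add_card_inter ((ofNorm n).filter (fun b => l ∣ b))
      ((ofNorm n).filter (fun b => star l ∣ b))
    rw [hun, hint, c1, c2] at hcard
    have hcard' : ((ofNorm n).card : ℂ) +
        (((ofNorm n).filter (fun b => (p : Eis) ∣ b)).card : ℂ) =
        ((ofNorm (n / p)).card : ℂ) + ((ofNorm (n / p)).card : ℂ) := by exact_mod_cast hcard
    have hp0 : (p : Eis) ≠ 0 := by
      intro h
      have := (nm_eq_zero (p : Eis)).2 h
      rw [nm_natCast] at this
      have := hp.pos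
      nlinarith
    by_cases hp2 : p ^ 2 ∣ n
    · have c3 : ((ofNorm n).filter (fun b => (p : Eis) ∣ b)).card = (ofNorm (n / p ^ 2)).card := by
        have := card_dvd_mul hp0 (n := n) (by rw [nm_natCast]; exact hp2)
        rwa [nm_natCast] at this
      have hpp : p ∣ n / p := by
        rw [Nat.dvd_div_iff_mul_dvd hpn, ← sq]
        exact hp2
      have hG2 := hG_split hp hdiv0 hpp
      rw [chi3_of_one h3, one_mul, hdd] at hG2
      have hpos2 : 1 ≤ n / p ^ 2 := Nat.div_pos (Nat.le_of_dvd (by omega) hp2) (pow_pos hp.pos 2)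
      have hlt2 : n / p ^ 2 < n := Nat.div_lt_self (by omega) (Nat.one_lt_pow (by norm_num) hp.one_lt)
      have ih2 := ih (n / p ^ 2) hlt2 hpos2
      rw [c3, ih1, ih2] at hcard'
      linear_combination hcard' - 6 * hG1 + 6 * hG2
    · have c3 : ((ofNorm n).filter (fun b => (p : Eis) ∣ b)).card = 0 :=
        card_dvd_zero (by rw [nm_natCast]; exact hp2)
      have hpp : ¬ p ∣ n / p := by
        rw [Nat.dvd_div_iff_mul_dvd hpn, ← sq]
        exact hp2
      rw [hA_eq_hG hpp] at hG1
      rw [c3, ih1, Nat.cast_zero, add_zero] at hcard'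
      linear_combination hcard' - 6 * hG1
  · -- p = 2 mod 3
    have hG1 := hG_split hp hn0 hpn
    rw [chi3_of_two h3, hA_div hp hn0 hpn] at hG1
    have hp0 : (p : Eis) ≠ 0 := (prime_inert hp h3).ne_zero
    have hall : (ofNorm n).filter (fun b => (p : Eis) ∣ b) = ofNorm n := by
      rw [Finset.filter_true_of_mem]
      intro b hb
      rw [mem_ofNorm] at hb
      exact inert_dvd hp h3 (by rw [hb]; exact hpn)
    by_cases hp2 : p ^ 2 ∣ n
    · have c3 : (ofNorm n).card = (ofNorm (n / p ^ 2)).card := by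
        have := card_dvd_mul hp0 (n := n) (by rw [nm_natCast]; exact hp2)
        rwa [nm_natCast, hall] at this
      have hpp : p ∣ n / p := by
        rw [Nat.dvd_div_iff_mul_dvd hpn, ← sq]
        exact hp2
      have hG2 := hG_split hp hdiv0 hpp
      rw [chi3_of_two h3, hdd] at hG2
      have hpos2 : 1 ≤ n / p ^ 2 := Nat.div_pos (Nat.le_of_dvd (by omega) hp2) (pow_pos hp.pos 2)
      have hlt2 : n / p ^ 2 < n := Nat.div_lt_self (by omega) (Nat.one_lt_pow (by norm_num) hp.one_lt)
      have ih2 := ih (n / p ^ 2) hlt2 hpos2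
      rw [c3, ih2, hG1, hG2]
      ring
    · have c3 : (ofNorm n).card = 0 := by
        rw [← hall]
        exact card_dvd_zero (by rw [nm_natCast]; exact hp2)
      have hpp : ¬ p ∣ n / p := by
        rw [Nat.dvd_div_iff_mul_dvd hpn, ← sq]
        exact hp2
      rw [hA_eq_hG hpp] at hG1
      rw [c3, hG1, Nat.cast_zero]
      ring

end MPd9f52e
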