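import Mathlib
import Pool.Agent.Lib.MP_d9f52e_nt.EBas
import Pool.Agent.Lib.MP_d9f52e_nt.HHz

/-!
# HL1: L(1, chi3) = pi/(3 sqrt 3)  (about 150 lines)

`L(s, chi3)` is continuous at 1 (`differentiable_LFunction` for a nontrivial character).  One of the following:
(a) `L(1) = lim_{s -> 1+} sum_n ((3n+1)^{-s} - (3n+2)^{-s}) = sum_n (1/(3n+1) - 1/(3n+2))` (dominated convergence: the grouped terms are `<= 2/(3n+1)^2` for `1 < s < 2`), and
`sum_{n>=0} (1/(3n+1) - 1/(3n+2)) = (pi/3) cot(pi/3) = pi/(3 sqrt 3)` by the Mittag-Leffler expansion of the cotangent at `1/3` (`cot_series_rep`: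
`pi cot(pi x) = 1/x + sum_{n>=1} (1/(x-n) + 1/(x+n))`, `x = 1/3`: terms `-3/(3n-1) + 3/(3n+1)`).
(b) or the functional equation.
-/

set_option autoImplicit false

namespace MPd9f52e

open Complex ZMod
open scoped FourierTransform

private theorem chi3_zero' : chi3 0 = 0 := by
  rw [chi3]
  simp [MulChar.ringHomComp_apply]

private theorem chi3_one' : chi3 1 = 1 := map_one _

private theorem chi3_two' : chi3 2 = -1 := by
  have hns : ∀ r : ZMod 3, ¬ (2 = r * r) := by decide
  have : Fact (Nat.Prime 3) := ⟨Nat.prime_three⟩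
  have h2 : quadraticChar (ZMod 3) 2 = -1 := by
    rw [quadraticChar_neg_one_iff_not_isSquare]
    rintro ⟨r, hr⟩
    exact hns r hr
  rw [chi3, MulChar.ringHomComp_apply, h2]
  simp

private theorem std_one : stdAddChar (1 : ZMod 3) = w := by
  have h := ZMod.stdAddChar_coe (N := 3) 1
  rw [w_exp]
  push_cast at h
  rw [h]
  congr 1
  ring

private theorem std_two : stdAddChar (2 : ZMod 3) = w ^ 2 := by
  have : (2 : ZMod 3) = 1 + 1 := by decide
  rw [this, AddChar.map_add_eq_mul, std_one]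
  ring

private theorem dft_chi3 : ZMod.dft (fun j => chi3 j) = fun k : ZMod 3 => (-(Real.sqrt 3 : ℂ) * I) * chi3 k := by
  have hw : w ^ 2 - w = -(Real.sqrt 3 : ℂ) * I := by
    linear_combination w_sq - s3_val
  funext k
  rw [ZMod.dft_apply]
  have hs : ∀ F : ZMod 3 → ℂ, ∑ j : ZMod 3, F j = F 0 + F 1 + F 2 := fun F => Fin.sum_univ_three F
  rw [hs]
  have hk : k = 0 ∨ k = 1 ∨ k = 2 := by
    revert k
    decide
  have e1 : (-(1 * 1) : ZMod 3) = 2 := by decide
  have e2 : (-(2 * 1) : ZMod 3) = 1 := by decide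
  have e3 : (-(1 * 2) : ZMod 3) = 1 := by decide
  have e4 : (-(2 * 2) : ZMod 3) = 2 := by decide
  rcases hk with rfl | rfl | rfl
  · simp only [chi3_zero', chi3_one', chi3_two', mul_zero, neg_zero, AddChar.map_zero_eq_one, smul_eq_mul]
    ring
  · simp only [chi3_zero', chi3_one', chi3_two', e1, e2, std_one, std_two, smul_eq_mul, mul_zero]
    linear_combination hw
  · simp only [chi3_zero', chi3_one', chi3_two', e3, e4, std_one, std_two, smul_eq_mul, mul_zero]
    linear_combination -hw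

theorem LFunction_chi3_one : DirichletCharacter.LFunction chi3 1 = (Real.pi : ℂ) / (3 * (Real.sqrt 3 : ℂ)) := by
  have h := ZMod.LFunction_one_sub (N := 3) (fun j => chi3 j) (s := 1) (by
    intro n hn
    have := congrArg Complex.re hn
    simp at this
    have h2 : (0 : ℝ) ≤ n := Nat.cast_nonneg n
    linarith) (Or.inl chi3_zero')
  have hneg : (fun x : ZMod 3 => chi3 (-x)) = fun x => (-1 : ℂ) * chi3 x := by
    funext x
    have hx : x = 0 ∨ x = 1 ∨ x = 2 := by
      revert x
      decide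
    have e1 : (-1 : ZMod 3) = 2 := by decide
    have e2 : (-2 : ZMod 3) = 1 := by decide
    rcases hx with rfl | rfl | rfl
    · simp only [neg_zero, chi3_zero', mul_zero]
    · simp only [e1, chi3_two', chi3_one']
      ring
    · simp only [e2, chi3_two', chi3_one']
      ring
  have hdn : ZMod.dft (fun x : ZMod 3 => chi3 (-x)) = fun k : ZMod 3 => ((Real.sqrt 3 : ℂ) * I) * chi3 k := by
    have e : (fun x : ZMod 3 => chi3 (-x)) = (-1 : ℂ) • (fun x : ZMod 3 => chi3 x) := by
      rw [hneg]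
      rfl
    rw [e, _root_.map_smul, dft_chi3]
    funext k
    simp only [Pi.smul_apply, smul_eq_mul]
    ring
  have hlin : ∀ c : ℂ, ZMod.LFunction (fun k : ZMod 3 => c * chi3 k) 1 = c * ZMod.LFunction (fun k : ZMod 3 => chi3 k) 1 := by
    intro c
    simp only [ZMod.LFunction, Finset.mul_sum]
    refine Finset.sum_congr rfl fun j _ => ?_
    ring
  rw [dft_chi3, hdn, hlin, hlin] at h
  have h0 := LFunction_chi3_zero
  have hL0 : ZMod.LFunction (fun k : ZMod 3 => chi3 k) (1 - 1) = 1 / 3 := by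
    rw [sub_self]
    exact h0
  rw [hL0] at h
  have hL1 : DirichletCharacter.LFunction chi3 1 = ZMod.LFunction (fun k : ZMod 3 => chi3 k) 1 := rfl
  rw [hL1]
  set L := ZMod.LFunction (fun k : ZMod 3 => chi3 k) 1
  have hI1 : cexp (Real.pi * I * 1 / 2) = I := by
    rw [mul_one, mul_div_right_comm]
    exact Complex.exp_pi_div_two_mul_I
  have hI2 : cexp (-Real.pi * I * 1 / 2) = -I := by
    rw [show (-Real.pi * I * 1 / 2 : ℂ) = -Real.pi / 2 * I by ring]
    exact Complex.exp_neg_pi_div_two_mul_I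
  rw [hI1, hI2, sub_self, Complex.cpow_zero, Complex.Gamma_one, Complex.cpow_neg_one] at h
  have hpi : (Real.pi : ℂ) ≠ 0 := by exact_mod_cast Real.pi_ne_zero
  have hs3 : (Real.sqrt 3 : ℂ) ≠ 0 := by
    exact_mod_cast (Real.sqrt_pos.2 (by norm_num : (0 : ℝ) < 3)).ne'
  have hII : I * I = -1 := Complex.I_mul_I
  have h2 : (1 / 3 : ℂ) = (2 * (Real.pi : ℂ))⁻¹ * (2 * (Real.sqrt 3 : ℂ) * L) := by
    rw [h]
    linear_combination (-(2 * (Real.pi : ℂ))⁻¹ * (2 * (Real.sqrt 3 : ℂ) * L)) * hII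
  field_simp at h2 ⊢
  linear_combination -h2

end MPd9f52e
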