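import Mathlib
import Pool.Agent.Lib.MP_d9f52e_nt.HCnt
import Pool.Agent.Lib.MP_d9f52e_nt.HHz
import Pool.Agent.Lib.MP_d9f52e_nt.HL1

/-!
# HEz: the Epstein zeta function of the lattice  (about 200 lines)

`Ez s = 6 zeta(s) L(s, chi3)`.  For `Re s > 1`: `zeta(s) L(s,chi3) = sum_n (sum_{c|n} chi3(c)) n^{-s}` (LSeries convolution), so `Ez s = sum_{n>=1} r(n) n^{-s} = sum_{l <> 0} |l|^{-2s}` with `r(n) = #(ofNorm n)` (`card_ofNorm`), `|ec l|^2 = nm l`;
rearrangement over the fibres of `nm` (summable: `HasSum.sigma`, or `tsum` of nonnegative terms).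
`sum_lat`: summability of `|l|^{-p}`, `p > 2` (Mathlib: ZLattice.summable_norm_rpow or from the above).
`Ez 0 = 6 * (-1/2) * (1/3)`.  Near 1: `(s-1) zeta(s) -> 1`, `L(1,chi3) = pi/(3 sqrt 3)`, `6 pi/(3 sqrt 3) = 2 pi/sqrt 3 = r0`.
`Ez_aux`: the function `s^2 Ez(s+1)` is analytic on `Re s > -1` (removable at 0: `s zeta(s+1)` has the limit 1) with value 0 and derivative `r0` at 0.
-/

set_option autoImplicit false

namespace MPd9f52e

open Complex

theorem summable_lat {p : ℝ} (hp : 2 < p) : Summable (fun l : Eis => if l = 0 then (0 : ℝ) else ‖ec l‖ ^ (-p)) := by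
  have h : Summable fun z : LO.lattice => ‖z‖ ^ (-p) := by
    refine ZLattice.summable_norm_rpow LO.lattice (-p) ?_
    rw [LO.finrank_lattice]
    push_cast
    linarith
  have hi : Function.Injective (fun l : Eis => (⟨ec l, ec_mem l⟩ : LO.lattice)) := by
    intro a b hab
    exact ec_inj (congrArg Subtype.val hab)
  have h2 := h.comp_injective hi
  refine h2.congr fun l => ?_
  show ‖(⟨ec l, ec_mem l⟩ : LO.lattice)‖ ^ (-p) = _
  by_cases hl : l = 0
  · rw [if_pos hl, hl]
    simp only [Submodule.coe_norm, map_zero, norm_zero]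
    exact Real.zero_rpow (by linarith)
  · rw [if_neg hl]
    rfl

private lemma norm_cpow_ec {l : Eis} (hl : l ≠ 0) (s : ℂ) :
    (‖ec l‖ : ℂ) ^ (-2 * s) = ((nm l : ℕ) : ℂ) ^ (-s) := by
  have h : ((nm l : ℕ) : ℂ) = (‖ec l‖ : ℂ) ^ (2 : ℂ) := by
    have := nm_cast l
    have e : ((nm l : ℕ) : ℂ) = (((nm l : ℕ) : ℝ) : ℂ) := by push_cast; rfl
    rw [e, this]
    push_cast
    norm_cast
  have h0 : (0 : ℝ) < ‖ec l‖ := norm_pos_iff.2 (ec_ne_zero hl)
  rw [h]
  have hlog : ((2 : ℂ) * (-s)) = -2 * s := by ring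
  rw [← hlog]
  have e2 : (‖ec l‖ : ℂ) ^ ((2 : ℂ) * (-s)) = ((‖ec l‖ : ℂ) ^ (2 : ℂ)) ^ (-s) := by
    have hr : (‖ec l‖ : ℂ) ^ (2 : ℂ) = ((‖ec l‖ ^ 2 : ℝ) : ℂ) := by
      push_cast; norm_cast
    rw [hr]
    have h0c : (‖ec l‖ : ℂ) ≠ 0 := by exact_mod_cast h0.ne'
    have h1c : ((‖ec l‖ ^ 2 : ℝ) : ℂ) ≠ 0 := by exact_mod_cast (pow_pos h0 2).ne'
    rw [Complex.cpow_def_of_ne_zero h0c, Complex.cpow_def_of_ne_zero h1c,
      ← Complex.ofReal_log h0.le, ← Complex.ofReal_log (pow_pos h0 2).le, Real.log_pow]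
    congr 1
    push_cast
    ring
  exact e2

theorem Ez_hasSum {s : ℂ} (hs : 1 < s.re) :
    HasSum (fun l : Eis => if l = 0 then (0 : ℂ) else (‖ec l‖ : ℂ) ^ (-2 * s)) (Ez s) := by
  set F : Eis → ℂ := fun l => if l = 0 then (0 : ℂ) else (‖ec l‖ : ℂ) ^ (-2 * s) with hF
  have hsum : Summable F := by
    refine Summable.of_norm ?_
    have h := summable_lat (p := 2 * s.re) (by linarith)
    refine h.congr fun l => ?_
    rw [hF]
    by_cases hl : l = 0
    · simp [hl]
    · simp only [if_neg hl]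
      have h0 : (0 : ℝ) < ‖ec l‖ := norm_pos_iff.2 (ec_ne_zero hl)
      rw [Complex.norm_cpow_eq_rpow_re_of_pos h0]
      congr 1
      simp
  have hs1 : s ≠ 0 := by
    intro h; rw [h] at hs; simp at hs; linarith
  -- the convolution
  have hconv : LSeriesHasSum (LSeries.convolution 1 (fun n : ℕ => chi3 (n : ZMod 3))) s
      (riemannZeta s * DirichletCharacter.LFunction chi3 s) := by
    have h1 : LSeriesHasSum (1 : ℕ → ℂ) s (riemannZeta s) := by
      rw [← LSeries_one_eq_riemannZeta hs]
      exact (LSeriesSummable_one_iff.mpr hs).LSeriesHasSum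
    have h2 : LSeriesHasSum (fun n : ℕ => chi3 (n : ZMod 3)) s
        (DirichletCharacter.LFunction chi3 s) := by
      rw [DirichletCharacter.LFunction_eq_LSeries chi3 hs]
      exact (DirichletCharacter.LSeriesSummable_of_one_lt_re chi3 hs).LSeriesHasSum
    exact LSeriesHasSum.convolution h1 h2
  have hc2 : HasSum (fun n : ℕ => 6 * LSeries.term (LSeries.convolution 1
      (fun n : ℕ => chi3 (n : ZMod 3))) s n) (Ez s) := by
    have := hconv.mul_left 6
    unfold Ez
    rw [mul_assoc]
    exact this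
  have hterm : ∀ n : ℕ, 6 * LSeries.term (LSeries.convolution 1
      (fun n : ℕ => chi3 (n : ZMod 3))) s n = ∑' l : {l : Eis // nm l = n}, F l.1 := by
    intro n
    by_cases hn : n = 0
    · subst hn
      rw [LSeries.term_zero, mul_zero]
      symm
      refine (tsum_congr fun l => ?_).trans tsum_zero
      have : nm (l : Eis) = 0 := l.2
      rw [nm_eq_zero] at this
      rw [hF]
      simp [this]
    · rw [LSeries.term_of_ne_zero hn, LSeries.convolution_def]
      have e1 : ∑ p ∈ n.divisorsAntidiagonal, (1 : ℕ → ℂ) p.1 * chi3 ((p.2 : ℕ) : ZMod 3) =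
          ∑ c ∈ n.divisors, chi3 (c : ZMod 3) := by
        rw [← Nat.map_div_left_divisors, Finset.sum_map]
        refine Finset.sum_congr rfl fun c _ => ?_
        show (1 : ℂ) * chi3 ((c : ℕ) : ZMod 3) = _
        rw [one_mul]
      simp only [e1]
      have e2 := card_ofNorm (n := n) (by omega)
      have e3 : ∑' l : {l : Eis // nm l = n}, F l.1 = ∑ l ∈ ofNorm n, F l := by
        have f1 : ∑' l : {l : Eis // nm l = n}, F l.1 =
            ∑' l : Eis, Set.indicator {l : Eis | nm l = n} F l := tsum_subtype {l : Eis | nm l = n} F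
        rw [f1, tsum_eq_sum (s := ofNorm n)]
        · refine Finset.sum_congr rfl fun l hl => ?_
          rw [mem_ofNorm] at hl
          exact Set.indicator_of_mem (s := {l : Eis | nm l = n}) hl F
        · intro l hl
          rw [mem_ofNorm] at hl
          exact Set.indicator_of_notMem (s := {l : Eis | nm l = n}) hl F
      rw [e3]
      have e4 : ∀ l ∈ ofNorm n, F l = ((n : ℕ) : ℂ) ^ (-s) := by
        intro l hl
        rw [mem_ofNorm] at hl
        have hl0 : l ≠ 0 := by
          intro h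
          rw [h] at hl
          have : nm (0 : Eis) = 0 := (nm_eq_zero 0).2 rfl
          omega
        rw [hF]
        simp only [if_neg hl0]
        rw [norm_cpow_ec hl0, hl]
      rw [Finset.sum_congr rfl e4, Finset.sum_const, nsmul_eq_mul, e2, Complex.cpow_neg]
      ring
  simp only [hterm] at hc2
  have h3 : ∑' l, F l = Ez s := by
    rw [← hc2.tsum_eq]
    have hs5 : HasSum (F ∘ (Equiv.sigmaFiberEquiv nm)) (∑' l, F l) :=
      (Equiv.hasSum_iff (Equiv.sigmaFiberEquiv nm)).2 hsum.hasSum
    have hs6 : HasSum (fun x : (Σ n, {l : Eis // nm l = n}) => F x.2.1) (∑' l, F l) := hs5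
    have h5 : ∑' x : (Σ n, {l : Eis // nm l = n}), F x.2.1 =
        ∑' (n : ℕ) (l : {l : Eis // nm l = n}), F l.1 :=
      Summable.tsum_sigma (f := fun x : (Σ n, {l : Eis // nm l = n}) => F x.2.1) hs6.summable
    rw [← h5]
    exact hs6.tsum_eq.symm
  rw [← h3]
  exact hsum.hasSum

theorem Ez_diff {s : ℂ} (hs : s ≠ 1) : DifferentiableAt ℂ Ez s := by
  unfold Ez
  have h1 : DifferentiableAt ℂ riemannZeta s := differentiableAt_riemannZeta hs
  have h2 : DifferentiableAt ℂ (DirichletCharacter.LFunction chi3) s :=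
    (DirichletCharacter.differentiable_LFunction chi3_ne_one) s
  exact ((h1.const_mul 6).mul h2)

theorem Ez_zero : Ez 0 = -1 := by
  unfold Ez
  rw [riemannZeta_zero, LFunction_chi3_zero]
  norm_num

/-- `s ζ(s+1)` continued -/
private noncomputable def kz : ℂ → ℂ := Function.update (fun s : ℂ => s * riemannZeta (s + 1)) 0 1

private lemma kz_cont : ContinuousAt kz 0 := by
  unfold kz
  rw [continuousAt_update_same]
  have h := riemannZeta_residue_one
  have h2 : Filter.Tendsto (fun s : ℂ => s + 1) (nhdsWithin 0 {0}ᶜ) (nhdsWithin 1 {1}ᶜ) := by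
    refine tendsto_nhdsWithin_iff.2 ⟨?_, ?_⟩
    · have : Filter.Tendsto (fun s : ℂ => s + 1) (nhds 0) (nhds (0 + 1)) :=
        (continuous_add_const 1).tendsto 0
      rw [zero_add] at this
      exact this.mono_left nhdsWithin_le_nhds
    · filter_upwards [self_mem_nhdsWithin] with s hs
      simpa using hs
  have h3 := h.comp h2
  refine h3.congr fun s => ?_
  simp

private lemma kz_diff : Differentiable ℂ kz := by
  have hne : ∀ s : ℂ, s ≠ 0 → DifferentiableAt ℂ kz s := by
    intro s hs
    have h1 : DifferentiableAt ℂ (fun s : ℂ => s * riemannZeta (s + 1)) s := by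
      refine differentiableAt_id.mul ?_
      have h2 : DifferentiableAt ℂ riemannZeta (s + 1) :=
        differentiableAt_riemannZeta (by simpa using hs)
      exact h2.comp s (differentiableAt_id.add_const 1)
    refine h1.congr_of_eventuallyEq ?_
    filter_upwards [isOpen_ne.mem_nhds hs] with z hz
    unfold kz
    rw [Function.update_of_ne hz]
  intro s
  by_cases hs : s = 0
  · subst hs
    refine (Complex.analyticAt_of_differentiable_on_punctured_nhds_of_continuousAt ?_
      kz_cont).differentiableAt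
    filter_upwards [self_mem_nhdsWithin] with z hz
    exact hne z hz
  · exact hne s hs

private lemma aux_eq (s : ℂ) : s ^ 2 * Ez (s + 1) =
    s * (kz s * (6 * DirichletCharacter.LFunction chi3 (s + 1))) := by
  by_cases hs : s = 0
  · subst hs; simp
  · unfold kz Ez
    rw [Function.update_of_ne hs]
    ring

private lemma lf_diff : Differentiable ℂ (fun s : ℂ => DirichletCharacter.LFunction chi3 (s + 1)) := by
  intro s
  have h2 : DifferentiableAt ℂ (DirichletCharacter.LFunction chi3) (s + 1) :=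
    (DirichletCharacter.differentiable_LFunction chi3_ne_one) _
  exact h2.comp s (differentiableAt_id.add_const 1)

theorem Ez_aux_diff : DifferentiableOn ℂ (fun s : ℂ => s ^ 2 * Ez (s + 1)) Set.univ := by
  have h : (fun s : ℂ => s ^ 2 * Ez (s + 1)) = fun s : ℂ =>
      s * (kz s * (6 * DirichletCharacter.LFunction chi3 (s + 1))) := funext aux_eq
  rw [h]
  exact (differentiable_id.mul (kz_diff.mul (lf_diff.const_mul 6))).differentiableOn

theorem Ez_aux_deriv : HasDerivAt (fun s : ℂ => s ^ 2 * Ez (s + 1)) (r0 : ℂ) 0 := by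
  have h : (fun s : ℂ => s ^ 2 * Ez (s + 1)) = fun s : ℂ =>
      s * (kz s * (6 * DirichletCharacter.LFunction chi3 (s + 1))) := funext aux_eq
  rw [h]
  have h1 : DifferentiableAt ℂ (fun s : ℂ => kz s * (6 * DirichletCharacter.LFunction chi3 (s + 1))) 0 :=
    (kz_diff.mul (lf_diff.const_mul 6)) 0
  have h2 := (hasDerivAt_id (0 : ℂ)).mul h1.hasDerivAt
  have e : (1 : ℂ) * (kz 0 * (6 * DirichletCharacter.LFunction chi3 (0 + 1))) +
      id (0 : ℂ) * deriv (fun s : ℂ => kz s * (6 * DirichletCharacter.LFunction chi3 (s + 1))) 0 =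
      (r0 : ℂ) := by
    have hk : kz 0 = 1 := by unfold kz; simp
    rw [hk, zero_add, LFunction_chi3_one]
    have h3 : (Real.sqrt 3 : ℂ) ≠ 0 := by
      have : Real.sqrt 3 ≠ 0 := by positivity
      exact_mod_cast this
    unfold r0
    push_cast
    simp only [id]
    field_simp
    ring
  rw [← e]
  exact h2

end MPd9f52e
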