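import Mathlib
import Pool.Agent.Lib.MP_d9f52e_nt.HEz
import Pool.Agent.Lib.MP_d9f52e_nt.HTay

/-!
# HSer: the lattice zeta function for Re s > 1  (about 200 lines)

For `z` off the lattice and `Re s > 1`: `sum_l |z + l|^{-2s}` converges absolutely (compare with `summable_lat` via `remT_bound`, or directly `|z+l| >= |l|/2`), and
`sum_{l<>0} |z+l|^{-2s} = sum remT z s l + sum_{l <> 0} |l|^{-2s}(1 - s(x+x') + (s(s+1)/2)(x^2+x'^2) + s^2 x x')`, `x = z/l`.  The sums of `|l|^{-2s} x`, `|l|^{-2s} x'` vanish (substitute `l -> -l`),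
those of `|l|^{-2s} x^2`, `|l|^{-2s} x'^2` vanish (substitute `l -> om l`: multiplied by `w^{-2} <> 1`), `x x' = |z|^2 |l|^{-2}` gives `s^2 |z|^2 Ez(s+1)` and the constant term `Ez s` (`Ez_hasSum`).
The term `l = 0` is `|z|^{-2s}`.
-/

set_option autoImplicit false

namespace MPd9f52e

open Complex

private theorem hs_congr {f g : Eis → ℂ} {a : ℂ} (hg : HasSum g a) (h : ∀ l, f l = g l) : HasSum f a := by
  have : f = g := funext h
  rw [this]
  exact hg

private theorem finite_lt (R : ℝ) : {l : Eis | ‖ec l‖ < R}.Finite := by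
  classical
  obtain ⟨N, hN⟩ := exists_nat_gt (R ^ 2)
  refine ((Finset.range N).biUnion fun n => ofNorm n).finite_toSet.subset ?_
  intro l hl
  have hl' : ‖ec l‖ < R := hl
  rw [Finset.mem_coe, Finset.mem_biUnion]
  refine ⟨nm l, ?_, (mem_ofNorm _ _).2 rfl⟩
  rw [Finset.mem_range]
  have h1 : (nm l : ℝ) < N := by
    rw [nm_cast]
    have h0 := norm_nonneg (ec l)
    have h3 : ‖ec l‖ ^ 2 ≤ R ^ 2 := pow_le_pow_left₀ h0 hl'.le 2
    exact lt_of_le_of_lt h3 hN
  exact_mod_cast h1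

private theorem ev_large (R : ℝ) : ∀ᶠ l : Eis in Filter.cofinite, l ≠ 0 ∧ R ≤ ‖ec l‖ := by
  have h1 : ∀ᶠ l : Eis in Filter.cofinite, l ≠ 0 := by
    rw [Filter.eventually_cofinite]
    simp only [not_not, Set.ofPred_eq_eq_singleton, Set.finite_singleton]
  have h2 : ∀ᶠ l : Eis in Filter.cofinite, R ≤ ‖ec l‖ := by
    rw [Filter.eventually_cofinite]
    simpa only [not_le] using finite_lt R
  exact h1.and h2

theorem summable_shift (z : ℂ) {p : ℝ} (hp : 2 < p) (hz : z ∉ LO.lattice) :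
    Summable (fun l : Eis => ‖z + ec l‖ ^ (-p)) := by
  have hS := (summable_lat hp).mul_left ((2 : ℝ) ^ p)
  refine Summable.of_norm_bounded_eventually hS ?_
  filter_upwards [ev_large (2 * ‖z‖)] with l hl
  obtain ⟨h0, h1⟩ := hl
  have hpos : 0 < ‖ec l‖ := norm_pos_iff.2 (ec_ne_zero h0)
  have h2 : ‖ec l‖ / 2 ≤ ‖z + ec l‖ := by
    have h3 : ‖ec l‖ ≤ ‖z + ec l‖ + ‖z‖ := by
      calc ‖ec l‖ = ‖(z + ec l) - z‖ := by congr 1; ring
        _ ≤ ‖z + ec l‖ + ‖z‖ := norm_sub_le _ _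
    linarith
  rw [if_neg h0, Real.norm_of_nonneg (Real.rpow_nonneg (norm_nonneg _) _)]
  calc ‖z + ec l‖ ^ (-p) ≤ (‖ec l‖ / 2) ^ (-p) :=
        Real.rpow_le_rpow_of_nonpos (by positivity) h2 (by linarith)
    _ = 2 ^ p * ‖ec l‖ ^ (-p) := by
        rw [Real.div_rpow hpos.le (by norm_num), Real.rpow_neg (by norm_num : (0 : ℝ) ≤ 2), div_inv_eq_mul, mul_comm]

private theorem tsum_zero_of_sym {F : Eis → ℂ} (e : Eis ≃ Eis) {c : ℂ} (hc : c ≠ 1)
    (h : ∀ l, F (e l) = c * F l) : ∑' l, F l = 0 := by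
  have h1 : ∑' l, F l = c * ∑' l, F l := by
    calc ∑' l, F l = ∑' l, F (e l) := (Equiv.tsum_eq e F).symm
      _ = ∑' l, c * F l := by simp_rw [h]
      _ = c * ∑' l, F l := tsum_mul_left
  have h2 : (1 - c) * ∑' l, F l = 0 := by linear_combination h1
  rcases mul_eq_zero.1 h2 with h3 | h3
  · exact absurd (sub_eq_zero.1 h3).symm hc
  · exact h3

private noncomputable def omU : Eisˣ where
  val := om
  inv := om ^ 2
  val_inv := by rw [← om_pow_three]; ring
  inv_val := by rw [← om_pow_three]; ring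

private theorem norm_cp {l : Eis} (hl : l ≠ 0) (s : ℂ) : ‖(‖ec l‖ : ℂ) ^ (-2 * s)‖ = ‖ec l‖ ^ (-(2 * s.re)) := by
  rw [Complex.norm_cpow_eq_rpow_re_of_pos (norm_pos_iff.2 (ec_ne_zero hl))]
  congr 1
  simp

private theorem summable_gen {s : ℂ} (hs : 1 < s.re) {G : Eis → ℂ} (K : ℝ) (k : ℕ)
    (hG : ∀ l, l ≠ 0 → ‖G l‖ ≤ K * ‖ec l‖ ^ (-(k : ℝ))) :
    Summable (fun l : Eis => if l = 0 then (0 : ℂ) else (‖ec l‖ : ℂ) ^ (-2 * s) * G l) := by
  have hS := (summable_lat (p := 2 * s.re + k) (by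
    have : (0 : ℝ) ≤ k := Nat.cast_nonneg k
    linarith)).mul_left K
  refine Summable.of_norm_bounded hS ?_
  intro l
  by_cases h0 : l = 0
  · simp [h0]
  · have hpos : 0 < ‖ec l‖ := norm_pos_iff.2 (ec_ne_zero h0)
    rw [if_neg h0, if_neg h0, norm_mul, norm_cp h0]
    calc ‖ec l‖ ^ (-(2 * s.re)) * ‖G l‖ ≤ ‖ec l‖ ^ (-(2 * s.re)) * (K * ‖ec l‖ ^ (-(k : ℝ))) := by
          apply mul_le_mul_of_nonneg_left (hG l h0) (Real.rpow_nonneg hpos.le _)
      _ = K * ‖ec l‖ ^ (-(2 * s.re + k)) := by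
          rw [neg_add, Real.rpow_add hpos]
          ring

private theorem hasSum_zero_of_sym {s : ℂ} (hs : 1 < s.re) {G : Eis → ℂ} (K : ℝ) (k : ℕ)
    (hG : ∀ l, l ≠ 0 → ‖G l‖ ≤ K * ‖ec l‖ ^ (-(k : ℝ))) (u : Eisˣ) {c : ℂ} (hc : c ≠ 1)
    (h : ∀ l, l ≠ 0 → G (u * l) = c * G l) :
    HasSum (fun l : Eis => if l = 0 then (0 : ℂ) else (‖ec l‖ : ℂ) ^ (-2 * s) * G l) 0 := by
  have hS := summable_gen hs K k hG
  have h0 : ∑' l : Eis, (if l = 0 then (0 : ℂ) else (‖ec l‖ : ℂ) ^ (-2 * s) * G l) = 0 := by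
    refine tsum_zero_of_sym (Units.mulLeft u) hc ?_
    intro l
    rw [Units.mulLeft_apply]
    by_cases hl : l = 0
    · subst hl
      simp
    · have hul : (u : Eis) * l ≠ 0 := by
        intro h1
        apply hl
        rwa [Units.mul_right_eq_zero] at h1
      rw [if_neg hl, if_neg hul, h l hl, map_mul, norm_mul, norm_unit, one_mul]
      ring
  have h1 := hS.hasSum
  rw [h0] at h1
  exact h1

private theorem norm_x {z : ℂ} (l : Eis) (k : ℕ) :
    ‖(z / ec l) ^ k‖ = ‖z‖ ^ k * ‖ec l‖ ^ (-(k : ℝ)) := by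
  rw [norm_pow, norm_div, div_pow, Real.rpow_neg (norm_nonneg _), Real.rpow_natCast]
  rfl

private theorem norm_x' {z : ℂ} (l : Eis) (k : ℕ) :
    ‖(starRingEnd ℂ) (z / ec l) ^ k‖ = ‖z‖ ^ k * ‖ec l‖ ^ (-(k : ℝ)) := by
  rw [← map_pow, Complex.norm_conj, norm_x]

theorem Hc_hasSum {z : ℂ} (hz : z ∉ LO.lattice) {s : ℂ} (hs : 1 < s.re) :
    HasSum (fun l : Eis => (‖z + ec l‖ : ℂ) ^ (-2 * s)) (Hc z s) := by
  classical
  have hw2 : w ^ 2 ≠ 1 := by
    intro h
    apply w_ne_one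
    have h3 := w_pow_three
    calc w = w * w ^ 2 := by rw [h, mul_one]
      _ = 1 := by rw [← h3]; ring
  have hw0 : w ≠ 0 := by
    intro h
    have h3 := w_pow_three
    rw [h] at h3
    norm_num at h3
  -- the sums
  have hA := Ez_hasSum hs
  have hB : HasSum (fun l : Eis => if l = 0 then (0 : ℂ) else (‖ec l‖ : ℂ) ^ (-2 * s) * (z / ec l)) 0 := by
    refine hasSum_zero_of_sym hs ‖z‖ 1 (fun l _ => ?_) (-1) (c := -1) (by norm_num) (fun l _ => ?_)
    · have := norm_x (z := z) l 1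
      rw [pow_one, pow_one] at this
      exact this.le
    · simp only [Units.val_neg, Units.val_one, neg_mul, one_mul, map_neg, div_neg]
  have hB' : HasSum (fun l : Eis => if l = 0 then (0 : ℂ) else (‖ec l‖ : ℂ) ^ (-2 * s) * (starRingEnd ℂ) (z / ec l)) 0 := by
    refine hasSum_zero_of_sym hs ‖z‖ 1 (fun l _ => ?_) (-1) (c := -1) (by norm_num) (fun l _ => ?_)
    · have := norm_x' (z := z) l 1
      rw [pow_one, pow_one] at this
      exact this.le
    · simp only [Units.val_neg, Units.val_one, neg_mul, one_mul, map_neg, div_neg]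
  have hC : HasSum (fun l : Eis => if l = 0 then (0 : ℂ) else (‖ec l‖ : ℂ) ^ (-2 * s) * (z / ec l) ^ 2) 0 := by
    refine hasSum_zero_of_sym hs (‖z‖ ^ 2) 2 (fun l _ => ?_) omU (c := w) w_ne_one (fun l hl => ?_)
    · exact (norm_x (z := z) l 2).le
    · have h1 : ((omU : Eisˣ) : Eis) = om := rfl
      rw [h1, map_mul, ec_om]
      have h2 := ec_ne_zero hl
      have h3 := w_pow_three
      rw [div_pow, div_pow, mul_pow]
      field_simp
      rw [h3, mul_one]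
  have hC' : HasSum (fun l : Eis => if l = 0 then (0 : ℂ) else (‖ec l‖ : ℂ) ^ (-2 * s) * (starRingEnd ℂ) (z / ec l) ^ 2) 0 := by
    refine hasSum_zero_of_sym hs (‖z‖ ^ 2) 2 (fun l _ => ?_) omU (c := w ^ 2) hw2 (fun l hl => ?_)
    · exact (norm_x' (z := z) l 2).le
    · have h1 : ((omU : Eisˣ) : Eis) = om := rfl
      rw [h1, map_mul, ec_om, map_div₀, map_mul, conj_w, map_div₀]
      have h2 : (starRingEnd ℂ) (ec l) ≠ 0 := by
        rw [Ne, map_eq_zero]
        exact ec_ne_zero hl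
      have h3 := w_pow_three
      have h6 : w ^ 6 = 1 := by
        calc w ^ 6 = (w ^ 3) ^ 2 := by ring
          _ = 1 := by rw [h3]; norm_num
      rw [div_pow, div_pow, mul_pow]
      field_simp
      rw [h6, mul_one]
  have hD : HasSum (fun l : Eis => if l = 0 then (0 : ℂ) else (‖ec l‖ : ℂ) ^ (-2 * s) * (z / ec l * (starRingEnd ℂ) (z / ec l)))
      ((‖z‖ : ℂ) ^ 2 * Ez (s + 1)) := by
    have h1 := (Ez_hasSum (s := s + 1) (by rw [Complex.add_re, Complex.one_re]; linarith)).mul_left ((‖z‖ : ℂ) ^ 2)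
    refine hs_congr h1 fun l => ?_
    by_cases h0 : l = 0
    · rw [if_pos h0, if_pos h0, mul_zero]
    · rw [if_neg h0, if_neg h0]
      have hpos : 0 < ‖ec l‖ := norm_pos_iff.2 (ec_ne_zero h0)
      have hne : (‖ec l‖ : ℂ) ≠ 0 := by exact_mod_cast hpos.ne'
      have e1 : z / ec l * (starRingEnd ℂ) (z / ec l) = (‖z‖ : ℂ) ^ 2 / (‖ec l‖ : ℂ) ^ 2 := by
        rw [Complex.mul_conj, Complex.normSq_eq_norm_sq, norm_div]
        push_cast
        rw [div_pow]
      have e2 : (‖ec l‖ : ℂ) ^ (-2 * (s + 1)) = (‖ec l‖ : ℂ) ^ (-2 * s) / (‖ec l‖ : ℂ) ^ 2 := by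
        rw [show -2 * (s + 1) = -2 * s - ((2 : ℕ) : ℂ) by push_cast; ring, Complex.cpow_sub _ _ hne, Complex.cpow_natCast]
      rw [e1, e2]
      ring
  have hR : HasSum (fun l : Eis => if l = 0 then (0 : ℂ) else remT z s (ec l)) (Rem z s) := by
    have hS : Summable (fun l : Eis => if l = 0 then (0 : ℂ) else remT z s (ec l)) := by
      obtain ⟨C, hC0, hCb⟩ := remT_bound z ‖s‖
      refine Summable.of_norm_bounded_eventually ((summable_lat (p := 2 * s.re + 3) (by linarith)).mul_left C) ?_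
      filter_upwards [ev_large (2 * ‖z‖)] with l hl
      obtain ⟨h0, h1⟩ := hl
      rw [if_neg h0, if_neg h0]
      have h2 := hCb s le_rfl (ec l) (ec_ne_zero h0) h1
      rwa [show -2 * s.re - 3 = -(2 * s.re + 3) by ring] at h2
    exact hS.hasSum
  have hZ : HasSum (fun l : Eis => if l = 0 then (‖z‖ : ℂ) ^ (-2 * s) else 0) ((‖z‖ : ℂ) ^ (-2 * s)) := by
    exact hasSum_ite_eq (0 : Eis) _
  have hall := ((((hZ.add hA).add ((hD.mul_left (s ^ 2)))).add hR).add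
    (((hB.add hB').mul_left (-s)).add ((hC.add hC').mul_left (s * (s + 1) / 2))))
  have hHc : Hc z s = (‖z‖ : ℂ) ^ (-2 * s) + Ez s + s ^ 2 * ((‖z‖ : ℂ) ^ 2 * Ez (s + 1)) + Rem z s +
      (-s * (0 + 0) + s * (s + 1) / 2 * (0 + 0)) := by
    rw [Hc]
    ring
  rw [hHc]
  refine hs_congr hall fun l => ?_
  by_cases h0 : l = 0
  · simp only [h0, if_true, map_zero, add_zero, mul_zero]
  · simp only [if_neg h0, remT]
    ring

end MPd9f52e
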