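import Mathlib
import Pool.Agent.Lib.MP_d9f52e_nt.HEz
import Pool.Agent.Lib.MP_d9f52e_nt.HTay

/-!
# HAna: continuation and the derivative at 0  (about 250 lines; derivative in HDer)

`Rem z` is analytic on `Re s > -1/2` for `z` off the lattice: on `{|s| < R, Re s > -1/2 + e}` the terms with `|l| >= 2|z|`, `l <> 0` are bounded by `C |l|^{-2-2e}` (`remT_bound`, `|l| >= 1`), `summable_lat`; finitely many other terms
(`differentiableOn_tsum_of_summable_norm` for the tail).  `Rem z 0 = 0` (`remT_zero`), derivative termwise (`remT_deriv`; `hasDerivAt_tsum` or Weierstrass: locally uniform limits of analytic functions), and the derivatives are summable.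
`Hc z 0 = 1 + Ez 0 = 0`.  `Hc z` is differentiable on `Dom = {Re s > -1/2, s <> 1}` (`Ez_diff`, `Ez_aux_diff`).
Derivative at 0: `-2 log|z| + E'(0) + |z|^2 r0 + sum_l (-2 log|sigF z l|)`.
-/

set_option autoImplicit false

namespace MPd9f52e

open Complex

private theorem add_ne {z : ℂ} (hz : z ∉ LO.lattice) (l : Eis) : z + ec l ≠ 0 := by
  intro h
  apply hz
  rw [eq_neg_of_add_eq_zero_left h, ← map_neg]
  exact ec_mem _

private theorem ne_zero {z : ℂ} (hz : z ∉ LO.lattice) : z ≠ 0 := by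
  rintro rfl
  exact hz (by simp)

/-- finitely many `l` are small -/
private theorem exists_small (z : ℂ) : ∃ F : Finset Eis, ∀ l, l ∉ F → 2 * ‖z‖ ≤ ‖ec l‖ := by
  classical
  refine ⟨(Finset.range (⌈(2 * ‖z‖) ^ 2⌉₊ + 1)).biUnion ofNorm, fun l hl => ?_⟩
  have h1 : ⌈(2 * ‖z‖) ^ 2⌉₊ + 1 ≤ nm l := by
    by_contra hcon
    apply hl
    rw [Finset.mem_biUnion]
    exact ⟨nm l, Finset.mem_range.2 (by omega), (mem_ofNorm _ _).2 rfl⟩
  have h2 : (2 * ‖z‖) ^ 2 ≤ ‖ec l‖ ^ 2 := by
    rw [← nm_cast]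
    calc (2 * ‖z‖) ^ 2 ≤ (⌈(2 * ‖z‖) ^ 2⌉₊ : ℝ) := Nat.le_ceil _
      _ ≤ (nm l : ℝ) := by exact_mod_cast (by omega : ⌈(2 * ‖z‖) ^ 2⌉₊ ≤ nm l)
  exact (pow_le_pow_iff_left₀ (by positivity) (norm_nonneg _) two_ne_zero).1 h2

theorem Rem_diff {z : ℂ} (hz : z ∉ LO.lattice) : DifferentiableOn ℂ (Rem z) {s : ℂ | -1 / 2 < s.re} := by
  classical
  intro s₀ hs₀
  have hs₀' : -1 / 2 < s₀.re := hs₀
  set ε : ℝ := (s₀.re + 1 / 2) / 2 with hε
  have hε0 : 0 < ε := by rw [hε]; linarith
  set R : ℝ := ‖s₀‖ + 1 with hR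
  set U : Set ℂ := Metric.ball 0 R ∩ {s : ℂ | -1 / 2 + ε < s.re} with hU
  have hUo : IsOpen U := Metric.isOpen_ball.inter (isOpen_lt continuous_const Complex.continuous_re)
  have hsU : s₀ ∈ U := by
    refine ⟨by rw [mem_ball_zero_iff, hR]; linarith, ?_⟩
    show -1 / 2 + ε < s₀.re
    rw [hε]
    linarith
  obtain ⟨C, hC0, hC⟩ := remT_bound z R
  obtain ⟨F, hF⟩ := exists_small z
  have hM : ∀ l : Eis, ∃ M : ℝ, 0 ≤ M ∧ ∀ s ∈ U, l ≠ 0 → ‖remT z s (ec l)‖ ≤ M := by
    intro l
    by_cases hl : l = 0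
    · exact ⟨0, le_rfl, fun s _ h => absurd hl h⟩
    obtain ⟨M, hM⟩ := (isCompact_closedBall (0 : ℂ) R).exists_bound_of_continuousOn
      (f := fun s => remT z s (ec l))
      (remT_diff (ec_ne_zero hl) (add_ne hz l)).continuous.continuousOn
    refine ⟨max M 0, le_max_right _ _, fun s hs _ => ?_⟩
    exact (hM s (Metric.ball_subset_closedBall hs.1)).trans (le_max_left _ _)
  choose M hM0 hM using hM
  set v : Eis → ℝ := fun l => if l = 0 then 0 else ‖ec l‖ ^ (-(2 + 2 * ε)) with hv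
  have hvs : Summable v := summable_lat (by linarith)
  set u : Eis → ℝ := fun l => C * v l + (if l ∈ F then M l else 0) with hu
  have hus : Summable u := by
    refine (hvs.mul_left C).add ?_
    exact summable_of_ne_finset_zero (s := F) fun l hl => by rw [if_neg hl]
  have hv0 : ∀ l, 0 ≤ v l := by
    intro l
    simp only [hv]
    split_ifs
    · exact le_rfl
    · exact Real.rpow_nonneg (norm_nonneg _) _
  have hbound : ∀ (l : Eis) (s : ℂ), s ∈ U →
      ‖(if l = 0 then (0 : ℂ) else remT z s (ec l))‖ ≤ u l := by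
    intro l s hs
    have h2 : 0 ≤ (if l ∈ F then M l else 0) := by
      split_ifs
      · exact hM0 l
      · exact le_rfl
    by_cases hl : l = 0
    · rw [if_pos hl, norm_zero]
      exact add_nonneg (mul_nonneg hC0 (hv0 l)) h2
    rw [if_neg hl]
    by_cases hlF : l ∈ F
    · simp only [hu, if_pos hlF]
      exact (hM l s hs hl).trans (le_add_of_nonneg_left (mul_nonneg hC0 (hv0 l)))
    · simp only [hu, if_neg hlF, add_zero]
      have h3 : ‖s‖ ≤ R := by
        have := hs.1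
        rw [mem_ball_zero_iff] at this
        exact this.le
      refine (hC s h3 (ec l) (ec_ne_zero hl) (hF l hlF)).trans ?_
      refine mul_le_mul_of_nonneg_left ?_ hC0
      simp only [hv, if_neg hl]
      have h4 : -1 / 2 + ε < s.re := hs.2
      exact Real.rpow_le_rpow_of_exponent_le (one_le_norm_ec hl) (by linarith)
  have hd : DifferentiableOn ℂ (fun s => ∑' l : Eis, if l = 0 then (0 : ℂ) else remT z s (ec l)) U := by
    refine differentiableOn_tsum_of_summable_norm hus (fun l => ?_) hUo hbound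
    by_cases hl : l = 0
    · simp only [if_pos hl]
      exact differentiableOn_const _
    · simp only [if_neg hl]
      exact (remT_diff (ec_ne_zero hl) (add_ne hz l)).differentiableOn
  exact ((hd s₀ hsU).differentiableAt (hUo.mem_nhds hsU)).differentiableWithinAt

theorem Hc_diff {z : ℂ} (hz : z ∉ LO.lattice) : DifferentiableOn ℂ (Hc z) Dom := by
  have hz0 : (‖z‖ : ℂ) ≠ 0 := by
    rw [Ne, Complex.ofReal_eq_zero, norm_eq_zero]
    exact ne_zero hz
  have h1 : DifferentiableOn ℂ (fun s : ℂ => (‖z‖ : ℂ) ^ (-2 * s)) Dom := by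
    intro s _
    exact ((differentiableAt_id.const_mul (-2 : ℂ)).const_cpow (Or.inl hz0)).differentiableWithinAt
  have h2 : DifferentiableOn ℂ Ez Dom := fun s hs => (Ez_diff hs.2).differentiableWithinAt
  have h3 : DifferentiableOn ℂ (fun s : ℂ => s ^ 2 * (‖z‖ : ℂ) ^ 2 * Ez (s + 1)) Dom := by
    have := (Ez_aux_diff.mono (Set.subset_univ Dom)).const_mul ((‖z‖ : ℂ) ^ 2)
    refine this.congr fun s _ => ?_
    ring
  have h4 : DifferentiableOn ℂ (Rem z) Dom := (Rem_diff hz).mono fun s hs => hs.1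
  exact ((h1.add h2).add h3).add h4

theorem Hc_zero {z : ℂ} (hz : z ∉ LO.lattice) : Hc z 0 = 0 := by
  have h1 : Rem z 0 = 0 := by
    unfold Rem
    refine (tsum_congr fun l => ?_).trans tsum_zero
    by_cases hl : l = 0
    · rw [if_pos hl]
    · rw [if_neg hl, remT_zero (ec_ne_zero hl) (add_ne hz l)]
  unfold Hc
  rw [h1, Ez_zero]
  simp

end MPd9f52e
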