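import Mathlib
import Pool.Agent.Lib.MP_d9f52e_nt.HAna

/-!
# HDer: the derivative at 0  (about 200 lines)

`Rem z` is analytic on `Re s > -1/2` for `z` off the lattice: on `{|s| < R, Re s > -1/2 + e}` the terms with `|l| >= 2|z|`, `l <> 0` are bounded by `C |l|^{-2-2e}` (`remT_bound`, `|l| >= 1`), `summable_lat`; finitely many other terms
(`differentiableOn_tsum_of_summable_norm` for the tail).  `Rem z 0 = 0` (`remT_zero`), derivative termwise (`remT_deriv`; `hasDerivAt_tsum` or Weierstrass: locally uniform limits of analytic functions), and the derivatives are summable.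
`Hc z 0 = 1 + Ez 0 = 0`.  `Hc z` is differentiable on `Dom = {Re s > -1/2, s <> 1}` (`Ez_diff`, `Ez_aux_diff`).
Derivative at 0: `-2 log|z| + E'(0) + |z|^2 r0 + sum_l (-2 log|sigF z l|)`.
-/

set_option autoImplicit false

namespace MPd9f52e

open Complex

/-- only finitely many lattice points are small -/
private theorem ev_large (M : ℝ) : ∀ᶠ l : Eis in Filter.cofinite, M ≤ ‖ec l‖ ∧ l ≠ 0 := by
  have h1 := (summable_lat (p := 3) (by norm_num)).tendsto_cofinite_zero
  have hM : (0 : ℝ) < (|M| + 1) ^ (-3 : ℝ) := by positivity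
  have h2 := h1.eventually (gt_mem_nhds hM)
  have h3 : ∀ᶠ l : Eis in Filter.cofinite, l ≠ 0 := by
    simp
  filter_upwards [h2, h3] with l hl hl0
  refine ⟨?_, hl0⟩
  rw [if_neg hl0] at hl
  have h4 : (0 : ℝ) < ‖ec l‖ := norm_pos_iff.2 (ec_ne_zero hl0)
  by_contra hcon
  push Not at hcon
  have h5 : ‖ec l‖ ≤ |M| + 1 := by linarith [le_abs_self M]
  have h6 : (|M| + 1) ^ (-3 : ℝ) ≤ ‖ec l‖ ^ (-3 : ℝ) :=
    Real.rpow_le_rpow_of_nonpos h4 h5 (by norm_num)
  linarith

private theorem add_ec_ne {z : ℂ} (hz : z ∉ LO.lattice) (l : Eis) : z + ec l ≠ 0 := by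
  intro h
  apply hz
  rw [mem_LO]
  exact ⟨-l, by rw [map_neg]; linear_combination -h⟩

/-- the terms of `Rem` -/
private noncomputable def fT (z : ℂ) (l : Eis) (s : ℂ) : ℂ := if l = 0 then 0 else remT z s (ec l)

private theorem fT_diff {z : ℂ} (hz : z ∉ LO.lattice) (l : Eis) : Differentiable ℂ (fT z l) := by
  by_cases h : l = 0
  · have : fT z l = fun _ => 0 := by funext s; simp [fT, h]
    rw [this]
    exact differentiable_const _
  · have : fT z l = fun s => remT z s (ec l) := by funext s; simp [fT, h]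
    rw [this]
    exact remT_diff (ec_ne_zero h) (add_ec_ne hz l)

private theorem fT_deriv {z : ℂ} (hz : z ∉ LO.lattice) (l : Eis) :
    deriv (fT z l) 0 = ((-2 * Real.log ‖sigF z l‖ : ℝ) : ℂ) := by
  by_cases h : l = 0
  · have : fT z l = fun _ => 0 := by funext s; simp [fT, h]
    rw [this]
    simp [sigF, h]
  · have : fT z l = fun s => remT z s (ec l) := by funext s; simp [fT, h]
    rw [this]
    exact (remT_deriv h (add_ec_ne hz l)).deriv

private theorem rem_hasSum {z : ℂ} (hz : z ∉ LO.lattice) :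
    HasSum (fun l : Eis => ((-2 * Real.log ‖sigF z l‖ : ℝ) : ℂ)) (deriv (Rem z) 0) := by
  obtain ⟨C, hC, hB⟩ := remT_bound z (1 / 4)
  have hbd : ∀ l : Eis, ∃ M : ℝ, ∀ s ∈ Metric.closedBall (0 : ℂ) (1 / 4), ‖fT z l s‖ ≤ M := fun l =>
    (isCompact_closedBall (0 : ℂ) (1 / 4)).exists_bound_of_continuousOn
      (fT_diff hz l).continuous.continuousOn
  choose M hM using hbd
  classical
  let u : Eis → ℝ := fun l => if 2 * ‖z‖ ≤ ‖ec l‖ ∧ l ≠ 0 then
    C * (if l = 0 then (0 : ℝ) else ‖ec l‖ ^ (-(5 / 2 : ℝ))) else M l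
  have hu : Summable u := by
    have h1 : Summable fun l : Eis => C * (if l = 0 then (0 : ℝ) else ‖ec l‖ ^ (-(5 / 2 : ℝ))) :=
      (summable_lat (p := 5 / 2) (by norm_num)).mul_left C
    refine h1.congr_cofinite ?_
    filter_upwards [ev_large (2 * ‖z‖)] with l hl
    simp only [u]
    rw [if_pos hl]
  have hF : ∀ (l : Eis), ∀ s ∈ Metric.ball (0 : ℂ) (1 / 4), ‖fT z l s‖ ≤ u l := by
    intro l s hs
    simp only [u]
    split_ifs with h h'
    · exact absurd h' h.2
    · have h0 : l ≠ 0 := h.2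
      have hs' : ‖s‖ ≤ 1 / 4 := by
        rw [Metric.mem_ball, dist_zero_right] at hs
        exact hs.le
      have h1 : fT z l s = remT z s (ec l) := by simp [fT, h0]
      rw [h1]
      refine (hB s hs' (ec l) (ec_ne_zero h0) h.1).trans (mul_le_mul_of_nonneg_left ?_ hC)
      refine Real.rpow_le_rpow_of_exponent_le (one_le_norm_ec h0) ?_
      have h2 : |s.re| ≤ 1 / 4 := (Complex.abs_re_le_norm s).trans hs'
      have h3 := (abs_le.1 h2).1
      linarith
    · exact hM l s (Metric.ball_subset_closedBall hs)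
  have key := hasSum_deriv_of_summable_norm (U := Metric.ball (0 : ℂ) (1 / 4)) (z := 0)
    (F := fT z) hu (fun l => (fT_diff hz l).differentiableOn) Metric.isOpen_ball hF
    (Metric.mem_ball_self (by norm_num))
  have h1 : (fun l => deriv (fT z l) 0) = fun l : Eis => ((-2 * Real.log ‖sigF z l‖ : ℝ) : ℂ) := by
    funext l
    exact fT_deriv hz l
  rw [h1] at key
  exact key

theorem summable_logF {z : ℂ} (hz : z ∉ LO.lattice) : Summable (fun l : Eis => Real.log ‖sigF z l‖) := by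
  have h1 := (rem_hasSum hz).summable
  rw [Complex.summable_ofReal] at h1
  have h2 := h1.mul_left (-1 / 2)
  refine h2.congr fun l => ?_
  ring

theorem Hc_deriv {z : ℂ} (hz : z ∉ LO.lattice) :
    HasDerivAt (Hc z) (((-2 * Real.log ‖z‖ + r0 * ‖z‖ ^ 2 - 2 * ∑' l : Eis, Real.log ‖sigF z l‖ : ℝ) : ℂ) + deriv Ez 0) 0 := by
  have hz0 : z ≠ 0 := fun h => hz (by rw [h]; exact zero_mem _)
  have hzn : (‖z‖ : ℂ) ≠ 0 := by
    rw [Ne, Complex.ofReal_eq_zero, norm_eq_zero]
    exact hz0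
  -- the first term
  have h1 : HasDerivAt (fun s : ℂ => (‖z‖ : ℂ) ^ (-2 * s)) ((-2 * Real.log ‖z‖ : ℝ) : ℂ) 0 := by
    have h2 : HasDerivAt (fun s : ℂ => -2 * s) (-2) 0 := by
      simpa using (hasDerivAt_id (0 : ℂ)).const_mul (-2)
    have h3 := h2.const_cpow (c := (‖z‖ : ℂ)) (Or.inl hzn)
    refine h3.congr_deriv ?_
    rw [mul_zero, Complex.cpow_zero, one_mul, ← Complex.ofReal_log (norm_nonneg z)]
    push_cast
    ring
  have h2 : HasDerivAt Ez (deriv Ez 0) 0 := (Ez_diff (s := 0) (by norm_num)).hasDerivAt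
  have h3 : HasDerivAt (fun s : ℂ => s ^ 2 * (‖z‖ : ℂ) ^ 2 * Ez (s + 1))
      ((r0 * ‖z‖ ^ 2 : ℝ) : ℂ) 0 := by
    have h4 := Ez_aux_deriv.const_mul ((‖z‖ : ℂ) ^ 2)
    have h5 : (fun s : ℂ => s ^ 2 * (‖z‖ : ℂ) ^ 2 * Ez (s + 1)) =
        fun s : ℂ => (‖z‖ : ℂ) ^ 2 * (s ^ 2 * Ez (s + 1)) := by
      funext s; ring
    rw [h5]
    refine h4.congr_deriv ?_
    push_cast
    ring
  have hopen : IsOpen {s : ℂ | -1 / 2 < s.re} := isOpen_lt continuous_const Complex.continuous_re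
  have h4 : HasDerivAt (Rem z) (deriv (Rem z) 0) 0 :=
    ((Rem_diff hz).differentiableAt (hopen.mem_nhds (by
      simp only [Set.mem_ofPred_eq, Complex.zero_re]; norm_num))).hasDerivAt
  have h5 : deriv (Rem z) 0 = ((-2 * ∑' l : Eis, Real.log ‖sigF z l‖ : ℝ) : ℂ) := by
    rw [← (rem_hasSum hz).tsum_eq, ← Complex.ofReal_tsum, tsum_mul_left]
  rw [h5] at h4
  have h6 := ((h1.add h2).add h3).add h4
  have h7 : (Hc z) = ((((fun s : ℂ => (‖z‖ : ℂ) ^ (-2 * s)) + Ez) +
      fun s : ℂ => s ^ 2 * (‖z‖ : ℂ) ^ 2 * Ez (s + 1)) + Rem z) := by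
    funext s
    simp only [Hc, Pi.add_apply]
  rw [h7]
  refine h6.congr_deriv ?_
  push_cast
  ring

end MPd9f52e
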