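import Mathlib
import Pool.Agent.Lib.MP_d9f52e_nt.HEz

/-!
# SSig: the sigma function

`sigF z l = (1 + x) exp(-x + x^2/2)`, `x = z/l`: `|sigF z l - 1| <= C |x|^3` for `|x| <= 1`. With `summable_lat` (p = 3) the product converges locally uniformly and absolutely,
so `sigma` is entire.  It vanishes exactly on the lattice: `sigF z l = 0` iff `z = -l`; a convergent product of nonzero factors is nonzero.
`sigma` is odd (`l -> -l`).  `sigma z / z -> 1` at 0 (continuity of the product at 0, where it is 1).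
`log|sigma z| = log|z| + sum log|sigF z l|`.
-/

set_option autoImplicit false

namespace MPd9f52e

open Complex

private noncomputable def EE (x : ℂ) : ℂ := (1 + x) * Complex.exp (-x + x ^ 2 / 2)

private lemma EE_bound {x : ℂ} (hx : ‖x‖ ≤ 1) : ‖EE x - 1‖ ≤ 100 * ‖x‖ ^ 3 := by
  have hx0 : 0 ≤ ‖x‖ := norm_nonneg x
  set y : ℂ := -x + x ^ 2 / 2 with hy
  have hyn : ‖y‖ ≤ 3 / 2 * ‖x‖ := by
    calc ‖y‖ ≤ ‖-x‖ + ‖x ^ 2 / 2‖ := norm_add_le _ _
      _ = ‖x‖ + ‖x‖ ^ 2 / 2 := by rw [norm_neg, norm_div, norm_pow]; norm_num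
      _ ≤ 3 / 2 * ‖x‖ := by nlinarith
  have hy1 : ‖y‖ ≤ 3 / 2 := by nlinarith
  have hexp := norm_exp_sub_sum_le_norm_mul_exp y 3
  have hsum : ∑ m ∈ Finset.range 3, y ^ m / (m.factorial : ℂ) = 1 + y + y ^ 2 / 2 := by
    simp [Finset.sum_range_succ, Nat.factorial]
  rw [hsum] at hexp
  have he : Real.exp ‖y‖ ≤ 9 / 2 := by
    have h1 : Real.exp (3 / 2) ≤ 9 / 2 := by
      have h2 := Real.exp_one_lt_d9
      have h3 : Real.exp (3 / 2) ^ 2 = Real.exp 1 ^ 3 := by
        rw [← Real.exp_nat_mul, ← Real.exp_nat_mul]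
        norm_num
      have h4 : Real.exp 1 ^ 3 ≤ (2.72 : ℝ) ^ 3 := by
        apply pow_le_pow_left₀ (Real.exp_pos 1).le
        linarith
      have h5 : Real.exp (3 / 2) ^ 2 ≤ (9 / 2 : ℝ) ^ 2 := by
        rw [h3]
        refine h4.trans ?_
        norm_num
      exact (pow_le_pow_iff_left₀ (Real.exp_pos _).le (by norm_num) (by norm_num)).1 h5
    exact (Real.exp_le_exp.2 hy1).trans h1
  have hR : ‖Complex.exp y - (1 + y + y ^ 2 / 2)‖ ≤ 16 * ‖x‖ ^ 3 := by
    refine hexp.trans ?_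
    have h1 : ‖y‖ ^ 3 ≤ (3 / 2 * ‖x‖) ^ 3 := pow_le_pow_left₀ (norm_nonneg _) hyn 3
    calc ‖y‖ ^ 3 * Real.exp ‖y‖ ≤ (3 / 2 * ‖x‖) ^ 3 * (9 / 2) :=
          mul_le_mul h1 he (Real.exp_pos _).le (by positivity)
      _ ≤ 16 * ‖x‖ ^ 3 := by
          have : 0 ≤ ‖x‖ ^ 3 := by positivity
          nlinarith
  have hid : EE x - 1 = (1 + x) * (Complex.exp y - (1 + y + y ^ 2 / 2)) +
      x ^ 3 * (1 / 2 - 3 / 8 * x + x ^ 2 / 8) := by
    rw [EE, hy]
    ring
  have h1x : ‖1 + x‖ ≤ 2 := (norm_add_le _ _).trans (by rw [norm_one]; linarith)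
  have h2x : ‖(1 / 2 - 3 / 8 * x + x ^ 2 / 8 : ℂ)‖ ≤ 1 := by
    calc ‖(1 / 2 - 3 / 8 * x + x ^ 2 / 8 : ℂ)‖ ≤ ‖(1 / 2 - 3 / 8 * x : ℂ)‖ + ‖x ^ 2 / 8‖ := norm_add_le _ _
      _ ≤ ‖(1 / 2 : ℂ)‖ + ‖(3 / 8 * x : ℂ)‖ + ‖x ^ 2 / 8‖ := by
          gcongr
          exact norm_sub_le _ _
      _ = 1 / 2 + 3 / 8 * ‖x‖ + ‖x‖ ^ 2 / 8 := by
          simp only [norm_mul, norm_div, norm_pow]
          norm_num
      _ ≤ 1 := by nlinarith
  rw [hid]
  calc ‖(1 + x) * (Complex.exp y - (1 + y + y ^ 2 / 2)) + x ^ 3 * (1 / 2 - 3 / 8 * x + x ^ 2 / 8)‖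
      ≤ ‖(1 + x) * (Complex.exp y - (1 + y + y ^ 2 / 2))‖ + ‖x ^ 3 * (1 / 2 - 3 / 8 * x + x ^ 2 / 8)‖ :=
        norm_add_le _ _
    _ ≤ 2 * (16 * ‖x‖ ^ 3) + ‖x‖ ^ 3 * 1 := by
        rw [norm_mul, norm_mul, norm_pow]
        gcongr
    _ ≤ 100 * ‖x‖ ^ 3 := by
        have : 0 ≤ ‖x‖ ^ 3 := by positivity
        linarith

private lemma sigF_eq {z : ℂ} {l : Eis} (hl : l ≠ 0) : sigF z l = EE (z / ec l) := by
  rw [sigF, if_neg hl, EE]
  congr 2
  have h := ec_ne_zero hl
  field_simp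

private noncomputable def uu (R : ℝ) (l : Eis) : ℝ :=
  (100 * R ^ 3) * (if l = 0 then (0 : ℝ) else ‖ec l‖ ^ (-(3 : ℝ)))

private lemma uu_summable (R : ℝ) : Summable (uu R) :=
  (summable_lat (p := 3) (by norm_num)).mul_left _

private lemma eventually_large (R : ℝ) : ∀ᶠ l : Eis in Filter.cofinite, l ≠ 0 ∧ R ≤ ‖ec l‖ := by
  have h := (summable_lat (p := 3) (by norm_num)).tendsto_cofinite_zero
  have hR : 0 < (max R 1) ^ (-(3 : ℝ)) := by positivity
  have h1 := h.eventually_lt_const hR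
  have h2 : ∀ᶠ l : Eis in Filter.cofinite, l ≠ 0 := by
    rw [Filter.eventually_cofinite]
    simp
  filter_upwards [h1, h2] with l hl hl0
  refine ⟨hl0, ?_⟩
  rw [if_neg hl0] at hl
  by_contra hcon
  push Not at hcon
  have h3 : ‖ec l‖ < max R 1 := lt_of_lt_of_le hcon (le_max_left _ _)
  have h4 : 0 < ‖ec l‖ := norm_pos_iff.2 (ec_ne_zero hl0)
  have h5 : (max R 1) ^ (-(3 : ℝ)) < ‖ec l‖ ^ (-(3 : ℝ)) :=
    Real.rpow_lt_rpow_of_neg h4 h3 (by norm_num)
  exact absurd hl (not_lt.2 h5.le)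

private lemma sigF_bound (R : ℝ) : ∀ᶠ l : Eis in Filter.cofinite,
    ∀ z ∈ Metric.ball (0 : ℂ) R, ‖sigF z l - 1‖ ≤ uu R l := by
  filter_upwards [eventually_large R] with l hl z hz
  obtain ⟨hl0, hlR⟩ := hl
  have hz' : ‖z‖ < R := by simpa using hz
  have h4 : 0 < ‖ec l‖ := norm_pos_iff.2 (ec_ne_zero hl0)
  have hx : ‖z / ec l‖ ≤ 1 := by
    rw [norm_div, div_le_one h4]
    linarith
  rw [sigF_eq hl0, uu, if_neg hl0]
  refine (EE_bound hx).trans ?_
  rw [norm_div, Real.rpow_neg h4.le, div_pow]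
  have h5 : ‖ec l‖ ^ (3 : ℝ) = ‖ec l‖ ^ 3 := by
    rw [← Real.rpow_natCast]; norm_num
  rw [h5, mul_assoc, ← div_eq_mul_inv]
  gcongr

private lemma sigF_diff (l : Eis) : Differentiable ℂ (fun z => sigF z l - 1) := by
  by_cases hl : l = 0
  · have : (fun z => sigF z l - 1) = fun _ => (0 : ℂ) := by
      funext z; rw [sigF, if_pos hl, sub_self]
    rw [this]
    exact differentiable_const _
  · have : (fun z => sigF z l - 1) = fun z => (1 + z / ec l) *
        Complex.exp (-(z / ec l) + z ^ 2 / (2 * ec l ^ 2)) - 1 := by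
      funext z; rw [sigF, if_neg hl]
    rw [this]
    fun_prop

private noncomputable def PP (z : ℂ) : ℂ := ∏' l : Eis, sigF z l

private lemma PP_eq (z : ℂ) : PP z = ∏' l : Eis, (1 + (sigF z l - 1)) := by
  rw [PP]
  congr 1
  funext l
  ring

private lemma PP_diff : Differentiable ℂ PP := by
  intro z
  have h1 := (uu_summable (‖z‖ + 1)).hasProdLocallyUniformlyOn_one_add
    (f := fun l z => sigF z l - 1) (K := Metric.ball (0 : ℂ) (‖z‖ + 1)) Metric.isOpen_ball
    (sigF_bound _) (fun l => (sigF_diff l).continuous.continuousOn)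
  have h2 : DifferentiableOn ℂ (fun z => ∏' l : Eis, (1 + (sigF z l - 1))) (Metric.ball (0 : ℂ) (‖z‖ + 1)) :=
    h1.differentiableOn (Filter.Eventually.of_forall fun s => by
      have h3 : DifferentiableOn ℂ (fun z => ∏ l ∈ s, (1 + (sigF z l - 1))) (Metric.ball (0 : ℂ) (‖z‖ + 1)) := by
        refine DifferentiableOn.fun_finsetProd fun l _ => ?_
        exact ((differentiable_const (1 : ℂ)).add (sigF_diff l)).differentiableOn
      exact h3) Metric.isOpen_ball
  have h3 : PP = fun z => ∏' l : Eis, (1 + (sigF z l - 1)) := funext PP_eq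
  rw [h3]
  exact h2.differentiableAt (Metric.isOpen_ball.mem_nhds (by simp))

private lemma sigma_eq (z : ℂ) : sigma z = z * PP z := rfl

private lemma sum_norm (z : ℂ) : Summable (fun l : Eis => ‖sigF z l - 1‖) := by
  refine (uu_summable (‖z‖ + 1)).of_norm_bounded_eventually ?_
  filter_upwards [sigF_bound (‖z‖ + 1)] with l hl
  rw [norm_norm]
  exact hl z (by simp)

private lemma sigF_ne_zero {z : ℂ} (hz : z ∉ LO.lattice) (l : Eis) : sigF z l ≠ 0 := by
  by_cases hl : l = 0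
  · rw [sigF, if_pos hl]; exact one_ne_zero
  · rw [sigF, if_neg hl]
    refine mul_ne_zero ?_ (Complex.exp_ne_zero _)
    intro h
    apply hz
    rw [mem_LO]
    refine ⟨-l, ?_⟩
    rw [map_neg]
    have h1 := ec_ne_zero hl
    field_simp at h
    linear_combination -h

theorem sigma_diff : Differentiable ℂ sigma := differentiable_id.mul PP_diff

theorem sigma_eq_zero (z : ℂ) : sigma z = 0 ↔ z ∈ LO.lattice := by
  constructor
  · intro h
    by_contra hz
    have hz0 : z ≠ 0 := by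
      rintro rfl
      exact hz (zero_mem _)
    rw [sigma_eq, mul_eq_zero] at h
    rcases h with h | h
    · exact hz0 h
    · rw [PP_eq] at h
      refine tprod_one_add_ne_zero_of_summable (f := fun l => sigF z l - 1) (fun l => ?_) (sum_norm z) h
      have := sigF_ne_zero hz l
      simpa using this
  · intro h
    rw [mem_LO] at h
    obtain ⟨b, rfl⟩ := h
    by_cases hb : b = 0
    · rw [hb, map_zero, sigma_eq, zero_mul]
    · rw [sigma_eq, PP]
      have h1 : ∃ l, sigF (ec b) l = 0 := by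
        refine ⟨-b, ?_⟩
        rw [sigF, if_neg (neg_ne_zero.2 hb), map_neg]
        have := ec_ne_zero hb
        rw [div_neg, div_self this]
        ring
      rw [tprod_of_exists_eq_zero h1, mul_zero]

private lemma PP_neg (z : ℂ) : PP (-z) = PP z := by
  rw [PP, PP, ← (Equiv.neg Eis).tprod_eq]
  congr 1
  funext l
  simp only [Equiv.neg_apply]
  by_cases hl : l = 0
  · rw [sigF, sigF, if_pos hl, if_pos (by rw [hl, neg_zero])]
  · rw [sigF_eq hl, sigF_eq (neg_ne_zero.2 hl), map_neg, neg_div_neg_eq]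

private lemma om_unit : IsUnit om := (unit_iff om).2 nm_om

private lemma PP_om (z : ℂ) : PP (w * z) = PP z := by
  rw [PP, PP, ← (Units.mulLeft om_unit.unit).tprod_eq]
  congr 1
  funext l
  simp only [Units.mulLeft_apply, IsUnit.unit_spec]
  have hw : w ≠ 0 := by
    intro h
    have := w_pow_three
    rw [h] at this
    norm_num at this
  by_cases hl : l = 0
  · rw [sigF, sigF, if_pos hl, if_pos (by rw [hl, mul_zero])]
  · have h2 : om * l ≠ 0 := by
      intro h
      have h3 := congrArg nm h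
      rw [nm_mul, nm_om, one_mul, (nm_eq_zero 0).2 rfl, nm_eq_zero] at h3
      exact hl h3
    rw [sigF_eq hl, sigF_eq h2, map_mul, ec_om, mul_div_mul_left _ _ hw]

theorem sigma_neg (z : ℂ) : sigma (-z) = -sigma z := by
  rw [sigma_eq, sigma_eq, PP_neg]
  ring

theorem sigma_om (z : ℂ) : sigma (w * z) = w * sigma z := by
  rw [sigma_eq, sigma_eq, PP_om]
  ring

private lemma PP_zero : PP 0 = 1 := by
  rw [PP]
  have : (fun l : Eis => sigF 0 l) = fun _ => 1 := by
    funext l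
    by_cases hl : l = 0
    · rw [sigF, if_pos hl]
    · rw [sigF_eq hl, EE]
      simp
  rw [this, tprod_one]

theorem sigma_lim : Filter.Tendsto (fun z => sigma z / z) (nhdsWithin 0 {0}ᶜ) (nhds 1) := by
  have h1 : Filter.Tendsto PP (nhdsWithin 0 {0}ᶜ) (nhds 1) := by
    have h2 := PP_diff.continuous.tendsto 0
    rw [PP_zero] at h2
    exact h2.mono_left nhdsWithin_le_nhds
  refine h1.congr' ?_
  filter_upwards [self_mem_nhdsWithin] with z hz
  have hz0 : z ≠ 0 := hz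
  rw [sigma_eq, mul_div_cancel_left₀ _ hz0]

theorem sigma_log {z : ℂ} (hz : z ∉ LO.lattice) :
    Real.log ‖sigma z‖ = Real.log ‖z‖ + ∑' l : Eis, Real.log ‖sigF z l‖ := by
  have hz0 : z ≠ 0 := by
    rintro rfl
    exact hz (zero_mem _)
  have hne : ∀ l, 1 + (sigF z l - 1) ≠ 0 := by
    intro l
    have := sigF_ne_zero hz l
    simpa using this
  have hP : PP z ≠ 0 := by
    rw [PP_eq]
    exact tprod_one_add_ne_zero_of_summable hne (sum_norm z)
  rw [sigma_eq, norm_mul, Real.log_mul (norm_ne_zero_iff.2 hz0) (norm_ne_zero_iff.2 hP)]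
  congr 1
  have h1 : ‖PP z‖ = ∏' l : Eis, ‖1 + (sigF z l - 1)‖ := by
    rw [PP_eq, Multipliable.norm_tprod]
    exact multipliable_one_add_of_summable (sum_norm z)
  rw [h1, ← Real.rexp_tsum_eq_tprod (fun l => norm_pos_iff.2 (hne l)) (sum_norm z).summable_log_norm_one_add,
    Real.log_exp]
  congr 1
  funext l
  rw [add_sub_cancel]

end MPd9f52e
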