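import Mathlib
import Pool.Agent.Lib.MP_d9f52e_nt.SSig
import Pool.Agent.Lib.MP_d9f52e_nt.HDer

/-!
# SPhi: the function phi  (about 120 lines; periodicity, conjugation, distribution are in SInv)

`phi_eq`: from `Hc_deriv` and `sigma_log` (on the lattice both sides are 0).  Positivity clear.
Identity theorem: if `F, G` are differentiable on the connected open set `Dom` and agree for `Re s > 1` then `F = G` on `Dom` and `deriv F 0 = deriv G 0`.
* `Hc (z + ec b) s = Hc z s`, `Hc (w z) s = Hc z s`, `Hc (-z) s`, `Hc (conj z) s`: from the series (reindexing of `Eis` by `l -> l + b`, `om l`, `-l`, `star l`).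
* `sum_{r in S} Hc (z + ec r/ec b) s = |b|^{2s} Hc (b z) s` if `b z` is off the lattice (every `l'` in `Eis` is uniquely `r + b l`, `r in S`: `|z + r/b + l| = |b z + (r + b l)| / |b|`).  Derivative at 0, using `Hc (bz) 0 = 0`: `sum_r H'(0, z + r/b) = H'(0, bz)`.
  If `bz` is in the lattice both sides of `phi_dist` vanish (`z + r/b` is in the lattice for one `r` in `S`).
* `Hc_deriv_eq`: `deriv (Hc z) 0` is real: `conj (Hc z (conj s)) = Hc z s` (series + identity theorem), so the derivative at 0 is real and equals `-2 log phi z`.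
`phi_om`, `phi_neg`: from `phi_eq`, `sigma_om`, `sigma_neg`; `phi_unit` from `units_eq`.
-/

set_option autoImplicit false

namespace MPd9f52e

open Complex

theorem phi_eq (z : ℂ) : phi z = c0 * ‖sigma z‖ * Real.exp (-(r0 * ‖z‖ ^ 2 / 2)) := by
  classical
  by_cases hz : z ∈ LO.lattice
  · rw [phi, if_pos hz, (sigma_eq_zero z).2 hz, norm_zero]
    ring
  · have hs : sigma z ≠ 0 := fun h => hz ((sigma_eq_zero z).1 h)
    have h1 := (Hc_deriv hz).deriv
    have h2 := sigma_log hz
    rw [phi, if_neg hz, h1, Complex.add_re, Complex.ofReal_re]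
    have h3 : -((-2 * Real.log ‖z‖ + r0 * ‖z‖ ^ 2 - 2 * ∑' l : Eis, Real.log ‖sigF z l‖) +
        (deriv Ez 0).re) / 2 =
        (-(deriv Ez 0).re / 2) + Real.log ‖sigma z‖ + (-(r0 * ‖z‖ ^ 2 / 2)) := by
      rw [h2]
      ring
    rw [h3, Real.exp_add, Real.exp_add, Real.exp_log (norm_pos_iff.2 hs), c0]

theorem c0_pos : 0 < c0 := Real.exp_pos _

theorem r0_pos : 0 < r0 := by
  rw [r0]
  have := Real.pi_pos
  positivity

theorem phi_pos {z : ℂ} (hz : z ∉ LO.lattice) : 0 < phi z := by
  rw [phi, if_neg hz]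
  exact Real.exp_pos _

theorem phi_eq_zero {z : ℂ} (hz : z ∈ LO.lattice) : phi z = 0 := by
  rw [phi, if_pos hz]

theorem phi_om (z : ℂ) : phi (w * z) = phi z := by
  rw [phi_eq, phi_eq, sigma_om, norm_mul, norm_mul, norm_w, one_mul, one_mul]

theorem phi_neg (z : ℂ) : phi (-z) = phi z := by
  rw [phi_eq, phi_eq, sigma_neg, norm_neg, norm_neg]

private theorem phi_pow (j : ℕ) (z : ℂ) : phi (w ^ j * z) = phi z := by
  induction j with
  | zero => rw [pow_zero, one_mul]
  | succ j ih => rw [pow_succ', mul_assoc, phi_om, ih]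

theorem phi_unit (ε : Eisˣ) (z : ℂ) : phi (ec ε * z) = phi z := by
  obtain ⟨j, -, h | h⟩ := units_eq ε
  · rw [h, map_pow, ec_om, phi_pow]
  · rw [h, map_neg, map_pow, ec_om, neg_mul, phi_neg, phi_pow]

end MPd9f52e
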