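import Mathlib
import Pool.Agent.Lib.MP_d9f52e_nt.SPhi
import Pool.Agent.Lib.MP_d9f52e_nt.HSer

/-!
# SInv: invariance and distribution of phi  (about 250 lines)

`phi_eq`: from `Hc_deriv` and `sigma_log` (on the lattice both sides are 0).  Positivity clear.
Identity theorem: if `F, G` are differentiable on the connected open set `Dom` and agree for `Re s > 1` then `F = G` on `Dom` and `deriv F 0 = deriv G 0`.
* `Hc (z + ec b) s = Hc z s`, `Hc (w z) s = Hc z s`, `Hc (-z) s`, `Hc (conj z) s`: from the series (reindexing of `Eis` by `l -> l + b`, `om l`, `-l`, `star l`).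
* `sum_{r in S} Hc (z + ec r/ec b) s = |b|^{2s} Hc (b z) s` if `b z` is off the lattice (every `l'` in `Eis` is uniquely `r + b l`, `r in S`: `|z + r/b + l| = |b z + (r + b l)| / |b|`).  Derivative at 0, using `Hc (bz) 0 = 0`: `sum_r H'(0, z + r/b) = H'(0, bz)`.
  If `bz` is in the lattice both sides of `phi_dist` vanish (`z + r/b` is in the lattice for one `r` in `S`).
* `Hc_deriv_eq`: `deriv (Hc z) 0` is real: `conj (Hc z (conj s)) = Hc z s` (series + identity theorem), so the derivative at 0 is real and equals `-2 log phi z`.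
-/

set_option autoImplicit false

namespace MPd9f52e

open Complex

private theorem isOpen_Dom : IsOpen Dom := by
  have h1 : IsOpen {s : ℂ | -1 / 2 < s.re} := isOpen_lt continuous_const Complex.continuous_re
  have h2 : IsOpen {s : ℂ | s ≠ 1} := isOpen_ne
  exact h1.inter h2

private theorem preconn_Dom : IsPreconnected Dom := by
  have c1 : Convex ℝ {s : ℂ | 1 < s.re} := convex_halfSpace_re_gt 1
  have c2 : Convex ℝ ({s : ℂ | -1 / 2 < s.re} ∩ {s : ℂ | 0 < s.im}) :=
    (convex_halfSpace_re_gt _).inter (convex_halfSpace_im_gt _)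
  have c3 : Convex ℝ ({s : ℂ | -1 / 2 < s.re} ∩ {s : ℂ | s.im < 0}) :=
    (convex_halfSpace_re_gt _).inter (convex_halfSpace_im_lt _)
  have c4 : Convex ℝ ({s : ℂ | -1 / 2 < s.re} ∩ {s : ℂ | s.re < 1}) :=
    (convex_halfSpace_re_gt _).inter (convex_halfSpace_re_lt _)
  have u1 := IsPreconnected.union (⟨2, 1⟩ : ℂ) (by show (1 : ℝ) < 2; norm_num)
    (by constructor <;> simp <;> norm_num) c1.isPreconnected c2.isPreconnected
  have u2 := IsPreconnected.union (⟨2, -1⟩ : ℂ) (Or.inl (by show (1 : ℝ) < 2; norm_num))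
    (by constructor <;> simp <;> norm_num) u1 c3.isPreconnected
  have u3 := IsPreconnected.union (⟨0, 1⟩ : ℂ) (Or.inl (Or.inr (by constructor <;> simp <;> norm_num)))
    (by constructor <;> simp <;> norm_num) u2 c4.isPreconnected
  convert u3 using 1
  ext s
  simp only [Dom, Set.mem_ofPred_eq, Set.mem_union, Set.mem_inter_iff]
  constructor
  · rintro ⟨h1, h2⟩
    rcases lt_trichotomy s.im 0 with h | h | h
    · exact Or.inl (Or.inr ⟨h1, h⟩)
    · rcases lt_trichotomy s.re 1 with h' | h' | h'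
      · exact Or.inr ⟨h1, h'⟩
      · exact absurd (Complex.ext h' h) h2
      · exact Or.inl (Or.inl (Or.inl h'))
    · exact Or.inl (Or.inl (Or.inr ⟨h1, h⟩))
  · rintro (((h | ⟨h1, h⟩) | ⟨h1, h⟩) | ⟨h1, h⟩)
    · exact ⟨by linarith, by rintro rfl; simp at h⟩
    · exact ⟨h1, by rintro rfl; simp at h⟩
    · exact ⟨h1, by rintro rfl; simp at h⟩
    · exact ⟨h1, by rintro rfl; simp at h⟩

private theorem ident {F G : ℂ → ℂ} (hF : DifferentiableOn ℂ F Dom)
    (hG : DifferentiableOn ℂ G Dom) (h : ∀ s : ℂ, 1 < s.re → F s = G s) : Set.EqOn F G Dom := by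
  have hFa := hF.analyticOnNhd isOpen_Dom
  have hGa := hG.analyticOnNhd isOpen_Dom
  have h2 : (2 : ℂ) ∈ Dom := ⟨by norm_num, by norm_num⟩
  refine hFa.eqOn_of_preconnected_of_eventuallyEq hGa preconn_Dom h2 ?_
  have h3 : {s : ℂ | 1 < s.re} ∈ nhds (2 : ℂ) :=
    (isOpen_lt continuous_const Complex.continuous_re).mem_nhds (by simp)
  filter_upwards [h3] with s hs
  exact h s hs

private theorem zero_mem_Dom : (0 : ℂ) ∈ Dom := ⟨by norm_num, by norm_num⟩

private theorem ident_deriv {F G : ℂ → ℂ} (hF : DifferentiableOn ℂ F Dom)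
    (hG : DifferentiableOn ℂ G Dom) (h : ∀ s : ℂ, 1 < s.re → F s = G s) :
    deriv F 0 = deriv G 0 := by
  refine Filter.EventuallyEq.deriv_eq ?_
  filter_upwards [isOpen_Dom.mem_nhds zero_mem_Dom] with s hs
  exact ident hF hG h hs

private theorem add_ec_mem (z : ℂ) (b : Eis) : z + ec b ∈ LO.lattice ↔ z ∈ LO.lattice := by
  rw [mem_LO, mem_LO]
  constructor
  · rintro ⟨c, hc⟩
    exact ⟨c - b, by rw [map_sub, hc, add_sub_cancel_right]⟩
  · rintro ⟨c, hc⟩
    exact ⟨c + b, by rw [map_add, hc]⟩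

private theorem conj_mem (z : ℂ) : (starRingEnd ℂ) z ∈ LO.lattice ↔ z ∈ LO.lattice := by
  rw [mem_LO, mem_LO]
  constructor
  · rintro ⟨c, hc⟩
    exact ⟨star c, by rw [ec_star, hc, Complex.conj_conj]⟩
  · rintro ⟨c, hc⟩
    exact ⟨star c, by rw [ec_star, hc]⟩

theorem phi_add (z : ℂ) (b : Eis) : phi (z + ec b) = phi z := by
  by_cases hz : z ∈ LO.lattice
  · rw [phi_eq_zero hz, phi_eq_zero ((add_ec_mem z b).2 hz)]
  have hz' : z + ec b ∉ LO.lattice := fun h => hz ((add_ec_mem z b).1 h)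
  unfold phi
  rw [if_neg hz, if_neg hz']
  have key : deriv (Hc (z + ec b)) 0 = deriv (Hc z) 0 := by
    refine ident_deriv (Hc_diff hz') (Hc_diff hz) fun s hs => ?_
    have h1 := Hc_hasSum hz' hs
    have h2 := (Equiv.hasSum_iff (Equiv.addLeft b)).2 (Hc_hasSum hz hs)
    refine h1.unique ?_
    convert h2 using 2 with l
    simp only [Function.comp, Equiv.coe_addLeft, map_add, add_assoc]
  rw [key]

theorem phi_conj (z : ℂ) : phi ((starRingEnd ℂ) z) = phi z := by
  by_cases hz : z ∈ LO.lattice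
  · rw [phi_eq_zero hz, phi_eq_zero ((conj_mem z).2 hz)]
  have hz' : (starRingEnd ℂ) z ∉ LO.lattice := fun h => hz ((conj_mem z).1 h)
  unfold phi
  rw [if_neg hz, if_neg hz']
  have key : deriv (Hc ((starRingEnd ℂ) z)) 0 = deriv (Hc z) 0 := by
    refine ident_deriv (Hc_diff hz') (Hc_diff hz) fun s hs => ?_
    have h1 := Hc_hasSum hz' hs
    have h2 := (Equiv.hasSum_iff (star_involutive (R := Eis)).toPerm).2 (Hc_hasSum hz hs)
    refine h1.unique ?_
    convert h2 using 2 with l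
    simp only [Function.comp, Function.Involutive.coe_toPerm]
    have h3 : ‖(starRingEnd ℂ) z + ec l‖ = ‖z + ec (star l)‖ := by
      rw [← Complex.norm_conj, map_add, Complex.conj_conj, ec_star]
    rw [h3]
  rw [key]

theorem phi_dist {b : Eis} (hb : b ≠ 0) {S : Finset Eis} (hS : IsCRS b S) (z : ℂ) :
    ∏ r ∈ S, phi (z + ec r / ec b) = phi (ec b * z) := by
  classical
  have hb0 : ec b ≠ 0 := ec_ne_zero hb
  by_cases hz : ec b * z ∈ LO.lattice
  · rw [phi_eq_zero hz]
    obtain ⟨c, hc⟩ := (mem_LO _).1 hz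
    obtain ⟨r, hr, k, hk⟩ := hS.2 (-c)
    refine Finset.prod_eq_zero hr (phi_eq_zero ?_)
    rw [mem_LO]
    refine ⟨-k, ?_⟩
    have h1 : ec (-c) - ec r = ec b * ec k := by rw [← map_sub, hk, map_mul]
    rw [map_neg] at h1 ⊢
    field_simp
    linear_combination h1 + hc
  have hr : ∀ r : Eis, z + ec r / ec b ∉ LO.lattice := by
    intro r h
    obtain ⟨c, hc⟩ := (mem_LO _).1 h
    apply hz
    rw [mem_LO]
    refine ⟨b * c - r, ?_⟩
    rw [map_sub, map_mul, hc]
    field_simp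
    ring
  have hbn : (‖ec b‖ : ℂ) ≠ 0 := by
    rw [Ne, Complex.ofReal_eq_zero, norm_eq_zero]
    exact hb0
  -- the bijection
  let e : {r // r ∈ S} × Eis → Eis := fun x => x.1.1 + b * x.2
  have he : Function.Bijective e := by
    constructor
    · rintro ⟨⟨r, hr⟩, l⟩ ⟨⟨r', hr'⟩, l'⟩ h
      have h0 : r + b * l = r' + b * l' := h
      have h1 : r = r' := hS.1 r hr r' hr' ⟨l' - l, by linear_combination h0⟩
      subst h1
      have h2 : b * l = b * l' := add_left_cancel h0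
      have h3 : ec l = ec l' := mul_left_cancel₀ hb0 (by rw [← map_mul, ← map_mul, h2])
      rw [ec_inj h3]
    · intro x
      obtain ⟨r, hr, k, hk⟩ := hS.2 x
      exact ⟨(⟨r, hr⟩, k), by show r + b * k = x; rw [← hk]; ring⟩
  have hdist : ∀ s : ℂ, 1 < s.re → ∑ r ∈ S, Hc (z + ec r / ec b) s =
      (‖ec b‖ : ℂ) ^ (2 * s) * Hc (ec b * z) s := by
    intro s hs
    have h1 := (Equiv.hasSum_iff (Equiv.ofBijective e he)).2
      ((Hc_hasSum hz hs).mul_left ((‖ec b‖ : ℂ) ^ (2 * s)))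
    have h2 : ∀ r : {r // r ∈ S}, HasSum (fun l : Eis =>
        ((fun l : Eis => (‖ec b‖ : ℂ) ^ (2 * s) * (‖ec b * z + ec l‖ : ℂ) ^ (-2 * s)) ∘
          (Equiv.ofBijective e he)) (r, l)) (Hc (z + ec r.1 / ec b) s) := by
      intro r
      convert Hc_hasSum (hr r.1) hs using 2 with l
      simp only [Function.comp, Equiv.ofBijective_apply, e]
      have h3 : ‖ec b * z + ec (r.1 + b * l)‖ = ‖ec b‖ * ‖z + ec r.1 / ec b + ec l‖ := by
        rw [← norm_mul]
        congr 1
        rw [map_add, map_mul]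
        field_simp
        ring
      rw [h3, Complex.ofReal_mul, Complex.mul_cpow_ofReal_nonneg (norm_nonneg _) (norm_nonneg _),
        ← mul_assoc, ← Complex.cpow_add _ _ hbn]
      rw [show 2 * s + -2 * s = 0 by ring, Complex.cpow_zero, one_mul]
    have h3 := h1.prod_fiberwise h2
    have h4 := hasSum_fintype (fun r : {r // r ∈ S} => Hc (z + ec r.1 / ec b) s)
    have h5 := h4.unique h3
    rw [← h5]
    exact (Finset.sum_coe_sort S (fun r => Hc (z + ec r / ec b) s)).symm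
  have hd1 : DifferentiableOn ℂ (fun s => ∑ r ∈ S, Hc (z + ec r / ec b) s) Dom :=
    DifferentiableOn.fun_sum fun r _ => Hc_diff (hr r)
  have hcp : Differentiable ℂ (fun s : ℂ => (‖ec b‖ : ℂ) ^ (2 * s)) := fun s =>
    (differentiableAt_id.const_mul (2 : ℂ)).const_cpow (Or.inl hbn)
  have hd2 : DifferentiableOn ℂ (fun s => (‖ec b‖ : ℂ) ^ (2 * s) * Hc (ec b * z) s) Dom :=
    hcp.differentiableOn.mul (Hc_diff hz)
  have hD := ident_deriv hd1 hd2 hdist
  have hat : ∀ {y : ℂ}, y ∉ LO.lattice → DifferentiableAt ℂ (Hc y) 0 := fun hy =>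
    ((Hc_diff hy) 0 zero_mem_Dom).differentiableAt (isOpen_Dom.mem_nhds zero_mem_Dom)
  rw [deriv_fun_sum (fun r _ => hat (hr r)), deriv_fun_mul (hcp 0) (hat hz), Hc_zero hz,
    mul_zero, zero_add, mul_zero, Complex.cpow_zero, one_mul] at hD
  unfold phi
  rw [if_neg hz, Finset.prod_congr rfl (fun r _ => if_neg (hr r)), ← Real.exp_sum, ← hD]
  congr 1
  rw [Complex.re_sum, ← Finset.sum_div, ← Finset.sum_neg_distrib]

theorem Hc_deriv_eq {z : ℂ} (hz : z ∉ LO.lattice) : deriv (Hc z) 0 = ((-2 * Real.log (phi z) : ℝ) : ℂ) := by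
  have hat : DifferentiableAt ℂ (Hc z) 0 :=
    ((Hc_diff hz) 0 zero_mem_Dom).differentiableAt (isOpen_Dom.mem_nhds zero_mem_Dom)
  -- the derivative is real
  have hconj_mem : ∀ s : ℂ, s ∈ Dom → (starRingEnd ℂ) s ∈ Dom := by
    rintro s ⟨h1, h2⟩
    refine ⟨by rwa [Complex.conj_re], fun h => h2 ?_⟩
    rw [← Complex.conj_conj s, h, map_one]
  have hG : DifferentiableOn ℂ ((starRingEnd ℂ) ∘ Hc z ∘ (starRingEnd ℂ)) Dom := by
    intro s hs
    have h1 : DifferentiableAt ℂ (Hc z) ((starRingEnd ℂ) s) :=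
      ((Hc_diff hz) _ (hconj_mem s hs)).differentiableAt (isOpen_Dom.mem_nhds (hconj_mem s hs))
    have h2 := h1.hasDerivAt.conj_conj
    rw [Complex.conj_conj] at h2
    exact h2.differentiableAt.differentiableWithinAt
  have hEq : deriv ((starRingEnd ℂ) ∘ Hc z ∘ (starRingEnd ℂ)) 0 = deriv (Hc z) 0 := by
    refine ident_deriv hG (Hc_diff hz) fun s hs => ?_
    have hs' : 1 < ((starRingEnd ℂ) s).re := by rwa [Complex.conj_re]
    have h1 := (Complex.hasSum_conj' (f := fun l : Eis => (starRingEnd ℂ) ((‖z + ec l‖ : ℂ) ^ (-2 * (starRingEnd ℂ) s)))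
      (x := (starRingEnd ℂ) (Hc z ((starRingEnd ℂ) s)))).1 (by
        simpa only [Complex.conj_conj] using Hc_hasSum hz hs')
    refine h1.unique ?_
    convert Hc_hasSum hz hs using 2 with l
    have h2 := Complex.cpow_conj (‖z + ec l‖ : ℂ) (-2 * s) (by
      rw [Complex.arg_ofReal_of_nonneg (norm_nonneg _)]
      exact Real.pi_pos.ne)
    rw [map_mul, map_neg, Complex.conj_ofNat] at h2
    rw [h2, Complex.conj_conj, Complex.conj_ofReal]
  have h3 := hat.hasDerivAt
  have h4 : HasDerivAt ((starRingEnd ℂ) ∘ Hc z ∘ (starRingEnd ℂ))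
      ((starRingEnd ℂ) (deriv (Hc z) 0)) 0 := by
    have := h3.conj_conj
    rwa [map_zero] at this
  rw [h4.deriv] at hEq
  have h5 : (((deriv (Hc z) 0).re : ℝ) : ℂ) = deriv (Hc z) 0 := Complex.conj_eq_iff_re.1 hEq
  have h6 : -2 * Real.log (phi z) = (deriv (Hc z) 0).re := by
    unfold phi
    rw [if_neg hz, Real.log_exp]
    ring
  rw [h6, h5]

end MPd9f52e
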