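import Mathlib
import Pool.Agent.Lib.MP_d9f52e_nt.SInv
import Pool.Agent.Lib.MP_d9f52e_nt.ERes

/-!
# SVal: special values of phi  (about 200 lines)

`prod_phi`: let `z -> 0` in `phi_dist`: `phi (b z)/phi z -> |b|` (by `phi_eq`, `sigma_lim`) and `phi` is continuous (`phi_eq`); the factor of the class of 0 is `phi z`.
`phi_half`: `b = 2`, the three nonzero classes `1, om, om^2` have the same `phi` (`phi_om`): `phi(1/2)^3 = 2`.
`phi_t0`: `b = s3`, classes `0, 1, -1`: `phi(1/s3)^2 = |s3| = sqrt 3`.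
`phi_t0_half`: `phi_dist` with `b = 2`, `z = 1/s3`: `phi(z) phi(z+1/2) phi(z+w/2) phi(z+w^2/2) = phi(2z) = phi(-z + 3z)`, `2 z = -z + 3 z`, `3/s3 = -s3` is in the lattice, so `= phi(z)`; `w z = z mod lattice` ((w-1)/s3 is in the lattice), so `phi(z + w/2) = phi(w z + w/2) = phi(z+1/2)`, the same for `w^2`:
`phi(z+1/2)^3 = 1`.  `phi(z - 1/2) = phi(z + 1/2)` (periodicity).
-/

set_option autoImplicit false

namespace MPd9f52e

open Complex

theorem phi_cont : Continuous phi := by
  have h : phi = fun z => c0 * ‖sigma z‖ * Real.exp (-(r0 * ‖z‖ ^ 2 / 2)) := funext phi_eq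
  rw [h]
  have hs : Continuous sigma := sigma_diff.continuous
  fun_prop

theorem SVal_lim : Filter.Tendsto (fun z => phi z / ‖z‖) (nhdsWithin 0 {0}ᶜ) (nhds c0) := by
  have h1 : Filter.Tendsto (fun z => c0 * ‖sigma z / z‖ * Real.exp (-(r0 * ‖z‖ ^ 2 / 2)))
      (nhdsWithin 0 {0}ᶜ) (nhds (c0 * ‖(1 : ℂ)‖ * Real.exp (-(r0 * ‖(0 : ℂ)‖ ^ 2 / 2)))) := by
    refine Filter.Tendsto.mul (Filter.Tendsto.mul tendsto_const_nhds sigma_lim.norm) ?_
    have hc : Continuous (fun z : ℂ => Real.exp (-(r0 * ‖z‖ ^ 2 / 2))) := by fun_prop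
    exact (hc.tendsto 0).mono_left nhdsWithin_le_nhds
  have h2 : c0 * ‖(1 : ℂ)‖ * Real.exp (-(r0 * ‖(0 : ℂ)‖ ^ 2 / 2)) = c0 := by simp
  rw [h2] at h1
  refine h1.congr (fun z => ?_)
  rw [phi_eq, norm_div]
  ring

theorem SVal_lim_mul {b : Eis} (hb : b ≠ 0) :
    Filter.Tendsto (fun z => phi (ec b * z) / ‖z‖) (nhdsWithin 0 {0}ᶜ) (nhds (c0 * ‖ec b‖)) := by
  have hb' : ec b ≠ 0 := ec_ne_zero hb
  have ht : Filter.Tendsto (fun z : ℂ => ec b * z) (nhdsWithin 0 {0}ᶜ) (nhdsWithin 0 {0}ᶜ) := by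
    refine tendsto_nhdsWithin_of_tendsto_nhds_of_eventually_within _ ?_ ?_
    · have hc : Continuous (fun z : ℂ => ec b * z) := by fun_prop
      have := hc.tendsto 0
      simp only [mul_zero] at this
      exact this.mono_left nhdsWithin_le_nhds
    · filter_upwards [self_mem_nhdsWithin] with z hz
      simp only [Set.mem_compl_iff, Set.mem_singleton_iff] at hz ⊢
      exact mul_ne_zero hb' hz
  have h := (SVal_lim.comp ht).mul_const ‖ec b‖
  refine h.congr (fun z => ?_)
  simp only [Function.comp_apply, norm_mul]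
  have : ‖ec b‖ ≠ 0 := by simpa using hb'
  by_cases hz : ‖z‖ = 0
  · simp [hz]
  · field_simp

theorem SVal_add {b r : Eis} (hb : b ≠ 0) (h : b ∣ r) (z : ℂ) : phi (z + ec r / ec b) = phi z := by
  obtain ⟨c, rfl⟩ := h
  rw [map_mul, mul_div_cancel_left₀ _ (ec_ne_zero hb), phi_add]

theorem prod_phi {b : Eis} (hb : b ≠ 0) {S : Finset Eis} (hS : IsCRS b S) [DecidablePred fun r => ¬ b ∣ r] :
    ∏ r ∈ S.filter (fun r => ¬ b ∣ r), phi (ec r / ec b) = ‖ec b‖ := by
  classical
  have hq : ∀ z : ℂ, phi z * ∏ r ∈ S.filter (fun r => ¬ b ∣ r), phi (z + ec r / ec b) = phi (ec b * z) := by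
    intro z
    rw [← phi_dist hb hS z, ← Finset.prod_filter_mul_prod_filter_not S (fun r => ¬ b ∣ r), mul_comm]
    congr 1
    obtain ⟨r0, hr0, hd⟩ := hS.2 0
    rw [zero_sub, dvd_neg] at hd
    have : S.filter (fun r => ¬ ¬ b ∣ r) = {r0} := by
      ext r
      simp only [Finset.mem_filter, not_not, Finset.mem_singleton]
      constructor
      · rintro ⟨h1, h2⟩
        exact hS.1 r h1 r0 hr0 (dvd_sub h2 hd)
      · rintro rfl
        exact ⟨hr0, hd⟩
    rw [this, Finset.prod_singleton, SVal_add hb hd]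
  have hc : Continuous (fun z : ℂ => ∏ r ∈ S.filter (fun r => ¬ b ∣ r), phi (z + ec r / ec b)) := by
    refine continuous_finsetProd _ (fun r _ => ?_)
    exact phi_cont.comp (by fun_prop)
  have h1 : Filter.Tendsto (fun z => phi z / ‖z‖ * ∏ r ∈ S.filter (fun r => ¬ b ∣ r), phi (z + ec r / ec b))
      (nhdsWithin 0 {0}ᶜ) (nhds (c0 * ∏ r ∈ S.filter (fun r => ¬ b ∣ r), phi (0 + ec r / ec b))) :=
    SVal_lim.mul ((hc.tendsto 0).mono_left nhdsWithin_le_nhds)
  have h2 := SVal_lim_mul hb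
  have h3 : (fun z => phi z / ‖z‖ * ∏ r ∈ S.filter (fun r => ¬ b ∣ r), phi (z + ec r / ec b)) =
      fun z => phi (ec b * z) / ‖z‖ := by
    funext z
    rw [← hq z]
    ring
  rw [h3] at h1
  have h4 := tendsto_nhds_unique h1 h2
  have h5 := mul_left_cancel₀ c0_pos.ne' h4
  simpa using h5

theorem SVal_two_dvd (a : Eis) : (2 : Eis) ∣ a ↔ 2 ∣ a.re ∧ 2 ∣ a.im := by
  have h2 : (2 : Eis) = ⟨2, 0⟩ := by
    have : (2 : Eis) = 1 + 1 := by norm_num
    rw [this]
    apply QuadraticAlgebra.ext <;> simp [QuadraticAlgebra.re_one, QuadraticAlgebra.im_one]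
  constructor
  · rintro ⟨c, rfl⟩
    rw [h2]
    simp [QuadraticAlgebra.re_mul, QuadraticAlgebra.im_mul]
  · rintro ⟨⟨x, hx⟩, ⟨y, hy⟩⟩
    refine ⟨⟨x, y⟩, ?_⟩
    rw [h2]
    apply QuadraticAlgebra.ext
    · simp [QuadraticAlgebra.re_mul, hx]
    · simp [QuadraticAlgebra.im_mul, hy]

theorem SVal_om_sq : om ^ 2 = (⟨-1, -1⟩ : Eis) := by
  rw [om_sq]
  apply QuadraticAlgebra.ext <;> simp [om, QuadraticAlgebra.re_one, QuadraticAlgebra.im_one]

open Classical in
theorem SVal_crs2 : IsCRS 2 {0, 1, om, om ^ 2} := by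
  rw [SVal_om_sq]
  constructor
  · intro r hr r' hr' h
    rw [SVal_two_dvd] at h
    simp only [Finset.mem_insert, Finset.mem_singleton] at hr hr'
    rcases hr with rfl | rfl | rfl | rfl <;> rcases hr' with rfl | rfl | rfl | rfl <;>
      first
        | rfl
        | (exfalso; revert h; simp [om, QuadraticAlgebra.re_one, QuadraticAlgebra.im_one]; done)
        | (exfalso; revert h; simp [om, QuadraticAlgebra.re_one, QuadraticAlgebra.im_one]; omega)
  · intro x
    simp only [SVal_two_dvd, Finset.mem_insert, Finset.mem_singleton, exists_eq_or_imp, exists_eq_left]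
    simp only [om, QuadraticAlgebra.re_sub, QuadraticAlgebra.im_sub, QuadraticAlgebra.re_zero,
      QuadraticAlgebra.im_zero, QuadraticAlgebra.re_one, QuadraticAlgebra.im_one]
    omega

theorem SVal_s3_dvd (x : Eis) (h : (3 : ℤ) ∣ x.re + x.im) : s3 ∣ x := by
  obtain ⟨k, hk⟩ := h
  -- x = (re + im) - im (1 - om) , 1 - om = om^2 s3, 3 = - s3^2
  refine ⟨-(k : Eis) * s3 - (x.im : Eis) * om ^ 2, ?_⟩
  rw [SVal_om_sq]
  apply QuadraticAlgebra.ext
  · simp [s3, QuadraticAlgebra.re_mul, QuadraticAlgebra.im_mul]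
    linarith
  · simp [s3, QuadraticAlgebra.re_mul, QuadraticAlgebra.im_mul]
    try linarith

open Classical in
theorem SVal_crs3 : IsCRS s3 {0, 1, -1} := by
  constructor
  · intro r hr r' hr' h
    have h3 := nm_dvd h
    rw [nm_s3] at h3
    simp only [Finset.mem_insert, Finset.mem_singleton] at hr hr'
    rcases hr with rfl | rfl | rfl <;> rcases hr' with rfl | rfl | rfl <;>
      first
        | rfl
        | (exfalso; revert h3; simp [nm, QuadraticAlgebra.re_one, QuadraticAlgebra.im_one]; done)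
        | (exfalso; revert h3; norm_num [nm, QuadraticAlgebra.re_one, QuadraticAlgebra.im_one]; done)
  · intro x
    have h : (3 : ℤ) ∣ (x.re + x.im) ∨ (3 : ℤ) ∣ (x.re + x.im - 1) ∨ (3 : ℤ) ∣ (x.re + x.im + 1) := by omega
    rcases h with h | h | h
    · exact ⟨0, by simp, SVal_s3_dvd _ (by simpa using h)⟩
    · refine ⟨1, by simp, SVal_s3_dvd _ ?_⟩
      have : (x - 1).re + (x - 1).im = x.re + x.im - 1 := by simp [QuadraticAlgebra.re_one, QuadraticAlgebra.im_one]; ring
      rw [this]; exact h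
    · refine ⟨-1, by simp, SVal_s3_dvd _ ?_⟩
      have : (x - -1).re + (x - -1).im = x.re + x.im + 1 := by simp [QuadraticAlgebra.re_one, QuadraticAlgebra.im_one]; ring
      rw [this]; exact h

theorem SVal_dist2 (z : ℂ) :
    phi z * (phi (z + 1 / 2) * (phi (z + w / 2) * phi (z + w ^ 2 / 2))) = phi (2 * z) := by
  classical
  have h := phi_dist (b := 2) two_ne_zero SVal_crs2 z
  have n1 : (0 : Eis) ∉ ({1, om, om ^ 2} : Finset Eis) := by
    rw [SVal_om_sq]
    simp [om, QuadraticAlgebra.ext_iff, QuadraticAlgebra.re_one, QuadraticAlgebra.im_one]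
  have n2 : (1 : Eis) ∉ ({om, om ^ 2} : Finset Eis) := by
    rw [SVal_om_sq]
    simp [om, QuadraticAlgebra.ext_iff, QuadraticAlgebra.re_one, QuadraticAlgebra.im_one]
  have n3 : om ∉ ({om ^ 2} : Finset Eis) := by
    rw [SVal_om_sq]
    simp [om, QuadraticAlgebra.ext_iff, QuadraticAlgebra.re_one, QuadraticAlgebra.im_one]
  rw [Finset.prod_insert n1, Finset.prod_insert n2, Finset.prod_insert n3, Finset.prod_singleton] at h
  have e2 : ec 2 = 2 := map_ofNat ec 2
  simpa [ec_om, e2] using h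

theorem SVal_dist3 (z : ℂ) :
    phi z * (phi (z + 1 / (1 + 2 * w)) * phi (z - 1 / (1 + 2 * w))) = phi ((1 + 2 * w) * z) := by
  classical
  have hs : s3 ≠ 0 := by
    intro h
    have := nm_s3
    rw [h] at this
    simp [nm] at this
  have h := phi_dist hs SVal_crs3 z
  have n1 : (0 : Eis) ∉ ({1, -1} : Finset Eis) := by
    simp [QuadraticAlgebra.ext_iff, QuadraticAlgebra.re_one, QuadraticAlgebra.im_one]
  have n2 : (1 : Eis) ∉ ({-1} : Finset Eis) := by
    simp [QuadraticAlgebra.ext_iff, QuadraticAlgebra.re_one, QuadraticAlgebra.im_one]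
  rw [Finset.prod_insert n1, Finset.prod_insert n2, Finset.prod_singleton] at h
  rw [ec_s3] at h
  simp only [map_zero, zero_div, add_zero, map_one, map_neg, neg_div] at h
  rw [← sub_eq_add_neg] at h
  exact h

theorem SVal_s3_ne : (1 + 2 * w) ≠ 0 := by
  rw [← ec_s3]
  apply ec_ne_zero
  intro h
  have := nm_s3
  rw [h] at this
  simp [nm] at this

theorem SVal_w2 (z : ℂ) : phi (w ^ 2 * z) = phi z := by
  rw [pow_two, mul_assoc, phi_om, phi_om]

theorem phi_half : phi (1 / 2) ^ 3 = 2 := by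
  classical
  have h := prod_phi (b := 2) two_ne_zero SVal_crs2
  have e : Finset.filter (fun r => ¬ (2 : Eis) ∣ r) ({0, 1, om, om ^ 2} : Finset Eis) = {1, om, om ^ 2} := by
    rw [Finset.filter_insert, if_neg (by simp)]
    apply Finset.filter_true_of_mem
    intro x hx
    rw [SVal_two_dvd]
    rw [SVal_om_sq] at hx
    simp only [Finset.mem_insert, Finset.mem_singleton] at hx
    rcases hx with rfl | rfl | rfl <;> simp [om, QuadraticAlgebra.re_one, QuadraticAlgebra.im_one]
  rw [e] at h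
  have n2 : (1 : Eis) ∉ ({om, om ^ 2} : Finset Eis) := by
    rw [SVal_om_sq]
    simp [om, QuadraticAlgebra.ext_iff, QuadraticAlgebra.re_one, QuadraticAlgebra.im_one]
  have n3 : om ∉ ({om ^ 2} : Finset Eis) := by
    rw [SVal_om_sq]
    simp [om, QuadraticAlgebra.ext_iff, QuadraticAlgebra.re_one, QuadraticAlgebra.im_one]
  rw [Finset.prod_insert n2, Finset.prod_insert n3, Finset.prod_singleton] at h
  simp only [map_one, map_pow, ec_om, map_ofNat] at h
  have e1 : phi (w / 2) = phi (1 / 2) := by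
    rw [← phi_om (1 / 2)]; congr 1; ring
  have e2 : phi (w ^ 2 / 2) = phi (1 / 2) := by
    rw [← SVal_w2 (1 / 2)]; congr 1; ring
  rw [e1, e2] at h
  have e3 : ‖(2 : ℂ)‖ = 2 := by simp
  rw [e3] at h
  rw [← h]
  ring

theorem phi_t0 : phi (1 / (1 + 2 * w)) ^ 2 = Real.sqrt 3 := by
  classical
  have hs : s3 ≠ 0 := by
    intro h
    have := nm_s3
    rw [h] at this
    simp [nm] at this
  have h := prod_phi hs SVal_crs3
  have e : Finset.filter (fun r => ¬ s3 ∣ r) ({0, 1, -1} : Finset Eis) = {1, -1} := by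
    rw [Finset.filter_insert, if_neg (by simp)]
    apply Finset.filter_true_of_mem
    intro x hx hd
    have h3 := nm_dvd hd
    rw [nm_s3] at h3
    simp only [Finset.mem_insert, Finset.mem_singleton] at hx
    rcases hx with rfl | rfl
    · rw [nm_one] at h3; omega
    · rw [nm_neg, nm_one] at h3; omega
  rw [e] at h
  have n2 : (1 : Eis) ∉ ({-1} : Finset Eis) := by
    simp [QuadraticAlgebra.ext_iff, QuadraticAlgebra.re_one, QuadraticAlgebra.im_one]
  rw [Finset.prod_insert n2, Finset.prod_singleton] at h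
  simp only [map_one, map_neg, neg_div, phi_neg] at h
  have h3 : ‖ec s3‖ = Real.sqrt 3 := by
    have := nm_cast s3
    rw [nm_s3] at this
    rw [← Real.sqrt_sq (norm_nonneg (ec s3)), ← this]
    norm_num
  rw [h3, ec_s3] at h
  rw [← h]
  ring

theorem phi_t0_half : phi (1 / (1 + 2 * w) + 1 / 2) = 1 ∧ phi (1 / (1 + 2 * w) - 1 / 2) = 1 := by
  have hne := SVal_s3_ne
  have hw := w_sq
  set t : ℂ := 1 / (1 + 2 * w) with ht
  have ht1 : t * (1 + 2 * w) = 1 := by rw [ht]; field_simp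
  have h3t : 3 * t = -(1 + 2 * w) := by
    have : 3 * t * (1 + 2 * w) = -(1 + 2 * w) * (1 + 2 * w) := by
      linear_combination 3 * ht1 + 4 * hw
    exact mul_right_cancel₀ hne this
  have hwt : w * t = t - w ^ 2 := by
    have : w * t * (1 + 2 * w) = (t - w ^ 2) * (1 + 2 * w) := by
      linear_combination (w - 1) * ht1 + (2 * w - 1) * hw
    exact mul_right_cancel₀ hne this
  have hpos : phi t ≠ 0 := by
    intro h
    have := phi_t0
    rw [← ht, h] at this
    have h3 : Real.sqrt 3 > 0 := Real.sqrt_pos.mpr (by norm_num)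
    simp at this
    linarith
  have h := SVal_dist2 t
  have e1 : phi (2 * t) = phi t := by
    have : 2 * t = -t + ec (-s3) := by
      rw [map_neg, ec_s3]
      linear_combination h3t
    rw [this, phi_add, phi_neg]
  have e2 : phi (t + w / 2) = phi (t + 1 / 2) := by
    rw [← phi_om (t + 1 / 2)]
    have : w * (t + 1 / 2) = (t + w / 2) + ec (-om ^ 2) := by
      rw [map_neg, map_pow, ec_om]
      linear_combination hwt
    rw [this, phi_add]
  have e3 : phi (t + w ^ 2 / 2) = phi (t + 1 / 2) := by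
    rw [← SVal_w2 (t + 1 / 2)]
    have : w ^ 2 * (t + 1 / 2) = (t + w ^ 2 / 2) + ec (-1 - om ^ 2) := by
      rw [map_sub, map_neg, map_pow, ec_om, map_one]
      have hw3 := w_pow_three
      linear_combination (w + 1) * hwt - hw3
    rw [this, phi_add]
  rw [e1, e2, e3] at h
  have h4 : phi (t + 1 / 2) ^ 3 = 1 := by
    have : phi t * phi (t + 1 / 2) ^ 3 = phi t * 1 := by
      rw [mul_one]
      linear_combination h
    exact mul_left_cancel₀ hpos this
  have hnn : 0 ≤ phi (t + 1 / 2) := by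
    by_contra hlt
    push Not at hlt
    have : phi (t + 1 / 2) ^ 3 < 0 := by
      have : phi (t + 1 / 2) ^ 3 = phi (t + 1 / 2) * phi (t + 1 / 2) ^ 2 := by ring
      rw [this]
      exact mul_neg_of_neg_of_pos hlt (by have := hlt.ne; positivity)
    linarith
  have h5 : phi (t + 1 / 2) = 1 := (pow_eq_one_iff_of_nonneg hnn (by norm_num)).mp h4
  refine ⟨h5, ?_⟩
  rw [← h5]
  have : t + 1 / 2 = (t - 1 / 2) + ec 1 := by
    rw [map_one]; ring
  rw [this, phi_add]

/-- the distribution relation for `√-3` -/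
theorem phi_s3 (z : ℂ) : phi z * (phi (z + 1 / (1 + 2 * w)) * phi (z - 1 / (1 + 2 * w))) = phi ((1 + 2 * w) * z) :=
  SVal_dist3 z

end MPd9f52e
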