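import Mathlib
import Pool.Agent.Lib.MP_d9f52e_nt.SInv

/-!
# SQp: quasi-periodicity of sigma  (about 150 lines)

Fix `b`, `l = ec b`.  `g(z) = sigma(z + l)/(sigma(z) exp(r0 (conj l z + |l|^2/2)))` is analytic on the complement `U` of the lattice (open, connected: complement of a countable set, `Set.Countable.isConnected_compl_of_one_lt_rank`) and `|g| = 1` there:
`phi(z+l) = phi(z)` and `phi_eq` give `|sigma(z+l)| exp(-r0|z+l|^2/2) = |sigma z| exp(-r0|z|^2/2)`, `|z+l|^2 - |z|^2 = 2 Re(conj l z) + |l|^2`.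
Constant modulus on a connected open set implies constant (`Complex.eqOn_of_isPreconnected_of_isMaxOn_norm`).  So `sigma(z+l) = c exp(..) sigma(z)`, also on the lattice (both sides 0).
If `2` does not divide `b` then `z = -l/2` is off the lattice: `sigma(l/2) = c exp(r0(-|l|^2/2+|l|^2/2)) sigma(-l/2)`, so `c = -1`.  If `b = 2b'`, apply the formula for `b'` twice: exponent `conj l'(z + l') + |l'|^2/2 + conj l' z + |l'|^2/2 = 2 conj l' z + 2|l'|^2 = conj l z + |l|^2/2`, `c = c'^2 = 1`.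
-/

set_option autoImplicit false

namespace MPd9f52e

open Complex

private theorem countable_lat : ((LO.lattice : Set ℂ)).Countable := by
  have h1 : Function.Injective (fun b : Eis => ((b.re, b.im) : ℤ × ℤ)) := by
    intro a b h
    have h2 := congrArg Prod.fst h
    have h3 := congrArg Prod.snd h
    exact QuadraticAlgebra.ext h2 h3
  have h2 : Countable Eis := h1.countable
  have h3 : (LO.lattice : Set ℂ) = Set.range ec := by
    ext z
    exact mem_LO z
  rw [h3]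
  exact Set.countable_range _

theorem isConnected_compl : IsConnected ((LO.lattice : Set ℂ)ᶜ) := by
  refine countable_lat.isConnected_compl_of_one_lt_rank ?_
  rw [Complex.rank_real_complex]
  norm_num

theorem isOpen_compl : IsOpen ((LO.lattice : Set ℂ)ᶜ) :=
  LO.isClosed_lattice.isOpen_compl

/-- an analytic function of constant modulus on a connected open set is constant -/
theorem eq_of_norm_const {U : Set ℂ} (hU : IsOpen U) (hc : IsPreconnected U) {g : ℂ → ℂ} (hg : DifferentiableOn ℂ g U)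
    {C : ℝ} (h : ∀ z ∈ U, ‖g z‖ = C) {z z' : ℂ} (hz : z ∈ U) (hz' : z' ∈ U) : g z = g z' := by
  have hm : IsMaxOn (norm ∘ g) U z' := by
    intro x hx
    simp only [Set.mem_ofPred_eq, Function.comp]
    rw [h x hx, h z' hz']
  exact Complex.eqOn_of_isPreconnected_of_isMaxOn_norm hc hU hg hz' hm hz

private theorem conj_mul_norm (l : ℂ) : (starRingEnd ℂ) l * l = (‖l‖ : ℂ) ^ 2 := by
  rw [mul_comm, Complex.mul_conj]
  rw [Complex.normSq_eq_norm_sq]
  push_cast
  ring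

private theorem sig_norm (b : Eis) {z : ℂ} :
    ‖sigma (z + ec b)‖ = Real.exp (r0 * (((starRingEnd ℂ) (ec b) * z).re + ‖ec b‖ ^ 2 / 2)) *
      ‖sigma z‖ := by
  have h1 := phi_add z b
  rw [phi_eq, phi_eq] at h1
  have h2 : ‖z + ec b‖ ^ 2 = ‖z‖ ^ 2 + 2 * ((starRingEnd ℂ) (ec b) * z).re + ‖ec b‖ ^ 2 := by
    rw [← Complex.normSq_eq_norm_sq, ← Complex.normSq_eq_norm_sq, ← Complex.normSq_eq_norm_sq,
      Complex.normSq_add, mul_comm ((starRingEnd ℂ) (ec b)) z]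
    ring
  have hc := c0_pos
  have h3 : ‖sigma (z + ec b)‖ * Real.exp (-(r0 * ‖z + ec b‖ ^ 2 / 2)) =
      ‖sigma z‖ * Real.exp (-(r0 * ‖z‖ ^ 2 / 2)) := by
    have := mul_left_cancel₀ hc.ne' (by rw [← mul_assoc, ← mul_assoc]; exact h1 :
      c0 * (‖sigma (z + ec b)‖ * Real.exp (-(r0 * ‖z + ec b‖ ^ 2 / 2))) =
        c0 * (‖sigma z‖ * Real.exp (-(r0 * ‖z‖ ^ 2 / 2))))
    exact this
  have h4 : Real.exp (-(r0 * ‖z‖ ^ 2 / 2)) = Real.exp (r0 * (((starRingEnd ℂ) (ec b) * z).re +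
      ‖ec b‖ ^ 2 / 2)) * Real.exp (-(r0 * ‖z + ec b‖ ^ 2 / 2)) := by
    rw [← Real.exp_add, h2]
    congr 1
    ring
  rw [h4, ← mul_assoc] at h3
  have h5 := mul_right_cancel₀ (Real.exp_pos _).ne' h3
  rw [h5]
  ring

private theorem sg_ex (b : Eis) : ∃ c : ℂ, ∀ z, sigma (z + ec b) =
    c * Complex.exp (r0 * ((starRingEnd ℂ) (ec b) * z + (‖ec b‖ : ℂ) ^ 2 / 2)) * sigma z := by
  obtain ⟨z0, hz0⟩ := isConnected_compl.nonempty
  have hs : ∀ z ∈ ((LO.lattice : Set ℂ)ᶜ), sigma z ≠ 0 := fun z hz h =>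
    hz ((sigma_eq_zero z).1 h)
  obtain ⟨g, hg⟩ : ∃ g : ℂ → ℂ, ∀ z, g z = sigma (z + ec b) *
    Complex.exp (-(r0 * ((starRingEnd ℂ) (ec b) * z + (‖ec b‖ : ℂ) ^ 2 / 2))) / sigma z :=
    ⟨_, fun _ => rfl⟩
  have hgd : DifferentiableOn ℂ g ((LO.lattice : Set ℂ)ᶜ) := by
    rw [show g = fun z => sigma (z + ec b) *
      Complex.exp (-(r0 * ((starRingEnd ℂ) (ec b) * z + (‖ec b‖ : ℂ) ^ 2 / 2))) / sigma z from
      funext hg]
    have h1 : Differentiable ℂ (fun z => sigma (z + ec b)) :=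
      sigma_diff.comp (differentiable_id.add_const _)
    have h2 : Differentiable ℂ (fun z => Complex.exp (-(r0 * ((starRingEnd ℂ) (ec b) * z +
      (‖ec b‖ : ℂ) ^ 2 / 2)))) := by fun_prop
    exact (h1.mul h2).differentiableOn.div sigma_diff.differentiableOn hs
  have hgn : ∀ z ∈ ((LO.lattice : Set ℂ)ᶜ), ‖g z‖ = 1 := by
    intro z hz
    have h0 : ‖sigma z‖ ≠ 0 := norm_ne_zero_iff.2 (hs z hz)
    rw [hg, norm_div, norm_mul, sig_norm, Complex.norm_exp]
    have h1 : (-((r0 : ℂ) * ((starRingEnd ℂ) (ec b) * z + (‖ec b‖ : ℂ) ^ 2 / 2))).re =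
        -(r0 * (((starRingEnd ℂ) (ec b) * z).re + ‖ec b‖ ^ 2 / 2)) := by
      have h2 : ((‖ec b‖ : ℂ) ^ 2 / 2) = (((‖ec b‖ ^ 2 / 2 : ℝ)) : ℂ) := by push_cast; ring
      rw [h2, Complex.neg_re, Complex.re_ofReal_mul, Complex.add_re, Complex.ofReal_re]
    rw [h1, Real.exp_neg]
    field_simp
  refine ⟨g z0, fun z => ?_⟩
  by_cases hz : z ∈ LO.lattice
  · have hz' : z + ec b ∈ LO.lattice := by
      obtain ⟨c, hc⟩ := (mem_LO z).1 hz
      exact (mem_LO _).2 ⟨c + b, by rw [map_add, hc]⟩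
    rw [(sigma_eq_zero _).2 hz, (sigma_eq_zero _).2 hz', mul_zero]
  · have h1 := eq_of_norm_const isOpen_compl isConnected_compl.isPreconnected hgd hgn hz0
      (show z ∈ ((LO.lattice : Set ℂ)ᶜ) from hz)
    rw [h1, hg]
    have h2 := hs z hz
    rw [Complex.exp_neg]
    have h3 := Complex.exp_ne_zero (r0 * ((starRingEnd ℂ) (ec b) * z + (‖ec b‖ : ℂ) ^ 2 / 2))
    field_simp

private theorem sg_sq {b : Eis} {c : ℂ} (hc : ∀ z, sigma (z + ec b) =
    c * Complex.exp (r0 * ((starRingEnd ℂ) (ec b) * z + (‖ec b‖ : ℂ) ^ 2 / 2)) * sigma z) :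
    c ^ 2 = 1 := by
  obtain ⟨z0, hz0⟩ := isConnected_compl.nonempty
  have hs : sigma z0 ≠ 0 := fun h => hz0 ((sigma_eq_zero z0).1 h)
  have h1 := hc z0
  have h2 := hc (-z0 - ec b)
  rw [show -z0 - ec b + ec b = -z0 by ring, sigma_neg,
    show -z0 - ec b = -(z0 + ec b) by ring, sigma_neg, h1] at h2
  have h3 : (r0 : ℂ) * ((starRingEnd ℂ) (ec b) * -(z0 + ec b) + (‖ec b‖ : ℂ) ^ 2 / 2) =
      -(r0 * ((starRingEnd ℂ) (ec b) * z0 + (‖ec b‖ : ℂ) ^ 2 / 2)) := by
    linear_combination (-(r0 : ℂ)) * conj_mul_norm (ec b)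
  rw [h3, Complex.exp_neg] at h2
  have h4 := Complex.exp_ne_zero (r0 * ((starRingEnd ℂ) (ec b) * z0 + (‖ec b‖ : ℂ) ^ 2 / 2))
  field_simp at h2
  linear_combination h2

open Classical in
theorem sigma_add (b : Eis) (z : ℂ) :
    sigma (z + ec b) = (if (2 : Eis) ∣ b then 1 else -1) *
      Complex.exp (r0 * ((starRingEnd ℂ) (ec b) * z + (‖ec b‖ : ℂ) ^ 2 / 2)) * sigma z := by
  obtain ⟨c, hc⟩ := sg_ex b
  suffices h : c = if (2 : Eis) ∣ b then 1 else -1 by rw [← h]; exact hc z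
  split_ifs with hb
  · obtain ⟨b', rfl⟩ := hb
    obtain ⟨c', hc'⟩ := sg_ex b'
    obtain ⟨z0, hz0⟩ := isConnected_compl.nonempty
    have hs : sigma z0 ≠ 0 := fun h => hz0 ((sigma_eq_zero z0).1 h)
    have h1 := hc z0
    have he : ec (2 * b') = 2 * ec b' := by
      rw [map_mul, map_ofNat]
    have h2 : sigma (z0 + ec (2 * b')) = c' ^ 2 *
        Complex.exp (r0 * ((starRingEnd ℂ) (ec (2 * b')) * z0 + (‖ec (2 * b')‖ : ℂ) ^ 2 / 2)) *
        sigma z0 := by
      rw [he, show z0 + 2 * ec b' = z0 + ec b' + ec b' by ring, hc', hc']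
      have h3 : (r0 : ℂ) * ((starRingEnd ℂ) (2 * ec b') * z0 + (‖2 * ec b'‖ : ℂ) ^ 2 / 2) =
          r0 * ((starRingEnd ℂ) (ec b') * (z0 + ec b') + (‖ec b'‖ : ℂ) ^ 2 / 2) +
          r0 * ((starRingEnd ℂ) (ec b') * z0 + (‖ec b'‖ : ℂ) ^ 2 / 2) := by
        rw [norm_mul, map_mul]
        have h4 : (starRingEnd ℂ) 2 = 2 := map_ofNat _ _
        rw [h4]
        simp only [Complex.norm_ofNat, Complex.ofReal_mul, Complex.ofReal_ofNat]
        linear_combination (-(r0 : ℂ)) * conj_mul_norm (ec b')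
      rw [h3, Complex.exp_add]
      ring
    rw [h1] at h2
    have h3 := mul_right_cancel₀ hs h2
    have h4 := mul_right_cancel₀ (Complex.exp_ne_zero _) h3
    rw [h4]
    exact sg_sq hc'
  · have hl : ec b / 2 ∉ LO.lattice := by
      intro h
      obtain ⟨d, hd⟩ := (mem_LO _).1 h
      apply hb
      refine ⟨d, ec_inj ?_⟩
      rw [map_mul, map_ofNat, hd]
      ring
    have hs : sigma (ec b / 2) ≠ 0 := fun h => hl ((sigma_eq_zero _).1 h)
    have h1 := hc (-(ec b / 2))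
    rw [show -(ec b / 2) + ec b = ec b / 2 by ring, sigma_neg] at h1
    have h2 : (r0 : ℂ) * ((starRingEnd ℂ) (ec b) * -(ec b / 2) + (‖ec b‖ : ℂ) ^ 2 / 2) = 0 := by
      linear_combination (-(r0 : ℂ) / 2) * conj_mul_norm (ec b)
    rw [h2, Complex.exp_zero, mul_one] at h1
    have h3 : (c + 1) * sigma (ec b / 2) = 0 := by linear_combination h1
    rcases mul_eq_zero.1 h3 with h6 | h6
    · linear_combination h6
    · exact absurd h6 hs

end MPd9f52e
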