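import Mathlib
import Pool.Agent.Lib.MP_d9f52e_nt.SQp

/-!
# SWp: wp and sigma  (about 200 lines)

`F(z) = sigma(z+u) sigma(z-u)/sigma(z)^2` is periodic (`sigma_add`: the sign squares to 1 and the exponents cancel), analytic off the lattice.  `G = F + sigma(u)^2 wp` (`wp = LO.weierstrassP`) is periodic and analytic off the lattice; at 0 it is bounded:
`wp z = 1/z^2 + analytic` (`weierstrassPExcept`), `sigma z = z tau z`, `tau` entire, even, `tau 0 = 1` (`sigma_lim`, `sigma_neg`), `F = N(z)/(z^2 tau(z)^2)`, `N(z) = sigma(z+u) sigma(z-u)` even and entire, `N 0 = - sigma(u)^2`: the even analytic function `N/tau^2` is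
`-sigma(u)^2 + O(z^2)`.  So `G` extends to an entire periodic function, which is bounded: constant (Liouville).  (See Pool/Agent/Lib/MP_5e64e7_nt/OAdd.lean for the same kind of argument: maybe its private Liouville lemma can be copied.)
`z -> u`: `F(u) = 0`, so `G = sigma(u)^2 wp(u)`.  (If `2u` is in the lattice this is fine too.)
-/

set_option autoImplicit false

namespace MPd9f52e

open Complex

private lemma swp_near (z : ℂ) : ∃ b : Eis, ‖z - ec b‖ ≤ 2 := by
  set s : ℝ := Real.sqrt 3 / 2 with hs
  have hs0 : 0 < s := by positivity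
  set y : ℝ := z.im / s with hy
  set x : ℝ := z.re + y / 2 with hx
  refine ⟨⟨⌊x⌋, ⌊y⌋⟩, ?_⟩
  have h1 : z = (x : ℂ) + (y : ℂ) * w := by
    apply Complex.ext
    · simp [w, hx]
      ring
    · simp only [w, Complex.add_im, Complex.ofReal_im, Complex.mul_im, Complex.ofReal_re, zero_mul,
        add_zero, zero_add]
      rw [hy, ← hs]
      field_simp
  have h2 : z - ec ⟨⌊x⌋, ⌊y⌋⟩ = ((Int.fract x : ℝ) : ℂ) + ((Int.fract y : ℝ) : ℂ) * w := by
    rw [ec_eq]
    nth_rewrite 1 [h1]
    rw [← Int.self_sub_floor, ← Int.self_sub_floor]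
    push_cast
    ring
  rw [h2]
  calc ‖((Int.fract x : ℝ) : ℂ) + ((Int.fract y : ℝ) : ℂ) * w‖
      ≤ ‖((Int.fract x : ℝ) : ℂ)‖ + ‖((Int.fract y : ℝ) : ℂ) * w‖ := norm_add_le _ _
    _ = Int.fract x + Int.fract y := by
        rw [norm_mul, norm_w, mul_one, Complex.norm_real, Complex.norm_real, Real.norm_of_nonneg
          (Int.fract_nonneg _), Real.norm_of_nonneg (Int.fract_nonneg _)]
    _ ≤ 2 := by linarith [Int.fract_lt_one x, Int.fract_lt_one y]

/-- Liouville: a periodic function, differentiable off the lattice and continuous at `0`, is constant -/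
theorem swp_liouville {H : ℂ → ℂ} (hd : DifferentiableOn ℂ H ((LO.lattice : Set ℂ)ᶜ))
    (hper : ∀ (z : ℂ) (b : Eis), H (z + ec b) = H z) (hc : ContinuousAt H 0) (z z' : ℂ) :
    H z = H z' := by
  have h0 : DifferentiableAt ℂ H 0 := by
    have hb : Metric.ball (0 : ℂ) (1 / 2) ∈ nhds (0 : ℂ) := Metric.ball_mem_nhds 0 (by norm_num)
    have h1 : DifferentiableOn ℂ H (Metric.ball (0 : ℂ) (1 / 2) \ {0}) := by
      refine hd.mono fun x hx hl => ?_
      obtain ⟨b, hb⟩ := (mem_LO x).1 hl
      have hx0 : x ≠ 0 := hx.2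
      have hb0 : b ≠ 0 := by
        rintro rfl
        exact hx0 (by rw [← hb, map_zero])
      have h2 := one_le_norm_ec hb0
      rw [hb] at h2
      have h3 : ‖x‖ < 1 / 2 := by simpa using hx.1
      linarith
    exact ((Complex.differentiableOn_compl_singleton_and_continuousAt_iff hb).1
      ⟨h1, hc⟩).differentiableAt hb
  have hdiff : Differentiable ℂ H := by
    intro x
    by_cases hx : x ∈ LO.lattice
    · obtain ⟨b, hb⟩ := (mem_LO x).1 hx
      have h1 : H = fun y => H (y + -x) := by
        funext y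
        have := hper y (-b)
        rw [map_neg, hb] at this
        exact this.symm
      rw [h1]
      have h2 : DifferentiableAt ℂ H (x + -x) := by rwa [add_neg_cancel]
      exact h2.comp x (differentiableAt_id.add_const (-x))
    · exact (hd x hx).differentiableAt (isOpen_compl.mem_nhds hx)
  have hbd : Bornology.IsBounded (Set.range H) := by
    have h1 : (H '' Metric.closedBall (0 : ℂ) 2) = Set.range H := by
      apply Set.Subset.antisymm (Set.image_subset_range _ _)
      rintro _ ⟨x, rfl⟩
      obtain ⟨b, hb⟩ := swp_near x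
      refine ⟨x - ec b, by simpa using hb, ?_⟩
      have := hper (x - ec b) b
      rw [sub_add_cancel] at this
      exact this.symm
    rw [← h1]
    exact ((isCompact_closedBall (0 : ℂ) 2).image hdiff.continuous).isBounded
  exact hdiff.apply_eq_apply_of_bounded hbd z z'

private lemma swp_dslope {f : ℂ → ℂ} (hf : Differentiable ℂ f) : Differentiable ℂ (dslope f 0) :=
  differentiableOn_univ.1 ((Complex.differentiableOn_dslope Filter.univ_mem).2
    hf.differentiableOn)

private noncomputable def tau : ℂ → ℂ := dslope sigma 0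

private lemma sigma_zero : sigma 0 = 0 := (sigma_eq_zero 0).2 (zero_mem _)

private lemma tau_of_ne {z : ℂ} (hz : z ≠ 0) : tau z = sigma z / z := by
  rw [tau, dslope_of_ne _ hz, slope_def_field, sigma_zero, sub_zero, sub_zero]

private lemma tau_diff : Differentiable ℂ tau := swp_dslope sigma_diff

private lemma tau_zero : tau 0 = 1 := by
  have h1 : Filter.Tendsto tau (nhdsWithin 0 {0}ᶜ) (nhds (tau 0)) :=
    (tau_diff.continuous.tendsto 0).mono_left nhdsWithin_le_nhds
  have h2 : Filter.Tendsto tau (nhdsWithin 0 {0}ᶜ) (nhds 1) := by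
    refine sigma_lim.congr' ?_
    filter_upwards [self_mem_nhdsWithin] with z hz
    exact (tau_of_ne hz).symm
  exact tendsto_nhds_unique h1 h2

private lemma tau_neg (z : ℂ) : tau (-z) = tau z := by
  by_cases hz : z = 0
  · rw [hz, neg_zero]
  · rw [tau_of_ne hz, tau_of_ne (neg_ne_zero.2 hz), sigma_neg, neg_div_neg_eq]

private noncomputable def NN (u z : ℂ) : ℂ := sigma (z + u) * sigma (z - u)

private lemma NN_diff (u : ℂ) : Differentiable ℂ (NN u) :=
  (sigma_diff.comp (differentiable_id.add_const u)).mul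
    (sigma_diff.comp (differentiable_id.sub_const u))

private lemma NN_neg (u z : ℂ) : NN u (-z) = NN u z := by
  unfold NN
  rw [show -z + u = -(z - u) by ring, show -z - u = -(z + u) by ring, sigma_neg, sigma_neg]
  ring

private lemma NN_zero (u : ℂ) : NN u 0 = -sigma u ^ 2 := by
  unfold NN
  rw [zero_add, zero_sub, sigma_neg]
  ring

private noncomputable def MM (u z : ℂ) : ℂ := NN u z + sigma u ^ 2 * tau z ^ 2

private lemma MM_diff (u : ℂ) : Differentiable ℂ (MM u) :=
  (NN_diff u).add ((tau_diff.pow 2).const_mul _)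

private lemma MM_zero (u : ℂ) : MM u 0 = 0 := by
  unfold MM
  rw [NN_zero, tau_zero]
  ring

private lemma MM_deriv (u : ℂ) : deriv (MM u) 0 = 0 := by
  have h1 : (fun x => MM u (-x)) = MM u := by
    funext x
    unfold MM
    rw [NN_neg, tau_neg]
  have h2 := deriv_comp_neg (MM u) 0
  rw [h1, neg_zero] at h2
  exact self_eq_neg.1 h2

private noncomputable def dd (u : ℂ) : ℂ → ℂ := dslope (dslope (MM u) 0) 0

private lemma dd_diff (u : ℂ) : Differentiable ℂ (dd u) := swp_dslope (swp_dslope (MM_diff u))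

private lemma dd_of_ne (u : ℂ) {z : ℂ} (hz : z ≠ 0) : dd u z = MM u z / z ^ 2 := by
  rw [dd, dslope_of_ne _ hz, slope_def_field, dslope_of_ne _ hz, slope_def_field, dslope_same,
    MM_deriv, MM_zero, sub_zero, sub_zero, sub_zero]
  field_simp

private noncomputable def KK (u z : ℂ) : ℂ :=
  dd u z / tau z ^ 2 + sigma u ^ 2 * LO.weierstrassPExcept 0 z

private noncomputable def FF (u z : ℂ) : ℂ := NN u z / sigma z ^ 2

private lemma KK_eq (u : ℂ) {z : ℂ} (hz : z ∉ LO.lattice) :
    FF u z + sigma u ^ 2 * LO.weierstrassP z = KK u z := by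
  have hz0 : z ≠ 0 := fun h => hz (by rw [h]; exact zero_mem _)
  have hs : sigma z ≠ 0 := fun h => hz ((sigma_eq_zero z).1 h)
  have h1 := LO.weierstrassPExcept_add ⟨0, zero_mem _⟩ z
  simp only [sub_zero] at h1
  rw [← h1, KK, dd_of_ne u hz0, MM, tau_of_ne hz0, FF]
  field_simp
  ring

private lemma KK_cont (u : ℂ) : ContinuousAt (KK u) 0 := by
  have h1 : ContinuousAt (LO.weierstrassPExcept 0) 0 :=
    (LO.analyticAt_weierstrassPExcept 0).continuousAt
  have h2 : tau 0 ^ 2 ≠ 0 := by rw [tau_zero]; norm_num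
  exact (((dd_diff u).continuous.continuousAt).div
    ((tau_diff.continuous.continuousAt).pow 2) h2).add (continuousAt_const.mul h1)

private lemma FF_per (u z : ℂ) (b : Eis) : FF u (z + ec b) = FF u z := by
  classical
  unfold FF NN
  rw [show z + ec b + u = (z + u) + ec b by ring, show z + ec b - u = (z - u) + ec b by ring,
    sigma_add b (z + u), sigma_add b (z - u), sigma_add b z]
  set e : ℂ := if (2 : Eis) ∣ b then 1 else -1 with he
  have he0 : e ≠ 0 := by
    rw [he]
    split_ifs <;> norm_num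
  set c : ℂ := (starRingEnd ℂ) (ec b) with hc
  set k : ℂ := (‖ec b‖ : ℂ) ^ 2 / 2 with hk
  have h1 : Complex.exp (r0 * (c * (z + u) + k)) * Complex.exp (r0 * (c * (z - u) + k)) =
      Complex.exp (r0 * (c * z + k)) ^ 2 := by
    rw [← Complex.exp_add, sq, ← Complex.exp_add]
    congr 1
    ring
  have hx := Complex.exp_ne_zero (r0 * (c * z + k))
  have h2 : e * Complex.exp (r0 * (c * (z + u) + k)) * sigma (z + u) *
      (e * Complex.exp (r0 * (c * (z - u) + k)) * sigma (z - u)) =
      (e * Complex.exp (r0 * (c * z + k))) ^ 2 * (sigma (z + u) * sigma (z - u)) := by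
    rw [mul_pow, ← h1]
    ring
  rw [h2, mul_pow (e * Complex.exp (r0 * (c * z + k))) (sigma z) 2,
    mul_div_mul_left _ _ (pow_ne_zero 2 (mul_ne_zero he0 hx))]

theorem wp_sigma {z u : ℂ} (hz : z ∉ LO.lattice) (hu : u ∉ LO.lattice) :
    LO.weierstrassP z - LO.weierstrassP u = -(sigma (z + u) * sigma (z - u)) / (sigma z ^ 2 * sigma u ^ 2) := by
  classical
  have hsz : sigma z ≠ 0 := fun h => hz ((sigma_eq_zero z).1 h)
  have hsu : sigma u ≠ 0 := fun h => hu ((sigma_eq_zero u).1 h)
  obtain ⟨H, hH⟩ : ∃ H : ℂ → ℂ, ∀ x, H x = if x ∈ LO.lattice then KK u 0 else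
    FF u x + sigma u ^ 2 * LO.weierstrassP x := ⟨_, fun _ => rfl⟩
  have hHoff : ∀ x, x ∉ LO.lattice → H x = FF u x + sigma u ^ 2 * LO.weierstrassP x := by
    intro x hx
    rw [hH, if_neg hx]
  have hd : DifferentiableOn ℂ H ((LO.lattice : Set ℂ)ᶜ) := by
    have h1 : DifferentiableOn ℂ (fun x => FF u x + sigma u ^ 2 * LO.weierstrassP x)
        ((LO.lattice : Set ℂ)ᶜ) := by
      refine DifferentiableOn.add ?_ (LO.differentiableOn_weierstrassP.const_mul _)
      exact (NN_diff u).differentiableOn.div (sigma_diff.pow 2).differentiableOn fun x hx =>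
        pow_ne_zero 2 fun h => hx ((sigma_eq_zero x).1 h)
    exact h1.congr fun x hx => hHoff x hx
  have hper : ∀ (x : ℂ) (b : Eis), H (x + ec b) = H x := by
    intro x b
    have hiff : x + ec b ∈ LO.lattice ↔ x ∈ LO.lattice := by
      constructor
      · intro h
        have := sub_mem h (ec_mem b)
        rwa [add_sub_cancel_right] at this
      · intro h
        exact add_mem h (ec_mem b)
    by_cases hx : x ∈ LO.lattice
    · rw [hH, hH, if_pos hx, if_pos (hiff.2 hx)]
    · rw [hHoff _ hx, hHoff _ (fun h => hx (hiff.1 h)), FF_per]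
      have := LO.weierstrassP_add_coe x ⟨ec b, ec_mem b⟩
      simp only at this
      rw [this]
  have hc : ContinuousAt H 0 := by
    rw [continuousAt_iff_punctured_nhds]
    have h0 : H 0 = KK u 0 := by rw [hH, if_pos (zero_mem _)]
    rw [h0]
    have h1 : Filter.Tendsto (KK u) (nhdsWithin 0 {0}ᶜ) (nhds (KK u 0)) :=
      (KK_cont u).tendsto.mono_left nhdsWithin_le_nhds
    refine h1.congr' ?_
    have h2 := LO.compl_lattice_sdiff_singleton_mem_nhds 0
    filter_upwards [mem_nhdsWithin_of_mem_nhds h2, self_mem_nhdsWithin] with x hx hx0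
    have hx' : x ∉ LO.lattice := fun h => hx ⟨h, hx0⟩
    rw [hHoff x hx', KK_eq u hx']
  have h1 := swp_liouville hd hper hc z u
  rw [hHoff z hz, hHoff u hu] at h1
  have h2 : FF u u = 0 := by
    unfold FF NN
    rw [sub_self, sigma_zero, mul_zero, zero_div]
  rw [h2, zero_add, FF, NN] at h1
  field_simp at h1 ⊢
  linear_combination h1

end MPd9f52e
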