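import Mathlib
import Pool.Agent.Lib.MP_d9f52e_nt.EBas
import Pool.Agent.Lib.MP_5e64e7_nt.OWp
import Pool.Agent.Lib.MP_5e64e7_nt.OAdd

/-!
# WG3: the curve y^2 + y = x^3  (about 250 lines)

`LO.lattice` is stable under `w` (`mem_LO`).  `wp(w z) = w^{-2} wp z = w wp z`, `wp'(w z) = w^{-3} wp' z = wp' z` (reindex the series by `l -> w l`).
`G 4` is multiplied by `w^{-4} <> 1` under the reindexing: `g2 = 0`.
`g3 <> 0`: otherwise `wp'^2 = 4 wp^3` (`derivWeierstrassP_sq`) and `wp_dup` (Pool.Agent.Lib.MP_5e64e7_nt.OAdd: `4 wp'(u)^2 (wp(2u) + 2 wp u) = (6 wp(u)^2)^2`) give for `u, 2u` off the lattice, `wp u <> 0`: `wp(2u) = wp(u)/4`; if `wp u = 0` then `wp' u = 0`.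
Let `v_k = 1/2^k`.  `wp'(1/2) = 0` (odd and periodic) so `wp(1/2) = 0` from `wp'^2 = 4 wp^3`; if `wp(v_k) = 0` and `wp(v_{k+1}) <> 0` then `wp(v_k) = wp(v_{k+1})/4 <> 0`, contradiction; so `wp(1/2^k) = 0` for all `k >= 1`,
but `|wp(1/2^k)| -> oo` (`wp_pole` in Pool.Agent.Lib.MP_5e64e7_nt.OWp).
`g3` real: complex conjugation maps the lattice to itself.  `Om^6 = -g3` (`Complex.cpow_nat_inv_pow`), `Om <> 0`.
Curve: `wp'^2 = 4wp^3 - g3`, divide by `Om^6`: `(2y+1)^2 = 4x^3 + 1`.
Conjugation: `conj(wp z) = wp(conj z)`, `conj(wp' z) = wp'(conj z)`.  `c = conj Om/Om` has `c^6 = 1` (as `Om^6` is real), so `c = ec e` for a unit `e` (the six sixth roots of unity are `±w^j`).  `conj(x z) = wp(conj z)/(conj Om)^2 = c^{-2} x(conj z)`,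
and `x(ec e' z) = ec e'^{-2} x(z)` for every unit `e'` (`x(wz) = w x(z) = w^{-2} x(z)`, `x(-z) = x(z)`), `wp'(ec e' z) = ec e'^{-3} wp'(z)`: so with `e' = e`: `conj(x z) = x(ec e conj z)`, `conj(y z) = (c^{-3} wp'(conj z)/Om^3 - 1)/2 = y(ec e conj z)`.
-/

set_option autoImplicit false

namespace MPd9f52e

open Complex

/-- multiplication by a unit of `Eis` on the lattice -/
private noncomputable def uEq (ε : Eisˣ) : LO.lattice ≃ LO.lattice where
  toFun l := ⟨ec ε * l, by
    obtain ⟨b, hb⟩ := (mem_LO _).1 l.2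
    exact (mem_LO _).2 ⟨ε * b, by rw [map_mul, hb]⟩⟩
  invFun l := ⟨ec (ε⁻¹ : Eisˣ) * l, by
    obtain ⟨b, hb⟩ := (mem_LO _).1 l.2
    exact (mem_LO _).2 ⟨(ε⁻¹ : Eisˣ) * b, by rw [map_mul, hb]⟩⟩
  left_inv l := by
    apply Subtype.ext
    simp only
    rw [← mul_assoc, ← map_mul, Units.inv_mul, map_one, one_mul]
  right_inv l := by
    apply Subtype.ext
    simp only
    rw [← mul_assoc, ← map_mul, Units.mul_inv, map_one, one_mul]

/-- complex conjugation on the lattice -/
private noncomputable def cEq : LO.lattice ≃ LO.lattice where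
  toFun l := ⟨(starRingEnd ℂ) l, by
    obtain ⟨b, hb⟩ := (mem_LO _).1 l.2
    exact (mem_LO _).2 ⟨star b, by rw [ec_star, hb]⟩⟩
  invFun l := ⟨(starRingEnd ℂ) l, by
    obtain ⟨b, hb⟩ := (mem_LO _).1 l.2
    exact (mem_LO _).2 ⟨star b, by rw [ec_star, hb]⟩⟩
  left_inv l := by
    apply Subtype.ext
    simp
  right_inv l := by
    apply Subtype.ext
    simp

private theorem ecu_ne (ε : Eisˣ) : ec ε ≠ 0 := by
  intro h
  have := norm_unit ε
  rw [h, norm_zero] at this
  exact zero_ne_one this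

private theorem wp_unit (ε : Eisˣ) (z : ℂ) :
    LO.weierstrassP (ec ε * z) = ((ec ε) ^ 2)⁻¹ * LO.weierstrassP z := by
  unfold PeriodPair.weierstrassP
  rw [← (uEq ε).tsum_eq, ← tsum_mul_left]
  congr 1
  funext l
  have h : ((uEq ε l : LO.lattice) : ℂ) = ec ε * l := rfl
  rw [h]
  have h0 := ecu_ne ε
  rw [← mul_sub, mul_pow, mul_pow]
  by_cases h1 : (l : ℂ) = 0
  · rw [h1]
    by_cases h2 : z - 0 = 0
    · rw [h2]; simp
    · field_simp
  · by_cases h2 : z - (l : ℂ) = 0
    · rw [h2]; simp [mul_comm]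
    · field_simp

private theorem wpd_unit (ε : Eisˣ) (z : ℂ) :
    LO.derivWeierstrassP (ec ε * z) = ((ec ε) ^ 3)⁻¹ * LO.derivWeierstrassP z := by
  unfold PeriodPair.derivWeierstrassP
  rw [← (uEq ε).tsum_eq, mul_neg, ← tsum_mul_left]
  congr 2
  funext l
  have h : ((uEq ε l : LO.lattice) : ℂ) = ec ε * l := rfl
  rw [h]
  rw [← mul_sub, mul_pow, div_eq_mul_inv, mul_inv, div_eq_mul_inv]
  ring

private theorem G_unit (ε : Eisˣ) (n : ℕ) : LO.G n = ((ec ε) ^ n)⁻¹ * LO.G n := by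
  unfold PeriodPair.G
  rw [← tsum_mul_left, ← (uEq ε).tsum_eq (fun l : LO.lattice => ((l : ℂ) ^ n)⁻¹)]
  congr 1
  funext l
  have h : ((uEq ε l : LO.lattice) : ℂ) = ec ε * l := rfl
  rw [h, mul_pow, mul_inv]

private noncomputable def omU : Eisˣ where
  val := om
  inv := om ^ 2
  val_inv := by rw [← pow_succ', om_pow_three]
  inv_val := by rw [← pow_succ, om_pow_three]

private theorem ec_omU : ec (omU : Eis) = w := ec_om

private theorem w_ne : w ≠ 0 := by
  intro h
  have := norm_w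
  rw [h, norm_zero] at this
  exact zero_ne_one this

theorem g2_zero : LO.g₂ = 0 := by
  have h := G_unit omU 4
  rw [ec_omU] at h
  have h4 : w ^ 4 = w := by
    rw [show (4 : ℕ) = 3 + 1 from rfl, pow_succ, w_pow_three, one_mul]
  rw [h4] at h
  have h5 : (1 - w⁻¹) * LO.G 4 = 0 := by linear_combination h
  have h6 : (1 - w⁻¹) ≠ 0 := by
    intro h7
    apply w_ne_one
    have : w⁻¹ = 1 := by linear_combination -h7
    exact inv_eq_one.1 this
  have h8 := (mul_eq_zero.1 h5).resolve_left h6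
  rw [PeriodPair.g₂, h8, mul_zero]

private theorem wp_star (z : ℂ) :
    (starRingEnd ℂ) (LO.weierstrassP z) = LO.weierstrassP ((starRingEnd ℂ) z) := by
  unfold PeriodPair.weierstrassP
  rw [← cEq.tsum_eq, conj_tsum]
  congr 1
  funext l
  have h : ((cEq l : LO.lattice) : ℂ) = (starRingEnd ℂ) l := rfl
  rw [h]
  simp

private theorem wpd_star (z : ℂ) :
    (starRingEnd ℂ) (LO.derivWeierstrassP z) = LO.derivWeierstrassP ((starRingEnd ℂ) z) := by
  unfold PeriodPair.derivWeierstrassP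
  rw [← cEq.tsum_eq, map_neg, conj_tsum]
  congr 2
  funext l
  have h : ((cEq l : LO.lattice) : ℂ) = (starRingEnd ℂ) l := rfl
  rw [h, map_div₀, map_pow, map_sub, Complex.conj_conj]
  congr 1
  exact Complex.conj_ofNat 2

theorem g3_real : (starRingEnd ℂ) LO.g₃ = LO.g₃ := by
  unfold PeriodPair.g₃ PeriodPair.G
  rw [map_mul]
  congr 1
  · exact Complex.conj_ofNat 140
  · rw [conj_tsum, ← cEq.tsum_eq]
    congr 1
    funext l
    have h : ((cEq l : LO.lattice) : ℂ) = (starRingEnd ℂ) l := rfl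
    rw [h]
    simp

/-- the dyadic points -/
private noncomputable def vk (k : ℕ) : ℂ := 1 / 2 ^ (k + 1)

private theorem vk_not (k : ℕ) : vk k ∉ LO.lattice := by
  intro h
  obtain ⟨b, hb⟩ := (mem_LO _).1 h
  have hb0 : b ≠ 0 := by
    rintro rfl
    rw [map_zero] at hb
    unfold vk at hb
    have : (1 : ℂ) / 2 ^ (k + 1) ≠ 0 := div_ne_zero one_ne_zero (pow_ne_zero _ two_ne_zero)
    exact this hb.symm
  have h1 := one_le_norm_ec hb0
  rw [hb] at h1
  unfold vk at h1
  rw [norm_div, norm_one, norm_pow, Complex.norm_ofNat] at h1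
  have h2 : (1 : ℝ) < 2 ^ (k + 1) := one_lt_pow₀ (by norm_num) (by omega)
  have h3 : (1 : ℝ) / 2 ^ (k + 1) < 1 := by
    rw [div_lt_one (by positivity)]
    exact h2
  linarith

private theorem vk_two (k : ℕ) : vk (k + 1) + vk (k + 1) = vk k := by
  unfold vk
  field_simp
  ring

private theorem wp_vk (h0 : LO.g₃ = 0) (k : ℕ) : LO.weierstrassP (vk k) = 0 := by
  have hsq : ∀ z, z ∉ LO.lattice → LO.derivWeierstrassP z ^ 2 = 4 * LO.weierstrassP z ^ 3 := by
    intro z hz
    have := LO.derivWeierstrassP_sq z hz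
    rw [g2_zero, h0] at this
    linear_combination this
  induction k with
  | zero =>
    have h1 : LO.derivWeierstrassP (vk 0) = 0 := by
      have h2 : vk 0 = -vk 0 + ((⟨ec 1, ec_mem 1⟩ : LO.lattice) : ℂ) := by
        simp only [map_one]
        unfold vk
        norm_num
      have h3 := LO.derivWeierstrassP_add_coe (-vk 0) ⟨ec 1, ec_mem 1⟩
      rw [← h2, LO.derivWeierstrassP_neg] at h3
      linear_combination h3 / 2
    have h2 := hsq _ (vk_not 0)
    rw [h1] at h2
    have h3 : LO.weierstrassP (vk 0) ^ 3 = 0 := by linear_combination -h2 / 4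
    exact pow_eq_zero_iff (by norm_num) |>.1 h3
  | succ k ih =>
    by_contra hne
    have hd := Pool.Agent.Lib.MP5e.wp_dup LO (vk_not (k + 1)) (by rw [vk_two]; exact vk_not k)
    rw [vk_two, ih, hsq _ (vk_not (k + 1)), g2_zero] at hd
    have : LO.weierstrassP (vk (k + 1)) ^ 4 = 0 := by linear_combination -hd / 4
    exact hne (pow_eq_zero_iff (by norm_num) |>.1 this)

theorem g3_ne_zero : LO.g₃ ≠ 0 := by
  intro h0
  have ht := Pool.Agent.Lib.MP5e.wp_pole LO (l := 0) (zero_mem _)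
  have hv : Filter.Tendsto vk Filter.atTop (nhdsWithin 0 {0}ᶜ) := by
    rw [tendsto_nhdsWithin_iff]
    constructor
    · have h1 : Filter.Tendsto (fun k : ℕ => ((1 / 2 : ℂ)) ^ (k + 1)) Filter.atTop (nhds 0) := by
        apply (tendsto_pow_atTop_nhds_zero_of_norm_lt_one _).comp (Filter.tendsto_add_atTop_nat 1)
        rw [norm_div, norm_one, Complex.norm_ofNat]
        norm_num
      refine h1.congr fun k => ?_
      unfold vk
      rw [one_div, one_div, inv_pow]
    · refine Filter.Eventually.of_forall fun k => ?_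
      intro h
      apply vk_not k
      have : vk k = 0 := h
      rw [this]
      exact zero_mem _
  have h2 := ht.comp hv
  have h3 : (fun t => ‖LO.weierstrassP t‖) ∘ vk = fun _ => (0 : ℝ) := by
    funext k
    simp [wp_vk h0 k]
  rw [h3] at h2
  exact not_tendsto_nhds_of_tendsto_atTop h2 0 tendsto_const_nhds

theorem Om_pow : Om ^ 6 = -LO.g₃ := by
  unfold Om
  have := Complex.cpow_nat_inv_pow (-LO.g₃) (n := 6) (by norm_num)
  convert this using 3
  norm_num

theorem Om_ne_zero : Om ≠ 0 := by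
  intro h
  have := Om_pow
  rw [h] at this
  apply g3_ne_zero
  linear_combination this

theorem curve {z : ℂ} (hz : z ∉ LO.lattice) : yy z ^ 2 + yy z = xx z ^ 3 := by
  have h := LO.derivWeierstrassP_sq z hz
  rw [g2_zero] at h
  have h6 := Om_pow
  have h0 := Om_ne_zero
  unfold yy xx
  field_simp
  linear_combination h - h6

theorem xx_add (z : ℂ) (b : Eis) : xx (z + ec b) = xx z := by
  unfold xx
  have := LO.weierstrassP_add_coe z ⟨ec b, ec_mem b⟩
  simp only at this
  rw [this]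

theorem yy_add (z : ℂ) (b : Eis) : yy (z + ec b) = yy z := by
  unfold yy
  have := LO.derivWeierstrassP_add_coe z ⟨ec b, ec_mem b⟩
  simp only at this
  rw [this]

theorem xx_neg (z : ℂ) : xx (-z) = xx z := by
  unfold xx
  rw [LO.weierstrassP_neg]

theorem yy_neg (z : ℂ) : yy (-z) = -1 - yy z := by
  unfold yy
  rw [LO.derivWeierstrassP_neg]
  ring

theorem xx_om (z : ℂ) : xx (w * z) = w * xx z := by
  have h := wp_unit omU z
  rw [ec_omU] at h
  have h2 : (w ^ 2)⁻¹ = w := inv_eq_of_mul_eq_one_right (by rw [← pow_succ, w_pow_three])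
  unfold xx
  rw [h, h2]
  ring

theorem yy_om (z : ℂ) : yy (w * z) = yy z := by
  have h := wpd_unit omU z
  rw [ec_omU, w_pow_three, inv_one, one_mul] at h
  unfold yy
  rw [h]

private theorem ecu_six (ε : Eisˣ) : (ec ε) ^ 6 = 1 := by
  obtain ⟨j, -, h | h⟩ := units_eq ε
  · rw [h, map_pow, ec_om, ← pow_mul, mul_comm, pow_mul, show w ^ 6 = (w ^ 3) ^ 2 by ring, w_pow_three]
    simp
  · rw [h, map_neg, map_pow, ec_om, neg_pow, ← pow_mul, mul_comm j 6, pow_mul, show w ^ 6 = (w ^ 3) ^ 2 by ring,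
      w_pow_three]
    norm_num

theorem xx_cube_unit (ε : Eisˣ) (z : ℂ) : xx (ec ε * z) ^ 3 = xx z ^ 3 := by
  unfold xx
  rw [wp_unit, div_pow, div_pow, mul_pow, inv_pow, ← pow_mul, ecu_six]
  simp

private theorem exists_unit_of_six {c : ℂ} (hc : c ^ 6 = 1) : ∃ ε : Eisˣ, ec ε = c := by
  have key : ∀ c : ℂ, c ^ 3 = 1 → ∃ ε : Eisˣ, ec ε = c := by
    intro c hc
    have h1 : (c - 1) * ((c - w) * (c - w ^ 2)) = 0 := by
      linear_combination hc + (c - c ^ 2) * w_sq + (c - 1) * w_pow_three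
    rcases mul_eq_zero.1 h1 with h | h
    · exact ⟨1, by rw [Units.val_one, map_one]; linear_combination -h⟩
    · rcases mul_eq_zero.1 h with h | h
      · exact ⟨omU, by rw [ec_omU]; linear_combination -h⟩
      · exact ⟨omU ^ 2, by rw [Units.val_pow_eq_pow_val, map_pow, ec_omU]; linear_combination -h⟩
  have h1 : (c ^ 3 - 1) * (c ^ 3 + 1) = 0 := by linear_combination hc
  rcases mul_eq_zero.1 h1 with h | h
  · exact key c (by linear_combination h)
  · obtain ⟨ε, hε⟩ := key (-c) (by linear_combination -h)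
    exact ⟨-ε, by rw [Units.val_neg, map_neg, hε, neg_neg]⟩

theorem conj_xy : ∃ ε : Eisˣ, ∀ z : ℂ, (starRingEnd ℂ) (xx z) = xx (ec ε * (starRingEnd ℂ) z) ∧
    (starRingEnd ℂ) (yy z) = yy (ec ε * (starRingEnd ℂ) z) := by
  have h0 := Om_ne_zero
  have h0' : (starRingEnd ℂ) Om ≠ 0 := by
    rw [Ne, map_eq_zero]
    exact h0
  have hc : ((starRingEnd ℂ) Om / Om) ^ 6 = 1 := by
    rw [div_pow, ← map_pow, Om_pow, map_neg, g3_real, div_self]
    exact neg_ne_zero.2 g3_ne_zero
  obtain ⟨ε, hε⟩ := exists_unit_of_six hc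
  refine ⟨ε, fun z => ⟨?_, ?_⟩⟩
  · unfold xx
    rw [wp_unit, map_div₀, wp_star, map_pow, hε]
    field_simp
  · unfold yy
    rw [wpd_unit, map_div₀, map_sub, map_div₀, wpd_star, map_pow, map_one, hε, Complex.conj_ofNat]
    field_simp

end MPd9f52e
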