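import Mathlib
import Pool.Agent.Lib.MP_d9f52e_nt.WG3
import Pool.Agent.Lib.MP_d9f52e_nt.SWp
import Pool.Agent.Lib.MP_5e64e7_nt.OAdd

/-!
# WRel: addition relations for x  (about 200 lines)

From `wp_add`, `wp_sym`, `wp_dup` (Pool.Agent.Lib.MP_5e64e7_nt.OAdd, for every PeriodPair) with `g2 = 0`, `g3 = -Om^6`, divided by powers of `Om`: `wp z = Om^2 x`, `wp' z = Om^3 (2y+1)`.
`xx_sum` is `wp_sym`.  `xx_prod`: from `wp_add` for `(z,u)` and `(z,-u)`: `x(z±u) = ((y(z) ∓' ...)/(x z - x u))^2 - x z - x u`: with `A = (2y z+1)`, `B = (2 y u + 1)`, `D = x z - x u <> 0` [if `D = 0` see below], `x(z+u) = (A - B)^2/(4D^2) - x z - x u`, `x(z-u) = (A+B)^2/(4D^2) - x z - x u`,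
`A^2 = 4 x(z)^3 + 1`, `B^2 = 4 x(u)^3 + 1`; the product is a polynomial identity (`field_simp; ring` after eliminating `A^2, B^2`; note that `(A-B)^2 (A+B)^2 = (A^2-B^2)^2` and `(A-B)^2+(A+B)^2 = 2(A^2+B^2)`).
`D <> 0` (this is `xx_inj`): `wp_sigma` (module SWp): `wp z - wp u = 0` iff `z + u` or `z - u` is in the lattice (`sigma_eq_zero`).
`xx_dup`: `wp_dup`, and `4x^3+1 = (2y+1)^2 <> 0` if `2z` is off the lattice; `xx_two_tor`: `wp'` is odd and periodic so `wp' z = 0` if `2z` in the lattice, `z` not.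
-/

set_option autoImplicit false

namespace MPd9f52e

open Complex

private theorem wp_xx (z : ℂ) : LO.weierstrassP z = Om ^ 2 * xx z := by
  unfold xx
  rw [mul_div_cancel₀ _ (pow_ne_zero 2 Om_ne_zero)]

private theorem dwp_yy (z : ℂ) : LO.derivWeierstrassP z = Om ^ 3 * (2 * yy z + 1) := by
  have h : 2 * yy z + 1 = LO.derivWeierstrassP z / Om ^ 3 := by
    unfold yy
    ring
  rw [h, mul_div_cancel₀ _ (pow_ne_zero 3 Om_ne_zero)]

theorem xx_inj {z u : ℂ} (hz : z ∉ LO.lattice) (hu : u ∉ LO.lattice) (h : xx z = xx u) :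
    z - u ∈ LO.lattice ∨ z + u ∈ LO.lattice := by
  have h1 := wp_sigma hz hu
  rw [wp_xx, wp_xx, h, sub_self] at h1
  have h2 : sigma z ^ 2 * sigma u ^ 2 ≠ 0 :=
    mul_ne_zero (pow_ne_zero 2 fun h => hz ((sigma_eq_zero z).1 h))
      (pow_ne_zero 2 fun h => hu ((sigma_eq_zero u).1 h))
  have h3 : -(sigma (z + u) * sigma (z - u)) = 0 := by
    rcases div_eq_zero_iff.1 h1.symm with h | h
    · exact h
    · exact absurd h h2
  rcases mul_eq_zero.1 (neg_eq_zero.1 h3) with h | h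
  · exact Or.inr ((sigma_eq_zero _).1 h)
  · exact Or.inl ((sigma_eq_zero _).1 h)

theorem xx_sum {z u : ℂ} (hz : z ∉ LO.lattice) (hu : u ∉ LO.lattice) (h1 : z + u ∉ LO.lattice) (h2 : z - u ∉ LO.lattice) :
    (xx (z + u) + xx (z - u)) * (xx z - xx u) ^ 2 = 2 * xx z * xx u * (xx z + xx u) + 1 := by
  have h := Pool.Agent.Lib.MP5e.wp_sym LO hz hu h1 h2
  rw [g2_zero] at h
  simp only [wp_xx] at h
  have h6 := Om_pow
  refine mul_left_cancel₀ (pow_ne_zero 6 Om_ne_zero) ?_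
  linear_combination h - h6

private theorem add_rel {z u : ℂ} (hz : z ∉ LO.lattice) (hu : u ∉ LO.lattice)
    (h1 : z + u ∉ LO.lattice) :
    ((2 * yy z + 1) - (2 * yy u + 1)) ^ 2 = 4 * (xx z + xx u + xx (z + u)) * (xx z - xx u) ^ 2 := by
  have h := Pool.Agent.Lib.MP5e.wp_add LO hz hu h1
  simp only [wp_xx, dwp_yy] at h
  refine mul_left_cancel₀ (pow_ne_zero 6 Om_ne_zero) ?_
  linear_combination h

private theorem neg_not_mem {u : ℂ} (hu : u ∉ LO.lattice) : -u ∉ LO.lattice := fun h =>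
  hu (by simpa using neg_mem h)

private theorem curve' {z : ℂ} (hz : z ∉ LO.lattice) : (2 * yy z + 1) ^ 2 = 4 * xx z ^ 3 + 1 := by
  linear_combination 4 * curve hz

theorem xx_prod {z u : ℂ} (hz : z ∉ LO.lattice) (hu : u ∉ LO.lattice) (h1 : z + u ∉ LO.lattice) (h2 : z - u ∉ LO.lattice) :
    xx (z + u) * xx (z - u) * (xx z - xx u) ^ 2 = (xx z * xx u) ^ 2 - (xx z + xx u) := by
  have e1 := add_rel hz hu h1
  have e2 := add_rel hz (neg_not_mem hu) (by rwa [← sub_eq_add_neg])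
  rw [xx_neg, yy_neg, ← sub_eq_add_neg z u] at e2
  have e2' : ((2 * yy z + 1) + (2 * yy u + 1)) ^ 2 =
      4 * (xx z + xx u + xx (z - u)) * (xx z - xx u) ^ 2 := by
    rw [← e2]
    ring
  have hA := curve' hz
  have hB := curve' hu
  have hD : xx z - xx u ≠ 0 := by
    intro h
    rcases xx_inj hz hu (sub_eq_zero.1 h) with h | h
    · exact h2 h
    · exact h1 h
  generalize 2 * yy z + 1 = A at *
  generalize 2 * yy u + 1 = B at *
  generalize xx (z + u) = S at *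
  generalize xx (z - u) = T at *
  generalize xx z = X at *
  generalize xx u = Y at *
  refine mul_left_cancel₀ (mul_ne_zero (by norm_num : (16 : ℂ) ≠ 0) (pow_ne_zero 2 hD)) ?_
  linear_combination (-(A - B) ^ 2 + 4 * (X + Y) * (X - Y) ^ 2) * e2' +
    (-(4 * (X + Y + T) * (X - Y) ^ 2) + 4 * (X + Y) * (X - Y) ^ 2) * e1 +
    ((A ^ 2 - B ^ 2 + 4 * (X ^ 3 - Y ^ 3)) - 8 * (X + Y) * (X - Y) ^ 2) * hA +
    (-(A ^ 2 - B ^ 2 + 4 * (X ^ 3 - Y ^ 3)) - 8 * (X + Y) * (X - Y) ^ 2) * hB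

theorem xx_dup {z : ℂ} (hz : z ∉ LO.lattice) (h2 : z + z ∉ LO.lattice) :
    xx (z + z) * (4 * xx z ^ 3 + 1) = xx z ^ 4 - 2 * xx z := by
  have h := Pool.Agent.Lib.MP5e.wp_dup LO hz h2
  rw [g2_zero] at h
  simp only [wp_xx, dwp_yy] at h
  have hA := curve' hz
  refine mul_left_cancel₀ (mul_ne_zero (by norm_num : (4 : ℂ) ≠ 0) (pow_ne_zero 8 Om_ne_zero)) ?_
  linear_combination h - 4 * Om ^ 8 * (xx (z + z) + 2 * xx z) * hA

theorem yy_two_tor {z : ℂ} (hz : z ∉ LO.lattice) (h2 : z + z ∈ LO.lattice) : 2 * yy z + 1 = 0 := by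
  obtain ⟨b, hb⟩ := (mem_LO _).1 h2
  have h := yy_add (-z) b
  rw [hb, yy_neg, show -z + (z + z) = z by ring] at h
  linear_combination h

theorem xx_two_tor {z : ℂ} (hz : z ∉ LO.lattice) (h2 : z + z ∈ LO.lattice) : 4 * xx z ^ 3 + 1 = 0 := by
  rw [← curve' hz, yy_two_tor hz h2]
  norm_num

/-- points with the same coordinates are congruent -/
theorem xy_inj {z u : ℂ} (hz : z ∉ LO.lattice) (hu : u ∉ LO.lattice) (h : xx z = xx u) (h' : yy z = yy u) :
    z - u ∈ LO.lattice := by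
  rcases xx_inj hz hu h with h1 | h1
  · exact h1
  obtain ⟨b, hb⟩ := (mem_LO _).1 h1
  have h3 : yy u = -1 - yy z := by
    have := yy_add (-z) b
    rwa [hb, yy_neg, show -z + (z + u) = u by ring] at this
  have h4 : 2 * yy z + 1 = 0 := by linear_combination h3 + h'
  have h5 : 4 * xx z ^ 3 + 1 = 0 := by
    rw [← curve' hz, h4]
    norm_num
  have h6 : z + z ∈ LO.lattice := by
    by_contra h6
    have h7 := xx_dup hz h6
    rw [h5, mul_zero] at h7
    have h8 : xx z * (xx z ^ 3 - 2) = 0 := by linear_combination -h7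
    rcases mul_eq_zero.1 h8 with h9 | h9
    · rw [h9] at h5
      norm_num at h5
    · have : (9 : ℂ) = 0 := by linear_combination h5 - 4 * h9
      norm_num at this
  have h7 : z - u = (z + z) - (z + u) := by ring
  rw [h7]
  exact sub_mem h6 h1

end MPd9f52e
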