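import Mathlib
import Pool.Agent.Lib.MP_d9f52e_nt.WRel

/-!
# WSurj: surjectivity of the uniformization  (about 150 lines)

Given `X`: if `wp z <> c = Om^2 X` for all `z` off the lattice, then `g = 1/(wp - c)` (extended by 0 on the lattice) is entire: near a lattice point `|wp| -> oo` (`wp_pole` in OWp), so `g -> 0` (removable singularity: `differentiable_on_compl_singleton...of_continuousAt`-type lemma), periodic, hence bounded, constant by Liouville, equal to 0: contradiction
(see the Liouville argument in Pool.Agent.Lib.MP_5e64e7_nt.OAdd).  Then `yy z` satisfies `y^2 + y = X^3`, so `yy z = Y` or `yy z = -1 - Y`, in the second case take `-z`.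
-/

set_option autoImplicit false

namespace MPd9f52e

open Complex

private lemma wsurj_wp (c : ℂ) : ∃ z : ℂ, z ∉ LO.lattice ∧ LO.weierstrassP z = c := by
  classical
  by_contra hcon
  push Not at hcon
  obtain ⟨H, hH⟩ : ∃ H : ℂ → ℂ, ∀ x, H x = if x ∈ LO.lattice then 0 else
    (LO.weierstrassP x - c)⁻¹ := ⟨_, fun _ => rfl⟩
  have hHoff : ∀ x, x ∉ LO.lattice → H x = (LO.weierstrassP x - c)⁻¹ := by
    intro x hx
    rw [hH, if_neg hx]
  have hd : DifferentiableOn ℂ H ((LO.lattice : Set ℂ)ᶜ) := by
    have h1 : DifferentiableOn ℂ (fun x => (LO.weierstrassP x - c)⁻¹)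
        ((LO.lattice : Set ℂ)ᶜ) := by
      refine (LO.differentiableOn_weierstrassP.sub_const c).inv fun x hx => ?_
      exact sub_ne_zero.2 (hcon x hx)
    exact h1.congr fun x hx => hHoff x hx
  have hper : ∀ (x : ℂ) (b : Eis), H (x + ec b) = H x := by
    intro x b
    have hiff : x + ec b ∈ LO.lattice ↔ x ∈ LO.lattice := by
      constructor
      · intro h
        have := sub_mem h (ec_mem b)
        rwa [add_sub_cancel_right] at this
      · intro h
        exact add_mem h (ec_mem b)
    by_cases hx : x ∈ LO.lattice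
    · rw [hH, hH, if_pos hx, if_pos (hiff.2 hx)]
    · rw [hHoff _ hx, hHoff _ (fun h => hx (hiff.1 h))]
      have := LO.weierstrassP_add_coe x ⟨ec b, ec_mem b⟩
      simp only at this
      rw [this]
  have hc : ContinuousAt H 0 := by
    rw [continuousAt_iff_punctured_nhds]
    have h0 : H 0 = 0 := by rw [hH, if_pos (zero_mem _)]
    rw [h0]
    have h1 : Filter.Tendsto (fun x => (LO.weierstrassP x - c)⁻¹) (nhdsWithin 0 {0}ᶜ) (nhds 0) := by
      have h2 := Pool.Agent.Lib.MP5e.wp_pole LO (l := 0) (zero_mem _)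
      have h3 : Filter.Tendsto (fun x => ‖LO.weierstrassP x - c‖) (nhdsWithin 0 {0}ᶜ)
          Filter.atTop := by
        refine Filter.tendsto_atTop_mono (fun x => ?_) (Filter.tendsto_atTop_add_const_right _
          (-‖c‖) h2)
        have := norm_sub_norm_le (LO.weierstrassP x) c
        linarith
      rw [tendsto_zero_iff_norm_tendsto_zero]
      simp only [norm_inv]
      exact h3.inv_tendsto_atTop
    refine h1.congr' ?_
    have h2 := LO.compl_lattice_sdiff_singleton_mem_nhds 0
    filter_upwards [mem_nhdsWithin_of_mem_nhds h2, self_mem_nhdsWithin] with x hx hx0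
    have hx' : x ∉ LO.lattice := fun h => hx ⟨h, hx0⟩
    rw [hHoff x hx']
  obtain ⟨z0, hz0⟩ := isConnected_compl.nonempty
  have h1 := swp_liouville hd hper hc z0 0
  rw [hHoff z0 hz0, hH, if_pos (zero_mem _), inv_eq_zero] at h1
  exact hcon z0 hz0 (sub_eq_zero.1 h1)

theorem exists_point {X Y : ℂ} (h : Y ^ 2 + Y = X ^ 3) : ∃ z : ℂ, z ∉ LO.lattice ∧ xx z = X ∧ yy z = Y := by
  obtain ⟨z, hz, hw⟩ := wsurj_wp (Om ^ 2 * X)
  have hx : xx z = X := by
    unfold xx
    rw [hw, mul_div_cancel_left₀ _ (pow_ne_zero 2 Om_ne_zero)]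
  have hc := curve hz
  rw [hx, ← h] at hc
  have h1 : (yy z - Y) * (yy z + Y + 1) = 0 := by linear_combination hc
  rcases mul_eq_zero.1 h1 with h2 | h2
  · exact ⟨z, hz, hx, sub_eq_zero.1 h2⟩
  · refine ⟨-z, fun h3 => hz (by simpa using neg_mem h3), ?_, ?_⟩
    · rw [xx_neg, hx]
    · rw [yy_neg]
      linear_combination -h2

end MPd9f52e
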