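import Mathlib
import Pool.Agent.Lib.MP_d9f52e_nt.WRel
import Pool.Agent.Lib.MP_5e64e7_nt.OAdd

/-!
# WY: addition formulas for the coordinate y  (about 200 lines)

Write `P = wp u`, `Q = wp v`, `S = wp(u+v)` etc. (`LO.weierstrassP`, `LO.derivWeierstrassP`), `g2 = 0` (`g2_zero`).
`wp_add` (Pool.Agent.Lib.MP_5e64e7_nt.OAdd): `(P' - Q')^2 = 4 (P + Q + S)(P - Q)^2`.  It holds for all `u` near the given one, so differentiate in `u` (`wp_first`, `wp_second` in OWp: `P'' = 6 P^2 - g2/2 = 6 P^2`):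
`2 (P' - Q') P'' = 4 (P' + S')(P - Q)^2 + 8 (P + Q + S)(P - Q) P'`; divide by `(P - Q)^2`: this determines `S'`.  Translate: `x = P/Om^2`, `2y + 1 = P'/Om^3`.
In terms of `x, y`: `l = (y1 - y2)/(x1 - x2)`, `x3 = l^2 - x1 - x2`, `y3 = -1 - (l (x3 - x1) + y1)`.
Duplication: `wp_dup`: `4 P'^2 (S + 2P) = (6P^2 - g2/2)^2 = 36 P^4` with `S = wp(u+u)`; differentiate: `8 P' P'' (S + 2P) + 4 P'^2 (2 S' + 2 P') = 144 P^3 P'`, divide by `8 P'^2`-multiples (`P' <> 0` as `2u` is off the lattice: from `xx_dup`: if `4x^3+1 = 0` then `x^4 = 2x`, so `x = 0` or `x^3 = 2`, contradiction).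
`l = 3 x^2/(2y+1)`, `x3 = l^2 - 2x`, `y3 = -1 - (l (x3 - x) + y)`.
-/

set_option autoImplicit false

namespace MPd9f52e

open Complex Pool.Agent.Lib.MP5e

private theorem wy_open : IsOpen ((LO.lattice : Set ℂ)ᶜ) := LO.isClosed_lattice.isOpen_compl

/-- the value of `wp'` at `z + u` -/
private theorem wy_add {z u : ℂ} (hz : z ∉ LO.lattice) (hu : u ∉ LO.lattice)
    (h : z + u ∉ LO.lattice) (hx : LO.weierstrassP z ≠ LO.weierstrassP u) :
    LO.derivWeierstrassP (z + u) =
      -((LO.derivWeierstrassP z - LO.derivWeierstrassP u) /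
        (LO.weierstrassP z - LO.weierstrassP u)) *
        (LO.weierstrassP (z + u) - LO.weierstrassP z) - LO.derivWeierstrassP z := by
  have hA := wp_add LO hz hu h
  have h1 := LO.derivWeierstrassP_sq z hz
  have h2 := LO.derivWeierstrassP_sq u hu
  rw [g2_zero, zero_mul, sub_zero] at h1 h2
  have d1 := wp_first LO hz
  have d2 := wp_second LO hz
  rw [g2_zero, zero_div, sub_zero] at d2
  have d3 := (wp_first LO h).comp_add_const z u
  have hF : HasDerivAt (fun p => (LO.derivWeierstrassP p - LO.derivWeierstrassP u) ^ 2 -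
      4 * (LO.weierstrassP p + LO.weierstrassP u + LO.weierstrassP (p + u)) *
        (LO.weierstrassP p - LO.weierstrassP u) ^ 2) _ z :=
    ((d2.sub_const _).pow 2).sub ((((d1.add_const _).add d3).const_mul 4).mul
      ((d1.sub_const _).pow 2))
  have hev : (fun p => (LO.derivWeierstrassP p - LO.derivWeierstrassP u) ^ 2 -
      4 * (LO.weierstrassP p + LO.weierstrassP u + LO.weierstrassP (p + u)) *
        (LO.weierstrassP p - LO.weierstrassP u) ^ 2) =ᶠ[nhds z] fun _ => (0 : ℂ) := by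
    have o1 : ∀ᶠ p in nhds z, p ∉ LO.lattice := wy_open.mem_nhds hz
    have o2 : ∀ᶠ p in nhds z, p + u ∉ LO.lattice :=
      (wy_open.preimage (continuous_id.add continuous_const)).mem_nhds h
    filter_upwards [o1, o2] with p hp hp'
    rw [wp_add LO hp hu hp', sub_self]
  have hD := hF.unique ((hasDerivAt_const z (0 : ℂ)).congr_of_eventuallyEq hev)
  simp only [Nat.cast_ofNat, Nat.add_one_sub_one, pow_one, Pi.add_apply] at hD
  set a := LO.weierstrassP z
  set b := LO.derivWeierstrassP z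
  set c := LO.weierstrassP u
  set d := LO.derivWeierstrassP u
  set S := LO.weierstrassP (z + u)
  set T := LO.derivWeierstrassP (z + u)
  have hac : a - c ≠ 0 := sub_ne_zero.2 hx
  obtain ⟨L, hL⟩ : ∃ L, b - d = L * (a - c) := ⟨(b - d) / (a - c), by field_simp⟩
  have hL' : (b - d) / (a - c) = L := by rw [hL]; field_simp
  rw [hL']
  -- `L ^ 2 = 4 (a + c + S)`
  have hS : L ^ 2 = 4 * (a + c + S) := by
    have : L ^ 2 * (a - c) ^ 2 = 4 * (a + c + S) * (a - c) ^ 2 := by
      rw [← hA, hL]; ring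
    exact mul_right_cancel₀ (pow_ne_zero 2 hac) this
  -- `L (b + d) = 4 (a^2 + a c + c^2)`
  have hR : L * (b + d) = 4 * (a ^ 2 + a * c + c ^ 2) := by
    apply mul_right_cancel₀ hac
    linear_combination (b + d) * (-hL) + h1 - h2
  have key : (T - (-L * (S - a) - b)) * (a - c) ^ 2 = 0 := by
    linear_combination (-1 / 4 : ℂ) * hD + (3 * a ^ 2 - L ^ 2 * (a - c) / 4) * hL
      + ((a - c) * b / 2 - L * (a - c) ^ 2 / 4) * hS - (1 / 4 : ℂ) * L * (a - c) * hR
  have := (mul_eq_zero.1 key).resolve_right (pow_ne_zero 2 hac)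
  linear_combination this

/-- the value of `wp'` at `z + z` -/
private theorem wy_dbl {z : ℂ} (hz : z ∉ LO.lattice) (h : z + z ∉ LO.lattice) :
    LO.derivWeierstrassP z ≠ 0 ∧ LO.derivWeierstrassP z * LO.derivWeierstrassP (z + z) =
      -6 * LO.weierstrassP z ^ 2 * (LO.weierstrassP (z + z) - LO.weierstrassP z) -
        LO.derivWeierstrassP z ^ 2 := by
  have hA := wp_dup LO hz h
  have h1 := LO.derivWeierstrassP_sq z hz
  rw [g2_zero, zero_mul, sub_zero] at h1
  rw [g2_zero, zero_div, sub_zero] at hA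
  have d1 := wp_first LO hz
  have d2 := wp_second LO hz
  rw [g2_zero, zero_div, sub_zero] at d2
  have d3 : HasDerivAt (fun p => LO.weierstrassP (p + p))
      (LO.derivWeierstrassP (z + z) * (1 + 1)) z :=
    HasDerivAt.comp z (h₂ := LO.weierstrassP) (h := fun p => p + p) (wp_first LO h)
      ((hasDerivAt_id z).add (hasDerivAt_id z))
  have hF : HasDerivAt (fun p => 4 * LO.derivWeierstrassP p ^ 2 *
      (LO.weierstrassP (p + p) + 2 * LO.weierstrassP p) - (6 * LO.weierstrassP p ^ 2) ^ 2) _ z :=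
    ((((d2.pow 2).const_mul 4).mul (d3.add (d1.const_mul 2)))).sub (((d1.pow 2).const_mul 6).pow 2)
  have hev : (fun p => 4 * LO.derivWeierstrassP p ^ 2 *
      (LO.weierstrassP (p + p) + 2 * LO.weierstrassP p) - (6 * LO.weierstrassP p ^ 2) ^ 2)
      =ᶠ[nhds z] fun _ => (0 : ℂ) := by
    have o1 : ∀ᶠ p in nhds z, p ∉ LO.lattice := wy_open.mem_nhds hz
    have o2 : ∀ᶠ p in nhds z, p + p ∉ LO.lattice :=
      (wy_open.preimage (continuous_id.add continuous_id)).mem_nhds h
    filter_upwards [o1, o2] with p hp hp'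
    have := wp_dup LO hp hp'
    rw [g2_zero, zero_div, sub_zero] at this
    rw [this, sub_self]
  have hD := hF.unique ((hasDerivAt_const z (0 : ℂ)).congr_of_eventuallyEq hev)
  simp only [Nat.cast_ofNat, Nat.add_one_sub_one, pow_one, Pi.add_apply, Pi.pow_apply] at hD
  set a := LO.weierstrassP z
  set b := LO.derivWeierstrassP z
  set S := LO.weierstrassP (z + z)
  set T := LO.derivWeierstrassP (z + z)
  have hb : b ≠ 0 := by
    intro hb
    rw [hb] at hA h1
    have ha : a = 0 := by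
      have : 36 * a ^ 4 = 0 := by linear_combination -hA
      simpa using this
    rw [ha] at h1
    exact g3_ne_zero (by linear_combination h1)
  refine ⟨hb, ?_⟩
  have key : (8 * b) * (b * T - (-6 * a ^ 2 * (S - a) - b ^ 2)) = 0 := by
    linear_combination hD
  have := (mul_eq_zero.1 key).resolve_left (mul_ne_zero (by norm_num) hb)
  linear_combination this

theorem xy_add {z u : ℂ} (hz : z ∉ LO.lattice) (hu : u ∉ LO.lattice) (h : z + u ∉ LO.lattice) (hx : xx z ≠ xx u) :
    xx (z + u) = ((yy z - yy u) / (xx z - xx u)) ^ 2 - xx z - xx u ∧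
      yy (z + u) = -1 - ((yy z - yy u) / (xx z - xx u) * (xx (z + u) - xx z) + yy z) := by
  have hO := Om_ne_zero
  have hx' : LO.weierstrassP z ≠ LO.weierstrassP u := by
    intro he
    exact hx (by unfold xx; rw [he])
  have hT := wy_add hz hu h hx'
  have hA := wp_add LO hz hu h
  unfold xx yy
  set a := LO.weierstrassP z
  set b := LO.derivWeierstrassP z
  set c := LO.weierstrassP u
  set d := LO.derivWeierstrassP u
  set S := LO.weierstrassP (z + u)
  set T := LO.derivWeierstrassP (z + u)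
  have hac : a - c ≠ 0 := sub_ne_zero.2 hx'
  have hl : ((b / Om ^ 3 - 1) / 2 - (d / Om ^ 3 - 1) / 2) / (a / Om ^ 2 - c / Om ^ 2) =
      (b - d) / (a - c) / (2 * Om) := by
    have e1 : a / Om ^ 2 - c / Om ^ 2 = (a - c) / Om ^ 2 := by ring
    have e2 : (b / Om ^ 3 - 1) / 2 - (d / Om ^ 3 - 1) / 2 = (b - d) / (2 * Om ^ 3) := by
      field_simp
      ring
    rw [e1, e2]
    field_simp
  rw [hl]
  constructor
  · have hS : S = ((b - d) / (a - c)) ^ 2 / 4 - a - c := by
      rw [div_pow, hA]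
      field_simp
      ring
    rw [hS]
    field_simp
    ring
  · rw [hT]
    field_simp
    ring

theorem xy_dbl {z : ℂ} (hz : z ∉ LO.lattice) (h : z + z ∉ LO.lattice) :
    2 * yy z + 1 ≠ 0 ∧ xx (z + z) = (3 * xx z ^ 2 / (2 * yy z + 1)) ^ 2 - 2 * xx z ∧
      yy (z + z) = -1 - (3 * xx z ^ 2 / (2 * yy z + 1) * (xx (z + z) - xx z) + yy z) := by
  have hO := Om_ne_zero
  obtain ⟨hb, hT⟩ := wy_dbl hz h
  have hA := wp_dup LO hz h
  rw [g2_zero, zero_div, sub_zero] at hA
  unfold xx yy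
  set a := LO.weierstrassP z
  set b := LO.derivWeierstrassP z
  set S := LO.weierstrassP (z + z)
  set T := LO.derivWeierstrassP (z + z)
  have e1 : 2 * ((b / Om ^ 3 - 1) / 2) + 1 = b / Om ^ 3 := by ring
  rw [e1]
  refine ⟨div_ne_zero hb (pow_ne_zero 3 hO), ?_, ?_⟩
  · have hS : S = 9 * a ^ 4 / b ^ 2 - 2 * a := by
      field_simp
      linear_combination (1 / 4 : ℂ) * hA
    rw [hS]
    field_simp
    ring
  · have hT' : T = -6 * a ^ 2 * (S - a) / b - b := by
      field_simp
      linear_combination hT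
    rw [hT']
    field_simp
    ring

end MPd9f52e
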