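import Mathlib
import Pool.Agent.Lib.MP_d9f52e_nt.WY
import Pool.Agent.Lib.MP_d9f52e_nt.WSurj

/-!
# WPsi: the uniformization as a homomorphism of groups  (about 200 lines)

`E0 : y^2 + y = x^3` over `ℤ`, `(E0⁄ℂ).Point` the group of Mathlib.  `Psi z = 0` on the lattice, `(xx z, yy z)` off the lattice (`curve`; nonsingular: `3x^2 = 0 = 2y+1` is impossible on the curve).
Additivity `Psi (z + u) = Psi z + Psi u`: trivial if `z` or `u` is in the lattice (`xx_add`, `yy_add`); if `z + u` is in the lattice: `Psi u = - Psi z` (`xx_neg`, `yy_neg`; Mathlib `negY x y = -y - a1 x - a3 = -y - 1`).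
Otherwise, if `xx z <> xx u`: `xy_add` and Mathlib's `Point.add_some` / `slope_of_X_ne`, `addX`, `addY`.  If `xx z = xx u` then (`xx_inj`, `z + u` off the lattice) `u = z` mod the lattice: `xy_dbl`, `slope_of_Y_ne` (slope `(3x^2)/(2y+1)`).
Surjectivity: `exists_point`.  Kernel: clear.
-/

set_option autoImplicit false

namespace MPd9f52e

open Complex

/-- the curve over `ℂ` -/
private noncomputable abbrev EC : WeierstrassCurve.Affine ℂ := WeierstrassCurve.Affine.baseChange E0 ℂ

private lemma EC_a1 : EC.a₁ = 0 := by simp [EC, E0, WeierstrassCurve.Affine.baseChange, WeierstrassCurve.baseChange]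
private lemma EC_a2 : EC.a₂ = 0 := by simp [EC, E0, WeierstrassCurve.Affine.baseChange, WeierstrassCurve.baseChange]
private lemma EC_a3 : EC.a₃ = 1 := by simp [EC, E0, WeierstrassCurve.Affine.baseChange, WeierstrassCurve.baseChange]
private lemma EC_a4 : EC.a₄ = 0 := by simp [EC, E0, WeierstrassCurve.Affine.baseChange, WeierstrassCurve.baseChange]
private lemma EC_a6 : EC.a₆ = 0 := by simp [EC, E0, WeierstrassCurve.Affine.baseChange, WeierstrassCurve.baseChange]

private lemma EC_eq {x y : ℂ} : EC.Equation x y ↔ y ^ 2 + y = x ^ 3 := by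
  rw [WeierstrassCurve.Affine.equation_iff, EC_a1, EC_a2, EC_a3, EC_a4, EC_a6]
  ring_nf

private lemma EC_ns {x y : ℂ} (h : y ^ 2 + y = x ^ 3) : EC.Nonsingular x y := by
  rw [WeierstrassCurve.Affine.nonsingular_iff', EC_a1, EC_a2, EC_a3, EC_a4, EC_eq]
  refine ⟨h, ?_⟩
  by_contra hc
  push Not at hc
  obtain ⟨h1, h2⟩ := hc
  have hx : x = 0 := by
    have : x ^ 2 = 0 := by linear_combination (-1 / 3 : ℂ) * h1
    exact pow_eq_zero_iff (two_ne_zero) |>.1 this
  rw [hx] at h
  have : (1 : ℂ) = 0 := by linear_combination (2 * y + 1) * h2 - 4 * h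
  exact one_ne_zero this

private lemma EC_negY (x y : ℂ) : EC.negY x y = -y - 1 := by
  rw [WeierstrassCurve.Affine.negY, EC_a1, EC_a3]
  ring

open Classical in
/-- the map -/
private noncomputable def psi (z : ℂ) : EC.Point :=
  if h : z ∈ LO.lattice then 0 else WeierstrassCurve.Affine.Point.some (xx z) (yy z) (EC_ns (curve h))

private lemma psi_mem {z : ℂ} (h : z ∈ LO.lattice) : psi z = 0 := by
  unfold psi
  rw [dif_pos h]

private lemma psi_nmem {z : ℂ} (h : z ∉ LO.lattice) :
    psi z = WeierstrassCurve.Affine.Point.some (xx z) (yy z) (EC_ns (curve h)) := by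
  unfold psi
  rw [dif_neg h]

private lemma some_congr {x y x' y' : ℂ} {h : EC.Nonsingular x y} {h' : EC.Nonsingular x' y'}
    (hx : x = x') (hy : y = y') :
    WeierstrassCurve.Affine.Point.some x y h = WeierstrassCurve.Affine.Point.some x' y' h' := by
  subst hx
  subst hy
  rfl

private lemma xx_congr {z u : ℂ} (h : z - u ∈ LO.lattice) : xx z = xx u ∧ yy z = yy u := by
  obtain ⟨b, hb⟩ := (mem_LO _).1 h
  have e : z = u + ec b := by rw [hb]; ring
  rw [e]
  exact ⟨xx_add u b, yy_add u b⟩

private lemma psi_congr {z u : ℂ} (h : z - u ∈ LO.lattice) : psi z = psi u := by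
  by_cases hu : u ∈ LO.lattice
  · have hz : z ∈ LO.lattice := by
      have := add_mem h hu
      rwa [sub_add_cancel] at this
    rw [psi_mem hz, psi_mem hu]
  · have hz : z ∉ LO.lattice := by
      intro hz
      apply hu
      have := sub_mem hz h
      rwa [sub_sub_cancel] at this
    rw [psi_nmem hz, psi_nmem hu]
    exact some_congr (xx_congr h).1 (xx_congr h).2

private lemma psi_add (z u : ℂ) : psi (z + u) = psi z + psi u := by
  by_cases hz : z ∈ LO.lattice
  · rw [psi_mem hz, zero_add]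
    exact psi_congr (by rwa [add_sub_cancel_right])
  by_cases hu : u ∈ LO.lattice
  · rw [psi_mem hu, add_zero]
    exact psi_congr (by rwa [add_sub_cancel_left])
  by_cases hs : z + u ∈ LO.lattice
  · rw [psi_mem hs, psi_nmem hz, psi_nmem hu]
    have h1 : z - -u ∈ LO.lattice := by rwa [sub_neg_eq_add]
    have h2 := xx_congr h1
    rw [xx_neg, yy_neg] at h2
    refine (WeierstrassCurve.Affine.Point.add_of_Y_eq h2.1 ?_).symm
    change yy z = EC.negY _ _
    rw [EC_negY, h2.2]
    ring
  rw [psi_nmem hz, psi_nmem hu, psi_nmem hs]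
  by_cases hx : xx z = xx u
  · have h1 : z - u ∈ LO.lattice := (xx_inj hz hu hx).resolve_right hs
    have h2 := xx_congr h1
    have hs' : z + z ∉ LO.lattice := by
      intro h
      apply hs
      have := sub_mem h h1
      rwa [show z + z - (z - u) = z + u by ring] at this
    obtain ⟨h3, h4, h5⟩ := xy_dbl hz hs'
    have h6 : z + u - (z + z) ∈ LO.lattice := by
      have := neg_mem h1
      rwa [show -(z - u) = z + u - (z + z) by ring] at this
    have h7 := xx_congr h6
    have hne : yy z ≠ EC.negY (xx u) (yy u) := by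
      rw [EC_negY, ← h2.2]
      intro h
      apply h3
      linear_combination h
    rw [WeierstrassCurve.Affine.Point.add_of_Y_ne hne]
    have hsl : EC.slope (xx z) (xx u) (yy z) (yy u) = 3 * xx z ^ 2 / (2 * yy z + 1) := by
      rw [WeierstrassCurve.Affine.slope_of_Y_ne hx hne, EC_negY, EC_a1, EC_a2, EC_a4]
      congr 1 <;> ring
    have hX : EC.addX (xx z) (xx u) (EC.slope (xx z) (xx u) (yy z) (yy u)) = xx (z + u) := by
      rw [hsl, WeierstrassCurve.Affine.addX, EC_a1, EC_a2, h7.1, h4, ← h2.1]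
      ring
    refine some_congr hX.symm ?_
    change _ = EC.addY _ _ _ _
    rw [WeierstrassCurve.Affine.addY, WeierstrassCurve.Affine.negAddY, EC_negY, hX, hsl, h7.2, h5,
      h7.1]
    ring
  · obtain ⟨h4, h5⟩ := xy_add hz hu hs hx
    rw [WeierstrassCurve.Affine.Point.add_of_X_ne hx]
    have hsl : EC.slope (xx z) (xx u) (yy z) (yy u) = (yy z - yy u) / (xx z - xx u) :=
      WeierstrassCurve.Affine.slope_of_X_ne hx
    have hX : EC.addX (xx z) (xx u) (EC.slope (xx z) (xx u) (yy z) (yy u)) = xx (z + u) := by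
      rw [hsl, WeierstrassCurve.Affine.addX, EC_a1, EC_a2, h4]
      ring
    refine some_congr hX.symm ?_
    change _ = EC.addY _ _ _ _
    rw [WeierstrassCurve.Affine.addY, WeierstrassCurve.Affine.negAddY, EC_negY, hX, hsl, h5]
    ring

theorem exists_psi : ∃ Psi : ℂ →+ (WeierstrassCurve.Affine.baseChange E0 ℂ).Point, Function.Surjective Psi ∧
    (∀ z, Psi z = 0 ↔ z ∈ LO.lattice) ∧
    ∀ z, z ∉ LO.lattice → ∃ h, Psi z = WeierstrassCurve.Affine.Point.some (xx z) (yy z) h := by
  refine ⟨AddMonoidHom.mk' psi psi_add, ?_, ?_, ?_⟩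
  · rintro (_ | ⟨X, Y, h⟩)
    · exact ⟨0, psi_mem (zero_mem _)⟩
    · obtain ⟨z, hz, rfl, rfl⟩ := exists_point (EC_eq.1 h.1)
      exact ⟨z, psi_nmem hz⟩
  · intro z
    refine ⟨fun h => ?_, fun h => psi_mem h⟩
    by_contra hz
    have h1 : psi z = 0 := h
    rw [psi_nmem hz] at h1
    exact WeierstrassCurve.Affine.Point.some_ne_zero _ h1
  · intro z hz
    exact ⟨_, psi_nmem hz⟩

end MPd9f52e
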