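import Mathlib
import Pool.Agent.Lib.MP_d9f52e_nt.WPsi
import Pool.Agent.Lib.MP_d9f52e_nt.EEuc

/-!
# WAct: the action of an automorphism of C on the torsion  (about 200 lines)

`t : ℂ ≃+* ℂ` with `t w = w` acts on `(E0⁄ℂ).Point` by `WeierstrassCurve.Affine.Point.map` (`t` as a `ℤ`- or `ℚ`-algebra homomorphism), an injective homomorphism `T`.  Let `Psi` be as in `exists_psi`, `P = Psi (1/n)`.  `n T(P) = 0`, so `T P = Psi c` with `n c` in the lattice, `n c = ec u`.
`[w] : (x,y) -> (w x, y)` corresponds to `z -> w z` (`xx_om`, `yy_om`): `Psi (w z)` has coordinates `(w x, y)`, and `T` commutes with it since `t w = w`: `T (Psi (w/n)) = Psi (w c)`.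
For `r = A + B om`: `Psi(ec r/n) = A Psi(1/n) + B Psi(w/n)`, so `T(Psi(ec r/n)) = A Psi c + B Psi(w c) = Psi(ec r * c) = Psi(ec (u r)/n)`.  Compare coordinates (if `ec r/n` is off the lattice then so is `ec (u r)/n`, by injectivity of `T`).
`u` is prime to `n`: otherwise a prime `q` of `Eis` divides both, `n = q n'`, `u = q u'`; `ec n'/n = 1/ec q` is off the lattice, but `T(Psi(ec n'/n)) = Psi(ec (u n')/n) = Psi(ec u') = 0`.
Uniqueness: if `u, u'` both act then `x, y` at `u/n` and `u'/n` agree: `xy_inj`.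
-/

set_option autoImplicit false

namespace MPd9f52e

open Complex

private theorem w_mul_mem {z : ℂ} (h : z ∈ LO.lattice) : w * z ∈ LO.lattice := by
  obtain ⟨b, rfl⟩ := (mem_LO z).1 h
  rw [← ec_om, ← map_mul]
  exact ec_mem _

private theorem w_mul_mem_iff {z : ℂ} : w * z ∈ LO.lattice ↔ z ∈ LO.lattice := by
  refine ⟨fun h => ?_, w_mul_mem⟩
  have := w_mul_mem (w_mul_mem h)
  rwa [← mul_assoc, ← mul_assoc, ← pow_two, ← pow_succ, w_pow_three, one_mul] at this

/-- the homomorphism of the group of points given by `t` -/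
private noncomputable def TP (t : ℂ ≃+* ℂ) :
    (WeierstrassCurve.Affine.baseChange E0 ℂ).Point →+
      (WeierstrassCurve.Affine.baseChange E0 ℂ).Point :=
  WeierstrassCurve.Affine.Point.map (W' := E0) (t : ℂ →+* ℂ).toIntAlgHom

private theorem TP_some (t : ℂ ≃+* ℂ) {x y : ℂ}
    (h : (WeierstrassCurve.Affine.baseChange E0 ℂ).Nonsingular x y) :
    ∃ h', TP t (WeierstrassCurve.Affine.Point.some x y h) =
      WeierstrassCurve.Affine.Point.some (t x) (t y) h' :=
  ⟨_, rfl⟩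

private theorem TP_symm (t : ℂ ≃+* ℂ) (P : (WeierstrassCurve.Affine.baseChange E0 ℂ).Point) :
    TP t.symm (TP t P) = P := by
  cases P with
  | zero => rfl
  | some x y h =>
    obtain ⟨h', e⟩ := TP_some t h
    rw [e]
    obtain ⟨h'', e'⟩ := TP_some t.symm h'
    rw [e']
    simp only [RingEquiv.symm_apply_apply]

/-- the main construction -/
private theorem acts_aux {Psi : ℂ →+ (WeierstrassCurve.Affine.baseChange E0 ℂ).Point}
    (hsurj : Function.Surjective Psi) (hker : ∀ z, Psi z = 0 ↔ z ∈ LO.lattice)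
    (hsome : ∀ z, z ∉ LO.lattice → ∃ h, Psi z = WeierstrassCurve.Affine.Point.some (xx z) (yy z) h)
    (t : ℂ ≃+* ℂ) (ht : t w = w) {n : ℕ} (hn : 1 ≤ n) :
    ∃ u : Eis, ∀ r : Eis, TP t (Psi (ec r / n)) = Psi (ec (u * r) / n) := by
  have hn0 : (n : ℂ) ≠ 0 := Nat.cast_ne_zero.2 (by omega)
  -- multiplication by w
  have hw : ∀ z c : ℂ, TP t (Psi z) = Psi c → TP t (Psi (w * z)) = Psi (w * c) := by
    intro z c h
    by_cases hz : z ∈ LO.lattice
    · rw [(hker z).2 hz, map_zero] at h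
      have hc := (hker c).1 h.symm
      rw [(hker _).2 (w_mul_mem hz), (hker _).2 (w_mul_mem hc), map_zero]
    · obtain ⟨h1, e1⟩ := hsome z hz
      rw [e1] at h
      obtain ⟨h2, e2⟩ := TP_some t h1
      rw [e2] at h
      have hc : c ∉ LO.lattice := by
        intro hc
        rw [(hker c).2 hc] at h
        exact WeierstrassCurve.Affine.Point.some_ne_zero _ h
      obtain ⟨h3, e3⟩ := hsome c hc
      rw [e3] at h
      have hx := (WeierstrassCurve.Affine.Point.some.inj h).1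
      have hy := (WeierstrassCurve.Affine.Point.some.inj h).2
      obtain ⟨h4, e4⟩ := hsome (w * z) (fun hh => hz (w_mul_mem_iff.1 hh))
      obtain ⟨h5, e5⟩ := hsome (w * c) (fun hh => hc (w_mul_mem_iff.1 hh))
      rw [e4, e5]
      obtain ⟨h6, e6⟩ := TP_some t h4
      rw [e6]
      congr 1
      · rw [xx_om, xx_om, map_mul, ht, hx]
      · rw [yy_om, yy_om, hy]
  obtain ⟨c, hc⟩ := hsurj (TP t (Psi (1 / n)))
  have hnc : (n : ℂ) * c ∈ LO.lattice := by
    rw [← hker, ← nsmul_eq_mul, map_nsmul, hc, ← map_nsmul, ← map_nsmul, nsmul_eq_mul,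
      mul_one_div_cancel hn0, (hker 1).2, map_zero]
    have := ec_mem 1
    rwa [map_one] at this
  obtain ⟨u, hu⟩ := (mem_LO _).1 hnc
  refine ⟨u, fun r => ?_⟩
  have e1 : ec r / n = r.re • (1 / (n : ℂ)) + r.im • (w * (1 / (n : ℂ))) := by
    rw [ec_eq, zsmul_eq_mul, zsmul_eq_mul]
    ring
  have e2 : ec (u * r) / n = r.re • c + r.im • (w * c) := by
    rw [map_mul, hu, ec_eq r, zsmul_eq_mul, zsmul_eq_mul]
    field_simp
  rw [e1, e2, map_add, map_zsmul, map_zsmul, map_add, map_zsmul, map_zsmul, map_add, map_zsmul,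
    map_zsmul, hw _ c hc.symm, hc]

theorem exists_acts (t : ℂ ≃+* ℂ) (ht : t w = w) {n : ℕ} (hn : 1 ≤ n) : ∃ u : Eis, ActsBy t n u := by
  have hn0 : (n : ℂ) ≠ 0 := Nat.cast_ne_zero.2 (by omega)
  obtain ⟨Psi, hsurj, hker, hsome⟩ := exists_psi
  obtain ⟨u, hu⟩ := acts_aux hsurj hker hsome t ht hn
  obtain ⟨u', hu'⟩ := acts_aux hsurj hker hsome t.symm (by rw [RingEquiv.symm_apply_eq, ht]) hn
  refine ⟨u, ?_, fun r hr => ?_⟩
  · -- coprimality
    have h1 : TP t.symm (TP t (Psi (ec 1 / n))) = Psi (ec (u' * (u * 1)) / n) := by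
      rw [hu, hu']
    rw [TP_symm, mul_one] at h1
    have h2 : Psi (ec (u' * u) / n - ec 1 / n) = 0 := by rw [map_sub, h1, sub_self]
    rw [hker, ← sub_div, ← map_sub] at h2
    obtain ⟨b, hb⟩ := (mem_LO _).1 h2
    have h3 : u' * u - 1 = b * n := by
      apply ec_inj
      rw [map_mul, hb, map_natCast, div_mul_cancel₀ _ hn0]
    exact ⟨u', -b, by linear_combination h3⟩
  · obtain ⟨h1, e1⟩ := hsome _ hr
    have h := hu r
    rw [e1] at h
    obtain ⟨h2, e2⟩ := TP_some t h1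
    rw [e2] at h
    have hc : ec (u * r) / n ∉ LO.lattice := by
      intro hc
      rw [(hker _).2 hc] at h
      exact WeierstrassCurve.Affine.Point.some_ne_zero _ h
    obtain ⟨h3, e3⟩ := hsome _ hc
    rw [e3] at h
    exact WeierstrassCurve.Affine.Point.some.inj h

theorem acts_dvd {t : ℂ ≃+* ℂ} {n k : ℕ} (hk : 1 ≤ k) (h : n ∣ k) {u : Eis} (hu : ActsBy t k u) : ActsBy t n u := by
  obtain ⟨m, rfl⟩ := h
  have hk0 : ((n * m : ℕ) : ℂ) ≠ 0 := Nat.cast_ne_zero.2 (by omega)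
  have hnm : (n : ℂ) ≠ 0 ∧ (m : ℂ) ≠ 0 := by
    rw [Nat.cast_mul] at hk0
    exact mul_ne_zero_iff.1 hk0
  have hn0 := hnm.1
  have hm0 := hnm.2
  have key : ∀ r : Eis, ec (m * r) / ((n * m : ℕ) : ℂ) = ec r / n := by
    intro r
    rw [map_mul, map_natCast, Nat.cast_mul]
    field_simp
  refine ⟨?_, fun r hr => ?_⟩
  · refine IsCoprime.of_isCoprime_of_dvd_right hu.1 ?_
    rw [Nat.cast_mul]
    exact dvd_mul_right _ _
  · have h1 := hu.2 (m * r) (by rw [key]; exact hr)
    rw [key, mul_left_comm, key] at h1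
    exact h1

theorem acts_unique {t : ℂ ≃+* ℂ} {n : ℕ} (hn : 2 ≤ n) {u u' : Eis} (hu : ActsBy t n u) (hu' : ActsBy t n u') :
    (n : Eis) ∣ u - u' := by
  have hn0 : (n : Eis) ≠ 0 := by
    intro h
    have := congrArg nm h
    rw [nm_natCast, (nm_eq_zero 0).2 rfl] at this
    have h2 : n = 0 := by simpa using this
    omega
  have hc : ec (n : Eis) = (n : ℂ) := map_natCast ec n
  have hnu : ¬ IsUnit (n : Eis) := by
    rw [unit_iff, nm_natCast]
    intro h
    have : n = 1 := by simpa using h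
    omega
  have hmem : ∀ v : Eis, IsCoprime v (n : Eis) → ec v / n ∉ LO.lattice := by
    intro v hv h
    rw [← hc, div_mem hn0] at h
    exact hnu (hv.isUnit_of_dvd' h dvd_rfl)
  have h1 : ec 1 / n ∉ LO.lattice := hmem 1 isCoprime_one_left
  have a1 := hu.2 1 h1
  have a2 := hu'.2 1 h1
  rw [mul_one] at a1 a2
  have h3 := xy_inj (hmem u hu.1) (hmem u' hu'.1) (a1.1.symm.trans a2.1) (a1.2.symm.trans a2.2)
  rwa [← sub_div, ← map_sub, ← hc, div_mem hn0] at h3

end MPd9f52e
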