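import Mathlib
import Pool.Agent.Lib.MP_d9f52e_nt.WRel
import Pool.Agent.Lib.MP_d9f52e_nt.WPsi
import Pool.Agent.Lib.MP_d9f52e_nt.WAct

/-!
# WTor: 2- and 3-torsion, the endomorphism sqrt(-3)  (about 250 lines)

`s = 1 + 2w`, `t0 = 1/s`.  `w t0 - t0` is in the lattice (`om - 1 = s3 * (1 + om)`), so `w x(t0) = x(t0)`, `x(t0) = 0`, hence `y(t0)` is `0` or `-1`.
`xx_s3`: `s z = z + 2 w z`.  With `x = xx z`: use the group law, or: `s z = z - w^2 z + ... `: note `s = w - w^2`, so `s z = w z - w^2 z`, and `w z + w^2 z = -z`.  `xx_prod`, `xx_sum` for the pair `(w z, w^2 z)`: `x(wz) = w x`, `x(w^2 z) = w^2 x`, `x(wz + w^2 z) = x(z) = x`, `(w x - w^2 x)^2 = s^2 x^2 = -3x^2`: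
product: `x(sz) x (-3x^2) = (w x w^2 x)^2 - (w + w^2) x = x^4 + x`, so `x(sz) (-3x^2) = x^3 + 1`.  (if `x = 0` then `z` is ±t0 mod the lattice and `sz` is in the lattice.)
`yy_s3`, `yy_s3'`: by the homomorphism Psi (exists_psi) `Psi(sz) = Psi(wz) - Psi(w^2 z)`: coordinates `(w x, y)` and `(w^2 x, -1-y)`: slope `l = (2y+1)/((w - w^2) x) = (2y+1)/(s x)`, `X = l^2 - w x - w^2 x = l^2 + x = ((2y+1)^2 - 3x^3... )/(..)`, `Y = -1 - (l (X - w x) + y)`; check that
`Y (s x)^3 = (y - w^2)^3` and `(Y+1)(s x)^3 = (y - w)^3` using `y^2 + y = x^3`, `w^2 = -1 - w`.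
3-torsion: `3 z` in the lattice, `s z` off the lattice: `x(sz) = 0` (`sz` is ±t0 mod the lattice: `s(sz) = -3z`) so `x^3 = -1`; then `y^2+y+1 = 0`.
`acts_mod_three`: `t w = w`, `3 | n`, `t` acts by `u` on the n-torsion, hence on the 3-torsion.  The coordinates of the 3-torsion points are `0, -1, -w^j, w, w^2`, fixed by `t`; so `u z = z` mod the lattice for `z = 1/3` (`xy_inj`): `3 | u - 1`.
-/

set_option autoImplicit false

namespace MPd9f52e

open Complex

private theorem w_pow2 : w ^ 2 = -1 - w := w_sq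

private theorem s_sub : (1 + 2 * w) = w - w ^ 2 := by
  linear_combination w_sq

private theorem s_sq' : (1 + 2 * w) ^ 2 = -3 := by
  linear_combination 4 * w_sq

private theorem s_ne : (1 + 2 * w) ≠ 0 := by
  intro h
  have := s_sq'
  rw [h] at this
  norm_num at this

private theorem w_ne' : w ≠ 0 := by
  intro h
  have := w_pow_three
  rw [h] at this
  norm_num at this

private theorem ec_mul_mem (b : Eis) {z : ℂ} (hz : z ∈ LO.lattice) : ec b * z ∈ LO.lattice := by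
  obtain ⟨c, rfl⟩ := (mem_LO _).1 hz
  exact (mem_LO _).2 ⟨b * c, map_mul _ _ _⟩

private theorem w_mul_mem {z : ℂ} (hz : z ∈ LO.lattice) : w * z ∈ LO.lattice := by
  have := ec_mul_mem om hz
  rwa [ec_om] at this

private theorem w_mul_iff {z : ℂ} : w * z ∈ LO.lattice ↔ z ∈ LO.lattice := by
  constructor
  · intro h
    have h2 := w_mul_mem (w_mul_mem h)
    have h3 : w * (w * (w * z)) = z := by linear_combination z * w_pow_three
    rwa [h3] at h2
  · exact w_mul_mem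

private theorem s_mul_mem {z : ℂ} (hz : z ∈ LO.lattice) : (1 + 2 * w) * z ∈ LO.lattice := by
  have := ec_mul_mem s3 hz
  rwa [ec_s3] at this

/-- if `s v` is in the lattice then `x(v) = 0` (`v` off the lattice or not) -/
private theorem xx_of_s {v : ℂ} (h : (1 + 2 * w) * v ∈ LO.lattice) : xx v = 0 := by
  have h1 := ec_mul_mem (1 + om) h
  obtain ⟨b, hb⟩ := (mem_LO _).1 h1
  have h2 : w * v = v + ec b := by
    rw [hb, map_add, map_one, ec_om]
    linear_combination (-2 * v) * w_sq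
  have h3 := xx_om v
  rw [h2, xx_add] at h3
  have h4 : (w - 1) * xx v = 0 := by linear_combination -h3
  exact (mul_eq_zero.1 h4).resolve_left (sub_ne_zero.2 w_ne_one)

theorem xx_t0 : xx (1 / (1 + 2 * w)) = 0 := by
  apply xx_of_s
  rw [mul_one_div_cancel s_ne]
  exact (mem_LO _).2 ⟨1, map_one _⟩

private theorem t0_not : (1 / (1 + 2 * w)) ∉ LO.lattice := by
  intro h
  have h1 : ec 1 / ec s3 ∈ LO.lattice := by
    rw [ec_s3, map_one]
    exact h
  have h2 := (div_mem (r := 1) (b := s3) (by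
    intro h0
    have := nm_s3
    rw [h0] at this
    simp [nm] at this)).1 h1
  have h3 := nm_dvd h2
  rw [nm_s3, nm_one] at h3
  omega

theorem yy_t0 : yy (1 / (1 + 2 * w)) = 0 ∨ yy (1 / (1 + 2 * w)) = -1 := by
  have h := curve t0_not
  rw [xx_t0] at h
  have h1 : yy (1 / (1 + 2 * w)) * (yy (1 / (1 + 2 * w)) + 1) = 0 := by linear_combination h
  rcases mul_eq_zero.1 h1 with h2 | h2
  · exact Or.inl h2
  · exact Or.inr (by linear_combination h2)

theorem xx_half : 4 * xx (1 / 2) ^ 3 + 1 = 0 := by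
  apply xx_two_tor
  · intro h
    have h1 : ec 1 / ec 2 ∈ LO.lattice := by
      rw [map_ofNat, map_one]
      exact h
    have h2 := (div_mem (r := 1) (b := 2) (by
      intro h0
      have := congrArg nm h0
      rw [show (2 : Eis) = ((2 : ℕ) : Eis) from rfl, nm_natCast] at this
      simp [nm] at this)).1 h1
    have h3 := nm_dvd h2
    rw [show (2 : Eis) = ((2 : ℕ) : Eis) from rfl, nm_natCast, nm_one] at h3
    norm_num at h3
  · rw [show (1 / 2 + 1 / 2 : ℂ) = 1 by norm_num]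
    exact (mem_LO _).2 ⟨1, map_one _⟩

theorem xx_ne_zero {z : ℂ} (hz : z ∉ LO.lattice) (h : (1 + 2 * w) * z ∉ LO.lattice) : xx z ≠ 0 := by
  intro h0
  have h1 := xx_inj hz t0_not (h0.trans xx_t0.symm)
  apply h
  have e1 : (1 + 2 * w) * (1 / (1 + 2 * w)) = 1 := mul_one_div_cancel s_ne
  have e2 : (1 : ℂ) ∈ LO.lattice := (mem_LO _).2 ⟨1, map_one _⟩
  rcases h1 with h1 | h1
  · have h2 := s_mul_mem h1
    have h3 : (1 + 2 * w) * z = (1 + 2 * w) * (z - 1 / (1 + 2 * w)) + 1 := by linear_combination e1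
    rw [h3]
    exact add_mem h2 e2
  · have h2 := s_mul_mem h1
    have h3 : (1 + 2 * w) * z = (1 + 2 * w) * (z + 1 / (1 + 2 * w)) - 1 := by linear_combination -e1
    rw [h3]
    exact sub_mem h2 e2

private theorem xx_w2 (z : ℂ) : xx (w ^ 2 * z) = w ^ 2 * xx z := by
  rw [pow_two, mul_assoc, xx_om, xx_om, mul_assoc]

private theorem yy_w2 (z : ℂ) : yy (w ^ 2 * z) = yy z := by
  rw [pow_two, mul_assoc, yy_om, yy_om]

private theorem w2_mul_iff {z : ℂ} : w ^ 2 * z ∈ LO.lattice ↔ z ∈ LO.lattice := by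
  rw [pow_two, mul_assoc, w_mul_iff, w_mul_iff]

theorem xx_s3 {z : ℂ} (hz : z ∉ LO.lattice) (h : (1 + 2 * w) * z ∉ LO.lattice) :
    xx ((1 + 2 * w) * z) * (-3 * xx z ^ 2) = xx z ^ 3 + 1 := by
  have hx := xx_ne_zero hz h
  have e1 : w * z + w ^ 2 * z = -z := by linear_combination z * w_sq
  have e2 : w * z - w ^ 2 * z = (1 + 2 * w) * z := by linear_combination -z * w_sq
  have h1 := xx_prod (z := w * z) (u := w ^ 2 * z) (fun h => hz (w_mul_iff.1 h)) (fun h => hz (w2_mul_iff.1 h))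
    (by rw [e1]; exact fun h => hz (by simpa using neg_mem h)) (by rw [e2]; exact h)
  rw [e1, e2, xx_neg, xx_om, xx_w2] at h1
  apply mul_left_cancel₀ hx
  have e3 : (w - w ^ 2) ^ 2 = -3 := by rw [← s_sub, s_sq']
  linear_combination h1 - xx z * xx ((1 + 2 * w) * z) * xx z ^ 2 * e3 + xx z ^ 4 * (w ^ 3 + 1) * w_pow_three -
    xx z * w_sq

private theorem yy_s3_val {z : ℂ} (hz : z ∉ LO.lattice) (h : (1 + 2 * w) * z ∉ LO.lattice) :
    yy ((1 + 2 * w) * z) * ((1 + 2 * w) * xx z) ^ 3 = (yy z - w ^ 2) ^ 3 := by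
  have hx := xx_ne_zero hz h
  have e2 : w * z + -(w ^ 2 * z) = (1 + 2 * w) * z := by linear_combination -z * w_sq
  have hne : (1 + 2 * w) * xx z ≠ 0 := mul_ne_zero s_ne hx
  have e4 : w * xx z - w ^ 2 * xx z = (1 + 2 * w) * xx z := by linear_combination -xx z * w_sq
  have h1 := xy_add (z := w * z) (u := -(w ^ 2 * z)) (fun h => hz (w_mul_iff.1 h))
    (fun h => hz (w2_mul_iff.1 (by simpa using neg_mem h)))
    (by rw [e2]; exact h) (by
      rw [xx_om, xx_neg, xx_w2, Ne, ← sub_eq_zero, e4]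
      exact hne)
  obtain ⟨h1, h2⟩ := h1
  rw [e2, xx_om, xx_neg, xx_w2, yy_om, yy_neg, yy_w2, e4] at h1
  rw [e2, xx_om, xx_neg, xx_w2, yy_om, yy_neg, yy_w2, e4, h1] at h2
  have hc := curve hz
  rw [h2]
  generalize xx z = x at *
  generalize yy z = y at *
  have e5 : (-1 - ((y - (-1 - y)) / ((1 + 2 * w) * x) * (((y - (-1 - y)) / ((1 + 2 * w) * x)) ^ 2 - w * x - w ^ 2 * x -
      w * x) + y)) * ((1 + 2 * w) * x) ^ 3 = -(1 + y) * ((1 + 2 * w) * x) ^ 3 - (2 * y + 1) ^ 3 +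
      (2 * y + 1) * ((1 + 2 * w) * x) ^ 2 * (2 * w + w ^ 2) * x := by
    generalize (1 + 2 * w) * x = S at *
    field_simp
    ring
  rw [e5]
  linear_combination (w^4 - w^3 + 8*w^2*x^3*y + 4*w^2*x^3 - 3*w^2*y + 8*w*x^3*y + 3*w*y + w - 10*x^3*y - 7*x^3 +
    3*y^2 - 1) * w_sq - (3*w + 9*y + 6) * hc

theorem yy_s3 {z : ℂ} (hz : z ∉ LO.lattice) (h : (1 + 2 * w) * z ∉ LO.lattice) :
    yy ((1 + 2 * w) * z) * ((1 + 2 * w) * xx z) ^ 3 = (yy z - w ^ 2) ^ 3 := yy_s3_val hz h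

theorem yy_s3' {z : ℂ} (hz : z ∉ LO.lattice) (h : (1 + 2 * w) * z ∉ LO.lattice) :
    (yy ((1 + 2 * w) * z) + 1) * ((1 + 2 * w) * xx z) ^ 3 = (yy z - w) ^ 3 := by
  have h1 := yy_s3_val hz h
  have hc := curve hz
  generalize xx z = x at *
  generalize yy z = y at *
  linear_combination h1 + (-w^4 + w^3 + 3*w^2*y + 8*w*x^3 - 3*w*y + 4*x^3 - 3*y^2 - 3*y) * w_sq - (-6*w - 3) * hc

theorem three_tor {z : ℂ} (h3 : 3 * z ∈ LO.lattice) (h : (1 + 2 * w) * z ∉ LO.lattice) :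
    xx z ^ 3 = -1 ∧ (yy z = w ∨ yy z = w ^ 2) := by
  have hz : z ∉ LO.lattice := fun h' => h (s_mul_mem h')
  have h0 : xx ((1 + 2 * w) * z) = 0 := by
    apply xx_of_s
    have : (1 + 2 * w) * ((1 + 2 * w) * z) = -(3 * z) := by linear_combination z * s_sq'
    rw [this]
    exact neg_mem h3
  have h1 := xx_s3 hz h
  rw [h0, zero_mul] at h1
  have h2 : xx z ^ 3 = -1 := by linear_combination -h1
  refine ⟨h2, ?_⟩
  have hc := curve hz
  rw [h2] at hc
  have h4 : (yy z - w) * (yy z - w ^ 2) = 0 := by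
    linear_combination hc + w_pow_three - yy z * w_sq
  rcases mul_eq_zero.1 h4 with h5 | h5
  · exact Or.inl (sub_eq_zero.1 h5)
  · exact Or.inr (sub_eq_zero.1 h5)

theorem acts_mod_three {t : ℂ ≃+* ℂ} (ht : t w = w) {n : ℕ} (hn : 1 ≤ n) (h3 : 3 ∣ n) {u : Eis} (hu : ActsBy t n u) :
    (3 : Eis) ∣ u - 1 := by
  have hu3 := acts_dvd hn h3 hu
  have h3ne : (3 : Eis) ≠ 0 := by
    intro h0
    have := congrArg nm h0
    rw [show (3 : Eis) = ((3 : ℕ) : Eis) from rfl, nm_natCast] at this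
    simp [nm] at this
  have hmem : ∀ r : Eis, ec r / ((3 : ℕ) : ℂ) ∈ LO.lattice ↔ (3 : Eis) ∣ r := by
    intro r
    rw [← div_mem (r := r) h3ne, map_ofNat]
    simp
  have hnot1 : ¬ (3 : Eis) ∣ 1 := by
    intro h
    have h1 := nm_dvd h
    rw [show (3 : Eis) = ((3 : ℕ) : Eis) from rfl, nm_natCast, nm_one] at h1
    norm_num at h1
  have hnotu : ¬ (3 : Eis) ∣ u := by
    intro h
    obtain ⟨a, b, hab⟩ := hu3.1
    apply hnot1
    rw [← hab]
    exact dvd_add (h.mul_left a) (Dvd.intro_left b rfl)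
  have hz1 : ec 1 / ((3 : ℕ) : ℂ) ∉ LO.lattice := fun h => hnot1 ((hmem 1).1 h)
  have hzu : ec u / ((3 : ℕ) : ℂ) ∉ LO.lattice := fun h => hnotu ((hmem u).1 h)
  have hzs : (1 + 2 * w) * (ec 1 / ((3 : ℕ) : ℂ)) ∉ LO.lattice := by
    intro h
    have h1 : ec s3 / ((3 : ℕ) : ℂ) ∈ LO.lattice := by
      rw [ec_s3]
      rw [map_one] at h
      convert h using 1
      ring
    have h2 := nm_dvd ((hmem s3).1 h1)
    rw [show (3 : Eis) = ((3 : ℕ) : Eis) from rfl, nm_natCast, nm_s3] at h2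
    norm_num at h2
  obtain ⟨hx, hy⟩ := three_tor (z := ec 1 / ((3 : ℕ) : ℂ)) (by
    rw [map_one]
    refine (mem_LO _).2 ⟨1, ?_⟩
    rw [map_one]
    norm_num) hzs
  obtain ⟨tx, ty⟩ := hu3.2 1 hz1
  rw [mul_one] at tx ty
  have hfy : t (yy (ec 1 / ((3 : ℕ) : ℂ))) = yy (ec 1 / ((3 : ℕ) : ℂ)) := by
    rcases hy with h | h
    · rw [h, ht]
    · rw [h, map_pow, ht]
  have hfx : t (xx (ec 1 / ((3 : ℕ) : ℂ))) = xx (ec 1 / ((3 : ℕ) : ℂ)) := by
    set x := xx (ec 1 / ((3 : ℕ) : ℂ)) with hxdef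
    have h1 : (x + 1) * ((x + w) * (x + w ^ 2)) = 0 := by
      linear_combination hx + (x + x ^ 2) * w_sq + (x + 1) * w_pow_three
    rcases mul_eq_zero.1 h1 with h | h
    · have : x = -1 := by linear_combination h
      rw [this, map_neg, map_one]
    · rcases mul_eq_zero.1 h with h | h
      · have : x = -w := by linear_combination h
        rw [this, map_neg, ht]
      · have : x = -w ^ 2 := by linear_combination h
        rw [this, map_neg, map_pow, ht]
  have h1 := xy_inj hzu hz1 (tx.symm.trans hfx) (ty.symm.trans hfy)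
  rw [← sub_div, ← map_sub] at h1
  exact (hmem _).1 h1

end MPd9f52e
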