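import Mathlib
import Pool.Agent.Lib.MP_d9f52e_nt.SWp
import Pool.Agent.Lib.MP_d9f52e_nt.SVal
import Pool.Agent.Lib.MP_d9f52e_nt.WTor

/-!
# SAbs: the absolute value of x(z) - x(u)  (about 120 lines)

By `wp_sigma` and `phi_eq`: `|x z - x u| = C phi(z+u) phi(z-u)/(phi z^2 phi u^2)` with `C = c0^2/|Om|^2` (the exponential factors cancel: `|z+u|^2+|z-u|^2 = 2|z|^2+2|u|^2`), for `z, u` off the lattice.
Take `z = t0 = 1/s`, `u = 1/2`: `|x(1/2)| = 4^{-1/3}` (`xx_half`, `xx_t0`), `phi(t0)^2 = sqrt 3`, `phi(1/2)^3 = 2`, `phi(t0 ± 1/2) = 1`: `4^{-1/3} = C/(sqrt 3 * 2^{2/3})`, so `C = sqrt 3`.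
`xx_abs0`: `u = t0`, `x(t0) = 0`, `phi_s3`.
-/

set_option autoImplicit false

namespace MPd9f52e

open Complex

private theorem t0_notMem : (1 / (1 + 2 * w) : ℂ) ∉ LO.lattice := by
  intro h
  have h1 := phi_t0
  rw [phi_eq_zero h] at h1
  have h2 : (0 : ℝ) < Real.sqrt 3 := Real.sqrt_pos.2 (by norm_num)
  rw [← h1] at h2
  norm_num at h2

private theorem half_notMem : (1 / 2 : ℂ) ∉ LO.lattice := by
  intro h
  have h1 := phi_half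
  rw [phi_eq_zero h] at h1
  norm_num at h1

private theorem exp_par (z u : ℂ) :
    Real.exp (-(r0 * ‖z + u‖ ^ 2 / 2)) * Real.exp (-(r0 * ‖z - u‖ ^ 2 / 2)) =
      Real.exp (-(r0 * ‖z‖ ^ 2 / 2)) ^ 2 * Real.exp (-(r0 * ‖u‖ ^ 2 / 2)) ^ 2 := by
  have hp := parallelogram_law_with_norm ℝ z u
  rw [← Real.exp_add, ← Real.exp_nat_mul, ← Real.exp_nat_mul, ← Real.exp_add]
  congr 1
  push_cast
  have hp' : ‖z + u‖ ^ 2 + ‖z - u‖ ^ 2 = 2 * (‖z‖ ^ 2 + ‖u‖ ^ 2) := by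
    nlinarith [hp]
  linear_combination (-(r0 / 2)) * hp'

private theorem xx_abs_aux {z u : ℂ} (hz : z ∉ LO.lattice) (hu : u ∉ LO.lattice) :
    ‖xx z - xx u‖ = c0 ^ 2 / ‖Om‖ ^ 2 * (phi (z + u) * phi (z - u)) / (phi z ^ 2 * phi u ^ 2) := by
  have hc := c0_pos
  have hOm : ‖Om‖ ≠ 0 := norm_ne_zero_iff.2 Om_ne_zero
  have hzp := phi_pos hz
  have hup := phi_pos hu
  have hD : ‖sigma z‖ ≠ 0 := by
    intro h0
    rw [phi_eq, h0] at hzp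
    simp at hzp
  have hE : ‖sigma u‖ ≠ 0 := by
    intro h0
    rw [phi_eq, h0] at hup
    simp at hup
  have h1 : xx z - xx u = (LO.weierstrassP z - LO.weierstrassP u) / Om ^ 2 := by
    unfold xx
    rw [sub_div]
  rw [h1, wp_sigma hz hu, norm_div, norm_div, norm_neg, norm_mul, norm_mul, norm_pow, norm_pow,
    norm_pow, phi_eq (z + u), phi_eq (z - u), phi_eq z, phi_eq u]
  have hpar := exp_par z u
  have hez : Real.exp (-(r0 * ‖z‖ ^ 2 / 2)) ≠ 0 := (Real.exp_pos _).ne'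
  have heu : Real.exp (-(r0 * ‖u‖ ^ 2 / 2)) ≠ 0 := (Real.exp_pos _).ne'
  set e1 := Real.exp (-(r0 * ‖z + u‖ ^ 2 / 2))
  set e2 := Real.exp (-(r0 * ‖z - u‖ ^ 2 / 2))
  set ez := Real.exp (-(r0 * ‖z‖ ^ 2 / 2))
  set eu := Real.exp (-(r0 * ‖u‖ ^ 2 / 2))
  have h2 : c0 * ‖sigma (z + u)‖ * e1 * (c0 * ‖sigma (z - u)‖ * e2) =
      c0 ^ 2 * (‖sigma (z + u)‖ * ‖sigma (z - u)‖) * (ez ^ 2 * eu ^ 2) := by
    rw [← hpar]
    ring
  rw [h2]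
  have hc' : c0 ≠ 0 := hc.ne'
  field_simp

private theorem c0_Om : c0 ^ 2 / ‖Om‖ ^ 2 = Real.sqrt 3 := by
  have h1 := xx_abs_aux t0_notMem half_notMem
  rw [xx_t0, zero_sub, norm_neg, phi_t0_half.1, phi_t0_half.2, phi_t0, mul_one, mul_one] at h1
  set C := c0 ^ 2 / ‖Om‖ ^ 2 with hC
  have hC0 : 0 < C := div_pos (pow_pos c0_pos 2) (pow_pos (norm_pos_iff.2 Om_ne_zero) 2)
  have h2 : ‖xx (1 / 2)‖ ^ 3 = 1 / 4 := by
    have h3 := xx_half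
    have h4 : xx (1 / 2) ^ 3 = -(1 / 4) := by linear_combination h3 / 4
    rw [← norm_pow, h4, norm_neg]
    norm_num
  have hs : (0 : ℝ) < Real.sqrt 3 := Real.sqrt_pos.2 (by norm_num)
  have hss : Real.sqrt 3 ^ 2 = 3 := Real.sq_sqrt (by norm_num)
  have hph := phi_half
  have hpp : 0 < phi (1 / 2) := phi_pos half_notMem
  have h5 : ‖xx (1 / 2)‖ ^ 3 = C ^ 3 / (Real.sqrt 3 ^ 3 * 4) := by
    rw [h1, div_pow, mul_pow]
    congr 2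
    have : (phi (1 / 2) ^ 2) ^ 3 = (phi (1 / 2) ^ 3) ^ 2 := by ring
    rw [this, hph]
    norm_num
  rw [h2] at h5
  have h6 : C ^ 3 = Real.sqrt 3 ^ 3 := by
    have h7 : Real.sqrt 3 ^ 3 * 4 ≠ 0 := by positivity
    field_simp at h5
    linarith
  exact (pow_left_inj₀ hC0.le hs.le (by norm_num)).1 h6

theorem xx_abs {z u : ℂ} (hz : z ∉ LO.lattice) (hu : u ∉ LO.lattice) :
    ‖xx z - xx u‖ = Real.sqrt 3 * (phi (z + u) * phi (z - u)) / (phi z ^ 2 * phi u ^ 2) := by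
  rw [xx_abs_aux hz hu, c0_Om]

theorem xx_abs0 {z : ℂ} (hz : z ∉ LO.lattice) : ‖xx z‖ = phi ((1 + 2 * w) * z) / phi z ^ 3 := by
  have h1 := xx_abs hz t0_notMem
  have hs : Real.sqrt 3 ≠ 0 := (Real.sqrt_pos.2 (by norm_num)).ne'
  have hzp := (phi_pos hz).ne'
  rw [xx_t0, sub_zero, phi_t0] at h1
  rw [h1, ← phi_s3 z]
  field_simp

end MPd9f52e
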