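import Mathlib
import Pool.Agent.Lib.MP_d9f52e_nt.SQp
import Pool.Agent.Lib.MP_d9f52e_nt.ERes

/-!
# SMul: the multiplication formula  (about 200 lines)

`a` odd (`2` does not divide `nm a`), `V` a half system.  `P(z) = sigma(z) prod_{v in V} sigma(z + v/a) sigma(z - v/a)` and `Q(z) = sigma(a z)` vanish exactly on `a^{-1}` lattice.  On the complement (open, connected) `|P/Q|` is constant:
by `phi_eq`, `|sigma x| = phi x exp(r0|x|^2/2)/c0`; `phi_dist` with `prod_CRS_half` (F r = phi(z + r/a)): `phi(z) prod phi(z+v/a) phi(z-v/a) = phi(az)`;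
exponents: `|z|^2 + sum_V (|z+v/a|^2+|z-v/a|^2) = (1 + 2#V)|z|^2 + 2 sum |v/a|^2 = nm a |z|^2 + const = |az|^2 + const` (`card_half`).  So `P/Q` is constant (`eq_of_norm_const`).
The value of the constant: let `z -> 0`: `P(z)/z -> prod_V (-(sigma(v/a)^2))`, `Q(z)/z -> a`.
-/

set_option autoImplicit false

namespace MPd9f52e

open Complex

private lemma ne_zero_of_odd {a : Eis} (h : ¬ 2 ∣ nm a) : a ≠ 0 := by
  rintro rfl
  apply h
  rw [(nm_eq_zero 0).2 rfl]
  exact dvd_zero 2

/-- the product `P` -/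
private noncomputable def PP (a : Eis) (V : Finset Eis) (z : ℂ) : ℂ :=
  sigma z * ∏ v ∈ V, (sigma (z + ec v / ec a) * sigma (z - ec v / ec a))

private lemma phi_prod {a : Eis} (h : ¬ 2 ∣ nm a) {V : Finset Eis} (hV : IsHalf a V) (z : ℂ) :
    phi z * ∏ v ∈ V, (phi (z + ec v / ec a) * phi (z - ec v / ec a)) = phi (ec a * z) := by
  have ha := ne_zero_of_odd h
  have hea := ec_ne_zero ha
  obtain ⟨S, hS⟩ := exists_CRS ha
  rw [← phi_dist ha hS z]
  rw [prod_CRS_half h hS hV (fun r => phi (z + ec r / ec a))]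
  · simp only [map_zero, zero_div, add_zero, map_neg]
    congr 1
    apply Finset.prod_congr rfl
    intro v _
    congr 2
    ring
  · rintro x y ⟨c, hc⟩
    have : z + ec x / ec a = (z + ec y / ec a) + ec c := by
      have h1 : ec x - ec y = ec a * ec c := by rw [← map_sub, hc, map_mul]
      field_simp
      linear_combination h1
    rw [this, phi_add]

private lemma norm_id {a : Eis} (h : ¬ 2 ∣ nm a) {V : Finset Eis} (hV : IsHalf a V) (z : ℂ) :
    (c0 ^ (2 * V.card) * Real.exp (-(r0 * ∑ v ∈ V, ‖ec v / ec a‖ ^ 2))) * ‖PP a V z‖ = ‖sigma (ec a * z)‖ := by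
  have h1 := phi_prod h hV z
  have h2 : ∀ v ∈ V, phi (z + ec v / ec a) * phi (z - ec v / ec a) =
      (c0 ^ 2 * Real.exp (-(r0 * ‖z‖ ^ 2))) * Real.exp (-(r0 * ‖ec v / ec a‖ ^ 2)) *
        ‖sigma (z + ec v / ec a) * sigma (z - ec v / ec a)‖ := by
    intro v _
    rw [phi_eq, phi_eq, norm_mul]
    have hp := parallelogram_law_with_norm ℝ z (ec v / ec a)
    have he : Real.exp (-(r0 * ‖z + ec v / ec a‖ ^ 2 / 2)) * Real.exp (-(r0 * ‖z - ec v / ec a‖ ^ 2 / 2)) =
        Real.exp (-(r0 * ‖z‖ ^ 2)) * Real.exp (-(r0 * ‖ec v / ec a‖ ^ 2)) := by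
      rw [← Real.exp_add, ← Real.exp_add]
      congr 1
      linear_combination (-(r0 / 2)) * hp
    calc c0 * ‖sigma (z + ec v / ec a)‖ * Real.exp (-(r0 * ‖z + ec v / ec a‖ ^ 2 / 2)) *
          (c0 * ‖sigma (z - ec v / ec a)‖ * Real.exp (-(r0 * ‖z - ec v / ec a‖ ^ 2 / 2)))
        = c0 ^ 2 * (Real.exp (-(r0 * ‖z + ec v / ec a‖ ^ 2 / 2)) *
            Real.exp (-(r0 * ‖z - ec v / ec a‖ ^ 2 / 2))) *
            (‖sigma (z + ec v / ec a)‖ * ‖sigma (z - ec v / ec a)‖) := by ring
      _ = _ := by rw [he]; ring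
  rw [Finset.prod_congr rfl h2, Finset.prod_mul_distrib, Finset.prod_mul_distrib, Finset.prod_const,
    ← norm_prod, ← Real.exp_sum, phi_eq z, phi_eq (ec a * z)] at h1
  have hsum : ∑ v ∈ V, -(r0 * ‖ec v / ec a‖ ^ 2) = -(r0 * ∑ v ∈ V, ‖ec v / ec a‖ ^ 2) := by
    rw [Finset.sum_neg_distrib, Finset.mul_sum]
  rw [hsum] at h1
  have hn : ‖ec a * z‖ ^ 2 = (2 * V.card + 1 : ℝ) * ‖z‖ ^ 2 := by
    rw [norm_mul, mul_pow, ← nm_cast]
    congr 1
    have := card_half h hV
    rw [← this]; push_cast; ring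
  have hexp : Real.exp (-(r0 * ‖ec a * z‖ ^ 2 / 2)) =
      Real.exp (-(r0 * ‖z‖ ^ 2 / 2)) * Real.exp (-(r0 * ‖z‖ ^ 2)) ^ V.card := by
    rw [hn, ← Real.exp_nat_mul, ← Real.exp_add]
    congr 1
    ring
  rw [hexp, mul_pow] at h1
  have hc := c0_pos
  have hE1 : 0 < Real.exp (-(r0 * ‖z‖ ^ 2 / 2)) := Real.exp_pos _
  have hE2 : 0 < Real.exp (-(r0 * ‖z‖ ^ 2)) ^ V.card := pow_pos (Real.exp_pos _) _
  have hK : 0 < c0 * (Real.exp (-(r0 * ‖z‖ ^ 2 / 2)) * Real.exp (-(r0 * ‖z‖ ^ 2)) ^ V.card) := by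
    positivity
  apply mul_left_cancel₀ hK.ne'
  unfold PP
  rw [norm_mul, pow_mul]
  linear_combination h1

private lemma PP_diff (a : Eis) (V : Finset Eis) : Differentiable ℂ (PP a V) := by
  unfold PP
  refine sigma_diff.mul ?_
  have : (fun z : ℂ => ∏ v ∈ V, (sigma (z + ec v / ec a) * sigma (z - ec v / ec a))) =
      fun z : ℂ => ∏ v ∈ V, (fun v (z : ℂ) => sigma (z + ec v / ec a) * sigma (z - ec v / ec a)) v z := rfl
  rw [this]
  intro z
  refine DifferentiableAt.fun_finsetProd ?_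
  intro v _
  exact ((sigma_diff _).comp z (by fun_prop)).mul ((sigma_diff _).comp z (by fun_prop))

theorem sigma_mul {a : Eis} (h : ¬ 2 ∣ nm a) {V : Finset Eis} (hV : IsHalf a V) (z : ℂ) :
    sigma (ec a * z) * ∏ v ∈ V, (-(sigma (ec v / ec a) ^ 2)) =
      ec a * sigma z * ∏ v ∈ V, (sigma (z + ec v / ec a) * sigma (z - ec v / ec a)) := by
  have ha := ne_zero_of_odd h
  have hea := ec_ne_zero ha
  by_cases hz : ec a * z ∈ LO.lattice
  · obtain ⟨l, hl⟩ := (mem_LO _).1 hz
    have hzl : z = ec l / ec a := by rw [hl]; field_simp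
    rw [(sigma_eq_zero _).2 hz, zero_mul]
    symm
    by_cases hal : a ∣ l
    · have : z ∈ LO.lattice := by rw [hzl]; exact (div_mem ha).2 hal
      rw [(sigma_eq_zero _).2 this, mul_zero, zero_mul]
    · obtain ⟨v, hv, hv'⟩ := hV.2.2 l hal
      rw [Finset.prod_eq_zero hv, mul_zero]
      rcases hv' with hd | hd
      · have : z - ec v / ec a ∈ LO.lattice := by
          rw [hzl, ← sub_div, ← map_sub]; exact (div_mem ha).2 hd
        rw [(sigma_eq_zero _).2 this, mul_zero]
      · have : z + ec v / ec a ∈ LO.lattice := by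
          rw [hzl, ← add_div, ← map_add]; exact (div_mem ha).2 hd
        rw [(sigma_eq_zero _).2 this, zero_mul]
  · set U : Set ℂ := (LO.lattice : Set ℂ)ᶜ with hU
    set g : ℂ → ℂ := fun x => PP a V (x / ec a) / sigma x with hg
    set K : ℝ := c0 ^ (2 * V.card) * Real.exp (-(r0 * ∑ v ∈ V, ‖ec v / ec a‖ ^ 2)) with hK
    have hKpos : 0 < K := by
      have := c0_pos
      positivity
    have hs : ∀ x ∈ U, sigma x ≠ 0 := fun x hx h0 => hx ((sigma_eq_zero x).1 h0)
    have hgd : DifferentiableOn ℂ g U := by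
      intro x hx
      refine DifferentiableAt.differentiableWithinAt ?_
      refine DifferentiableAt.div ?_ (sigma_diff x) (hs x hx)
      exact (PP_diff a V _).comp x (by fun_prop)
    have hgn : ∀ x ∈ U, ‖g x‖ = 1 / K := by
      intro x hx
      have h1 := norm_id h hV (x / ec a)
      rw [mul_div_cancel₀ x hea, ← hK] at h1
      have h2 : ‖sigma x‖ ≠ 0 := norm_ne_zero_iff.2 (hs x hx)
      rw [hg]
      simp only
      rw [norm_div, ← h1]
      have h3 : ‖PP a V (x / ec a)‖ ≠ 0 := by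
        intro h0
        rw [h0, mul_zero] at h1
        exact h2 h1.symm
      field_simp
    have hconst : ∀ x ∈ U, g x = g (ec a * z) := fun x hx =>
      eq_of_norm_const isOpen_compl isConnected_compl.isPreconnected hgd hgn hx hz
    -- limit at zero
    have hlim : Filter.Tendsto g (nhdsWithin 0 {0}ᶜ)
        (nhds ((ec a)⁻¹ * ∏ v ∈ V, (-(sigma (ec v / ec a) ^ 2)))) := by
      have h1 : Filter.Tendsto (fun x : ℂ => sigma (x / ec a) / (x / ec a)) (nhdsWithin 0 {0}ᶜ) (nhds 1) := by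
        refine sigma_lim.comp ?_
        refine tendsto_nhdsWithin_iff.2 ⟨?_, ?_⟩
        · have : Filter.Tendsto (fun x : ℂ => x / ec a) (nhds 0) (nhds (0 / ec a)) :=
            (continuous_id.div_const _).tendsto 0
          rw [zero_div] at this
          exact this.mono_left nhdsWithin_le_nhds
        · filter_upwards [self_mem_nhdsWithin] with x hx
          exact div_ne_zero hx hea
      have h2 := sigma_lim
      have h3 : Filter.Tendsto (fun x : ℂ => ∏ v ∈ V, (sigma (x / ec a + ec v / ec a) * sigma (x / ec a - ec v / ec a)))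
          (nhdsWithin 0 {0}ᶜ) (nhds (∏ v ∈ V, (-(sigma (ec v / ec a) ^ 2)))) := by
        refine (tendsto_finsetProd _ fun v _ => ?_).mono_left nhdsWithin_le_nhds
        have hc : Continuous (fun x : ℂ => sigma (x / ec a + ec v / ec a) * sigma (x / ec a - ec v / ec a)) := by
          have := sigma_diff.continuous
          fun_prop
        have := hc.tendsto 0
        simp only [zero_div, zero_add, zero_sub, sigma_neg] at this
        convert this using 2
        ring
      have h4 := ((h1.div h2 one_ne_zero).mul h3).const_mul ((ec a)⁻¹)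
      rw [div_one, one_mul] at h4
      refine h4.congr' ?_
      filter_upwards [self_mem_nhdsWithin] with x hx
      have hx0 : x ≠ 0 := hx
      rw [hg]
      simp only [PP, Pi.div_apply]
      by_cases hsx : sigma x = 0
      · simp [hsx]
      · field_simp
    have hev : ∀ᶠ x in nhdsWithin (0 : ℂ) {0}ᶜ, x ∈ U := by
      have h1 := sigma_lim.eventually_ne (one_ne_zero)
      filter_upwards [h1] with x hx hmem
      exact hx (by rw [(sigma_eq_zero x).2 hmem, zero_div])
    have hval : g (ec a * z) = (ec a)⁻¹ * ∏ v ∈ V, (-(sigma (ec v / ec a) ^ 2)) := by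
      refine tendsto_nhds_unique ?_ hlim
      refine tendsto_const_nhds.congr' ?_
      filter_upwards [hev] with x hx
      exact (hconst x hx).symm
    have hsz : sigma (ec a * z) ≠ 0 := hs _ hz
    rw [hg] at hval
    simp only at hval
    rw [mul_div_cancel_left₀ z hea, div_eq_iff hsz] at hval
    unfold PP at hval
    rw [mul_assoc (ec a), hval]
    field_simp

end MPd9f52e
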