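import Mathlib
import Pool.Agent.Lib.MP_d9f52e_nt.SAbs
import Pool.Agent.Lib.MP_d9f52e_nt.SMul

/-!
# SRp: the elliptic numbers R_a  (about 250 lines)

`Rp_eq`: `a z` off the lattice, `V = V2 a` (`V2_spec`).  `x z - x(v/a) = Om^{-2} (wp z - wp(v/a)) = - Om^{-2} sigma(z+v/a) sigma(z-v/a)/(sigma z^2 sigma(v/a)^2)` (`wp_sigma`).  Product over `V`, `sigma_mul`, `#V = (nm a - 1)/2`:
`prod (x z - x(v/a)) = Om^{-(nm a - 1)} prod(sigma(z+v/a) sigma(z-v/a))/(sigma z^(nm a-1) prod(-sigma(v/a)^2)) = Om^{-(nm a-1)} sigma(az)/(a sigma(z)^(nm a))`.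
So `Rp a z = Om^(nm a - 1) sigma z^(nm a)/sigma(az)`.
`RR_abs`: `|x z - x(v/a)| = sqrt 3 phi(z+v/a) phi(z-v/a)/(phi z^2 phi(v/a)^2)` (`xx_abs`); product over `V`: `sqrt3^((nm a-1)/2) * (phi(az)/phi z) / (phi z^(nm a-1) * |a|)` (`phi_dist`, `prod_phi`, `prod_CRS_half`: `prod_V phi(v/a)^2 = |a|`), and
`|s^3|^((nm a-1)/6) = sqrt3^((nm a-1)/2)` (`6 | nm a - 1` as `nm a` is odd and `= 1 mod 3`).
`RR_cocycle`: from `Rp_eq`: both sides of the `Rp`-version equal `Om^(nm a nm b - 1) sigma(z)^(nm a nm b)/sigma(abz)` ; powers of `s^3`: `(nm a-1)/6 nm b + (nm b-1)/6 = (nm a nm b - 1)/6`.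
`Rp_om`: `x(wz) - x(v/a) = w (x z - x(om^2 v/a))`, the set `om^2 V` is again a half system (`half_mul`, `prod_half_congr`); factor `w^{-(nm a-1)/2} = 1` as `3 | (nm a-1)/2`... (only for `nm a = 1 mod 3`; this is `RR_unit`).
`RR_star`-type facts are not needed.
-/

set_option autoImplicit false

namespace MPd9f52e

open Complex

private theorem a_ne_zero {a : Eis} (h : ¬ 2 ∣ nm a) : a ≠ 0 := by
  rintro rfl
  exact h (by rw [(nm_eq_zero 0).2 rfl]; exact dvd_zero 2)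

/-- the facts on the points `z`, `v/a`, `z ± v/a` -/
private theorem off1 {a : Eis} {z : ℂ} (hz : ec a * z ∉ LO.lattice) : z ∉ LO.lattice := by
  intro h
  rw [mem_LO] at h
  obtain ⟨b, rfl⟩ := h
  exact hz (by rw [← map_mul]; exact ec_mem _)

private theorem off2 {a v : Eis} (ha : a ≠ 0) (hv : ¬ a ∣ v) : ec v / ec a ∉ LO.lattice := by
  rw [div_mem ha]; exact hv

private theorem off3 {a v : Eis} (ha : a ≠ 0) {z : ℂ} (hz : ec a * z ∉ LO.lattice) :
    z + ec v / ec a ∉ LO.lattice := by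
  intro h
  rw [mem_LO] at h
  obtain ⟨b, hb⟩ := h
  apply hz
  rw [mem_LO]
  refine ⟨a * b - v, ?_⟩
  have h0 := ec_ne_zero ha
  rw [map_sub, map_mul, hb]
  field_simp
  ring

private theorem off4 {a v : Eis} (ha : a ≠ 0) {z : ℂ} (hz : ec a * z ∉ LO.lattice) :
    z - ec v / ec a ∉ LO.lattice := by
  have := off3 (v := -v) ha hz
  rwa [map_neg, neg_div, ← sub_eq_add_neg] at this

private theorem sigma_ne {z : ℂ} (hz : z ∉ LO.lattice) : sigma z ≠ 0 := by
  rw [Ne, sigma_eq_zero]; exact hz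

theorem Rp_eq {a : Eis} (h : ¬ 2 ∣ nm a) {z : ℂ} (hz : ec a * z ∉ LO.lattice) :
    Rp a z = (Om * sigma z) ^ nm a / (Om * sigma (ec a * z)) := by
  have ha := a_ne_zero h
  have hea := ec_ne_zero ha
  have hV := V2_spec h
  have hz1 := off1 hz
  have hsz := sigma_ne hz1
  have hsa := sigma_ne hz
  have hOm := Om_ne_zero
  have hmul := sigma_mul h hV z
  have hcard := card_half h hV
  have h1 : ∀ v ∈ V2 a, xx z - xx (ec v / ec a) =
      (sigma (z + ec v / ec a) * sigma (z - ec v / ec a)) /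
        ((-(sigma (ec v / ec a) ^ 2)) * (Om * sigma z) ^ 2) := by
    intro v hv
    have hu := off2 ha (hV.1 v hv)
    have hsu := sigma_ne hu
    have h2 := wp_sigma hz1 hu
    unfold xx
    rw [← sub_div, h2]
    field_simp
  have h3 : ∏ v ∈ V2 a, (xx z - xx (ec v / ec a)) =
      (∏ v ∈ V2 a, (sigma (z + ec v / ec a) * sigma (z - ec v / ec a))) /
        ((∏ v ∈ V2 a, (-(sigma (ec v / ec a) ^ 2))) * (Om * sigma z) ^ (2 * (V2 a).card)) := by
    rw [Finset.prod_congr rfl h1, Finset.prod_div_distrib]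
    simp only [Finset.prod_mul_distrib, Finset.prod_const, ← pow_mul]
  have h4 : ∏ v ∈ V2 a, (-(sigma (ec v / ec a) ^ 2)) ≠ 0 := by
    rw [Finset.prod_ne_zero_iff]
    intro v hv
    have hsu := sigma_ne (off2 ha (hV.1 v hv))
    rw [neg_ne_zero]
    exact pow_ne_zero _ hsu
  have h5 : ∏ v ∈ V2 a, (sigma (z + ec v / ec a) * sigma (z - ec v / ec a)) ≠ 0 := by
    rw [Finset.prod_ne_zero_iff]
    intro v hv
    exact mul_ne_zero (sigma_ne (off3 ha hz)) (sigma_ne (off4 ha hz))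
  unfold Rp
  rw [Finset.prod_inv_distrib, h3, ← hcard, pow_succ]
  set A := ∏ v ∈ V2 a, (-(sigma (ec v / ec a) ^ 2)) with hA
  set B := ∏ v ∈ V2 a, (sigma (z + ec v / ec a) * sigma (z - ec v / ec a)) with hB
  set P := (Om * sigma z) ^ (2 * (V2 a).card) with hP
  rw [inv_div]
  have h6 : P ≠ 0 := pow_ne_zero _ (mul_ne_zero hOm hsz)
  rw [inv_mul_eq_div, div_div, div_eq_div_iff (mul_ne_zero h5 hea) (mul_ne_zero hOm hsa)]
  linear_combination (P * Om) * hmul

/-- `6` divides `nm a - 1` -/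
private theorem six_dvd {a : Eis} (h2 : ¬ 2 ∣ nm a) (h3 : ¬ 3 ∣ nm a) :
    6 * ((nm a - 1) / 6) + 1 = nm a := by
  rcases nm_mod_three a with h | h
  · exact absurd (Nat.dvd_of_mod_eq_zero h) h3
  · omega

private theorem s3c_ne : (1 + 2 * w : ℂ) ≠ 0 := by
  rw [s3_val]
  refine mul_ne_zero ?_ Complex.I_ne_zero
  rw [Ne, Complex.ofReal_eq_zero]
  positivity

private theorem phi_ne {z : ℂ} (hz : z ∉ LO.lattice) : phi z ≠ 0 := (phi_pos hz).ne'

theorem RR_abs {a : Eis} (h2 : ¬ 2 ∣ nm a) (h3 : ¬ 3 ∣ nm a) {z : ℂ} (hz : ec a * z ∉ LO.lattice) :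
    ‖RR a z‖ = phi z ^ nm a / phi (ec a * z) := by
  classical
  have ha := a_ne_zero h2
  have hea := ec_ne_zero ha
  have hV := V2_spec h2
  have hz1 := off1 hz
  have hcard := card_half h2 hV
  have hk := six_dvd h2 h3
  obtain ⟨S, hS⟩ := exists_CRS ha
  have hdist := phi_dist ha hS z
  have hper : ∀ x y : Eis, a ∣ x - y → phi (z + ec x / ec a) = phi (z + ec y / ec a) := by
    rintro x y ⟨c, hc⟩
    have : z + ec x / ec a = z + ec y / ec a + ec c := by
      have hx : x = y + a * c := by rw [← hc]; ring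
      rw [hx, map_add, map_mul]
      field_simp
      ring
    rw [this, phi_add]
  rw [prod_CRS_half h2 hS hV (fun r => phi (z + ec r / ec a)) hper] at hdist
  have hprod := prod_phi ha hS
  have hper2 : ∀ x y : Eis, a ∣ x - y → (if ¬ a ∣ x then phi (ec x / ec a) else 1) =
      (if ¬ a ∣ y then phi (ec y / ec a) else 1) := by
    intro x y hxy
    have h4 : a ∣ x ↔ a ∣ y := by
      constructor
      · intro h; have := dvd_sub h hxy; rwa [sub_sub_cancel] at this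
      · intro h; have := dvd_add hxy h; rwa [sub_add_cancel] at this
    by_cases h5 : a ∣ y
    · rw [if_neg (not_not.2 (h4.2 h5)), if_neg (not_not.2 h5)]
    · rw [if_pos (fun h => h5 (h4.1 h)), if_pos h5]
      obtain ⟨c, hc⟩ := hxy
      have hx : x = y + a * c := by rw [← hc]; ring
      have : ec x / ec a = ec y / ec a + ec c := by
        rw [hx, map_add, map_mul]
        field_simp
      rw [this, phi_add]
  rw [Finset.prod_filter, prod_CRS_half h2 hS hV (fun r => if ¬ a ∣ r then phi (ec r / ec a) else 1)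
    hper2] at hprod
  have hprod2 : ∏ v ∈ V2 a, phi (ec v / ec a) ^ 2 = ‖ec a‖ := by
    rw [← hprod, if_neg (not_not.2 (dvd_zero a)), one_mul]
    refine Finset.prod_congr rfl fun v hv => ?_
    have hv1 := hV.1 v hv
    have hv2 : ¬ a ∣ -v := fun h => hv1 (by rwa [dvd_neg] at h)
    rw [if_pos hv1, if_pos hv2, map_neg, neg_div, phi_neg, sq]
  have h4 : ∏ v ∈ V2 a, ‖xx z - xx (ec v / ec a)‖ =
      Real.sqrt 3 ^ (V2 a).card * (∏ v ∈ V2 a, (phi (z + ec v / ec a) * phi (z - ec v / ec a))) /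
        (phi z ^ (2 * (V2 a).card) * ‖ec a‖) := by
    rw [← hprod2, Finset.prod_congr rfl fun v hv => xx_abs hz1 (off2 ha (hV.1 v hv)),
      Finset.prod_div_distrib]
    simp only [Finset.prod_mul_distrib, Finset.prod_const, ← pow_mul]
  have h5 : phi z * ∏ v ∈ V2 a, (phi (z + ec v / ec a) * phi (z - ec v / ec a)) =
      phi (ec a * z) := by
    rw [← hdist]
    simp only [map_zero, zero_div, add_zero, map_neg, neg_div, ← sub_eq_add_neg]
  have h6 : ‖((1 + 2 * w : ℂ) ^ 3) ^ ((nm a - 1) / 6)‖ = Real.sqrt 3 ^ (V2 a).card := by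
    rw [← pow_mul, norm_pow, s3_val, norm_mul, Complex.norm_I, mul_one, Complex.norm_real,
      Real.norm_of_nonneg (Real.sqrt_nonneg 3)]
    congr 1
    omega
  have hp1 := phi_pos hz1
  have hp2 := phi_pos hz
  have hn : 0 < ‖ec a‖ := norm_pos_iff.2 hea
  have hs : 0 < Real.sqrt 3 := by positivity
  have h7 : 0 < ∏ v ∈ V2 a, (phi (z + ec v / ec a) * phi (z - ec v / ec a)) :=
    Finset.prod_pos fun v _ => mul_pos (phi_pos (off3 ha hz)) (phi_pos (off4 ha hz))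
  have h8 : ‖∏ v ∈ V2 a, (xx z - xx (ec v / ec a))⁻¹‖ =
      (∏ v ∈ V2 a, ‖xx z - xx (ec v / ec a)‖)⁻¹ := by
    rw [norm_prod, ← Finset.prod_inv_distrib]
    exact Finset.prod_congr rfl fun v _ => norm_inv _
  unfold RR Rp
  rw [norm_mul, h6, norm_mul, norm_inv, h8, h4, ← hcard, pow_succ, ← h5]
  field_simp

theorem RR_ne_zero {a : Eis} (h2 : ¬ 2 ∣ nm a) {z : ℂ} (hz : ec a * z ∉ LO.lattice) : RR a z ≠ 0 := by
  unfold RR
  rw [Rp_eq h2 hz]
  have hOm := Om_ne_zero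
  refine mul_ne_zero (pow_ne_zero _ (pow_ne_zero _ s3c_ne)) (div_ne_zero (pow_ne_zero _ ?_) ?_)
  · exact mul_ne_zero hOm (sigma_ne (off1 hz))
  · exact mul_ne_zero hOm (sigma_ne hz)

private theorem cocycle_aux {a b : Eis} (h2 : ¬ 2 ∣ nm a) (h3 : ¬ 3 ∣ nm a) (k2 : ¬ 2 ∣ nm b)
    (k3 : ¬ 3 ∣ nm b) {z : ℂ} (hz : ec (a * b) * z ∉ LO.lattice) :
    RR a z ^ nm b * RR b (ec a * z) =
      ((1 + 2 * w) ^ 3) ^ ((nm a * nm b - 1) / 6) *
        ((Om * sigma z) ^ (nm a * nm b) / (Om * sigma (ec (a * b) * z))) := by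
  have hab : ec (a * b) * z = ec b * (ec a * z) := by rw [map_mul]; ring
  have hza : ec a * z ∉ LO.lattice := by
    rw [hab] at hz
    exact off1 hz
  have hzb : ec b * (ec a * z) ∉ LO.lattice := by rwa [← hab]
  have hOm := Om_ne_zero
  have hsa := sigma_ne hza
  have hsb := sigma_ne hzb
  have hk := six_dvd h2 h3
  have hl := six_dvd k2 k3
  set k := (nm a - 1) / 6 with hkdef
  set l := (nm b - 1) / 6 with hldef
  have hexp : (nm a * nm b - 1) / 6 = k * nm b + l := by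
    have : nm a * nm b - 1 = 6 * (k * nm b + l) := by
      have h1 : nm a * nm b = 6 * (k * nm b) + nm b := by rw [← hk]; ring
      omega
    rw [this]
    exact Nat.mul_div_cancel_left _ (by norm_num)
  unfold RR
  rw [Rp_eq h2 hza, Rp_eq k2 hzb, hab, hexp, pow_add, pow_mul, ← hkdef, ← hldef, pow_mul]
  set X := (Om * sigma z) ^ nm a with hX
  set Y := Om * sigma (ec a * z) with hY
  have hY0 : Y ≠ 0 := mul_ne_zero hOm hsa
  rw [mul_pow, div_pow]
  have hYn : Y ^ nm b ≠ 0 := pow_ne_zero _ hY0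
  have hZ0 : Om * sigma (ec b * (ec a * z)) ≠ 0 := mul_ne_zero hOm hsb
  field_simp

theorem RR_cocycle {a b : Eis} (h2 : ¬ 2 ∣ nm a) (h3 : ¬ 3 ∣ nm a) (k2 : ¬ 2 ∣ nm b) (k3 : ¬ 3 ∣ nm b) {z : ℂ}
    (hz : ec (a * b) * z ∉ LO.lattice) :
    RR a z ^ nm b * RR b (ec a * z) = RR b z ^ nm a * RR a (ec b * z) := by
  rw [cocycle_aux h2 h3 k2 k3 hz, cocycle_aux k2 k3 h2 h3 (by rwa [mul_comm b a]),
    mul_comm (nm b) (nm a), mul_comm b a]

private theorem sigma_om_pow (j : ℕ) (z : ℂ) : sigma (w ^ j * z) = w ^ j * sigma z := by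
  induction j with
  | zero => simp
  | succ j ih =>
    rw [pow_succ', mul_assoc, sigma_om, ih, mul_assoc]

private theorem sigma_unit (ε : Eisˣ) (z : ℂ) : sigma (ec ε * z) = ec ε * sigma z := by
  obtain ⟨j, _, h | h⟩ := units_eq ε
  · rw [h, map_pow, ec_om, sigma_om_pow]
  · rw [h, map_neg, map_pow, ec_om, neg_mul, sigma_neg, sigma_om_pow, neg_mul]

private theorem unit_pow_six (ε : Eisˣ) : ec (ε : Eis) ^ 6 = 1 := by
  obtain ⟨j, _, h | h⟩ := units_eq ε
  · rw [h, map_pow, ec_om, ← pow_mul, show j * 6 = 3 * (2 * j) by ring, pow_mul, w_pow_three,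
      one_pow]
  · rw [h, map_neg, map_pow, ec_om, Even.neg_pow (by decide), ← pow_mul,
      show j * 6 = 3 * (2 * j) by ring, pow_mul, w_pow_three, one_pow]

theorem RR_unit {a : Eis} (h2 : ¬ 2 ∣ nm a) (h3 : ¬ 3 ∣ nm a) (ε : Eisˣ) {z : ℂ} (hz : ec a * z ∉ LO.lattice) :
    RR a (ec ε * z) = RR a z := by
  have hε : ec (ε : Eis) ≠ 0 := ec_ne_zero ε.ne_zero
  have hz' : ec a * (ec ε * z) ∉ LO.lattice := by
    intro h
    apply hz
    rw [mem_LO] at h ⊢
    obtain ⟨b, hb⟩ := h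
    refine ⟨((ε⁻¹ : Eisˣ) : Eis) * b, ?_⟩
    have h1 : ec ((ε⁻¹ : Eisˣ) : Eis) * ec (ε : Eis) = 1 := by
      rw [← map_mul, Units.inv_mul, map_one]
    rw [map_mul, hb]
    linear_combination (ec a * z) * h1
  have hk := six_dvd h2 h3
  have hOm := Om_ne_zero
  have hsa := sigma_ne hz
  unfold RR
  rw [Rp_eq h2 hz, Rp_eq h2 hz']
  congr 1
  rw [show ec a * (ec ε * z) = ec ε * (ec a * z) by ring, sigma_unit, sigma_unit,
    show Om * (ec ε * sigma z) = ec ε * (Om * sigma z) by ring, mul_pow]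
  have h5 : ec (ε : Eis) ^ nm a = ec ε := by
    rw [← hk, pow_succ, pow_mul, unit_pow_six, one_pow, one_mul]
  rw [h5]
  field_simp

theorem RR_add {a : Eis} (z : ℂ) (b : Eis) : RR a (z + ec b) = RR a z := by
  unfold RR Rp
  rw [xx_add]

theorem Rp_add {a : Eis} (z : ℂ) (b : Eis) : Rp a (z + ec b) = Rp a z := by
  unfold Rp
  rw [xx_add]

end MPd9f52e
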