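import Mathlib
import Pool.Agent.Lib.MP_d9f52e_nt.WRel

/-!
# UVal: valuations of differences of x-coordinates  (about 300 lines; part (a))

`v` a valuation on `ℂ` with values in a linearly ordered commutative group with zero `Γ`.  Integers have `v <= 1`.  A point `P` is GOOD if there are `n, b >= 1` with `v b = 1`, `n P` off the lattice, `b n P` in the lattice.
`Coord v X b2 b4 b6 b8` below: the two addition relations, the duplication relations and good reduction.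
LEMMA (a) `P` good implies `v (X P) <= 1`.  (b) `P, Q, P+Q, P-Q` good implies `v (X P - X Q) = 1`.  (c) if `v (X P) > 1` and `Q` is good then `v(X P - X Q) = v (X P)` (clear from (a)).
Proof of (b) from (a): `v(X P - X Q) <= 1`; if `< 1` then the left sides of the relations are in the maximal ideal; with `c = X P`, replacing `X Q` by `X P` changes the right sides by elements of the maximal ideal, so both polynomials are in the maximal ideal at `c`: contradiction to `good_red`.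
Proof of (a): `W P = 1/X P` for `P` with `v (X P) > 1`, `W P = 0` for `P` in the lattice; `E1` = these points.  For `P, Q` in `E1`, `P, Q, P±Q` off the lattice, put `xi = W P`, `eta = W Q`, `D = 1 - b4 (xi eta)^2/(..)...`: multiply the relations by `(xi eta)^2`:
`(X(P+Q) + X(P-Q)) (xi - eta)^2 = 2(xi+eta) + b2 xi eta + b4 xi eta (xi+eta) + b6 (xi eta)^2`, `X(P+Q) X(P-Q) (xi - eta)^2 = 1 - b4 xi eta - b6 xi eta (xi+eta) - b8 (xi eta)^2 =: D`, `v D = 1`.
Let `M = max(v xi, v eta) < 1`, `A = X(P+Q)`, `B = X(P-Q)`: `v(A) v(B) v(xi-eta)^2 = 1`, `v(xi - eta) <= M`, `v(A+B) v(xi-eta)^2 <= M`.  If `v A < 1/M`: `v B = 1/(v A v(xi-eta)^2) > M/v(xi-eta)^2 >= 1/M > v A`, so `v(A+B) = v B > M/v(xi-eta)^2`, contradiction.  So `v A >= 1/M`: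
`P + Q` is in `E1` with `v(W(P+Q)) <= M`.  The same for `P - Q`, and for `2P` from the duplication relation (`W(2P) (1 - b4 xi^2 - 2 b6 xi^3 - b8 xi^4) = xi (4 + b2 xi + 2 b4 xi^2 + b6 xi^3)`).
Now fix `P` in `E1` off the lattice, `c = v(W P)`.  For every `n >= 0`: `n P` is in `E1`, `v(W(nP)) <= c`, and `v(W(nP)/W P - n^2) < 1` (W = 0 on the lattice).  Induction with the sum relation for `(nP, P)`: dividing by the product relation, `W(A')+W(B') = (2(xi+eta)+...)/D` with `A' = (n+1)P`, `B' = (n-1)P`: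
`W((n+1)P) + W((n-1)P) = (2(W(nP) + W P) + O(c^2))/D`, so `r(n+1) + r(n-1) = 2 r(n) + 2` modulo the maximal ideal.  (degenerate cases `nP = 0`, `nP = ±P`, `(n±1)P = 0` must be treated with the duplication relation; it may be convenient to prove first the homogeneous relations
`W(A) + W(B)) D = 2(xi+eta) + ...`, `W(A) W(B) D = (xi-eta)^2` for ALL `P, Q` in `E1`, with `A = P+Q`, `B = P-Q`, W = 0 on the lattice, including `P = ±Q`, `P` or `Q` in the lattice.)
If `P` is good and in `E1`, `Q = nP` is in `E1`, off the lattice, `bQ` in the lattice, `v b = 1`: `0 = W(bQ)/W Q = b^2` modulo the maximal ideal: contradiction.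
`coord_xx`: if `v 3 = 1` then `X = xx`, `b2 = b4 = b8 = 0`, `b6 = 1` (`xx_sum`, `xx_prod`, `xx_dup`, `xx_two_tor`); good reduction: `4c^3+1` and `c^4 - 2c` in the maximal ideal: `v c <= 1`; `c (c^3 - 2)`: `c` in it gives `1` in it, `c^3 - 2` in it gives `9` in it.
-/

set_option autoImplicit false

namespace MPd9f52e

open Complex

variable {Γ : Type*} [LinearOrderedCommGroupWithZero Γ]

/-- good points -/
def Good (v : Valuation ℂ Γ) (P : ℂ) : Prop :=
  ∃ n b : ℕ, v (b : ℂ) = 1 ∧ (n : ℂ) * P ∉ LO.lattice ∧ (b : ℂ) * ((n : ℂ) * P) ∈ LO.lattice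

/-- a coordinate of a model with good reduction at `v` -/
structure Coord (v : Valuation ℂ Γ) (X : ℂ → ℂ) (b2 b4 b6 b8 : ℂ) : Prop where
  hb2 : v b2 ≤ 1
  hb4 : v b4 ≤ 1
  hb6 : v b6 ≤ 1
  hb8 : v b8 ≤ 1
  per : ∀ z l : ℂ, l ∈ LO.lattice → X (z + l) = X z
  even : ∀ z, X (-z) = X z
  sum : ∀ P Q : ℂ, P ∉ LO.lattice → Q ∉ LO.lattice → P + Q ∉ LO.lattice → P - Q ∉ LO.lattice →
    (X (P + Q) + X (P - Q)) * (X P - X Q) ^ 2 = 2 * X P * X Q * (X P + X Q) + b2 * (X P * X Q) + b4 * (X P + X Q) + b6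
  prod : ∀ P Q : ℂ, P ∉ LO.lattice → Q ∉ LO.lattice → P + Q ∉ LO.lattice → P - Q ∉ LO.lattice →
    X (P + Q) * X (P - Q) * (X P - X Q) ^ 2 = (X P * X Q) ^ 2 - b4 * (X P * X Q) - b6 * (X P + X Q) - b8
  dup : ∀ P : ℂ, P ∉ LO.lattice → P + P ∉ LO.lattice →
    X (P + P) * (4 * X P ^ 3 + b2 * X P ^ 2 + 2 * b4 * X P + b6) = X P ^ 4 - b4 * X P ^ 2 - 2 * b6 * X P - b8
  dup0 : ∀ P : ℂ, P ∉ LO.lattice → P + P ∈ LO.lattice → 4 * X P ^ 3 + b2 * X P ^ 2 + 2 * b4 * X P + b6 = 0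
  good_red : ∀ c : ℂ, v c ≤ 1 → v (4 * c ^ 3 + b2 * c ^ 2 + 2 * b4 * c + b6) < 1 →
    v (c ^ 4 - b4 * c ^ 2 - 2 * b6 * c - b8) < 1 → False

private theorem v_nat (v : Valuation ℂ Γ) (n : ℕ) : v (n : ℂ) ≤ 1 := by
  induction n with
  | zero => rw [Nat.cast_zero, map_zero]; exact zero_le_one
  | succ n ih => rw [Nat.cast_succ]; exact v.map_add_le ih (map_one v).le

private theorem v_two (v : Valuation ℂ Γ) : v (2 : ℂ) ≤ 1 := by
  have := v_nat v 2
  rwa [Nat.cast_ofNat] at this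

/-- `D = 1 - eD` -/
private def eD (b4 b6 b8 x y : ℂ) : ℂ := b4 * (x * y) + b6 * (x * y * (x + y)) + b8 * (x * y) ^ 2

/-- the higher terms of the numerator -/
private def eN (b2 b4 b6 x y : ℂ) : ℂ := b2 * (x * y) + b4 * (x * y * (x + y)) + b6 * (x * y) ^ 2

section
variable {v : Valuation ℂ Γ} {c : Γ} {x y : ℂ}

private theorem v_xy (hx : v x ≤ c) (hy : v y ≤ c) : v (x * y) ≤ c * c := by
  rw [map_mul]
  exact mul_le_mul' hx hy

private theorem cc_le (hc : c ≤ 1) : c * c ≤ 1 := mul_le_one' hc hc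

private theorem v_xyz (hc : c ≤ 1) (hx : v x ≤ c) (hy : v y ≤ c) : v (x * y * (x + y)) ≤ c * c := by
  rw [map_mul]
  calc v (x * y) * v (x + y) ≤ c * c * 1 :=
        mul_le_mul' (v_xy hx hy) ((v.map_add_le hx hy).trans hc)
    _ = c * c := mul_one _

private theorem v_xy2 (hc : c ≤ 1) (hx : v x ≤ c) (hy : v y ≤ c) : v ((x * y) ^ 2) ≤ c * c := by
  rw [pow_two, map_mul]
  calc v (x * y) * v (x * y) ≤ c * c * 1 :=
        mul_le_mul' (v_xy hx hy) ((v_xy hx hy).trans (cc_le hc))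
    _ = c * c := mul_one _

private theorem v_mul_le {b z : ℂ} {g : Γ} (hb : v b ≤ 1) (hz : v z ≤ g) : v (b * z) ≤ g := by
  rw [map_mul]
  calc v b * v z ≤ 1 * g := mul_le_mul' hb hz
    _ = g := one_mul g

private theorem v_eD {b4 b6 b8 : ℂ} (h4 : v b4 ≤ 1) (h6 : v b6 ≤ 1) (h8 : v b8 ≤ 1)
    (hc : c ≤ 1) (hx : v x ≤ c) (hy : v y ≤ c) : v (eD b4 b6 b8 x y) ≤ c * c :=
  v.map_add_le (v.map_add_le (v_mul_le h4 (v_xy hx hy)) (v_mul_le h6 (v_xyz hc hx hy)))
    (v_mul_le h8 (v_xy2 hc hx hy))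

private theorem v_eN {b2 b4 b6 : ℂ} (h2 : v b2 ≤ 1) (h4 : v b4 ≤ 1) (h6 : v b6 ≤ 1)
    (hc : c ≤ 1) (hx : v x ≤ c) (hy : v y ≤ c) : v (eN b2 b4 b6 x y) ≤ c * c :=
  v.map_add_le (v.map_add_le (v_mul_le h2 (v_xy hx hy)) (v_mul_le h4 (v_xyz hc hx hy)))
    (v_mul_le h6 (v_xy2 hc hx hy))

private theorem cc_le_c (hc : c ≤ 1) : c * c ≤ c := by
  calc c * c ≤ c * 1 := mul_le_mul' le_rfl hc
    _ = c := mul_one c

private theorem v_num {b2 b4 b6 : ℂ} (h2 : v b2 ≤ 1) (h4 : v b4 ≤ 1) (h6 : v b6 ≤ 1)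
    (hc : c ≤ 1) (hx : v x ≤ c) (hy : v y ≤ c) :
    v (2 * (x + y) + eN b2 b4 b6 x y) ≤ c :=
  v.map_add_le (v_mul_le (v_two v) (v.map_add_le hx hy))
    ((v_eN h2 h4 h6 hc hx hy).trans (cc_le_c hc))

private theorem v_den {b4 b6 b8 : ℂ} (h4 : v b4 ≤ 1) (h6 : v b6 ≤ 1) (h8 : v b8 ≤ 1)
    (hc : c < 1) (hx : v x ≤ c) (hy : v y ≤ c) : v (1 - eD b4 b6 b8 x y) = 1 :=
  v.map_one_sub_of_lt (((v_eD h4 h6 h8 hc.le hx hy).trans (cc_le_c hc.le)).trans_lt hc)

/-- the value of one of the two points -/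
private theorem one_side {α β δ : ℂ} (hc0 : 0 < c) (h1 : v (α * β * δ) = 1)
    (hδ : v δ ≤ c * c) (hs : v ((α + β) * δ) ≤ c) : 1 ≤ v α * c := by
  by_contra hcon
  push Not at hcon
  rw [map_mul, map_mul] at h1
  have hα0 : v α ≠ 0 := by
    intro h
    rw [h, zero_mul, zero_mul] at h1
    exact zero_ne_one h1
  have hα0' : 0 < v α := zero_lt_iff.mpr hα0
  -- `c < v β * v δ`
  have h2 : c < v β * v δ := by
    have h3 : v α * c < v α * (v β * v δ) := by
      rw [← mul_assoc, h1]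
      exact hcon
    exact lt_of_mul_lt_mul_left h3 hα0'.le
  have h4 : v β * v δ ≤ v β * c * c := by
    rw [mul_assoc]
    exact mul_le_mul' le_rfl hδ
  have h5 : 1 < v β * c := by
    have h6 : 1 * c < v β * c * c := by
      rw [one_mul]
      exact h2.trans_le h4
    exact lt_of_mul_lt_mul_right h6 hc0.le
  have h7 : v α < v β := lt_of_mul_lt_mul_right (hcon.trans h5) hc0.le
  have h8 : v (α + β) = v β := v.map_add_eq_of_lt_right h7
  rw [map_mul, h8] at hs
  exact absurd (h2.trans_le hs) (lt_irrefl _)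

end

open Classical in
/-- the parameter at the origin -/
private noncomputable def WW (X : ℂ → ℂ) (P : ℂ) : ℂ := if P ∈ LO.lattice then 0 else (X P)⁻¹

/-- the kernel of reduction -/
private def E1 (v : Valuation ℂ Γ) (X : ℂ → ℂ) (P : ℂ) : Prop := P ∈ LO.lattice ∨ 1 < v (X P)

section
variable {v : Valuation ℂ Γ} {X : ℂ → ℂ} {b2 b4 b6 b8 : ℂ}

private theorem mem_congr {P Q : ℂ} (h : P - Q ∈ LO.lattice) :
    P ∈ LO.lattice ↔ Q ∈ LO.lattice := by
  constructor
  · intro hP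
    have := sub_mem hP h
    rwa [sub_sub_cancel] at this
  · intro hQ
    have := add_mem hQ h
    rwa [add_sub_cancel] at this

private theorem X_congr (hX : Coord v X b2 b4 b6 b8) {P Q : ℂ} (h : P - Q ∈ LO.lattice) :
    X P = X Q := by
  have := hX.per Q (P - Q) h
  rwa [add_sub_cancel] at this

private theorem WW_congr (hX : Coord v X b2 b4 b6 b8) {P Q : ℂ} (h : P - Q ∈ LO.lattice) :
    WW X P = WW X Q := by
  unfold WW
  by_cases hP : P ∈ LO.lattice
  · rw [if_pos hP, if_pos ((mem_congr h).mp hP)]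
  · rw [if_neg hP, if_neg fun hQ => hP ((mem_congr h).mpr hQ), X_congr hX h]

private theorem WW_neg (hX : Coord v X b2 b4 b6 b8) (P : ℂ) : WW X (-P) = WW X P := by
  unfold WW
  by_cases hP : P ∈ LO.lattice
  · rw [if_pos hP, if_pos (neg_mem hP)]
  · rw [if_neg hP, if_neg fun hQ => hP (neg_mem_iff.mp hQ), hX.even]

private theorem E1_congr (hX : Coord v X b2 b4 b6 b8) {P Q : ℂ} (h : P - Q ∈ LO.lattice)
    (hP : E1 v X P) : E1 v X Q := by
  rcases hP with hP | hP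
  · exact Or.inl ((mem_congr h).mp hP)
  · right
    rwa [← X_congr hX h]

private theorem WW_mem {P : ℂ} (h : P ∈ LO.lattice) : WW X P = 0 := if_pos h

private theorem WW_not_mem {P : ℂ} (h : P ∉ LO.lattice) : WW X P = (X P)⁻¹ := if_neg h

/-- a large value of `X` gives a small parameter -/
private theorem small_of_large {c : Γ} (hc : c < 1) {P : ℂ} (hP : P ∉ LO.lattice)
    (h : 1 ≤ v (X P) * c) : E1 v X P ∧ v (WW X P) ≤ c := by
  have h0 : 0 < v (X P) := by
    rw [zero_lt_iff]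
    intro h0
    rw [h0, zero_mul] at h
    exact absurd zero_lt_one (not_lt_of_ge h)
  constructor
  · right
    by_contra hcon
    push Not at hcon
    have h1 : v (X P) * c ≤ 1 * c := mul_le_mul' hcon le_rfl
    rw [one_mul] at h1
    exact absurd (h.trans h1) (not_le_of_gt hc)
  · rw [WW_not_mem hP, map_inv₀]
    have h2 : v (X P) * (v (X P))⁻¹ ≤ v (X P) * c := by
      rw [mul_inv_cancel₀ h0.ne']
      exact h
    exact le_of_mul_le_mul_left h2 h0

/-- doubling -/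
private theorem dbl (hX : Coord v X b2 b4 b6 b8) {P : ℂ} {c : Γ} (hc : c < 1)
    (hPL : P ∉ LO.lattice) (hP : 1 < v (X P)) (h1 : v (WW X P) ≤ c) :
    E1 v X (P + P) ∧ v (WW X (P + P)) ≤ c ∧
      WW X (P + P) * (1 - eD b4 b6 b8 (WW X P) (WW X P)) =
        2 * (WW X P + WW X P) + eN b2 b4 b6 (WW X P) (WW X P) := by
  have hX0 : X P ≠ 0 := by
    intro h
    rw [h, map_zero] at hP
    exact absurd hP (not_lt_of_ge zero_le_one)
  have hW : WW X P = (X P)⁻¹ := WW_not_mem hPL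
  have hnum : 2 * (WW X P + WW X P) + eN b2 b4 b6 (WW X P) (WW X P) =
      (4 * X P ^ 3 + b2 * X P ^ 2 + 2 * b4 * X P + b6) * (WW X P) ^ 4 := by
    unfold eN
    rw [hW]
    field_simp
    ring
  have hden : 1 - eD b4 b6 b8 (WW X P) (WW X P) =
      (X P ^ 4 - b4 * X P ^ 2 - 2 * b6 * X P - b8) * (WW X P) ^ 4 := by
    unfold eD
    rw [hW]
    field_simp
    ring
  by_cases h2 : P + P ∈ LO.lattice
  · refine ⟨Or.inl h2, ?_, ?_⟩
    · rw [WW_mem h2, map_zero]
      exact zero_le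
    · rw [WW_mem h2, zero_mul, hnum, hX.dup0 P hPL h2, zero_mul]
  · have hd := hX.dup P hPL h2
    have hmul : X (P + P) * (2 * (WW X P + WW X P) + eN b2 b4 b6 (WW X P) (WW X P)) =
        1 - eD b4 b6 b8 (WW X P) (WW X P) := by
      rw [hnum, hden, ← hd]
      ring
    have hv : v (X (P + P)) * v (2 * (WW X P + WW X P) + eN b2 b4 b6 (WW X P) (WW X P)) = 1 := by
      rw [← map_mul, hmul]
      exact v_den hX.hb4 hX.hb6 hX.hb8 hc h1 h1
    have hn := v_num (x := WW X P) (y := WW X P) hX.hb2 hX.hb4 hX.hb6 hc.le h1 h1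
    have hlarge : 1 ≤ v (X (P + P)) * c := by
      rw [← hv]
      exact mul_le_mul' le_rfl hn
    obtain ⟨h3, h4⟩ := small_of_large hc h2 hlarge
    refine ⟨h3, h4, ?_⟩
    have hX20 : X (P + P) ≠ 0 := by
      intro h
      rw [h, map_zero, zero_mul] at hv
      exact zero_ne_one hv
    rw [← hmul, WW_not_mem h2, inv_mul_cancel_left₀ hX20]

/-- the sum relation in the kernel of reduction -/
private theorem pair (hX : Coord v X b2 b4 b6 b8) {P Q : ℂ} {c : Γ} (hc : c < 1)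
    (hP : E1 v X P) (hQ : E1 v X Q) (h1 : v (WW X P) ≤ c) (h2 : v (WW X Q) ≤ c) :
    E1 v X (P + Q) ∧ v (WW X (P + Q)) ≤ c ∧ v (WW X (P - Q)) ≤ c ∧
      (WW X (P + Q) + WW X (P - Q)) * (1 - eD b4 b6 b8 (WW X P) (WW X Q)) =
        2 * (WW X P + WW X Q) + eN b2 b4 b6 (WW X P) (WW X Q) := by
  by_cases hPL : P ∈ LO.lattice
  · have e1 : WW X (P + Q) = WW X Q := WW_congr hX (by rwa [add_sub_cancel_right])
    have e2 : WW X (P - Q) = WW X Q := by
      rw [← WW_neg hX Q]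
      exact WW_congr hX (by rwa [sub_neg_eq_add, sub_add_cancel])
    refine ⟨E1_congr hX (P := Q) ?_ hQ, ?_, ?_, ?_⟩
    · rw [show Q - (P + Q) = -P by ring]
      exact neg_mem hPL
    · rw [e1]; exact h2
    · rw [e2]; exact h2
    · rw [e1, e2, WW_mem hPL]
      unfold eD eN
      ring
  by_cases hQL : Q ∈ LO.lattice
  · have e1 : WW X (P + Q) = WW X P := WW_congr hX (by rwa [add_sub_cancel_left])
    have e2 : WW X (P - Q) = WW X P := WW_congr hX (by
      rw [show P - Q - P = -Q by ring]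
      exact neg_mem hQL)
    refine ⟨E1_congr hX (P := P) ?_ hP, ?_, ?_, ?_⟩
    · rw [show P - (P + Q) = -Q by ring]
      exact neg_mem hQL
    · rw [e1]; exact h1
    · rw [e2]; exact h1
    · rw [e1, e2, WW_mem hQL]
      unfold eD eN
      ring
  have hP' : 1 < v (X P) := hP.resolve_left hPL
  have hQ' : 1 < v (X Q) := hQ.resolve_left hQL
  by_cases hA : P + Q ∈ LO.lattice
  · have e1 : WW X Q = WW X P := by
      rw [← WW_neg hX Q]
      exact (WW_congr hX (by rwa [sub_neg_eq_add])).symm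
    have e2 : WW X (P - Q) = WW X (P + P) := WW_congr hX (by
      rw [show P - Q - (P + P) = -(P + Q) by ring]
      exact neg_mem hA)
    obtain ⟨-, h4, h5⟩ := dbl hX hc hPL hP' h1
    refine ⟨Or.inl hA, ?_, ?_, ?_⟩
    · rw [WW_mem hA, map_zero]
      exact zero_le
    · rw [e2]; exact h4
    · rw [WW_mem hA, e2, e1, zero_add]
      exact h5
  by_cases hB : P - Q ∈ LO.lattice
  · have e1 : WW X Q = WW X P := (WW_congr hX hB).symm
    have hPQ : (P + P) - (P + Q) ∈ LO.lattice := by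
      rw [show P + P - (P + Q) = P - Q by ring]
      exact hB
    have e2 : WW X (P + Q) = WW X (P + P) := (WW_congr hX hPQ).symm
    obtain ⟨h3, h4, h5⟩ := dbl hX hc hPL hP' h1
    refine ⟨E1_congr hX hPQ h3, ?_, ?_, ?_⟩
    · rw [e2]; exact h4
    · rw [WW_mem hB, map_zero]
      exact zero_le
    · rw [WW_mem hB, e2, e1, add_zero]
      exact h5
  -- the generic case
  have hXP0 : X P ≠ 0 := by
    intro h
    rw [h, map_zero] at hP'
    exact absurd hP' (not_lt_of_ge zero_le_one)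
  have hXQ0 : X Q ≠ 0 := by
    intro h
    rw [h, map_zero] at hQ'
    exact absurd hQ' (not_lt_of_ge zero_le_one)
  have hWP : WW X P = (X P)⁻¹ := WW_not_mem hPL
  have hWQ : WW X Q = (X Q)⁻¹ := WW_not_mem hQL
  have hc0 : 0 < c := by
    refine lt_of_lt_of_le ?_ h1
    rw [hWP, map_inv₀]
    exact inv_pos.mpr (zero_lt_one.trans hP')
  have hdiff : (WW X P - WW X Q) ^ 2 = (X P - X Q) ^ 2 * (WW X P * WW X Q) ^ 2 := by
    rw [hWP, hWQ]
    field_simp
    ring
  have hsum : (X (P + Q) + X (P - Q)) * (WW X P - WW X Q) ^ 2 =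
      2 * (WW X P + WW X Q) + eN b2 b4 b6 (WW X P) (WW X Q) := by
    rw [hdiff, ← mul_assoc, hX.sum P Q hPL hQL hA hB]
    unfold eN
    rw [hWP, hWQ]
    field_simp
    ring
  have hprod : X (P + Q) * X (P - Q) * (WW X P - WW X Q) ^ 2 =
      1 - eD b4 b6 b8 (WW X P) (WW X Q) := by
    rw [hdiff, ← mul_assoc, hX.prod P Q hPL hQL hA hB]
    unfold eD
    rw [hWP, hWQ]
    field_simp
    ring
  have hvD : v (X (P + Q) * X (P - Q) * (WW X P - WW X Q) ^ 2) = 1 := by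
    rw [hprod]
    exact v_den hX.hb4 hX.hb6 hX.hb8 hc h1 h2
  have hvN : v ((X (P + Q) + X (P - Q)) * (WW X P - WW X Q) ^ 2) ≤ c := by
    rw [hsum]
    exact v_num hX.hb2 hX.hb4 hX.hb6 hc.le h1 h2
  have hδ : v ((WW X P - WW X Q) ^ 2) ≤ c * c := by
    rw [pow_two, map_mul]
    exact mul_le_mul' (v.map_sub_le h1 h2) (v.map_sub_le h1 h2)
  obtain ⟨hEA, hWA⟩ := small_of_large hc hA (one_side hc0 hvD hδ hvN)
  obtain ⟨-, hWB⟩ := small_of_large hc hB (one_side (α := X (P - Q)) (β := X (P + Q)) hc0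
    (by rwa [mul_comm (X (P - Q))]) hδ (by rwa [add_comm (X (P - Q))]))
  refine ⟨hEA, hWA, hWB, ?_⟩
  have hAB : X (P + Q) ≠ 0 ∧ X (P - Q) ≠ 0 := by
    constructor
    · intro h
      rw [h, zero_mul, zero_mul, map_zero] at hvD
      exact zero_ne_one hvD
    · intro h
      rw [h, mul_zero, zero_mul, map_zero] at hvD
      exact zero_ne_one hvD
  rw [← hsum, ← hprod, WW_not_mem hA, WW_not_mem hB]
  have h3 := hAB.1
  have h4 := hAB.2
  field_simp
  ring

/-- multiples of a point in the kernel of reduction -/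
private theorem mult (hX : Coord v X b2 b4 b6 b8) {P : ℂ} (hPL : P ∉ LO.lattice)
    (hP : 1 < v (X P)) (n : ℕ) :
    (E1 v X (n * P) ∧ v (WW X (n * P)) ≤ v (WW X P) ∧
      v (WW X (n * P) - (n : ℂ) ^ 2 * WW X P) < v (WW X P)) ∧
    (E1 v X ((n + 1 : ℕ) * P) ∧ v (WW X ((n + 1 : ℕ) * P)) ≤ v (WW X P) ∧
      v (WW X ((n + 1 : ℕ) * P) - ((n + 1 : ℕ) : ℂ) ^ 2 * WW X P) < v (WW X P)) := by
  have hWP : WW X P = (X P)⁻¹ := WW_not_mem hPL
  have hc1 : v (WW X P) < 1 := by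
    rw [hWP, map_inv₀]
    exact inv_lt_one_of_one_lt₀ hP
  have hc0 : 0 < v (WW X P) := by
    rw [hWP, map_inv₀]
    exact inv_pos.mpr (zero_lt_one.trans hP)
  have hcc : v (WW X P) * v (WW X P) < v (WW X P) := by
    have := mul_lt_mul_of_pos_left hc1 hc0
    rwa [mul_one] at this
  induction n with
  | zero =>
    refine ⟨⟨?_, ?_, ?_⟩, ?_, ?_, ?_⟩
    · left
      rw [Nat.cast_zero, zero_mul]
      exact zero_mem _
    · rw [Nat.cast_zero, zero_mul, WW_mem (zero_mem _), map_zero]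
      exact zero_le
    · rw [Nat.cast_zero, zero_mul, WW_mem (zero_mem _)]
      simpa using hc0
    · right
      rw [zero_add, Nat.cast_one, one_mul]
      exact hP
    · rw [zero_add, Nat.cast_one, one_mul]
    · rw [zero_add, Nat.cast_one, one_mul, one_pow, one_mul, sub_self, map_zero]
      exact hc0
  | succ n ih =>
    obtain ⟨⟨h1, h2, h3⟩, h4, h5, h6⟩ := ih
    refine ⟨⟨h4, h5, h6⟩, ?_⟩
    obtain ⟨h7, h8, h9, h10⟩ := pair hX hc1 h4 (Or.inr hP) h5 le_rfl
    have e1 : ((n + 1 : ℕ) : ℂ) * P + P = ((n + 1 + 1 : ℕ) : ℂ) * P := by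
      push_cast
      ring
    have e2 : ((n + 1 : ℕ) : ℂ) * P - P = (n : ℂ) * P := by
      push_cast
      ring
    rw [e1] at h7 h8 h10
    rw [e2] at h9 h10
    refine ⟨h7, h8, ?_⟩
    set A := WW X (((n + 1 + 1 : ℕ) : ℂ) * P) with hA
    set B := WW X ((n : ℂ) * P) with hB
    set Z := WW X (((n + 1 : ℕ) : ℂ) * P) with hZ
    set W := WW X P with hW
    set D' := eD b4 b6 b8 Z W with hD'
    set N' := eN b2 b4 b6 Z W with hN'
    have k1 : v D' ≤ v W * v W := v_eD hX.hb4 hX.hb6 hX.hb8 hc1.le h5 le_rfl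
    have k2 : v N' ≤ v W * v W := v_eN hX.hb2 hX.hb4 hX.hb6 hc1.le h5 le_rfl
    have k3 : A - ((n + 1 + 1 : ℕ) : ℂ) ^ 2 * W =
        2 * (Z - ((n + 1 : ℕ) : ℂ) ^ 2 * W) - (B - (n : ℂ) ^ 2 * W) + (N' + (A + B) * D') := by
      push_cast
      linear_combination h10
    rw [k3]
    have k4 : v ((A + B) * D') < v W := by
      rw [map_mul]
      calc v (A + B) * v D' ≤ 1 * (v W * v W) :=
            mul_le_mul' ((v.map_add_le h8 h9).trans hc1.le) k1
        _ = v W * v W := one_mul _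
        _ < v W := hcc
    have k5 : v (2 * (Z - ((n + 1 : ℕ) : ℂ) ^ 2 * W)) < v W := by
      rw [map_mul]
      calc v 2 * v (Z - ((n + 1 : ℕ) : ℂ) ^ 2 * W) ≤ 1 * v (Z - ((n + 1 : ℕ) : ℂ) ^ 2 * W) :=
            mul_le_mul' (v_two v) le_rfl
        _ = v (Z - ((n + 1 : ℕ) : ℂ) ^ 2 * W) := one_mul _
        _ < v W := h6
    refine v.map_add_lt ?_ (v.map_add_lt (k2.trans_lt hcc) k4)
    rw [sub_eq_add_neg]
    refine v.map_add_lt k5 ?_
    rw [Valuation.map_neg]
    exact h3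

end

theorem good_le {v : Valuation ℂ Γ} {X : ℂ → ℂ} {b2 b4 b6 b8 : ℂ} (hX : Coord v X b2 b4 b6 b8) {P : ℂ} (hP : Good v P) :
    v (X P) ≤ 1 := by
  by_contra hcon
  push Not at hcon
  obtain ⟨n, b, hb, hn, hbn⟩ := hP
  have hPL : P ∉ LO.lattice := by
    intro h
    apply hn
    have := nsmul_mem h n
    rwa [nsmul_eq_mul] at this
  have h1 := (mult hX hPL hcon n).1.1
  have h2 : 1 < v (X ((n : ℂ) * P)) := h1.resolve_left hn
  have h3 := (mult hX hn h2 b).1.2.2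
  rw [WW_mem hbn, zero_sub, Valuation.map_neg, map_mul, map_pow, hb, one_pow, one_mul] at h3
  exact absurd h3 (lt_irrefl _)

end MPd9f52e
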