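import Mathlib
import Pool.Agent.Lib.MP_d9f52e_nt.UVal

/-!
# UVb: valuations of differences of x-coordinates, part (b)  (about 150 lines)

`v` a valuation on `ℂ` with values in a linearly ordered commutative group with zero `Γ`.  Integers have `v <= 1`.  A point `P` is GOOD if there are `n, b >= 1` with `v b = 1`, `n P` off the lattice, `b n P` in the lattice.
`Coord v X b2 b4 b6 b8` below: the two addition relations, the duplication relations and good reduction.
LEMMA (a) `P` good implies `v (X P) <= 1`.  (b) `P, Q, P+Q, P-Q` good implies `v (X P - X Q) = 1`.  (c) if `v (X P) > 1` and `Q` is good then `v(X P - X Q) = v (X P)` (clear from (a)).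
Proof of (b) from (a): `v(X P - X Q) <= 1`; if `< 1` then the left sides of the relations are in the maximal ideal; with `c = X P`, replacing `X Q` by `X P` changes the right sides by elements of the maximal ideal, so both polynomials are in the maximal ideal at `c`: contradiction to `good_red`.
Proof of (a): `W P = 1/X P` for `P` with `v (X P) > 1`, `W P = 0` for `P` in the lattice; `E1` = these points.  For `P, Q` in `E1`, `P, Q, P±Q` off the lattice, put `xi = W P`, `eta = W Q`, `D = 1 - b4 (xi eta)^2/(..)...`: multiply the relations by `(xi eta)^2`: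
`(X(P+Q) + X(P-Q)) (xi - eta)^2 = 2(xi+eta) + b2 xi eta + b4 xi eta (xi+eta) + b6 (xi eta)^2`, `X(P+Q) X(P-Q) (xi - eta)^2 = 1 - b4 xi eta - b6 xi eta (xi+eta) - b8 (xi eta)^2 =: D`, `v D = 1`.
Let `M = max(v xi, v eta) < 1`, `A = X(P+Q)`, `B = X(P-Q)`: `v(A) v(B) v(xi-eta)^2 = 1`, `v(xi - eta) <= M`, `v(A+B) v(xi-eta)^2 <= M`.  If `v A < 1/M`: `v B = 1/(v A v(xi-eta)^2) > M/v(xi-eta)^2 >= 1/M > v A`, so `v(A+B) = v B > M/v(xi-eta)^2`, contradiction.  So `v A >= 1/M`:
`P + Q` is in `E1` with `v(W(P+Q)) <= M`.  The same for `P - Q`, and for `2P` from the duplication relation (`W(2P) (1 - b4 xi^2 - 2 b6 xi^3 - b8 xi^4) = xi (4 + b2 xi + 2 b4 xi^2 + b6 xi^3)`).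
Now fix `P` in `E1` off the lattice, `c = v(W P)`.  For every `n >= 0`: `n P` is in `E1`, `v(W(nP)) <= c`, and `v(W(nP)/W P - n^2) < 1` (W = 0 on the lattice).  Induction with the sum relation for `(nP, P)`: dividing by the product relation, `W(A')+W(B') = (2(xi+eta)+...)/D` with `A' = (n+1)P`, `B' = (n-1)P`:
`W((n+1)P) + W((n-1)P) = (2(W(nP) + W P) + O(c^2))/D`, so `r(n+1) + r(n-1) = 2 r(n) + 2` modulo the maximal ideal.  (degenerate cases `nP = 0`, `nP = ±P`, `(n±1)P = 0` must be treated with the duplication relation; it may be convenient to prove first the homogeneous relations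
`W(A) + W(B)) D = 2(xi+eta) + ...`, `W(A) W(B) D = (xi-eta)^2` for ALL `P, Q` in `E1`, with `A = P+Q`, `B = P-Q`, W = 0 on the lattice, including `P = ±Q`, `P` or `Q` in the lattice.)
If `P` is good and in `E1`, `Q = nP` is in `E1`, off the lattice, `bQ` in the lattice, `v b = 1`: `0 = W(bQ)/W Q = b^2` modulo the maximal ideal: contradiction.
`coord_xx`: if `v 3 = 1` then `X = xx`, `b2 = b4 = b8 = 0`, `b6 = 1` (`xx_sum`, `xx_prod`, `xx_dup`, `xx_two_tor`); good reduction: `4c^3+1` and `c^4 - 2c` in the maximal ideal: `v c <= 1`; `c (c^3 - 2)`: `c` in it gives `1` in it, `c^3 - 2` in it gives `9` in it.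
`xx_alg`: for a valuation ring `V` of `ℂ` containing `ℚ` every nonzero natural number has valuation 1, so the torsion point `ec r/n` off the lattice is good and `xx (ec r/n)` is in `V` (`good_le`, `coord_xx`); on the lattice `xx` is `0` (Mathlib's value at a lattice point: `weierstrassP_coe`).
-/

set_option autoImplicit false

namespace MPd9f52e

open Complex

variable {Γ : Type*} [LinearOrderedCommGroupWithZero Γ]

private theorem good_not_mem {v : Valuation ℂ Γ} {P : ℂ} (h : Good v P) : P ∉ LO.lattice := by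
  obtain ⟨n, b, _, h2, _⟩ := h
  intro hP
  apply h2
  have := nsmul_mem hP n
  rwa [nsmul_eq_mul] at this

private theorem vlt_mul {v : Valuation ℂ Γ} {a b : ℂ} (ha : v a < 1) (hb : v b ≤ 1) :
    v (a * b) < 1 := by
  rw [map_mul]
  exact (mul_le_of_le_one_right' hb).trans_lt ha

theorem good_sub {v : Valuation ℂ Γ} {X : ℂ → ℂ} {b2 b4 b6 b8 : ℂ} (hX : Coord v X b2 b4 b6 b8) {P Q : ℂ}
    (hP : P ∉ LO.lattice) (hP1 : v (X P) ≤ 1) (hQ : Good v Q) (h1 : Good v (P + Q)) (h2 : Good v (P - Q)) :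
    v (X P - X Q) = 1 := by
  have hcQ : v (X Q) ≤ 1 := good_le hX hQ
  have hcS : v (X (P + Q)) ≤ 1 := good_le hX h1
  have hcT : v (X (P - Q)) ≤ 1 := good_le hX h2
  have hle : v (X P - X Q) ≤ 1 := (v.map_sub _ _).trans (max_le hP1 hcQ)
  refine le_antisymm hle (not_lt.1 fun hlt => ?_)
  have hs := hX.sum P Q hP (good_not_mem hQ) (good_not_mem h1) (good_not_mem h2)
  have hp := hX.prod P Q hP (good_not_mem hQ) (good_not_mem h1) (good_not_mem h2)
  obtain ⟨δ, hδ⟩ : ∃ δ, δ = X P - X Q := ⟨_, rfl⟩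
  have hXQ : X Q = X P - δ := by rw [hδ]; ring
  rw [← hδ] at hlt hle hs hp
  rw [hXQ] at hs hp
  have hc : X P ∈ v.integer := hP1
  have hd : δ ∈ v.integer := hle
  have m2 : b2 ∈ v.integer := hX.hb2
  have m4 : b4 ∈ v.integer := hX.hb4
  have m6 : b6 ∈ v.integer := hX.hb6
  have mS : X (P + Q) ∈ v.integer := hcS
  have mT : X (P - Q) ∈ v.integer := hcT
  have n2 : (2 : ℂ) ∈ v.integer := by exact_mod_cast natCast_mem v.integer 2
  have n6 : (6 : ℂ) ∈ v.integer := by exact_mod_cast natCast_mem v.integer 6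
  refine hX.good_red (X P) hP1 ?_ ?_
  · have e : 4 * X P ^ 3 + b2 * X P ^ 2 + 2 * b4 * X P + b6 =
        δ * ((X (P + Q) + X (P - Q)) * δ + (6 * X P ^ 2 - 2 * X P * δ + b2 * X P + b4)) := by
      linear_combination -hs
    rw [e]
    refine vlt_mul hlt ?_
    exact add_mem (mul_mem (add_mem mS mT) hd) (add_mem (add_mem (sub_mem (mul_mem n6 (pow_mem hc 2))
      (mul_mem (mul_mem n2 hc) hd)) (mul_mem m2 hc)) m4)
  · have e : X P ^ 4 - b4 * X P ^ 2 - 2 * b6 * X P - b8 =
        δ * (X (P + Q) * X (P - Q) * δ + (2 * X P ^ 3 - X P ^ 2 * δ - b4 * X P - b6)) := by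
      linear_combination -hp
    rw [e]
    refine vlt_mul hlt ?_
    exact add_mem (mul_mem (mul_mem mS mT) hd) (sub_mem (sub_mem (sub_mem (mul_mem n2 (pow_mem hc 3))
      (mul_mem (pow_mem hc 2) hd)) (mul_mem m4 hc)) m6)

theorem coord_xx {v : Valuation ℂ Γ} (h3 : v 3 = 1) : Coord v xx 0 0 1 0 := by
  refine ⟨by simp, by simp, by simp, by simp, ?_, xx_neg, ?_, ?_, ?_, ?_, ?_⟩
  · intro z l hl
    obtain ⟨b, rfl⟩ := (mem_LO l).1 hl
    exact xx_add z b
  · intro P Q hP hQ h1 h2
    rw [xx_sum hP hQ h1 h2]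
    ring
  · intro P Q hP hQ h1 h2
    rw [xx_prod hP hQ h1 h2]
    ring
  · intro P hP h2
    linear_combination xx_dup hP h2
  · intro P hP h2
    linear_combination xx_two_tor hP h2
  · intro c hc hA hB
    have hcm : c ∈ v.integer := hc
    have n4 : (4 : ℂ) ∈ v.integer := by exact_mod_cast natCast_mem v.integer 4
    have h9 : v (9 * c) < 1 := by
      have e : 9 * c = (4 * c ^ 3 + 0 * c ^ 2 + 2 * 0 * c + 1) * c -
          (c ^ 4 - 0 * c ^ 2 - 2 * 1 * c - 0) * 4 := by ring
      rw [e]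
      exact (v.map_sub _ _).trans_lt (max_lt (vlt_mul hA hc) (vlt_mul hB n4))
    have hc1 : v c < 1 := by
      have h9' : v (9 : ℂ) = 1 := by
        rw [show (9 : ℂ) = 3 * 3 by norm_num, map_mul, h3, one_mul]
      rwa [map_mul, h9', one_mul] at h9
    have h1 : v (1 : ℂ) < 1 := by
      have e : (1 : ℂ) = (4 * c ^ 3 + 0 * c ^ 2 + 2 * 0 * c + 1) - c * (4 * c ^ 2) := by ring
      rw [e]
      exact (v.map_sub _ _).trans_lt (max_lt hA (vlt_mul hc1 (mul_mem n4 (pow_mem hcm 2))))
    rw [map_one] at h1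
    exact lt_irrefl _ h1

/-- the coordinates of torsion points are algebraic (valuation rings containing `ℚ`, `iInf_valuationSubring_superset`) -/
theorem xx_alg {n : ℕ} (hn : 1 ≤ n) (r : Eis) : IsAlgebraic ℚ (xx (ec r / n)) := by
  by_cases hr : ec r / n ∈ LO.lattice
  · have h0 : xx (ec r / n) = 0 := by
      unfold xx
      rw [LO.weierstrassP_coe ⟨_, hr⟩, zero_div]
    rw [h0]
    exact isAlgebraic_zero
  have hn0 : (n : ℂ) ≠ 0 := by
    have : n ≠ 0 := by omega
    exact_mod_cast this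
  have key : xx (ec r / n) ∈
      (⨅ V : {V : ValuationSubring ℂ // Set.range (algebraMap ℚ ℂ) ⊆ V.toSubring}, V.1.toSubring) := by
    rw [Subring.mem_iInf]
    rintro ⟨V, hV⟩
    have hQ : ∀ q : ℚ, (algebraMap ℚ ℂ q) ∈ V := fun q => hV ⟨q, rfl⟩
    have hN : ∀ k : ℕ, k ≠ 0 → V.valuation (k : ℂ) = 1 := by
      intro k hk
      have h1 : V.valuation (k : ℂ) ≤ 1 := by
        rw [V.valuation_le_one_iff]
        have := hQ (k : ℚ)
        rwa [map_natCast] at this
      have h2 : V.valuation ((k : ℂ)⁻¹) ≤ 1 := by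
        rw [V.valuation_le_one_iff]
        have := hQ ((k : ℚ)⁻¹)
        rwa [map_inv₀, map_natCast] at this
      have h3 : V.valuation (k : ℂ) * V.valuation ((k : ℂ)⁻¹) = 1 := by
        rw [← map_mul, mul_inv_cancel₀ (by exact_mod_cast hk), map_one]
      refine le_antisymm h1 (not_lt.1 fun hlt => ?_)
      have h4 : V.valuation (k : ℂ) * V.valuation ((k : ℂ)⁻¹) < 1 :=
        (mul_le_of_le_one_right' h2).trans_lt hlt
      rw [h3] at h4
      exact lt_irrefl _ h4
    have h3 : V.valuation (3 : ℂ) = 1 := by exact_mod_cast hN 3 (by norm_num)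
    have hG : Good V.valuation (ec r / n) := by
      refine ⟨1, n, hN n (by omega), by simpa using hr, ?_⟩
      have e : (n : ℂ) * (((1 : ℕ) : ℂ) * (ec r / n)) = ec r := by
        rw [Nat.cast_one, one_mul, mul_div_cancel₀ _ hn0]
      rw [e]
      exact ec_mem r
    exact (V.valuation_le_one_iff _).1 (good_le (coord_xx h3) hG)
  rw [iInf_valuationSubring_superset] at key
  have h1 : IsIntegral (Subring.closure (Set.range (algebraMap ℚ ℂ))) (xx (ec r / n)) := key
  -- the closure is the image of `ℚ`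
  have h2 : Subring.closure (Set.range (algebraMap ℚ ℂ)) ≤ (algebraMap ℚ ℂ).range := by
    rw [Subring.closure_le]
    rintro x ⟨q, rfl⟩
    exact ⟨q, rfl⟩
  obtain ⟨p, hp, hpe⟩ := h1
  refine IsIntegral.isAlgebraic ?_
  have h3 : ∀ x : Subring.closure (Set.range (algebraMap ℚ ℂ)), IsIntegral ℚ (x : ℂ) := by
    rintro ⟨x, hx⟩
    obtain ⟨q, rfl⟩ := h2 hx
    exact isIntegral_algebraMap
  -- transitivity
  have h4 : xx (ec r / n) ∈ integralClosure (integralClosure ℚ ℂ) ℂ := by
    let f : Subring.closure (Set.range (algebraMap ℚ ℂ)) →+* integralClosure ℚ ℂ :=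
      { toFun := fun x => ⟨x.1, h3 x⟩
        map_one' := rfl
        map_mul' := fun _ _ => rfl
        map_zero' := rfl
        map_add' := fun _ _ => rfl }
    refine ⟨p.map f, hp.map f, ?_⟩
    rw [Polynomial.eval₂_map]
    exact hpe
  exact isIntegral_trans (R := ℚ) (A := integralClosure ℚ ℂ) _ h4

end MPd9f52e
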