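import Mathlib
import Pool.Agent.Lib.MP_d9f52e_nt.UVb
import Pool.Agent.Lib.MP_d9f52e_nt.WTor

/-!
# UMod: the model at 3  (about 150 lines)

`v 3 < 1`.  `r` with `r^3 = -1/4` (e.g. `r = xx (1/2)`, `xx_half`), `v r = 1` (`4 r^3 = -1`, `v 4 = 1` since `4 = 1 + 3`).  `X z = (xx z - r)/(sqrt3 r)`.  Relations: substitute `x = sqrt3 r X + r` in `xx_sum`, `xx_prod`, `xx_dup`, `xx_two_tor` with `r^3 = -1/4`, `sqrt3^2 = 3`:
`b2 = 4 sqrt3`, `b4 = 2`, `b6 = 0`, `b8 = -1`  (curve `Y^2 = X^3 + sqrt3 X^2 + X`).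
Good reduction: `4c^3 + 4 sqrt3 c^2 + 4c = 4c(c^2 + sqrt3 c + 1)`, `c^4 - 2c^2 + 1 = (c^2-1)^2`: if the second is in the maximal ideal, `c = ±1` modulo it, and then `4c(c^2 + sqrt3 c + 1)` is `±4 (2 ± sqrt3)` modulo it, `v sqrt3 < 1`, `v 2 = 1`: a unit.
-/

set_option autoImplicit false

namespace MPd9f52e

open Complex

variable {Γ : Type*} [LinearOrderedCommGroupWithZero Γ]

/-- the coordinate of the model with good reduction at 3 -/
noncomputable def X3 (z : ℂ) : ℂ := (xx z - xx (1 / 2)) / ((Real.sqrt 3 : ℂ) * xx (1 / 2))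

private theorem vlt_mul {v : Valuation ℂ Γ} {a b : ℂ} (ha : v a < 1) (hb : v b ≤ 1) :
    v (a * b) < 1 := by
  rw [map_mul]
  exact (mul_le_of_le_one_right' hb).trans_lt ha

private theorem vlt_add {v : Valuation ℂ Γ} {a b : ℂ} (ha : v a < 1) (hb : v b < 1) :
    v (a + b) < 1 := (v.map_add _ _).trans_lt (max_lt ha hb)

private theorem vlt_sub {v : Valuation ℂ Γ} {a b : ℂ} (ha : v a < 1) (hb : v b < 1) :
    v (a - b) < 1 := (v.map_sub _ _).trans_lt (max_lt ha hb)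

/-- `v x < 1` if `v (x * x) < 1` -/
private theorem vlt_sq {v : Valuation ℂ Γ} {x : ℂ} (h : v (x * x) < 1) : v x < 1 := by
  by_contra hcon
  rw [not_lt] at hcon
  rw [map_mul] at h
  exact absurd (one_le_mul hcon hcon) (not_le.2 h)

private theorem nat_mem (v : Valuation ℂ Γ) (n : ℕ) : (n : ℂ) ∈ v.integer :=
  natCast_mem v.integer n

private theorem v_cube {v : Valuation ℂ Γ} {x : ℂ} (h : v (x ^ 3) = 1) : v x = 1 := by
  rcases lt_trichotomy (v x) 1 with h1 | h1 | h1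
  · exfalso
    have hx : x ∈ v.integer := h1.le
    have h2 : v (x * x ^ 2) < 1 := vlt_mul h1 (pow_mem hx 2)
    rw [show x * x ^ 2 = x ^ 3 by ring, h] at h2
    exact lt_irrefl _ h2
  · exact h1
  · exfalso
    have hx0 : x ≠ 0 := by
      rintro rfl
      rw [map_zero] at h1
      exact absurd h1 (not_lt.2 zero_le_one)
    have h3 : v x⁻¹ < 1 := by
      rw [map_inv₀]
      exact inv_lt_one_of_one_lt₀ h1
    have hx : x⁻¹ ∈ v.integer := h3.le
    have h2 : v (x⁻¹ * x⁻¹ ^ 2) < 1 := vlt_mul h3 (pow_mem hx 2)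
    rw [show x⁻¹ * x⁻¹ ^ 2 = (x ^ 3)⁻¹ by rw [← inv_pow]; ring, map_inv₀, h, inv_one] at h2
    exact lt_irrefl _ h2

private theorem v_four {v : Valuation ℂ Γ} (h3 : v 3 < 1) : v 4 = 1 := by
  have h4 : v (4 : ℂ) ≤ 1 := by exact_mod_cast nat_mem v 4
  refine le_antisymm h4 (not_lt.1 fun hlt => ?_)
  have h1 : v (1 : ℂ) < 1 := by
    rw [show (1 : ℂ) = 4 - 3 by norm_num]
    exact vlt_sub hlt h3
  rw [map_one] at h1
  exact lt_irrefl _ h1

theorem v_half {v : Valuation ℂ Γ} (h3 : v 3 < 1) : v (xx (1 / 2)) = 1 := by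
  apply v_cube
  have h : 4 * xx (1 / 2) ^ 3 = -1 := by linear_combination xx_half
  have h2 : v (4 * xx (1 / 2) ^ 3) = 1 := by rw [h, Valuation.map_neg, map_one]
  rwa [map_mul, v_four h3, one_mul] at h2

private theorem sqrt3_sq : ((Real.sqrt 3 : ℝ) : ℂ) ^ 2 = 3 := by
  rw [← Complex.ofReal_pow, Real.sq_sqrt (by norm_num)]
  norm_num

theorem coord_X3 {v : Valuation ℂ Γ} (h3 : v 3 < 1) : Coord v X3 (4 * (Real.sqrt 3 : ℂ)) 2 0 (-1) := by
  have hs := sqrt3_sq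
  have hr := xx_half
  have hvs : v ((Real.sqrt 3 : ℝ) : ℂ) < 1 := by
    apply vlt_sq
    rw [← pow_two, hs]
    exact h3
  have hr0 : xx (1 / 2) ≠ 0 := by
    intro h
    rw [h] at hr
    norm_num at hr
  have hs0 : ((Real.sqrt 3 : ℝ) : ℂ) ≠ 0 := by
    intro h
    rw [h] at hs
    norm_num at hs
  have hX : ∀ z, xx z = ((Real.sqrt 3 : ℝ) : ℂ) * xx (1 / 2) * X3 z + xx (1 / 2) := by
    intro z
    unfold X3
    field_simp
    ring
  have n2 : (2 : ℂ) ∈ v.integer := by exact_mod_cast nat_mem v 2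
  have n4 : (4 : ℂ) ∈ v.integer := by exact_mod_cast nat_mem v 4
  have n16 : (16 : ℂ) ∈ v.integer := by exact_mod_cast nat_mem v 16
  have n21 : (21 : ℂ) ∈ v.integer := by exact_mod_cast nat_mem v 21
  have n64 : (64 : ℂ) ∈ v.integer := by exact_mod_cast nat_mem v 64
  have ms : ((Real.sqrt 3 : ℝ) : ℂ) ∈ v.integer := hvs.le
  have hα : ((Real.sqrt 3 : ℝ) : ℂ) * xx (1 / 2) ≠ 0 := mul_ne_zero hs0 hr0
  have hsum : ∀ P Q : ℂ, P ∉ LO.lattice → Q ∉ LO.lattice → P + Q ∉ LO.lattice →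
      P - Q ∉ LO.lattice → (X3 (P + Q) + X3 (P - Q)) * (X3 P - X3 Q) ^ 2 =
        2 * X3 P * X3 Q * (X3 P + X3 Q) + (4 * (Real.sqrt 3 : ℂ)) * (X3 P * X3 Q) +
          2 * (X3 P + X3 Q) + 0 := by
    intro P Q hP hQ h1 h2
    have h := xx_sum hP hQ h1 h2
    rw [hX (P + Q), hX (P - Q), hX P, hX Q] at h
    refine mul_left_cancel₀ (pow_ne_zero 3 hα) ?_
    generalize X3 (P + Q) = S at *
    generalize X3 (P - Q) = T at *
    generalize X3 P = X at *
    generalize X3 Q = Y at *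
    generalize xx (1 / 2) = r at *
    generalize ((Real.sqrt 3 : ℝ) : ℂ) = s at *
    linear_combination h + hr - (4 * r * (s * r) ^ 2 * (X * Y) + 2 * (s * r) * r ^ 2 * (X + Y)) * hs
  refine ⟨mul_mem n4 ms, n2, by simp, by simp, ?_, ?_, hsum, ?_, ?_, ?_, ?_⟩
  · intro z l hl
    obtain ⟨b, rfl⟩ := (mem_LO l).1 hl
    unfold X3
    rw [xx_add]
  · intro z
    unfold X3
    rw [xx_neg]
  · intro P Q hP hQ h1 h2
    have h := xx_prod hP hQ h1 h2
    have g1 := hsum P Q hP hQ h1 h2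
    rw [hX (P + Q), hX (P - Q), hX P, hX Q] at h
    refine mul_left_cancel₀ (pow_ne_zero 4 hα) ?_
    generalize X3 (P + Q) = S at *
    generalize X3 (P - Q) = T at *
    generalize X3 P = X at *
    generalize X3 Q = Y at *
    generalize xx (1 / 2) = r at *
    generalize ((Real.sqrt 3 : ℝ) : ℂ) = s at *
    linear_combination h - (s * r) ^ 3 * r * g1 + (-2 * r - (s * r) * (X + Y)) * hr +
      (-r ^ 4 * (s ^ 2 + 3) - 2 * s ^ 2 * r ^ 4 * (X * Y) - 2 * (s * r) * r ^ 3 * (X + Y)) * hs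
  · intro P hP h2
    have h := xx_dup hP h2
    rw [hX (P + P), hX P] at h
    refine mul_left_cancel₀ (pow_ne_zero 4 hα) ?_
    generalize X3 (P + P) = S at *
    generalize X3 P = X at *
    generalize xx (1 / 2) = r at *
    generalize ((Real.sqrt 3 : ℝ) : ℂ) = s at *
    linear_combination h + (-((s * r) * S + r) - 2 * (s * r) * X - 2 * r) * hr +
      (((s * r) * S + r) * (4 * (s * r) ^ 2 * r * X ^ 2 + 4 * (s * r) * r ^ 2 * X) -
        2 * s ^ 2 * r ^ 4 * X ^ 2 - 4 * (s * r) * r ^ 3 * X - r ^ 4 * (s ^ 2 + 3)) * hs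
  · intro P hP h2
    have h := xx_two_tor hP h2
    rw [hX P] at h
    refine mul_left_cancel₀ (pow_ne_zero 3 hα) ?_
    generalize X3 P = X at *
    generalize xx (1 / 2) = r at *
    generalize ((Real.sqrt 3 : ℝ) : ℂ) = s at *
    linear_combination h - hr + (4 * (s * r) ^ 2 * r * X ^ 2 + 4 * (s * r) * r ^ 2 * X) * hs
  · intro c hc hA hB
    have mc : c ∈ v.integer := hc
    have he : v (c ^ 2 - 1) < 1 := by
      apply vlt_sq
      rw [show (c ^ 2 - 1) * (c ^ 2 - 1) = c ^ 4 - 2 * c ^ 2 - 2 * 0 * c - -1 by ring]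
      exact hB
    have me : c ^ 2 - 1 ∈ v.integer := he.le
    generalize ((Real.sqrt 3 : ℝ) : ℂ) = s at *
    have mE : 4 + (c ^ 2 - 1) + s * c ∈ v.integer := add_mem (add_mem n4 me) (mul_mem ms mc)
    have mA : 4 * c ^ 3 + 4 * s * c ^ 2 + 2 * 2 * c + 0 ∈ v.integer := hA.le
    have h1 : v (1 : ℂ) < 1 := by
      have e : (1 : ℂ) = (4 * c ^ 3 + 4 * s * c ^ 2 + 2 * 2 * c + 0) *
          (4 * c ^ 3 + 4 * s * c ^ 2 + 2 * 2 * c + 0) - 3 * 21 -
            (c ^ 2 - 1) * (64 + 16 * c ^ 2 * (4 + (c ^ 2 - 1) + s * c)) -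
              s * (16 * c ^ 3 * (4 + (c ^ 2 - 1) + s * c)) := by ring
      rw [e]
      exact vlt_sub (vlt_sub (vlt_sub (vlt_mul hA mA) (vlt_mul h3 n21))
        (vlt_mul he (add_mem n64 (mul_mem (mul_mem n16 (pow_mem mc 2)) mE))))
          (vlt_mul hvs (mul_mem (mul_mem n16 (pow_mem mc 3)) mE))
    rw [map_one] at h1
    exact lt_irrefl _ h1

end MPd9f52e
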