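import Mathlib
import Pool.Agent.Lib.MP_d9f52e_nt.UMod
import Pool.Agent.Lib.MP_d9f52e_nt.SRp
import Pool.Agent.Lib.MP_d9f52e_nt.ERes

/-!
# UR: valuations of the elliptic numbers  (about 250 lines)

`v` a valuation on `ℂ`.  If `v 3 = 1` put `X = xx`, `kappa = 1`; if `v 3 < 1` put `X = X3`, `kappa = sqrt3 xx(1/2)`, so `xx z - xx u = kappa (X z - X u)`, `v(kappa)^2 = v 3` resp. 1 (`v_half`); in both cases `v(1+2w)^2 = v 3` and `v kappa = v (1+2w)` [`v 3 = 1`: both 1].
`c P = 1` if `v(X P) <= 1`, `(v (X P))^{-1}` otherwise.  `c P <> 0`, `c P = 1` for good `P` (`good_le`).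
`a` prime to 6, `v(nm a) = 1`, `P = ec r/n` off the lattice, `n` prime to `nm a`.  For `u` in the half system `V2 a`: `Q = ec u/ec a` is good (`n' = 1`, `b = nm a`), and `P ± Q` is good (`n' = n`: `n (P ± Q) = ec r ± n Q`, `n Q` is off the lattice since `n` is prime to `a`; `b = nm a`).
If `v(X P) <= 1`: `v(X P - X Q) = 1` (`good_sub`).  If `v(X P) > 1`: `v(X Q) <= 1`, `v(X P - X Q) = v(X P)`.  In both cases `v(X P - X Q) = (c P)^{-1}`.  Product over `V2 a` (`#V = (nm a-1)/2`):
`v(Rp a P) = v(kappa)^{-(nm a-1)/2} (c P)^((nm a-1)/2)`, `v(ec a) = 1` (`v(ec a) v(ec (star a)) = 1`, both `<= 1`: elements of `Eis` have `v <= 1`).  `v(s^3)^((nm a - 1)/6) = v(s)^((nm a-1)/2)` cancels `kappa`.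
`RR_val_bad`: `v(nm a) < 1`, `n` prime to `nm a`, so `v n = 1` and `P = ec r/n` is good (`b = n`).  Let `p` be the residue characteristic (a prime number with `v p < 1`; it divides `nm a`, so `p` does not divide `6 n`).  Choose a natural number `b >= 2`, `b = 1 mod n`, `b` prime to `6 nm a`... precisely `b = 1 + 6 n k` with `k >= 1` and `p` not dividing `b`
(`k = p` works), then `b` is prime to 6 and to `n`, `v b = 1`.  `RR_cocycle` for `(a, b)` at `P`: `RR a P^(b^2) * RR b (a P) = RR b P^(nm a) * RR a (b P)`; `RR a (b P) = RR a P` (`RR_add`: `bP - P` in the lattice), `v(RR b P) = v(RR b (aP)) = 1` by the first part (`P`, `aP` good), so `v(RR a P)^(b^2 - 1) = 1`, `v(RR a P) = 1`.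
-/

set_option autoImplicit false

namespace MPd9f52e

open Complex

variable {Γ : Type*} [LinearOrderedCommGroupWithZero Γ]

private theorem v_nat_le (v : Valuation ℂ Γ) (n : ℕ) : v (n : ℂ) ≤ 1 := by
  induction n with
  | zero => simp
  | succ k ih =>
    rw [Nat.cast_succ]
    exact v.map_add_le ih (le_of_eq v.map_one)

private theorem v_intZ_le (v : Valuation ℂ Γ) (n : ℤ) : v (n : ℂ) ≤ 1 := by
  obtain ⟨k, rfl | rfl⟩ := n.eq_nat_or_neg
  · exact_mod_cast v_nat_le v k
  · rw [Int.cast_neg, v.map_neg]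
    exact_mod_cast v_nat_le v k

private theorem v_eq_one_of_pow {v : Valuation ℂ Γ} {x : ℂ} {n : ℕ} (hn : n ≠ 0)
    (h : v (x ^ n) = 1) : v x = 1 := by
  rw [v.map_pow] at h
  exact (pow_eq_one_iff_of_nonneg zero_le hn).1 h

theorem v_int_le (v : Valuation ℂ Γ) (b : Eis) : v (ec b) ≤ 1 := by
  have hw : v w = 1 := v_eq_one_of_pow (n := 3) (by norm_num) (by rw [w_pow_three, v.map_one])
  rw [ec_eq]
  refine v.map_add_le (v_intZ_le v _) ?_
  rw [v.map_mul, hw, mul_one]
  exact v_intZ_le v _

private theorem v_ec_one {v : Valuation ℂ Γ} {a : Eis} (h : v (nm a : ℂ) = 1) :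
    v (ec a) = 1 := by
  have h1 : ec a * ec (star a) = (nm a : ℂ) := by
    rw [← map_mul, mul_star_self, map_natCast]
  have h2 : v (ec a) * v (ec (star a)) = 1 := by rw [← v.map_mul, h1, h]
  have h3 := v_int_le v a
  have h4 := v_int_le v (star a)
  refine le_antisymm h3 ?_
  calc (1 : Γ) = v (ec a) * v (ec (star a)) := h2.symm
    _ ≤ v (ec a) * 1 := mul_le_mul_right h4 _
    _ = v (ec a) := mul_one _

private theorem v_three (v : Valuation ℂ Γ) : v (1 + 2 * w) ^ 2 = v 3 := by
  have h : (1 + 2 * w) ^ 2 = -3 := by linear_combination 4 * w_sq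
  rw [← v.map_pow, h, v.map_neg]

private theorem v_I (v : Valuation ℂ Γ) : v I = 1 :=
  v_eq_one_of_pow (n := 4) (by norm_num) (by rw [I_pow_four, v.map_one])

/-- the model with good reduction -/
private theorem exists_model (v : Valuation ℂ Γ) : ∃ (X : ℂ → ℂ) (κ b2 b4 b6 b8 : ℂ),
    Coord v X b2 b4 b6 b8 ∧ (∀ z u, xx z - xx u = κ * (X z - X u)) ∧ v κ = v (1 + 2 * w) := by
  have h3 : v 3 ≤ 1 := by exact_mod_cast v_nat_le v 3
  rcases h3.lt_or_eq with h | h
  · refine ⟨X3, (Real.sqrt 3 : ℂ) * xx (1 / 2), _, _, _, _, coord_X3 h, ?_, ?_⟩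
    · intro z u
      have h1 : xx (1 / 2) ≠ 0 := by
        intro h0
        have := v_half h
        rw [h0, v.map_zero] at this
        exact zero_ne_one this
      have h2 : (Real.sqrt 3 : ℂ) ≠ 0 := by
        have := Real.sqrt_pos.2 (show (0 : ℝ) < 3 by norm_num)
        exact_mod_cast this.ne'
      have hx : (Real.sqrt 3 : ℂ) * xx (1 / 2) ≠ 0 := mul_ne_zero h2 h1
      unfold X3
      rw [div_sub_div_same, mul_div_cancel₀ _ hx]
      ring
    · rw [s3_val, v.map_mul, v.map_mul, v_half h, v_I]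
  · refine ⟨xx, 1, _, _, _, _, coord_xx h, fun z u => by ring, ?_⟩
    rw [v.map_one]
    symm
    exact v_eq_one_of_pow (n := 2) (by norm_num) (by rw [v.map_pow, v_three, h])

/-- torsion points are good -/
private theorem good_tor {v : Valuation ℂ Γ} {n : ℕ} (hn : 1 ≤ n) {r : Eis} (hv : v (n : ℂ) = 1)
    (hr : ec r / n ∉ LO.lattice) : Good v (ec r / n) := by
  refine ⟨1, n, hv, by simpa using hr, ?_⟩
  have hn0 : (n : ℂ) ≠ 0 := by exact_mod_cast (by omega : n ≠ 0)
  have : (n : ℂ) * (((1 : ℕ) : ℂ) * (ec r / n)) = ec r := by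
    push_cast
    field_simp
  rw [this]
  exact ec_mem r

private theorem two_dvd_six {a : Eis} (h2 : ¬ 2 ∣ nm a) (h3 : ¬ 3 ∣ nm a) :
    3 * ((nm a - 1) / 6) = (nm a - 1) / 2 := by
  have := nm_mod_three a
  omega

theorem exists_cV (v : Valuation ℂ Γ) : ∃ c : ℂ → Γ, (∀ P, c P ≠ 0) ∧ (∀ P, Good v P → c P = 1) ∧
    ∀ (a r : Eis) (n : ℕ), ¬ 2 ∣ nm a → ¬ 3 ∣ nm a → v (nm a : ℂ) = 1 → 1 ≤ n → (nm a).Coprime n →
      ec r / n ∉ LO.lattice → v (RR a (ec r / n)) = c (ec r / n) ^ ((nm a - 1) / 2) := by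
  classical
  obtain ⟨X, κ, b2, b4, b6, b8, hX, hκ, hvκ⟩ := exists_model v
  refine ⟨fun P => if v (X P) ≤ 1 then 1 else (v (X P))⁻¹, ?_, ?_, ?_⟩
  · intro P
    by_cases h : v (X P) ≤ 1
    · simp [h]
    · simp only [if_neg h]
      refine inv_ne_zero fun h0 => h ?_
      rw [h0]
      exact zero_le
  · intro P hP
    exact if_pos (good_le hX hP)
  · intro a r n h2 h3 hv hn hc hr
    have ha0 : a ≠ 0 := by
      rintro rfl
      apply h2
      rw [(nm_eq_zero 0).2 rfl]
      exact dvd_zero 2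
    have hea : ec a ≠ 0 := ec_ne_zero ha0
    have hn0 : (n : ℂ) ≠ 0 := by exact_mod_cast (by omega : n ≠ 0)
    have hco : IsCoprime a (n : Eis) := (isCoprime_iff a n).2 hc
    have hV := V2_spec h2
    set P : ℂ := ec r / n with hP
    have hnm : (nm a : ℂ) = ec (star a) * ec a := by
      rw [← map_mul, mul_comm, mul_star_self, map_natCast]
    have hs0 : v (1 + 2 * w) ≠ 0 := by
      rw [v.ne_zero_iff]
      intro h0
      have : (3 : ℂ) = 0 := by linear_combination (-(1 + 2 * w)) * h0 + 4 * w_sq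
      norm_num at this
    -- the key: the valuation of each difference
    have key : ∀ u ∈ V2 a, v (X P - X (ec u / ec a)) =
        (if v (X P) ≤ 1 then 1 else (v (X P))⁻¹)⁻¹ := by
      intro u hu
      have hau : ¬ a ∣ u := hV.1 u hu
      have gQ : Good v (ec u / ec a) := by
        refine ⟨1, nm a, hv, ?_, ?_⟩
        · rw [Nat.cast_one, one_mul, div_mem ha0]
          exact hau
        · have : (nm a : ℂ) * (((1 : ℕ) : ℂ) * (ec u / ec a)) = ec (star a * u) := by
            rw [hnm, map_mul]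
            push_cast
            field_simp
          rw [this]
          exact ec_mem _
      have hnQ : ∀ b : Eis, ec b + n * (ec u / ec a) ∉ LO.lattice := by
        intro b hb
        have h4 : (n : ℂ) * (ec u / ec a) ∈ LO.lattice := by
          have := LO.lattice.sub_mem hb (ec_mem b)
          simpa using this
        have h5 : (n : ℂ) * (ec u / ec a) = ec ((n : Eis) * u) / ec a := by
          rw [map_mul, map_natCast]
          ring
        rw [h5, div_mem ha0] at h4
        exact hau (hco.dvd_of_dvd_mul_left h4)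
      have gen : ∀ t : Eis, ec t ^ 2 = 1 → ec t = 1 ∨ ec t = -1 → Good v (P + ec t * (ec u / ec a)) := by
        intro t _ ht
        refine ⟨n, nm a, hv, ?_, ?_⟩
        · have h6 : (n : ℂ) * (P + ec t * (ec u / ec a)) = ec r + ec t * (n * (ec u / ec a)) := by
            rw [hP]
            field_simp
          rw [h6]
          rcases ht with ht | ht
          · rw [ht, one_mul]
            exact hnQ r
          · rw [ht]
            intro hm
            apply hnQ (-r)
            have := LO.lattice.neg_mem hm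
            have e : -(ec r + -1 * ((n : ℂ) * (ec u / ec a))) =
                ec (-r) + n * (ec u / ec a) := by
              rw [map_neg]
              ring
            rwa [e] at this
        · have h7 : (nm a : ℂ) * ((n : ℂ) * (P + ec t * (ec u / ec a))) =
              ec ((nm a : Eis) * r + (n : Eis) * t * star a * u) := by
            rw [hP, map_add, map_mul, map_mul, map_mul, map_mul, map_natCast, map_natCast]
            have h8 : (nm a : ℂ) * ((n : ℂ) * (ec r / n + ec t * (ec u / ec a))) =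
                (nm a : ℂ) * ec r + n * ec t * ((nm a : ℂ) * (ec u / ec a)) := by
              field_simp
            rw [h8]
            have h9 : (nm a : ℂ) * (ec u / ec a) = ec (star a) * ec u := by
              rw [hnm]
              field_simp
            rw [h9]
            ring
          rw [h7]
          exact ec_mem _
      have g1 : Good v (P + ec u / ec a) := by
        have := gen 1 (by rw [map_one]; ring) (Or.inl (map_one _))
        rwa [map_one, one_mul] at this
      have g2 : Good v (P - ec u / ec a) := by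
        have := gen (-1) (by rw [map_neg, map_one]; ring) (Or.inr (by rw [map_neg, map_one]))
        rwa [map_neg, map_one, neg_one_mul, ← sub_eq_add_neg] at this
      by_cases hx : v (X P) ≤ 1
      · rw [if_pos hx, inv_one]
        exact good_sub hX hr hx gQ g1 g2
      · rw [if_neg hx, inv_inv]
        push Not at hx
        exact v.map_sub_eq_of_lt_left (lt_of_le_of_lt (good_le hX gQ) hx)
    set C : Γ := if v (X P) ≤ 1 then 1 else (v (X P))⁻¹ with hC
    show v (RR a P) = C ^ ((nm a - 1) / 2)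
    have hcard : (V2 a).card = (nm a - 1) / 2 := by
      have := card_half h2 hV
      omega
    unfold RR Rp
    rw [v.map_mul, v.map_pow, v.map_pow, v.map_mul, map_inv₀, v_ec_one hv, inv_one, one_mul,
      map_prod]
    have hprod : ∏ u ∈ V2 a, v (xx P - xx (ec u / ec a))⁻¹ =
        ((v (1 + 2 * w))⁻¹ * C) ^ ((nm a - 1) / 2) := by
      rw [← hcard]
      refine Finset.prod_eq_pow_card fun u hu => ?_
      rw [map_inv₀, hκ, v.map_mul, hvκ, key u hu, mul_inv, inv_inv]
    rw [hprod, ← pow_mul, two_dvd_six h2 h3, ← mul_pow, ← mul_assoc, mul_inv_cancel₀ hs0,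
      one_mul]

theorem RR_val_bad {v : Valuation ℂ Γ} {a r : Eis} {n : ℕ} (h2 : ¬ 2 ∣ nm a) (h3 : ¬ 3 ∣ nm a) (hv : v (nm a : ℂ) < 1)
    (hn : 1 ≤ n) (hc : (nm a).Coprime n) (hr : ec r / n ∉ LO.lattice) : v (RR a (ec r / n)) = 1 := by
  obtain ⟨c, -, hc1, hc2⟩ := exists_cV v
  have hn0 : (n : ℂ) ≠ 0 := by exact_mod_cast (by omega : n ≠ 0)
  have hnE : (n : Eis) ≠ 0 := by
    intro h0
    have := congrArg ec h0
    rw [map_natCast, map_zero] at this
    exact hn0 this
  -- v n = 1
  have hvn : v (n : ℂ) = 1 := by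
    refine le_antisymm (v_nat_le v n) (not_lt.1 fun hlt => ?_)
    obtain ⟨x, y, hxy⟩ := Nat.isCoprime_iff_coprime.2 hc
    have e : (x : ℂ) * (nm a : ℂ) + (y : ℂ) * (n : ℂ) = 1 := by exact_mod_cast hxy
    have h1 : v ((x : ℂ) * (nm a : ℂ) + (y : ℂ) * (n : ℂ)) < 1 := by
      refine v.map_add_lt ?_ ?_
      · rw [v.map_mul]
        exact lt_of_le_of_lt (mul_le_of_le_one_left zero_le (v_intZ_le v x)) hv
      · rw [v.map_mul]
        exact lt_of_le_of_lt (mul_le_of_le_one_left zero_le (v_intZ_le v y)) hlt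
    rw [e, v.map_one] at h1
    exact lt_irrefl _ h1
  -- the auxiliary multiplier
  set m : ℕ := 6 * n * nm a with hm
  have ha1 : 1 ≤ nm a := by
    rcases Nat.eq_zero_or_pos (nm a) with h | h
    · exact absurd (h ▸ dvd_zero 2) h2
    · exact h
  have hm1 : 1 ≤ m := by
    have := Nat.mul_pos (Nat.mul_pos (show 0 < 6 by norm_num) hn) ha1
    exact this
  set b : ℕ := m + 1 with hb
  have hvb : v (b : ℂ) = 1 := by
    rw [hb, Nat.cast_add, Nat.cast_one, add_comm]
    refine v.map_one_add_of_lt ?_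
    rw [hm]
    push_cast
    rw [v.map_mul]
    exact lt_of_le_of_lt (mul_le_of_le_one_left zero_le
      (by exact_mod_cast v_nat_le v (6 * n))) hv
  have hnb : nm (b : Eis) = b ^ 2 := nm_natCast b
  have hb2 : ¬ 2 ∣ nm (b : Eis) := by
    rw [hnb]
    intro hd
    have h4 := Nat.Prime.dvd_of_dvd_pow Nat.prime_two hd
    have h5 : m = 2 * (3 * n * nm a) := by rw [hm]; ring
    omega
  have hb3 : ¬ 3 ∣ nm (b : Eis) := by
    rw [hnb]
    intro hd
    have h4 := Nat.Prime.dvd_of_dvd_pow Nat.prime_three hd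
    have h5 : m = 3 * (2 * n * nm a) := by rw [hm]; ring
    omega
  have hbn : (nm (b : Eis)).Coprime n := by
    rw [hnb]
    refine Nat.Coprime.pow_left 2 ?_
    have h5 : b = 6 * nm a * n + 1 := by rw [hb, hm]; ring
    rw [h5, Nat.coprime_comm, Nat.coprime_mul_right_add_right]
    exact Nat.coprime_one_right n
  have hvb2 : v ((nm (b : Eis) : ℕ) : ℂ) = 1 := by
    rw [hnb, Nat.cast_pow, v.map_pow, hvb, one_pow]
  -- the points are off the lattice
  have off : ∀ k : Eis, IsCoprime k (n : Eis) → ec (k * r) / n ∉ LO.lattice := by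
    intro k hk hmem
    have e1 : ec (k * r) / n = ec (k * r) / ec (n : Eis) := by rw [map_natCast]
    have e2 : ec r / n = ec r / ec (n : Eis) := by rw [map_natCast]
    rw [e1, div_mem hnE] at hmem
    rw [e2, div_mem hnE] at hr
    exact hr (hk.symm.dvd_of_dvd_mul_left hmem)
  have hca : IsCoprime a (n : Eis) := (isCoprime_iff a n).2 hc
  have hcb : IsCoprime (b : Eis) (n : Eis) := (isCoprime_iff _ n).2 hbn
  have hP1 : v (RR (b : Eis) (ec r / n)) = 1 := by
    rw [hc2 _ _ _ hb2 hb3 hvb2 hn hbn hr, hc1 _ (good_tor hn hvn hr), one_pow]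
  have haP := off a hca
  have hP2 : v (RR (b : Eis) (ec (a * r) / n)) = 1 := by
    rw [hc2 _ _ _ hb2 hb3 hvb2 hn hbn haP, hc1 _ (good_tor hn hvn haP), one_pow]
  have hco := RR_cocycle (z := ec r / n) h2 h3 hb2 hb3 (by
    have e : ec (a * (b : Eis)) * (ec r / n) = ec (a * b * r) / n := by
      rw [map_mul ec (a * b) r]
      ring
    rw [e]
    exact off _ (hca.mul_left hcb))
  have eaP : ec a * (ec r / n) = ec (a * r) / n := by
    rw [map_mul]
    ring
  have ebP : ec (b : Eis) * (ec r / n) = ec r / n + ec ((6 * nm a : ℕ) * r) := by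
    rw [map_mul, map_natCast, map_natCast, hb, hm]
    push_cast
    field_simp
    ring
  rw [ebP, RR_add, eaP, hnb] at hco
  have hz : ec a * (ec r / n) ∉ LO.lattice := by
    rw [eaP]
    exact haP
  have hne : v (RR a (ec r / n)) ≠ 0 := by
    rw [v.ne_zero_iff]
    exact RR_ne_zero h2 hz
  have h9 := congrArg v hco
  rw [v.map_mul, v.map_mul, v.map_pow, v.map_pow, hP1, hP2, one_pow, mul_one, one_mul] at h9
  have h10 : b ^ 2 = (b ^ 2 - 1) + 1 := by
    have : 1 ≤ b ^ 2 := Nat.one_le_pow _ _ (by omega)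
    omega
  rw [h10, pow_succ] at h9
  have h11 : v (RR a (ec r / n)) ^ (b ^ 2 - 1) = 1 := by
    have := mul_right_cancel₀ hne (h9.trans (one_mul _).symm)
    exact this
  have h12 : b ^ 2 - 1 ≠ 0 := by
    have : 4 ≤ b ^ 2 := by nlinarith
    omega
  exact (pow_eq_one_iff_of_nonneg zero_le h12).1 h11

/-- if all valuations of `y` are `≤ 1` then `y` is an algebraic integer -/
theorem isIntegral_of_val {y : ℂ} (h : ∀ V : ValuationSubring ℂ, V.valuation y ≤ 1) : IsIntegral ℤ y := by
  by_contra hy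
  have hy' : y ∉ (integralClosure ℤ ℂ).toSubring := hy
  obtain ⟨V, -, hV⟩ := Subring.exists_le_valuationSubring_of_isIntegrallyClosedIn hy'
  exact hV ((V.valuation_le_one_iff y).1 (h V))

end MPd9f52e
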