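import Pool.Agent.Lib.MP_d9f52e_nt.AFrob

/-!
# Artin symbols and the partial zeta functions

* `absNorm_coprime`: if a prime number `p` divides `N a` then `a` and `p` are not coprime (Cauchy),
  so a maximal ideal contains both.
* `artin_iff`: (←) induction on the ideal (`a` is `1` or `P * a'`), with `frob_exists`; (→)
  induction on `IsArtin`, with `frob_unique` and `frob_exists`; the norm is multiplicative. Note
  that `P * a` prime to `f` implies `m ∉ P` (otherwise `f ≤ P`).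
* `zeta_sum`: the set of all `a ≠ ⊥` prime to `f` with Artin symbol `ρ` is the disjoint union over
  the `g` with `rs L S g = ρ` of the sets of all `a ≠ ⊥` with `N a ≡ g` modulo `m`.
-/

open NumberField

namespace MPd9f52e

variable {d m : ℕ} [NeZero m] {K L M : Type} [Field K] [NumberField K] [Field L] [NumberField L]
  [Field M] [NumberField M] [Algebra K M] [Algebra K L] [Algebra L M] [IsScalarTower K L M]
  [Normal K L] {θ : K} {ζ : M}

/-- a prime divisor of the norm is not invertible modulo the ideal -/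
private theorem sup_ne_top {K : Type} [Field K] [NumberField K] {a : Ideal (𝓞 K)} (ha : a ≠ ⊥)
    {p : ℕ} (hp : p.Prime) (hpa : p ∣ Ideal.absNorm a) :
    a ⊔ Ideal.span {(p : 𝓞 K)} ≠ ⊤ := by
  intro h
  have hfin : Finite (𝓞 K ⧸ a) := Ideal.finiteQuotientOfFreeOfNeBot a ha
  have hcard : Nat.card (𝓞 K ⧸ a) = Ideal.absNorm a := by
    rw [Ideal.absNorm_apply]; rfl
  have hF : Fact p.Prime := ⟨hp⟩
  rw [← hcard] at hpa
  obtain ⟨z, hz⟩ := exists_prime_addOrderOf_dvd_card' p hpa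
  -- `p` is invertible modulo `a`
  have h1 : (1 : 𝓞 K) ∈ a ⊔ Ideal.span {(p : 𝓞 K)} := by rw [h]; trivial
  obtain ⟨x, hx, y, hy, hxy⟩ := Submodule.mem_sup.1 h1
  obtain ⟨c, hc⟩ := Ideal.mem_span_singleton'.1 hy
  have h2 : (Ideal.Quotient.mk a c) * (p : 𝓞 K ⧸ a) = 1 := by
    have h3 : Ideal.Quotient.mk a x = 0 := Ideal.Quotient.eq_zero_iff_mem.2 hx
    have h4 : Ideal.Quotient.mk a (x + y) = 1 := by rw [hxy, map_one]
    rw [map_add, h3, zero_add, ← hc, map_mul, map_natCast] at h4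
    exact h4
  have h5 : (p : 𝓞 K ⧸ a) * z = 0 := by
    rw [← nsmul_eq_mul, ← hz]
    exact addOrderOf_nsmul_eq_zero z
  have h6 : z = 0 := by
    calc z = (Ideal.Quotient.mk a c * (p : 𝓞 K ⧸ a)) * z := by rw [h2, one_mul]
      _ = Ideal.Quotient.mk a c * ((p : 𝓞 K ⧸ a) * z) := by ring
      _ = 0 := by rw [h5, mul_zero]
  rw [h6, addOrderOf_zero] at hz
  exact hp.one_lt.ne hz

omit [NeZero m] in
theorem absNorm_coprime {f : Ideal (𝓞 K)}
    (hf : ∀ P : Ideal (𝓞 K), P.IsPrime → (f ≤ P ↔ (m : 𝓞 K) ∈ P)) {a : Ideal (𝓞 K)}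
    (ha : a ≠ ⊥) : IsCoprime a f ↔ Nat.Coprime (Ideal.absNorm a) m := by
  rw [Ideal.isCoprime_iff_sup_eq]
  constructor
  · intro h
    apply Nat.coprime_of_dvd
    intro p hp hpa hpm
    obtain ⟨P, hP, hPle⟩ := Ideal.exists_le_maximal _ (sup_ne_top ha hp hpa)
    have h1 : a ≤ P := le_trans le_sup_left hPle
    have h2 : (p : 𝓞 K) ∈ P := hPle (Ideal.mem_sup_right (Ideal.mem_span_singleton_self _))
    have h3 : (m : 𝓞 K) ∈ P := by
      obtain ⟨k, rfl⟩ := hpm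
      rw [Nat.cast_mul]
      exact P.mul_mem_right _ h2
    have h4 : f ≤ P := (hf P hP.isPrime).2 h3
    apply hP.ne_top
    rw [eq_top_iff, ← h]
    exact sup_le h1 h4
  · intro h
    by_contra hne
    obtain ⟨P, hP, hPle⟩ := Ideal.exists_le_maximal _ hne
    have h1 : a ≤ P := le_trans le_sup_left hPle
    have h4 : f ≤ P := le_trans le_sup_right hPle
    have h3 : (m : 𝓞 K) ∈ P := (hf P hP.isPrime).1 h4
    have h2 : ((Ideal.absNorm a : ℕ) : 𝓞 K) ∈ P := h1 (Ideal.absNorm_mem a)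
    obtain ⟨u, v, huv⟩ := Nat.isCoprime_iff_coprime.2 h
    apply hP.ne_top
    rw [Ideal.eq_top_iff_one]
    have h5 : (1 : 𝓞 K) = (u : 𝓞 K) * ((Ideal.absNorm a : ℕ) : 𝓞 K) + (v : 𝓞 K) * (m : 𝓞 K) := by
      have := congrArg (fun t : ℤ => (t : 𝓞 K)) huv
      push_cast at this
      exact this.symm
    rw [h5]
    exact P.add_mem (P.mul_mem_left _ h2) (P.mul_mem_left _ h3)

omit [NeZero m] in
private theorem not_mem_of_unit {K : Type} [Field K] [NumberField K] {P : Ideal (𝓞 K)}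
    (hP : P.IsPrime) {g : (ZMod m)ˣ} (hg : (g : ZMod m) = (Ideal.absNorm P : ZMod m)) :
    (m : 𝓞 K) ∉ P := by
  intro h3
  have h : Nat.Coprime (Ideal.absNorm P) m := by
    rw [← ZMod.isUnit_iff_coprime, ← hg]
    exact g.isUnit
  have h2 : ((Ideal.absNorm P : ℕ) : 𝓞 K) ∈ P := Ideal.absNorm_mem P
  obtain ⟨u, v, huv⟩ := Nat.isCoprime_iff_coprime.2 h
  apply hP.ne_top
  rw [Ideal.eq_top_iff_one]
  have h5 : (1 : 𝓞 K) = (u : 𝓞 K) * ((Ideal.absNorm P : ℕ) : 𝓞 K) + (v : 𝓞 K) * (m : 𝓞 K) := by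
    have := congrArg (fun t : ℤ => (t : 𝓞 K)) huv
    push_cast at this
    exact this.symm
  rw [h5]
  exact P.add_mem (P.mul_mem_left _ h2) (P.mul_mem_left _ h3)

omit [NeZero m] in
/-- splitting a class which is a product -/
private theorem split_unit {g : (ZMod m)ˣ} {x y : ℕ} (hg : (g : ZMod m) = ((x * y : ℕ) : ZMod m)) :
    ∃ g1 g2 : (ZMod m)ˣ, (g1 : ZMod m) = (x : ZMod m) ∧ (g2 : ZMod m) = (y : ZMod m) ∧
      g = g1 * g2 := by
  rw [Nat.cast_mul] at hg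
  have h1 : IsUnit ((x : ZMod m) * (y : ZMod m)) := by rw [← hg]; exact g.isUnit
  obtain ⟨hx, hy⟩ := IsUnit.mul_iff.1 h1
  refine ⟨hx.unit, hy.unit, rfl, rfl, ?_⟩
  apply Units.ext
  rw [hg]
  rfl

omit [NeZero m] in
private theorem artin_fwd (h : Cyc d m K M θ ζ) {S : (ZMod m)ˣ ≃* (M ≃ₐ[K] M)}
    (hS : IsCycEquiv m K M ζ S) {a : Ideal (𝓞 K)} {ρ : L ≃ₐ[K] L} (hA : IsArtin K L a ρ) :
    ∀ g : (ZMod m)ˣ, (g : ZMod m) = (Ideal.absNorm a : ZMod m) → rs L S g = ρ := by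
  induction hA with
  | one =>
    intro g hg
    have h1 : g = 1 := by
      apply Units.ext
      rw [hg, map_one]
      simp
    rw [h1, map_one]
  | mul P a σ τ hP hP0 hfr _ ih =>
    intro g hg
    rw [map_mul] at hg
    obtain ⟨g1, g2, h1, h2, h3⟩ := split_unit hg
    have hm := not_mem_of_unit hP h1
    have hf := frob_exists (L := L) h hS hP hP0 hm h1
    have h4 := frob_unique h hS hP hP0 hm hf hfr
    rw [h3, map_mul, h4, ih g2 h2]

omit [NeZero m] in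
private theorem artin_bwd (h : Cyc d m K M θ ζ) {S : (ZMod m)ˣ ≃* (M ≃ₐ[K] M)}
    (hS : IsCycEquiv m K M ζ S) (a : Ideal (𝓞 K)) :
    a ≠ ⊥ → ∀ g : (ZMod m)ˣ, (g : ZMod m) = (Ideal.absNorm a : ZMod m) →
      IsArtin K L a (rs L S g) := by
  induction a using UniqueFactorizationMonoid.induction_on_prime with
  | h₁ => intro h0; exact absurd rfl h0
  | h₂ x hx =>
    intro _ g hg
    have h1 : x = 1 := by
      rw [Ideal.isUnit_iff] at hx
      rw [hx, Ideal.one_eq_top]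
    rw [h1, map_one] at hg
    have h2 : g = 1 := by
      apply Units.ext
      rw [hg]; simp
    rw [h1, h2, map_one]
    exact IsArtin.one
  | h₃ a p ha hp ih =>
    intro _ g hg
    rw [map_mul] at hg
    obtain ⟨g1, g2, h1, h2, h3⟩ := split_unit hg
    have hp0 : p ≠ ⊥ := hp.ne_zero
    have hP : p.IsPrime := Ideal.isPrime_of_prime hp
    have hm := not_mem_of_unit hP h1
    have hf := frob_exists (L := L) h hS hP hp0 hm h1
    rw [h3, map_mul]
    exact IsArtin.mul p a _ _ hP hp0 hf (ih ha g2 h2)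

omit [NeZero m] in
theorem artin_iff (h : Cyc d m K M θ ζ) {S : (ZMod m)ˣ ≃* (M ≃ₐ[K] M)}
    (hS : IsCycEquiv m K M ζ S) {a : Ideal (𝓞 K)} (ha : a ≠ ⊥) {g : (ZMod m)ˣ}
    (hg : (g : ZMod m) = (Ideal.absNorm a : ZMod m)) (ρ : L ≃ₐ[K] L) :
    IsArtin K L a ρ ↔ rs L S g = ρ := by
  constructor
  · intro hA
    exact artin_fwd h hS hA g hg
  · rintro rfl
    exact artin_bwd h hS a ha g hg

open Classical in
theorem zeta_sum (h : Cyc d m K M θ ζ) {S : (ZMod m)ˣ ≃* (M ≃ₐ[K] M)}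
    (hS : IsCycEquiv m K M ζ S) {f : Ideal (𝓞 K)}
    (hf : ∀ P : Ideal (𝓞 K), P.IsPrime → (f ≤ P ↔ (m : 𝓞 K) ∈ P)) (s : ℂ)
    (Z : (ZMod m)ˣ → ℂ)
    (hZ : ∀ g : (ZMod m)ˣ, HasSum
      (fun a : {a : Ideal (𝓞 K) // a ≠ ⊥ ∧ (g : ZMod m) = (Ideal.absNorm a : ZMod m)} =>
        (Ideal.absNorm a.1 : ℂ) ^ (-s)) (Z g)) (ρ : L ≃ₐ[K] L) :
    HasSum (fun a : {a : Ideal (𝓞 K) // a ≠ ⊥ ∧ IsCoprime a f ∧ IsArtin K L a ρ} =>
        (Ideal.absNorm a.1 : ℂ) ^ (-s)) (∑ g : (ZMod m)ˣ, if rs L S g = ρ then Z g else 0) := by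
  set F : Ideal (𝓞 K) → ℂ := fun a => (Ideal.absNorm a : ℂ) ^ (-s) with hF
  have h1 : ∀ g : (ZMod m)ˣ, HasSum
      (Set.indicator {a : Ideal (𝓞 K) | a ≠ ⊥ ∧ (g : ZMod m) = (Ideal.absNorm a : ZMod m)} F)
      (Z g) := fun g => hasSum_subtype_iff_indicator.1 (hZ g)
  have h2 : HasSum (fun a => ∑ g : (ZMod m)ˣ, if rs L S g = ρ then
      Set.indicator {a : Ideal (𝓞 K) | a ≠ ⊥ ∧ (g : ZMod m) = (Ideal.absNorm a : ZMod m)} F a
      else 0) (∑ g : (ZMod m)ˣ, if rs L S g = ρ then Z g else 0) := by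
    apply hasSum_sum
    intro g _
    by_cases hg : rs L S g = ρ
    · simp only [if_pos hg]; exact h1 g
    · simp only [if_neg hg]; exact hasSum_zero
  have h3 : HasSum (Set.indicator {a : Ideal (𝓞 K) | a ≠ ⊥ ∧ IsCoprime a f ∧ IsArtin K L a ρ} F)
      (∑ g : (ZMod m)ˣ, if rs L S g = ρ then Z g else 0) := by
    convert h2 using 1
    funext a
    by_cases ha : a ∈ {a : Ideal (𝓞 K) | a ≠ ⊥ ∧ IsCoprime a f ∧ IsArtin K L a ρ}
    · rw [Set.indicator_of_mem ha]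
      obtain ⟨ha0, hac, haA⟩ := ha
      have hcop := (absNorm_coprime hf ha0).1 hac
      set g0 : (ZMod m)ˣ := ((ZMod.isUnit_iff_coprime _ _).2 hcop).unit with hg0
      have hg0' : (g0 : ZMod m) = (Ideal.absNorm a : ZMod m) := rfl
      rw [Finset.sum_eq_single g0]
      · rw [if_pos ((artin_iff h hS ha0 hg0' ρ).1 haA), Set.indicator_of_mem]
        exact ⟨ha0, hg0'⟩
      · intro g _ hne
        split_ifs with hg
        · rw [Set.indicator_of_notMem]
          rintro ⟨-, h5⟩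
          exact hne (Units.ext (h5.trans hg0'.symm))
        · rfl
      · intro h5; exact absurd (Finset.mem_univ _) h5
    · rw [Set.indicator_of_notMem ha]
      symm
      apply Finset.sum_eq_zero
      intro g _
      split_ifs with hg
      · rw [Set.indicator_of_notMem]
        rintro ⟨h4, h5⟩
        apply ha
        refine ⟨h4, ?_, ?_⟩
        · rw [absNorm_coprime hf h4, ← ZMod.isUnit_iff_coprime, ← h5]
          exact g.isUnit
        · exact (artin_iff h hS h4 h5 ρ).2 hg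
      · rfl
  exact hasSum_subtype_iff_indicator.2 h3

end MPd9f52e
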