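import Mathlib

/-!
# ACl5: the field generated by the cube root of 5 has class number one
-/

set_option autoImplicit false

open NumberField

namespace MPd9f52e

namespace Five

variable {K : Type} [Field K] [NumberField K]

private theorem five_rat (b : ℚ) : b ^ 3 ≠ 5 := by
  intro h
  have hp : Prime (5 : ℤ) := by norm_num
  have h1 : IsIntegral ℤ b := by
    refine ⟨Polynomial.X ^ 3 - Polynomial.C 5, Polynomial.monic_X_pow_sub_C _ (by norm_num), ?_⟩
    simp [h]
  obtain ⟨n, rfl⟩ := IsIntegrallyClosed.isIntegral_iff.1 h1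
  have h2 : n ^ 3 = 5 := by
    have h3 : ((n ^ 3 : ℤ) : ℚ) = ((5 : ℤ) : ℚ) := by
      push_cast
      simpa using h
    exact_mod_cast h3
  have h3 : n ≤ 1 := by nlinarith [sq_nonneg n, sq_nonneg (n - 1), sq_nonneg (n + 1)]
  nlinarith [sq_nonneg n, sq_nonneg (n - 1), sq_nonneg (n + 1)]

private theorem irr5 : Irreducible (Polynomial.X ^ 3 - Polynomial.C (5 : ℚ)) :=
  X_pow_sub_C_irreducible_of_prime Nat.prime_three five_rat

private theorem min5 {θ : K} (hθ : θ ^ 3 = 5) : minpoly ℚ θ = Polynomial.X ^ 3 - Polynomial.C (5 : ℚ) := by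
  refine (minpoly.eq_of_irreducible_of_monic irr5 ?_ (Polynomial.monic_X_pow_sub_C _ (by norm_num))).symm
  simp [hθ]

private theorem exists_basis (hK : Module.finrank ℚ K = 3) {θ : K} (hθ : θ ^ 3 = 5) :
    ∃ B : Module.Basis (Fin 3) ℚ K, B 0 = 1 ∧ B 1 = θ ∧ B 2 = θ ^ 2 := by
  have hdeg : (minpoly ℚ θ).natDegree = 3 := by
    rw [min5 hθ]; exact Polynomial.natDegree_X_pow_sub_C
  have hli := linearIndependent_pow (K := ℚ) θ
  have hli2 : LinearIndependent ℚ (fun i : Fin 3 => θ ^ (i : ℕ)) := by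
    have := hli.comp (Fin.cast hdeg.symm) (Fin.cast_injective _)
    exact this
  have hcard : Fintype.card (Fin 3) = Module.finrank ℚ K := by rw [hK]; rfl
  refine ⟨basisOfLinearIndependentOfCardEqFinrank hli2 hcard, ?_, ?_, ?_⟩ <;> simp

private theorem mat (hK : Module.finrank ℚ K = 3) {θ : K} (hθ : θ ^ 3 = 5) :
    ∃ φ : K →ₐ[ℚ] Matrix (Fin 3) (Fin 3) ℚ, (φ θ = !![0, 0, 5; 1, 0, 0; 0, 1, 0]) ∧
      (∀ x, Algebra.norm ℚ x = (φ x).det) ∧ ∀ x, Algebra.trace ℚ K x = (φ x).trace := by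
  obtain ⟨B, h0, h1, h2⟩ := exists_basis hK hθ
  refine ⟨Algebra.leftMulMatrix B, ?_, fun x => Algebra.norm_eq_matrix_det B x,
    fun x => Algebra.trace_eq_matrix_trace B x⟩
  have e0 : θ * B 0 = B 1 := by rw [h0, h1, mul_one]
  have e1 : θ * B 1 = B 2 := by rw [h1, h2, sq]
  have e2 : θ * B 2 = (5 : ℚ) • B 0 := by
    rw [h2, h0, ← pow_succ', hθ, Algebra.smul_def, mul_one]; simp
  ext i j
  rw [Algebra.leftMulMatrix_eq_repr_mul]
  fin_cases j
  · simp only [Fin.zero_eta, e0, Module.Basis.repr_self]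
    fin_cases i <;> simp
  · simp only [Fin.mk_one, e1, Module.Basis.repr_self]
    fin_cases i <;> simp
  · simp only [Fin.reduceFinMk, e2, map_smul, Module.Basis.repr_self]
    fin_cases i <;> simp

private theorem norm_formula (hK : Module.finrank ℚ K = 3) {θ : K} (hθ : θ ^ 3 = 5) (a b c : ℤ) :
    Algebra.norm ℚ ((a : K) + b * θ + c * θ ^ 2) = a ^ 3 + 5 * b ^ 3 + 25 * c ^ 3 - 15 * a * b * c := by
  obtain ⟨φ, h1, h2, -⟩ := mat hK hθ
  rw [h2]
  have : φ ((a : K) + b * θ + c * θ ^ 2) =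
      !![(a : ℚ), 5 * c, 5 * b; (b : ℚ), a, 5 * c; (c : ℚ), b, a] := by
    rw [map_add, map_add, map_mul, map_mul, map_pow, h1, map_intCast, map_intCast, map_intCast]
    rw [← Matrix.diagonal_intCast, ← Matrix.diagonal_intCast, ← Matrix.diagonal_intCast]
    ext i j
    fin_cases i <;> fin_cases j <;>
      simp [pow_two, Matrix.mul_apply, Matrix.diagonal] <;> ring
  rw [this, Matrix.det_fin_three]
  simp
  ring

private theorem trace_formula (hK : Module.finrank ℚ K = 3) {θ : K} (hθ : θ ^ 3 = 5) (a b c : ℚ) :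
    Algebra.trace ℚ K (algebraMap ℚ K a + algebraMap ℚ K b * θ + algebraMap ℚ K c * θ ^ 2) = 3 * a := by
  obtain ⟨φ, h1, -, h2⟩ := mat hK hθ
  rw [h2]
  have : φ (algebraMap ℚ K a + algebraMap ℚ K b * θ + algebraMap ℚ K c * θ ^ 2) =
      !![(a : ℚ), 5 * c, 5 * b; (b : ℚ), a, 5 * c; (c : ℚ), b, a] := by
    rw [map_add, map_add, map_mul, map_mul, map_pow, h1, AlgHom.commutes, AlgHom.commutes, AlgHom.commutes]
    ext i j
    fin_cases i <;> fin_cases j <;>
      simp [pow_two, Algebra.algebraMap_eq_smul_one] <;> ring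
  rw [this, Matrix.trace_fin_three]
  simp
  ring

private theorem discr_le (hK : Module.finrank ℚ K = 3) {θ : K} (hθ : θ ^ 3 = 5) :
    |discr K| ≤ 675 := by
  have hint : IsIntegral ℤ θ := by
    refine ⟨Polynomial.X ^ 3 - Polynomial.C 5, Polynomial.monic_X_pow_sub_C _ (by norm_num), ?_⟩
    simp [hθ]
  let t : 𝓞 K := ⟨θ, hint⟩
  have ht : (t : K) = θ := rfl
  have htr : ∀ a b c : ℤ, Algebra.trace ℤ (𝓞 K) ((a : 𝓞 K) + b * t + c * t ^ 2) = 3 * a := by
    intro a b c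
    have h1 : ((Algebra.trace ℤ (𝓞 K) ((a : 𝓞 K) + b * t + c * t ^ 2) : ℤ) : ℚ) = ((3 * a : ℤ) : ℚ) := by
      rw [Algebra.coe_trace_int]
      have := trace_formula hK hθ a b c
      push_cast
      simpa [ht] using this
    exact_mod_cast h1
  have ht3 : t ^ 3 = 5 := by
    apply RingOfIntegers.ext
    rw [show ((t ^ 3 : 𝓞 K) : K) = θ ^ 3 from rfl, hθ]
    rfl
  let v : Fin 3 → 𝓞 K := ![1, t, t ^ 2]
  have hv : Algebra.discr ℤ v = -675 := by
    rw [Algebra.discr_def]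
    have hm : Algebra.traceMatrix ℤ v = !![3, 0, 0; 0, 0, 15; 0, 15, 0] := by
      ext i j
      rw [Algebra.traceMatrix_apply, Algebra.traceForm_apply]
      have e00 := htr 1 0 0
      have e01 := htr 0 1 0
      have e02 := htr 0 0 1
      have e12 := htr 5 0 0
      have e22 := htr 0 5 0
      simp only [Int.cast_one, Int.cast_zero, zero_mul, add_zero, zero_add, one_mul, Int.cast_ofNat] at e00 e01 e02 e12 e22
      fin_cases i <;> fin_cases j <;> simp [v]
      · simpa using e00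
      · exact e01
      · exact e02
      · exact e01
      · rw [← sq]; exact e02
      · rw [show t * t ^ 2 = 5 by rw [← ht3]; ring]; exact e12
      · exact e02
      · rw [show t ^ 2 * t = 5 by rw [← ht3]; ring]; exact e12
      · rw [show t ^ 2 * t ^ 2 = 5 * t by rw [← ht3]; ring]; exact e22
    rw [hm, Matrix.det_fin_three]
    simp
  have hcard : Fintype.card (Module.Free.ChooseBasisIndex ℤ (𝓞 K)) = 3 := by
    rw [← Module.finrank_eq_card_chooseBasisIndex, RingOfIntegers.rank, hK]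
  let b : Module.Basis (Fin 3) ℤ (𝓞 K) := (RingOfIntegers.basis K).reindex (Fintype.equivFinOfCardEq hcard)
  have hb : Algebra.discr ℤ b = discr K := discr_eq_discr K b
  have hvb : v = Matrix.vecMul (b : Fin 3 → 𝓞 K) ((b.toMatrix v).map (algebraMap ℤ (𝓞 K))) := by
    funext j
    have := b.sum_toMatrix_smul_self v (j := j)
    rw [← this]
    simp only [Matrix.vecMul, dotProduct, Matrix.map_apply]
    refine Finset.sum_congr rfl fun i _ => ?_
    rw [Algebra.smul_def, mul_comm]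
  have h2 := Algebra.discr_of_matrix_vecMul (A := ℤ) (b : Fin 3 → 𝓞 K) (b.toMatrix v)
  rw [← hvb, hv, hb] at h2
  have h3 : (b.toMatrix v).det ≠ 0 := by
    intro h
    rw [h] at h2
    norm_num at h2
  have h4 : 1 ≤ (b.toMatrix v).det ^ 2 := by
    have : 0 < (b.toMatrix v).det ^ 2 := by positivity
    exact this
  have h5 : |discr K| * (b.toMatrix v).det ^ 2 = 675 := by
    have h6 : |(-675 : ℤ)| = |(b.toMatrix v).det ^ 2 * discr K| := by rw [← h2]
    rw [abs_mul, abs_of_nonneg (by positivity : (0 : ℤ) ≤ (b.toMatrix v).det ^ 2)] at h6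
    rw [mul_comm, ← h6]; rfl
  nlinarith [abs_nonneg (discr K)]

private theorem mink (hK : Module.finrank ℚ K = 3) {θ : K} (hθ : θ ^ 3 = 5) :
    (4 / Real.pi) ^ InfinitePlace.nrComplexPlaces K *
      (((Module.finrank ℚ K).factorial : ℝ) / (Module.finrank ℚ K : ℝ) ^ (Module.finrank ℚ K) * Real.sqrt |(discr K : ℝ)|) < 8 := by
  have h1 : InfinitePlace.nrComplexPlaces K ≤ 1 := by
    have := InfinitePlace.card_add_two_mul_card_eq_rank K
    rw [hK] at this
    omega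
  have hpi := Real.pi_gt_three
  have hpi2 := Real.pi_gt_d2
  have h2 : (4 / Real.pi) ^ InfinitePlace.nrComplexPlaces K ≤ 4 / 3.14 := by
    have h3 : (1 : ℝ) ≤ 4 / Real.pi := by
      rw [le_div_iff₀ Real.pi_pos]
      linarith [Real.pi_le_four]
    calc (4 / Real.pi) ^ InfinitePlace.nrComplexPlaces K ≤ (4 / Real.pi) ^ 1 := pow_le_pow_right₀ h3 h1
      _ = 4 / Real.pi := pow_one _
      _ ≤ 4 / 3.14 := by
        apply div_le_div_of_nonneg_left (by norm_num) (by norm_num) hpi2.le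
  have h3 : Real.sqrt |(discr K : ℝ)| ≤ 26 := by
    rw [Real.sqrt_le_left (by norm_num)]
    have : |discr K| ≤ 675 := discr_le hK hθ
    have h4 : |(discr K : ℝ)| ≤ 675 := by exact_mod_cast this
    linarith
  rw [hK]
  have h4 : (0 : ℝ) ≤ Real.sqrt |(discr K : ℝ)| := Real.sqrt_nonneg _
  have h5 : ((Nat.factorial 3 : ℕ) : ℝ) / ((3 : ℕ) : ℝ) ^ 3 * Real.sqrt |(discr K : ℝ)| ≤ 6 / 27 * 26 := by
    rw [show ((Nat.factorial 3 : ℕ) : ℝ) / ((3 : ℕ) : ℝ) ^ 3 = 6 / 27 by norm_num [Nat.factorial]]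
    linarith
  have h6 : (0 : ℝ) ≤ ((Nat.factorial 3 : ℕ) : ℝ) / ((3 : ℕ) : ℝ) ^ 3 * Real.sqrt |(discr K : ℝ)| := by positivity
  calc _ ≤ (4 / 3.14) * (6 / 27 * 26 : ℝ) := mul_le_mul h2 h5 h6 (by norm_num)
    _ < 8 := by norm_num

/-- An ideal of norm `n` containing an element of norm `± n` is principal. -/
private theorem principal_of_mem {P : Ideal (𝓞 K)} {x : 𝓞 K} (hx : x ∈ P) (h0 : x ≠ 0)
    (hn : (Algebra.norm ℤ x).natAbs ∣ Ideal.absNorm P) : Submodule.IsPrincipal P := by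
  have h1 : P ∣ Ideal.span {x} := Ideal.dvd_span_singleton.2 hx
  obtain ⟨J, hJ⟩ := h1
  have h2 : Ideal.absNorm (Ideal.span {x}) = (Algebra.norm ℤ x).natAbs := Ideal.absNorm_span_singleton x
  have h3 : Ideal.absNorm (Ideal.span {x}) ≠ 0 := by
    rw [Ne, Ideal.absNorm_eq_zero_iff, Ideal.span_singleton_eq_bot]; exact h0
  rw [← h2, hJ, map_mul] at hn
  rw [hJ, map_mul] at h3
  have hP : 0 < Ideal.absNorm P := Nat.pos_of_ne_zero (left_ne_zero_of_mul h3)
  have hJ1 : Ideal.absNorm J = 1 := by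
    have h4 : Ideal.absNorm P * Ideal.absNorm J ∣ Ideal.absNorm P * 1 := by rw [mul_one]; exact hn
    exact Nat.dvd_one.1 (Nat.dvd_of_mul_dvd_mul_left hP h4)
  rw [Ideal.absNorm_eq_one_iff] at hJ1
  rw [hJ1, Ideal.mul_top] at hJ
  exact ⟨⟨x, by rw [← hJ]⟩⟩

end Five

variable {K : Type} [Field K] [NumberField K]

open Five in
theorem class_five (hK : Module.finrank ℚ K = 3) {θ : K} (hθ : θ ^ 3 = 5) : IsPrincipalIdealRing (𝓞 K) := by
  have hint : IsIntegral ℤ θ := by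
    refine ⟨Polynomial.X ^ 3 - Polynomial.C 5, Polynomial.monic_X_pow_sub_C _ (by norm_num), ?_⟩
    simp [hθ]
  let t : 𝓞 K := ⟨θ, hint⟩
  have ht : (t : K) = θ := rfl
  have ht3 : t ^ 3 = 5 := by
    apply RingOfIntegers.ext
    rw [show ((t ^ 3 : 𝓞 K) : K) = θ ^ 3 from rfl, hθ]
    rfl
  have hnorm : ∀ a b c : ℤ, Algebra.norm ℤ ((a : 𝓞 K) + b * t + c * t ^ 2) = a ^ 3 + 5 * b ^ 3 + 25 * c ^ 3 - 15 * a * b * c := by
    intro a b c
    have h1 : ((Algebra.norm ℤ ((a : 𝓞 K) + b * t + c * t ^ 2) : ℤ) : ℚ) = ((a ^ 3 + 5 * b ^ 3 + 25 * c ^ 3 - 15 * a * b * c : ℤ) : ℚ) := by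
      rw [Algebra.coe_norm_int]
      have := norm_formula hK hθ a b c
      push_cast
      simpa [ht] using this
    exact_mod_cast h1
  have hne : ∀ x : 𝓞 K, Algebra.norm ℤ x ≠ 0 → x ≠ 0 := by
    intro x hx h
    rw [h] at hx
    exact hx (Algebra.norm_zero)
  refine RingOfIntegers.isPrincipalIdealRing_of_isPrincipal_of_norm_le_of_isPrime fun I hI hle => ?_
  obtain ⟨P, hP0⟩ := I
  simp only at hI hle ⊢
  have hlt : ((Ideal.absNorm P : ℕ) : ℝ) < 8 := lt_of_le_of_lt hle (mink hK hθ)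
  have hlt' : Ideal.absNorm P < 8 := by exact_mod_cast hlt
  have hPbot : P ≠ ⊥ := nonZeroDivisors.coe_ne_zero ⟨P, hP0⟩
  have hmax : P.IsMaximal := hI.isMaximal hPbot
  let _ : Field (𝓞 K ⧸ P) := Ideal.Quotient.field P
  have hfin : Finite (𝓞 K ⧸ P) := Ideal.finiteQuotientOfFreeOfNeBot P hPbot
  have hcard : Nat.card (𝓞 K ⧸ P) = Ideal.absNorm P := rfl
  let _ : Fintype (𝓞 K ⧸ P) := Fintype.ofFinite _
  rw [Nat.card_eq_fintype_card] at hcard
  obtain ⟨p, hpc⟩ := CharP.exists (𝓞 K ⧸ P)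
  obtain ⟨n, hp, hc⟩ := FiniteField.card (𝓞 K ⧸ P) p
  have hn1 : 1 ≤ (n : ℕ) := n.pos
  have hpn : p ^ (n : ℕ) < 8 := by rw [← hc, hcard]; exact hlt'
  have hp8 : p < 8 := lt_of_le_of_lt (by simpa using Nat.pow_le_pow_right hp.pos hn1) hpn
  have hτ3 : (Ideal.Quotient.mk P t) ^ 3 = 5 := by rw [← map_pow, ht3]; rfl
  have hp0 : (p : 𝓞 K ⧸ P) = 0 := CharP.cast_eq_zero _ p
  have hpow : (Ideal.Quotient.mk P t) ^ (p ^ (n : ℕ)) = Ideal.Quotient.mk P t := by
    rw [← hc]; exact FiniteField.pow_card _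
  set τ := Ideal.Quotient.mk P t with hτ
  have hmk : ∀ a b c : ℤ, Ideal.Quotient.mk P ((a : 𝓞 K) + b * t + c * t ^ 2) = a + b * τ + c * τ ^ 2 := by
    intro a b c
    simp [hτ]
  have fin : ∀ a b c : ℤ, (a : 𝓞 K ⧸ P) + b * τ + c * τ ^ 2 = 0 →
      ∀ k : ℤ, k ≠ 0 → a ^ 3 + 5 * b ^ 3 + 25 * c ^ 3 - 15 * a * b * c = k → k.natAbs ∣ p ^ (n : ℕ) →
      Submodule.IsPrincipal P := by
    intro a b c h1 k hk h2 h3
    have h4 : (a : 𝓞 K) + b * t + c * t ^ 2 ∈ P := by
      rw [← Ideal.Quotient.eq_zero_iff_mem, hmk]; exact h1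
    refine principal_of_mem h4 (hne _ ?_) ?_
    · rw [hnorm, h2]; exact hk
    · rw [hnorm, h2, ← hcard, hc]; exact h3
  have hn2 : (n : ℕ) < 3 := by
    by_contra hcon
    have h8 : 2 ^ 3 ≤ p ^ (n : ℕ) := (Nat.pow_le_pow_left hp.two_le 3).trans (Nat.pow_le_pow_right hp.pos (by omega))
    omega
  interval_cases p
  · exact absurd hp (by norm_num)
  · exact absurd hp (by norm_num)
  · have h2 : (2 : 𝓞 K ⧸ P) = 0 := by exact_mod_cast hp0
    have hfac : (τ - 1) * (τ ^ 2 + τ + 1) = 0 := by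
      linear_combination hτ3 + 2 * h2
    rcases mul_eq_zero.1 hfac with h | h
    · refine fin (-3) 0 1 ?_ (-2) (by norm_num) (by norm_num) ?_
      · push_cast
        linear_combination (τ + 1) * h - h2
      · exact dvd_pow_self 2 (by omega)
    · have hn : (n : ℕ) = 2 := by
        by_contra hcon
        have : (n : ℕ) = 1 := by omega
        rw [this, pow_one] at hpow
        have : (1 : 𝓞 K ⧸ P) = 0 := by linear_combination h - hpow - τ * h2
        exact one_ne_zero this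
      refine fin 9 5 3 ?_ 4 (by norm_num) (by norm_num) ?_
      · push_cast
        linear_combination h + (4 + 2 * τ + τ ^ 2) * h2
      · rw [hn]; norm_num
  · have h3 : (3 : 𝓞 K ⧸ P) = 0 := by exact_mod_cast hp0
    have hn : (n : ℕ) = 1 := by
      by_contra hcon
      have : (n : ℕ) = 2 := by omega
      rw [this] at hpn; norm_num at hpn
    rw [hn, pow_one] at hpow
    refine fin 2 (-1) 0 ?_ 3 (by norm_num) (by norm_num) ?_
    · push_cast
      linear_combination hpow - hτ3 - h3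
    · rw [hn]; norm_num
  · exact absurd hp (by norm_num)
  · have h5 : (5 : 𝓞 K ⧸ P) = 0 := by exact_mod_cast hp0
    have hn : (n : ℕ) = 1 := by
      by_contra hcon
      have : (n : ℕ) = 2 := by omega
      rw [this] at hpn; norm_num at hpn
    refine fin 0 1 0 ?_ 5 (by norm_num) (by norm_num) ?_
    · have : τ ^ 3 = 0 := by rw [hτ3, h5]
      have h0 : τ = 0 := pow_eq_zero_iff (by norm_num) |>.1 this
      push_cast
      rw [h0]; ring
    · rw [hn]; norm_num
  · exact absurd hp (by norm_num)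
  · exfalso
    have h7 : (7 : 𝓞 K ⧸ P) = 0 := by exact_mod_cast hp0
    have hn : (n : ℕ) = 1 := by
      by_contra hcon
      have : (n : ℕ) = 2 := by omega
      rw [this] at hpn; norm_num at hpn
    rw [hn, pow_one] at hpow
    have e1 : τ = 0 := by
      linear_combination (-2 : 𝓞 K ⧸ P) * hpow + 2 * (τ ^ 4 + 5 * τ) * hτ3 + (7 * τ : 𝓞 K ⧸ P) * h7
    rw [e1] at hτ3
    have : (1 : 𝓞 K ⧸ P) = 0 := by linear_combination (-3 : 𝓞 K ⧸ P) * hτ3 - 2 * h7
    exact one_ne_zero this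

end MPd9f52e
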