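import Pool.Agent.Lib.MP_d9f52e_nt.AStick
import Pool.Agent.Lib.MP_d9f52e_nt.APw
import Pool.Agent.Lib.MP_d9f52e_nt.AKum

/-!
# Condition 3

Apply `kummer_abelian` with `e = torsionOrder L`, `u = pw A z`. For `σ` choose `g` with
`rs L S g = σ` (surjectivity of restriction) and an odd representative `c σ` of `g` (`odd_rep`),
`w σ = pw (thB r (c σ)) z`.
* `h1`: `σ u` has exponents `A (σ⁻¹ τ) = e thQ (σ⁻¹ τ) = e (c thQ τ + thB c τ) = c A τ + e thB c τ`
  (`apply_pw`, `stick_id`, `pw_add`, `pw_mul`).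
* `h2`: `S_root` for the image of `η` in `M`.
* `h3`: with `c = c σ`, `c' = c τ`, both sides are `pw B z` with
  `B ρ = thQ ((σ τ)⁻¹ ρ) - c c' thQ ρ`: the exponents of `σ (w τ)` are
  `thB c' (σ⁻¹ ρ) = thQ (τ⁻¹ σ⁻¹ ρ) - c' thQ (σ⁻¹ ρ)`, those of `(w σ) ^ c'` are
  `c' thB c ρ = c' thQ (σ⁻¹ ρ) - c' c thQ ρ`.
-/

open NumberField

namespace MPd9f52e

variable {d m : ℕ} [NeZero m] {K L M : Type} [Field K] [NumberField K] [Field L] [NumberField L]
  [Field M] [NumberField M] [Algebra K M] [Algebra K L] [Algebra L M] [IsScalarTower K L M]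
  [Normal K L] {θ : K} {ζ : M}

/-- a number field contains a primitive root of unity of order `torsionOrder` -/
private theorem acond3_prim (L : Type) [Field L] [NumberField L] :
    ∃ η : L, IsPrimitiveRoot η (Units.torsionOrder L) := by
  obtain ⟨μ, hμ⟩ : ∃ μ : Units.torsion L, orderOf μ = Units.torsionOrder L :=
    IsCyclic.exists_ofOrder_eq_natCard
  rw [← IsPrimitiveRoot.iff_orderOf, ← IsPrimitiveRoot.coe_submonoidClass_iff,
    ← IsPrimitiveRoot.coe_units_iff] at hμ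
  exact ⟨_, hμ.map_of_injective (FaithfulSMul.algebraMap_injective (𝓞 L) L)⟩

theorem cond3 (h : Cyc d m K M θ ζ) {S : (ZMod m)ˣ ≃* (M ≃ₐ[K] M)}
    (hS : IsCycEquiv m K M ζ S) {A : (L ≃ₐ[K] L) → ℤ}
    (hA : ∀ σ, (A σ : ℚ) = (Units.torsionOrder L : ℚ) * thQ (rs L S) σ) {z : L} (hz : z ≠ 0)
    (E : Type) [Field E] [Algebra K E] [Algebra L E] [IsScalarTower K L E] (x : E)
    (hx : x ^ Units.torsionOrder L = algebraMap L E (pw A z))
    (hE : IntermediateField.adjoin L {x} = ⊤) :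
    IsGalois K E ∧ ∀ σ τ : E ≃ₐ[K] E, σ * τ = τ * σ := by
  have hGM : IsGalois K M := cyc_galois h
  obtain ⟨hGL, hab⟩ := cyc_sub h L
  have he : 0 < Units.torsionOrder L := Units.torsionOrder_pos L
  -- choose group elements and odd representatives
  have hsurj : ∀ σ : L ≃ₐ[K] L, ∃ (g : (ZMod m)ˣ) (c : ℕ), rs L S g = σ ∧ Odd c ∧
      (g : ZMod m) = (c : ZMod m) := by
    intro σ
    obtain ⟨s, hs⟩ := AlgEquiv.restrictNormalHom_surjective (F := K) (K₁ := L) M σ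
    obtain ⟨c, hc, -, hgc⟩ := odd_rep h.three_le (S.symm s)
    refine ⟨S.symm s, c, ?_, hc, hgc⟩
    rw [← hs]
    show AlgEquiv.restrictNormalHom L (S (S.symm s)) = _
    rw [MulEquiv.apply_symm_apply]
  choose g c hg hc hgc using hsurj
  -- the Stickelberger identity
  have hst : ∀ σ ρ : L ≃ₐ[K] L, thQ (rs L S) (σ⁻¹ * ρ) =
      c σ * thQ (rs L S) ρ + (thB (rs L S) (c σ) ρ : ℚ) := by
    intro σ ρ
    have h1 := stick_id h hS (L := L) (hc σ) (hgc σ) ρ
    rw [hg σ] at h1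
    linarith
  refine kummer_abelian hab he (acond3_prim L) (pw_ne_zero A hz) c
    (fun σ => pw (thB (rs L S) (c σ)) z) ?_ ?_ ?_ E x hx hE
  · intro σ
    rw [apply_pw, ← pw_mul, ← pw_mul, ← pw_add _ _ hz]
    congr 1
    funext τ
    have h1 : (A (σ⁻¹ * τ) : ℚ) = ((c σ : ℤ) * A τ +
        (Units.torsionOrder L : ℤ) * thB (rs L S) (c σ) τ : ℤ) := by
      push_cast
      rw [hA, hA, hst]
      ring
    exact_mod_cast h1
  · intro σ η hη
    have hη' : (algebraMap L M η) ^ Units.torsionOrder L = 1 := by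
      rw [← map_pow, hη, map_one]
    have h1 := S_root h hS (hc σ) (hgc σ) he hη'
    have h2 : algebraMap L M (σ η) = S (g σ) (algebraMap L M η) := by
      conv_lhs => rw [← hg σ]
      exact AlgEquiv.restrictNormal_commutes (S (g σ)) L η
    apply (algebraMap L M).injective
    rw [h2, h1, map_pow]
  · intro σ τ
    rw [apply_pw, apply_pw, ← pw_mul, ← pw_mul, ← pw_add _ _ hz, ← pw_add _ _ hz]
    congr 1
    funext ρ
    have h1 := hst τ (σ⁻¹ * ρ)
    have h2 := hst σ ρ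
    have h3 := hst σ (τ⁻¹ * ρ)
    have h4 := hst τ ρ
    have h5 : τ⁻¹ * (σ⁻¹ * ρ) = σ⁻¹ * (τ⁻¹ * ρ) := by
      rw [← mul_assoc, ← mul_assoc, hab τ⁻¹ σ⁻¹]
    rw [h5] at h1
    have h6 : ((thB (rs L S) (c τ) (σ⁻¹ * ρ) + (c τ : ℤ) * thB (rs L S) (c σ) ρ : ℤ) : ℚ) =
        ((thB (rs L S) (c σ) (τ⁻¹ * ρ) + (c σ : ℤ) * thB (rs L S) (c τ) ρ : ℤ) : ℚ) := by
      push_cast
      linear_combination (-1 : ℚ) * h1 + h3 - (c τ : ℚ) * h2 + (c σ : ℚ) * h4
    exact_mod_cast h6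

end MPd9f52e
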