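import Mathlib

/-!
# Arithmetic functions: comparison prime by prime

* `dl_mul_apply`: only the divisor pair `(a, n / a)` contributes.
* `Loc.mul`: `(D * D') k` is a sum over `a * b = k`; if it is not zero some `D a * D' b ≠ 0`.
* `eq_of_loc`: strong induction. For `n > 1` take a prime `p ∣ n` and `D`; in
  `0 = (D * F) n = ∑ D a * F b` (over `a * b = n`) the term `a = 1` is `F n`, in all others
  `b < n`; the same for `G`.
* `Off.mul`: if `p ∣ a * b` then `p ∣ a` or `p ∣ b`.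
* `off_Z`: `((1 - dl p) * ZI m) n = ZI m n - ZI m (n / p) = 0` for `p ∣ n`, `n ≠ 0`, because
  `n` is prime to `m` iff `n / p` is.
-/

open ArithmeticFunction

namespace MPd9f52e

/-- The indicator function of `a`. -/
noncomputable def dl (a : ℕ) : ArithmeticFunction ℂ :=
  ⟨fun k => if k = a ∧ k ≠ 0 then 1 else 0, by simp⟩

/-- `D 1 = 1` and `D` is supported on powers of `p`. -/
def Loc (p : ℕ) (D : ArithmeticFunction ℂ) : Prop := D 1 = 1 ∧ ∀ k, D k ≠ 0 → ∃ j, k = p ^ j

/-- `F` vanishes at the multiples of `p`. -/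
def Off (p : ℕ) (F : ArithmeticFunction ℂ) : Prop := ∀ n, p ∣ n → F n = 0

/-- The indicator function of the numbers prime to `m`. -/
noncomputable def ZI (m : ℕ) : ArithmeticFunction ℂ :=
  ⟨fun n => if n ≠ 0 ∧ Nat.Coprime n m then 1 else 0, by simp⟩

theorem dl_one : dl 1 = 1 := by
  ext n
  rw [one_apply]
  change (if n = 1 ∧ n ≠ 0 then (1 : ℂ) else 0) = _
  by_cases h : n = 1
  · rw [if_pos ⟨h, by omega⟩, if_pos h]
  · rw [if_neg (fun h' => h h'.1), if_neg h]

private theorem dl_apply (a n : ℕ) : dl a n = if n = a ∧ n ≠ 0 then (1 : ℂ) else 0 := rfl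

theorem dl_mul_apply {a : ℕ} (ha : 0 < a) (F : ArithmeticFunction ℂ) {n : ℕ} (hn : n ≠ 0) :
    (dl a * F) n = if a ∣ n then F (n / a) else 0 := by
  rw [mul_apply]
  split_ifs with h
  · rw [Finset.sum_eq_single (a, n / a)]
    · simp only
      rw [dl_apply, if_pos ⟨rfl, ha.ne'⟩, one_mul]
    · rintro ⟨x, y⟩ hxy hne
      simp only
      rw [dl_apply, if_neg, zero_mul]
      rintro ⟨hx, -⟩
      apply hne
      rw [Nat.mem_divisorsAntidiagonal] at hxy
      simp only at hxy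
      rw [hx] at hxy ⊢
      rw [← hxy.1, Nat.mul_div_cancel_left _ ha]
    · intro h'
      exfalso
      apply h'
      rw [Nat.mem_divisorsAntidiagonal]
      exact ⟨Nat.mul_div_cancel' h, hn⟩
  · refine Finset.sum_eq_zero ?_
    rintro ⟨x, y⟩ hxy
    simp only
    rw [dl_apply, if_neg, zero_mul]
    rintro ⟨hx, -⟩
    apply h
    rw [Nat.mem_divisorsAntidiagonal] at hxy
    simp only at hxy
    rw [← hx]
    exact ⟨y, hxy.1.symm⟩

theorem dl_mul_dl {a b : ℕ} (ha : 0 < a) (hb : 0 < b) : dl a * dl b = dl (a * b) := by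
  ext n
  by_cases hn : n = 0
  · rw [hn]
    simp
  · rw [dl_mul_apply ha _ hn, dl_apply, dl_apply]
    by_cases h : n = a * b
    · have h1 : a ∣ n := ⟨b, h⟩
      have h2 : n / a = b := by rw [h, Nat.mul_div_cancel_left _ ha]
      rw [if_pos h1, if_pos ⟨h2, by rw [h2]; exact hb.ne'⟩, if_pos ⟨h, hn⟩]
    · rw [if_neg (fun h' : n = a * b ∧ n ≠ 0 => h h'.1)]
      by_cases h1 : a ∣ n
      · rw [if_pos h1, if_neg]
        rintro ⟨h2, -⟩
        apply h
        rw [← h2, Nat.mul_div_cancel' h1]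
      · rw [if_neg h1]

theorem Loc.one (p : ℕ) : Loc p 1 := by
  refine ⟨one_one, fun k hk => ⟨0, ?_⟩⟩
  rw [pow_zero]
  by_contra h
  exact hk (one_apply_ne h)

theorem Loc.mul {p : ℕ} {D D' : ArithmeticFunction ℂ} (h : Loc p D) (h' : Loc p D') :
    Loc p (D * D') := by
  constructor
  · rw [mul_apply, Nat.divisorsAntidiagonal_one, Finset.sum_singleton, h.1, h'.1, mul_one]
  · intro k hk
    rw [mul_apply] at hk
    obtain ⟨⟨x, y⟩, hxy, hne⟩ := Finset.exists_ne_zero_of_sum_ne_zero hk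
    simp only at hne
    obtain ⟨i, hi⟩ := h.2 x (left_ne_zero_of_mul hne)
    obtain ⟨j, hj⟩ := h'.2 y (right_ne_zero_of_mul hne)
    rw [Nat.mem_divisorsAntidiagonal] at hxy
    simp only at hxy
    exact ⟨i + j, by rw [← hxy.1, hi, hj, pow_add]⟩

theorem Loc.sub_dl {p : ℕ} (hp : 1 < p) (c : ℂ) {j : ℕ} (hj : 1 ≤ j) :
    Loc p (1 - c • dl (p ^ j)) := by
  have happ : ∀ k, (1 - c • dl (p ^ j)) k =
      (1 : ArithmeticFunction ℂ) k - c * dl (p ^ j) k := fun k => rfl
  constructor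
  · rw [happ, one_one, dl_apply, if_neg, mul_zero, sub_zero]
    rintro ⟨h1, -⟩
    have := Nat.one_lt_pow (by omega : j ≠ 0) hp
    omega
  · intro k hk
    by_cases h1 : k = 1
    · exact ⟨0, by rw [h1, pow_zero]⟩
    · by_cases h2 : k = p ^ j
      · exact ⟨j, h2⟩
      · exfalso
        apply hk
        rw [happ, one_apply_ne h1, dl_apply, if_neg (fun h => h2 h.1), mul_zero, sub_zero]

theorem eq_of_loc {F G : ArithmeticFunction ℂ} (hF : F 1 = 1) (hG : G 1 = 1)
    (h : ∀ p : ℕ, p.Prime → ∃ D, Loc p D ∧ Off p (D * F) ∧ Off p (D * G)) : F = G := by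
  ext n
  induction n using Nat.strong_induction_on with
  | _ n ih =>
    by_cases h0 : n = 0
    · rw [h0, ArithmeticFunction.map_zero, ArithmeticFunction.map_zero]
    by_cases h1 : n = 1
    · rw [h1, hF, hG]
    have hp : n.minFac.Prime := Nat.minFac_prime h1
    obtain ⟨D, hD, hDF, hDG⟩ := h _ hp
    have e1 := hDF n (Nat.minFac_dvd n)
    have e2 := hDG n (Nat.minFac_dvd n)
    have hmem : (1, n) ∈ n.divisorsAntidiagonal := by
      rw [Nat.mem_divisorsAntidiagonal]
      exact ⟨one_mul n, h0⟩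
    rw [mul_apply, ← Finset.add_sum_erase _ _ hmem] at e1 e2
    simp only [hD.1, one_mul] at e1 e2
    have e3 : ∑ x ∈ n.divisorsAntidiagonal.erase (1, n), D x.1 * F x.2 =
        ∑ x ∈ n.divisorsAntidiagonal.erase (1, n), D x.1 * G x.2 := by
      refine Finset.sum_congr rfl ?_
      rintro ⟨x, y⟩ hxy
      rw [Finset.mem_erase, Nat.mem_divisorsAntidiagonal] at hxy
      simp only at hxy ⊢
      obtain ⟨hne, hxy, -⟩ := hxy
      have hlt : y < n := by
        have hx0 : x ≠ 0 := by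
          rintro rfl
          rw [zero_mul] at hxy
          exact h0 hxy.symm
        have hy0 : y ≠ 0 := by
          rintro rfl
          rw [mul_zero] at hxy
          exact h0 hxy.symm
        have hx1 : x ≠ 1 := by
          rintro rfl
          rw [one_mul] at hxy
          exact hne (by rw [hxy])
        rw [← hxy]
        exact lt_mul_of_one_lt_left (Nat.pos_of_ne_zero hy0) (by omega)
      rw [ih y hlt]
    rw [e3] at e1
    have e4 := e1.trans e2.symm
    exact add_right_cancel e4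

theorem Off.mul {p : ℕ} (hp : p.Prime) {F G : ArithmeticFunction ℂ} (hF : Off p F)
    (hG : Off p G) : Off p (F * G) := by
  intro n hn
  rw [mul_apply]
  refine Finset.sum_eq_zero ?_
  rintro ⟨x, y⟩ hxy
  rw [Nat.mem_divisorsAntidiagonal] at hxy
  simp only at hxy ⊢
  rw [← hxy.1] at hn
  rcases (Nat.Prime.dvd_mul hp).1 hn with h | h
  · rw [hF x h, zero_mul]
  · rw [hG y h, mul_zero]

private theorem ZI_apply (m n : ℕ) : ZI m n = if n ≠ 0 ∧ Nat.Coprime n m then (1 : ℂ) else 0 :=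
  rfl

theorem off_Z {m p : ℕ} (hp : p.Prime) (hpm : ¬ p ∣ m) : Off p ((1 - dl p) * ZI m) := by
  intro n hn
  by_cases h0 : n = 0
  · rw [h0, ArithmeticFunction.map_zero]
  have e1 : ((1 - dl p) * ZI m) n = ZI m n - (dl p * ZI m) n := by
    rw [sub_mul, one_mul]
    rfl
  rw [e1, dl_mul_apply hp.pos _ h0, if_pos hn]
  obtain ⟨c, rfl⟩ := hn
  rw [Nat.mul_div_cancel_left _ hp.pos, ZI_apply, ZI_apply]
  have hc0 : c ≠ 0 := by
    rintro rfl
    exact h0 (mul_zero p)
  have hcop : Nat.Coprime p m := (Nat.Prime.coprime_iff_not_dvd hp).2 hpm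
  have hiff : (p * c ≠ 0 ∧ Nat.Coprime (p * c) m) ↔ (c ≠ 0 ∧ Nat.Coprime c m) := by
    rw [Nat.coprime_mul_iff_left]
    exact ⟨fun h => ⟨hc0, h.2.2⟩, fun h => ⟨h0, hcop, h.2⟩⟩
  rw [if_congr hiff rfl rfl, sub_self]

theorem off_Z' {m p : ℕ} (hp : p.Prime) (hpm : p ∣ m) : Off p (ZI m) := by
  intro n hn
  rw [ZI_apply, if_neg]
  rintro ⟨-, h⟩
  exact Nat.not_coprime_of_dvd_of_dvd hp.one_lt hn hpm h

end MPd9f52e
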