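import Mathlib
import Pool.Agent.Lib.MP_d9f52e_nt.KArith

/-!
# The ideals of a number field

`JJ K m n` is the number of ideals of norm `n` if `n` is prime to `m`, and `JS K m S n` the number
of those which are divisible by no member of the finite set `S` of primes.
* `js_insert`: for a prime ideal `P ∉ S` with `absNorm P` prime to `m` and all members of `S`
  prime: `(1 - dl (absNorm P)) * JS S = JS (insert P S)`, because `I ↦ P * I` is a bijection from
  the ideals of norm `n / absNorm P` divisible by no member of `S` onto the ideals of norm `n`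
  divisible by `P` and by no member of `S`.
* `off_J`: take all primes above `p`: an ideal whose norm is divisible by `p` is divisible by
  a prime above `p`. The primes above `p` are `IsDedekindDomain.primesOverFinset`. Their norms are
  powers of `p`, so prime to `m`.
* `loc_J`: the norm of a prime above `p` is `p ^ j` with `j ≥ 1`.
-/

open ArithmeticFunction NumberField

namespace MPd9f52e

variable (K : Type) [Field K] [NumberField K]

/-- The number of ideals of norm `n`, for `n` prime to `m`. -/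
noncomputable def JJ (m : ℕ) : ArithmeticFunction ℂ :=
  ⟨fun n => if n ≠ 0 ∧ Nat.Coprime n m then
    (Nat.card {I : Ideal (𝓞 K) // Ideal.absNorm I = n} : ℂ) else 0, by simp⟩

/-- The number of ideals of norm `n` divisible by no member of `S`, for `n` prime to `m`. -/
noncomputable def JS (m : ℕ) (S : Finset (Ideal (𝓞 K))) : ArithmeticFunction ℂ :=
  ⟨fun n => if n ≠ 0 ∧ Nat.Coprime n m then
    (Nat.card {I : Ideal (𝓞 K) // Ideal.absNorm I = n ∧ ∀ P ∈ S, ¬ P ∣ I} : ℂ) else 0, by simp⟩

/-- The set of the prime ideals above `p`. -/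
noncomputable def primesAt (p : ℕ) : Finset (Ideal (𝓞 K)) :=
  IsDedekindDomain.primesOverFinset (Ideal.span {(p : ℤ)}) (𝓞 K)

/-- The local factor of the Dedekind zeta function (inverse of). -/
noncomputable def locD (p : ℕ) : ArithmeticFunction ℂ :=
  ∏ P ∈ primesAt K p, (1 - dl (Ideal.absNorm P))

theorem mem_primesAt {p : ℕ} (hp : p.Prime) (P : Ideal (𝓞 K)) :
    P ∈ primesAt K p ↔ P.IsPrime ∧ (p : 𝓞 K) ∈ P := by
  have hpi : Prime (p : ℤ) := Nat.prime_iff_prime_int.1 hp
  have hmax : (Ideal.span {(p : ℤ)}).IsMaximal :=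
    ((Ideal.span_singleton_prime hpi.ne_zero).mpr hpi).isMaximal (by simpa using hpi.ne_zero)
  have hne : Ideal.span {(p : ℤ)} ≠ ⊥ := by simpa using hpi.ne_zero
  unfold primesAt
  rw [IsDedekindDomain.mem_primesOverFinset_iff hne]
  constructor
  · rintro ⟨h1, h2⟩
    refine ⟨h1, ?_⟩
    have h3 : (p : ℤ) ∈ P.under ℤ := by
      rw [← h2.over]
      exact Ideal.mem_span_singleton_self _
    have h4 : algebraMap ℤ (𝓞 K) (p : ℤ) ∈ P := h3
    simpa using h4
  · rintro ⟨h1, h2⟩
    refine ⟨h1, ⟨?_⟩⟩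
    apply hmax.eq_of_le
    · exact (Ideal.IsPrime.under ℤ P).ne_top
    · rw [Ideal.span_singleton_le_iff_mem]
      show algebraMap ℤ (𝓞 K) (p : ℤ) ∈ P
      simpa using h2

/-- the ideals counted by `JS` -/
private def jset (S : Finset (Ideal (𝓞 K))) (n : ℕ) : Set (Ideal (𝓞 K)) :=
  {I | Ideal.absNorm I = n ∧ ∀ P ∈ S, ¬ P ∣ I}

private theorem jset_finite (S : Finset (Ideal (𝓞 K))) (n : ℕ) : (jset K S n).Finite :=
  (Ideal.finite_setOfPred_absNorm_eq n).subset fun _ h => h.1

private theorem js_apply (m : ℕ) (S : Finset (Ideal (𝓞 K))) {n : ℕ} (hn : n ≠ 0)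
    (hc : Nat.Coprime n m) : JS K m S n = ((jset K S n).ncard : ℂ) :=
  if_pos ⟨hn, hc⟩

private theorem js_apply_of_not (m : ℕ) (S : Finset (Ideal (𝓞 K))) {n : ℕ}
    (hc : ¬ Nat.Coprime n m) : JS K m S n = 0 :=
  if_neg fun h => hc h.2

private theorem norm_pos {P : Ideal (𝓞 K)} (hP0 : P ≠ ⊥) : 0 < Ideal.absNorm P :=
  Nat.pos_of_ne_zero fun h => hP0 (Ideal.absNorm_eq_zero_iff.1 h)

theorem js_insert (m : ℕ) (S : Finset (Ideal (𝓞 K))) (hS : ∀ Q ∈ S, Q.IsPrime ∧ Q ≠ ⊥)
    (P : Ideal (𝓞 K)) (hP : P.IsPrime) (hP0 : P ≠ ⊥) (hPS : P ∉ S)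
    (hm : Nat.Coprime (Ideal.absNorm P) m) :
    (1 - dl (Ideal.absNorm P)) * JS K m S = JS K m (insert P S) := by
  have hq := norm_pos K hP0
  ext n
  rcases eq_or_ne n 0 with rfl | hn
  · simp
  have e1 : ((1 - dl (Ideal.absNorm P)) * JS K m S) n =
      JS K m S n - (dl (Ideal.absNorm P) * JS K m S) n := by
    rw [sub_mul, one_mul]; rfl
  rw [e1, dl_mul_apply hq _ hn]
  by_cases hc : Nat.Coprime n m
  · rw [js_apply K m S hn hc, js_apply K m (insert P S) hn hc]
    -- the ideals divisible by P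
    set A2 : Set (Ideal (𝓞 K)) := {I | I ∈ jset K S n ∧ P ∣ I} with hA2
    have hdec : jset K S n = jset K (insert P S) n ∪ A2 := by
      ext I
      constructor
      · intro h
        by_cases hd : P ∣ I
        · exact Or.inr ⟨h, hd⟩
        · refine Or.inl ⟨h.1, fun Q hQ => ?_⟩
          rcases Finset.mem_insert.1 hQ with rfl | hQ
          · exact hd
          · exact h.2 Q hQ
      · rintro (h | h)
        · exact ⟨h.1, fun Q hQ => h.2 Q (Finset.mem_insert_of_mem hQ)⟩
        · exact h.1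
    have hdis : Disjoint (jset K (insert P S) n) A2 := by
      rw [Set.disjoint_left]
      intro I h1 h2
      exact h1.2 P (Finset.mem_insert_self _ _) h2.2
    have hf2 : A2.Finite := (jset_finite K S n).subset fun _ h => h.1
    have hcard : (jset K S n).ncard = (jset K (insert P S) n).ncard + A2.ncard := by
      rw [hdec, Set.ncard_union_eq hdis (jset_finite K _ n) hf2]
    have hA2card : (A2.ncard : ℂ) = if Ideal.absNorm P ∣ n then
        JS K m S (n / Ideal.absNorm P) else 0 := by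
      split_ifs with hd
      · obtain ⟨k, rfl⟩ := hd
        have hk : Ideal.absNorm P * k / Ideal.absNorm P = k := Nat.mul_div_cancel_left k hq
        rw [hk]
        have hk0 : k ≠ 0 := right_ne_zero_of_mul hn
        have hck : Nat.Coprime k m := Nat.Coprime.coprime_mul_left hc
        rw [js_apply K m S hk0 hck]
        have himg : A2 = (fun J => P * J) '' (jset K S k) := by
          ext I
          constructor
          · rintro ⟨⟨h1, h2⟩, J, rfl⟩
            refine ⟨J, ⟨?_, ?_⟩, rfl⟩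
            · rw [map_mul] at h1
              exact Nat.eq_of_mul_eq_mul_left hq h1
            · intro Q hQ hQJ
              exact h2 Q hQ (Dvd.dvd.mul_left hQJ P)
          · rintro ⟨J, ⟨h1, h2⟩, rfl⟩
            refine ⟨⟨?_, ?_⟩, dvd_mul_right P J⟩
            · rw [map_mul, h1]
            · intro Q hQ hQd
              have hQp : Prime Q := (Ideal.prime_iff_isPrime (hS Q hQ).2).2 (hS Q hQ).1
              rcases hQp.dvd_or_dvd hQd with h3 | h3
              · have hPmax : P.IsMaximal := hP.isMaximal hP0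
                have hle : P ≤ Q := Ideal.dvd_iff_le.1 h3
                have heq := hPmax.eq_of_le (hS Q hQ).1.ne_top hle
                exact hPS (heq ▸ hQ)
              · exact h2 Q hQ h3
        rw [himg, Set.ncard_image_of_injective]
        intro J J' hJ
        exact mul_left_cancel₀ hP0 hJ
      · have : A2 = ∅ := by
          rw [Set.eq_empty_iff_forall_notMem]
          rintro I ⟨⟨h1, -⟩, J, rfl⟩
          apply hd
          rw [← h1, map_mul]
          exact dvd_mul_right _ _
        rw [this]; simp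
    rw [← hA2card, hcard]
    push_cast
    ring
  · rw [js_apply_of_not K m S hc, js_apply_of_not K m (insert P S) hc]
    split_ifs with hd
    · obtain ⟨k, rfl⟩ := hd
      rw [Nat.mul_div_cancel_left k hq, js_apply_of_not K m S, sub_zero]
      intro h
      exact hc (Nat.Coprime.mul_left hm h)
    · rw [sub_zero]

private theorem norm_primesAt {p : ℕ} (hp : p.Prime) {P : Ideal (𝓞 K)} (hP : P ∈ primesAt K p) :
    P ≠ ⊥ ∧ ∃ j, 1 ≤ j ∧ Ideal.absNorm P = p ^ j := by
  obtain ⟨h1, h2⟩ := (mem_primesAt K hp P).1 hP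
  have hP0 : P ≠ ⊥ := by
    rintro rfl
    rw [Ideal.mem_bot] at h2
    exact hp.ne_zero (by exact_mod_cast h2)
  refine ⟨hP0, ?_⟩
  have : P.IsMaximal := h1.isMaximal hP0
  obtain ⟨q, j, hj, hqP, hq, he⟩ := Ideal.exists_prime_and_absNorm_eq_pow P
  have hqp : q = p := by
    by_contra hne
    have hcop : Nat.Coprime q p := (Nat.coprime_primes hq hp).2 hne
    have hcopi : IsCoprime (q : ℤ) (p : ℤ) := Nat.isCoprime_iff_coprime.2 hcop
    obtain ⟨a, b, hab⟩ := hcopi
    apply h1.ne_top
    rw [Ideal.eq_top_iff_one]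
    have h3 : ((a : ℤ) : 𝓞 K) * (q : 𝓞 K) + ((b : ℤ) : 𝓞 K) * (p : 𝓞 K) = 1 := by
      exact_mod_cast congrArg (Int.cast : ℤ → 𝓞 K) hab
    rw [← h3]
    exact P.add_mem (P.mul_mem_left _ hqP) (P.mul_mem_left _ h2)
  exact ⟨j, hj, by rw [he, hqp]⟩

private theorem js_prod (m : ℕ) {p : ℕ} (hp : p.Prime) (hpm : ¬ p ∣ m)
    (T : Finset (Ideal (𝓞 K))) (hT : T ⊆ primesAt K p) :
    (∏ P ∈ T, (1 - dl (Ideal.absNorm P))) * JJ K m = JS K m T := by
  classical
  induction T using Finset.induction_on with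
  | empty =>
    rw [Finset.prod_empty, one_mul]
    ext n
    show (if n ≠ 0 ∧ Nat.Coprime n m then
      (Nat.card {I : Ideal (𝓞 K) // Ideal.absNorm I = n} : ℂ) else 0) =
      (if n ≠ 0 ∧ Nat.Coprime n m then
      (Nat.card {I : Ideal (𝓞 K) // Ideal.absNorm I = n ∧ ∀ P ∈ (∅ : Finset (Ideal (𝓞 K))), ¬ P ∣ I} : ℂ)
        else 0)
    simp
  | insert P T hPT ih =>
    have hPp := hT (Finset.mem_insert_self P T)
    obtain ⟨hP0, j, hj, hN⟩ := norm_primesAt K hp hPp
    rw [Finset.prod_insert hPT, mul_assoc, ih (fun Q hQ => hT (Finset.mem_insert_of_mem hQ))]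
    apply js_insert K m T _ P ((mem_primesAt K hp P).1 hPp).1 hP0 hPT
    · rw [hN]
      exact Nat.Coprime.pow_left j ((Nat.Prime.coprime_iff_not_dvd hp).2 hpm)
    · intro Q hQ
      have hQp := hT (Finset.mem_insert_of_mem hQ)
      exact ⟨((mem_primesAt K hp Q).1 hQp).1, (norm_primesAt K hp hQp).1⟩

theorem off_J (m : ℕ) {p : ℕ} (hp : p.Prime) (hpm : ¬ p ∣ m) : Off p (locD K p * JJ K m) := by
  intro n hn
  unfold locD
  rw [js_prod K m hp hpm _ subset_rfl]
  rcases eq_or_ne n 0 with rfl | hn0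
  · simp
  by_cases hc : Nat.Coprime n m
  · rw [js_apply K m _ hn0 hc]
    have : jset K (primesAt K p) n = ∅ := by
      rw [Set.eq_empty_iff_forall_notMem]
      rintro I ⟨h1, h2⟩
      obtain ⟨P, hPm, hPu, hPI⟩ := Ideal.exists_isMaximal_dvd_of_dvd_absNorm' hp I (h1 ▸ hn)
      refine h2 P ((mem_primesAt K hp P).2 ⟨hPm.isPrime, ?_⟩) hPI
      have h3 : (p : ℤ) ∈ P.under ℤ := by
        rw [hPu]
        exact Ideal.mem_span_singleton_self _
      have h4 : algebraMap ℤ (𝓞 K) (p : ℤ) ∈ P := h3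
      simpa using h4
    rw [this]; simp
  · exact js_apply_of_not K m _ hc

theorem loc_J {p : ℕ} (hp : p.Prime) : Loc p (locD K p) := by
  classical
  have key : ∀ T : Finset (Ideal (𝓞 K)), T ⊆ primesAt K p →
      Loc p (∏ P ∈ T, (1 - dl (Ideal.absNorm P))) := by
    intro T hT
    induction T using Finset.induction_on with
    | empty => rw [Finset.prod_empty]; exact Loc.one p
    | insert P T hPT ih =>
      rw [Finset.prod_insert hPT]
      refine Loc.mul ?_ (ih fun Q hQ => hT (Finset.mem_insert_of_mem hQ))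
      obtain ⟨-, j, hj, hN⟩ := norm_primesAt K hp (hT (Finset.mem_insert_self P T))
      rw [hN]
      have := Loc.sub_dl hp.one_lt 1 hj
      rwa [one_smul] at this
  exact key _ subset_rfl

theorem JJ_one (m : ℕ) : JJ K m 1 = 1 := by
  show (if (1 : ℕ) ≠ 0 ∧ Nat.Coprime 1 m then
      (Nat.card {I : Ideal (𝓞 K) // Ideal.absNorm I = 1} : ℂ) else 0) = 1
  rw [if_pos ⟨one_ne_zero, Nat.coprime_one_left m⟩]
  have : Nat.card {I : Ideal (𝓞 K) // Ideal.absNorm I = 1} = 1 := by
    rw [Nat.card_eq_one_iff_unique]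
    refine ⟨⟨fun a b => ?_⟩, ⟨⟨⊤, Ideal.absNorm_top⟩⟩⟩
    apply Subtype.ext
    rw [Ideal.absNorm_eq_one_iff.1 a.2, Ideal.absNorm_eq_one_iff.1 b.2]
  rw [this]; simp

end MPd9f52e
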