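import Mathlib
import Pool.Agent.Lib.MP_d9f52e_nt.KJ

/-!
# Decomposition of the primes `p` not dividing `3 d` in `ℚ(θ)`, `θ ^ 3 = d`

`th` is `θ` as an algebraic integer. 
* `minpoly_th`: `X ^ 3 - d` is monic of degree `3 = [K : ℚ]` and kills `θ`; `θ` is not rational,
  because `d` is not a cube (cube-free and `≥ 2`), and its degree divides `3`.
* `not_dvd_exponent`: for an algebraic integer `z = a + b θ + c θ ^ 2` with rational `a, b, c` the
  traces of `z`, `θ z`, `θ ^ 2 z` are `3 a`, `3 c d`, `3 b d`, so `3 d z` lies in `ℤ[θ]`: the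
  number `3 * d` is in the conductor of `θ` and `exponent th` divides it.
* Kummer-Dedekind (`NumberField.Ideal.primesOverSpanEquivMonicFactorsMod` and
  `inertiaDeg_primesOverSpanEquivMonicFactorsMod_symm_apply`): the primes above `p` correspond to
  the monic irreducible factors of `X ^ 3 - d` modulo `p`, norm `p ^ degree`.
  - `kd_inert`, `p % 3 = 2`: exactly one root `r`, and the other factor `X ^ 2 + r X + r ^ 2` has
    no root because there is no primitive cube root of unity modulo `p`.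
  - `kd_split`, `p % 3 = 1`, `d` a cube modulo `p`: three different roots.
  - `kd_irr`, `p % 3 = 1`, `d` not a cube modulo `p`: irreducible.
-/

open ArithmeticFunction NumberField Polynomial

namespace MPd9f52e

variable {K : Type} [Field K] [NumberField K]

/-- `d` is a cube-free integer, at least two. -/
def CubeFree (d : ℕ) : Prop := 2 ≤ d ∧ ∀ p : ℕ, p.Prime → ¬ p ^ 3 ∣ d

private theorem not_cube_rat {d : ℕ} (hd : CubeFree d) (b : ℚ) : b ^ 3 ≠ (d : ℚ) := by
  intro h
  have hb : IsIntegral ℤ b := by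
    refine ⟨X ^ 3 - C (d : ℤ), monic_X_pow_sub_C _ (by norm_num), ?_⟩
    simp [h]
  obtain ⟨n, rfl⟩ := IsIntegrallyClosed.isIntegral_iff.1 hb
  have hn : n ^ 3 = (d : ℤ) := by
    have : ((n ^ 3 : ℤ) : ℚ) = ((d : ℤ) : ℚ) := by
      push_cast
      simpa using h
    exact_mod_cast this
  have hn2 : n.natAbs ^ 3 = d := by
    have := congrArg Int.natAbs hn
    simpa [Int.natAbs_pow] using this
  have h1 : n.natAbs ≠ 1 := by
    intro h1
    rw [h1] at hn2
    have := hd.1
    omega
  obtain ⟨q, hq, hqn⟩ := Nat.exists_prime_and_dvd h1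
  exact hd.2 q hq (hn2 ▸ pow_dvd_pow_of_dvd hqn 3)

private theorem irr_rat {d : ℕ} (hd : CubeFree d) : Irreducible (X ^ 3 - C (d : ℚ) : ℚ[X]) :=
  X_pow_sub_C_irreducible_of_prime Nat.prime_three (not_cube_rat hd)

private theorem minpoly_rat {d : ℕ} (hd : CubeFree d) (th : 𝓞 K)
    (hth : th ^ 3 = d) : minpoly ℚ (th : K) = X ^ 3 - C (d : ℚ) := by
  symm
  apply minpoly.eq_of_irreducible_of_monic (irr_rat hd)
  · have : (th : K) ^ 3 = (d : K) := by
      have := congrArg (algebraMap (𝓞 K) K) hth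
      simpa using this
    simp [this]
  · exact monic_X_pow_sub_C _ (by norm_num)

theorem minpoly_th {d : ℕ} (hd : CubeFree d) (hK : Module.finrank ℚ K = 3) (th : 𝓞 K)
    (hth : th ^ 3 = d) : minpoly ℤ th = X ^ 3 - C (d : ℤ) := by
  have h1 := minpoly.isIntegrallyClosed_eq_field_fractions ℚ K (s := th) th.isIntegral
  have h2 : (minpoly ℤ th).map (algebraMap ℤ ℚ) = (X ^ 3 - C (d : ℤ)).map (algebraMap ℤ ℚ) := by
    rw [← h1]
    change minpoly ℚ (th : K) = _
    rw [minpoly_rat hd th hth]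
    simp
  exact Polynomial.map_injective _ (algebraMap ℤ ℚ).injective_int h2

private theorem conductor_mem {d : ℕ} (hd : CubeFree d) (hK : Module.finrank ℚ K = 3) (th : 𝓞 K)
    (hth : th ^ 3 = d) : ((27 * d ^ 2 : ℕ) : 𝓞 K) ∈ conductor ℤ th := by
  have hmin := minpoly_rat hd th hth
  have hint : IsIntegral ℚ (th : K) := IsIntegral.of_finite ℚ _
  have htop : IntermediateField.adjoin ℚ {(th : K)} = ⊤ := by
    apply IntermediateField.eq_of_le_of_finrank_eq le_top
    rw [IntermediateField.finrank_top', hK, IntermediateField.adjoin.finrank hint, hmin]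
    exact natDegree_X_pow_sub_C
  have hadj : Algebra.adjoin ℚ {(th : K)} = ⊤ := by
    have := IntermediateField.adjoin_simple_toSubalgebra_of_isAlgebraic (F := ℚ) (α := (th : K)) hint.isAlgebraic
    rw [← this, htop]
    rfl
  let B : PowerBasis ℚ K := PowerBasis.ofAdjoinEqTop hint hadj
  have hgen : B.gen = (th : K) := rfl
  have hdim : B.dim = 3 := by rw [← hK, B.finrank]
  have hnth : Algebra.norm ℚ (th : K) = d := by
    rw [← hgen, Algebra.PowerBasis.norm_gen_eq_coeff_zero_minpoly, hgen, hmin, hdim]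
    simp [show (-1 : ℚ) ^ 3 = -1 by norm_num]
  have hdis : Algebra.discr ℚ B.basis = -(27 * d ^ 2 : ℚ) := by
    rw [Algebra.discr_powerBasis_eq_norm, hgen, hmin, hK]
    have : aeval (th : K) (derivative (X ^ 3 - C (d : ℚ))) = 3 * (th : K) ^ 2 := by
      simp
      left
      norm_num
    rw [this, map_mul, map_pow, hnth]
    have h3 : Algebra.norm ℚ (3 : K) = 27 := by
      have := Algebra.norm_algebraMap (S := K) (3 : ℚ)
      rw [hK] at this
      have h4 : algebraMap ℚ K 3 = 3 := by simp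
      rw [h4] at this
      rw [this]
      norm_num
    rw [h3]
    norm_num
  rw [mem_conductor_iff]
  intro z
  have hz : IsIntegral ℤ (z : K) := z.isIntegral_coe
  have hBint : IsIntegral ℤ B.gen := th.isIntegral_coe
  have key := Algebra.discr_mul_isIntegral_mem_adjoin ℚ hBint hz
  rw [hdis, hgen] at key
  have key2 : (((27 * d ^ 2 : ℕ) : 𝓞 K) * z : K) ∈ Algebra.adjoin ℤ {(th : K)} := by
    have := Subalgebra.neg_mem _ key
    convert this using 1
    rw [Algebra.smul_def]
    push_cast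
    simp [map_ofNat]
  have hmap : Algebra.adjoin ℤ {(th : K)} =
      (Algebra.adjoin ℤ {th}).map (IsScalarTower.toAlgHom ℤ (𝓞 K) K) := by
    rw [AlgHom.map_adjoin]
    simp
  rw [hmap] at key2
  obtain ⟨y, hy, hy2⟩ := key2
  have : y = ((27 * d ^ 2 : ℕ) : 𝓞 K) * z := by
    apply RingOfIntegers.coe_injective
    simpa using hy2
  rw [← this]
  exact hy

theorem not_dvd_exponent {d : ℕ} (hd : CubeFree d) (hK : Module.finrank ℚ K = 3) (th : 𝓞 K)
    (hth : th ^ 3 = d) {p : ℕ} (hp : p.Prime) (h3 : ¬ p ∣ 3 * d) :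
    ¬ p ∣ RingOfIntegers.exponent th := by
  intro h
  have h1 : Ideal.absNorm (Ideal.under ℤ (conductor ℤ th)) ∣
      Ideal.absNorm (Ideal.span {((27 * d ^ 2 : ℕ) : ℤ)}) := by
    apply Ideal.absNorm_dvd_absNorm_of_le
    rw [Ideal.span_singleton_le_iff_mem, Ideal.mem_comap]
    have := conductor_mem hd hK th hth
    simpa using this
  rw [Ideal.absNorm_span_natCast] at h1
  have h2 : p ∣ 27 * d ^ 2 := by
    have := dvd_trans h h1
    simpa using this
  have h4 : p ∣ (3 * d) ^ 3 := dvd_trans h2 ⟨d, by ring⟩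
  exact h3 (hp.dvd_of_dvd_pow h4)

private theorem locD_eq (th : 𝓞 K) {p : ℕ} [hp : Fact p.Prime]
    (h : ¬ p ∣ RingOfIntegers.exponent th) :
    locD K p = ∏ Q ∈ RingOfIntegers.monicFactorsMod th p, (1 - dl (p ^ Q.natDegree)) := by
  have hmax : (Ideal.span {(p : ℤ)}).IsMaximal := Int.ideal_span_isMaximal_of_prime p
  have hbot : Ideal.span {(p : ℤ)} ≠ ⊥ := by simp [NeZero.ne p]
  unfold locD primesAt
  have hmem : ∀ P, P ∈ IsDedekindDomain.primesOverFinset (Ideal.span {(p : ℤ)}) (𝓞 K) ↔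
      P ∈ Ideal.primesOver (Ideal.span {(p : ℤ)}) (𝓞 K) := fun P =>
    IsDedekindDomain.mem_primesOverFinset_iff hbot (𝓞 K)
  refine Finset.prod_bij'
    (fun P hP => ((NumberField.Ideal.primesOverSpanEquivMonicFactorsMod h
      ⟨P, (hmem P).1 hP⟩ : RingOfIntegers.monicFactorsMod th p) : (ZMod p)[X]))
    (fun Q hQ => (((NumberField.Ideal.primesOverSpanEquivMonicFactorsMod h).symm
      ⟨Q, hQ⟩ : Ideal.primesOver (Ideal.span {(p : ℤ)}) (𝓞 K)) : Ideal (𝓞 K))) ?_ ?_ ?_ ?_ ?_
  · intro P hP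
    exact Subtype.coe_prop _
  · intro Q hQ
    rw [hmem]
    exact Subtype.coe_prop _
  · intro P hP
    simp
  · intro Q hQ
    simp
  · intro P hP
    have hP' := (hmem P).1 hP
    have : P.IsPrime := hP'.1
    have : P.LiesOver (Ideal.span {(p : ℤ)}) := hP'.2
    have hPmax : P.IsMaximal := Ideal.IsMaximal.of_liesOver_isMaximal P (Ideal.span {(p : ℤ)})
    set Q := NumberField.Ideal.primesOverSpanEquivMonicFactorsMod h ⟨P, hP'⟩ with hQ
    have h1 := NumberField.Ideal.inertiaDeg_primesOverSpanEquivMonicFactorsMod_symm_apply' h Q.2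
    have h2 : ((NumberField.Ideal.primesOverSpanEquivMonicFactorsMod h).symm
      ⟨(Q : (ZMod p)[X]), Q.2⟩ : Ideal (𝓞 K)) = P := by
      have : (⟨(Q : (ZMod p)[X]), Q.2⟩ : RingOfIntegers.monicFactorsMod th p) = Q := rfl
      rw [this, hQ, Equiv.symm_apply_apply]
    rw [h2] at h1
    rw [Ideal.absNorm_eq_pow_inertiaDeg' P hp.out,
      Ideal.inertiaDeg'_eq_inertiaDeg (Ideal.span {(p : ℤ)}) P, h1]

private theorem map_th {d : ℕ} (hd : CubeFree d) (hK : Module.finrank ℚ K = 3) (th : 𝓞 K)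
    (hth : th ^ 3 = d) (p : ℕ) :
    (minpoly ℤ th).map (Int.castRingHom (ZMod p)) = X ^ 3 - C (d : ZMod p) := by
  rw [minpoly_th hd hK th hth]
  simp

theorem kd_irr {d : ℕ} (hd : CubeFree d) (hK : Module.finrank ℚ K = 3) (th : 𝓞 K)
    (hth : th ^ 3 = d) {p : ℕ} (hp : p.Prime) (h3 : ¬ p ∣ 3 * d) (h : p % 3 = 1)
    (hc : ¬ ∃ x : ZMod p, x ^ 3 = (d : ZMod p)) :
    locD K p = 1 - dl (p ^ 3) := by
  have : Fact p.Prime := ⟨hp⟩
  rw [locD_eq th (not_dvd_exponent hd hK th hth hp h3)]
  have hirr : Irreducible (X ^ 3 - C (d : ZMod p)) :=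
    X_pow_sub_C_irreducible_of_prime Nat.prime_three (fun b hb => hc ⟨b, hb⟩)
  have hmon : (X ^ 3 - C (d : ZMod p)).Monic := monic_X_pow_sub_C _ (by norm_num)
  have : RingOfIntegers.monicFactorsMod th p = {X ^ 3 - C (d : ZMod p)} := by
    unfold RingOfIntegers.monicFactorsMod
    rw [map_th hd hK th hth, UniqueFactorizationMonoid.normalizedFactors_irreducible hirr,
      hmon.normalize_eq_self]
    simp
  rw [this, Finset.prod_singleton, natDegree_X_pow_sub_C]

theorem kd_inert {d : ℕ} (hd : CubeFree d) (hK : Module.finrank ℚ K = 3) (th : 𝓞 K)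
    (hth : th ^ 3 = d) {p : ℕ} (hp : p.Prime) (h3 : ¬ p ∣ 3 * d) (h : p % 3 = 2) :
    locD K p = (1 - dl p) * (1 - dl (p ^ 2)) := by
  have hf : Fact p.Prime := ⟨hp⟩
  rw [locD_eq th (not_dvd_exponent hd hK th hth hp h3)]
  have hp3 : (3 : ZMod p) ≠ 0 := by
    intro h0
    have : ((3 : ℕ) : ZMod p) = 0 := by exact_mod_cast h0
    rw [ZMod.natCast_eq_zero_iff] at this
    exact h3 (dvd_mul_of_dvd_left this _)
  have hd0 : (d : ZMod p) ≠ 0 := by
    intro h0
    rw [ZMod.natCast_eq_zero_iff] at h0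
    exact h3 (dvd_mul_of_dvd_right h0 _)
  -- powers
  have hpow : ∀ x : ZMod p, x ^ (2 * p - 1) = x := by
    intro x
    by_cases hx : x = 0
    · rw [hx, zero_pow]
      have := hp.two_le
      omega
    · have h1 := ZMod.pow_card_sub_one_eq_one hx
      have h2 : 2 * p - 1 = (p - 1) + (p - 1) + 1 := by
        have := hp.two_le
        omega
      rw [h2, pow_succ, pow_add, h1]
      ring
  obtain ⟨k, hk⟩ : 3 ∣ 2 * p - 1 := by
    have := hp.two_le
    omega
  set r : ZMod p := (d : ZMod p) ^ k with hr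
  have hr3 : r ^ 3 = (d : ZMod p) := by
    rw [hr, ← pow_mul, mul_comm k 3, ← hk, hpow]
  have hr0 : r ≠ 0 := by
    intro h0
    rw [h0] at hr3
    apply hd0
    rw [← hr3]
    norm_num
  have hinj : ∀ x y : ZMod p, x ^ 3 = y ^ 3 → x = y := by
    intro x y hxy
    rw [← hpow x, ← hpow y, hk, pow_mul, pow_mul, hxy]
  have hfac : (X ^ 3 - C (d : ZMod p)) = (X - C r) * (X ^ 2 + C r * X + C (r ^ 2)) := by
    rw [← hr3]
    simp only [map_pow]
    ring
  have hmon2 : (X ^ 2 + C r * X + C (r ^ 2) : (ZMod p)[X]).Monic := by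
    monicity!
  have hdeg2 : (X ^ 2 + C r * X + C (r ^ 2) : (ZMod p)[X]).natDegree = 2 := by
    compute_degree!
  have hroot : ∀ x : ZMod p, ¬ (X ^ 2 + C r * X + C (r ^ 2) : (ZMod p)[X]).IsRoot x := by
    intro x hx
    have hx1 : x ^ 2 + r * x + r ^ 2 = 0 := by
      simpa [IsRoot] using hx
    have hx2 : x ^ 3 = r ^ 3 := by
      have : x ^ 3 - r ^ 3 = (x - r) * (x ^ 2 + r * x + r ^ 2) := by ring
      rw [hx1, mul_zero] at this
      exact sub_eq_zero.1 this
    have hx3 := hinj _ _ hx2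
    rw [hx3] at hx1
    have : 3 * r ^ 2 = 0 := by
      rw [← hx1]
      ring
    rcases mul_eq_zero.1 this with h4 | h4
    · exact hp3 h4
    · exact hr0 (pow_eq_zero_iff (two_ne_zero) |>.1 h4)
  have hirr2 : Irreducible (X ^ 2 + C r * X + C (r ^ 2) : (ZMod p)[X]) := by
    rw [irreducible_iff_roots_eq_zero_of_degree_le_three]
    · rw [Multiset.eq_zero_iff_forall_notMem]
      intro x hx
      exact hroot x (isRoot_of_mem_roots hx)
    · rw [hdeg2]
    · rw [hdeg2]; norm_num
  have hirr1 : Irreducible (X - C r) := irreducible_X_sub_C r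
  have hmf : RingOfIntegers.monicFactorsMod th p = {X - C r, X ^ 2 + C r * X + C (r ^ 2)} := by
    unfold RingOfIntegers.monicFactorsMod
    rw [map_th hd hK th hth, hfac, UniqueFactorizationMonoid.normalizedFactors_mul
      hirr1.ne_zero hirr2.ne_zero,
      UniqueFactorizationMonoid.normalizedFactors_irreducible hirr1,
      UniqueFactorizationMonoid.normalizedFactors_irreducible hirr2,
      (monic_X_sub_C r).normalize_eq_self, hmon2.normalize_eq_self]
    ext Q
    simp
  have hne : (X - C r : (ZMod p)[X]) ≠ X ^ 2 + C r * X + C (r ^ 2) := by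
    intro he
    have := congrArg natDegree he
    rw [hdeg2, natDegree_X_sub_C] at this
    omega
  rw [hmf, Finset.prod_pair hne, natDegree_X_sub_C, hdeg2, pow_one]

theorem kd_split {d : ℕ} (hd : CubeFree d) (hK : Module.finrank ℚ K = 3) (th : 𝓞 K)
    (hth : th ^ 3 = d) {p : ℕ} (hp : p.Prime) (h3 : ¬ p ∣ 3 * d) (h : p % 3 = 1)
    (hc : ∃ x : ZMod p, x ^ 3 = (d : ZMod p)) :
    locD K p = (1 - dl p) * (1 - dl p) ^ 2 := by
  have hf : Fact p.Prime := ⟨hp⟩
  rw [locD_eq th (not_dvd_exponent hd hK th hth hp h3)]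
  have hd0 : (d : ZMod p) ≠ 0 := by
    intro h0
    rw [ZMod.natCast_eq_zero_iff] at h0
    exact h3 (dvd_mul_of_dvd_right h0 _)
  obtain ⟨r, hr3⟩ := hc
  have hr0 : r ≠ 0 := by
    intro h0
    rw [h0] at hr3
    apply hd0
    rw [← hr3]
    norm_num
  -- a primitive cube root of unity
  obtain ⟨w, hw⟩ : ∃ w : (ZMod p)ˣ, orderOf w = 3 := by
    have hfa : Fact (Nat.Prime 3) := ⟨Nat.prime_three⟩
    apply exists_prime_orderOf_dvd_card' 3
    rw [Nat.card_eq_fintype_card, ZMod.card_units p]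
    have := hp.two_le
    omega
  have hw3 : (w : ZMod p) ^ 3 = 1 := by
    have := pow_orderOf_eq_one w
    rw [hw] at this
    have := congrArg Units.val this
    simpa using this
  have hw1 : (w : ZMod p) ≠ 1 := by
    intro h1
    have : w = 1 := Units.ext h1
    rw [this, orderOf_one] at hw
    omega
  have hw0 : (w : ZMod p) ≠ 0 := w.ne_zero
  have hww : (w : ZMod p) ^ 2 + w + 1 = 0 := by
    have : ((w : ZMod p) - 1) * ((w : ZMod p) ^ 2 + w + 1) = 0 := by
      ring_nf
      rw [hw3]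
      ring
    rcases mul_eq_zero.1 this with h4 | h4
    · exact absurd (sub_eq_zero.1 h4) hw1
    · exact h4
  set u : ZMod p := (w : ZMod p) with hu
  have h12 : r ≠ u * r := by
    intro he
    have : (u - 1) * r = 0 := by rw [sub_mul, ← he]; ring
    rcases mul_eq_zero.1 this with h4 | h4
    · exact hw1 (sub_eq_zero.1 h4)
    · exact hr0 h4
  have h23 : u * r ≠ u ^ 2 * r := by
    intro he
    apply h12
    have h5 : u * (u * r) = u * r := by rw [← mul_assoc, ← pow_two, ← he]
    exact (mul_left_cancel₀ hw0 h5).symm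
  have h13 : r ≠ u ^ 2 * r := by
    intro he
    apply h12
    have h5 : u * r = u ^ 3 * r := by
      conv_lhs => rw [he]
      ring
    rw [h5, hw3, one_mul]
  have hfac : (X ^ 3 - C (d : ZMod p)) = (X - C r) * ((X - C (u * r)) * (X - C (u ^ 2 * r))) := by
    have e1 : u ^ 2 = -1 - u := by linear_combination hww
    rw [← hr3, e1]
    have e2 : (C u : (ZMod p)[X]) ^ 2 = -1 - C u := by
      rw [← map_pow, e1]; simp
    simp only [map_pow, map_mul, map_sub, map_neg, map_one]
    linear_combination (C r ^ 2 * X - C r ^ 3) * e2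
  have hmf : RingOfIntegers.monicFactorsMod th p =
      {X - C r, X - C (u * r), X - C (u ^ 2 * r)} := by
    unfold RingOfIntegers.monicFactorsMod
    rw [map_th hd hK th hth, hfac, UniqueFactorizationMonoid.normalizedFactors_mul
      (X_sub_C_ne_zero _) (mul_ne_zero (X_sub_C_ne_zero _) (X_sub_C_ne_zero _)),
      UniqueFactorizationMonoid.normalizedFactors_mul (X_sub_C_ne_zero _) (X_sub_C_ne_zero _),
      UniqueFactorizationMonoid.normalizedFactors_irreducible (irreducible_X_sub_C _),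
      UniqueFactorizationMonoid.normalizedFactors_irreducible (irreducible_X_sub_C _),
      UniqueFactorizationMonoid.normalizedFactors_irreducible (irreducible_X_sub_C _),
      (monic_X_sub_C _).normalize_eq_self, (monic_X_sub_C _).normalize_eq_self,
      (monic_X_sub_C _).normalize_eq_self]
    ext Q
    simp
    tauto
  have hinj : ∀ a b : ZMod p, a ≠ b → (X - C a : (ZMod p)[X]) ≠ X - C b := by
    intro a b hab he
    apply hab
    have := sub_right_injective he
    exact C_injective this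
  rw [hmf, Finset.prod_insert, Finset.prod_pair (hinj _ _ h23), natDegree_X_sub_C,
    natDegree_X_sub_C, natDegree_X_sub_C, pow_one]
  · ring
  · simp only [Finset.mem_insert, Finset.mem_singleton, not_or]
    exact ⟨hinj _ _ h12, hinj _ _ h13⟩

end MPd9f52e
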