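import Mathlib
import Pool.Agent.Lib.MP_d9f52e_nt.KDecA

/-!
# Decomposition of the primes dividing `3 d` in `ℚ(θ)`, `θ ^ 3 = d`

All use `∑ e_P f_P = 3` (`Ideal.sum_ramification_inertia`), where `e_P` is the multiplicity of `P`
in `(p)` and `absNorm P = p ^ f_P`.
* `kd_total`: if some `al : 𝓞 K` satisfies `3 * v_P(al) = v_P(p) * k` for all `P` above `p`, with
  `k` prime to `3`, then `3 ∣ v_P(p)` for all `P`, so there is only one prime, of norm `p`.
  It is used with the multiplicity `v_P(x)` of `P` in the ideal generated by `x`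
  (`Ideal.count` or `Multiset.count` in the normalized factors).
* `kd_dvd`: `p ∣ d`: `th ^ 3 = d = p ^ k * d'` with `k ∈ {1, 2}`, `d'` prime to `p`.
* `kd_three`: `3 ∤ d`, `d % 9 ∉ {1, 8}`: with `c = 1` if `d % 3 = 1` and `c = -1` if `d % 3 = 2`
  the element `al = th - c` satisfies `al ^ 3 + 3 * c * al ^ 2 + 3 * al = d - c`, and `d - c` is
  divisible by `3` but not by `9`. So `al ∈ P` for every `P` above `3`, and
  `v_P(al ^ 3) = v_P(3)`: indeed `v_P(al ^ 3 + 3 c al ^ 2 + 3 al) = v_P(d - c) = v_P(3) = e`, and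
  `3 c al ^ 2 + 3 al` has valuation larger than `e`, hence `3 v_P(al) = e`.
* `kd_caseC`: `d % 9 ∈ {1, 8}`, `c = 1` or `-1` congruent to `d` modulo `9`.
  `b = (th ^ 2 + c * th + 1) / 3` is a root of
  `X ^ 3 - X ^ 2 + ((1 - c d) / 3) X - (1 - c d) ^ 2 / 27` (replace `th` by `c * th` to reduce to
  `c = 1`, `D = c d`), so it is an algebraic integer; its trace is `1`, and
  `trace (b ^ 2) = 1 - 2 (1 - c d) / 3` is congruent to `1` modulo `3`. Also
  `b ^ 2 * (b - 1)` is divisible by `3`. If no prime above `3` contained `b` then `b - 1` would be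
  divisible by `3`, so `(b - 1) / 3` an algebraic integer of trace `-2 / 3`; if no prime above `3`
  contained `b - 1` then `b ^ 2 / 3` would be an algebraic integer whose trace is not an integer.
  So there are `P ∋ b` and `Q ∋ b - 1` above `3`, `P ≠ Q`. From
  `(th - c) ^ 2 = 3 * (b - c * th)` and `b - c * th ∉ P` we get that `v_P(3)` is even, so
  `e_P = 2`, `f_P = 1`, `e_Q = f_Q = 1` and there is no other prime.
-/

open ArithmeticFunction NumberField

namespace MPd9f52e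

variable {K : Type} [Field K] [NumberField K]

/-- the multiplicity of `P` in the ideal generated by `x` -/
private noncomputable def vv (P : Ideal (𝓞 K)) (x : 𝓞 K) : ℕ :=
  Multiset.count P (UniqueFactorizationMonoid.normalizedFactors (Ideal.span {x}))

private theorem le_vv {P : Ideal (𝓞 K)} (hP : P.IsPrime) (hP0 : P ≠ ⊥) {x : 𝓞 K} (hx : x ≠ 0)
    (n : ℕ) : n ≤ vv P x ↔ x ∈ P ^ n := by
  have hirr : Irreducible P := (Ideal.prime_of_isPrime hP0 hP).irreducible
  have hx0 : Ideal.span {x} ≠ 0 := by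
    rw [Ne, Ideal.zero_eq_bot, Ideal.span_singleton_eq_bot]
    exact hx
  have h1 := UniqueFactorizationMonoid.emultiplicity_eq_count_normalizedFactors hirr hx0
  rw [normalize_eq] at h1
  unfold vv
  rw [← Ideal.dvd_span_singleton, pow_dvd_iff_le_emultiplicity, h1]
  simp

private theorem vv_mul (P : Ideal (𝓞 K)) {x y : 𝓞 K} (hx : x ≠ 0) (hy : y ≠ 0) :
    vv P (x * y) = vv P x + vv P y := by
  have hx0 : Ideal.span {x} ≠ 0 := by
    rw [Ne, Ideal.zero_eq_bot, Ideal.span_singleton_eq_bot]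
    exact hx
  have hy0 : Ideal.span {y} ≠ 0 := by
    rw [Ne, Ideal.zero_eq_bot, Ideal.span_singleton_eq_bot]
    exact hy
  unfold vv
  rw [← Ideal.span_singleton_mul_span_singleton,
    UniqueFactorizationMonoid.normalizedFactors_mul hx0 hy0, Multiset.count_add]

private theorem vv_pow (P : Ideal (𝓞 K)) {x : 𝓞 K} (hx : x ≠ 0) (n : ℕ) :
    vv P (x ^ n) = n * vv P x := by
  induction n with
  | zero =>
    unfold vv
    rw [pow_zero, Ideal.span_singleton_one, ← Ideal.one_eq_top,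
      UniqueFactorizationMonoid.normalizedFactors_one]
    simp
  | succ n ih =>
    rw [pow_succ, vv_mul P (pow_ne_zero n hx) hx, ih]
    ring

private theorem vv_zero {P : Ideal (𝓞 K)} (hP : P.IsPrime) (hP0 : P ≠ ⊥) {x : 𝓞 K} (hx : x ∉ P) :
    vv P x = 0 := by
  have hx0 : x ≠ 0 := by
    rintro rfl
    exact hx P.zero_mem
  by_contra h
  have := (le_vv hP hP0 hx0 1).1 (by omega)
  rw [pow_one] at this
  exact hx this

private theorem ne_bot {p : ℕ} (hp : p.Prime) {P : Ideal (𝓞 K)} (hP : P ∈ primesAt K p) :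
    P ≠ ⊥ := by
  rintro rfl
  have := ((mem_primesAt K hp _).1 hP).2
  rw [Ideal.mem_bot] at this
  exact hp.ne_zero (by exact_mod_cast this)

private theorem natCast_ne {n : ℕ} (hn : n ≠ 0) : (n : 𝓞 K) ≠ 0 := by exact_mod_cast hn

private theorem primesAt_eq {p : ℕ} (hp : p.Prime) : primesAt K p =
    (UniqueFactorizationMonoid.normalizedFactors (Ideal.span {(p : 𝓞 K)})).toFinset := by
  have hx0 : Ideal.span {(p : 𝓞 K)} ≠ ⊥ := by
    rw [Ne, Ideal.span_singleton_eq_bot]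
    exact natCast_ne hp.ne_zero
  ext P
  rw [mem_primesAt K hp, Multiset.mem_toFinset, Ideal.mem_normalizedFactors_iff hx0,
    Ideal.span_singleton_le_iff_mem]

private theorem norm_eq (hK : Module.finrank ℚ K = 3) {p : ℕ} (hp : p.Prime) {P : Ideal (𝓞 K)}
    (hP : P ∈ primesAt K p) : ∃ f, 1 ≤ f ∧ Ideal.absNorm P = p ^ f := by
  have hP' := (mem_primesAt K hp _).1 hP
  have h1 : Ideal.absNorm P ∣ p ^ 3 := by
    have h2 := Ideal.absNorm_dvd_absNorm_of_le ((Ideal.span_singleton_le_iff_mem P).2 hP'.2)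
    rwa [Ideal.absNorm_span_natCast, RingOfIntegers.rank, hK] at h2
  obtain ⟨f, -, hf⟩ := (Nat.dvd_prime_pow hp).1 h1
  refine ⟨f, ?_, hf⟩
  by_contra h0
  have : f = 0 := by omega
  rw [this, pow_zero, Ideal.absNorm_eq_one_iff] at hf
  exact hP'.1.ne_top hf

private noncomputable def ff (p : ℕ) (P : Ideal (𝓞 K)) : ℕ := (Ideal.absNorm P).factorization p

private theorem ff_spec (hK : Module.finrank ℚ K = 3) {p : ℕ} (hp : p.Prime) {P : Ideal (𝓞 K)}
    (hP : P ∈ primesAt K p) : 1 ≤ ff p P ∧ Ideal.absNorm P = p ^ ff p P := by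
  obtain ⟨f, h1, h2⟩ := norm_eq hK hp hP
  have : ff p P = f := by
    unfold ff
    rw [h2, hp.factorization_pow]
    simp
  rw [this]
  exact ⟨h1, h2⟩

private theorem vv_p {p : ℕ} (hp : p.Prime) {P : Ideal (𝓞 K)} (hP : P ∈ primesAt K p) :
    1 ≤ vv P (p : 𝓞 K) := by
  rw [le_vv ((mem_primesAt K hp _).1 hP).1 (ne_bot hp hP) (natCast_ne hp.ne_zero), pow_one]
  exact ((mem_primesAt K hp _).1 hP).2

private theorem sum_ef (hK : Module.finrank ℚ K = 3) {p : ℕ} (hp : p.Prime) :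
    ∑ P ∈ primesAt K p, vv P (p : 𝓞 K) * ff p P = 3 := by
  have hx0 : Ideal.span {(p : 𝓞 K)} ≠ ⊥ := by
    rw [Ne, Ideal.span_singleton_eq_bot]
    exact natCast_ne hp.ne_zero
  have h1 : Ideal.absNorm (Ideal.span {(p : 𝓞 K)}) = p ^ 3 := by
    rw [Ideal.absNorm_span_natCast, RingOfIntegers.rank, hK]
  have h2 := Ideal.prod_normalizedFactors_eq_self hx0
  rw [← h2, map_multiset_prod, Finset.prod_multiset_map_count, ← primesAt_eq hp] at h1
  have h3 : ∏ P ∈ primesAt K p, Ideal.absNorm P ^ vv P (p : 𝓞 K) =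
      p ^ ∑ P ∈ primesAt K p, vv P (p : 𝓞 K) * ff p P := by
    rw [← Finset.prod_pow_eq_pow_sum]
    apply Finset.prod_congr rfl
    intro P hP
    conv_lhs => rw [(ff_spec hK hp hP).2]
    rw [← pow_mul, mul_comm]
  have h4 : p ^ ∑ P ∈ primesAt K p, vv P (p : 𝓞 K) * ff p P = p ^ 3 := by
    rw [← h3]
    exact h1
  exact Nat.pow_right_injective hp.two_le h4

theorem kd_total (hK : Module.finrank ℚ K = 3) {p : ℕ} (hp : p.Prime) (al : 𝓞 K) (k : ℕ)
    (hk : ¬ 3 ∣ k) (h : ∀ P ∈ primesAt K p,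
      3 * Multiset.count P (UniqueFactorizationMonoid.normalizedFactors (Ideal.span {al})) =
      k * Multiset.count P
        (UniqueFactorizationMonoid.normalizedFactors (Ideal.span {(p : 𝓞 K)}))) :
    locD K p = 1 - dl p := by
  have h' : ∀ P ∈ primesAt K p, 3 * vv P al = k * vv P (p : 𝓞 K) := h
  have hsum := sum_ef hK hp
  have h3 : ∀ P ∈ primesAt K p, 3 ≤ vv P (p : 𝓞 K) * ff p P := by
    intro P hP
    have h1 : 3 ∣ vv P (p : 𝓞 K) := by
      have : 3 ∣ k * vv P (p : 𝓞 K) := ⟨_, (h' P hP).symm⟩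
      exact ((Nat.Prime.dvd_mul Nat.prime_three).1 this).resolve_left hk
    have h2 := vv_p hp hP
    have h4 := (ff_spec hK hp hP).1
    have h5 := Nat.le_of_dvd h2 h1
    nlinarith
  have hne : (primesAt K p).Nonempty := by
    rw [Finset.nonempty_iff_ne_empty]
    intro h0
    rw [h0, Finset.sum_empty] at hsum
    omega
  obtain ⟨P, hP⟩ := hne
  have hone : primesAt K p = {P} := by
    apply Finset.eq_singleton_iff_unique_mem.2 ⟨hP, ?_⟩
    intro Q hQ
    by_contra hne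
    have h1 : vv P (p : 𝓞 K) * ff p P + vv Q (p : 𝓞 K) * ff p Q ≤
        ∑ P ∈ primesAt K p, vv P (p : 𝓞 K) * ff p P := by
      rw [← Finset.sum_pair (f := fun P => vv P (p : 𝓞 K) * ff p P) (Ne.symm hne)]
      apply Finset.sum_le_sum_of_subset
      intro R hR
      rw [Finset.mem_insert, Finset.mem_singleton] at hR
      rcases hR with rfl | rfl
      · exact hP
      · exact hQ
    have h2 := h3 P hP
    have h4 := h3 Q hQ
    omega
  have hf : ff p P = 1 := by
    rw [hone, Finset.sum_singleton] at hsum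
    have h1 : 3 ∣ vv P (p : 𝓞 K) := by
      have : 3 ∣ k * vv P (p : 𝓞 K) := ⟨_, (h' P hP).symm⟩
      exact ((Nat.Prime.dvd_mul Nat.prime_three).1 this).resolve_left hk
    have h2 := vv_p hp hP
    have h4 := (ff_spec hK hp hP).1
    have h5 := Nat.le_of_dvd h2 h1
    nlinarith
  unfold locD
  rw [hone, Finset.prod_singleton, (ff_spec hK hp hP).2, hf, pow_one]

private theorem not_mem_of_coprime {p : ℕ} (hp : p.Prime) {P : Ideal (𝓞 K)}
    (hP : P ∈ primesAt K p) {n : ℤ} (hn : ¬ (p : ℤ) ∣ n) : (n : 𝓞 K) ∉ P := by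
  intro h
  have hP' := (mem_primesAt K hp _).1 hP
  have hco : IsCoprime (p : ℤ) n := (Nat.prime_iff_prime_int.1 hp).coprime_iff_not_dvd.2 hn
  obtain ⟨a, b, hab⟩ := hco
  apply hP'.1.ne_top
  rw [Ideal.eq_top_iff_one]
  have : (1 : 𝓞 K) = a * p + b * n := by exact_mod_cast hab.symm
  rw [this]
  exact P.add_mem (P.mul_mem_left _ hP'.2) (P.mul_mem_left _ h)

theorem kd_dvd {d : ℕ} (hd : CubeFree d) (hK : Module.finrank ℚ K = 3) (th : 𝓞 K)
    (hth : th ^ 3 = d) {p : ℕ} (hp : p.Prime) (h : p ∣ d) : locD K p = 1 - dl p := by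
  have hd0 : d ≠ 0 := by
    have := hd.1
    omega
  obtain ⟨k, e, hpe, hke⟩ := Nat.exists_eq_pow_mul_and_not_dvd hd0 p hp.ne_one
  have hk1 : k ≠ 0 := by
    rintro rfl
    rw [pow_zero, one_mul] at hke
    rw [hke] at h
    exact hpe h
  have hk3 : k < 3 := by
    by_contra h3
    apply hd.2 p hp
    rw [hke]
    exact dvd_mul_of_dvd_left (pow_dvd_pow p (by omega)) _
  have he0 : e ≠ 0 := by
    rintro rfl
    exact hpe (dvd_zero _)
  have hth0 : th ≠ 0 := by
    rintro rfl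
    have : (d : 𝓞 K) = 0 := by rw [← hth]; norm_num
    exact hd0 (by exact_mod_cast this)
  apply kd_total hK hp th k (by omega)
  intro P hP
  have hP' := (mem_primesAt K hp _).1 hP
  change 3 * vv P th = k * vv P (p : 𝓞 K)
  rw [← vv_pow P hth0 3, hth, ← vv_pow P (natCast_ne hp.ne_zero) k, hke]
  have h1 : ((p ^ k * e : ℕ) : 𝓞 K) = (p : 𝓞 K) ^ k * (e : 𝓞 K) := by push_cast; rfl
  rw [h1, vv_mul P (pow_ne_zero _ (natCast_ne hp.ne_zero)) (natCast_ne he0)]
  have h2 : vv P (e : 𝓞 K) = 0 := by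
    apply vv_zero hP'.1 (ne_bot hp hP)
    have := not_mem_of_coprime hp hP (n := (e : ℤ)) (by exact_mod_cast hpe)
    simpa using this
  rw [h2, add_zero]

theorem kd_three {d : ℕ} (hd : CubeFree d) (hK : Module.finrank ℚ K = 3) (th : 𝓞 K)
    (hth : th ^ 3 = d) (h3 : ¬ 3 ∣ d) (h1 : d % 9 ≠ 1) (h8 : d % 9 ≠ 8) :
    locD K 3 = 1 - dl 3 := by
  have hp : Nat.Prime 3 := Nat.prime_three
  obtain ⟨c, hc, u, hu, hdu⟩ : ∃ c : ℤ, (c = 1 ∨ c = -1) ∧ ∃ u : ℤ, ¬ (3 : ℤ) ∣ u ∧
      (d : ℤ) - c = 3 * u := by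
    have h5 : d % 9 < 9 := Nat.mod_lt _ (by norm_num)
    by_cases h6 : d % 3 = 1
    · refine ⟨1, Or.inl rfl, ((d : ℤ) - 1) / 3, ?_, ?_⟩ <;> omega
    · refine ⟨-1, Or.inr rfl, ((d : ℤ) + 1) / 3, ?_, ?_⟩ <;> omega
  have hc2 : c ^ 2 = 1 := by rcases hc with rfl | rfl <;> norm_num
  set al : 𝓞 K := th - c with hal
  have hcK : (c : 𝓞 K) ^ 2 = 1 := by exact_mod_cast hc2
  have hduK : (d : 𝓞 K) - c = 3 * (u : 𝓞 K) := by exact_mod_cast congrArg (Int.cast : ℤ → 𝓞 K) hdu
  have heq : al ^ 3 + 3 * (al * (c * al + 1)) = 3 * (u : 𝓞 K) := by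
    rw [← hduK, ← hth, hal]
    linear_combination (2 * c - 3 * th) * hcK
  have hu0 : u ≠ 0 := by
    rintro rfl
    exact hu (dvd_zero _)
  have huK : (u : 𝓞 K) ≠ 0 := by exact_mod_cast hu0
  have h30 : ((3 : ℕ) : 𝓞 K) ≠ 0 := natCast_ne (by norm_num)
  have h3c : ((3 : ℕ) : 𝓞 K) = 3 := by norm_num
  have hal0 : al ≠ 0 := by
    intro h0
    rw [h0] at heq
    apply mul_ne_zero h30 huK
    rw [h3c, ← heq]
    ring
  apply kd_total hK hp al 1 (by norm_num)
  intro P hP
  change 3 * vv P al = 1 * vv P ((3 : ℕ) : 𝓞 K)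
  have hP' := (mem_primesAt K hp _).1 hP
  have hP0 := ne_bot hp hP
  have h3P : (3 : 𝓞 K) ∈ P := by simpa using hP'.2
  rw [one_mul]
  set e := vv P ((3 : ℕ) : 𝓞 K) with he
  have h3e : (3 : 𝓞 K) ∈ P ^ e := by
    have := (le_vv hP'.1 hP0 h30 e).1 le_rfl
    simpa using this
  have halP : al ∈ P := by
    apply hP'.1.mem_of_pow_mem 3
    have : al ^ 3 = 3 * ((u : 𝓞 K) - al * (c * al + 1)) := by linear_combination heq
    rw [this]
    exact P.mul_mem_right _ h3P
  have hrest : 3 * (al * (c * al + 1)) ∈ P ^ (e + 1) := by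
    rw [pow_succ]
    exact Ideal.mul_mem_mul h3e (P.mul_mem_right _ halP)
  have hvu : vv P (3 * (u : 𝓞 K)) = e := by
    rw [← h3c, vv_mul P h30 huK, vv_zero hP'.1 hP0 (not_mem_of_coprime hp hP hu), add_zero]
  have hu30 : 3 * (u : 𝓞 K) ≠ 0 := by
    rw [← h3c]
    exact mul_ne_zero h30 huK
  rw [← vv_pow P hal0 3]
  apply le_antisymm
  · by_contra hlt
    have h4 : al ^ 3 ∈ P ^ (e + 1) := (le_vv hP'.1 hP0 (pow_ne_zero 3 hal0) (e + 1)).1 (by omega)
    have h5 : 3 * (u : 𝓞 K) ∈ P ^ (e + 1) := by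
      rw [← heq]
      exact Ideal.add_mem _ h4 hrest
    have := (le_vv hP'.1 hP0 hu30 (e + 1)).2 h5
    omega
  · rw [le_vv hP'.1 hP0 (pow_ne_zero 3 hal0)]
    have h5 : al ^ 3 = 3 * (u : 𝓞 K) - 3 * (al * (c * al + 1)) := by linear_combination heq
    rw [h5]
    refine Ideal.sub_mem _ ((le_vv hP'.1 hP0 hu30 e).1 hvu.ge) ?_
    exact Ideal.pow_le_pow_right (Nat.le_succ e) hrest

private theorem trace_cube {a : ℚ} (ha : ∀ b : ℚ, b ^ 3 ≠ a) (hK : Module.finrank ℚ K = 3) (x : K)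
    (hx : x ^ 3 = algebraMap ℚ K a) : Algebra.trace ℚ K x = 0 := by
  have hirr : Irreducible (Polynomial.X ^ 3 - Polynomial.C a : Polynomial ℚ) :=
    X_pow_sub_C_irreducible_of_prime Nat.prime_three ha
  have hmin : minpoly ℚ x = Polynomial.X ^ 3 - Polynomial.C a := by
    symm
    apply minpoly.eq_of_irreducible_of_monic hirr
    · simp [hx]
    · exact Polynomial.monic_X_pow_sub_C _ (by norm_num)
  have hint : IsIntegral ℚ x := IsIntegral.of_finite ℚ _
  have htop : IntermediateField.adjoin ℚ {x} = ⊤ := by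
    apply IntermediateField.eq_of_le_of_finrank_eq le_top
    rw [IntermediateField.finrank_top', hK, IntermediateField.adjoin.finrank hint, hmin]
    exact Polynomial.natDegree_X_pow_sub_C
  have hadj : Algebra.adjoin ℚ {x} = ⊤ := by
    have := IntermediateField.adjoin_simple_toSubalgebra_of_isAlgebraic (F := ℚ) (α := x)
      hint.isAlgebraic
    rw [← this, htop]
    rfl
  let B : PowerBasis ℚ K := PowerBasis.ofAdjoinEqTop hint hadj
  have hgen : B.gen = x := rfl
  rw [← hgen, PowerBasis.trace_gen_eq_nextCoeff_minpoly, hgen, hmin]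
  rw [Polynomial.nextCoeff_of_natDegree_pos]
  · rw [Polynomial.natDegree_X_pow_sub_C]
    simp [Polynomial.coeff_X_pow]
  · rw [Polynomial.natDegree_X_pow_sub_C]
    norm_num

private theorem not_cube_rat' {d : ℕ} (hd : CubeFree d) (b : ℚ) : b ^ 3 ≠ (d : ℚ) := by
  intro h
  have hb : IsIntegral ℤ b := by
    refine ⟨Polynomial.X ^ 3 - Polynomial.C (d : ℤ),
      Polynomial.monic_X_pow_sub_C _ (by norm_num), ?_⟩
    simp [h]
  obtain ⟨n, rfl⟩ := IsIntegrallyClosed.isIntegral_iff.1 hb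
  have hn : n ^ 3 = (d : ℤ) := by
    have : ((n ^ 3 : ℤ) : ℚ) = ((d : ℤ) : ℚ) := by
      push_cast
      simpa using h
    exact_mod_cast this
  have hn2 : n.natAbs ^ 3 = d := by
    have := congrArg Int.natAbs hn
    simpa [Int.natAbs_pow] using this
  have h1 : n.natAbs ≠ 1 := by
    intro h1
    rw [h1] at hn2
    have := hd.1
    omega
  obtain ⟨q, hq, hqn⟩ := Nat.exists_prime_and_dvd h1
  exact hd.2 q hq (hn2 ▸ pow_dvd_pow_of_dvd hqn 3)

private theorem not_cube_sq {d : ℕ} (hd : CubeFree d) (b : ℚ) : b ^ 3 ≠ (d : ℚ) ^ 2 := by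
  intro h
  have hd0 : (d : ℚ) ≠ 0 := by
    have := hd.1
    have : d ≠ 0 := by omega
    exact_mod_cast this
  have hb0 : b ≠ 0 := by
    rintro rfl
    apply hd0
    have : (d : ℚ) ^ 2 = 0 := by rw [← h]; norm_num
    exact pow_eq_zero_iff two_ne_zero |>.1 this
  apply not_cube_rat' hd ((d : ℚ) / b)
  rw [div_pow, h]
  field_simp

private theorem exists_b {th : 𝓞 K} {D m : ℤ} (h : th ^ 3 = D) (hm : D - 1 = -9 * m) :
    ∃ b : 𝓞 K, 3 * b = th ^ 2 + th + 1 := by
  have hth : (th : K) ^ 3 = (D : K) := by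
    have := congrArg (algebraMap (𝓞 K) K) h
    simpa using this
  have hmK : (D : K) - 1 = -9 * (m : K) := by exact_mod_cast congrArg (Int.cast : ℤ → K) hm
  set b : K := ((th : K) ^ 2 + th + 1) / 3 with hb
  have h3K : (3 : K) ≠ 0 := by norm_num
  have h3b : 3 * b = (th : K) ^ 2 + th + 1 := by
    rw [hb]
    field_simp
  have htb : ((th : K) - 1) * b = -3 * m := by
    have : 3 * (((th : K) - 1) * b) = 3 * (-3 * m) := by
      linear_combination ((th : K) - 1) * h3b + hmK + hth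
    exact mul_left_cancel₀ h3K this
  have hbb : b ^ 2 = b - m * ((th : K) - 1) - 3 * m := by
    have : 3 * b ^ 2 = 3 * (b - m * ((th : K) - 1) - 3 * m) := by
      linear_combination b * h3b + ((th : K) + 2) * htb
    exact mul_left_cancel₀ h3K this
  have hb3 : b ^ 3 = b ^ 2 - 3 * m * b + 3 * m ^ 2 := by
    linear_combination b * hbb - m * htb
  have hint : IsIntegral ℤ b := by
    refine ⟨Polynomial.X ^ 3 - (Polynomial.X ^ 2 - Polynomial.C (3 * m) * Polynomial.X +
      Polynomial.C (3 * m ^ 2)), ?_, ?_⟩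
    · monicity!
    · simp only [Polynomial.eval₂_sub, Polynomial.eval₂_add, Polynomial.eval₂_mul,
        Polynomial.eval₂_pow, Polynomial.eval₂_X, Polynomial.eval₂_C]
      simp only [algebraMap_int_eq, eq_intCast, Int.cast_mul, Int.cast_pow, Int.cast_ofNat]
      rw [hb3]
      ring
  obtain ⟨b0, hb0⟩ : ∃ b0 : 𝓞 K, algebraMap (𝓞 K) K b0 = b :=
    IsIntegralClosure.isIntegral_iff.1 hint
  refine ⟨b0, ?_⟩
  apply RingOfIntegers.coe_injective
  rw [map_mul, map_add, map_add, map_pow, map_ofNat, map_one, hb0]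
  exact h3b

private theorem trace_b {d : ℕ} (hd : CubeFree d) (hK : Module.finrank ℚ K = 3) {th : 𝓞 K}
    (hth : th ^ 3 = d) {c : ℤ} {b b' : 𝓞 K} (hb : 3 * b = th ^ 2 + c * th + 1)
    (hb' : b - 1 = 3 * b') : False := by
  have hthK : (th : K) ^ 3 = (d : K) := by
    have := congrArg (algebraMap (𝓞 K) K) hth
    simpa using this
  have h1 : Algebra.trace ℚ K (th : K) = 0 :=
    trace_cube (not_cube_rat' hd) hK _ (by rw [hthK]; simp)
  have h2 : Algebra.trace ℚ K ((th : K) ^ 2) = 0 :=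
    trace_cube (not_cube_sq hd) hK _ (by rw [← pow_mul, mul_comm 2 3, pow_mul, hthK]; simp)
  have h3 : (9 : ℚ) • (b' : K) = (th : K) ^ 2 + (c : ℚ) • (th : K) - (2 : ℚ) • 1 := by
    have e1 : 3 * (b : K) = (th : K) ^ 2 + c * th + 1 := by
      have := congrArg (algebraMap (𝓞 K) K) hb
      simpa [map_ofNat] using this
    have e2 : (b : K) - 1 = 3 * b' := by
      have := congrArg (algebraMap (𝓞 K) K) hb'
      simpa [map_ofNat] using this
    rw [Algebra.smul_def, Algebra.smul_def, Algebra.smul_def]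
    simp only [map_ofNat, map_intCast]
    linear_combination e1 - 3 * e2
  have h4 := congrArg (Algebra.trace ℚ K) h3
  rw [map_smul, map_sub, map_add, map_smul, map_smul, h1, h2] at h4
  have h5 : Algebra.trace ℚ K (1 : K) = 3 := by
    have := Algebra.trace_algebraMap (S := K) (1 : ℚ)
    rw [map_one, hK] at this
    rw [this]
    norm_num
  rw [h5] at h4
  obtain ⟨n, hn⟩ : ∃ n : ℤ, Algebra.trace ℚ K (b' : K) = n := by
    have := Algebra.isIntegral_trace (L := ℚ) (F := K) b'.isIntegral_coe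
    obtain ⟨n, hn⟩ := IsIntegrallyClosed.isIntegral_iff.1 this
    exact ⟨n, by rw [← hn]; simp⟩
  rw [hn] at h4
  have h6 : 9 * n = -6 := by
    have : (9 : ℚ) * n = -6 := by
      rw [smul_eq_mul] at h4
      rw [h4]
      norm_num
    exact_mod_cast this
  omega

theorem kd_caseC {d : ℕ} (hd : CubeFree d) (hK : Module.finrank ℚ K = 3) (th : 𝓞 K)
    (hth : th ^ 3 = d) (h : d % 9 = 1 ∨ d % 9 = 8) :
    locD K 3 = (1 - dl 3) * (1 - dl 3) := by
  have hp : Nat.Prime 3 := Nat.prime_three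
  obtain ⟨c, hc, m, hm⟩ : ∃ c : ℤ, (c = 1 ∨ c = -1) ∧ ∃ m : ℤ, c * (d : ℤ) - 1 = -9 * m := by
    rcases h with h | h
    · exact ⟨1, Or.inl rfl, (1 - (d : ℤ)) / 9, by omega⟩
    · exact ⟨-1, Or.inr rfl, ((d : ℤ) + 1) / 9, by omega⟩
  have hc2 : c ^ 2 = 1 := by rcases hc with rfl | rfl <;> norm_num
  have hcO : (c : 𝓞 K) ^ 2 = 1 := by exact_mod_cast hc2
  have hmO : (c : 𝓞 K) * (d : 𝓞 K) - 1 = -9 * (m : 𝓞 K) := by
    exact_mod_cast congrArg (Int.cast : ℤ → 𝓞 K) hm
  obtain ⟨b, hb⟩ := exists_b (K := K) (th := c * th) (D := c * d) (m := m) (by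
    push_cast
    rw [mul_pow, hth, show (c : 𝓞 K) ^ 3 = c by
      rw [pow_succ, hcO, one_mul]]) hm
  have h30 : ((3 : ℕ) : 𝓞 K) ≠ 0 := natCast_ne (by norm_num)
  have h3c : ((3 : ℕ) : 𝓞 K) = 3 := by norm_num
  have h3O : (3 : 𝓞 K) ≠ 0 := by rw [← h3c]; exact h30
  set t : 𝓞 K := c * th - 1 with ht
  -- t ^ 2 = 3 * (b - t - 1)
  have htt : t ^ 2 = 3 * (b - t - 1) := by
    rw [ht]
    linear_combination (-1 : 𝓞 K) * hb
  have hthO : (c * th) ^ 3 = (c : 𝓞 K) * d := by
    rw [mul_pow, hth, show (c : 𝓞 K) ^ 3 = c by rw [pow_succ, hcO, one_mul]]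
  have htb : t * b = -3 * m := by
    have : 3 * (t * b) = 3 * (-3 * m) := by
      rw [ht]
      linear_combination ((c : 𝓞 K) * th - 1) * hb + hmO + hthO
    exact mul_left_cancel₀ h3O this
  have hbb : b ^ 2 = b - m * t - 3 * m := by
    have : 3 * b ^ 2 = 3 * (b - m * t - 3 * m) := by
      linear_combination b * hb + ((c : 𝓞 K) * th + 2) * htb
    exact mul_left_cancel₀ h3O this
  have hb3 : b ^ 2 * (b - 1) = 3 * (m * (m - b)) := by
    linear_combination b * hbb - m * htb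
  have hexP : ∃ P ∈ primesAt K 3, b ∈ P := by
    by_contra hno
    push Not at hno
    have hco : IsCoprime (3 : 𝓞 K) b := by
      rw [← Ideal.isCoprime_span_singleton_iff, Ideal.isCoprime_iff_sup_eq]
      by_contra hne
      obtain ⟨M, hM, hle⟩ := Ideal.exists_le_maximal _ hne
      have h3M : ((3 : ℕ) : 𝓞 K) ∈ M := by
        rw [h3c]
        exact hle (Ideal.mem_sup_left (Ideal.mem_span_singleton_self _))
      have hbM : b ∈ M := hle (Ideal.mem_sup_right (Ideal.mem_span_singleton_self _))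
      exact hno M ((mem_primesAt K hp M).2 ⟨hM.isPrime, h3M⟩) hbM
    have h3d : (3 : 𝓞 K) ∣ b - 1 := by
      have : (3 : 𝓞 K) ∣ b ^ 2 * (b - 1) := ⟨_, hb3⟩
      exact (hco.pow_right).dvd_of_dvd_mul_left this
    obtain ⟨b', hb'⟩ := h3d
    exact trace_b hd hK hth (c := c) (b := b) (b' := b')
      (by rw [hb]; linear_combination th ^ 2 * hcO) hb'
  have heven : ∀ P ∈ primesAt K 3, b ∈ P → 2 ∣ vv P ((3 : ℕ) : 𝓞 K) := by
    intro P hP hbP
    have hP' := (mem_primesAt K hp _).1 hP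
    have hP0 := ne_bot hp hP
    have h3P : (3 : 𝓞 K) ∈ P := by simpa using hP'.2
    have htP : t ∈ P := by
      apply hP'.1.mem_of_pow_mem 2
      rw [htt]
      exact P.mul_mem_right _ h3P
    have hs : b - t - 1 ∉ P := by
      intro hs
      apply hP'.1.ne_top
      rw [Ideal.eq_top_iff_one]
      have : (1 : 𝓞 K) = b - t - (b - t - 1) := by ring
      rw [this]
      exact P.sub_mem (P.sub_mem hbP htP) hs
    have hs0 : b - t - 1 ≠ 0 := by
      intro h0
      rw [h0] at hs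
      exact hs P.zero_mem
    have ht0 : t ≠ 0 := by
      intro h0
      rw [h0] at htt
      have : (3 : 𝓞 K) * (b - 0 - 1) = 0 := by rw [← htt]; norm_num
      rw [h0] at hs0
      exact mul_ne_zero h3O hs0 this
    have h1 : vv P (t ^ 2) = 2 * vv P t := vv_pow P ht0 2
    rw [htt, vv_mul P h3O hs0, vv_zero hP'.1 hP0 hs, add_zero] at h1
    rw [h3c]
    exact ⟨_, h1⟩
  have hsum := sum_ef hK hp
  have hexQ : ∃ Q ∈ primesAt K 3, b ∉ Q := by
    by_contra hno
    push Not at hno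
    have : 2 ∣ ∑ P ∈ primesAt K 3, vv P ((3 : ℕ) : 𝓞 K) * ff 3 P :=
      Finset.dvd_sum (fun P hP => Dvd.dvd.mul_right (heven P hP (hno P hP)) _)
    rw [hsum] at this
    omega
  obtain ⟨P, hP, hbP⟩ := hexP
  obtain ⟨Q, hQ, hbQ⟩ := hexQ
  have hPQ : P ≠ Q := by
    rintro rfl
    exact hbQ hbP
  have hvP : 2 ≤ vv P ((3 : ℕ) : 𝓞 K) := Nat.le_of_dvd (vv_p hp hP) (heven P hP hbP)
  have hvQ := vv_p hp hQ
  have hfP := ff_spec hK hp hP
  have hfQ := ff_spec hK hp hQ
  have hpair : vv P ((3 : ℕ) : 𝓞 K) * ff 3 P + vv Q ((3 : ℕ) : 𝓞 K) * ff 3 Q ≤ 3 := by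
    refine le_trans ?_ hsum.le
    rw [← Finset.sum_pair (f := fun P => vv P ((3 : ℕ) : 𝓞 K) * ff 3 P) hPQ]
    apply Finset.sum_le_sum_of_subset
    intro R hR
    rw [Finset.mem_insert, Finset.mem_singleton] at hR
    rcases hR with rfl | rfl
    · exact hP
    · exact hQ
  have hfP1 : ff 3 P = 1 := by
    have h1 := hfP.1
    have h2 := hfQ.1
    nlinarith
  have hfQ1 : ff 3 Q = 1 := by
    have h1 := hfP.1
    have h2 := hfQ.1
    nlinarith
  have hall : primesAt K 3 = {P, Q} := by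
    apply Finset.Subset.antisymm
    · intro R hR
      by_contra hn
      have hRv := vv_p hp hR
      have hRf := (ff_spec hK hp hR).1
      have h3 : vv R ((3 : ℕ) : 𝓞 K) * ff 3 R + (vv P ((3 : ℕ) : 𝓞 K) * ff 3 P +
          vv Q ((3 : ℕ) : 𝓞 K) * ff 3 Q) ≤ 3 := by
        refine le_trans ?_ hsum.le
        rw [← Finset.sum_pair (f := fun P => vv P ((3 : ℕ) : 𝓞 K) * ff 3 P) hPQ,
          ← Finset.sum_insert (f := fun P => vv P ((3 : ℕ) : 𝓞 K) * ff 3 P) hn]
        apply Finset.sum_le_sum_of_subset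
        intro S hS
        rw [Finset.mem_insert, Finset.mem_insert, Finset.mem_singleton] at hS
        rcases hS with rfl | rfl | rfl
        · exact hR
        · exact hP
        · exact hQ
      rw [hfP1, hfQ1] at h3
      nlinarith
    · intro R hR
      rw [Finset.mem_insert, Finset.mem_singleton] at hR
      rcases hR with rfl | rfl
      · exact hP
      · exact hQ
  unfold locD
  rw [hall, Finset.prod_pair hPQ, hfP.2, hfQ.2, hfP1, hfQ1, pow_one]

end MPd9f52e
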