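import Mathlib
import Pool.Agent.Lib.MP_d9f52e_nt.ERes

/-!
# ESix: sixth systems, Fermat
-/

set_option autoImplicit false

namespace MPd9f52e

open Complex

private theorem congr_symm {b x y : Eis} (h : b ∣ x - y) : b ∣ y - x := by
  rw [← neg_sub]
  exact (dvd_neg).2 h

private theorem congr_trans {b x y z : Eis} (h : b ∣ x - y) (h' : b ∣ y - z) : b ∣ x - z := by
  have := dvd_add h h'
  rwa [sub_add_sub_cancel] at this

private theorem ne_zero_of {a : Eis} (h : ¬ 2 ∣ nm a) : a ≠ 0 := by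
  rintro rfl
  apply h
  rw [(nm_eq_zero 0).2 rfl]
  exact dvd_zero 2

private theorem six_equiv (a : Eis) : Equivalence (fun x y : Eis => ∃ ε : Eisˣ, a ∣ x - ε * y) := by
  constructor
  · intro x
    exact ⟨1, by rw [Units.val_one, one_mul, sub_self]; exact dvd_zero _⟩
  · rintro x y ⟨ε, h⟩
    refine ⟨ε⁻¹, ?_⟩
    have e : y - ((ε⁻¹ : Eisˣ) : Eis) * x = -((ε⁻¹ : Eisˣ) : Eis) * (x - ε * y) := by
      linear_combination (-y) * (Units.inv_mul ε)
    rw [e]
    exact h.mul_left _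
  · rintro x y z ⟨ε, h⟩ ⟨ε', h'⟩
    refine ⟨ε * ε', ?_⟩
    have e : x - ((ε * ε' : Eisˣ) : Eis) * z = (x - ε * y) + ε * (y - ε' * z) := by
      rw [Units.val_mul]
      ring
    rw [e]
    exact dvd_add h (h'.mul_left _)

/-- existence of systems of representatives -/
private theorem exists_sys {a : Eis} (ha : a ≠ 0) (R : Eis → Eis → Prop) (hR : Equivalence R)
    (hc : ∀ x y, a ∣ x - y → R x y) (P : Eis → Prop) (hP : ∀ x y, R x y → P x → P y) :
    ∃ V : Finset Eis, (∀ v ∈ V, P v) ∧ (∀ v ∈ V, ∀ v' ∈ V, R v v' → v = v') ∧ ∀ x, P x → ∃ v ∈ V, R x v := by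
  classical
  obtain ⟨S, hS⟩ := exists_CRS ha
  let s : Setoid Eis := ⟨R, hR⟩
  have hout : ∀ x : Eis, R (Quotient.out (Quotient.mk s x)) x := fun x => Quotient.mk_out (s := s) x
  refine ⟨(S.filter P).image (fun x => Quotient.out (Quotient.mk s x)), ?_, ?_, ?_⟩
  · intro v hv
    obtain ⟨x, hx, rfl⟩ := Finset.mem_image.1 hv
    exact hP _ _ (hR.symm (hout x)) (Finset.mem_filter.1 hx).2
  · intro v hv v' hv' h
    obtain ⟨x, hx, rfl⟩ := Finset.mem_image.1 hv
    obtain ⟨x', hx', rfl⟩ := Finset.mem_image.1 hv'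
    have e : R x x' := hR.trans (hR.symm (hout x)) (hR.trans h (hout x'))
    have e' : Quotient.mk s x = Quotient.mk s x' := Quotient.sound e
    show Quotient.out (Quotient.mk s x) = Quotient.out (Quotient.mk s x')
    rw [e']
  · intro x hx
    obtain ⟨r, hr, h⟩ := hS.2 x
    have h' := hc _ _ h
    exact ⟨_, Finset.mem_image_of_mem _ (Finset.mem_filter.2 ⟨hr, hP _ _ h' hx⟩), hR.trans h' (hR.symm (hout r))⟩

private theorem six_pred {a : Eis} (x y : Eis) (h : ∃ ε : Eisˣ, a ∣ x - ε * y) (hx : ¬ a ∣ x) : ¬ a ∣ y := by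
  intro hy
  apply hx
  obtain ⟨ε, h⟩ := h
  have := dvd_add h (hy.mul_left (ε : Eis))
  rwa [sub_add_cancel] at this

theorem exists_sixth {a : Eis} (h2 : ¬ 2 ∣ nm a) (h3 : ¬ 3 ∣ nm a) : ∃ V, IsSixth a V :=
  exists_sys (ne_zero_of h2) (fun x y => ∃ ε : Eisˣ, a ∣ x - ε * y) (six_equiv a)
    (fun x y h => ⟨1, by rwa [Units.val_one, one_mul]⟩) (fun x => ¬ a ∣ x) (fun x y h => six_pred x y h)

/-- the difference of two different units is prime to `a` -/
private theorem unit_sub {a : Eis} (h2 : ¬ 2 ∣ nm a) (h3 : ¬ 3 ∣ nm a) {ε ε' : Eisˣ} (hne : ε ≠ ε') :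
    IsCoprime a ((ε : Eis) - ε') := by
  have c2 : (nm a).Coprime 2 := ((Nat.Prime.coprime_iff_not_dvd Nat.prime_two).2 h2).symm
  have c3 : (nm a).Coprime 3 := ((Nat.Prime.coprime_iff_not_dvd Nat.prime_three).2 h3).symm
  apply isCoprime_of_nm
  have e : (ε : Eis) - ε' = ε' * (((ε * ε'⁻¹ : Eisˣ) : Eis) - 1) := by
    rw [Units.val_mul]
    linear_combination (-(ε : Eis)) * (Units.mul_inv ε')
  have hne' : ε * ε'⁻¹ ≠ 1 := by
    intro h
    apply hne
    exact mul_inv_eq_one.1 h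
  rw [e, nm_mul, nm_unit, one_mul]
  generalize ε * ε'⁻¹ = u at hne' ⊢
  obtain ⟨j, hj, hu | hu⟩ := units_eq u
  · interval_cases j
    · exfalso
      apply hne'
      apply Units.ext
      rw [hu, pow_zero, Units.val_one]
    · rw [hu, pow_one]
      have : nm (om - 1) = 3 := by decide
      rw [this]
      exact c3
    · rw [hu]
      have : nm (om ^ 2 - 1) = 3 := by decide
      rw [this]
      exact c3
  · interval_cases j
    · rw [hu]
      have : nm (-om ^ 0 - 1) = 4 := by decide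
      rw [this]
      exact Nat.Coprime.mul_right c2 c2
    · rw [hu, pow_one]
      have : nm (-om - 1) = 1 := by decide
      rw [this]
      exact Nat.coprime_one_right _
    · rw [hu]
      have : nm (-om ^ 2 - 1) = 1 := by decide
      rw [this]
      exact Nat.coprime_one_right _

private theorem key {a : Eis} (h2 : ¬ 2 ∣ nm a) (h3 : ¬ 3 ∣ nm a) {V : Finset Eis} (hV : IsSixth a V)
    {v v' : Eis} (hv : v ∈ V) (hv' : v' ∈ V) {ε ε' : Eisˣ} (h : a ∣ ε * v - ε' * v') : ε = ε' ∧ v = v' := by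
  have e1 : v = v' := by
    apply hV.2.1 v hv v' hv'
    refine ⟨ε⁻¹ * ε', ?_⟩
    have e : v - ((ε⁻¹ * ε' : Eisˣ) : Eis) * v' = ((ε⁻¹ : Eisˣ) : Eis) * (ε * v - ε' * v') := by
      rw [Units.val_mul]
      linear_combination (-v) * (Units.inv_mul ε)
    rw [e]
    exact h.mul_left _
  subst e1
  refine ⟨?_, rfl⟩
  by_contra hne
  rw [← sub_mul] at h
  exact hV.1 v hv ((unit_sub h2 h3 hne).dvd_of_dvd_mul_left h)

private theorem crs_of_sixth {a : Eis} (h2 : ¬ 2 ∣ nm a) (h3 : ¬ 3 ∣ nm a) {V : Finset Eis} (hV : IsSixth a V)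
    [Fintype Eisˣ] :
    IsCRS a (insert 0 ((Finset.univ ×ˢ V).image (fun p : Eisˣ × Eis => (p.1 : Eis) * p.2))) ∧
      (0 : Eis) ∉ ((Finset.univ ×ˢ V).image (fun p : Eisˣ × Eis => (p.1 : Eis) * p.2)) ∧
      Set.InjOn (fun p : Eisˣ × Eis => (p.1 : Eis) * p.2) ((Finset.univ ×ˢ V : Finset (Eisˣ × Eis)) : Set (Eisˣ × Eis)) := by
  classical
  have hn : ∀ (ε : Eisˣ) (v : Eis), v ∈ V → ¬ a ∣ ε * v := by
    intro ε v hv h
    exact hV.1 v hv ((ε.isUnit.dvd_mul_left).1 h)
  refine ⟨⟨?_, ?_⟩, ?_, ?_⟩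
  · intro r hr r' hr' hd
    simp only [Finset.mem_insert, Finset.mem_image, Finset.mem_product, Finset.mem_univ, true_and, Prod.exists] at hr hr'
    rcases hr with rfl | ⟨ε, v, hv, rfl⟩ <;> rcases hr' with rfl | ⟨ε', v', hv', rfl⟩
    · rfl
    · exfalso
      rw [zero_sub, dvd_neg] at hd
      exact hn _ _ hv' hd
    · exfalso
      rw [sub_zero] at hd
      exact hn _ _ hv hd
    · obtain ⟨e1, e2⟩ := key h2 h3 hV hv hv' hd
      rw [e1, e2]
  · intro x
    by_cases hx : a ∣ x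
    · exact ⟨0, Finset.mem_insert_self _ _, by rwa [sub_zero]⟩
    · obtain ⟨v, hv, ε, hd⟩ := hV.2.2 x hx
      refine ⟨ε * v, ?_, hd⟩
      apply Finset.mem_insert_of_mem
      exact Finset.mem_image.2 ⟨(ε, v), Finset.mem_product.2 ⟨Finset.mem_univ _, hv⟩, rfl⟩
  · intro h0
    obtain ⟨p, hp, h0⟩ := Finset.mem_image.1 h0
    apply hn p.1 p.2 (Finset.mem_product.1 hp).2
    rw [h0]
    exact dvd_zero a
  · intro p hp p' hp' h
    have hp1 := (Finset.mem_product.1 (Finset.mem_coe.1 hp)).2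
    have hp2 := (Finset.mem_product.1 (Finset.mem_coe.1 hp')).2
    have h' : (p.1 : Eis) * p.2 = p'.1 * p'.2 := h
    obtain ⟨e1, e2⟩ := key h2 h3 hV hp1 hp2 (ε := p.1) (ε' := p'.1) (by rw [h', sub_self]; exact dvd_zero a)
    exact Prod.ext e1 e2

theorem card_sixth {a : Eis} (h2 : ¬ 2 ∣ nm a) (h3 : ¬ 3 ∣ nm a) {V : Finset Eis} (hV : IsSixth a V) :
    6 * V.card + 1 = nm a := by
  classical
  have hf := finite_units
  have := Fintype.ofFinite Eisˣ
  obtain ⟨c1, c2, c3⟩ := crs_of_sixth h2 h3 hV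
  have h6 : (Finset.univ : Finset Eisˣ).card = 6 := by
    rw [Finset.card_univ, ← Nat.card_eq_fintype_card, card_units]
  rw [← card_CRS (ne_zero_of h2) c1, Finset.card_insert_of_notMem c2, Finset.card_image_of_injOn c3,
    Finset.card_product, h6]

theorem prod_CRS_sixth {M : Type*} [CommMonoid M] {a : Eis} (h2 : ¬ 2 ∣ nm a) (h3 : ¬ 3 ∣ nm a) {S V : Finset Eis}
    (hS : IsCRS a S) (hV : IsSixth a V) (F : Eis → M) (hF : ∀ x y, a ∣ x - y → F x = F y)
    (hF' : ∀ (ε : Eisˣ) x, F (ε * x) = F x) : ∏ r ∈ S, F r = F 0 * (∏ v ∈ V, F v) ^ 6 := by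
  classical
  have hf := finite_units
  have := Fintype.ofFinite Eisˣ
  obtain ⟨c1, c2, c3⟩ := crs_of_sixth h2 h3 hV
  have h6 : (Finset.univ : Finset Eisˣ).card = 6 := by
    rw [Finset.card_univ, ← Nat.card_eq_fintype_card, card_units]
  rw [prod_CRS_congr hS c1 F hF, Finset.prod_insert c2, Finset.prod_image c3, Finset.prod_product]
  have : ∀ ε : Eisˣ, ∏ v ∈ V, F (((ε, v) : Eisˣ × Eis).1 * ((ε, v) : Eisˣ × Eis).2) = ∏ v ∈ V, F v := by
    intro ε
    exact Finset.prod_congr rfl (fun v _ => hF' ε v)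
  rw [Finset.prod_congr rfl (fun ε _ => this ε), Finset.prod_const, h6]

private theorem star_unit' (ε : Eisˣ) : ∃ ε' : Eisˣ, (ε' : Eis) = star (ε : Eis) := star_unit ε

theorem star_sixth {a : Eis} {V : Finset Eis} (hV : IsSixth a V) : IsSixth (star a) (V.image star) := by
  classical
  obtain ⟨h1, h2, h3⟩ := hV
  refine ⟨?_, ?_, ?_⟩
  · intro v hv h
    obtain ⟨w, hw, rfl⟩ := Finset.mem_image.1 hv
    have := star_dvd h
    rw [star_star, star_star] at this
    exact h1 w hw this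
  · intro v hv v' hv' h
    obtain ⟨w, hw, rfl⟩ := Finset.mem_image.1 hv
    obtain ⟨w', hw', rfl⟩ := Finset.mem_image.1 hv'
    obtain ⟨ε, h⟩ := h
    obtain ⟨ε', e⟩ := star_unit ε
    have := star_dvd h
    rw [star_star, star_sub, star_star, star_mul, star_star, ← e, mul_comm w'] at this
    rw [h2 w hw w' hw' ⟨ε', this⟩]
  · intro x hx
    have hx' : ¬ a ∣ star x := by
      intro h
      apply hx
      have := star_dvd h
      rwa [star_star] at this
    obtain ⟨v, hv, ε, h⟩ := h3 _ hx'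
    obtain ⟨ε', e⟩ := star_unit ε
    refine ⟨star v, Finset.mem_image_of_mem _ hv, ε', ?_⟩
    have := star_dvd h
    rwa [star_sub, star_star, star_mul, ← e, mul_comm (star v)] at this

private theorem algNorm_eq (b : Eis) : (Algebra.norm ℤ b).natAbs = nm b := by
  have h1 : Algebra.norm ℤ b = QuadraticAlgebra.norm b := by
    rw [Algebra.norm_apply, ← QuadraticAlgebra.det_toLinearMap_eq_norm]
    apply congrArg
    apply LinearMap.ext
    intro x
    rfl
  rw [h1, nm, QuadraticAlgebra.norm_def]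
  apply congrArg
  ring

private theorem card_quot (b : Eis) : Nat.card (Eis ⧸ Ideal.span {b}) = nm b := by
  rw [← algNorm_eq, ← Ideal.absNorm_span_singleton, Ideal.absNorm_apply]
  rfl

private theorem finite_quot {b : Eis} (hb : b ≠ 0) : Finite (Eis ⧸ Ideal.span {b}) := by
  apply Nat.finite_of_card_ne_zero
  rw [card_quot]
  intro h
  exact hb ((nm_eq_zero b).1 h)

theorem fermat {q : Eis} (hq : Prime q) {b : Eis} (hb : ¬ q ∣ b) : q ∣ b ^ (nm q - 1) - 1 := by
  classical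
  have hfin := finite_quot hq.ne_zero
  have := Fintype.ofFinite (Eis ⧸ Ideal.span {q})
  have hpr : (Ideal.span {q}).IsPrime := (Ideal.span_singleton_prime hq.ne_zero).2 hq
  have hdom : IsDomain (Eis ⧸ Ideal.span {q}) := inferInstance
  have hfield : IsField (Eis ⧸ Ideal.span {q}) := Finite.isField_of_domain _
  let _ : Field (Eis ⧸ Ideal.span {q}) := hfield.toField
  have hb' : Ideal.Quotient.mk (Ideal.span {q}) b ≠ 0 := by
    intro h
    rw [Ideal.Quotient.eq_zero_iff_mem, Ideal.mem_span_singleton] at h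
    exact hb h
  have h1 := FiniteField.pow_card_sub_one_eq_one (Ideal.Quotient.mk (Ideal.span {q}) b) hb'
  rw [← Nat.card_eq_fintype_card, card_quot] at h1
  rw [← Ideal.mem_span_singleton, ← Ideal.Quotient.eq_zero_iff_mem, map_sub, map_pow, map_one]
  rw [sub_eq_zero]
  exact h1

end MPd9f52e
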