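import Mathlib
import Pool.Agent.Lib.MP_d9f52e_nt.ESix

/-!
# RSym: the cubic residue symbol  (about 200 lines)

`q` a prime of `Eis` with `3` not dividing `nm q` (so `nm q = 1 mod 3` by `nm_mod_three`).  For `b` prime to `q`: `c = b^((nm q - 1)/3)` satisfies `q | c^3 - 1 = (c-1)(c-om)(c-om^2)`
(`fermat`), and exactly one factor is divisible by `q` because the differences `1 - om, 1 - om^2, om - om^2` divide `3` (norm 3).
Multiplicativity, periodicity: clear from the uniqueness.  `cs_star`: apply `star` (`star om = om^2`).  `cs_om`: `om^((nm q-1)/3)`.  `cs_assoc`: same divisibility, same norm.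
`cs_eq_zero_iff`: `nm q = p` prime: `Z -> Eis/q` is onto (`Eis/q` has `p` elements; or: `q` divides `b - x` for some integer `x`), the group `(Z/p)^*` is cyclic of order `p - 1`, `3 | p-1`: `x^((p-1)/3) = 1` iff `x` is a cube
(`ZMod`/`IsCyclic`: number of solutions of `y^{n/3} = 1`), or use `FiniteField` lemmas.
-/

set_option autoImplicit false

namespace MPd9f52e

open Complex

theorem nm_sub_one_dvd {q : Eis} (h3 : ¬ 3 ∣ nm q) : 3 ∣ nm q - 1 := by
  have := nm_mod_three q
  omega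

private lemma nm_om_sub (i j : ZMod 3) (h : i ≠ j) : nm (om ^ i.val - om ^ j.val) = 3 := by
  revert i j
  decide

private lemma om_pow_add (i j : ZMod 3) : om ^ (i + j).val = om ^ i.val * om ^ j.val := by
  revert i j
  decide

private lemma om_pow_neg (j : ZMod 3) : star (om ^ j.val) = om ^ (-j).val := by
  revert j
  decide

private lemma prime_nm_ne_one {q : Eis} (hq : Prime q) : nm q ≠ 1 := fun h => hq.not_isUnit ((unit_iff q).2 h)

theorem not_dvd_om_sub {q : Eis} (hq : Prime q) (h3 : ¬ 3 ∣ nm q) {i j : ZMod 3} (h : q ∣ om ^ i.val - om ^ j.val) :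
    i = j := by
  by_contra hij
  have h1 := nm_dvd h
  rw [nm_om_sub i j hij] at h1
  rcases (Nat.dvd_prime Nat.prime_three).1 h1 with h2 | h2
  · exact prime_nm_ne_one hq h2
  · exact h3 (by rw [h2])

theorem cs_spec {q : Eis} (hq : Prime q) (h3 : ¬ 3 ∣ nm q) {b : Eis} (hb : ¬ q ∣ b) :
    q ∣ b ^ ((nm q - 1) / 3) - om ^ (cs q b).val := by
  unfold cs
  split_ifs with h1 h2
  · have e : (1 : ZMod 3).val = 1 := rfl
    rw [e, pow_one]; exact h1
  · have e : (2 : ZMod 3).val = 2 := rfl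
    rw [e]; exact h2
  · have e : (0 : ZMod 3).val = 0 := rfl
    rw [e, pow_zero]
    have hf := fermat hq hb
    obtain ⟨k, hk⟩ := nm_sub_one_dvd h3
    have hk' : (nm q - 1) / 3 = k := by omega
    rw [hk'] at h1 h2 ⊢
    rw [hk] at hf
    have hfac : b ^ (3 * k) - 1 = (b ^ k - 1) * ((b ^ k - om) * (b ^ k - om ^ 2)) := by
      have h0 := om_sq
      have hc := om_pow_three
      rw [mul_comm 3 k, pow_mul]
      generalize b ^ k = c at *
      linear_combination (c ^ 2 - c) * h0 + (1 - c) * hc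
    rw [hfac] at hf
    rcases hq.dvd_or_dvd hf with h | h
    · exact h
    · rcases hq.dvd_or_dvd h with h | h
      · exact absurd h h1
      · exact absurd h h2

theorem cs_eq_of {q : Eis} (hq : Prime q) (h3 : ¬ 3 ∣ nm q) {b : Eis} {j : ZMod 3}
    (h : q ∣ b ^ ((nm q - 1) / 3) - om ^ j.val) : cs q b = j := by
  unfold cs
  split_ifs with h1 h2
  · apply not_dvd_om_sub hq h3
    have e : (1 : ZMod 3).val = 1 := rfl
    rw [e, pow_one]
    have := dvd_sub h h1
    rwa [sub_sub_sub_cancel_left] at this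
  · apply not_dvd_om_sub hq h3
    have e : (2 : ZMod 3).val = 2 := rfl
    rw [e]
    have := dvd_sub h h2
    rwa [sub_sub_sub_cancel_left] at this
  · have hj : ∀ j : ZMod 3, j = 0 ∨ j = 1 ∨ j = 2 := by decide
    rcases hj j with rfl | rfl | rfl
    · rfl
    · exfalso
      have e : (1 : ZMod 3).val = 1 := rfl
      rw [e, pow_one] at h
      exact h1 h
    · exfalso
      have e : (2 : ZMod 3).val = 2 := rfl
      rw [e] at h
      exact h2 h

theorem cs_mul {q : Eis} (hq : Prime q) (h3 : ¬ 3 ∣ nm q) {b c : Eis} (hb : ¬ q ∣ b) (hc : ¬ q ∣ c) :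
    cs q (b * c) = cs q b + cs q c := by
  apply cs_eq_of hq h3
  rw [om_pow_add, mul_pow]
  have h1 := cs_spec hq h3 hb
  have h2 := cs_spec hq h3 hc
  have : b ^ ((nm q - 1) / 3) * c ^ ((nm q - 1) / 3) - om ^ (cs q b).val * om ^ (cs q c).val =
      (b ^ ((nm q - 1) / 3) - om ^ (cs q b).val) * c ^ ((nm q - 1) / 3) +
        om ^ (cs q b).val * (c ^ ((nm q - 1) / 3) - om ^ (cs q c).val) := by ring
  rw [this]
  exact dvd_add (Dvd.dvd.mul_right h1 _) (Dvd.dvd.mul_left h2 _)

private lemma dvd_iff_of_congr {q x y z : Eis} (h : q ∣ x - y) : q ∣ x - z ↔ q ∣ y - z := by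
  constructor
  · intro h1
    have := dvd_sub h1 h
    have e : x - z - (x - y) = y - z := by ring
    rwa [e] at this
  · intro h1
    have := dvd_add h1 h
    have e : y - z + (x - y) = x - z := by ring
    rwa [e] at this

theorem cs_congr {q : Eis} (hq : Prime q) (h3 : ¬ 3 ∣ nm q) {b c : Eis} (h : q ∣ b - c) : cs q b = cs q c := by
  have h1 : q ∣ b ^ ((nm q - 1) / 3) - c ^ ((nm q - 1) / 3) := h.trans (sub_dvd_pow_sub_pow b c _)
  unfold cs
  classical
  exact if_congr (dvd_iff_of_congr h1) rfl (if_congr (dvd_iff_of_congr h1) rfl rfl)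

theorem cs_assoc {q : Eis} (ε : Eisˣ) (b : Eis) : cs (ε * q) b = cs q b := by
  unfold cs
  have h1 : nm ((ε : Eis) * q) = nm q := by rw [nm_mul, nm_unit, one_mul]
  rw [h1]
  classical
  exact if_congr Units.mul_left_dvd rfl (if_congr Units.mul_left_dvd rfl rfl)

private lemma prime_star {q : Eis} (hq : Prime q) : Prime (star q) :=
  (MulEquiv.prime_iff (starMulAut : Eis ≃* Eis)).2 hq

theorem cs_star {q : Eis} (hq : Prime q) (h3 : ¬ 3 ∣ nm q) {b : Eis} (hb : ¬ q ∣ b) :
    cs (star q) (star b) = -cs q b := by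
  apply cs_eq_of (prime_star hq) (by rwa [nm_star])
  have h1 := star_dvd (cs_spec hq h3 hb)
  rw [star_sub, star_pow, om_pow_neg] at h1
  rwa [nm_star]

theorem cs_one {q : Eis} (hq : Prime q) (h3 : ¬ 3 ∣ nm q) : cs q 1 = 0 := by
  apply cs_eq_of hq h3
  have e : (0 : ZMod 3).val = 0 := rfl
  rw [e, one_pow, pow_zero, sub_self]
  exact dvd_zero _

theorem cs_neg_one {q : Eis} (hq : Prime q) (h3 : ¬ 3 ∣ nm q) : cs q (-1) = 0 := by
  have hn : ¬ q ∣ (-1 : Eis) := fun h => hq.not_isUnit (isUnit_of_dvd_unit h (isUnit_one.neg))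
  have h1 := cs_mul hq h3 hn hn
  rw [neg_mul_neg, one_mul, cs_one hq h3] at h1
  generalize cs q (-1) = y at h1 ⊢
  revert y
  decide

theorem cs_om {q : Eis} (hq : Prime q) (h3 : ¬ 3 ∣ nm q) : cs q om = (((nm q - 1) / 3 : ℕ) : ZMod 3) := by
  apply cs_eq_of hq h3
  generalize (nm q - 1) / 3 = k
  rw [ZMod.val_natCast]
  conv_lhs => skip
  have : om ^ k = om ^ (k % 3) := by
    conv_lhs => rw [← Nat.div_add_mod k 3, pow_add, pow_mul, om_pow_three, one_pow, one_mul]
  rw [this, sub_self]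
  exact dvd_zero _

/-- `Eis/q` is the prime field when `nm q` is prime -/
theorem exists_int {q : Eis} (hq : (nm q).Prime) (b : Eis) : ∃ x : ℤ, q ∣ b - x := by
  have hnq : q ∣ ((nm q : ℕ) : Eis) := by
    rw [← mul_star_self]; exact dvd_mul_right _ _
  have hnn : 0 ≤ q.re ^ 2 - q.re * q.im + q.im ^ 2 := by
    nlinarith [sq_nonneg (2 * q.re - q.im), sq_nonneg q.im]
  have hnz : (nm q : ℤ) = q.re ^ 2 - q.re * q.im + q.im ^ 2 := by
    unfold nm; rw [Int.natCast_natAbs, abs_of_nonneg hnn]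
  have hpZ : Prime ((nm q : ℕ) : ℤ) := Nat.prime_iff_prime_int.1 hq
  have hcop : IsCoprime ((nm q : ℕ) : ℤ) q.im := by
    rw [(Nat.prime_iff_prime_int.1 hq).coprime_iff_not_dvd]
    intro hd
    have h1 : ((nm q : ℕ) : ℤ) ∣ q.re ^ 2 := by
      have e : q.re ^ 2 = (nm q : ℤ) + q.im * (q.re - q.im) := by rw [hnz]; ring
      rw [e]
      exact dvd_add dvd_rfl (Dvd.dvd.mul_right hd _)
    have h2 : ((nm q : ℕ) : ℤ) ∣ q.re := hpZ.dvd_of_dvd_pow h1
    obtain ⟨u, hu⟩ := hd
    obtain ⟨v, hv⟩ := h2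
    have h3 : (nm q : ℤ) = (nm q : ℤ) ^ 2 * (v ^ 2 - v * u + u ^ 2) := by
      conv_lhs => rw [hnz, hu, hv]
      ring
    have hpos : (1 : ℤ) < (nm q : ℤ) := by exact_mod_cast hq.one_lt
    have h4 : (1 : ℤ) = (nm q : ℤ) * (v ^ 2 - v * u + u ^ 2) := by
      have h5 : (nm q : ℤ) * ((nm q : ℤ) * (v ^ 2 - v * u + u ^ 2) - 1) = 0 := by linear_combination -h3
      rcases mul_eq_zero.1 h5 with h | h
      · omega
      · linarith
    exact hpZ.not_isUnit (IsUnit.of_mul_eq_one _ h4.symm)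
  obtain ⟨k, v, hkv⟩ := hcop
  -- k * nm q + v * im = 1
  have hom : q ∣ om + ((v * q.re : ℤ) : Eis) := by
    have e : om + ((v * q.re : ℤ) : Eis) = (v : Eis) * q + ((nm q : ℕ) : Eis) * ((k : Eis) * om) := by
      apply QuadraticAlgebra.ext
      · simp [om]
      · simp only [om, QuadraticAlgebra.im_add, QuadraticAlgebra.im_mul]
        simp
        linear_combination -hkv
    rw [e]
    exact dvd_add (dvd_mul_left _ _) (Dvd.dvd.mul_right hnq _)
  refine ⟨b.re - b.im * (v * q.re), ?_⟩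
  have e : b - ((b.re - b.im * (v * q.re) : ℤ) : Eis) = (b.im : Eis) * (om + ((v * q.re : ℤ) : Eis)) := by
    apply QuadraticAlgebra.ext
    · simp [om]
    · simp [om]
  rw [e]
  exact Dvd.dvd.mul_left hom _

theorem int_dvd_iff {q : Eis} (hq : (nm q).Prime) (x : ℤ) : q ∣ (x : Eis) ↔ (nm q : ℤ) ∣ x := by
  constructor
  · intro h
    have h1 := nm_dvd h
    have h2 : nm (x : Eis) = x.natAbs ^ 2 := by
      unfold nm
      simp [Int.natAbs_pow]
    rw [h2] at h1
    exact Int.natCast_dvd.2 (hq.dvd_of_dvd_pow h1)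
  · rintro ⟨y, rfl⟩
    push_cast
    rw [← mul_star_self]
    exact Dvd.dvd.mul_right (dvd_mul_right _ _) _

theorem cs_eq_zero_iff {q : Eis} (hq : (nm q).Prime) (h3 : nm q ≠ 3) {n : ℕ} (hn : ¬ nm q ∣ n) :
    cs q (n : Eis) = 0 ↔ ∃ x : ℤ, (nm q : ℤ) ∣ x ^ 3 - n := by
  have hqp : Prime q := prime_of_nm hq
  have h3' : ¬ 3 ∣ nm q := fun h => h3 ((Nat.prime_dvd_prime_iff_eq Nat.prime_three hq).1 h).symm
  have hqn : ¬ q ∣ (n : Eis) := by
    intro h
    have h1 : q ∣ ((n : ℤ) : Eis) := by simpa using h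
    exact hn (Int.natCast_dvd_natCast.1 ((int_dvd_iff hq n).1 h1))
  constructor
  · intro h
    have h1 := cs_spec hqp h3' hqn
    rw [h] at h1
    have e0 : (0 : ZMod 3).val = 0 := rfl
    rw [e0, pow_zero] at h1
    have h2 : ((nm q : ℕ) : ℤ) ∣ (n : ℤ) ^ ((nm q - 1) / 3) - 1 := by
      rw [← int_dvd_iff hq]
      push_cast
      exact h1
    haveI : Fact (nm q).Prime := ⟨hq⟩
    have h4 : ((n : ZMod (nm q))) ^ ((nm q - 1) / 3) = 1 := by
      have := (ZMod.intCast_zmod_eq_zero_iff_dvd ((n : ℤ) ^ ((nm q - 1) / 3) - 1) (nm q)).2 h2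
      push_cast at this
      exact sub_eq_zero.1 this
    have hn0 : (n : ZMod (nm q)) ≠ 0 := fun h => hn ((ZMod.natCast_eq_zero_iff _ _).1 h)
    obtain ⟨k, hk⟩ := nm_sub_one_dvd h3'
    have hk' : (nm q - 1) / 3 = k := by omega
    obtain ⟨g, hg⟩ := IsCyclic.exists_generator (α := (ZMod (nm q))ˣ)
    obtain ⟨a, ha⟩ := Subgroup.mem_zpowers_iff.1 (hg (Units.mk0 _ hn0))
    have hord : orderOf g = nm q - 1 := by
      rw [orderOf_eq_card_of_forall_mem_zpowers hg, Nat.card_eq_fintype_card, ZMod.card_units]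
    have h5 : g ^ (a * k) = 1 := by
      rw [zpow_mul, ha]
      ext
      simp only [zpow_natCast, Units.val_pow_eq_pow_val, Units.val_mk0, Units.val_one]
      rw [← hk']; exact h4
    have h6 : ((orderOf g : ℕ) : ℤ) ∣ a * k := orderOf_dvd_iff_zpow_eq_one.2 h5
    rw [hord, hk] at h6
    have hkpos : 0 < k := by
      have := hq.two_le
      omega
    have h7 : (3 : ℤ) ∣ a := by
      push_cast at h6
      exact (mul_dvd_mul_iff_right (by exact_mod_cast hkpos.ne')).1 h6
    obtain ⟨c, hc⟩ := h7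
    have h8 : (g ^ c) ^ 3 = Units.mk0 _ hn0 := by
      rw [← ha, hc, mul_comm, zpow_mul]; norm_cast
    have h9 : ∃ y : ZMod (nm q), y ^ 3 = (n : ZMod (nm q)) := by
      refine ⟨((g ^ c : (ZMod (nm q))ˣ) : ZMod (nm q)), ?_⟩
      have h9 := congrArg (fun u : (ZMod (nm q))ˣ => (u : ZMod (nm q))) h8
      simp only [Units.val_pow_eq_pow_val, Units.val_mk0] at h9
      exact h9
    obtain ⟨y, hy⟩ := h9
    refine ⟨((y.val : ℕ) : ℤ), ?_⟩
    rw [← ZMod.intCast_zmod_eq_zero_iff_dvd]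
    push_cast
    rw [ZMod.natCast_zmod_val, hy, sub_self]
  · rintro ⟨x, hx⟩
    have h1 : q ∣ (n : Eis) - (x : Eis) ^ 3 := by
      have := (int_dvd_iff hq (x ^ 3 - n)).2 hx
      push_cast at this
      rwa [dvd_sub_comm]
    have hqx : ¬ q ∣ (x : Eis) := by
      intro h
      have h2 := dvd_add h1 (Dvd.dvd.pow h (show 3 ≠ 0 by norm_num))
      rw [sub_add_cancel] at h2
      exact hqn h2
    have hqx2 : ¬ q ∣ (x : Eis) * x := fun h => (hqp.dvd_or_dvd h).elim hqx hqx
    rw [cs_congr hqp h3' h1, show (x : Eis) ^ 3 = x * x * x by ring, cs_mul hqp h3' hqx2 hqx, cs_mul hqp h3' hqx hqx]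
    generalize cs q (x : Eis) = y
    revert y
    decide

/-- there are cubic non-residues modulo every prime `q` prime to 3 -/
theorem exists_cs_eq {q : Eis} (hq : Prime q) (h3 : ¬ 3 ∣ nm q) (j : ZMod 3) : ∃ b : Eis, ¬ q ∣ b ∧ cs q b = j := by
  have hq1 : ¬ q ∣ (1 : Eis) := fun h => hq.not_isUnit (isUnit_of_dvd_one h)
  have key : ∃ b : Eis, ¬ q ∣ b ∧ cs q b ≠ 0 := by
    by_contra hcon
    push Not at hcon
    classical
    obtain ⟨S, hS⟩ := exists_CRS hq.ne_zero
    have hcard := card_CRS hq.ne_zero hS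
    haveI : (Ideal.span {q} : Ideal Eis).IsPrime := (Ideal.span_singleton_prime hq.ne_zero).2 hq
    let F := Eis ⧸ (Ideal.span {q} : Ideal Eis)
    let π : Eis →+* F := Ideal.Quotient.mk _
    have hπ : ∀ x y : Eis, π x = π y ↔ q ∣ x - y := by
      intro x y
      rw [Ideal.Quotient.eq, Ideal.mem_span_singleton]
    have hinj : Set.InjOn π (S : Set Eis) := by
      intro x hx y hy h
      exact hS.1 x hx y hy ((hπ x y).1 h)
    obtain ⟨k, hk⟩ := nm_sub_one_dvd h3
    have hk' : (nm q - 1) / 3 = k := by omega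
    have hN0 : nm q ≠ 0 := fun h => hq.ne_zero ((nm_eq_zero q).1 h)
    have hN1 := prime_nm_ne_one hq
    have hkpos : 0 < k := by omega
    have hsub : (S.image π).erase 0 ⊆ (Polynomial.nthRoots k (1 : F)).toFinset := by
      intro y hy
      rw [Finset.mem_erase, Finset.mem_image] at hy
      obtain ⟨hy0, x, hx, rfl⟩ := hy
      rw [Multiset.mem_toFinset, Polynomial.mem_nthRoots hkpos, ← map_pow]
      have hxq : ¬ q ∣ x := by
        intro h
        apply hy0
        rw [← map_zero π, hπ, sub_zero]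
        exact h
      have h1 := cs_spec hq h3 hxq
      rw [hcon x hxq, hk'] at h1
      have e0 : (0 : ZMod 3).val = 0 := rfl
      rw [e0, pow_zero] at h1
      rw [← map_one π, hπ]
      exact h1
    have h1 := Finset.card_le_card hsub
    have h2 : ((Polynomial.nthRoots k (1 : F)).toFinset).card ≤ k :=
      (Multiset.toFinset_card_le _).trans (Polynomial.card_nthRoots k 1)
    have h4 : (S.image π).card = nm q := by rw [Finset.card_image_of_injOn hinj, hcard]
    have h5 := Finset.pred_card_le_card_erase (s := S.image π) (a := 0)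
    omega
  obtain ⟨b, hb, hb0⟩ := key
  have hb2 : cs q (b * b) = cs q b + cs q b := cs_mul hq h3 hb hb
  have hbb : ¬ q ∣ b * b := fun h => (hq.dvd_or_dvd h).elim hb hb
  have hfin : ∀ c : ZMod 3, c ≠ 0 → ∀ j : ZMod 3, j = 0 ∨ j = c ∨ j = c + c := by decide
  rcases hfin _ hb0 j with rfl | rfl | rfl
  · exact ⟨1, hq1, cs_one hq h3⟩
  · exact ⟨b, hb, rfl⟩
  · exact ⟨b * b, hbb, hb2⟩

end MPd9f52e
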