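import Mathlib
import Pool.Agent.Lib.MP_d9f52e_nt.RSym

/-!
# RJac: the cubic Jacobi sum

`q` with `nm q = p` prime, `q = 1 mod 3` (so `p = 1 mod 3`).  `chi x = om^(cs q x)` for `x` a nonzero class mod `p` (well defined: `int_dvd_iff`, `cs_congr`), a multiplicative character of `ZMod p`
with values in `Eis`, nontrivial (`exists_cs_eq` + `exists_int`), `chi^3 = 1`.  `J = jacobiSum chi chi`.
(1) `q | J`: `q` divides `x^((p-1)/3) - chi x`, so mod `q` (`Eis/q`, a field with `p` elements) `J = sum_x x^((p-1)/3) (1-x)^((p-1)/3)`, and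
`sum_x x^i = 0` for `i < p - 1` (FiniteField.sum_pow_lt_card_sub_one).
(2) `nm J = p`: `jacobiSum_mul_jacobiSum_inv` (`J(chi,chi) J(chi^-1,chi^-1) = p`) and `J(chi^-1,chi^-1) = star J`.
(3) `3 | J + 1`: `exists_jacobiSum_eq_neg_one_add` gives `J = -1 + z (om - 1)^2`, `(om-1)^2 = -3 om`.
(4) so `J = e q` with a unit `e` (norms), `3 | e q + 1`, `3 | q - 1`, `3 | e + 1`, `e = -1` (`unit_congr`).
-/

set_option autoImplicit false

namespace MPd9f52e

open Complex

private lemma om_add (a b : ZMod 3) : om ^ (a + b).val = om ^ a.val * om ^ b.val := by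
  rw [ZMod.val_add, ← pow_add]
  exact (pow_eq_pow_mod _ om_pow_three).symm

private lemma om_ne_one : om ≠ 1 := by
  intro h
  have := congrArg QuadraticAlgebra.im h
  rw [QuadraticAlgebra.im_one] at this
  exact one_ne_zero this

private lemma om_pow_ne_zero (j : ℕ) : om ^ j ≠ 0 := by
  intro h
  have h2 : nm (om ^ j) = 0 := by rw [h]; simp [nm]
  rw [nm_pow, nm_om, one_pow] at h2
  exact one_ne_zero h2

private lemma q_dvd_p {p : ℕ} {q : Eis} (hq : nm q = p) : q ∣ (p : Eis) := by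
  rw [← hq, ← mul_star_self]; exact dvd_mul_right _ _

private lemma p_mod {q : Eis} (h1 : (3 : Eis) ∣ q - 1) :
    ¬ 3 ∣ nm q := by
  intro h
  have h2 : s3 ∣ q := (s3_dvd_iff q).2 h
  have h3 : s3 ∣ (3 : Eis) := ⟨-s3, by linear_combination s3_sq⟩
  have h4 : s3 ∣ (1 : Eis) := by
    have := dvd_sub h2 (h3.trans h1)
    simpa using this
  exact prime_s3.not_isUnit (isUnit_of_dvd_one h4)

private lemma sum_zmod {p : ℕ} [Fact p.Prime] (k : ℕ) (hk : 2 * k < p - 1) :
    ∑ x : ZMod p, x ^ k * (1 - x) ^ k = 0 := by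
  let P : Polynomial (ZMod p) := Polynomial.X ^ k * (1 - Polynomial.X) ^ k
  have hdeg : P.natDegree < p - 1 := by
    refine lt_of_le_of_lt ?_ hk
    refine (Polynomial.natDegree_mul_le).trans ?_
    have h1 : (Polynomial.X ^ k : Polynomial (ZMod p)).natDegree ≤ k := Polynomial.natDegree_X_pow_le k
    have h2 : ((1 - Polynomial.X) ^ k : Polynomial (ZMod p)).natDegree ≤ k := by
      refine (Polynomial.natDegree_pow_le).trans ?_
      have : (1 - Polynomial.X : Polynomial (ZMod p)).natDegree ≤ 1 := by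
        refine (Polynomial.natDegree_sub_le _ _).trans ?_
        simp
      nlinarith
    omega
  have hev : ∀ x : ZMod p, x ^ k * (1 - x) ^ k = ∑ i ∈ Finset.range (p - 1), P.coeff i * x ^ i := by
    intro x
    rw [← Polynomial.eval_eq_sum_range' hdeg x]
    simp [P]
  simp_rw [hev]
  rw [Finset.sum_comm]
  refine Finset.sum_eq_zero fun i hi => ?_
  rw [← Finset.mul_sum, FiniteField.sum_pow_lt_card_sub_one, mul_zero]
  rw [ZMod.card p]
  exact Finset.mem_range.1 hi

theorem exists_chi {p : ℕ} [Fact p.Prime] {q : Eis} (hq : nm q = p) (h1 : (3 : Eis) ∣ q - 1) :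
    ∃ chi : MulChar (ZMod p) Eis, chi ^ 3 = 1 ∧ chi ≠ 1 ∧
      (∀ x : ℤ, ¬ (p : ℤ) ∣ x → chi (x : ZMod p) = om ^ (cs q (x : Eis)).val) ∧ jacobiSum chi chi = -q := by
  classical
  have hp : p.Prime := Fact.out
  have h3 : ¬ 3 ∣ nm q := p_mod h1
  have hqn : (nm q).Prime := by rw [hq]; exact hp
  have hqp : Prime q := prime_of_nm hqn
  have hdvd : ∀ x : ℤ, q ∣ (x : Eis) ↔ (p : ℤ) ∣ x := by
    intro x; rw [int_dvd_iff hqn, hq]
  have hval : ∀ x : ZMod p, x ≠ 0 → ¬ q ∣ ((x.val : ℤ) : Eis) := by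
    intro x hx h
    rw [hdvd] at h
    apply hx
    have h2 : ((x.val : ℤ) : ZMod p) = 0 := (ZMod.intCast_zmod_eq_zero_iff_dvd _ _).2 h
    simpa using h2
  have hvalc : ∀ x : ℤ, q ∣ (((x : ZMod p).val : ℤ) : Eis) - (x : Eis) := by
    intro x
    have h2 : ((((x : ZMod p).val : ℤ) - x : ℤ) : ZMod p) = 0 := by
      push_cast
      simp
    have h3 : (p : ℤ) ∣ (((x : ZMod p).val : ℤ) - x) := (ZMod.intCast_zmod_eq_zero_iff_dvd _ _).1 h2
    have h4 := (hdvd _).2 h3
    rw [Int.cast_sub] at h4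
    exact h4
  have hcsm : ∀ x y : ZMod p, x ≠ 0 → y ≠ 0 → cs q (((x * y).val : ℤ) : Eis) =
      cs q ((x.val : ℤ) : Eis) + cs q ((y.val : ℤ) : Eis) := by
    intro x y hx hy
    rw [← cs_mul hqp h3 (hval x hx) (hval y hy)]
    apply cs_congr hqp h3
    have h5 := hvalc ((x.val : ℤ) * (y.val : ℤ))
    have h6 : (((x.val : ℤ) * (y.val : ℤ) : ℤ) : ZMod p) = x * y := by
      push_cast
      simp
    rw [h6] at h5
    rw [Int.cast_mul] at h5
    exact h5
  let chi : MulChar (ZMod p) Eis :=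
    { toFun := fun x => if x = 0 then 0 else om ^ (cs q ((x.val : ℤ) : Eis)).val
      map_one' := by
        rw [if_neg one_ne_zero]
        have h5 : cs q (((1 : ZMod p).val : ℤ) : Eis) = cs q 1 := by
          apply cs_congr hqp h3
          have := hvalc 1
          simpa using this
        rw [h5, cs_one hqp h3]
        simp
      map_mul' := by
        intro x y
        by_cases hx : x = 0
        · simp [hx]
        by_cases hy : y = 0
        · simp [hy]
        have hxy : x * y ≠ 0 := mul_ne_zero hx hy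
        rw [if_neg hx, if_neg hy, if_neg hxy, hcsm x y hx hy, om_add]
      map_nonunit' := by
        intro a ha
        have : a = 0 := by
          by_contra h
          exact ha (isUnit_iff_ne_zero.2 h)
        change (if a = 0 then (0 : Eis) else om ^ (cs q ((a.val : ℤ) : Eis)).val) = 0
        rw [if_pos this] }
  have hchi : ∀ x : ZMod p, chi x = if x = 0 then 0 else om ^ (cs q ((x.val : ℤ) : Eis)).val :=
    fun x => rfl
  have hchiZ : ∀ x : ℤ, ¬ (p : ℤ) ∣ x → chi (x : ZMod p) = om ^ (cs q (x : Eis)).val := by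
    intro x hx
    have hx0 : (x : ZMod p) ≠ 0 := fun h => hx ((ZMod.intCast_zmod_eq_zero_iff_dvd _ _).1 h)
    rw [hchi, if_neg hx0, cs_congr hqp h3 (hvalc x)]
  have hom3 : ∀ j : ℕ, (om ^ j) ^ 3 = 1 := by
    intro j
    rw [← pow_mul, mul_comm, pow_mul, om_pow_three, one_pow]
  have hchi3 : chi ^ 3 = 1 := by
    refine MulChar.ext fun a => ?_
    rw [MulChar.pow_apply_coe, MulChar.one_apply_coe, hchi, if_neg a.ne_zero, hom3]
  have hchi1 : chi ≠ 1 := by
    intro h
    obtain ⟨b, hb, hb1⟩ := exists_cs_eq hqp h3 1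
    obtain ⟨x, hx⟩ := exists_int hqn b
    have hx2 : ¬ (p : ℤ) ∣ x := by
      intro h2
      rw [← hdvd] at h2
      apply hb
      have := dvd_add hx h2
      simpa using this
    have h5 := hchiZ x hx2
    rw [← cs_congr hqp h3 hx, hb1, h] at h5
    have hu : IsUnit (x : ZMod p) := isUnit_iff_ne_zero.2
      (fun h => hx2 ((ZMod.intCast_zmod_eq_zero_iff_dvd _ _).1 h))
    rw [MulChar.one_apply hu] at h5
    apply om_ne_one
    have h6 : ((1 : ZMod 3)).val = 1 := rfl
    rw [h6, pow_one] at h5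
    exact h5.symm
  refine ⟨chi, hchi3, hchi1, hchiZ, ?_⟩
  set J := jacobiSum chi chi with hJ
  -- p = 1 mod 3
  have hp3 : 3 ∣ p - 1 := by have := nm_sub_one_dvd h3; rwa [hq] at this
  obtain ⟨k, hk⟩ := hp3
  have hkdiv : (nm q - 1) / 3 = k := by rw [hq, hk]; simp
  have hp2 : 2 ≤ p := hp.two_le
  have hk0 : k ≠ 0 := by rintro rfl; omega
  -- (1)
  have hcong : ∀ x : ZMod p, q ∣ chi x - ((x.val : ℤ) : Eis) ^ k := by
    intro x
    by_cases hx : x = 0
    · rw [hchi, if_pos hx, hx]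
      simp [hk0]
    · rw [hchi, if_neg hx]
      have h5 := cs_spec hqp h3 (hval x hx)
      rw [hkdiv] at h5
      have := (dvd_neg).2 h5
      simpa using this
  have hqJ : q ∣ J := by
    have h5 : q ∣ J - ∑ x : ZMod p, ((x.val : ℤ) : Eis) ^ k * (((1 - x).val : ℤ) : Eis) ^ k := by
      rw [hJ, jacobiSum, ← Finset.sum_sub_distrib]
      refine Finset.dvd_sum fun x _ => ?_
      have h6 : chi x * chi (1 - x) - ((x.val : ℤ) : Eis) ^ k * (((1 - x).val : ℤ) : Eis) ^ k =
        chi x * (chi (1 - x) - (((1 - x).val : ℤ) : Eis) ^ k) +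
          (chi x - ((x.val : ℤ) : Eis) ^ k) * (((1 - x).val : ℤ) : Eis) ^ k := by ring
      rw [h6]
      exact dvd_add (dvd_mul_of_dvd_right (hcong _) _) (dvd_mul_of_dvd_left (hcong _) _)
    have h6 : q ∣ ∑ x : ZMod p, ((x.val : ℤ) : Eis) ^ k * (((1 - x).val : ℤ) : Eis) ^ k := by
      have h7 : (∑ x : ZMod p, ((x.val : ℤ) : Eis) ^ k * (((1 - x).val : ℤ) : Eis) ^ k) =
          ((∑ x : ZMod p, (x.val : ℤ) ^ k * ((1 - x).val : ℤ) ^ k : ℤ) : Eis) := by
        push_cast
        rfl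
      rw [h7, hdvd, ← ZMod.intCast_zmod_eq_zero_iff_dvd]
      rw [Int.cast_sum]
      have h8 : ∀ x : ZMod p, (((x.val : ℤ) ^ k * ((1 - x).val : ℤ) ^ k : ℤ) : ZMod p) =
          x ^ k * (1 - x) ^ k := by
        intro x
        push_cast
        simp
      simp_rw [h8]
      apply sum_zmod
      omega
    have := dvd_add h5 h6
    simpa using this
  -- (2)
  have hinv : ∀ x : ZMod p, chi⁻¹ x = star (chi x) := by
    intro x
    have hinv2 : chi⁻¹ = chi ^ 2 := by
      rw [inv_eq_iff_mul_eq_one, ← hchi3, pow_succ' chi 2]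
    by_cases hx : x = 0
    · rw [hx, MulChar.map_zero, MulChar.map_zero, star_zero]
    · have hu : IsUnit x := isUnit_iff_ne_zero.2 hx
      rw [hinv2]
      rw [MulChar.pow_apply' _ (by norm_num), hchi, if_neg hx, star_pow, star_om]
      ring
  have hJinv : jacobiSum chi⁻¹ chi⁻¹ = star J := by
    rw [hJ, jacobiSum, jacobiSum, star_sum]
    refine Finset.sum_congr rfl fun x _ => ?_
    rw [hinv, hinv, star_mul, mul_comm]
  have hchi2 : chi * chi ≠ 1 := by
    intro h
    apply hchi1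
    have h5 : chi ^ 3 = chi * chi * chi := by rw [pow_succ, pow_two]
    rw [hchi3, h, one_mul] at h5
    exact h5.symm
  have hJn : J * star J = (p : Eis) := by
    apply ec_inj
    rw [map_mul, ← hJinv, hJ, ← jacobiSum_ringHomComp, ← jacobiSum_ringHomComp, map_natCast]
    have h5 : (chi⁻¹).ringHomComp ec = (chi.ringHomComp ec)⁻¹ :=
      (MulChar.ringHomComp_inv chi ec).symm
    rw [h5]
    have h6 := jacobiSum_mul_jacobiSum_inv (F := ZMod p) (F' := ℂ) (χ := chi.ringHomComp ec)
      (φ := chi.ringHomComp ec) (by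
        rw [ringChar.eq_zero, ZMod.ringChar_zmod_n]
        exact hp.ne_zero.symm)
      ((MulChar.ringHomComp_ne_one_iff ec_inj).2 hchi1)
      ((MulChar.ringHomComp_ne_one_iff ec_inj).2 hchi1)
      (by
        rw [← MulChar.ringHomComp_mul]
        exact (MulChar.ringHomComp_ne_one_iff ec_inj).2 hchi2)
    rw [h6, ZMod.card p]
  have hnmJ : nm J = p := by
    rw [mul_star_self] at hJn
    have h5 : (nm J : Eis) ∣ (p : Eis) := by rw [hJn]
    have h6 : (p : Eis) ∣ (nm J : Eis) := by rw [hJn]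
    exact Nat.dvd_antisymm (natCast_dvd.1 h5) (natCast_dvd.1 h6)
  -- (3)
  have hprim : IsPrimitiveRoot om 3 := by
    refine IsPrimitiveRoot.mk_of_lt om (by norm_num) om_pow_three ?_
    intro l hl hl3 h
    have : l = 1 ∨ l = 2 := by omega
    rcases this with rfl | rfl
    · rw [pow_one] at h; exact om_ne_one h
    · have h5 := om_pow_three
      rw [show (3 : ℕ) = 2 + 1 from rfl, pow_succ, h, one_mul] at h5
      exact om_ne_one h5
  have hJ3 : (3 : Eis) ∣ J + 1 := by
    obtain ⟨z, -, hz⟩ := exists_jacobiSum_eq_neg_one_add (n := 3) (by norm_num) (χ := chi) (ψ := chi)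
      (μ := om) hchi3 hchi3 (by rw [ZMod.card p, hk]; exact dvd_mul_right _ _) hprim
    rw [← hJ] at hz
    refine ⟨-(z * om), ?_⟩
    rw [hz]
    linear_combination z * om_sq
  -- (4)
  obtain ⟨e, he⟩ := hqJ
  have hne : nm e = 1 := by
    have h5 := hnmJ
    rw [he, nm_mul, hq] at h5
    exact Nat.eq_of_mul_eq_mul_left hp.pos (by rw [h5, mul_one])
  have hue : IsUnit e := (unit_iff e).2 hne
  obtain ⟨eu, heu⟩ := hue
  have hm1 : (3 : Eis) ∣ (eu : Eis) - ((-1 : Eisˣ) : Eis) := by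
    rw [heu]
    have h5 : e - ((-1 : Eisˣ) : Eis) = (J + 1) - e * (q - 1) := by
      rw [he]
      push_cast
      ring
    rw [h5]
    exact dvd_sub hJ3 (dvd_mul_of_dvd_right h1 _)
  have h5 : eu = -1 := by
    apply unit_congr _ hm1
    have h6 : nm (3 : Eis) = 9 := by
      have := nm_natCast 3
      simpa using this
    rw [h6]; norm_num
  rw [he, ← heu, h5]
  push_cast
  ring

end MPd9f52e
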