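import Mathlib
import Pool.Agent.Lib.MP_d9f52e_nt.RJac

/-!
# RRec: cubic reciprocity with a rational prime

`r` a prime number `<> 3`, `q` a prime of `Eis` of prime norm `p <> r`, `q = 1 mod 3`.
With `chi` from `exists_chi`, a field `k` of characteristic `r` and `f : Eis -> k`, the Gauss sum
`g = gaussSum (chi o f) psi` satisfies `g^3 = - p f(q)` and, for `r^e = 1 mod 3`,
`chi(r)^e g^(r^e) = g` (Frobenius).  Hence `f(om)^(e cs q r) (-p f(q))^((r^e-1)/3) = 1` (`key`).
Take `k = Eis / lam` for a prime `lam` above `r`, `nm lam = r^e`: `f(b)^((r^e-1)/3) = f(om)^(cs lam b)`,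
so `e cs q r + cs lam p + cs lam q = 0` (`key2`), and `p = q star q`.
-/

set_option autoImplicit false

namespace MPd9f52e

open Complex

private lemma om_ne_one' : om ≠ 1 := by
  intro h
  have := congrArg QuadraticAlgebra.im h
  rw [QuadraticAlgebra.im_one] at this
  exact one_ne_zero this

private lemma p_mod' {q : Eis} (h1 : (3 : Eis) ∣ q - 1) : ¬ 3 ∣ nm q := by
  intro h
  have h2 : s3 ∣ q := (s3_dvd_iff q).2 h
  have h3 : s3 ∣ (3 : Eis) := ⟨-s3, by linear_combination s3_sq⟩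
  have h4 : s3 ∣ (1 : Eis) := by
    have := dvd_sub h2 (h3.trans h1)
    simpa using this
  exact prime_s3.not_isUnit (isUnit_of_dvd_one h4)

/-- in a field of characteristic not 3 the image of `om` is not `1` -/
private lemma fom_ne_one {r : ℕ} [Fact r.Prime] (hr3 : r ≠ 3) {k : Type} [Field k] [CharP k r]
    (f : Eis →+* k) : f om ≠ 1 := by
  intro h
  have h2 := congrArg f om_sq
  rw [map_pow, map_sub, map_neg, map_one, h] at h2
  have h3 : ((3 : ℕ) : k) = 0 := by
    push_cast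
    linear_combination h2
  rw [CharP.cast_eq_zero_iff k r 3] at h3
  exact hr3 ((Nat.prime_dvd_prime_iff_eq Fact.out Nat.prime_three).1 h3)

private lemma fom_pow {r : ℕ} [Fact r.Prime] (hr3 : r ≠ 3) {k : Type} [Field k] [CharP k r]
    (f : Eis →+* k) {j : ℕ} (h : f om ^ j = 1) : (j : ZMod 3) = 0 := by
  rw [ZMod.natCast_eq_zero_iff]
  have h3 : f om ^ 3 = 1 := by rw [← map_pow, om_pow_three, map_one]
  have h1 := fom_ne_one (r := r) hr3 f
  rw [pow_eq_pow_mod j h3] at h
  by_contra hj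
  have : j % 3 = 1 ∨ j % 3 = 2 := by omega
  rcases this with h5 | h5
  · rw [h5, pow_one] at h; exact h1 h
  · rw [h5] at h
    apply h1
    have h6 : f om ^ 3 = f om ^ 2 * f om := by ring
    rw [h3, h, one_mul] at h6
    exact h6.symm

private lemma key {r p : ℕ} [Fact r.Prime] [Fact p.Prime] (hrp : r ≠ p) (hr3 : r ≠ 3)
    {k : Type} [Field k] [CharP k r] {q : Eis} (hq : nm q = p) (h1 : (3 : Eis) ∣ q - 1)
    (f : Eis →+* k) (e : ℕ) (he : r ^ e % 3 = 1) :
    (f om ^ (cs q (r : Eis)).val) ^ e * (-(p : k) * f q) ^ ((r ^ e - 1) / 3) = 1 := by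
  classical
  have hp : p.Prime := Fact.out
  have hr : r.Prime := Fact.out
  have h3 : ¬ 3 ∣ nm q := p_mod' h1
  have hqn : (nm q).Prime := by rw [hq]; exact hp
  have hqp : Prime q := prime_of_nm hqn
  obtain ⟨chi, hc3, hc1, hcZ, hJ⟩ := exists_chi hq h1
  have hchar : ringChar k ≠ ringChar (ZMod p) := by
    rw [ZMod.ringChar_zmod_n, ringChar.eq k r]
    exact hrp
  let ps := AddChar.FiniteField.primitiveChar (ZMod p) k hchar
  let A := CyclotomicField ps.n k
  have : CharP A r := charP_of_injective_algebraMap (algebraMap k A).injective r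
  let F : Eis →+* A := (algebraMap k A).comp f
  have hFdef : ∀ x, F x = algebraMap k A (f x) := fun x => rfl
  let c : MulChar (ZMod p) A := chi.ringHomComp F
  have hc : ∀ x, c x = F (chi x) := fun x => rfl
  have hFom3 : F om ^ 3 = 1 := by rw [← map_pow, om_pow_three, map_one]
  have hinj : ∀ j : ℕ, F om ^ j = 1 → (j : ZMod 3) = 0 := by
    intro j hj
    apply fom_pow (r := r) hr3 f
    rw [hFdef, ← map_pow] at hj
    exact (algebraMap k A).injective (by rw [hj, map_one])
  -- values of chi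
  have hchiv : ∀ a : (ZMod p)ˣ, ∃ j : ℕ, chi a = om ^ j := by
    intro a
    have h5 : ¬ (p : ℤ) ∣ (((a : ZMod p).val : ℤ)) := by
      intro h
      have h2 : ((((a : ZMod p).val : ℤ)) : ZMod p) = 0 := (ZMod.intCast_zmod_eq_zero_iff_dvd _ _).2 h
      have h6 : (a : ZMod p) = 0 := by simpa using h2
      exact a.ne_zero h6
    have h6 := hcZ _ h5
    have h7 : ((((a : ZMod p).val : ℤ)) : ZMod p) = a := by simp
    rw [h7] at h6
    exact ⟨_, h6⟩
  have hc3' : c ^ 3 = 1 := by
    refine MulChar.ext fun a => ?_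
    rw [MulChar.pow_apply_coe, MulChar.one_apply_coe, hc, ← map_pow]
    obtain ⟨j, hj⟩ := hchiv a
    rw [hj, ← pow_mul, mul_comm, pow_mul, om_pow_three, one_pow, map_one]
  have hc1' : c ≠ 1 := by
    intro h
    apply hc1
    refine MulChar.ext fun a => ?_
    obtain ⟨j, hj⟩ := hchiv a
    have h5 : c a = 1 := by rw [h, MulChar.one_apply_coe]
    rw [hc, hj, map_pow] at h5
    have h6 := hinj j h5
    rw [ZMod.natCast_eq_zero_iff] at h6
    obtain ⟨m, rfl⟩ := h6
    rw [hj, MulChar.one_apply_coe, pow_mul, om_pow_three, one_pow]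
  have hcc : c * c ≠ 1 := by
    intro h
    apply hc1'
    have h5 : c ^ 3 = c * c * c := by rw [pow_succ, pow_two]
    rw [hc3', h, one_mul] at h5
    exact h5.symm
  have hccinv : c * c = c⁻¹ := by
    symm
    rw [inv_eq_iff_mul_eq_one, ← hc3', pow_succ' c 2, pow_two]
  -- c(-1) = 1
  have hcm : c (-1) = 1 := by
    have h5 : ¬ (p : ℤ) ∣ (-1 : ℤ) := by
      intro h
      have h6 : (p : ℤ) ∣ 1 := by simpa using h
      exact hp.one_lt.ne' (by exact_mod_cast Int.eq_one_of_dvd_one (by positivity) h6)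
    have h6 := hcZ (-1) h5
    have h7 : (((-1 : ℤ)) : ZMod p) = -1 := by push_cast; rfl
    have h8 : (((-1 : ℤ)) : Eis) = -1 := by push_cast; rfl
    rw [h7, h8, cs_neg_one hqp h3] at h6
    rw [hc, h6]
    simp
  set g := gaussSum c ps.char with hg
  have hprod : g * gaussSum c⁻¹ ps.char⁻¹ = (p : A) := by
    have h5 := gaussSum_mul_gaussSum_eq_card hc1' ps.prim
    rw [ZMod.card p] at h5
    exact h5
  have hinvg : gaussSum c⁻¹ ps.char = gaussSum c⁻¹ ps.char⁻¹ := by
    have h5 := mul_gaussSum_inv_eq_gaussSum c⁻¹ ps.char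
    rw [MulChar.inv_apply', inv_neg_one, hcm, one_mul] at h5
    exact h5.symm
  have hg3 : g ^ 3 = -(p : A) * F q := by
    have h5 := jacobiSum_mul_nontrivial hcc ps.char
    rw [hccinv, hinvg] at h5
    have h6 : jacobiSum c c = F (-q) := by rw [← hJ]; exact jacobiSum_ringHomComp _ _ _
    rw [h6, map_neg] at h5
    have h7 : g ^ 3 = g * (g * g) := by ring
    rw [h7, ← h5]
    linear_combination (-(F q)) * hprod
  have hpA : (p : A) ≠ 0 := by
    intro h
    rw [CharP.cast_eq_zero_iff A r p] at h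
    exact hrp ((Nat.prime_dvd_prime_iff_eq hr hp).1 h)
  have hg0 : g ≠ 0 := by
    intro h
    rw [h, zero_mul] at hprod
    exact hpA hprod.symm
  -- Frobenius
  have hfrob : ∀ n : ℕ, g ^ (r ^ n) = gaussSum (c ^ (r ^ n)) (ps.char ^ (r ^ n)) := by
    intro n
    induction n with
    | zero => rw [pow_zero, pow_one, pow_one, pow_one]
    | succ n ih =>
      rw [pow_succ, pow_mul, ih, gaussSum_frob r, ← pow_mul, ← pow_mul]
  have hre : c ^ (r ^ e) = c := by
    have h5 : r ^ e = 3 * (r ^ e / 3) + 1 := by omega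
    rw [h5, pow_succ, pow_mul, hc3', one_pow, one_mul]
  have hunit : IsUnit ((r ^ e : ℕ) : ZMod p) := by
    rw [ZMod.isUnit_iff_coprime]
    exact Nat.Coprime.pow_left _ ((Nat.coprime_primes hr hp).2 hrp)
  have hge : c ((r ^ e : ℕ) : ZMod p) * g ^ (r ^ e) = g := by
    rw [hfrob e, hre, AddChar.pow_mulShift]
    have h5 := gaussSum_mulShift c ps.char hunit.unit
    rw [hunit.unit_spec] at h5
    exact h5
  have hcr : c ((r ^ e : ℕ) : ZMod p) = (F om ^ (cs q (r : Eis)).val) ^ e := by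
    have h5 : ¬ (p : ℤ) ∣ ((r : ℤ)) := by
      intro h
      have h6 : p ∣ r := by exact_mod_cast h
      exact hrp ((Nat.prime_dvd_prime_iff_eq hp hr).1 h6).symm
    have h6 := hcZ _ h5
    have h7 : (((r : ℤ)) : ZMod p) = (r : ZMod p) := by push_cast; rfl
    have h8 : (((r : ℤ)) : Eis) = (r : Eis) := by push_cast; rfl
    rw [h7, h8] at h6
    rw [Nat.cast_pow, map_pow, hc, h6, map_pow]
  have hfin : (F om ^ (cs q (r : Eis)).val) ^ e * (-(p : A) * F q) ^ ((r ^ e - 1) / 3) = 1 := by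
    rw [← hcr, ← hg3, ← pow_mul]
    have h5 : 3 * ((r ^ e - 1) / 3) + 1 = r ^ e := by omega
    apply mul_right_cancel₀ hg0
    rw [one_mul, mul_assoc, ← pow_succ, h5]
    exact hge
  apply (algebraMap k A).injective
  rw [map_one, ← hfin]
  simp only [map_mul, map_pow, map_neg, map_natCast, hFdef]

private lemma natCast_dvd_self {p : ℕ} {q : Eis} (hq : nm q = p) : q ∣ (p : Eis) := by
  rw [← hq, ← mul_star_self]; exact dvd_mul_right _ _

private lemma key2 {r p : ℕ} [Fact r.Prime] [Fact p.Prime] (hrp : r ≠ p) (hr3 : r ≠ 3)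
    {q l : Eis} (hq : nm q = p) (h1 : (3 : Eis) ∣ q - 1) (hl : Prime l) (e : ℕ) (hnl : nm l = r ^ e)
    (hlr : l ∣ (r : Eis)) (he : r ^ e % 3 = 1) :
    (e : ZMod 3) * cs q (r : Eis) + cs l (p : Eis) + cs l q = 0 := by
  classical
  have hp : p.Prime := Fact.out
  have hr : r.Prime := Fact.out
  have hmax : (Ideal.span {l}).IsMaximal := PrincipalIdealRing.isMaximal_of_irreducible hl.irreducible
  let _ : Field (Eis ⧸ Ideal.span {l}) := Ideal.Quotient.field _
  let f : Eis →+* (Eis ⧸ Ideal.span {l}) := Ideal.Quotient.mk _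
  have hf0 : ∀ x, f x = 0 ↔ l ∣ x := by
    intro x
    change (Ideal.Quotient.mk (Ideal.span {l})) x = 0 ↔ l ∣ x
    rw [Ideal.Quotient.eq_zero_iff_mem, Ideal.mem_span_singleton]
  have : CharP (Eis ⧸ Ideal.span {l}) r := by
    have h5 : ((r : ℕ) : (Eis ⧸ Ideal.span {l})) = 0 := by
      have h6 := (hf0 (r : Eis)).2 hlr
      rw [map_natCast] at h6
      exact h6
    exact (CharP.charP_iff_prime_eq_zero hr).2 h5
  have h3l : ¬ 3 ∣ nm l := by
    rw [hnl]; omega
  have hlp : ¬ l ∣ (p : Eis) := by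
    intro h
    have h5 := nm_dvd h
    rw [nm_natCast, hnl] at h5
    have he0 : e ≠ 0 := by
      rintro rfl
      rw [pow_zero] at hnl
      exact hl.not_isUnit ((unit_iff l).2 hnl)
    have h6 : r ∣ p ^ 2 := (dvd_pow_self r he0).trans h5
    exact hrp ((Nat.prime_dvd_prime_iff_eq hr hp).1 (hr.dvd_of_dvd_pow h6))
  have hlq : ¬ l ∣ q := fun h => hlp (h.trans (natCast_dvd_self hq))
  have hpw : ∀ b : Eis, ¬ l ∣ b → f b ^ ((r ^ e - 1) / 3) = f om ^ (cs l b).val := by
    intro b hb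
    have h5 := cs_spec hl h3l hb
    rw [← hf0, map_sub, sub_eq_zero, map_pow, map_pow, hnl] at h5
    exact h5
  have hk := key (k := Eis ⧸ Ideal.span {l}) hrp hr3 hq h1 f e he
  have h5 : -(p : (Eis ⧸ Ideal.span {l})) * f q = f (-1) * f (p : Eis) * f q := by
    rw [map_neg, map_one, map_natCast]
    ring
  have hlm : ¬ l ∣ (-1 : Eis) := fun h => hl.not_isUnit (isUnit_of_dvd_one ((dvd_neg).1 h))
  rw [h5, mul_pow, mul_pow, hpw _ hlm, hpw _ hlp, hpw _ hlq, cs_neg_one hl h3l] at hk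
  rw [ZMod.val_zero, pow_zero, one_mul, ← pow_mul, ← pow_add, ← pow_add] at hk
  have h6 := fom_pow (r := r) hr3 f hk
  push_cast at h6
  rw [ZMod.natCast_zmod_val, ZMod.natCast_zmod_val, ZMod.natCast_zmod_val] at h6
  linear_combination h6

private lemma key3 {r p : ℕ} [Fact r.Prime] [Fact p.Prime] (hrp : r ≠ p) (hr3 : r ≠ 3)
    {q l : Eis} (hq : nm q = p) (h1 : (3 : Eis) ∣ q - 1) (hl : Prime l) (e : ℕ) (hnl : nm l = r ^ e)
    (hlr : l ∣ (r : Eis)) (he : r ^ e % 3 = 1) (hls : Prime (star l)) (hsr : star l ∣ (r : Eis)) :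
    (e : ZMod 3) * cs q (r : Eis) + 2 * cs l q - cs (star l) q = 0 := by
  have hp : p.Prime := Fact.out
  have hr : r.Prime := Fact.out
  have h5 := key2 hrp hr3 hq h1 hl e hnl hlr he
  have h3l : ¬ 3 ∣ nm l := by rw [hnl]; omega
  have h3s : ¬ 3 ∣ nm (star l) := by rw [nm_star]; exact h3l
  have hcop : ∀ {l' : Eis}, Prime l' → l' ∣ (r : Eis) → ¬ l' ∣ (p : Eis) := by
    intro l' hl' h h'
    have h6 : IsCoprime (r : Eis) (p : Eis) := by
      have h7 : IsCoprime ((r : ℤ)) ((p : ℤ)) := by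
        rw [Nat.isCoprime_iff_coprime]
        exact (Nat.coprime_primes hr hp).2 hrp
      have h8 := h7.map (Int.castRingHom Eis)
      simpa using h8
    exact hl'.not_isUnit (h6.isUnit_of_dvd' h h')
  have hlp := hcop hl hlr
  have hsp := hcop hls hsr
  have hqs : (p : Eis) = q * star q := by rw [mul_star_self, hq]
  have hlq : ¬ l ∣ q := fun h => hlp (h.trans (natCast_dvd_self hq))
  have hlsq : ¬ l ∣ star q := by
    intro h
    apply hlp
    rw [hqs]
    exact dvd_mul_of_dvd_right h _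
  have hsq : ¬ star l ∣ q := fun h => hsp (h.trans (natCast_dvd_self hq))
  have h6 : cs l (p : Eis) = cs l q + cs l (star q) := by
    rw [hqs, cs_mul hl h3l hlq hlsq]
  have h7 : cs l (star q) = -cs (star l) q := by
    have h8 := cs_star hls h3s hsq
    rw [star_star] at h8
    exact h8
  rw [h6, h7] at h5
  linear_combination h5

theorem recip_inert {r p : ℕ} [Fact r.Prime] [Fact p.Prime] (hr : r % 3 = 2) (hrp : r ≠ p) {q : Eis} (hq : nm q = p)
    (h1 : (3 : Eis) ∣ q - 1) : cs q (r : Eis) = cs (r : Eis) q := by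
  have hrr : r.Prime := Fact.out
  have hst : star (r : Eis) = (r : Eis) := by
    apply ec_inj
    rw [ec_star, map_natCast]
    simp
  have h5 := key3 (l := (r : Eis)) hrp (by omega) hq h1 (prime_inert hrr hr) 2 (nm_natCast r) dvd_rfl
    (by rw [Nat.pow_mod, hr]) (by rw [hst]; exact prime_inert hrr hr) (by rw [hst])
  rw [hst] at h5
  have h6 : (3 : ZMod 3) = 0 := rfl
  push_cast at h5
  linear_combination (-1 : ZMod 3) * h5 + (cs q (r : Eis)) * h6

theorem recip_split {r p : ℕ} [Fact r.Prime] [Fact p.Prime] (hr : r % 3 = 1) (hrp : r ≠ p) {q l : Eis} (hq : nm q = p)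
    (h1 : (3 : Eis) ∣ q - 1) (hl : nm l = r) : cs q (r : Eis) = cs l q + cs (star l) q := by
  have hrr : r.Prime := Fact.out
  have hlp : Prime l := prime_of_nm (by rw [hl]; exact hrr)
  have hsp : Prime (star l) := prime_of_nm (by rw [nm_star, hl]; exact hrr)
  have h5 := key3 (l := l) hrp (by omega) hq h1 hlp 1 (by rw [hl, pow_one]) (natCast_dvd_self hl)
    (by rw [pow_one]; exact hr) hsp (natCast_dvd_self (by rw [nm_star, hl]))
  have h6 : (3 : ZMod 3) = 0 := rfl
  push_cast at h5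
  linear_combination h5 - (cs l q) * h6

end MPd9f52e
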