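import Mathlib
import Pool.Agent.Lib.MP_d9f52e_nt.RRec

/-!
# RCsn: the symbols csp and csn  (about 250 lines)

`csp p b` is `cs l b + cs (star l) b` for any `l` of norm `p` (two choices are associated up to `star`), resp. `cs p b` if `p = 2 mod 3` (no element of norm `p`: `nm_mod_three`).
All properties of `csn n` (`n >= 1` prime to 3, arguments prime to `n`) follow from those of `cs` prime by prime.
`csn_int`: `csn n` of a rational integer `x` prime to `n` is real: `csp_star` gives `csp p x = - csp p x`, and `2 y = 0` in `ZMod 3` gives `y = 0`.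
`csn_om`: `cs l om = (p-1)/3` for each of the two primes above `p = 1 mod 3`, sum `2(p-1)/3 = (p^2-1)/3 mod 3` (`(p-1)(p+1)/3`, `p + 1 = 2 mod 3`); `p = 2 mod 3`: `(p^2-1)/3`.
Multiplicative in `n`: `((nk)^2-1)/3 = (n^2-1)/3 * k^2 + (k^2-1)/3`, and `k^2 = 1 mod 3`.
`cs_eq_csn`: multiplicativity of `cs q` and `recip_inert`, `recip_split`.
-/

set_option autoImplicit false

namespace MPd9f52e

open Complex

private lemma star_mul_cs {l l' c : Eis} (hc : IsUnit c) (h : l = c * l') (b : Eis) :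
    cs l b = cs l' b ∧ cs (star l) b = cs (star l') b := by
  obtain ⟨u, rfl⟩ := hc
  obtain ⟨u', hu'⟩ := star_unit u
  refine ⟨by rw [h, cs_assoc], ?_⟩
  have h2 : star l = (u' : Eis) * star l' := by
    rw [h, star_mul, hu', mul_comm]
  rw [h2, cs_assoc]

private lemma unit_of_nm_eq {p : ℕ} (hp : p.Prime) {a b c : Eis} (ha : nm a = p) (hb : nm b = p)
    (h : a = b * c) : IsUnit c := by
  rw [unit_iff]
  have h1 := congrArg nm h
  rw [nm_mul, ha, hb] at h1
  exact Nat.eq_of_mul_eq_mul_left hp.pos (by rw [mul_one]; exact h1.symm)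

theorem csp_eq {p : ℕ} (hp : p.Prime) {l : Eis} (hl : nm l = p) (h3 : p ≠ 3) (b : Eis) :
    csp p b = cs l b + cs (star l) b := by
  have hex : ∃ l : Eis, nm l = p := ⟨l, hl⟩
  unfold csp
  rw [dif_pos hex]
  have hl' : nm hex.choose = p := hex.choose_spec
  generalize hex.choose = l' at hl' ⊢
  rcases dvd_or_of_dvd_nm hp hl' (b := l) (by rw [hl]) with h | h
  · obtain ⟨c, hc⟩ := h
    have hu := unit_of_nm_eq hp hl hl' hc
    obtain ⟨h1, h2⟩ := star_mul_cs hu (by rw [hc, mul_comm] : l = c * l') b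
    rw [h1, h2]
  · obtain ⟨c, hc⟩ := h
    have hu := unit_of_nm_eq hp hl (by rw [nm_star, hl']) hc
    obtain ⟨h1, h2⟩ := star_mul_cs hu (by rw [hc, mul_comm] : l = c * star l') b
    rw [h1, h2, star_star, add_comm]

theorem csp_inert {p : ℕ} (hp : p.Prime) (h : p % 3 = 2) (b : Eis) : csp p b = cs (p : Eis) b := by
  unfold csp
  rw [dif_neg]
  rintro ⟨l, hl⟩
  have := nm_mod_three l
  omega

private lemma split_or_inert {p : ℕ} (hp : p.Prime) (h3 : p ≠ 3) : p % 3 = 1 ∨ p % 3 = 2 := by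
  have h : p % 3 ≠ 0 := fun h => h3 ((Nat.prime_dvd_prime_iff_eq Nat.prime_three hp).1 (Nat.dvd_of_mod_eq_zero h)).symm
  omega

private lemma not_dvd_of_isCoprime {q b c : Eis} (hq : Prime q) (hb : IsCoprime b c) (hc : q ∣ c) : ¬ q ∣ b :=
  fun h => hq.not_isUnit (hb.isUnit_of_dvd' h hc)

private lemma dvd_of_nm {p : ℕ} {l : Eis} (hl : nm l = p) : l ∣ (p : Eis) ∧ star l ∣ (p : Eis) := by
  rw [← hl, ← mul_star_self]
  exact ⟨dvd_mul_right _ _, dvd_mul_left _ _⟩

private lemma nm_inert_ndvd {p : ℕ} (h : p % 3 = 2) : ¬ 3 ∣ nm (p : Eis) := by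
  rw [nm_natCast, Nat.Prime.dvd_iff_one_le_factorization Nat.prime_three (by
    intro h0
    have : p = 0 := by simpa using h0
    omega)]
  intro h1
  have h2 : 3 ∣ p ^ 2 := Nat.dvd_of_factorization_pos (by omega)
  have h3 := Nat.prime_three.dvd_of_dvd_pow h2
  omega

theorem csp_mul {p : ℕ} (hp : p.Prime) (h3 : p ≠ 3) {b c : Eis} (hb : IsCoprime b (p : Eis)) (hc : IsCoprime c (p : Eis)) :
    csp p (b * c) = csp p b + csp p c := by
  rcases split_or_inert hp h3 with h | h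
  · obtain ⟨l, hl⟩ := exists_nm_eq hp h
    obtain ⟨hd1, hd2⟩ := dvd_of_nm hl
    have hl1 : Prime l := prime_of_nm (by rw [hl]; exact hp)
    have hl2 : Prime (star l) := prime_of_nm (by rw [nm_star, hl]; exact hp)
    have h31 : ¬ 3 ∣ nm l := by rw [hl]; omega
    have h32 : ¬ 3 ∣ nm (star l) := by rw [nm_star, hl]; omega
    rw [csp_eq hp hl h3, csp_eq hp hl h3, csp_eq hp hl h3,
      cs_mul hl1 h31 (not_dvd_of_isCoprime hl1 hb hd1) (not_dvd_of_isCoprime hl1 hc hd1),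
      cs_mul hl2 h32 (not_dvd_of_isCoprime hl2 hb hd2) (not_dvd_of_isCoprime hl2 hc hd2)]
    ring
  · have hpr := prime_inert hp h
    rw [csp_inert hp h, csp_inert hp h, csp_inert hp h,
      cs_mul hpr (nm_inert_ndvd h) (not_dvd_of_isCoprime hpr hb dvd_rfl) (not_dvd_of_isCoprime hpr hc dvd_rfl)]

theorem csn_zero_one : (∀ b, csn 0 b = 0) ∧ ∀ b, csn 1 b = 0 := by
  constructor
  · intro b
    unfold csn
    simp
  · intro b
    unfold csn
    simp

theorem csn_prime {p : ℕ} (hp : p.Prime) (b : Eis) : csn p b = csp p b := by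
  unfold csn
  rw [hp.factorization, Finsupp.sum_single_index] <;> simp

theorem csn_mul_left {n k : ℕ} (hn : n ≠ 0) (hk : k ≠ 0) (b : Eis) : csn (n * k) b = csn n b + csn k b := by
  unfold csn
  rw [Nat.factorization_mul hn hk, Finsupp.sum_add_index']
  · intro p; simp
  · intro p x y; push_cast; ring

private lemma mem_supp {n p : ℕ} (hp : p ∈ n.factorization.support) : p.Prime ∧ p ∣ n := by
  rw [Nat.support_factorization] at hp
  exact ⟨Nat.prime_of_mem_primeFactors hp, Nat.dvd_of_mem_primeFactors hp⟩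

private lemma ne_three {n p : ℕ} (h3 : ¬ 3 ∣ n) (hp : p ∣ n) : p ≠ 3 := by
  rintro rfl; exact h3 hp

private lemma coprime_of_dvd {n p : ℕ} (hp : p ∣ n) {b : Eis} (hb : IsCoprime b (n : Eis)) : IsCoprime b (p : Eis) := by
  obtain ⟨k, rfl⟩ := hp
  push_cast at hb
  exact hb.of_mul_right_left

theorem csn_mul {n : ℕ} (hn : n ≠ 0) (h3 : ¬ 3 ∣ n) {b c : Eis} (hb : IsCoprime b (n : Eis)) (hc : IsCoprime c (n : Eis)) :
    csn n (b * c) = csn n b + csn n c := by
  unfold csn Finsupp.sum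
  rw [← Finset.sum_add_distrib]
  refine Finset.sum_congr rfl fun p hp => ?_
  obtain ⟨hpp, hpn⟩ := mem_supp hp
  beta_reduce
  rw [csp_mul hpp (ne_three h3 hpn) (coprime_of_dvd hpn hb) (coprime_of_dvd hpn hc), mul_add]

/-- the symbol only depends on `b` modulo the radical of `n` -/
private lemma csp_congr {p : ℕ} (hp : p.Prime) (h3 : p ≠ 3) {b c : Eis} (h : (p : Eis) ∣ b - c) : csp p b = csp p c := by
  rcases split_or_inert hp h3 with h1 | h1
  · obtain ⟨l, hl⟩ := exists_nm_eq hp h1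
    obtain ⟨hd1, hd2⟩ := dvd_of_nm hl
    have hl1 : Prime l := prime_of_nm (by rw [hl]; exact hp)
    have hl2 : Prime (star l) := prime_of_nm (by rw [nm_star, hl]; exact hp)
    have h31 : ¬ 3 ∣ nm l := by rw [hl]; omega
    have h32 : ¬ 3 ∣ nm (star l) := by rw [nm_star, hl]; omega
    rw [csp_eq hp hl h3, csp_eq hp hl h3, cs_congr hl1 h31 (hd1.trans h), cs_congr hl2 h32 (hd2.trans h)]
  · rw [csp_inert hp h1, csp_inert hp h1, cs_congr (prime_inert hp h1) (nm_inert_ndvd h1) h]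

private lemma csn_congr_aux {n : ℕ} (h3 : ¬ 3 ∣ n) {b c : Eis} (h : ∀ p : ℕ, p.Prime → p ∣ n → (p : Eis) ∣ b - c) :
    csn n b = csn n c := by
  unfold csn Finsupp.sum
  refine Finset.sum_congr rfl fun p hp => ?_
  obtain ⟨hpp, hpn⟩ := mem_supp hp
  beta_reduce
  rw [csp_congr hpp (ne_three h3 hpn) (h p hpp hpn)]

theorem csn_congr {n : ℕ} (hn : n ≠ 0) (h3 : ¬ 3 ∣ n) {b c : Eis} (h : (n : Eis) ∣ b - c) : csn n b = csn n c :=
  csn_congr_aux h3 fun p _ hpn => (natCast_dvd.2 hpn).trans h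

/-- the symbol only depends on `b` modulo the radical of `n` -/
theorem csn_congr' {n : ℕ} (hn : n ≠ 0) (h3 : ¬ 3 ∣ n) {b c : Eis} (h : ∀ p : ℕ, p.Prime → p ∣ n → (p : Eis) ∣ b - c) :
    csn n b = csn n c := csn_congr_aux h3 h

private lemma csp_star {p : ℕ} (hp : p.Prime) (h3 : p ≠ 3) {b : Eis} (hb : IsCoprime b (p : Eis)) :
    csp p (star b) = -csp p b := by
  rcases split_or_inert hp h3 with h1 | h1
  · obtain ⟨l, hl⟩ := exists_nm_eq hp h1
    obtain ⟨hd1, hd2⟩ := dvd_of_nm hl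
    have hl1 : Prime l := prime_of_nm (by rw [hl]; exact hp)
    have hl2 : Prime (star l) := prime_of_nm (by rw [nm_star, hl]; exact hp)
    have h31 : ¬ 3 ∣ nm l := by rw [hl]; omega
    have h32 : ¬ 3 ∣ nm (star l) := by rw [nm_star, hl]; omega
    have e1 := cs_star hl1 h31 (not_dvd_of_isCoprime hl1 hb hd1)
    have e2 := cs_star hl2 h32 (not_dvd_of_isCoprime hl2 hb hd2)
    rw [star_star] at e2
    rw [csp_eq hp hl h3, csp_eq hp hl h3, e1, e2]
    ring
  · have e := cs_star (prime_inert hp h1) (nm_inert_ndvd h1) (not_dvd_of_isCoprime (prime_inert hp h1) hb dvd_rfl)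
    rw [star_natCast] at e
    rw [csp_inert hp h1, csp_inert hp h1, e]

theorem csn_star {n : ℕ} (hn : n ≠ 0) (h3 : ¬ 3 ∣ n) {b : Eis} (hb : IsCoprime b (n : Eis)) :
    csn n (star b) = -csn n b := by
  unfold csn Finsupp.sum
  rw [← Finset.sum_neg_distrib]
  refine Finset.sum_congr rfl fun p hp => ?_
  obtain ⟨hpp, hpn⟩ := mem_supp hp
  beta_reduce
  rw [csp_star hpp (ne_three h3 hpn) (coprime_of_dvd hpn hb), mul_neg]

theorem csn_int {n : ℕ} (hn : n ≠ 0) (h3 : ¬ 3 ∣ n) {x : ℤ} (hx : IsCoprime (x : Eis) (n : Eis)) :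
    csn n (x : Eis) = 0 := by
  have h := csn_star hn h3 hx
  rw [star_intCast] at h
  generalize csn n (x : Eis) = y at h
  revert y
  decide

private lemma sq_sub_one {n : ℕ} (h3 : ¬ 3 ∣ n) : ∃ u : ℕ, n ^ 2 = 3 * u + 1 := by
  have h : n % 3 = 1 ∨ n % 3 = 2 := by omega
  refine ⟨(n ^ 2) / 3, ?_⟩
  have h2 : n ^ 2 % 3 = 1 := by
    rcases h with h | h <;> simp [Nat.pow_mod, h]
  omega

theorem csn_om {n : ℕ} (hn : n ≠ 0) (h3 : ¬ 3 ∣ n) : csn n om = (((n ^ 2 - 1) / 3 : ℕ) : ZMod 3) := by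
  induction n using Nat.recOnMul with
  | zero => exact absurd rfl hn
  | one => rw [csn_zero_one.2]; simp
  | prime p hp =>
    rw [csn_prime hp]
    have h30 : p ≠ 3 := by rintro rfl; exact h3 dvd_rfl
    rcases split_or_inert hp h30 with h | h
    · obtain ⟨l, hl⟩ := exists_nm_eq hp h
      have hl1 : Prime l := prime_of_nm (by rw [hl]; exact hp)
      have hl2 : Prime (star l) := prime_of_nm (by rw [nm_star, hl]; exact hp)
      have h31 : ¬ 3 ∣ nm l := by rw [hl]; exact h3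
      have h32 : ¬ 3 ∣ nm (star l) := by rw [nm_star, hl]; exact h3
      rw [csp_eq hp hl h30, cs_om hl1 h31, cs_om hl2 h32, nm_star, hl]
      obtain ⟨k, hk⟩ : ∃ k, p = 3 * k + 1 := ⟨p / 3, by omega⟩
      have e1 : (p - 1) / 3 = k := by omega
      have e2 : (p ^ 2 - 1) / 3 = 3 * k ^ 2 + 2 * k := by
        have : p ^ 2 = 3 * (3 * k ^ 2 + 2 * k) + 1 := by rw [hk]; ring
        omega
      rw [e1, e2]
      push_cast
      have h30 : (3 : ZMod 3) = 0 := rfl
      rw [h30]; ring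
    · rw [csp_inert hp h, cs_om (prime_inert hp h) (nm_inert_ndvd h), nm_natCast]
  | mul a b iha ihb =>
    have ha : a ≠ 0 := left_ne_zero_of_mul hn
    have hb : b ≠ 0 := right_ne_zero_of_mul hn
    have h3a : ¬ 3 ∣ a := fun h => h3 (Dvd.dvd.mul_right h _)
    have h3b : ¬ 3 ∣ b := fun h => h3 (Dvd.dvd.mul_left h _)
    rw [csn_mul_left ha hb, iha ha h3a, ihb hb h3b]
    obtain ⟨u, hu⟩ := sq_sub_one h3a
    obtain ⟨v, hv⟩ := sq_sub_one h3b
    have e1 : (a ^ 2 - 1) / 3 = u := by omega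
    have e2 : (b ^ 2 - 1) / 3 = v := by omega
    have e3 : ((a * b) ^ 2 - 1) / 3 = 3 * (u * v) + u + v := by
      have : (a * b) ^ 2 = 3 * (3 * (u * v) + u + v) + 1 := by rw [mul_pow, hu, hv]; ring
      omega
    rw [e1, e2, e3]
    push_cast
    have h30 : (3 : ZMod 3) = 0 := rfl
    rw [h30]; ring

/-- reciprocity -/
theorem cs_eq_csn {p : ℕ} [Fact p.Prime] {q : Eis} (hq : nm q = p) (h1 : (3 : Eis) ∣ q - 1) {n : ℕ} (hn : n ≠ 0)
    (h3 : ¬ 3 ∣ n) (hpn : ¬ p ∣ n) : cs q (n : Eis) = csn n q := by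
  have hp : p.Prime := Fact.out
  have hqp : Prime q := prime_of_nm (by rw [hq]; exact hp)
  have h3q : ¬ 3 ∣ nm q := by
    have h2 := nm_congr (n := 3) (a := q) (b := 1) (by exact_mod_cast h1)
    rw [nm_one] at h2
    intro h
    rw [(ZMod.natCast_eq_zero_iff _ _).2 h] at h2
    revert h2
    decide
  have hndvd : ∀ k : ℕ, ¬ p ∣ k → ¬ q ∣ (k : Eis) := by
    intro k hk h
    have h2 : q ∣ ((k : ℤ) : Eis) := by simpa using h
    have h4 := (int_dvd_iff (by rw [hq]; exact hp) (k : ℤ)).1 h2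
    rw [hq] at h4
    exact hk (Int.natCast_dvd_natCast.1 h4)
  induction n using Nat.recOnMul with
  | zero => exact absurd rfl hn
  | one => rw [csn_zero_one.2, Nat.cast_one, cs_one hqp h3q]
  | prime r hr =>
    haveI : Fact r.Prime := ⟨hr⟩
    have hrp : r ≠ p := by rintro rfl; exact hpn dvd_rfl
    have hr3 : r ≠ 3 := by rintro rfl; exact h3 dvd_rfl
    rw [csn_prime hr]
    rcases split_or_inert hr hr3 with h | h
    · obtain ⟨l, hl⟩ := exists_nm_eq hr h
      rw [csp_eq hr hl hr3, recip_split h hrp hq h1 hl]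
    · rw [csp_inert hr h, recip_inert h hrp hq h1]
  | mul a b iha ihb =>
    have ha : a ≠ 0 := left_ne_zero_of_mul hn
    have hb : b ≠ 0 := right_ne_zero_of_mul hn
    have h3a : ¬ 3 ∣ a := fun h => h3 (Dvd.dvd.mul_right h _)
    have h3b : ¬ 3 ∣ b := fun h => h3 (Dvd.dvd.mul_left h _)
    have hpa : ¬ p ∣ a := fun h => hpn (Dvd.dvd.mul_right h _)
    have hpb : ¬ p ∣ b := fun h => hpn (Dvd.dvd.mul_left h _)
    rw [csn_mul_left ha hb, ← iha ha h3a hpa, ← ihb hb h3b hpb, Nat.cast_mul,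
      cs_mul hqp h3q (hndvd a hpa) (hndvd b hpb)]

end MPd9f52e
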