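import Mathlib
import Pool.Agent.Lib.MP_d9f52e_nt.RCsn

/-!
# RSup: the supplementary law  (about 150 lines)

`q = a + b om`, `nm q = p` prime, `a = 1 + 3 m`, `b = 3 n`.  `a <> 0`, `c := a + b = 1 + 3(m+n) <> 0`, `gcd(a,b) = 1` (`g | a, b` gives `g^2 | p`), `q` does not divide `a` nor `c` (else `p | a`, then `p | b`.., `p^2 | nm q`).
(i) `cs q om = (p-1)/3 = 2m - n` in `ZMod 3` (`p = a^2 - ab + b^2 = 1 + 6m - 3n mod 9`).
(ii) `cs q a = cs q |a| = csn |a| q = csn |a| (b om) = csn |a| om = (a^2-1)/3 = 2m` (`cs_neg_one`, `cs_eq_csn`, `csn_congr`: `q - b om = a`; `csn_int` for `b`).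
(iii) `cs q c = csn |c| q`, `q = c om + a (1 - om)`, so `= csn |c| (a (1-om)) = csn |c| (1 - om)` (`a` prime to `c`), and `2 csn |c| (1-om) = csn |c| (-3 om) = csn |c| om = (c^2-1)/3 = 2(m+n)`, so `cs q c = m + n`.
(iv) `c om = q - a(1-om)`: `cs q c + cs q om = cs q (-1) + cs q a + cs q (1-om)`, hence `cs q (1-om) = (m+n) + (2m-n) - 2m = m`.
(v) `3 = -om^2 (1-om)^2`: `cs q 3 = 2(2m-n) + 2m = 6m - 2n = n = nn q` (`nn_eval`).
-/

set_option autoImplicit false

namespace MPd9f52e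

open Complex

private theorem q_eq (a b : ℤ) : (⟨a, b⟩ : Eis) = (a : Eis) + (b : Eis) * om := by
  ext
  · simp [om]
  · simp [om]

private theorem nm_mk (a b : ℤ) : ((nm (⟨a, b⟩ : Eis) : ℕ) : ℤ) = a ^ 2 - a * b + b ^ 2 := by
  unfold nm
  rw [Int.natCast_natAbs, abs_of_nonneg]
  nlinarith [sq_nonneg (2 * a - b), sq_nonneg b]

private theorem cop_om (n : ℕ) : IsCoprime om (n : Eis) := by
  rw [isCoprime_iff, nm_om]
  exact Nat.coprime_one_left n

private theorem nm_one_sub_om : nm (1 - om) = 3 := by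
  have h : (1 - om : Eis) = ⟨1, -1⟩ := by
    ext <;> simp [om, QuadraticAlgebra.re_one, QuadraticAlgebra.im_one]
  have h2 := nm_mk 1 (-1)
  rw [← h] at h2
  have h3 : ((nm (1 - om) : ℕ) : ℤ) = 3 := by
    rw [h2]
    norm_num
  exact_mod_cast h3

private theorem not_both {p : ℕ} (hp : p.Prime) {a b : ℤ} (h : (p : ℤ) = a ^ 2 - a * b + b ^ 2) (ha : (p : ℤ) ∣ a)
    (hb : (p : ℤ) ∣ b) : False := by
  obtain ⟨x, hx⟩ := ha
  obtain ⟨y, hy⟩ := hb
  have h0 : (p : ℤ) ≠ 0 := by exact_mod_cast hp.ne_zero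
  have h1 : (p : ℤ) * ((p : ℤ) * (x ^ 2 - x * y + y ^ 2)) = p * 1 := by
    rw [mul_one]
    conv_rhs => rw [h, hx, hy]
    ring
  have h2 := mul_left_cancel₀ h0 h1
  have h3 : (p : ℤ) ∣ 1 := ⟨_, h2.symm⟩
  have h4 : p ∣ 1 := by exact_mod_cast h3
  exact hp.one_lt.ne' (Nat.dvd_one.1 h4)

private theorem cop_ab {p : ℕ} (hp : p.Prime) {a b : ℤ} (h : (p : ℤ) = a ^ 2 - a * b + b ^ 2) : IsCoprime a b := by
  have hpi : Prime (p : ℤ) := Nat.prime_iff_prime_int.1 hp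
  apply isCoprime_of_prime_dvd
  · rintro ⟨rfl, rfl⟩
    have : (p : ℤ) = 0 := by rw [h]; ring
    exact hp.ne_zero (by exact_mod_cast this)
  · intro z hz ha hb
    obtain ⟨x, hx⟩ := ha
    obtain ⟨y, hy⟩ := hb
    have h1 : (p : ℤ) = z * (z * (x ^ 2 - x * y + y ^ 2)) := by
      rw [h, hx, hy]
      ring
    rcases hpi.irreducible.isUnit_or_isUnit h1 with hu | hu
    · exact hz.not_isUnit hu
    · exact hz.not_isUnit (isUnit_of_mul_isUnit_left hu)

private theorem csn_abs {n : ℕ} (hn : n ≠ 0) (h3 : ¬ 3 ∣ n) {m : ℤ} (h : (n : ℤ) ^ 2 = (1 + 3 * m) ^ 2) :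
    csn n om = 2 * (m : ZMod 3) := by
  rw [csn_om hn h3]
  have h1 : 1 ≤ n ^ 2 := Nat.one_le_pow _ _ (Nat.pos_of_ne_zero hn)
  have h2 : (((n ^ 2 - 1) / 3 : ℕ) : ℤ) = 2 * m + 3 * m ^ 2 := by
    have h4 : ((n ^ 2 - 1 : ℕ) : ℤ) = 3 * (2 * m + 3 * m ^ 2) := by
      rw [Nat.cast_sub h1]
      push_cast
      rw [h]
      ring
    have h5 : ((((n ^ 2 - 1) / 3 : ℕ)) : ℤ) = ((n ^ 2 - 1 : ℕ) : ℤ) / 3 := by
      rw [Int.natCast_div]
      norm_num
    rw [h5, h4, Int.mul_ediv_cancel_left _ (by norm_num)]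
  have h6 : ((((n ^ 2 - 1) / 3 : ℕ) : ℤ) : ZMod 3) = ((2 * m + 3 * m ^ 2 : ℤ) : ZMod 3) := by rw [h2]
  have h7 : (3 : ZMod 3) = 0 := rfl
  push_cast at h6
  rw [h7, zero_mul, add_zero] at h6
  exact h6

private theorem natAbs_eis (a : ℤ) : ((a.natAbs : ℕ) : Eis) = (a : Eis) ∨ ((a.natAbs : ℕ) : Eis) = -(a : Eis) := by
  rcases Int.natAbs_eq a with h | h
  · left
    conv_rhs => rw [h]
    simp
  · right
    conv_rhs => rw [h]
    simp

theorem cs_three {p : ℕ} [Fact p.Prime] {q : Eis} (hq : nm q = p) (h1 : (3 : Eis) ∣ q - 1) : cs q 3 = nn q := by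
  have hp : p.Prime := Fact.out
  have hqp : (nm q).Prime := by rw [hq]; exact hp
  have hqP : Prime q := prime_of_nm hqp
  obtain ⟨⟨m, n⟩, hmn⟩ := h1
  have hqe : q = ⟨1 + 3 * m, 3 * n⟩ := by
    have h2 : q = 1 + ((3 : ℤ) : Eis) * ⟨m, n⟩ := by
      have h4 : ((3 : ℤ) : Eis) = 3 := by norm_num
      rw [h4, ← hmn]
      ring
    rw [h2]
    ext
    · rw [QuadraticAlgebra.re_add, QuadraticAlgebra.re_mul, QuadraticAlgebra.re_intCast,
        QuadraticAlgebra.im_intCast, QuadraticAlgebra.re_one]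
      ring
    · rw [QuadraticAlgebra.im_add, QuadraticAlgebra.im_mul, QuadraticAlgebra.re_intCast,
        QuadraticAlgebra.im_intCast, QuadraticAlgebra.im_one]
      ring
  set a : ℤ := 1 + 3 * m with ha
  set b : ℤ := 3 * n with hb
  set c : ℤ := a + b with hc
  have hpe : (p : ℤ) = a ^ 2 - a * b + b ^ 2 := by
    rw [← hq, hqe]
    exact nm_mk a b
  have hp3 : (p : ℤ) = 1 + 3 * (2 * m + 3 * m ^ 2 - n - 3 * m * n + 3 * n ^ 2) := by
    rw [hpe, ha, hb]
    ring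
  have h3q : ¬ 3 ∣ nm q := by
    rw [hq]
    intro h
    have : (3 : ℤ) ∣ p := by exact_mod_cast h
    omega
  have hpn3 : p ≠ 3 := by
    rintro rfl
    exact h3q (by rw [hq])
  have hqab : q = (a : Eis) + (b : Eis) * om := by rw [hqe]; exact q_eq a b
  have hcab : (c : Eis) = (a : Eis) + (b : Eis) := by rw [hc]; push_cast; ring
  have hpa : ¬ (p : ℤ) ∣ a := by
    intro h
    have h2 : (p : ℤ) ∣ b ^ 2 := by
      have h4 : b ^ 2 = p - a * (a - b) := by rw [hpe]; ring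
      rw [h4]
      exact dvd_sub dvd_rfl (h.mul_right _)
    exact not_both hp hpe h ((Nat.prime_iff_prime_int.1 hp).dvd_of_dvd_pow h2)
  have hpc : ¬ (p : ℤ) ∣ c := by
    intro h
    have h2 : (p : ℤ) ∣ 3 * (a * b) := by
      have h4 : 3 * (a * b) = c * c - p := by rw [hpe, hc]; ring
      rw [h4]
      exact dvd_sub (h.mul_right _) dvd_rfl
    rcases (Nat.prime_iff_prime_int.1 hp).dvd_or_dvd h2 with h4 | h4
    · have h5 : p ∣ 3 := by exact_mod_cast h4
      rcases (Nat.dvd_prime Nat.prime_three).1 h5 with h6 | h6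
      · exact hp.one_lt.ne' h6
      · exact hpn3 h6
    · rcases (Nat.prime_iff_prime_int.1 hp).dvd_or_dvd h4 with h5 | h5
      · exact hpa h5
      · refine hpa ?_
        have h6 : a = c - b := by rw [hc]; ring
        rw [h6]
        exact dvd_sub h h5
  have hqa : ¬ q ∣ (a : Eis) := by
    rw [int_dvd_iff hqp, hq]
    exact hpa
  have hqc : ¬ q ∣ (c : Eis) := by
    rw [int_dvd_iff hqp, hq]
    exact hpc
  have hcop : IsCoprime a b := cop_ab hp hpe
  have hcopc : IsCoprime a c := by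
    rw [hc]
    obtain ⟨x, y, hxy⟩ := hcop
    exact ⟨x - y, y, by linear_combination hxy⟩
  have mapc : ∀ x y : ℤ, IsCoprime x y → IsCoprime (x : Eis) ((y.natAbs : ℕ) : Eis) := by
    intro x y h
    have h2 : IsCoprime (x : Eis) (y : Eis) := by
      have := h.map (Int.castRingHom Eis)
      simpa using this
    rcases natAbs_eis y with h4 | h4
    · rw [h4]
      exact h2
    · rw [h4]
      exact h2.neg_right
  have hqn1 : ¬ q ∣ (-1 : Eis) := by
    rw [dvd_neg]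
    intro h
    exact hqP.not_isUnit (isUnit_of_dvd_one h)
  -- the two integers
  have habs : ∀ x : ℤ, ¬ q ∣ (x : Eis) → cs q (x : Eis) = cs q ((x.natAbs : ℕ) : Eis) := by
    intro x hx
    rcases natAbs_eis x with h | h
    · rw [h]
    · rw [h]
      have h2 : -(x : Eis) = (-1) * (x : Eis) := by ring
      rw [h2, cs_mul hqP h3q hqn1 hx, cs_neg_one hqP h3q, zero_add]
  have ha3 : ¬ 3 ∣ a.natAbs := by
    intro h
    have : (3 : ℤ) ∣ a := Int.natCast_dvd.2 h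
    omega
  have hc3 : ¬ 3 ∣ c.natAbs := by
    intro h
    have : (3 : ℤ) ∣ c := Int.natCast_dvd.2 h
    omega
  have ha0 : a.natAbs ≠ 0 := by
    intro h
    exact ha3 (by rw [h]; exact dvd_zero 3)
  have hc0 : c.natAbs ≠ 0 := by
    intro h
    exact hc3 (by rw [h]; exact dvd_zero 3)
  have hpa' : ¬ p ∣ a.natAbs := fun h => hpa (Int.natCast_dvd.2 h)
  have hpc' : ¬ p ∣ c.natAbs := fun h => hpc (Int.natCast_dvd.2 h)
  have h31 : (3 : Eis) ∣ q - 1 := ⟨⟨m, n⟩, hmn⟩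
  have absdvd : ∀ x : ℤ, ((x.natAbs : ℕ) : Eis) ∣ (x : Eis) := by
    intro x
    rcases natAbs_eis x with h | h
    · rw [h]
    · rw [h, neg_dvd]
  -- (i)
  have e1 : cs q om = 2 * (m : ZMod 3) - (n : ZMod 3) := by
    rw [cs_om hqP h3q, hq]
    have h2 : (((p - 1) / 3 : ℕ) : ℤ) = 2 * m + 3 * m ^ 2 - n - 3 * m * n + 3 * n ^ 2 := by
      have h4 : ((p - 1 : ℕ) : ℤ) = 3 * (2 * m + 3 * m ^ 2 - n - 3 * m * n + 3 * n ^ 2) := by
        rw [Nat.cast_sub hp.one_lt.le]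
        push_cast
        linarith
      have h5 : (((p - 1) / 3 : ℕ) : ℤ) = ((p - 1 : ℕ) : ℤ) / 3 := by
        rw [Int.natCast_div]
        norm_num
      rw [h5, h4, Int.mul_ediv_cancel_left _ (by norm_num)]
    have h6 : ((((p - 1) / 3 : ℕ) : ℤ) : ZMod 3) =
        ((2 * m + 3 * m ^ 2 - n - 3 * m * n + 3 * n ^ 2 : ℤ) : ZMod 3) := by rw [h2]
    have h7 : (3 : ZMod 3) = 0 := rfl
    rw [Int.cast_natCast] at h6
    rw [h6]
    push_cast
    rw [h7]
    ring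
  -- (ii)
  have e2 : cs q (a : Eis) = 2 * (m : ZMod 3) := by
    rw [habs a hqa, cs_eq_csn hq h31 ha0 ha3 hpa']
    have h2 : csn a.natAbs q = csn a.natAbs ((b : Eis) * om) := by
      apply csn_congr ha0 ha3
      have h4 : q - (b : Eis) * om = (a : Eis) := by rw [hqab]; ring
      rw [h4]
      exact absdvd a
    rw [h2, csn_mul ha0 ha3 (mapc b a hcop.symm) (cop_om _), csn_int ha0 ha3 (mapc b a hcop.symm), zero_add]
    exact csn_abs ha0 ha3 (by rw [Int.natAbs_sq])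
  -- (iii)
  have cop3 : IsCoprime (1 - om) ((c.natAbs : ℕ) : Eis) := by
    rw [isCoprime_iff, nm_one_sub_om]
    exact (Nat.Prime.coprime_iff_not_dvd Nat.prime_three).2 hc3
  have sq3 : (1 - om) * (1 - om) = ((-3 : ℤ) : Eis) * om := by
    have h2 := om_sq
    push_cast
    linear_combination h2
  have copm3 : IsCoprime (((-3 : ℤ)) : Eis) ((c.natAbs : ℕ) : Eis) := by
    rw [isCoprime_iff]
    have h2 : nm (((-3 : ℤ)) : Eis) = 9 := by
      have h4 : (((-3 : ℤ)) : Eis) = -((3 : ℕ) : Eis) := by push_cast; rfl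
      rw [h4, nm_neg, nm_natCast]
      norm_num
    rw [h2]
    have h4 : Nat.Coprime 3 c.natAbs := (Nat.Prime.coprime_iff_not_dvd Nat.prime_three).2 hc3
    exact Nat.Coprime.pow_left 2 h4
  have e3 : csn c.natAbs (1 - om) = (m : ZMod 3) + (n : ZMod 3) := by
    have h2 : csn c.natAbs (1 - om) + csn c.natAbs (1 - om) = 2 * ((m + n : ℤ) : ZMod 3) := by
      rw [← csn_mul hc0 hc3 cop3 cop3, sq3, csn_mul hc0 hc3 copm3 (cop_om _), csn_int hc0 hc3 copm3, zero_add]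
      apply csn_abs hc0 hc3
      rw [Int.natAbs_sq, hc, ha, hb]
      ring
    push_cast at h2
    have h4 : ∀ x y : ZMod 3, x + x = 2 * y → x = y := by decide
    exact h4 _ _ h2
  have e4 : cs q (c : Eis) = (m : ZMod 3) + (n : ZMod 3) := by
    rw [habs c hqc, cs_eq_csn hq h31 hc0 hc3 hpc']
    have h2 : csn c.natAbs q = csn c.natAbs ((a : Eis) * (1 - om)) := by
      apply csn_congr hc0 hc3
      have h4 : q - (a : Eis) * (1 - om) = (c : Eis) * om := by rw [hqab, hcab]; ring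
      rw [h4]
      exact (absdvd c).mul_right _
    rw [h2, csn_mul hc0 hc3 (mapc a c hcopc) cop3, csn_int hc0 hc3 (mapc a c hcopc), zero_add, e3]
  -- (iv)
  have hqom : ¬ q ∣ om := by
    intro h
    have h2 := nm_dvd h
    rw [nm_om, hq] at h2
    exact hp.one_lt.ne' (Nat.dvd_one.1 h2)
  have hq1om : ¬ q ∣ (1 - om) := by
    intro h
    have h2 := nm_dvd h
    rw [nm_one_sub_om, hq] at h2
    rcases (Nat.dvd_prime Nat.prime_three).1 h2 with h6 | h6
    · exact hp.one_lt.ne' h6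
    · exact hpn3 h6
  have e5 : cs q (1 - om) = (m : ZMod 3) := by
    have h2 : cs q ((c : Eis) * om) = cs q (((-1) * (a : Eis)) * (1 - om)) := by
      apply cs_congr hqP h3q
      have h4 : (c : Eis) * om - (-1) * (a : Eis) * (1 - om) = q := by rw [hqab, hcab]; ring
      rw [h4]
    have hna : ¬ q ∣ (-1) * (a : Eis) := by
      rw [neg_one_mul, dvd_neg]
      exact hqa
    rw [cs_mul hqP h3q hqc hqom, cs_mul hqP h3q hna hq1om, cs_mul hqP h3q hqn1 hqa, cs_neg_one hqP h3q, e4, e1,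
      e2] at h2
    linear_combination -h2
  -- (v)
  have h3e : (3 : Eis) = (-1) * ((om * om) * ((1 - om) * (1 - om))) := by
    have h2 := om_sq
    linear_combination (om ^ 2 - 3 * om + 3) * h2
  have hnd2 : ¬ q ∣ om * om := hqP.dvd_mul.not.2 (by tauto)
  have hnd3 : ¬ q ∣ (1 - om) * (1 - om) := hqP.dvd_mul.not.2 (by tauto)
  have hnd4 : ¬ q ∣ (om * om) * ((1 - om) * (1 - om)) := hqP.dvd_mul.not.2 (by tauto)
  rw [h3e, cs_mul hqP h3q hqn1 hnd4, cs_mul hqP h3q hnd2 hnd3, cs_mul hqP h3q hqom hqom,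
    cs_mul hqP h3q hq1om hq1om, cs_neg_one hqP h3q, e1, e5]
  have hnn : nn q = (n : ZMod 3) := by
    rw [hqe, ha, hb]
    exact nn_eval m n
  rw [hnn]
  have h4 : ∀ x y : ZMod 3, 0 + (2 * x - y + (2 * x - y) + (x + x)) = y := by decide
  exact h4 _ _

end MPd9f52e
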