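import Mathlib
import Pool.Agent.Lib.MP_d9f52e_nt.RSup

/-!
# RKap: the character kappa  (about 250 lines)

Throughout `d >= 2` cube-free, `m >= 1`, `f = lev d m`.  `3 | f` unless case C; `d' = d / 3^{v_3(d)}` divides `f` and is prime to 3.
Elements prime to `f` are prime to `d'` (and to `3` if not case C: then `3` does not divide `nm b`, `isCoprime_iff`).
* `kap_mul`: `csn_mul`, `prim_mul`, `nn_mul`.  * `kap_congr`: `d | f` in case C; otherwise `9 | f`, `prim_congr`, `nn_congr`, `csn_congr`.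
* `kap_unit`: case C: units are `±om^j`; `csn d (-1) = 0`, `csn d om = (d^2-1)/3 = 0 mod 3` as `d = ±1 mod 9`.  Otherwise `prim ε = 1` and `nn ε = 0`.
* `kap_star`: `csn_star`, `prim_star`, `nn_star`.  * `kap_int`: from `kap_star`.  * `kap_s3`: case C: `2 csn d s3 = csn d (-3) = 0` (`3` prime to `d`).
* `kap_cube`: `q` of norm `p` prime, `p` not dividing `f`, `p <> 3`.  Replace `q` by its primary associate `q* = prim q` (`cs_assoc`, `prim_spec`; `kap_mul`, `kap_unit`): `kap q = kap q* = cs q* d`: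
  `d = 3^a d'`, `cs q* d = a cs q* 3 + cs q* d' = a nn q* + csn d' q*` (`cs_three`, `cs_eq_csn`).  In case C `a = 0`.  Then `cs_eq_zero_iff`.
* `kap_surj`: if some prime `p <> 3` divides `d` (`v = v_p(d)` is 1 or 2): let `l` be a prime of `Eis` above `p` (`l = p` if `p = 2 mod 3`), choose `y0` with `cs l y0 = v^{-1}` in `ZMod 3` (`exists_cs_eq`), and `y = y0 mod l`, `y = 1 mod star l` (if `p = 1 mod 3`; `l`, `star l` coprime),
  `y = 1 mod 9`, `y = 1` modulo the product of the other primes of `f`: then `y` is prime to `f`, `prim y = y`, `nn y = 0`, `kap y = v csp p y = 1`.  If `d = 3^a` (`a` is 1 or 2): not case C; `y = 1 + 3 c om mod 9` with `a c = 1` in `ZMod 3`, `y = 1` modulo the other primes of `f`.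
-/

set_option autoImplicit false

namespace MPd9f52e

open Complex

variable {d m : ℕ}

private theorem caseC_three (h : caseC d m) : ¬ 3 ∣ d := by
  obtain ⟨-, h | h⟩ := h <;> omega

theorem lev_pos (hd : 2 ≤ d) (hm : 1 ≤ m) : 3 ≤ lev d m := by
  unfold lev
  split_ifs with h
  · have h8 : 8 ≤ d := by
      obtain ⟨-, h | h⟩ := h <;> omega
    nlinarith
  · nlinarith

theorem m_dvd_lev : m ∣ lev d m := by
  unfold lev
  split_ifs with h
  · exact dvd_mul_left m d
  · exact dvd_mul_left m (9 * d)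

theorem d_dvd_lev : d ∣ lev d m := by
  unfold lev
  split_ifs with h
  · exact dvd_mul_right d m
  · exact ⟨9 * m, by ring⟩

theorem nine_dvd_lev (h : ¬ caseC d m) : 9 ∣ lev d m := by
  unfold lev
  rw [if_neg h]
  exact ⟨d * m, by ring⟩

theorem not_three_dvd_lev (h : caseC d m) : ¬ 3 ∣ lev d m := by
  unfold lev
  rw [if_pos h]
  intro h3
  rcases (Nat.Prime.dvd_mul Nat.prime_three).1 h3 with h1 | h1
  · exact caseC_three h h1
  · exact h.1 h1

theorem prime_dvd_lev (hd : 2 ≤ d) (hm : 1 ≤ m) {p : ℕ} (hp : p.Prime) :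
    p ∣ lev d m ↔ p ∣ d ∨ p ∣ m ∨ (p = 3 ∧ ¬ caseC d m) := by
  have _ := hd
  have _ := hm
  unfold lev
  split_ifs with h
  · rw [hp.dvd_mul]
    simp [h]
  · rw [hp.dvd_mul, hp.dvd_mul]
    have h9 : p ∣ 9 ↔ p = 3 := by
      constructor
      · intro h9
        have : p ∣ 3 ^ 2 := by norm_num; exact h9
        exact (Nat.prime_dvd_prime_iff_eq hp Nat.prime_three).1 (hp.dvd_of_dvd_pow this)
      · rintro rfl; norm_num
    rw [h9]
    tauto

private theorem cop_of_dvd {k n : ℕ} {b : Eis} (h : IsCoprime b (n : Eis)) (hk : k ∣ n) :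
    IsCoprime b (k : Eis) :=
  h.of_isCoprime_of_dvd_right (natCast_dvd.2 hk)

private theorem not_three_of_cop {b : Eis} (h : ¬ caseC d m)
    (hb : IsCoprime b ((lev d m : ℕ) : Eis)) : ¬ 3 ∣ nm b := by
  intro h3
  have h1 := (isCoprime_iff b 3).1 (cop_of_dvd hb (dvd_trans (by norm_num) (nine_dvd_lev h)))
  exact Nat.not_coprime_of_dvd_of_dvd (by norm_num) h3 dvd_rfl h1

private theorem dp_ne (hd : 2 ≤ d) : d / 3 ^ d.factorization 3 ≠ 0 := by
  have h0 : d ≠ 0 := by omega
  exact (Nat.ordCompl_pos 3 h0).ne'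

private theorem dp_three (hd : 2 ≤ d) : ¬ 3 ∣ d / 3 ^ d.factorization 3 :=
  Nat.not_dvd_ordCompl Nat.prime_three (by omega)

private theorem dp_dvd : d / 3 ^ d.factorization 3 ∣ d := Nat.ordCompl_dvd d 3

private theorem cop_unit_mul {n : ℕ} (ε : Eisˣ) {b : Eis} (hb : IsCoprime b (n : Eis)) :
    IsCoprime ((ε : Eis) * b) (n : Eis) := by
  rw [isCoprime_iff] at hb ⊢
  rwa [nm_mul, nm_unit, one_mul]

private theorem cop_prim {n : ℕ} {b : Eis} (h3 : ¬ 3 ∣ nm b) (hb : IsCoprime b (n : Eis)) :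
    IsCoprime (prim b) (n : Eis) := by
  obtain ⟨ε, h, -⟩ := prim_spec h3
  rw [h]
  exact cop_unit_mul ε hb

private theorem cop_unit {n : ℕ} (ε : Eisˣ) : IsCoprime (ε : Eis) (n : Eis) := by
  rw [isCoprime_iff, nm_unit]
  exact Nat.coprime_one_left n

private theorem zmod3_two : ∀ y : ZMod 3, y = -y → y = 0 := by decide

theorem kap_mul (hd : 2 ≤ d) (hcf : ∀ p : ℕ, p.Prime → ¬ p ^ 3 ∣ d) (hm : 1 ≤ m) {b c : Eis}
    (hb : IsCoprime b ((lev d m : ℕ) : Eis)) (hc : IsCoprime c ((lev d m : ℕ) : Eis)) :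
    kap d m (b * c) = kap d m b + kap d m c := by
  have _ := hcf
  have _ := hm
  unfold kap
  split_ifs with h
  · exact csn_mul (by omega) (caseC_three h) (cop_of_dvd hb d_dvd_lev) (cop_of_dvd hc d_dvd_lev)
  · have hb3 := not_three_of_cop h hb
    have hc3 := not_three_of_cop h hc
    have hbd := cop_prim hb3 (cop_of_dvd hb (dp_dvd.trans d_dvd_lev))
    have hcd := cop_prim hc3 (cop_of_dvd hc (dp_dvd.trans d_dvd_lev))
    rw [prim_mul hb3 hc3, csn_mul (dp_ne hd) (dp_three hd) hbd hcd, nn_mul hb3 hc3]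
    ring

theorem kap_congr (hd : 2 ≤ d) (hcf : ∀ p : ℕ, p.Prime → ¬ p ^ 3 ∣ d) (hm : 1 ≤ m) {b c : Eis}
    (hb : IsCoprime b ((lev d m : ℕ) : Eis)) (h : ((lev d m : ℕ) : Eis) ∣ b - c) : kap d m b = kap d m c := by
  have _ := hcf
  have _ := hm
  unfold kap
  split_ifs with hC
  · exact csn_congr (by omega) (caseC_three hC) ((natCast_dvd.2 d_dvd_lev).trans h)
  · have hb3 := not_three_of_cop hC hb
    have h1 := prim_congr (dvd_trans (by norm_num) (nine_dvd_lev hC)) hb3 h
    rw [csn_congr (dp_ne hd) (dp_three hd)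
      ((natCast_dvd.2 ((dp_dvd (d := d)).trans d_dvd_lev)).trans h1)]
    have h9 : (9 : Eis) ∣ b - c := by
      have : ((9 : ℕ) : Eis) ∣ b - c := (natCast_dvd.2 (nine_dvd_lev hC)).trans h
      simpa using this
    rw [nn_congr hb3 h9]

private theorem csn_one' {n : ℕ} (hn : n ≠ 0) (h3 : ¬ 3 ∣ n) : csn n 1 = 0 := by
  have := csn_int hn h3 (x := 1) (by simpa using (isCoprime_one_left : IsCoprime (1 : Eis) (n : Eis)))
  simpa using this

private theorem csn_neg_one' {n : ℕ} (hn : n ≠ 0) (h3 : ¬ 3 ∣ n) : csn n (-1) = 0 := by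
  have h1 : IsCoprime (-1 : Eis) (n : Eis) := by
    rw [isCoprime_iff, nm_neg, nm_one]; exact Nat.coprime_one_left n
  have := csn_int hn h3 (x := -1) (by simpa using h1)
  simpa using this

private theorem csn_om_zero (hd : 2 ≤ d) (h : caseC d m) : csn d om = 0 := by
  rw [csn_om (by omega) (caseC_three h), ZMod.natCast_eq_zero_iff]
  obtain ⟨-, h⟩ := h
  obtain ⟨k, hk⟩ : ∃ k, d ^ 2 = 9 * k + 1 := by
    rcases h with h | h
    · refine ⟨9 * (d / 9) ^ 2 + 2 * (d / 9), ?_⟩
      have h1 : d = 9 * (d / 9) + 1 := by omega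
      calc d ^ 2 = (9 * (d / 9) + 1) ^ 2 := by rw [← h1]
        _ = _ := by ring
    · refine ⟨9 * (d / 9) ^ 2 + 16 * (d / 9) + 7, ?_⟩
      have h1 : d = 9 * (d / 9) + 8 := by omega
      calc d ^ 2 = (9 * (d / 9) + 8) ^ 2 := by rw [← h1]
        _ = _ := by ring
  rw [hk]
  refine ⟨k, ?_⟩
  omega

private theorem cop_om_pow {n : ℕ} (j : ℕ) : IsCoprime (om ^ j) (n : Eis) := by
  rw [isCoprime_iff, nm_pow, nm_om, one_pow]
  exact Nat.coprime_one_left n

private theorem nn_one : nn 1 = 0 := by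
  have h := nn_eval 0 0
  have h1 : (⟨1 + 3 * 0, 3 * 0⟩ : Eis) = 1 := by
    ext
    · simp [QuadraticAlgebra.re_one]
    · simp [QuadraticAlgebra.im_one]
  rw [h1] at h
  simpa using h

private theorem not_three_one : ¬ 3 ∣ nm (1 : Eis) := by rw [nm_one]; norm_num

theorem kap_unit (hd : 2 ≤ d) (hcf : ∀ p : ℕ, p.Prime → ¬ p ^ 3 ∣ d) (hm : 1 ≤ m) (ε : Eisˣ) :
    kap d m (ε : Eis) = 0 := by
  have _ := hcf
  have _ := hm
  unfold kap
  split_ifs with h
  · have hd0 : d ≠ 0 := by omega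
    have h3 := caseC_three h
    have hpow : ∀ j : ℕ, csn d (om ^ j) = 0 := by
      intro j
      induction j with
      | zero => rw [pow_zero]; exact csn_one' hd0 h3
      | succ j ih =>
        rw [pow_succ, csn_mul hd0 h3 (cop_om_pow j) (by simpa using cop_om_pow (n := d) 1), ih,
          csn_om_zero hd h, add_zero]
    obtain ⟨j, -, hj | hj⟩ := units_eq ε
    · rw [hj]; exact hpow j
    · rw [hj, neg_eq_neg_one_mul, csn_mul hd0 h3 _ (cop_om_pow j), hpow j,
        csn_neg_one' hd0 h3, add_zero]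
      rw [isCoprime_iff, nm_neg, nm_one]; exact Nat.coprime_one_left d
  · have h1 : prim (ε : Eis) = 1 := by
      have := prim_unit_mul ε not_three_one
      rw [mul_one] at this
      rw [this]
      exact prim_of_one (by simp)
    have h2 : nn (ε : Eis) = 0 := by
      have := nn_unit_mul ε not_three_one
      rw [mul_one] at this
      rw [this, nn_one]
    rw [h1, h2, csn_one' (dp_ne hd) (dp_three hd)]
    simp

theorem kap_rel (hd : 2 ≤ d) (hcf : ∀ p : ℕ, p.Prime → ¬ p ^ 3 ∣ d) (hm : 1 ≤ m) {b c : Eis}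
    (hc : IsCoprime c ((lev d m : ℕ) : Eis)) (h : Rel (lev d m) b c) : kap d m b = kap d m c := by
  obtain ⟨ε, hε⟩ := h
  have h1 := kap_congr hd hcf hm (cop_unit_mul ε hc) (c := b)
    (by rw [← neg_sub]; exact hε.neg_right)
  rw [← h1, kap_mul hd hcf hm (cop_unit ε) hc, kap_unit hd hcf hm, zero_add]

theorem kap_star (hd : 2 ≤ d) (hcf : ∀ p : ℕ, p.Prime → ¬ p ^ 3 ∣ d) (hm : 1 ≤ m) {b : Eis}
    (hb : IsCoprime b ((lev d m : ℕ) : Eis)) : kap d m (star b) = -kap d m b := by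
  have _ := hcf
  have _ := hm
  unfold kap
  split_ifs with h
  · exact csn_star (by omega) (caseC_three h) (cop_of_dvd hb d_dvd_lev)
  · have hb3 := not_three_of_cop h hb
    have hbd := cop_prim hb3 (cop_of_dvd hb (dp_dvd.trans d_dvd_lev))
    rw [prim_star hb3, csn_star (dp_ne hd) (dp_three hd) hbd, nn_star hb3]
    ring

private theorem star_int (x : ℤ) : star (x : Eis) = (x : Eis) := by
  ext
  · simp
  · simp

theorem kap_int (hd : 2 ≤ d) (hcf : ∀ p : ℕ, p.Prime → ¬ p ^ 3 ∣ d) (hm : 1 ≤ m) {x : ℤ}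
    (hx : IsCoprime (x : Eis) ((lev d m : ℕ) : Eis)) : kap d m (x : Eis) = 0 := by
  have h := kap_star hd hcf hm hx
  rw [star_int] at h
  exact zmod3_two _ h

theorem kap_s3 (hd : 2 ≤ d) (hcf : ∀ p : ℕ, p.Prime → ¬ p ^ 3 ∣ d) (hm : 1 ≤ m) (h : caseC d m) :
    kap d m s3 = 0 := by
  have _ := hcf
  have _ := hm
  unfold kap
  rw [if_pos h]
  have hd0 : d ≠ 0 := by omega
  have h3 := caseC_three h
  have hc3 : (3 : ℕ).Coprime d := (Nat.Prime.coprime_iff_not_dvd Nat.prime_three).2 h3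
  have hs : IsCoprime s3 (d : Eis) := by rw [isCoprime_iff, nm_s3]; exact hc3
  have h1 := csn_mul hd0 h3 hs hs
  rw [← pow_two, s3_sq] at h1
  have h2 : IsCoprime ((-3 : ℤ) : Eis) (d : Eis) := by
    rw [isCoprime_iff]
    have : ((-3 : ℤ) : Eis) = s3 ^ 2 := by rw [s3_sq]; simp
    rw [this, nm_pow, nm_s3]
    exact Nat.Coprime.pow_left 2 hc3
  have h4 := csn_int hd0 h3 h2
  have h5 : ((-3 : ℤ) : Eis) = -3 := by simp
  rw [h5] at h4
  rw [h4] at h1
  revert h1
  generalize csn d s3 = y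
  revert y
  decide

private theorem cs_pow' {q : Eis} (hq : Prime q) (h3 : ¬ 3 ∣ nm q) {b : Eis} (hb : ¬ q ∣ b)
    (k : ℕ) : cs q (b ^ k) = k * cs q b := by
  induction k with
  | zero => rw [pow_zero, cs_one hq h3]; simp
  | succ k ih =>
    rw [pow_succ, cs_mul hq h3 (fun h => hb (hq.dvd_of_dvd_pow h)) hb, ih]
    push_cast; ring

theorem kap_cube (hd : 2 ≤ d) (hcf : ∀ p : ℕ, p.Prime → ¬ p ^ 3 ∣ d) (hm : 1 ≤ m) {p : ℕ} [Fact p.Prime] {q : Eis}
    (hq : nm q = p) (h3 : p ≠ 3) (hp : ¬ p ∣ lev d m) : kap d m q = 0 ↔ ∃ x : ℤ, (p : ℤ) ∣ x ^ 3 - d := by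
  have hpp : p.Prime := Fact.out
  have h3q : ¬ 3 ∣ nm q := by
    rw [hq]
    intro h
    exact h3 ((Nat.prime_dvd_prime_iff_eq Nat.prime_three hpp).1 h).symm
  obtain ⟨ε, hε, h1⟩ := prim_spec h3q
  set q' := prim q with hq'
  have hnq' : nm q' = p := by rw [hε, nm_mul, nm_unit, one_mul, hq]
  have hcop : IsCoprime q ((lev d m : ℕ) : Eis) := by
    rw [isCoprime_iff, hq]
    exact (Nat.Prime.coprime_iff_not_dvd hpp).2 hp
  have hk1 : kap d m q' = kap d m q := by
    rw [hε, kap_mul hd hcf hm (cop_unit ε) hcop, kap_unit hd hcf hm, zero_add]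
  have hpd : ¬ p ∣ d := fun h => hp (h.trans d_dvd_lev)
  have hd0 : d ≠ 0 := by omega
  have h3p : ¬ 3 ∣ nm q' := by rw [hnq', ← hq]; exact h3q
  have hprime : Prime q' := prime_of_nm (by rw [hnq']; exact hpp)
  have hk2 : kap d m q' = cs q' (d : Eis) := by
    unfold kap
    split_ifs with hC
    · exact (cs_eq_csn hnq' h1 hd0 (caseC_three hC) hpd).symm
    · rw [prim_of_one h1]
      have hdp : ¬ p ∣ d / 3 ^ d.factorization 3 := fun h => hpd (h.trans dp_dvd)
      rw [← cs_eq_csn hnq' h1 (dp_ne hd) (dp_three hd) hdp, ← cs_three hnq' h1]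
      have hq3 : ¬ q' ∣ (3 : Eis) := by
        intro h
        have h4 : q' ∣ ((3 : ℕ) : Eis) := by simpa using h
        have h5 := dvd_natCast h4
        rw [hnq'] at h5
        exact h3 ((Nat.prime_dvd_prime_iff_eq hpp Nat.prime_three).1 (hpp.dvd_of_dvd_pow h5))
      have hqd : ¬ q' ∣ ((d / 3 ^ d.factorization 3 : ℕ) : Eis) := by
        intro h
        have h5 := dvd_natCast h
        rw [hnq'] at h5
        exact hdp (hpp.dvd_of_dvd_pow h5)
      have hsplit : (d : Eis) = 3 ^ d.factorization 3 * ((d / 3 ^ d.factorization 3 : ℕ) : Eis) := by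
        have : 3 ^ d.factorization 3 * (d / 3 ^ d.factorization 3) = d :=
          Nat.ordProj_mul_ordCompl_eq_self d 3
        calc (d : Eis) = ((3 ^ d.factorization 3 * (d / 3 ^ d.factorization 3) : ℕ) : Eis) := by
              rw [this]
          _ = _ := by push_cast; ring
      rw [hsplit, cs_mul hprime h3p (fun h => hq3 (hprime.dvd_of_dvd_pow h)) hqd,
        cs_pow' hprime h3p hq3]
      have hsplit' : 3 ^ d.factorization 3 * ((d / 3 ^ d.factorization 3 : ℕ) : Eis) = (d : Eis) :=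
        hsplit.symm
      ring
  rw [← hk1, hk2]
  have h6 := cs_eq_zero_iff (q := q') (by rw [hnq']; exact hpp) (by rw [hnq']; exact h3) (n := d)
    (by rw [hnq']; exact hpd)
  rw [hnq'] at h6
  exact h6

/-- `kap` of elements `≡ 1 mod 9` -/
private theorem kap_nine (hd : 2 ≤ d) {y : Eis} (h9 : (9 : Eis) ∣ y - 1) :
    kap d m y = csn (d / 3 ^ d.factorization 3) y := by
  unfold kap
  split_ifs with h
  · have h0 : d.factorization 3 = 0 := Nat.factorization_eq_zero_of_not_dvd (caseC_three h)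
    rw [h0]; simp
  · have h3 : (3 : Eis) ∣ y - 1 := dvd_trans ⟨3, by norm_num⟩ h9
    rw [prim_of_one h3]
    have h4 : nn y = 0 := by
      have h5 : (9 : Eis) ∣ 1 - y := by rw [← neg_sub]; exact h9.neg_right
      rw [← nn_congr not_three_one h5, nn_one]
    rw [h4]; ring

/-- an element `≡ 1` modulo the primes different from `p` -/
private theorem csn_single {n p : ℕ} (hn : n ≠ 0) (h3 : ¬ 3 ∣ n) (hp : p.Prime) {y : Eis}
    (h : ∀ p' : ℕ, p'.Prime → p' ∣ n → p' ≠ p → (p' : Eis) ∣ y - 1) :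
    csn n y = (n.factorization p : ZMod 3) * csp p y := by
  unfold csn
  rw [Finsupp.sum]
  by_cases hpn : p ∣ n
  · refine Finset.sum_eq_single p ?_ ?_
    · intro p' hp' hne
      rw [Nat.support_factorization, Nat.mem_primeFactors] at hp'
      have h4 : ¬ 3 ∣ p' := fun h5 => h3 (h5.trans hp'.2.1)
      rw [← csn_prime hp'.1, csn_congr hp'.1.ne_zero h4 (h p' hp'.1 hp'.2.1 hne),
        csn_one' hp'.1.ne_zero h4, mul_zero]
    · intro h5
      rw [Finsupp.notMem_support_iff] at h5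
      rw [h5]; simp
  · rw [Nat.factorization_eq_zero_of_not_dvd hpn]
    rw [Nat.cast_zero, zero_mul]
    refine Finset.sum_eq_zero ?_
    intro p' hp'
    rw [Nat.support_factorization, Nat.mem_primeFactors] at hp'
    have h4 : ¬ 3 ∣ p' := fun h5 => h3 (h5.trans hp'.2.1)
    have hne : p' ≠ p := by rintro rfl; exact hpn hp'.2.1
    rw [← csn_prime hp'.1, csn_congr hp'.1.ne_zero h4 (h p' hp'.1 hp'.2.1 hne),
      csn_one' hp'.1.ne_zero h4, mul_zero]

/-- coprimality from congruences -/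
private theorem cop_of_primes {y : Eis} {f p : ℕ}
    (h : ∀ p' : ℕ, p'.Prime → p' ∣ f → p' ≠ p → (p' : Eis) ∣ y - 1) (hp : ¬ p ∣ nm y) :
    IsCoprime y (f : Eis) := by
  rw [isCoprime_iff]
  apply Nat.coprime_of_dvd
  intro k hk h1 h2
  by_cases hkp : k = p
  · rw [hkp] at h1; exact hp h1
  · have h3 := nm_congr (h k hk h2 hkp)
    rw [nm_one] at h3
    have h4 : ((nm y : ℕ) : ZMod k) = 0 := (ZMod.natCast_eq_zero_iff _ _).2 h1
    rw [h4] at h3
    have : Fact (1 < k) := ⟨hk.one_lt⟩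
    simp at h3

private theorem fact_lt (hd : 2 ≤ d) (hcf : ∀ p : ℕ, p.Prime → ¬ p ^ 3 ∣ d) {p : ℕ}
    (hp : p.Prime) (h : p ∣ d) : ((d.factorization p : ℕ) : ZMod 3) ≠ 0 := by
  have h0 : d ≠ 0 := by omega
  have h1 : 1 ≤ d.factorization p := (hp.dvd_iff_one_le_factorization h0).1 h
  have h2 : d.factorization p < 3 := by
    by_contra hcon
    push Not at hcon
    exact hcf p hp ((hp.pow_dvd_iff_le_factorization h0).2 hcon)
  rw [Ne, ZMod.natCast_eq_zero_iff]
  intro h3
  have := Nat.le_of_dvd (by omega) h3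
  omega

private theorem eval_aux (k : ℕ) : (⟨1 + 3 * 0, 3 * (k : ℤ)⟩ : Eis) = 1 + 3 * (k : Eis) * om := by
  have h3r : (3 : Eis).re = 3 := rfl
  have h3i : (3 : Eis).im = 0 := rfl
  ext
  · simp [om, h3r, h3i, QuadraticAlgebra.re_one]
  · simp [om, h3r, h3i, QuadraticAlgebra.im_one]

private theorem zmod3_inv : ∀ a : ZMod 3, a ≠ 0 → ∃ c : ZMod 3, a * c = 1 := by decide

/-- the construction of `y` -/
private theorem exists_y {p f : ℕ} (hp : p.Prime) (hf : f ≠ 0) (h3 : p ≠ 3) {l l' y0 : Eis}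
    (hll : IsCoprime l l') (hl : (nm l).Coprime (9 * (f / p ^ f.factorization p))) :
    ∃ y : Eis, l ∣ y - y0 ∧ l' ∣ y - 1 ∧ (9 : Eis) ∣ y - 1 ∧
      ∀ p' : ℕ, p'.Prime → p' ∣ f → p' ≠ p → (p' : Eis) ∣ y - 1 := by
  have _ := h3
  set R : ℕ := 9 * (f / p ^ f.factorization p) with hR
  have hc : IsCoprime l (l' * (R : Eis)) := by
    apply IsCoprime.mul_right hll
    rw [isCoprime_iff]; exact hl
  obtain ⟨u, v, huv⟩ := hc
  refine ⟨1 + (y0 - 1) * v * (l' * R), ?_, ?_, ?_, ?_⟩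
  · refine ⟨-(y0 - 1) * u, ?_⟩
    linear_combination (y0 - 1) * huv
  · exact ⟨(y0 - 1) * v * R, by ring⟩
  · refine ⟨(y0 - 1) * v * l' * ((f / p ^ f.factorization p : ℕ) : Eis), ?_⟩
    rw [hR]; push_cast; ring
  · intro p' hp' hpf hne
    have h5 : p' ∣ f / p ^ f.factorization p := by
      have h6 : p ^ f.factorization p * (f / p ^ f.factorization p) = f :=
        Nat.ordProj_mul_ordCompl_eq_self f p
      rw [← h6] at hpf
      rcases hp'.dvd_mul.1 hpf with h7 | h7
      · exact absurd ((Nat.prime_dvd_prime_iff_eq hp' hp).1 (hp'.dvd_of_dvd_pow h7)) hne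
      · exact h7
    have h8 : (p' : Eis) ∣ (R : Eis) := natCast_dvd.2 (h5.trans (dvd_mul_left _ _))
    have h9 : (1 + (y0 - 1) * v * (l' * R) - 1 : Eis) = (y0 - 1) * v * l' * R := by ring
    rw [h9]
    exact h8.mul_left _

theorem kap_surj (hd : 2 ≤ d) (hcf : ∀ p : ℕ, p.Prime → ¬ p ^ 3 ∣ d) (hm : 1 ≤ m) :
    ∃ y : Eis, IsCoprime y ((lev d m : ℕ) : Eis) ∧ kap d m y = 1 := by
  have hf0 : lev d m ≠ 0 := by have := lev_pos hd hm; omega
  have hd0 : d ≠ 0 := by omega
  by_cases hex : ∃ p : ℕ, p.Prime ∧ p ≠ 3 ∧ p ∣ d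
  · obtain ⟨p, hp, hp3, hpd⟩ := hex
    have hv := fact_lt hd hcf hp hpd
    obtain ⟨c, hc⟩ := zmod3_inv _ hv
    have hcopR : p.Coprime (9 * (lev d m / p ^ (lev d m).factorization p)) := by
      rw [Nat.coprime_mul_iff_right]
      constructor
      · rw [Nat.Prime.coprime_iff_not_dvd hp]
        intro h
        have : p ∣ 3 ^ 2 := by norm_num; exact h
        exact hp3 ((Nat.prime_dvd_prime_iff_eq hp Nat.prime_three).1 (hp.dvd_of_dvd_pow this))
      · exact Nat.coprime_ordCompl hp hf0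
    have hfac : (d / 3 ^ d.factorization 3).factorization p = d.factorization p := by
      rw [Nat.factorization_ordCompl, Finsupp.erase_ne hp3]
    -- conclusion from `y`
    have hfin : ∀ y : Eis, (9 : Eis) ∣ y - 1 →
        (∀ p' : ℕ, p'.Prime → p' ∣ lev d m → p' ≠ p → (p' : Eis) ∣ y - 1) → ¬ p ∣ nm y →
        csp p y = c → ∃ y : Eis, IsCoprime y ((lev d m : ℕ) : Eis) ∧ kap d m y = 1 := by
      intro y h9 hy hpy hcsp
      refine ⟨y, cop_of_primes hy hpy, ?_⟩
      rw [kap_nine hd h9, csn_single (dp_ne hd) (dp_three hd) hp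
        (fun p' hp' h1 h2 => hy p' hp' (h1.trans (dp_dvd.trans d_dvd_lev)) h2), hfac, hcsp, hc]
    have hmod : p % 3 = 1 ∨ p % 3 = 2 := by
      have h1 : ¬ 3 ∣ p := fun h => hp3 ((Nat.prime_dvd_prime_iff_eq Nat.prime_three hp).1 h).symm
      omega
    rcases hmod with hmod | hmod
    · -- split
      obtain ⟨l, hl⟩ := exists_nm_eq hp hmod
      have hlp : Prime l := prime_of_nm (by rw [hl]; exact hp)
      have hl3 : ¬ 3 ∣ nm l := by rw [hl]; omega
      have hls : nm (star l) = p := by rw [nm_star, hl]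
      have hlsp : Prime (star l) := prime_of_nm (by rw [hls]; exact hp)
      have hl3s : ¬ 3 ∣ nm (star l) := by rw [hls]; omega
      obtain ⟨y0, hy0, hcs⟩ := exists_cs_eq hlp hl3 c
      have hll : IsCoprime l (star l) := by
        rw [hlp.irreducible.coprime_iff_not_dvd]
        exact not_dvd_star (by rw [hl]; exact hp) (by rw [hl]; exact hp3)
      obtain ⟨y, h1, h2, h9, h4⟩ := exists_y (y0 := y0) hp hf0 hp3 hll (by rw [hl]; exact hcopR)
      refine hfin y h9 h4 ?_ ?_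
      · intro hpy
        rcases dvd_or_of_dvd_nm hp hl hpy with h5 | h5
        · exact hy0 ((dvd_sub_right h5).1 h1)
        · have h6 : star l ∣ 1 := (dvd_sub_right h5).1 h2
          exact hlsp.not_dvd_one h6
      · rw [csp_eq hp hl hp3, cs_congr hlp hl3 h1, hcs, cs_congr hlsp hl3s h2, cs_one hlsp hl3s,
          add_zero]
    · -- inert
      have hlp : Prime (p : Eis) := prime_inert hp hmod
      have hl3 : ¬ 3 ∣ nm (p : Eis) := by
        rw [nm_natCast]
        intro h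
        have := Nat.prime_three.dvd_of_dvd_pow h
        omega
      obtain ⟨y0, hy0, hcs⟩ := exists_cs_eq hlp hl3 c
      obtain ⟨y, h1, h2, h9, h4⟩ := exists_y (l := (p : Eis)) (l' := 1) (y0 := y0) hp hf0 hp3
        isCoprime_one_right (by rw [nm_natCast]; exact Nat.Coprime.pow_left 2 hcopR)
      refine hfin y h9 h4 ?_ ?_
      · intro hpy
        have h5 := inert_dvd hp hmod hpy
        exact hy0 ((dvd_sub_right h5).1 h1)
      · rw [csp_inert hp hmod, cs_congr hlp hl3 h1, hcs]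
  · -- `d` is a power of 3
    push Not at hex
    have h3d : 3 ∣ d := by
      obtain ⟨p, hp, hpd⟩ := Nat.exists_prime_and_dvd (by omega : d ≠ 1)
      by_cases h : p = 3
      · rw [h] at hpd; exact hpd
      · exact absurd hpd (hex p hp h)
    have hC : ¬ caseC d m := fun h => caseC_three h h3d
    have hone : d / 3 ^ d.factorization 3 = 1 := by
      by_contra hne
      obtain ⟨p, hp, hpd⟩ := Nat.exists_prime_and_dvd hne
      by_cases h : p = 3
      · rw [h] at hpd; exact dp_three hd hpd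
      · exact hex p hp h (hpd.trans dp_dvd)
    obtain ⟨c, hc⟩ := zmod3_inv _ (fact_lt hd hcf Nat.prime_three h3d)
    set R : ℕ := lev d m / 3 ^ (lev d m).factorization 3 with hR
    have hcop : IsCoprime ((9 : ℕ) : Eis) (R : Eis) := by
      rw [isCoprime_iff, nm_natCast]
      have h1 : Nat.Coprime 3 R := Nat.coprime_ordCompl Nat.prime_three hf0
      have : (9 : ℕ) ^ 2 = 3 ^ 4 := by norm_num
      rw [this]
      exact Nat.Coprime.pow_left 4 h1
    obtain ⟨u, v, huv⟩ := hcop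
    set y1 : Eis := ⟨1 + 3 * 0, 3 * (c.val : ℤ)⟩ with hy1
    have hy1' : y1 = 1 + 3 * (c.val : Eis) * om := eval_aux c.val
    have hnn1 : nn y1 = c := by
      rw [hy1, nn_eval]
      simp
    set y : Eis := 1 + 3 * (c.val : Eis) * om * (v * R) with hy
    have hyy1 : (9 : Eis) ∣ y1 - y := by
      refine ⟨3 * (c.val : Eis) * om * u, ?_⟩
      rw [hy1', hy]
      push_cast at huv
      linear_combination (-3 * (c.val : Eis) * om) * huv
    have hy3 : (3 : Eis) ∣ y - 1 := ⟨(c.val : Eis) * om * (v * R), by rw [hy]; ring⟩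
    have hnm3 : ∀ z : Eis, (3 : Eis) ∣ z - 1 → ¬ 3 ∣ nm z := by
      intro z hz h
      have hz' : ((3 : ℕ) : Eis) ∣ z - 1 := by simpa using hz
      have h3 := nm_congr hz'
      rw [nm_one, (ZMod.natCast_eq_zero_iff _ _).2 h] at h3
      revert h3
      decide
    have hy13 : ¬ 3 ∣ nm y1 := hnm3 y1 ⟨(c.val : Eis) * om, by rw [hy1']; ring⟩
    refine ⟨y, ?_, ?_⟩
    · refine cop_of_primes (p := 3) ?_ (hnm3 y hy3)
      intro p' hp' hpf hne
      have h5 : p' ∣ R := by
        have h6 : 3 ^ (lev d m).factorization 3 * (lev d m / 3 ^ (lev d m).factorization 3) = lev d m :=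
          Nat.ordProj_mul_ordCompl_eq_self (lev d m) 3
        rw [← h6] at hpf
        rcases hp'.dvd_mul.1 hpf with h7 | h7
        · exact absurd ((Nat.prime_dvd_prime_iff_eq hp' Nat.prime_three).1
            (hp'.dvd_of_dvd_pow h7)) hne
        · exact h7
      have h8 : (p' : Eis) ∣ (R : Eis) := natCast_dvd.2 h5
      have h9 : y - 1 = 3 * (c.val : Eis) * om * v * R := by rw [hy]; ring
      rw [h9]
      exact h8.mul_left _
    · unfold kap
      rw [if_neg hC, hone, csn_zero_one.2, zero_add, ← nn_congr hy13 hyy1, hnn1, hc]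

end MPd9f52e
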