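import Mathlib
import Pool.Agent.Lib.MP_d9f52e_nt.KArith
import Pool.Agent.Lib.MP_d9f52e_nt.RKap

/-!
# KTA: the arithmetic function of the numbers `tt d m n`, one prime of `Eis` at a time

`TS d m A n` is one sixth of the sum of `wj (kap d m b)` over the `b` in `Eis` of norm `n` which
are prime to the level `lev d m` and to `A`.
* `TS_one_apply`: every `b` is prime to `1`.
* `TS_one_one`: the elements of norm `1` are the six units (`unit_iff`, `card_units`), they are
  prime to everything and `kap_unit`, `wj_zero`.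
* `TS_step`: by `dl_mul_apply` the value of the left side at `n ≠ 0` is `TS A n` minus, if `nm q`
  divides `n`, `wj (kap q) * TS A (n / nm q)`. The `b` of norm `n` prime to the level and to `A`
  are of two kinds: `q ∤ b` (these are prime to `A * q`, because `q` is a prime of the principal
  ideal domain `Eis`: `(hq.irreducible).coprime_iff_not_dvd`), and `b = q * c` with `nm c = n / nm q`
  (`nm_mul`), `c` prime to the level and to `A`, conversely these `q * c` are prime to the level
  and to `A` because `q` is. `kap_mul` and `wj_add`.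
* `TS_off`: if `b` occurs in the sum for `n`, `p ∣ n`, then `b` is prime to `p`, so `nm b = n` is
  prime to `p` (`isCoprime_iff`), a contradiction; so the sum is empty.
-/

set_option autoImplicit false

open ArithmeticFunction

namespace MPd9f52e

variable {d m : ℕ}

open Classical in
/-- One sixth of the sum of `w ^ kap b` over the `b` of norm `n` prime to the level and to `A`. -/
noncomputable def TS (d m : ℕ) (A : Eis) : ArithmeticFunction ℂ :=
  ⟨fun n => if n = 0 then 0 else (1 / 6 : ℂ) * ∑ b ∈ (ofNorm n).filter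
    (fun b => IsCoprime b ((lev d m : ℕ) : Eis) ∧ IsCoprime b A), wj (kap d m b), by simp⟩

open Classical in
/-- the elements of norm `n` prime to the level and to `A` -/
private noncomputable def FS (d m : ℕ) (A : Eis) (n : ℕ) : Finset Eis :=
  (ofNorm n).filter (fun b => IsCoprime b ((lev d m : ℕ) : Eis) ∧ IsCoprime b A)

private theorem mem_FS (A : Eis) (n : ℕ) (b : Eis) : b ∈ FS d m A n ↔
    nm b = n ∧ IsCoprime b ((lev d m : ℕ) : Eis) ∧ IsCoprime b A := by
  classical
  unfold FS
  rw [Finset.mem_filter, mem_ofNorm]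

private theorem TS_apply (A : Eis) {n : ℕ} (hn : n ≠ 0) : TS d m A n =
    (1 / 6 : ℂ) * ∑ b ∈ FS d m A n, wj (kap d m b) := by
  have h : TS d m A n =
      if n = 0 then (0 : ℂ) else (1 / 6 : ℂ) * ∑ b ∈ FS d m A n, wj (kap d m b) := rfl
  rw [h, if_neg hn]

theorem TS_one_apply {n : ℕ} (hn : n ≠ 0) : TS d m 1 n = tt d m n := by
  classical
  rw [TS_apply 1 hn]
  unfold tt
  congr 1
  refine Finset.sum_congr ?_ (fun _ _ => rfl)
  ext b
  rw [mem_FS, Finset.mem_filter, mem_ofNorm]
  exact ⟨fun h => ⟨h.1, h.2.1⟩, fun h => ⟨h.1, h.2, isCoprime_one_right⟩⟩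

private theorem card_ofNorm_one : (ofNorm 1).card = 6 := by
  have hb : Function.Bijective (fun ε : Eisˣ =>
      (⟨(ε : Eis), (mem_ofNorm 1 _).2 (nm_unit ε)⟩ : {b // b ∈ ofNorm 1})) := by
    constructor
    · intro a b h
      have h1 := congrArg Subtype.val h
      exact Units.ext h1
    · rintro ⟨b, hb⟩
      obtain ⟨ε, hε⟩ := (unit_iff b).2 ((mem_ofNorm 1 b).1 hb)
      exact ⟨ε, Subtype.ext hε⟩
  have h := Nat.card_congr (Equiv.ofBijective _ hb)
  rw [card_units, Nat.card_eq_fintype_card, Fintype.card_coe] at h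
  exact h.symm

theorem TS_one_one (hd : 2 ≤ d) (hcf : ∀ p : ℕ, p.Prime → ¬ p ^ 3 ∣ d) (hm : 1 ≤ m) :
    TS d m 1 1 = 1 := by
  rw [TS_apply 1 one_ne_zero]
  have h1 : FS d m 1 1 = ofNorm 1 := by
    ext b
    rw [mem_FS, mem_ofNorm]
    refine ⟨fun h => h.1, fun h => ⟨h, ?_, isCoprime_one_right⟩⟩
    obtain ⟨ε, rfl⟩ := (unit_iff b).2 h
    exact ⟨((ε⁻¹ : Eisˣ) : Eis), 0, by rw [Units.inv_mul, zero_mul, add_zero]⟩
  have h2 : ∀ b ∈ ofNorm 1, wj (kap d m b) = 1 := by
    intro b hb
    obtain ⟨ε, rfl⟩ := (unit_iff b).2 ((mem_ofNorm 1 b).1 hb)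
    rw [kap_unit hd hcf hm, wj_zero]
  rw [h1, Finset.sum_congr rfl h2, Finset.sum_const, card_ofNorm_one]
  norm_num

theorem TS_step (hd : 2 ≤ d) (hcf : ∀ p : ℕ, p.Prime → ¬ p ^ 3 ∣ d) (hm : 1 ≤ m) (A : Eis)
    {q : Eis} (hq : Prime q) (hql : IsCoprime q ((lev d m : ℕ) : Eis)) (hqA : IsCoprime q A) :
    (1 - wj (kap d m q) • dl (nm q)) * TS d m A = TS d m (A * q) := by
  classical
  have hq0 : 0 < nm q := by
    rcases Nat.eq_zero_or_pos (nm q) with h | h
    · exact absurd ((nm_eq_zero q).1 h) hq.ne_zero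
    · exact h
  have hcop : ∀ b : Eis, IsCoprime b q ↔ ¬ q ∣ b := by
    intro b
    rw [isCoprime_comm]
    exact hq.irreducible.coprime_iff_not_dvd
  ext n
  by_cases hn : n = 0
  · rw [hn, ArithmeticFunction.map_zero, ArithmeticFunction.map_zero]
  have e1 : ((1 - wj (kap d m q) • dl (nm q)) * TS d m A) n =
      TS d m A n - wj (kap d m q) * (dl (nm q) * TS d m A) n := by
    rw [sub_mul, one_mul, smul_mul_assoc]
    rfl
  rw [e1, dl_mul_apply hq0 _ hn, TS_apply A hn, TS_apply (A * q) hn]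
  -- the two kinds of elements
  have e2 : ∑ b ∈ FS d m A n, wj (kap d m b) =
      ∑ b ∈ FS d m (A * q) n, wj (kap d m b) +
      ∑ b ∈ (FS d m A n).filter (fun b => q ∣ b), wj (kap d m b) := by
    rw [← Finset.sum_filter_add_sum_filter_not (FS d m A n) (fun b => q ∣ b), add_comm]
    congr 1
    refine Finset.sum_congr ?_ (fun _ _ => rfl)
    ext b
    rw [Finset.mem_filter, mem_FS, mem_FS, IsCoprime.mul_right_iff, hcop]
    constructor
    · rintro ⟨⟨h1, h2, h3⟩, h4⟩
      exact ⟨h1, h2, h3, h4⟩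
    · rintro ⟨h1, h2, h3, h4⟩
      exact ⟨⟨h1, h2, h3⟩, h4⟩
  rw [e2]
  have e3 : (1 / 6 : ℂ) * ∑ b ∈ (FS d m A n).filter (fun b => q ∣ b), wj (kap d m b) =
      wj (kap d m q) * (if nm q ∣ n then TS d m A (n / nm q) else 0) := by
    split_ifs with hdv
    · obtain ⟨k, rfl⟩ := hdv
      have hk : k ≠ 0 := by
        rintro rfl
        exact hn (mul_zero _)
      rw [Nat.mul_div_cancel_left _ hq0, TS_apply A hk]
      have e4 : (FS d m A (nm q * k)).filter (fun b => q ∣ b) =
          (FS d m A k).image (fun c => q * c) := by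
        ext b
        rw [Finset.mem_filter, Finset.mem_image, mem_FS]
        constructor
        · rintro ⟨⟨h1, h2, h3⟩, c, rfl⟩
          rw [nm_mul] at h1
          exact ⟨c, (mem_FS A k c).2 ⟨Nat.eq_of_mul_eq_mul_left hq0 h1, h2.of_mul_left_right,
            h3.of_mul_left_right⟩, rfl⟩
        · rintro ⟨c, hc, rfl⟩
          obtain ⟨h1, h2, h3⟩ := (mem_FS A k c).1 hc
          exact ⟨⟨by rw [nm_mul, h1], hql.mul_left h2, hqA.mul_left h3⟩, dvd_mul_right _ _⟩
      have hinj : Set.InjOn (fun c : Eis => q * c) (FS d m A k : Set Eis) := by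
        intro a _ b _ h
        exact mul_left_cancel₀ hq.ne_zero h
      rw [e4, Finset.sum_image hinj]
      have e5 : ∀ c ∈ FS d m A k,
          wj (kap d m (q * c)) = wj (kap d m q) * wj (kap d m c) := by
        intro c hc
        rw [mem_FS] at hc
        rw [kap_mul hd hcf hm hql hc.2.1, wj_add]
      rw [Finset.sum_congr rfl e5, ← Finset.mul_sum]
      ring
    · have e6 : (FS d m A n).filter (fun b => q ∣ b) = ∅ := by
        rw [Finset.filter_eq_empty_iff]
        intro b hb hqb
        rw [mem_FS] at hb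
        exact hdv (hb.1 ▸ nm_dvd hqb)
      rw [e6, Finset.sum_empty, mul_zero, mul_zero]
  rw [mul_add, e3]
  ring

theorem TS_off {p : ℕ} (hp : p.Prime) (A : Eis)
    (h : ∀ b : Eis, IsCoprime b ((lev d m : ℕ) : Eis) → IsCoprime b A → IsCoprime b (p : Eis)) :
    Off p (TS d m A) := by
  intro n hn
  by_cases h0 : n = 0
  · rw [h0, ArithmeticFunction.map_zero]
  have e1 : FS d m A n = ∅ := by
    rw [Finset.eq_empty_iff_forall_notMem]
    intro b hb
    rw [mem_FS] at hb
    have h4 := (isCoprime_iff b p).1 (h b hb.2.1 hb.2.2)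
    rw [hb.1] at h4
    exact Nat.not_coprime_of_dvd_of_dvd hp.one_lt hn dvd_rfl h4
  rw [TS_apply A h0, e1, Finset.sum_empty, mul_zero]

end MPd9f52e
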