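import Mathlib
import Pool.Agent.Lib.MP_d9f52e_nt.KTA

/-!
# KTB: the arithmetic function of the numbers `tt d m n`, prime by prime
-/

set_option autoImplicit false

open ArithmeticFunction

namespace MPd9f52e

variable {d m : ℕ}

theorem T_off_lev (hd : 2 ≤ d) (hm : 1 ≤ m) {p : ℕ} (hp : p.Prime) (h : p ∣ lev d m) :
    Off p (TS d m 1) := by
  apply TS_off hp
  intro b hb _
  exact hb.of_isCoprime_of_dvd_right (natCast_dvd.2 h)

private theorem cop_lev {q : Eis} {p j : ℕ} (hp : p.Prime) (hq : nm q = p ^ j) (h : ¬ p ∣ lev d m) :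
    IsCoprime q ((lev d m : ℕ) : Eis) := by
  rw [isCoprime_iff, hq]
  exact Nat.Coprime.pow_left _ ((Nat.Prime.coprime_iff_not_dvd hp).2 h)

private theorem one_smul_dl (n : ℕ) : (1 - wj 0 • dl n) = 1 - dl n := by
  rw [wj_zero, one_smul]

theorem T_off_inert (hd : 2 ≤ d) (hcf : ∀ p : ℕ, p.Prime → ¬ p ^ 3 ∣ d) (hm : 1 ≤ m) {p : ℕ}
    (hp : p.Prime) (h : ¬ p ∣ lev d m) (h2 : p % 3 = 2) :
    Off p ((1 - dl (p ^ 2)) * TS d m 1) := by
  have hq := prime_inert hp h2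
  have hql : IsCoprime (p : Eis) ((lev d m : ℕ) : Eis) := cop_lev hp (nm_natCast p) h
  have hk : kap d m (p : Eis) = 0 := by
    have := kap_int hd hcf hm (x := (p : ℤ)) (by rw [Int.cast_natCast]; exact hql)
    rwa [Int.cast_natCast] at this
  have h3 := TS_step hd hcf hm 1 hq hql isCoprime_one_right
  rw [hk, nm_natCast, one_smul_dl] at h3
  rw [h3]
  apply TS_off hp
  intro b _ hb
  rwa [one_mul] at hb

private theorem smul_mul' (c : ℂ) (F G : ArithmeticFunction ℂ) : (c • F) * G = c • (F * G) := by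
  ext n
  have e : ∀ (H : ArithmeticFunction ℂ) (k : ℕ), (c • H) k = c * H k := fun _ _ => rfl
  rw [e, mul_apply, mul_apply, Finset.mul_sum]
  apply Finset.sum_congr rfl
  intro x _
  rw [e, mul_assoc]

private theorem expand (a b : ℂ) (D : ArithmeticFunction ℂ) :
    (1 - a • D) * (1 - b • D) = 1 - (a + b) • D + (a * b) • (D * D) := by
  have e1 : (a • D) * (b • D) = (a * b) • (D * D) := by
    rw [smul_mul', mul_comm D, smul_mul', smul_smul]
  have e2 : (1 - a • D) * (1 - b • D) = 1 - a • D - b • D + (a • D) * (b • D) := by ring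
  rw [e2, e1, add_smul]
  ring

private theorem two_steps (hd : 2 ≤ d) (hcf : ∀ p : ℕ, p.Prime → ¬ p ^ 3 ∣ d) (hm : 1 ≤ m) {p : ℕ}
    (hp : p.Prime) (h : ¬ p ∣ lev d m) (h1 : p % 3 = 1) {l : Eis} (hl : nm l = p) :
    Off p (((1 - wj (-kap d m l) • dl p) * (1 - wj (kap d m l) • dl p)) * TS d m 1) := by
  have hlp : (nm l).Prime := by rw [hl]; exact hp
  have hq : Prime l := prime_of_nm hlp
  have hq' : Prime (star l) := prime_of_nm (by rw [nm_star]; exact hlp)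
  have hc1 : IsCoprime l ((lev d m : ℕ) : Eis) := cop_lev hp (j := 1) (by rw [hl, pow_one]) h
  have hc2 : IsCoprime (star l) ((lev d m : ℕ) : Eis) := cop_lev hp (j := 1) (by rw [nm_star, hl, pow_one]) h
  have hnd : ¬ l ∣ star l := not_dvd_star hlp (by rw [hl]; rintro rfl; omega)
  have hco : IsCoprime (star l) l := ((hq.irreducible.coprime_iff_not_dvd).2 hnd).symm
  have s1 := TS_step hd hcf hm 1 hq hc1 isCoprime_one_right
  have s2 := TS_step hd hcf hm (1 * l) hq' hc2 (by rw [one_mul]; exact hco)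
  rw [hl] at s1
  rw [nm_star, hl, kap_star hd hcf hm hc1] at s2
  rw [mul_assoc, s1, s2]
  apply TS_off hp
  intro b _ hb
  rwa [one_mul, mul_star_self, hl] at hb

private theorem cube_iff {p : ℕ} [Fact p.Prime] :
    (∃ x : ℤ, (p : ℤ) ∣ x ^ 3 - d) ↔ ∃ x : ZMod p, x ^ 3 = (d : ZMod p) := by
  constructor
  · rintro ⟨x, hx⟩
    refine ⟨(x : ZMod p), ?_⟩
    have := (ZMod.intCast_zmod_eq_zero_iff_dvd (x ^ 3 - d) p).2 hx
    push_cast at this
    exact sub_eq_zero.1 this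
  · rintro ⟨x, hx⟩
    obtain ⟨y, rfl⟩ := ZMod.intCast_surjective x
    refine ⟨y, ?_⟩
    rw [← ZMod.intCast_zmod_eq_zero_iff_dvd]
    push_cast
    rw [hx, sub_self]

theorem T_off_split (hd : 2 ≤ d) (hcf : ∀ p : ℕ, p.Prime → ¬ p ^ 3 ∣ d) (hm : 1 ≤ m) {p : ℕ}
    (hp : p.Prime) (h : ¬ p ∣ lev d m) (h1 : p % 3 = 1)
    (hc : ∃ x : ZMod p, x ^ 3 = (d : ZMod p)) : Off p ((1 - dl p) ^ 2 * TS d m 1) := by
  have : Fact p.Prime := ⟨hp⟩
  obtain ⟨l, hl⟩ := exists_nm_eq hp h1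
  have hk : kap d m l = 0 :=
    (kap_cube hd hcf hm hl (by rintro rfl; omega) h).2 (cube_iff.2 hc)
  have h3 := two_steps hd hcf hm hp h h1 hl
  rw [hk, neg_zero, one_smul_dl, ← pow_two] at h3
  exact h3

private theorem cases3 : ∀ k : ZMod 3, k ≠ 0 → (k = 1 ∧ -k = 2) ∨ (k = 2 ∧ -k = 1) := by decide

theorem T_off_irr (hd : 2 ≤ d) (hcf : ∀ p : ℕ, p.Prime → ¬ p ^ 3 ∣ d) (hm : 1 ≤ m) {p : ℕ}
    (hp : p.Prime) (h : ¬ p ∣ lev d m) (h1 : p % 3 = 1)
    (hc : ¬ ∃ x : ZMod p, x ^ 3 = (d : ZMod p)) :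
    Off p ((1 + dl p + dl (p ^ 2)) * TS d m 1) := by
  have : Fact p.Prime := ⟨hp⟩
  obtain ⟨l, hl⟩ := exists_nm_eq hp h1
  have hk : kap d m l ≠ 0 := by
    intro h0
    exact hc (cube_iff.1 ((kap_cube hd hcf hm hl (by rintro rfl; omega) h).1 h0))
  have h3 := two_steps hd hcf hm hp h h1 hl
  rw [expand, dl_mul_dl hp.pos hp.pos, ← pow_two, ← wj_add, neg_add_cancel, wj_zero, one_smul] at h3
  have e : wj (-kap d m l) + wj (kap d m l) = -1 := by
    have hs := sum_wj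
    rw [wj_zero] at hs
    rcases cases3 _ hk with ⟨e1, e2⟩ | ⟨e1, e2⟩
    · rw [e2, e1]
      linear_combination hs
    · rw [e2, e1]
      linear_combination hs
  rw [e, neg_smul, one_smul, sub_neg_eq_add] at h3
  exact h3

theorem T_off_three (hd : 2 ≤ d) (hcf : ∀ p : ℕ, p.Prime → ¬ p ^ 3 ∣ d) (hm : 1 ≤ m)
    (h : caseC d m) : Off 3 ((1 - dl 3) * TS d m 1) := by
  have hl : ¬ 3 ∣ lev d m := not_three_dvd_lev h
  have hc : IsCoprime s3 ((lev d m : ℕ) : Eis) :=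
    cop_lev Nat.prime_three (j := 1) (by rw [nm_s3, pow_one]) hl
  have s1 := TS_step hd hcf hm 1 prime_s3 hc isCoprime_one_right
  rw [kap_s3 hd hcf hm h, nm_s3, one_smul_dl] at s1
  rw [s1]
  apply TS_off Nat.prime_three
  intro b _ hb
  rw [one_mul] at hb
  have e : ((3 : ℕ) : Eis) = -(s3 ^ 2) := by
    rw [s3_sq, neg_neg]
    rfl
  rw [e]
  exact (hb.pow_right).neg_right

end MPd9f52e
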