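import Mathlib
import Pool.Agent.Lib.MP_d9f52e_nt.KTB
import Pool.Agent.Lib.MP_d9f52e_nt.KDecB

/-!
# KMain: the number of ideals of norm `n` of a pure cubic field

* `J_eq`: `eq_of_loc`. The values at `1` are `1` (`JJ_one`, `TS_one_one`). For a prime `p`:
  - `p ∣ m`: `D = 1`, `JJ K m` vanishes at multiples of `p`, `off_Z'` and `Off.mul`, `T_off_lev`.
  - `p ∤ m`: `D = locD K p`, `loc_J`, `off_J`. `D = (1 - dl p) * D'` with `Off p (D' * TS d m 1)`, then
    `D * (ZI m * T) = ((1 - dl p) * ZI m) * (D' * T)`, `off_Z` and `Off.mul`. Here `D'` is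
    `1 - dl (p ^ 2)`, `(1 - dl p) ^ 2`, `1 + dl p + dl (p ^ 2)` for `p ∤ 3 d` (`kd_inert`, `kd_split`,
    `kd_irr`, `T_off_inert`, `T_off_split`, `T_off_irr`), `1` for `p ∣ d` (`kd_dvd`, `T_off_lev`),
    `1` for `p = 3` if `3 ∤ d` and `d % 9 ∉ {1, 8}` (`kd_three`), `1 - dl 3` for `p = 3`,
    `d % 9 ∈ {1, 8}` (`kd_caseC`, `T_off_three`). Divisibility of the level: `prime_dvd_lev`.
* `card_ideals`: evaluate `J_eq` at `n`: `(ZI m * T) n` is the sum over `(a, b)` with `a * b = n`;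
  `a` is prime to `m`. `TS_one_apply`.
-/

set_option autoImplicit false

open ArithmeticFunction NumberField

namespace MPd9f52e

variable {d m : ℕ} {K : Type} [Field K] [NumberField K]

private theorem loc_split (hd : 2 ≤ d) (hcf : ∀ p : ℕ, p.Prime → ¬ p ^ 3 ∣ d) (hm : 1 ≤ m)
    (hK : Module.finrank ℚ K = 3) (th : 𝓞 K) (hth : th ^ 3 = d) {p : ℕ} (hp : p.Prime)
    (hpm : ¬ p ∣ m) :
    ∃ D' : ArithmeticFunction ℂ, locD K p = (1 - dl p) * D' ∧ Off p (D' * TS d m 1) := by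
  have hD : CubeFree d := ⟨hd, hcf⟩
  by_cases hpd : p ∣ d
  · refine ⟨1, ?_, ?_⟩
    · rw [mul_one]; exact kd_dvd hD hK th hth hp hpd
    · rw [one_mul]
      exact T_off_lev hd hm hp ((prime_dvd_lev hd hm hp).2 (Or.inl hpd))
  by_cases hp3 : p = 3
  · subst hp3
    by_cases h9 : d % 9 = 1 ∨ d % 9 = 8
    · refine ⟨1 - dl 3, kd_caseC hD hK th hth h9, T_off_three hd hcf hm ⟨hpm, h9⟩⟩
    · push Not at h9
      refine ⟨1, ?_, ?_⟩
      · rw [mul_one]; exact kd_three hD hK th hth hpd h9.1 h9.2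
      · rw [one_mul]
        refine T_off_lev hd hm hp ((prime_dvd_lev hd hm hp).2 (Or.inr (Or.inr ⟨rfl, ?_⟩)))
        rintro ⟨-, h | h⟩
        · exact h9.1 h
        · exact h9.2 h
  · have hlev : ¬ p ∣ lev d m := by
      intro h
      rcases (prime_dvd_lev hd hm hp).1 h with h | h | h
      · exact hpd h
      · exact hpm h
      · exact hp3 h.1
    have h3d : ¬ p ∣ 3 * d := by
      intro h
      rcases (Nat.Prime.dvd_mul hp).1 h with h | h
      · exact hp3 ((Nat.prime_dvd_prime_iff_eq hp Nat.prime_three).1 h)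
      · exact hpd h
    have hmod : p % 3 = 1 ∨ p % 3 = 2 := by
      have h0 : p % 3 ≠ 0 := by
        intro h0
        have h' : 3 ∣ p := Nat.dvd_of_mod_eq_zero h0
        exact hp3 ((Nat.prime_dvd_prime_iff_eq Nat.prime_three hp).1 h').symm
      omega
    rcases hmod with h1 | h2
    · by_cases hc : ∃ x : ZMod p, x ^ 3 = (d : ZMod p)
      · exact ⟨(1 - dl p) ^ 2, kd_split hD hK th hth hp h3d h1 hc,
          T_off_split hd hcf hm hp hlev h1 hc⟩
      · refine ⟨1 + dl p + dl (p ^ 2), ?_, T_off_irr hd hcf hm hp hlev h1 hc⟩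
        rw [kd_irr hD hK th hth hp h3d h1 hc]
        have e1 : dl p * dl p = dl (p ^ 2) := by
          rw [dl_mul_dl hp.pos hp.pos, pow_two]
        have e2 : dl p * dl (p ^ 2) = dl (p ^ 3) := by
          rw [dl_mul_dl hp.pos (pow_pos hp.pos 2)]
          congr 1
          ring
        have : (1 - dl p) * (1 + dl p + dl (p ^ 2)) =
            1 + dl p + dl (p ^ 2) - dl p - dl p * dl p - dl p * dl (p ^ 2) := by ring
        rw [this, e1, e2]
        ring
    · exact ⟨1 - dl (p ^ 2), kd_inert hD hK th hth hp h3d h2,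
        T_off_inert hd hcf hm hp hlev h2⟩

theorem J_eq (hd : 2 ≤ d) (hcf : ∀ p : ℕ, p.Prime → ¬ p ^ 3 ∣ d) (hm : 1 ≤ m)
    (hK : Module.finrank ℚ K = 3) (th : 𝓞 K) (hth : th ^ 3 = d) :
    JJ K m = ZI m * TS d m 1 := by
  refine eq_of_loc (JJ_one K m) ?_ ?_
  · rw [ArithmeticFunction.mul_apply]
    simp only [Nat.divisorsAntidiagonal_one, Finset.sum_singleton]
    rw [TS_one_one hd hcf hm, mul_one]
    simp [ZI]
  · intro p hp
    by_cases hpm : p ∣ m
    · refine ⟨1, Loc.one p, ?_, ?_⟩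
      · rw [one_mul]
        intro n hn
        simp only [JJ, ArithmeticFunction.coe_mk]
        rw [if_neg]
        rintro ⟨-, hc⟩
        exact hp.one_lt.ne' (Nat.dvd_one.1 (hc ▸ Nat.dvd_gcd hn hpm))
      · rw [one_mul]
        exact Off.mul hp (off_Z' hp hpm)
          (T_off_lev hd hm hp ((prime_dvd_lev hd hm hp).2 (Or.inr (Or.inl hpm))))
    · obtain ⟨D', h1, h2⟩ := loc_split hd hcf hm hK th hth hp hpm
      refine ⟨locD K p, loc_J K hp, off_J K m hp hpm, ?_⟩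
      have : locD K p * (ZI m * TS d m 1) = ((1 - dl p) * ZI m) * (D' * TS d m 1) := by
        rw [h1]; ring
      rw [this]
      exact Off.mul hp (off_Z hp hpm) h2

theorem card_ideals (hd : 2 ≤ d) (hcf : ∀ p : ℕ, p.Prime → ¬ p ^ 3 ∣ d) (hm : 1 ≤ m)
    (hK : Module.finrank ℚ K = 3) (th : 𝓞 K) (hth : th ^ 3 = d) {n : ℕ} (hn : n ≠ 0)
    (hnm : Nat.Coprime n m) :
    (Nat.card {I : Ideal (𝓞 K) // Ideal.absNorm I = n} : ℂ) = ∑ e ∈ n.divisors, tt d m e := by
  have h : JJ K m n = (ZI m * TS d m 1) n := by rw [J_eq hd hcf hm hK th hth]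
  rw [ArithmeticFunction.mul_apply] at h
  have h0 : JJ K m n = (Nat.card {I : Ideal (𝓞 K) // Ideal.absNorm I = n} : ℂ) := by
    simp only [JJ, ArithmeticFunction.coe_mk]
    rw [if_pos ⟨hn, hnm⟩]
  rw [← h0, h, Nat.sum_divisorsAntidiagonal' (f := fun a b => ZI m a * TS d m 1 b)]
  refine Finset.sum_congr rfl fun e he => ?_
  have hed : e ∣ n := Nat.dvd_of_mem_divisors he
  have he0 : e ≠ 0 := fun h0 => hn (Nat.eq_zero_of_zero_dvd (h0 ▸ hed))
  have h1 : ZI m (n / e) = 1 := by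
    simp only [ZI, ArithmeticFunction.coe_mk]
    rw [if_pos]
    exact ⟨(Nat.div_pos (Nat.le_of_dvd (Nat.pos_of_ne_zero hn) hed)
      (Nat.pos_of_ne_zero he0)).ne', Nat.Coprime.coprime_dvd_left (Nat.div_dvd_of_dvd hed) hnm⟩
  rw [h1, one_mul, TS_one_apply he0]

end MPd9f52e
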