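import Mathlib
import Pool.Agent.Lib.MP_d9f52e_nt.ERes

/-!
# ESys: systems of classes prime to f modulo f and the units

`Sys_spec`: the units act on the classes prime to `f`; choose one representative in every class.
`prod_shift`: `r -> ` the representative of `u r` is a bijection from `S.filter P` to `S.filter Q` (`Finset.prod_bij`), `F(u r) = F(representative)`.
-/

set_option autoImplicit false

namespace MPd9f52e

open Complex

private theorem rel_refl (f : ℕ) (x : Eis) : Rel f x x := ⟨1, by rw [Units.val_one, one_mul, sub_self]; exact dvd_zero _⟩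

private theorem rel_symm {f : ℕ} {x y : Eis} (h : Rel f x y) : Rel f y x := by
  obtain ⟨ε, h⟩ := h
  refine ⟨ε⁻¹, ?_⟩
  have e : y - ((ε⁻¹ : Eisˣ) : Eis) * x = -(((ε⁻¹ : Eisˣ) : Eis) * (x - ε * y)) := by
    have h1 : ((ε⁻¹ : Eisˣ) : Eis) * (ε : Eis) = 1 := Units.inv_mul ε
    linear_combination (-y) * h1
  rw [e, dvd_neg]
  exact h.mul_left _

private theorem rel_trans {f : ℕ} {x y z : Eis} (h : Rel f x y) (h' : Rel f y z) : Rel f x z := by
  obtain ⟨ε, h⟩ := h
  obtain ⟨δ, h'⟩ := h'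
  refine ⟨ε * δ, ?_⟩
  have e : x - ((ε * δ : Eisˣ) : Eis) * z = (x - ε * y) + ε * (y - δ * z) := by
    rw [Units.val_mul]
    ring
  rw [e]
  exact dvd_add h (h'.mul_left _)

private theorem rel_mul {f : ℕ} {x y : Eis} (u : Eis) (h : Rel f x y) : Rel f (u * x) (u * y) := by
  obtain ⟨ε, h⟩ := h
  refine ⟨ε, ?_⟩
  have e : u * x - ε * (u * y) = u * (x - ε * y) := by ring
  rw [e]
  exact h.mul_left _

private theorem rel_star {f : ℕ} {x y : Eis} (h : Rel f x y) : Rel f (star x) (star y) := by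
  obtain ⟨ε, h⟩ := h
  obtain ⟨ε', hε⟩ := star_unit ε
  refine ⟨ε', ?_⟩
  have h1 := star_dvd h
  rw [star_sub, star_mul, star_natCast] at h1
  rw [hε, mul_comm]
  exact h1

private theorem coprime_rel {f : ℕ} {x y : Eis} (h : Rel f x y) (hx : IsCoprime x (f : Eis)) :
    IsCoprime y (f : Eis) := by
  obtain ⟨ε, c, hc⟩ := h
  obtain ⟨s, t, hst⟩ := hx
  refine ⟨s * ε, t + s * c, ?_⟩
  linear_combination hst - s * hc

private theorem coprime_mul {f : ℕ} {u x : Eis} (hu : IsCoprime u (f : Eis)) (hx : IsCoprime x (f : Eis)) :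
    IsCoprime (u * x) (f : Eis) := hu.mul_left hx

theorem Sys_spec {f : ℕ} (hf : 3 ≤ f) : IsSys f (Sys f) := by
  classical
  have h' : ∃ S, IsSys f S := by
    have hf0 : (f : Eis) ≠ 0 := by
      intro h
      have h1 := nm_natCast f
      rw [h, (nm_eq_zero 0).2 rfl] at h1
      have : f = 0 := by
        rcases Nat.eq_zero_or_pos f with h2 | h2
        · exact h2
        · exfalso
          have := Nat.pow_pos (n := 2) h2
          omega
      omega
    obtain ⟨S, hS⟩ := exists_CRS hf0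
    let s : Setoid Eis := ⟨Rel f, ⟨rel_refl f, fun h => rel_symm h, fun h h' => rel_trans h h'⟩⟩
    have hout : ∀ x : Eis, Rel f (Quotient.out (Quotient.mk s x)) x := fun x => Quotient.mk_out (s := s) x
    refine ⟨(S.filter (fun x => IsCoprime x (f : Eis))).image (fun x => Quotient.out (Quotient.mk s x)), ?_, ?_, ?_⟩
    · intro v hv
      obtain ⟨x, hx, rfl⟩ := Finset.mem_image.1 hv
      exact coprime_rel (rel_symm (hout x)) (Finset.mem_filter.1 hx).2
    · intro v hv v' hv' h
      obtain ⟨x, hx, rfl⟩ := Finset.mem_image.1 hv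
      obtain ⟨x', hx', rfl⟩ := Finset.mem_image.1 hv'
      have e : Rel f x x' := rel_trans (rel_symm (hout x)) (rel_trans h (hout x'))
      have e' : Quotient.mk s x = Quotient.mk s x' := Quotient.sound e
      show Quotient.out (Quotient.mk s x) = Quotient.out (Quotient.mk s x')
      rw [e']
    · intro x hx
      obtain ⟨r, hr, h⟩ := hS.2 x
      have h' : Rel f x r := ⟨1, by rwa [Units.val_one, one_mul]⟩
      exact ⟨_, Finset.mem_image_of_mem _ (Finset.mem_filter.2 ⟨hr, coprime_rel h' hx⟩),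
        rel_trans h' (rel_symm (hout r))⟩
  rw [Sys, dif_pos h']
  exact h'.choose_spec

private theorem prod_gen {M : Type*} [CommMonoid M] {f : ℕ} {S : Finset Eis} (hS : IsSys f S) (F : Eis → M)
    (hF : ∀ a b, IsCoprime b (f : Eis) → Rel f a b → F a = F b) (P Q : Eis → Prop) [DecidablePred P] [DecidablePred Q]
    (hQ : ∀ a b, IsCoprime b (f : Eis) → Rel f a b → (Q a ↔ Q b)) (T : Eis → Eis)
    (hT1 : ∀ a, IsCoprime a (f : Eis) → IsCoprime (T a) (f : Eis))
    (hT2 : ∀ a b, Rel f (T a) (T b) → Rel f a b)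
    (hT3 : ∀ s, IsCoprime s (f : Eis) → ∃ x, IsCoprime x (f : Eis) ∧ Rel f (T x) s)
    (hT4 : ∀ a b, Rel f a b → Rel f (T a) (T b))
    (hPQ : ∀ a, IsCoprime a (f : Eis) → (P a ↔ Q (T a))) :
    ∏ r ∈ S.filter P, F (T r) = ∏ r ∈ S.filter Q, F r := by
  obtain ⟨h1, h2, h3⟩ := hS
  have hc : ∀ r ∈ S.filter P, IsCoprime (T r) (f : Eis) := fun r hr => hT1 r (h1 r (Finset.mem_filter.1 hr).1)
  apply Finset.prod_bij (fun r hr => (h3 (T r) (hc r hr)).choose)
  · intro r hr
    have e := (h3 (T r) (hc r hr)).choose_spec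
    refine Finset.mem_filter.2 ⟨e.1, ?_⟩
    exact (hQ _ _ (h1 _ e.1) e.2).1 ((hPQ r (h1 r (Finset.mem_filter.1 hr).1)).1 (Finset.mem_filter.1 hr).2)
  · intro r hr r' hr' h
    have e1 := (h3 (T r) (hc r hr)).choose_spec.2
    have e2 := (h3 (T r') (hc r' hr')).choose_spec.2
    rw [h] at e1
    exact h2 r (Finset.mem_filter.1 hr).1 r' (Finset.mem_filter.1 hr').1 (hT2 _ _ (rel_trans e1 (rel_symm e2)))
  · intro s hs
    obtain ⟨hs1, hs2⟩ := Finset.mem_filter.1 hs
    obtain ⟨x, hx, hxs⟩ := hT3 s (h1 s hs1)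
    obtain ⟨r, hr, hrx⟩ := h3 x hx
    have hrs : Rel f (T r) s := rel_trans (rel_symm (hT4 _ _ hrx)) hxs
    have hrP : r ∈ S.filter P :=
      Finset.mem_filter.2 ⟨hr, (hPQ r (h1 r hr)).2 ((hQ _ _ (h1 s hs1) hrs).2 hs2)⟩
    refine ⟨r, hrP, ?_⟩
    have e := (h3 (T r) (hc r hrP)).choose_spec
    exact h2 _ e.1 _ hs1 (rel_trans (rel_symm e.2) hrs)
  · intro r hr
    have e := (h3 (T r) (hc r hr)).choose_spec
    exact hF _ _ (h1 _ e.1) e.2

/-- multiplication by `u` permutes the classes -/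
theorem prod_shift {M : Type*} [CommMonoid M] {f : ℕ} {S : Finset Eis} (hS : IsSys f S) (F : Eis → M)
    (hF : ∀ a b, IsCoprime b (f : Eis) → Rel f a b → F a = F b) (P Q : Eis → Prop) [DecidablePred P] [DecidablePred Q]
    (hQ : ∀ a b, IsCoprime b (f : Eis) → Rel f a b → (Q a ↔ Q b)) {u : Eis} (hu : IsCoprime u (f : Eis))
    (hPQ : ∀ a, IsCoprime a (f : Eis) → (P a ↔ Q (u * a))) :
    ∏ r ∈ S.filter P, F (u * r) = ∏ r ∈ S.filter Q, F r := by
  apply prod_gen hS F hF P Q hQ (fun x => u * x) (fun a ha => coprime_mul hu ha)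
  · rintro a b ⟨ε, h⟩
    refine ⟨ε, ?_⟩
    have e : u * a - ε * (u * b) = u * (a - ε * b) := by ring
    rw [e] at h
    exact hu.symm.dvd_of_dvd_mul_left h
  · intro s hs
    obtain ⟨x, t, hxt⟩ := id hu
    have hx : IsCoprime x (f : Eis) := ⟨u, t, by linear_combination hxt⟩
    refine ⟨x * s, coprime_mul hx hs, 1, ?_⟩
    rw [Units.val_one, one_mul]
    have e : u * (x * s) - s = -(f * (t * s)) := by linear_combination s * hxt
    rw [e, dvd_neg]
    exact dvd_mul_right _ _
  · intro a b h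
    exact rel_mul u h
  · exact hPQ

/-- complex conjugation permutes the classes -/
theorem prod_star {M : Type*} [CommMonoid M] {f : ℕ} {S : Finset Eis} (hS : IsSys f S) (F : Eis → M)
    (hF : ∀ a b, IsCoprime b (f : Eis) → Rel f a b → F a = F b) (P Q : Eis → Prop) [DecidablePred P] [DecidablePred Q]
    (hQ : ∀ a b, IsCoprime b (f : Eis) → Rel f a b → (Q a ↔ Q b))
    (hPQ : ∀ a, IsCoprime a (f : Eis) → (P a ↔ Q (star a))) :
    ∏ r ∈ S.filter P, F (star r) = ∏ r ∈ S.filter Q, F r := by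
  apply prod_gen hS F hF P Q hQ (fun x => star x) (fun a ha => isCoprime_star ha)
  · intro a b h
    have h' : Rel f (star (star a)) (star (star b)) := rel_star h
    rwa [star_star, star_star] at h'
  · intro s hs
    refine ⟨star s, isCoprime_star hs, ?_⟩
    show Rel f (star (star s)) s
    rw [star_star]
    exact rel_refl f s
  · intro a b h
    exact rel_star h
  · exact hPQ

end MPd9f52e
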