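import Mathlib
import Pool.Agent.Lib.MP_d9f52e_nt.RKap
import Pool.Agent.Lib.MP_d9f52e_nt.ESys
import Pool.Agent.Lib.MP_d9f52e_nt.SInv

/-!
# XPhi: the numbers Phi(i,g)  (about 120 lines)

`f = lev d m >= 3`, `Sys_spec`.  For `r` in `Sys f` (prime to `f >= 2`) `ec r/f` is off the lattice, so `Phi > 0`.  `Phi (-i) g = Phi i g`: `prod_star` with `F r = phi(ec r/f)`: `phi (conj z) = phi z`, `kap (star r) = - kap r`, `nm (star r) = nm r`; `F` is invariant under `Rel f` (`phi_add`, `phi_unit`).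
`Phi_empty`: `3 | m` (so `3 | f`): elements prime to `f` have norm `1 mod 3`, so the product is empty if `g` is `2 mod 3`.
-/

set_option autoImplicit false

namespace MPd9f52e

open Complex

variable {d m : ℕ}

theorem sys_off (hd : 2 ≤ d) (hm : 1 ≤ m) {r : Eis} (hr : IsCoprime r ((lev d m : ℕ) : Eis)) :
    ec r / (lev d m : ℕ) ∉ LO.lattice := by
  have hf := lev_pos (d := d) (m := m) hd hm
  intro h
  have hne : ((lev d m : ℕ) : Eis) ≠ 0 := by
    intro h0
    have h1 := (nm_eq_zero _).2 h0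
    rw [nm_natCast] at h1
    have h2 : lev d m = 0 := by simpa using h1
    omega
  have h1 : ((lev d m : ℕ) : Eis) ∣ r := by
    rw [← div_mem hne, map_natCast]
    exact h
  have h2 : IsUnit ((lev d m : ℕ) : Eis) := hr.isUnit_of_dvd' h1 dvd_rfl
  rw [unit_iff, nm_natCast] at h2
  have h3 : lev d m = 1 := by simpa using h2
  omega


theorem phi_rel (hd : 2 ≤ d) (hm : 1 ≤ m) {a b : Eis} (h : Rel (lev d m) a b) :
    phi (ec a / (lev d m : ℕ)) = phi (ec b / (lev d m : ℕ)) := by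
  have hf := lev_pos (d := d) (m := m) hd hm
  have hf0 : ((lev d m : ℕ) : ℂ) ≠ 0 := by
    have h1 : lev d m ≠ 0 := by omega
    exact_mod_cast h1
  obtain ⟨ε, c, hc⟩ := h
  have h1 : ec a = ec ε * ec b + (lev d m : ℕ) * ec c := by
    have h2 := congrArg ec hc
    rw [map_sub, map_mul, map_mul, map_natCast] at h2
    linear_combination h2
  have h2 : ec a / (lev d m : ℕ) = ec ε * (ec b / (lev d m : ℕ)) + ec c := by
    rw [h1]
    field_simp
  rw [h2, phi_add, phi_unit]


theorem Phi_pos (hd : 2 ≤ d) (hm : 1 ≤ m) (i : ZMod 3) (g : ZMod m) : 0 < Phi d m i g := by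
  unfold Phi
  refine Finset.prod_pos fun r hr => phi_pos (sys_off hd hm ?_)
  exact (Sys_spec (lev_pos hd hm)).1 r (Finset.mem_filter.1 hr).1


private theorem nm_rel {a b : Eis} (h : Rel (lev d m) a b) :
    (nm a : ZMod m) = (nm b : ZMod m) := by
  obtain ⟨ε, hε⟩ := h
  have h1 : (m : Eis) ∣ a - ε * b := (natCast_dvd.2 m_dvd_lev).trans hε
  rw [nm_congr h1, nm_mul, nm_unit, one_mul]

theorem Phi_neg (hd : 2 ≤ d) (hcf : ∀ p : ℕ, p.Prime → ¬ p ^ 3 ∣ d) (hm : 1 ≤ m) (i : ZMod 3) (g : ZMod m) :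
    Phi d m (-i) g = Phi d m i g := by
  classical
  have hf := lev_pos (d := d) (m := m) hd hm
  have hS := Sys_spec hf
  have key := prod_star hS (fun r => phi (ec r / (lev d m : ℕ)))
    (fun a b _ h => phi_rel hd hm h)
    (fun r => kap d m r = i ∧ (nm r : ZMod m) = g) (fun r => kap d m r = -i ∧ (nm r : ZMod m) = g)
    (fun a b hb h => by
      rw [kap_rel hd hcf hm hb h, nm_rel h])
    (fun a ha => by
      rw [kap_star hd hcf hm ha, nm_star, neg_inj])
  have h1 : ∀ r : Eis, phi (ec (star r) / (lev d m : ℕ)) = phi (ec r / (lev d m : ℕ)) := by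
    intro r
    rw [← phi_conj (ec r / (lev d m : ℕ)), map_div₀, ec_star, map_natCast]
  simp only [h1] at key
  unfold Phi
  convert key.symm


theorem Phi_empty (hd : 2 ≤ d) (hm : 1 ≤ m) (h3 : 3 ∣ m) (i : ZMod 3) {x : ℕ} (hx : x % 3 = 2) :
    Phi d m i (x : ZMod m) = 1 := by
  unfold Phi
  refine Finset.prod_eq_one fun r hr => ?_
  exfalso
  have h1 := (Finset.mem_filter.1 hr).2.2
  have h2 : nm r ≡ x [MOD m] := (ZMod.natCast_eq_natCast_iff _ _ _).1 h1
  have h4 : nm r % 3 = x % 3 := h2.of_dvd h3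
  rcases nm_mod_three r with h5 | h5 <;> omega


end MPd9f52e
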