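import Mathlib
import Pool.Agent.Lib.MP_d9f52e_nt.XPhi
import Pool.Agent.Lib.MP_d9f52e_nt.HAna
import Pool.Agent.Lib.MP_d9f52e_nt.SInv

/-!
# TDer: T_g near 0  (about 100 lines)

`TT g s = sum_r w^(kap r) f^{-2s} Hc (r/f) s`; `Hc_diff`, `Hc_zero` (`sys_off`), `Hc_deriv_eq`: the derivative at 0 is `sum_r w^(kap r) (-2 log phi(r/f)) = -2 sum_i w^i log Phi(i,g)` and `Phi(2,g) = Phi(1,g)` (`Phi_neg`), `w + w^2 = -1`.
-/

set_option autoImplicit false

namespace MPd9f52e

open Complex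

variable {d m : ℕ}

private theorem dom_open : IsOpen Dom := by
  have h1 : IsOpen {s : ℂ | -1 / 2 < s.re} := isOpen_lt continuous_const Complex.continuous_re
  have h2 : IsOpen {s : ℂ | s ≠ 1} := isOpen_ne
  exact h1.inter h2

private theorem zero_mem_dom : (0 : ℂ) ∈ Dom := by
  constructor
  · simp
    norm_num
  · exact zero_ne_one

private theorem sys_cop (hd : 2 ≤ d) (hm : 1 ≤ m) {r : Eis} (hr : r ∈ Sys (lev d m)) :
    IsCoprime r ((lev d m : ℕ) : Eis) :=
  (Sys_spec (lev_pos hd hm)).1 r hr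

private theorem lev_ne (hd : 2 ≤ d) (hm : 1 ≤ m) : ((lev d m : ℕ) : ℂ) ≠ 0 := by
  have := lev_pos hd hm
  exact_mod_cast (by omega : lev d m ≠ 0)

private theorem cpow_diff (hd : 2 ≤ d) (hm : 1 ≤ m) (s : ℂ) :
    DifferentiableAt ℂ (fun s : ℂ => ((lev d m : ℕ) : ℂ) ^ (-2 * s)) s :=
  (differentiableAt_id.const_mul (-2)).const_cpow (Or.inl (lev_ne hd hm))

theorem TT_diff (hd : 2 ≤ d) (hm : 1 ≤ m) (g : ZMod m) : DifferentiableOn ℂ (TT d m g) Dom := by
  unfold TT
  apply DifferentiableOn.fun_sum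
  intro r hr
  rw [Finset.mem_filter] at hr
  intro s hs
  apply DifferentiableWithinAt.mul
  · exact ((cpow_diff hd hm s).const_mul _).differentiableWithinAt
  · exact Hc_diff (sys_off hd hm (sys_cop hd hm hr.1)) s hs

theorem TT_zero (hd : 2 ≤ d) (hm : 1 ≤ m) (g : ZMod m) : TT d m g 0 = 0 := by
  unfold TT
  apply Finset.sum_eq_zero
  intro r hr
  rw [Finset.mem_filter] at hr
  rw [Hc_zero (sys_off hd hm (sys_cop hd hm hr.1)), mul_zero]

theorem TT_deriv (hd : 2 ≤ d) (hcf : ∀ p : ℕ, p.Prime → ¬ p ^ 3 ∣ d) (hm : 1 ≤ m) (g : ZMod m) :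
    deriv (TT d m g) 0 = ((-2 * (Real.log (Phi d m 0 g) - Real.log (Phi d m 1 g)) : ℝ) : ℂ) := by
  classical
  obtain ⟨S, hS⟩ : ∃ S : Finset Eis, S = (Sys (lev d m)).filter (fun r => (nm r : ZMod m) = g) :=
    ⟨_, rfl⟩
  have hSc : ∀ r ∈ S, IsCoprime r ((lev d m : ℕ) : Eis) := by
    intro r hr
    rw [hS, Finset.mem_filter] at hr
    exact sys_cop hd hm hr.1
  -- the derivative as a sum
  have h1 : HasDerivAt (TT d m g) (∑ r ∈ S, wj (kap d m r) *
      ((-2 * Real.log (phi (ec r / (lev d m : ℕ))) : ℝ) : ℂ)) 0 := by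
    have e0 : TT d m g = fun s => ∑ r ∈ S, wj (kap d m r) * ((lev d m : ℕ) : ℂ) ^ (-2 * s) *
        Hc (ec r / lev d m) s := by
      funext s
      rw [hS]
      rfl
    rw [e0]
    apply HasDerivAt.fun_sum
    intro r hr
    have hoff := sys_off hd hm (hSc r hr)
    have h2 : HasDerivAt (Hc (ec r / (lev d m : ℕ)))
        ((-2 * Real.log (phi (ec r / (lev d m : ℕ))) : ℝ) : ℂ) 0 := by
      rw [← Hc_deriv_eq hoff]
      exact ((Hc_diff hoff).differentiableAt (dom_open.mem_nhds zero_mem_dom)).hasDerivAt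
    have h3 : HasDerivAt (fun s : ℂ => wj (kap d m r) * ((lev d m : ℕ) : ℂ) ^ (-2 * s))
        (deriv (fun s : ℂ => wj (kap d m r) * ((lev d m : ℕ) : ℂ) ^ (-2 * s)) 0) 0 :=
      ((cpow_diff hd hm 0).const_mul _).hasDerivAt
    have h4 := h3.mul h2
    rw [Hc_zero hoff, mul_zero, zero_add] at h4
    simp only [mul_zero, Complex.cpow_zero, mul_one] at h4
    exact h4
  rw [h1.deriv]
  -- group by kap
  have hlog : ∀ i : ZMod 3, ∑ r ∈ S.filter (fun r => kap d m r = i),
      wj (kap d m r) * ((-2 * Real.log (phi (ec r / (lev d m : ℕ))) : ℝ) : ℂ) =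
        wj i * ((-2 * Real.log (Phi d m i g) : ℝ) : ℂ) := by
    intro i
    have e1 : Real.log (Phi d m i g) = ∑ r ∈ S.filter (fun r => kap d m r = i),
        Real.log (phi (ec r / (lev d m : ℕ))) := by
      have e2 : (Sys (lev d m)).filter (fun r => kap d m r = i ∧ (nm r : ZMod m) = g) =
          S.filter (fun r => kap d m r = i) := by
        rw [hS, Finset.filter_filter]
        apply Finset.filter_congr
        intro r _
        tauto
      unfold Phi
      rw [Real.log_prod, e2]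
      intro r hr
      rw [Finset.mem_filter] at hr
      have hoff := sys_off hd hm (sys_cop hd hm hr.1)
      unfold phi
      rw [if_neg hoff]
      exact (Real.exp_pos _).ne'
    rw [e1]
    push_cast
    rw [Finset.mul_sum, Finset.mul_sum]
    apply Finset.sum_congr rfl
    intro r hr
    rw [Finset.mem_filter] at hr
    rw [hr.2]
  rw [← Finset.sum_fiberwise_of_maps_to (s := S) (t := (Finset.univ : Finset (ZMod 3)))
    (g := fun r => kap d m r) (fun r _ => Finset.mem_univ _)]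
  rw [Finset.sum_congr rfl (fun i _ => hlog i)]
  have e3 : (Finset.univ : Finset (ZMod 3)) = {0, 1, 2} := by decide
  rw [e3, Finset.sum_insert (by decide), Finset.sum_insert (by decide), Finset.sum_singleton]
  have e4 : Phi d m 2 g = Phi d m 1 g := by
    have := Phi_neg hd hcf hm 1 g
    rw [← this]
    congr 1
  rw [e4]
  have e5 := sum_wj
  rw [wj_zero] at e5 ⊢
  push_cast
  linear_combination (-2 * (Real.log (Phi d m 1 g) : ℂ)) * e5

end MPd9f52e
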