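import Mathlib
import Pool.Agent.Lib.MP_d9f52e_nt.RKap
import Pool.Agent.Lib.MP_d9f52e_nt.ESys
import Pool.Agent.Lib.MP_d9f52e_nt.HSer
import Pool.Agent.Lib.MP_d9f52e_nt.XPhi

/-!
# TSer: the Dirichlet series T_g  (about 250 lines)

`f = lev d m >= 3`, `Re s > 1`.  `sum_{n = g} tt n n^{-s} = (1/6) sum over b in Eis prime to f, nm b = g mod m, of w^(kap b) |b|^{-2s}` (absolutely convergent by `summable_lat`; fibres of `nm`, `mem_ofNorm`, `|ec b|^2 = nm b`; `n = 0` contributes 0 since 0 is not prime to `f`).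
Every `b` prime to `f` is uniquely `ε (r + f l)` with `r` in `Sys f`, `ε` a unit, `l` in `Eis` (`Sys_spec`; uniqueness of `ε`: `unit_congr`, `r` prime to `f`): `kap b = kap r` (`kap_rel`), `nm b = nm r` mod `f`, hence mod `m`, `|b| = f |r/f + l|`.  Six units cancel `1/6`:
`= sum_r w^(kap r) f^{-2s} sum_l |r/f + l|^{-2s} = TT g s` (`Hc_hasSum`).
-/

set_option autoImplicit false

namespace MPd9f52e

open Complex

private theorem sq_cpow {x : ℝ} (hx : 0 < x) (s : ℂ) :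
    ((x ^ 2 : ℝ) : ℂ) ^ (-s) = (x : ℂ) ^ (-2 * s) := by
  have h1 : ((x ^ 2 : ℝ) : ℂ) ≠ 0 := by
    have : x ^ 2 ≠ 0 := by positivity
    exact_mod_cast this
  have h2 : (x : ℂ) ≠ 0 := by exact_mod_cast hx.ne'
  rw [Complex.cpow_def_of_ne_zero h1, Complex.cpow_def_of_ne_zero h2,
    ← Complex.ofReal_log (by positivity), ← Complex.ofReal_log hx.le, Real.log_pow]
  congr 1
  push_cast
  ring

/-- sums over the fibres of the norm -/
private theorem fib_hasSum {E : Type*} [AddCommMonoid E] [TopologicalSpace E] [ContinuousAdd E]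
    [RegularSpace E] {F : Eis → E} {A : E} (h : HasSum F A) :
    HasSum (fun n : ℕ => ∑ b ∈ ofNorm n, F b) A := by
  have h1 : HasSum (F ∘ (Equiv.sigmaFiberEquiv nm)) A :=
    (Equiv.sigmaFiberEquiv nm).hasSum_iff.mpr h
  apply h1.sigma
  intro n
  have h2 : HasSum (F ∘ ((↑) : {b // b ∈ ofNorm n} → Eis)) (∑ b ∈ ofNorm n, F b) :=
    Finset.hasSum (ofNorm n) F
  have h3 := (Equiv.subtypeEquivRight (fun b => (mem_ofNorm n b).symm)).hasSum_iff.mpr h2
  exact h3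

private theorem nm_int (b : Eis) : ((nm b : ℕ) : ℤ) = b.re ^ 2 - b.re * b.im + b.im ^ 2 := by
  unfold nm
  rw [Int.natCast_natAbs, abs_of_nonneg]
  nlinarith [sq_nonneg (b.re - b.im), sq_nonneg b.re, sq_nonneg b.im, sq_nonneg (b.re + b.im)]

private theorem nm_shift (m f : ℕ) (hmf : m ∣ f) (r l : Eis) :
    ((nm (r + (f : Eis) * l) : ℕ) : ZMod m) = ((nm r : ℕ) : ZMod m) := by
  have hf : (f : ZMod m) = 0 := (ZMod.natCast_eq_zero_iff f m).mpr hmf
  have e1 : (r + (f : Eis) * l).re = r.re + f * l.re := by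
    simp [QuadraticAlgebra.re_mul]
  have e2 : (r + (f : Eis) * l).im = r.im + f * l.im := by
    simp [QuadraticAlgebra.im_mul]
  have h1 : (((nm (r + (f : Eis) * l) : ℕ) : ℤ) : ZMod m) = (((nm r : ℕ) : ℤ) : ZMod m) := by
    rw [nm_int, nm_int, e1, e2]
    push_cast
    rw [hf]
    ring
  exact_mod_cast h1

open Classical in
/-- the summand -/
private noncomputable def GG (d m : ℕ) (g : ZMod m) (s : ℂ) (b : Eis) : ℂ :=
  if IsCoprime b ((lev d m : ℕ) : Eis) ∧ (nm b : ZMod m) = g then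
    wj (kap d m b) * ((nm b : ℕ) : ℂ) ^ (-s) else 0

open Classical in
/-- the summand without congruence -/
private noncomputable def G1 (d m : ℕ) (s : ℂ) (b : Eis) : ℂ :=
  if IsCoprime b ((lev d m : ℕ) : Eis) then wj (kap d m b) * ((nm b : ℕ) : ℂ) ^ (-s) else 0

private theorem lev_nunit {d m : ℕ} (hd : 2 ≤ d) (hm : 1 ≤ m) :
    ¬ IsUnit ((lev d m : ℕ) : Eis) := by
  rw [unit_iff, nm_natCast]
  have := lev_pos hd hm
  nlinarith

private theorem cop_ne_zero {d m : ℕ} (hd : 2 ≤ d) (hm : 1 ≤ m) {b : Eis}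
    (hb : IsCoprime b ((lev d m : ℕ) : Eis)) : b ≠ 0 := by
  intro h
  rw [h, isCoprime_zero_left] at hb
  exact lev_nunit hd hm hb

private theorem norm_bound {b : Eis} (hb : b ≠ 0) (j : ZMod 3) (s : ℂ) :
    ‖wj j * ((nm b : ℕ) : ℂ) ^ (-s)‖ = ‖ec b‖ ^ (-(2 * s.re)) := by
  have h1 : 0 < nm b := Nat.pos_of_ne_zero fun h => hb ((nm_eq_zero b).mp h)
  have h2 : 0 < ‖ec b‖ := norm_pos_iff.mpr (ec_ne_zero hb)
  rw [norm_mul, norm_wj, one_mul, Complex.norm_natCast_cpow_of_pos h1, Complex.neg_re, nm_cast,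
    ← Real.rpow_natCast, ← Real.rpow_mul h2.le]
  congr 1
  push_cast
  ring

private theorem G1_summable {d m : ℕ} (hd : 2 ≤ d) (hm : 1 ≤ m) {s : ℂ} (hs : 1 < s.re) :
    Summable (fun b => ‖G1 d m s b‖) := by
  apply Summable.of_nonneg_of_le (fun b => norm_nonneg _) _
    (summable_lat (p := 2 * s.re) (by linarith))
  intro b
  unfold G1
  split_ifs with h1 h2 h2
  · exact absurd h2 (cop_ne_zero hd hm h1)
  · rw [norm_bound h2]
  · simp
  · rw [norm_zero]
    positivity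

private theorem GG_summable {d m : ℕ} (hd : 2 ≤ d) (hm : 1 ≤ m) (g : ZMod m) {s : ℂ}
    (hs : 1 < s.re) : Summable (GG d m g s) := by
  apply Summable.of_norm_bounded (G1_summable hd hm hs)
  intro b
  unfold GG G1
  by_cases h1 : IsCoprime b ((lev d m : ℕ) : Eis)
  · by_cases h2 : (nm b : ZMod m) = g
    · rw [if_pos ⟨h1, h2⟩, if_pos h1]
    · rw [if_neg (by tauto), norm_zero]
      exact norm_nonneg _
  · rw [if_neg (by tauto), norm_zero]
    exact norm_nonneg _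

/-- the parametrisation of the elements prime to `f` -/
private noncomputable def par (f : ℕ) (x : ({r // r ∈ Sys f} × Eisˣ) × Eis) : Eis :=
  (x.1.2 : Eis) * ((x.1.1 : Eis) + (f : Eis) * x.2)

private theorem par_rel {f : ℕ} (r l : Eis) (ε : Eisˣ) : Rel f ((ε : Eis) * (r + (f : Eis) * l)) r :=
  ⟨ε, ⟨(ε : Eis) * l, by ring⟩⟩

private theorem par_inj {f : ℕ} (hf : 3 ≤ f) : Function.Injective (par f) := by
  rintro ⟨⟨⟨r, hr⟩, ε⟩, l⟩ ⟨⟨⟨r', hr'⟩, ε'⟩, l'⟩ h
  simp only [par] at h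
  have hS := Sys_spec hf
  have hfne : ec (f : Eis) ≠ 0 := by
    rw [map_natCast]
    exact_mod_cast (by omega : f ≠ 0)
  -- r = ε⁻¹ ε' r' mod f
  have h1 : (f : Eis) ∣ r - ((ε⁻¹ * ε' : Eisˣ) : Eis) * r' := by
    refine ⟨((ε⁻¹ * ε' : Eisˣ) : Eis) * l' - l, ?_⟩
    have h2 : r + (f : Eis) * l = ((ε⁻¹ * ε' : Eisˣ) : Eis) * (r' + (f : Eis) * l') := by
      calc r + (f : Eis) * l = ((ε⁻¹ : Eisˣ) : Eis) * ((ε : Eis) * (r + (f : Eis) * l)) := by
            rw [← mul_assoc, Units.inv_mul, one_mul]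
        _ = ((ε⁻¹ : Eisˣ) : Eis) * ((ε' : Eis) * (r' + (f : Eis) * l')) := by rw [h]
        _ = _ := by
            rw [Units.val_mul]
            ring
    linear_combination h2
  have h3 : r = r' := hS.2.1 r hr r' hr' ⟨_, h1⟩
  subst h3
  have h4 : (f : Eis) ∣ (1 - ((ε⁻¹ * ε' : Eisˣ) : Eis)) * r := by
    have : (1 - ((ε⁻¹ * ε' : Eisˣ) : Eis)) * r = r - ((ε⁻¹ * ε' : Eisˣ) : Eis) * r := by ring
    rw [this]
    exact h1
  have h5 : (f : Eis) ∣ 1 - ((ε⁻¹ * ε' : Eisˣ) : Eis) :=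
    (hS.1 r hr).symm.dvd_of_dvd_mul_right h4
  have h6 : (1 : Eisˣ) = ε⁻¹ * ε' := by
    apply unit_congr (b := (f : Eis))
    · rw [nm_natCast]
      nlinarith
    · rw [Units.val_one]
      exact h5
  have h7 : ε = ε' := by
    have h8 := congrArg (fun u => ε * u) h6
    simpa using h8
  subst h7
  have h8 : (ε : Eis) * (r + (f : Eis) * l) = (ε : Eis) * (r + (f : Eis) * l') := h
  have h9 : r + (f : Eis) * l = r + (f : Eis) * l' := by
    have := congrArg (fun u => ((ε⁻¹ : Eisˣ) : Eis) * u) h8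
    simpa [← mul_assoc] using this
  have h10 : (f : Eis) * l = (f : Eis) * l' := add_left_cancel h9
  have h11 : l = l' := by
    apply ec_inj
    have := congrArg ec h10
    rw [map_mul, map_mul] at this
    exact mul_left_cancel₀ hfne this
  rw [h11]

private theorem par_range {f : ℕ} (hf : 3 ≤ f) {x : Eis} (hx : IsCoprime x (f : Eis)) :
    x ∈ Set.range (par f) := by
  obtain ⟨r, hr, ε, k, hk⟩ := (Sys_spec hf).2.2 x hx
  refine ⟨⟨⟨⟨r, hr⟩, ε⟩, ((ε⁻¹ : Eisˣ) : Eis) * k⟩, ?_⟩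
  simp only [par]
  have : (ε : Eis) * (r + (f : Eis) * (((ε⁻¹ : Eisˣ) : Eis) * k)) =
      (ε : Eis) * r + (f : Eis) * (((ε : Eis) * ((ε⁻¹ : Eisˣ) : Eis)) * k) := by ring
  rw [this, Units.mul_inv, one_mul, ← hk]
  ring

private theorem par_cop {f : ℕ} (hf : 3 ≤ f) (x : ({r // r ∈ Sys f} × Eisˣ) × Eis) :
    IsCoprime (par f x) (f : Eis) := by
  have h1 : IsCoprime (x.1.1 : Eis) (f : Eis) := (Sys_spec hf).1 _ x.1.1.2
  have h2 : IsCoprime ((x.1.1 : Eis) + (f : Eis) * x.2) (f : Eis) := h1.add_mul_left_left x.2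
  unfold par
  exact (isCoprime_mul_unit_left_left x.1.2.isUnit _ _).mpr h2

private theorem GG_par {d m : ℕ} (hd : 2 ≤ d) (hcf : ∀ p : ℕ, p.Prime → ¬ p ^ 3 ∣ d) (hm : 1 ≤ m)
    (g : ZMod m) {s : ℂ} (x : {r // r ∈ Sys (lev d m)} × Eisˣ) (l : Eis) :
    GG d m g s (par (lev d m) (x, l)) = (if (nm (x.1 : Eis) : ZMod m) = g then
      wj (kap d m x.1) * ((lev d m : ℕ) : ℂ) ^ (-2 * s) else 0) *
        (‖ec (x.1 : Eis) / (lev d m : ℕ) + ec l‖ : ℂ) ^ (-2 * s) := by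
  have hf := lev_pos hd hm
  have hcop := par_cop hf (x, l)
  have hcr : IsCoprime (x.1 : Eis) ((lev d m : ℕ) : Eis) := (Sys_spec hf).1 _ x.1.2
  have hfr : (0:ℝ) < (lev d m : ℕ) := by exact_mod_cast (by omega : 0 < lev d m)
  have e1 : nm (par (lev d m) (x, l)) = nm ((x.1 : Eis) + ((lev d m : ℕ) : Eis) * l) := by
    unfold par
    rw [nm_mul, nm_unit, one_mul]
  have e2 : ((nm (par (lev d m) (x, l)) : ℕ) : ZMod m) = ((nm (x.1 : Eis) : ℕ) : ZMod m) := by
    rw [e1]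
    exact nm_shift m (lev d m) m_dvd_lev _ _
  have e3 : kap d m (par (lev d m) (x, l)) = kap d m (x.1 : Eis) :=
    kap_rel hd hcf hm hcr (par_rel _ _ _)
  unfold GG
  rw [e2, e3]
  by_cases h : ((nm (x.1 : Eis) : ℕ) : ZMod m) = g
  · rw [if_pos ⟨hcop, h⟩, if_pos h, mul_assoc]
    congr 1
    have hne : par (lev d m) (x, l) ≠ 0 := cop_ne_zero hd hm hcop
    have hz : ec (x.1 : Eis) / (lev d m : ℕ) + ec l ≠ 0 := by
      intro h0
      apply sys_off hd hm hcr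
      rw [mem_LO]
      refine ⟨-l, ?_⟩
      rw [map_neg]
      linear_combination -h0
    have h1 : 0 < ‖ec (x.1 : Eis) / (lev d m : ℕ) + ec l‖ := norm_pos_iff.mpr hz
    have e4 : ec ((x.1 : Eis) + ((lev d m : ℕ) : Eis) * l) =
        ((lev d m : ℕ) : ℂ) * (ec (x.1 : Eis) / (lev d m : ℕ) + ec l) := by
      rw [map_add, map_mul, map_natCast]
      have : ((lev d m : ℕ) : ℂ) ≠ 0 := by exact_mod_cast hfr.ne'
      field_simp
    have e5 : ((nm (par (lev d m) (x, l)) : ℕ) : ℂ) =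
        ((((lev d m : ℕ) : ℝ) * ‖ec (x.1 : Eis) / (lev d m : ℕ) + ec l‖) ^ 2 : ℝ) := by
      have h2 := nm_cast ((x.1 : Eis) + ((lev d m : ℕ) : Eis) * l)
      rw [e4, norm_mul, Complex.norm_natCast] at h2
      rw [e1, ← h2]
      push_cast
      rfl
    rw [e5, sq_cpow (by positivity), Complex.ofReal_mul, Complex.mul_cpow_ofReal_nonneg hfr.le h1.le]
    push_cast
    rfl
  · rw [if_neg (by tauto), if_neg h, zero_mul]

open Classical in
private theorem GG_total {d m : ℕ} (hd : 2 ≤ d) (hcf : ∀ p : ℕ, p.Prime → ¬ p ^ 3 ∣ d) (hm : 1 ≤ m)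
    (g : ZMod m) {s : ℂ} (hs : 1 < s.re) : HasSum (GG d m g s) (6 * TT d m g s) := by
  have hf := lev_pos hd hm
  obtain ⟨A, hA⟩ := GG_summable hd hm g hs
  haveI := finite_units
  haveI : Fintype Eisˣ := Fintype.ofFinite _
  have h1 : HasSum (GG d m g s ∘ par (lev d m)) A := by
    rw [(par_inj hf).hasSum_iff]
    · exact hA
    · intro b hb
      unfold GG
      rw [if_neg]
      rintro ⟨h2, -⟩
      exact hb (par_range hf h2)
  have h2 : ∀ x : {r // r ∈ Sys (lev d m)} × Eisˣ,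
      HasSum (fun l => (GG d m g s ∘ par (lev d m)) (x, l))
        ((if (nm (x.1 : Eis) : ZMod m) = g then
          wj (kap d m x.1) * ((lev d m : ℕ) : ℂ) ^ (-2 * s) else 0) *
            Hc (ec (x.1 : Eis) / (lev d m : ℕ)) s) := by
    intro x
    have hcr : IsCoprime (x.1 : Eis) ((lev d m : ℕ) : Eis) := (Sys_spec hf).1 _ x.1.2
    refine ((Hc_hasSum (sys_off hd hm hcr) hs).mul_left _).congr_fun ?_
    intro l
    exact GG_par hd hcf hm g x l
  have h3 := h1.prod_fiberwise h2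
  have h4 := h3.unique (hasSum_fintype _)
  have h5 : ∑ x : {r // r ∈ Sys (lev d m)} × Eisˣ, ((if (nm (x.1 : Eis) : ZMod m) = g then
      wj (kap d m x.1) * ((lev d m : ℕ) : ℂ) ^ (-2 * s) else 0) *
        Hc (ec (x.1 : Eis) / (lev d m : ℕ)) s) = 6 * TT d m g s := by
    rw [Fintype.sum_prod_type]
    simp only [Finset.sum_const, Finset.card_univ, nsmul_eq_mul]
    have hc : (Fintype.card Eisˣ : ℂ) = 6 := by
      have := card_units
      rw [Nat.card_eq_fintype_card] at this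
      exact_mod_cast this
    rw [← Finset.mul_sum, hc]
    congr 1
    unfold TT
    rw [Finset.sum_filter]
    rw [Finset.sum_coe_sort (Sys (lev d m)) (fun r : Eis => (if (nm r : ZMod m) = g then
      wj (kap d m r) * ((lev d m : ℕ) : ℂ) ^ (-2 * s) else 0) *
        Hc (ec r / (lev d m : ℕ)) s)]
    apply Finset.sum_congr rfl
    intro r _
    split_ifs <;> simp
  rw [h4, h5] at hA
  exact hA

open Classical in
private theorem tt_eq {d m : ℕ} (s : ℂ) (n : ℕ) :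
    tt d m n * (n : ℂ) ^ (-s) = (1 / 6 : ℂ) * ∑ b ∈ ofNorm n, G1 d m s b := by
  unfold tt G1
  rw [Finset.sum_filter, mul_assoc, Finset.sum_mul]
  congr 1
  apply Finset.sum_congr rfl
  intro b hb
  rw [mem_ofNorm] at hb
  split_ifs
  · rw [hb]
  · rw [zero_mul]

theorem TT_hasSum {d m : ℕ} (hd : 2 ≤ d) (hcf : ∀ p : ℕ, p.Prime → ¬ p ^ 3 ∣ d) (hm : 1 ≤ m) (g : ZMod m) {s : ℂ}
    (hs : 1 < s.re) :
    HasSum (fun n : ℕ => if (n : ZMod m) = g then tt d m n * (n : ℂ) ^ (-s) else 0) (TT d m g s) := by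
  classical
  have h1 := (fib_hasSum (GG_total hd hcf hm g hs)).mul_left (1 / 6 : ℂ)
  have e1 : (1 / 6 : ℂ) * (6 * TT d m g s) = TT d m g s := by ring
  rw [e1] at h1
  refine h1.congr_fun ?_
  intro n
  have e2 : ∀ b ∈ ofNorm n, GG d m g s b = if (n : ZMod m) = g then G1 d m s b else 0 := by
    intro b hb
    rw [mem_ofNorm] at hb
    unfold GG G1
    rw [hb]
    by_cases h2 : (n : ZMod m) = g
    · by_cases h3 : IsCoprime b ((lev d m : ℕ) : Eis)
      · rw [if_pos ⟨h3, h2⟩, if_pos h2, if_pos h3]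
      · rw [if_neg (by tauto), if_pos h2, if_neg h3]
    · rw [if_neg (by tauto), if_neg h2]
  rw [Finset.sum_congr rfl e2]
  by_cases h2 : (n : ZMod m) = g
  · simp only [if_pos h2]
    exact tt_eq s n
  · simp only [if_neg h2, Finset.sum_const_zero, mul_zero]

theorem TT_summable {d m : ℕ} (hd : 2 ≤ d) (hcf : ∀ p : ℕ, p.Prime → ¬ p ^ 3 ∣ d) (hm : 1 ≤ m) {s : ℂ}
    (hs : 1 < s.re) : Summable (fun n : ℕ => ‖tt d m n * (n : ℂ) ^ (-s)‖) := by
  have h1 := (fib_hasSum (G1_summable hd hm hs).hasSum).summable.mul_left (1 / 6 : ℝ)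
  apply Summable.of_nonneg_of_le (fun n => norm_nonneg _) _ h1
  intro n
  rw [tt_eq, norm_mul]
  have e1 : ‖(1 / 6 : ℂ)‖ = 1 / 6 := by simp
  rw [e1]
  exact mul_le_mul_of_nonneg_left (norm_sum_le _ _) (by norm_num)

end MPd9f52e
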