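import Mathlib
import Pool.Agent.Lib.MP_d9f52e_nt.TSer
import Pool.Agent.Lib.MP_d9f52e_nt.TDer
import Pool.Agent.Lib.MP_d9f52e_nt.TZQ

/-!
# TZZ: the functions ZZ  (about 200 lines)

`ZZ_diff`: `zQ_diff`, `TT_diff`.  `ZZ_deriv`: product rule with `TT_zero`, `TT_deriv`, `zQ_zero`.
`ZZ_coeff`: for `Re s > 1`, `g` a unit mod `m`: `sum_{n = g} (sum_{e | n} tt e) n^{-s} = sum_b (sum_{n1 = b} n1^{-s}) (sum_{n2 = g b^{-1}} tt(n2) n2^{-s})`: product of absolutely convergent series (`TT_summable`), grouping of the pairs `(n1, n2)` by `n = n1 n2 >= 1` (`Nat.divisorsAntidiagonal`; LSeries convolution or `HasSum` of sigma type);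
for `n1 n2 = g` mod `m` both `n1`, `n2` are units.
-/

set_option autoImplicit false

namespace MPd9f52e

open Complex

variable {d m : ℕ}

private theorem dom_open' : IsOpen Dom := by
  have h1 : IsOpen {s : ℂ | -1 / 2 < s.re} := isOpen_lt continuous_const Complex.continuous_re
  have h2 : IsOpen {s : ℂ | s ≠ 1} := isOpen_ne
  exact h1.inter h2

private theorem zero_mem_dom' : (0 : ℂ) ∈ Dom := by
  constructor
  · simp
    norm_num
  · exact zero_ne_one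

theorem ZZ_diff [NeZero m] (hd : 2 ≤ d) (g : ZMod m) : DifferentiableOn ℂ (ZZ d m g) Dom := by
  have hm : 1 ≤ m := Nat.one_le_iff_ne_zero.mpr (NeZero.ne m)
  unfold ZZ
  apply DifferentiableOn.fun_sum
  intro b _ s hs
  exact (zQ_diff hm _ hs.2).differentiableWithinAt.mul (TT_diff hd hm _ s hs)

theorem ZZ_deriv [NeZero m] (hd : 2 ≤ d) (hcf : ∀ p : ℕ, p.Prime → ¬ p ^ 3 ∣ d) (hm : 2 ≤ m) (g : (ZMod m)ˣ) :
    deriv (ZZ d m (g : ZMod m)) 0 = ((∑ b : (ZMod m)ˣ, (1 / 2 - ((b : ZMod m).val : ℝ) / m) *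
      (-2 * (Real.log (Phi d m 0 ((g * b⁻¹ : (ZMod m)ˣ) : ZMod m)) -
        Real.log (Phi d m 1 ((g * b⁻¹ : (ZMod m)ˣ) : ZMod m)))) : ℝ) : ℂ) := by
  have hm1 : 1 ≤ m := by omega
  have hT : ∀ h : ZMod m, DifferentiableAt ℂ (TT d m h) 0 := fun h =>
    (TT_diff hd hm1 h).differentiableAt (dom_open'.mem_nhds zero_mem_dom')
  have hz : ∀ b : ZMod m, DifferentiableAt ℂ (zQ m b) 0 := fun b => zQ_diff hm1 b zero_ne_one
  have h1 : HasDerivAt (ZZ d m (g : ZMod m)) (∑ b : (ZMod m)ˣ,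
      (deriv (zQ m (b : ZMod m)) 0 * TT d m (g * ((b⁻¹ : (ZMod m)ˣ) : ZMod m)) 0 +
        zQ m (b : ZMod m) 0 * deriv (TT d m (g * ((b⁻¹ : (ZMod m)ˣ) : ZMod m))) 0)) 0 := by
    unfold ZZ
    apply HasDerivAt.fun_sum
    intro b _
    exact (hz b).hasDerivAt.mul (hT _).hasDerivAt
  rw [h1.deriv]
  push_cast
  apply Finset.sum_congr rfl
  intro b _
  rw [TT_zero hd hm1, mul_zero, zero_add, zQ_zero hm, TT_deriv hd hcf hm1]
  push_cast
  rfl

private theorem hasSum_prod {f g : ℕ → ℂ} {a b : ℂ} (hf : HasSum f a) (hg : HasSum g b) :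
    HasSum (fun p : ℕ × ℕ => f p.1 * g p.2) (a * b) :=
  hf.mul hg (summable_mul_of_summable_norm hf.summable.norm hg.summable.norm)

/-- the summand of the double series -/
private noncomputable def HH (d m : ℕ) (g : ZMod m) (s : ℂ) (p : ℕ × ℕ) : ℂ :=
  if ((p.1 * p.2 : ℕ) : ZMod m) = g then (p.1 : ℂ) ^ (-s) * (tt d m p.2 * (p.2 : ℂ) ^ (-s)) else 0

private theorem HH_hasSum [NeZero m] (hd : 2 ≤ d) (hcf : ∀ p : ℕ, p.Prime → ¬ p ^ 3 ∣ d) (hm : 2 ≤ m)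
    (g : (ZMod m)ˣ) {s : ℂ} (hs : 1 < s.re) :
    HasSum (HH d m (g : ZMod m) s) (ZZ d m (g : ZMod m) s) := by
  have hm1 : 1 ≤ m := by omega
  have h1 : ∀ b : (ZMod m)ˣ, HasSum (fun p : ℕ × ℕ =>
      (if ((p.1 : ℕ) : ZMod m) = b then (p.1 : ℂ) ^ (-s) else 0) *
      (if ((p.2 : ℕ) : ZMod m) = (g : ZMod m) * ((b⁻¹ : (ZMod m)ˣ) : ZMod m) then
        tt d m p.2 * (p.2 : ℂ) ^ (-s) else 0))
      (zQ m (b : ZMod m) s * TT d m (g * ((b⁻¹ : (ZMod m)ˣ) : ZMod m)) s) := by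
    intro b
    have hA := zQ_hasSum hm b hs
    have hB := TT_hasSum hd hcf hm1 ((g : ZMod m) * ((b⁻¹ : (ZMod m)ˣ) : ZMod m)) hs
    have hD := hasSum_prod hA hB
    exact hD
  have h2 := hasSum_sum (s := (Finset.univ : Finset (ZMod m)ˣ)) (fun b _ => h1 b)
  have h3 : ZZ d m (g : ZMod m) s = ∑ b : (ZMod m)ˣ,
      zQ m (b : ZMod m) s * TT d m (g * ((b⁻¹ : (ZMod m)ˣ) : ZMod m)) s := rfl
  rw [h3]
  refine h2.congr_fun ?_
  rintro ⟨x, y⟩
  unfold HH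
  simp only
  by_cases hx : IsUnit ((x : ℕ) : ZMod m)
  · obtain ⟨u, hu⟩ := hx
    rw [Finset.sum_eq_single u]
    · rw [if_pos hu.symm]
      have e1 : (((x * y : ℕ) : ZMod m) = g) ↔
          (((y : ℕ) : ZMod m) = (g : ZMod m) * ((u⁻¹ : (ZMod m)ˣ) : ZMod m)) := by
        rw [Units.eq_mul_inv_iff_mul_eq, hu, Nat.cast_mul, mul_comm]
      by_cases h : ((x * y : ℕ) : ZMod m) = g
      · rw [if_pos h, if_pos (e1.mp h)]
      · rw [if_neg h, if_neg (fun h' => h (e1.mpr h')), mul_zero]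
    · intro b _ hb
      rw [if_neg, zero_mul]
      intro h
      exact hb (Units.ext (by rw [← h, hu]))
    · intro h
      exact absurd (Finset.mem_univ _) h
  · rw [if_neg, Finset.sum_eq_zero]
    · intro b _
      rw [if_neg, zero_mul]
      intro h
      exact hx (h ▸ b.isUnit)
    · intro h
      apply hx
      rw [Nat.cast_mul] at h
      exact isUnit_of_mul_isUnit_left (h ▸ g.isUnit)

theorem ZZ_coeff [NeZero m] (hd : 2 ≤ d) (hcf : ∀ p : ℕ, p.Prime → ¬ p ^ 3 ∣ d) (hm : 2 ≤ m) (g : (ZMod m)ˣ) {s : ℂ}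
    (hs : 1 < s.re) :
    HasSum (fun n : ℕ => if (n : ZMod m) = g then (∑ e ∈ n.divisors, tt d m e) * (n : ℂ) ^ (-s) else 0)
      (ZZ d m (g : ZMod m) s) := by
  have : Fact (1 < m) := ⟨by omega⟩
  have h0 := HH_hasSum hd hcf hm g hs
  have h1 : HasSum (HH d m (g : ZMod m) s ∘ (Equiv.sigmaFiberEquiv (fun p : ℕ × ℕ => p.1 * p.2)))
      (ZZ d m (g : ZMod m) s) := (Equiv.sigmaFiberEquiv _).hasSum_iff.mpr h0
  apply h1.sigma
  intro n
  by_cases hn : ((n : ℕ) : ZMod m) = g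
  · rw [if_pos hn]
    have hn0 : n ≠ 0 := by
      rintro rfl
      rw [Nat.cast_zero] at hn
      exact g.ne_zero hn.symm
    have h2 : HasSum (HH d m (g : ZMod m) s ∘ ((↑) : {p // p ∈ n.divisorsAntidiagonal} → ℕ × ℕ))
        (∑ p ∈ n.divisorsAntidiagonal, HH d m (g : ZMod m) s p) :=
      Finset.hasSum n.divisorsAntidiagonal _
    have h3 := (Equiv.subtypeEquivRight (fun p : ℕ × ℕ => show p.1 * p.2 = n ↔
      p ∈ n.divisorsAntidiagonal by rw [Nat.mem_divisorsAntidiagonal]; tauto)).hasSum_iff.mpr h2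
    have e1 : ∑ p ∈ n.divisorsAntidiagonal, HH d m (g : ZMod m) s p =
        (∑ e ∈ n.divisors, tt d m e) * (n : ℂ) ^ (-s) := by
      have e2 : ∀ p ∈ n.divisorsAntidiagonal, HH d m (g : ZMod m) s p =
          tt d m p.2 * (n : ℂ) ^ (-s) := by
        rintro ⟨x, y⟩ hp
        rw [Nat.mem_divisorsAntidiagonal] at hp
        unfold HH
        simp only at hp ⊢
        rw [hp.1, if_pos hn, ← hp.1, Nat.cast_mul, Complex.natCast_mul_natCast_cpow]
        ring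
      rw [Finset.sum_congr rfl e2,
        Nat.sum_divisorsAntidiagonal' (fun _ y => tt d m y * (n : ℂ) ^ (-s)), Finset.sum_mul]
    rw [← e1]
    exact h3
  · rw [if_neg hn]
    have h2 : ∀ x : {p : ℕ × ℕ // p.1 * p.2 = n}, (HH d m (g : ZMod m) s ∘
        (Equiv.sigmaFiberEquiv (fun p : ℕ × ℕ => p.1 * p.2))) ⟨n, x⟩ = 0 := by
      rintro ⟨⟨x, y⟩, hxy⟩
      show HH d m (g : ZMod m) s (x, y) = 0
      unfold HH
      simp only at hxy ⊢
      rw [hxy, if_neg hn]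
    exact hasSum_zero.congr_fun h2

end MPd9f52e
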