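import Pool.Agent.Lib.MP_d9f52e_nt.ADef

/-!
# The Galois group of `K(ζ) / K`

* `no_root`: let `F` be a field generated over `ℚ` by a root of unity; then `d` is not a cube in
  `F`. If `ρ ^ 3 = d`, then `ℚ(ρ) / ℚ` is normal (subextension of an abelian extension), of
  degree `3` (`X ^ 3 - d` is irreducible over `ℚ`: it has no rational root because `d` is
  cube-free and at least two), so it contains all roots of `X ^ 3 - d`, hence a primitive cube
  root of unity, which has degree `2` over `ℚ`, and `2` does not divide `3`.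
* `cyc_irr`: `M = ℚ(ζ)(θ)` and `X ^ 3 - d` has no root in `ℚ(ζ)`, so it is irreducible over
  `ℚ(ζ)` and `[M : ℚ] = 3 φ(m)`, `[M : K] = φ(m)`. The minimal polynomial of `ζ` over `K` divides
  the cyclotomic polynomial and has the same degree.
* `cyc_equiv`: `IsCyclotomicExtension.autEquivPow` (or `IsPrimitiveRoot.autToPow`).
-/

open NumberField

namespace MPd9f52e

variable {d m : ℕ} {K M : Type} [Field K] [NumberField K] [Field M] [NumberField M] [Algebra K M]
  {θ : K} {ζ : M}

private theorem no_rat_cube {d : ℕ} (h2 : 2 ≤ d) (hd : ∀ p : ℕ, p.Prime → ¬ p ^ 3 ∣ d) (b : ℚ) :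
    b ^ 3 ≠ (d : ℚ) := by
  intro hb
  have hbi : IsIntegral ℤ b := by
    refine ⟨Polynomial.X ^ 3 - Polynomial.C (d : ℤ), ?_, ?_⟩
    · exact Polynomial.monic_X_pow_sub_C _ (by norm_num)
    · simp [hb]
  obtain ⟨n, rfl⟩ := IsIntegrallyClosed.isIntegral_iff.1 hbi
  have hn : n ^ 3 = (d : ℤ) := by
    have : ((n : ℚ)) ^ 3 = ((d : ℤ) : ℚ) := by simpa using hb
    exact_mod_cast this
  have hnat : n.natAbs ^ 3 = d := by
    have := congrArg Int.natAbs hn
    rwa [Int.natAbs_pow, Int.natAbs_natCast] at this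
  have hn1 : n.natAbs ≠ 1 := by
    intro h1
    rw [h1] at hnat
    omega
  obtain ⟨p, hp, hpn⟩ := Nat.exists_prime_and_dvd hn1
  exact hd p hp (hnat ▸ pow_dvd_pow_of_dvd hpn 3)

private theorem irr_rat {d : ℕ} (h2 : 2 ≤ d) (hd : ∀ p : ℕ, p.Prime → ¬ p ^ 3 ∣ d) :
    Irreducible (Polynomial.X ^ 3 - Polynomial.C (d : ℚ)) :=
  X_pow_sub_C_irreducible_of_prime Nat.prime_three (fun b => no_rat_cube h2 hd b)

private theorem minpoly_cube {F : Type} [Field F] [Algebra ℚ F] {d : ℕ} (h2 : 2 ≤ d)
    (hd : ∀ p : ℕ, p.Prime → ¬ p ^ 3 ∣ d) {ρ : F} (hρ : ρ ^ 3 = (d : F)) :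
    minpoly ℚ ρ = Polynomial.X ^ 3 - Polynomial.C (d : ℚ) := by
  symm
  apply minpoly.eq_of_irreducible_of_monic (irr_rat h2 hd)
  · simp [hρ]
  · exact Polynomial.monic_X_pow_sub_C _ (by norm_num)

private theorem finrank_cube {F : Type} [Field F] [NumberField F] {d : ℕ} (h2 : 2 ≤ d)
    (hd : ∀ p : ℕ, p.Prime → ¬ p ^ 3 ∣ d) {ρ : F} (hρ : ρ ^ 3 = (d : F)) :
    Module.finrank ℚ (IntermediateField.adjoin ℚ {ρ}) = 3 := by
  rw [IntermediateField.adjoin.finrank (IsIntegral.of_finite ℚ ρ), minpoly_cube h2 hd hρ]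
  exact Polynomial.natDegree_X_pow_sub_C

private theorem isCyc {k F : Type} [Field k] [Field F] [Algebra k F] [Algebra.IsIntegral k F]
    {m : ℕ} [NeZero m] {ξ : F}
    (hξ : IsPrimitiveRoot ξ m) (hF : IntermediateField.adjoin k {ξ} = ⊤) :
    IsCyclotomicExtension {m} k F := by
  have h1 := hξ.intermediateField_adjoin_isCyclotomicExtension k
  rw [hF] at h1
  exact IsCyclotomicExtension.equiv {m} k _ IntermediateField.topEquiv

private theorem no_root_aux {k F : Type} [Field k] [Field F] [Algebra k F]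
    [FiniteDimensional k F] [IsAbelianGalois k F] {c : k} (hc0 : c ≠ 0)
    (hirr : Irreducible (Polynomial.X ^ 3 - Polynomial.C c))
    (hw : ∀ w : F, IsPrimitiveRoot w 3 → (minpoly k w).natDegree = 2) (ρ : F) :
    ρ ^ 3 ≠ algebraMap k F c := by
  intro hρ
  have hint : IsIntegral k ρ := IsIntegral.of_finite k ρ
  have hmin : minpoly k ρ = Polynomial.X ^ 3 - Polynomial.C c := by
    symm
    apply minpoly.eq_of_irreducible_of_monic hirr
    · simp [hρ]
    · exact Polynomial.monic_X_pow_sub_C _ (by norm_num)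
  have hdeg : Module.finrank k (IntermediateField.adjoin k {ρ}) = 3 := by
    rw [IntermediateField.adjoin.finrank hint, hmin]
    exact Polynomial.natDegree_X_pow_sub_C
  have hcard : Nat.card (IntermediateField.adjoin k {ρ} ≃ₐ[k] IntermediateField.adjoin k {ρ}) = 3 := by
    rw [IsGalois.card_aut_eq_finrank, hdeg]
  obtain ⟨σ, hσ⟩ : ∃ σ : IntermediateField.adjoin k {ρ} ≃ₐ[k] IntermediateField.adjoin k {ρ},
      σ ≠ 1 := by
    by_contra hno
    push Not at hno
    have : Nat.card (IntermediateField.adjoin k {ρ} ≃ₐ[k] IntermediateField.adjoin k {ρ}) = 1 := by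
      rw [Nat.card_eq_one_iff_unique]
      exact ⟨⟨fun a b => (hno a).trans (hno b).symm⟩, ⟨1⟩⟩
    omega
  let r : IntermediateField.adjoin k {ρ} := IntermediateField.AdjoinSimple.gen k ρ
  have hrρ : (r : F) = ρ := IntermediateField.AdjoinSimple.coe_gen k ρ
  have hr3 : r ^ 3 = algebraMap k (IntermediateField.adjoin k {ρ}) c := by
    apply Subtype.ext
    rw [SubmonoidClass.coe_pow, hrρ, hρ]
    rfl
  have hd0 : algebraMap k (IntermediateField.adjoin k {ρ}) c ≠ 0 := by
    rw [Ne, map_eq_zero]; exact hc0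
  have hr0 : r ≠ 0 := by
    intro h0
    rw [h0] at hr3
    apply hd0
    rw [← hr3]; simp
  have hσr : σ r ≠ r := by
    intro h1
    apply hσ
    have h2 : (σ : IntermediateField.adjoin k {ρ} →ₐ[k] IntermediateField.adjoin k {ρ}) =
        AlgHom.id k _ := by
      apply (IntermediateField.adjoin.powerBasis hint).algHom_ext
      exact h1
    ext x
    exact congrArg Subtype.val (DFunLike.congr_fun h2 x)
  have hw3 : (σ r / r) ^ 3 = 1 := by
    rw [div_pow, ← map_pow, hr3, AlgEquiv.commutes, div_self hd0]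
  have hw1 : σ r / r ≠ 1 := by
    rw [Ne, div_eq_one_iff_eq hr0]; exact hσr
  have : Fact (Nat.Prime 3) := ⟨Nat.prime_three⟩
  have hwp : IsPrimitiveRoot (σ r / r) 3 := by
    have := IsPrimitiveRoot.orderOf (σ r / r)
    rwa [orderOf_eq_prime hw3 hw1] at this
  have hwF : IsPrimitiveRoot (algebraMap _ F (σ r / r)) 3 :=
    hwp.map_of_injective (algebraMap (IntermediateField.adjoin k {ρ}) F).injective
  have hdw : Module.finrank k (IntermediateField.adjoin k {σ r / r}) = 2 := by
    rw [IntermediateField.adjoin.finrank (IsIntegral.of_finite k _), ← hw _ hwF]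
    congr 1
    exact (minpoly.algebraMap_eq (algebraMap (IntermediateField.adjoin k {ρ}) F).injective _).symm
  have hmul := Module.finrank_mul_finrank k (IntermediateField.adjoin k {σ r / r})
    (IntermediateField.adjoin k {ρ})
  rw [hdeg, hdw] at hmul
  omega

theorem no_root {F : Type} [Field F] [NumberField F] {m : ℕ} (hm : 0 < m) {ξ : F}
    (hξ : IsPrimitiveRoot ξ m) (hF : IntermediateField.adjoin ℚ {ξ} = ⊤) {d : ℕ} (h2 : 2 ≤ d)
    (hd : ∀ p : ℕ, p.Prime → ¬ p ^ 3 ∣ d) (ρ : F) : ρ ^ 3 ≠ (d : F) := by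
  have : NeZero m := ⟨hm.ne'⟩
  have hcyc : IsCyclotomicExtension {m} ℚ F := isCyc hξ hF
  have : IsAbelianGalois ℚ F := IsCyclotomicExtension.isAbelianGalois {m} ℚ F
  have h0 : (d : ℚ) ≠ 0 := by
    have : d ≠ 0 := by omega
    exact_mod_cast this
  have := no_root_aux (k := ℚ) (F := F) h0 (irr_rat h2 hd) (fun w hw => by
    rw [← Polynomial.cyclotomic_eq_minpoly_rat hw (by norm_num), Polynomial.natDegree_cyclotomic]
    decide) ρ
  rwa [map_natCast] at this

/-- `M` is generated over `ℚ(ζ)` by the cube root -/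
private theorem gen_top (h : Cyc d m K M θ ζ) :
    IntermediateField.adjoin (IntermediateField.adjoin ℚ {ζ}) {algebraMap K M θ} = ⊤ := by
  set F := IntermediateField.adjoin ℚ {ζ} with hF
  set E := IntermediateField.adjoin F {algebraMap K M θ} with hE
  have hζE : ζ ∈ E := by
    have : algebraMap F M ⟨ζ, IntermediateField.mem_adjoin_simple_self ℚ ζ⟩ ∈ E :=
      E.algebraMap_mem _
    exact this
  have hθE : algebraMap K M θ ∈ E := IntermediateField.mem_adjoin_simple_self F _
  have hQ : ∀ q : ℚ, algebraMap ℚ M q ∈ E := by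
    intro q
    rw [IsScalarTower.algebraMap_apply ℚ F M]
    exact E.algebraMap_mem _
  have hKtop : IntermediateField.adjoin ℚ {θ} = (⊤ : IntermediateField ℚ K) := by
    apply IntermediateField.eq_of_le_of_finrank_eq le_top
    rw [finrank_cube h.two_le h.cubefree h.theta, IntermediateField.finrank_top', h.finrank]
  have hK : ∀ x : K, algebraMap K M x ∈ E := by
    intro x
    have hx : x ∈ IntermediateField.adjoin ℚ {θ} := by rw [hKtop]; trivial
    induction hx using IntermediateField.adjoin_induction with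
    | mem y hy => rw [Set.mem_singleton_iff.1 hy]; exact hθE
    | algebraMap q =>
      rw [← IsScalarTower.algebraMap_apply ℚ K M]; exact hQ q
    | add y z _ _ h1 h2 => rw [map_add]; exact add_mem h1 h2
    | inv y _ h1 => rw [map_inv₀]; exact inv_mem h1
    | mul y z _ _ h1 h2 => rw [map_mul]; exact mul_mem h1 h2
  rw [eq_top_iff]
  intro x _
  have hx : x ∈ IntermediateField.adjoin K {ζ} := by rw [h.gen]; trivial
  induction hx using IntermediateField.adjoin_induction with
  | mem y hy => rw [Set.mem_singleton_iff.1 hy]; exact hζE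
  | algebraMap q => exact hK q
  | add y z _ _ h1 h2 => exact add_mem (h1 trivial) (h2 trivial)
  | inv y _ h1 => exact inv_mem (h1 trivial)
  | mul y z _ _ h1 h2 => exact mul_mem (h1 trivial) (h2 trivial)

theorem cyc_finrank (h : Cyc d m K M θ ζ) : Module.finrank ℚ M = 3 * Nat.totient m := by
  have hm : 0 < m := lt_of_lt_of_le (by norm_num) h.three_le
  set F := IntermediateField.adjoin ℚ {ζ} with hF
  have hdF : Module.finrank ℚ F = Nat.totient m := by
    rw [hF, IntermediateField.adjoin.finrank (IsIntegral.of_finite ℚ ζ),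
      ← Polynomial.cyclotomic_eq_minpoly_rat h.prim hm, Polynomial.natDegree_cyclotomic]
  have : NumberField F := ⟨⟩
  let ξ : F := IntermediateField.AdjoinSimple.gen ℚ ζ
  have hξ : IsPrimitiveRoot ξ m := by
    have h1 : IsPrimitiveRoot (algebraMap F M ξ) m := h.prim
    exact h1.of_map_of_injective (algebraMap F M).injective
  have hξtop : IntermediateField.adjoin ℚ {ξ} = ⊤ := by
    apply IntermediateField.eq_of_le_of_finrank_eq le_top
    rw [IntermediateField.finrank_top', hdF,
      IntermediateField.adjoin.finrank (IsIntegral.of_finite ℚ ξ),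
      ← Polynomial.cyclotomic_eq_minpoly_rat hξ hm, Polynomial.natDegree_cyclotomic]
  have hirr : Irreducible (Polynomial.X ^ 3 - Polynomial.C (d : F)) :=
    X_pow_sub_C_irreducible_of_prime Nat.prime_three
      (fun b => no_root hm hξ hξtop h.two_le h.cubefree b)
  have hmin : minpoly F (algebraMap K M θ) = Polynomial.X ^ 3 - Polynomial.C (d : F) := by
    symm
    apply minpoly.eq_of_irreducible_of_monic hirr
    · rw [map_sub, map_pow, Polynomial.aeval_X, Polynomial.aeval_C, ← map_pow, h.theta,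
        map_natCast, map_natCast, sub_self]
    · exact Polynomial.monic_X_pow_sub_C _ (by norm_num)
  have hMF : Module.finrank F M = 3 := by
    rw [← IntermediateField.finrank_top' (F := F) (E := M), ← gen_top h,
      IntermediateField.adjoin.finrank (IsIntegral.of_finite F _), hmin]
    exact Polynomial.natDegree_X_pow_sub_C
  rw [← Module.finrank_mul_finrank ℚ F M, hdF, hMF, mul_comm]

theorem cyc_irr (h : Cyc d m K M θ ζ) : Irreducible (Polynomial.cyclotomic m K) := by
  have hm : 0 < m := lt_of_lt_of_le (by norm_num) h.three_le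
  have h1 := Module.finrank_mul_finrank ℚ K M
  rw [h.finrank, cyc_finrank h] at h1
  have hKM : Module.finrank K M = Nat.totient m := by omega
  have hint : IsIntegral K ζ := IsIntegral.of_finite K ζ
  have hdeg : (minpoly K ζ).natDegree = Nat.totient m := by
    rw [← IntermediateField.adjoin.finrank hint, h.gen, IntermediateField.finrank_top', hKM]
  have hdvd : minpoly K ζ ∣ Polynomial.cyclotomic m K := by
    apply minpoly.dvd
    rw [Polynomial.aeval_def, ← Polynomial.eval_map, Polynomial.map_cyclotomic]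
    exact (h.prim.isRoot_cyclotomic hm)
  have heq : Polynomial.cyclotomic m K = minpoly K ζ := by
    apply Polynomial.eq_of_monic_of_dvd_of_natDegree_le (minpoly.monic hint)
      (Polynomial.cyclotomic.monic m K) hdvd
    rw [hdeg, Polynomial.natDegree_cyclotomic]
  rw [heq]
  exact minpoly.irreducible hint

theorem cyc_galois (h : Cyc d m K M θ ζ) : IsGalois K M := by
  have : NeZero m := ⟨(lt_of_lt_of_le (by norm_num) h.three_le).ne'⟩
  have : IsCyclotomicExtension {m} K M := isCyc h.prim h.gen
  exact IsCyclotomicExtension.isGalois {m} K M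

theorem cyc_equiv (h : Cyc d m K M θ ζ) :
    ∃ S : (ZMod m)ˣ ≃* (M ≃ₐ[K] M), IsCycEquiv m K M ζ S := by
  have : NeZero m := ⟨(lt_of_lt_of_le (by norm_num) h.three_le).ne'⟩
  have : IsCyclotomicExtension {m} K M := isCyc h.prim h.gen
  refine ⟨(IsCyclotomicExtension.autEquivPow M (cyc_irr h)).symm, ?_⟩
  intro g
  set S := IsCyclotomicExtension.autEquivPow M (cyc_irr h) with hS
  have hz := IsCyclotomicExtension.zeta_spec m K M
  set z := IsCyclotomicExtension.zeta m K M with hzdef
  have h1 : z ^ (g : ZMod m).val = S.symm g z := by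
    have h2 := hz.autToPow_spec K (S.symm g)
    have h3 : hz.autToPow K (S.symm g) = g := by
      have : S (S.symm g) = g := S.apply_symm_apply g
      exact this
    rwa [h3] at h2
  obtain ⟨i, -, hi⟩ := hz.eq_pow_of_pow_eq_one h.prim.pow_eq_one
  rw [← hi, map_pow, ← h1, ← pow_mul, ← pow_mul, mul_comm]

theorem cyc_sub (h : Cyc d m K M θ ζ) (L : Type) [Field L] [NumberField L] [Algebra K L]
    [Algebra L M] [IsScalarTower K L M] :
    IsGalois K L ∧ ∀ σ τ : L ≃ₐ[K] L, σ * τ = τ * σ := by
  have : NeZero m := ⟨(lt_of_lt_of_le (by norm_num) h.three_le).ne'⟩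
  have : IsCyclotomicExtension {m} K M := isCyc h.prim h.gen
  have : IsAbelianGalois K M := IsCyclotomicExtension.isAbelianGalois {m} K M
  have : IsAbelianGalois K L := IsAbelianGalois.tower_bot K L M
  exact ⟨inferInstance, fun σ τ => (inferInstance : IsMulCommutative (L ≃ₐ[K] L)).is_comm.comm σ τ⟩

end MPd9f52e
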