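import Mathlib
import Pool.Agent.Lib.MP_d9f52e_nt.WTor
import Pool.Agent.Lib.MP_d9f52e_nt.WPsi
import Pool.Agent.Lib.MP_d9f52e_nt.EPri

/-!
# G3A: functions on the curve and translations by the 3-torsion  (about 250 lines; steps (1)-(4) of the proof below)

`s = 1 + 2w` (`s^2 = -3`).  For `z` with `z, s z, s^2 z` off the lattice put `h z = (y z - w^2)/(s x z)`, `g z = (y z - w)/(s x z)`.  `h(z)^3 = y(s z)`, `g(z)^3 = y(s z) + 1` (`yy_s3`, `yy_s3'`), `g(z) h(z) = x(s z)` (`xx_s3`, `y^2+y = x^3`: `(y-w)(y-w^2) = x^3+1`).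
By `three_tor`, `y(1/3)` is `w` or `w^2`; let `e = 1` resp. `-1` with `y(e/3) = w` (`yy_neg`), `x1 = x(1/3) = x(e/3)`, `x1^3 = -1`.  Let `z` be a point with `s^2 z = e/3` mod the lattice (e.g. `z0 = -e/9`), `Q = s z`, `zeta = s/(y(Q) - w^2) - 1`.
(1) `y(s Q) = w`: `h(Q)^3 = w`, `g(Q) h(Q) = x1`.  `y Q - w^2 = s/(1+zeta)`, `y Q - w = -s zeta/(1+zeta)` so `g(Q) = -zeta h(Q)`, `-zeta h(Q)^2 = x1`, `h(Q) = w/h(Q)^2 = -w zeta/x1`, hence `zeta^3 = (-x1 h(Q)/w)^3 = 1 * w/1 = w` (`x1^3 = -1`, `h^3 = w`, `w^3 = 1`),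
    `x(Q) = (y Q - w^2)/(s h(Q)) = 1/((1+zeta) h(Q)) = -x1 w^2/(zeta (1+zeta))`.
(2) `F(z) = h(z) (1 - zeta^2)(1 - zeta^4)`: `F(z)^3 = y(Q) ((1-zeta^2)(1-zeta^4))^3 = 3`, `y Q = w^2 + s/(1+zeta) = w (1 + w zeta)/(1+zeta)`; identity in `ℚ(zeta)`, `zeta^3 = w`, `zeta^6+zeta^3+1 = 0`.
(3) translation by `T = (0,0)` (`T = -e s/3`, as `y(e s/3) = g^3 - 1 = ((w - w)/..)^3 - 1 = -1`: `y(s (e/3)) + 1 = g(e/3)^3 = 0`): `x(z + T) = -y/x^2`, `y(z+T) = -1/(y+1)`.  So `h(z - e s/3) = w^2 h(z)`, and `s z` changes by `3e` : `zeta` is unchanged: `F(z - e s/3) = w^2 F(z)`.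
(4) translation by `R = -e/3 = (x1, w^2)`: claim `h(z + R) g(z) = x1`.  Slope `l = (y - w^2)/(x - x1)`, `x' = l^2 - x - x1`, `y' = w - l(x' - x1)`; check `(y' - w^2)(y - w) = x1 s^2 x x' = -3 x1 x x'` using `y^2+y = x^3`, `x1^3 = -1`, `w^2+w+1 = 0`.
    `s z` changes by `-e s/3 = T`: `y(Q + T) = -1/(y Q+1)`, which is `zeta -> w^2 zeta`.  `F(z - e/3)/F(z) = x1/(g(z) h(z)) * (1 - w zeta^2)(1 - w^2 zeta^4)/((1-zeta^2)(1-zeta^4))`, `g h = x(Q)`; `= -w zeta (1+zeta)(1 - w zeta^2)(1 - zeta)/((1-zeta)(1+zeta)(1 - w zeta)) = 1`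
    (`w^2 zeta^4 = zeta`, `zeta^4 = w zeta`, `-w zeta (1 - w zeta^2) = 1 - w zeta` because `w^2 zeta^3 = 1`).
(5) `u = 1 + 3 (a + b om)`: `a + b w = (a + b) - b s + 3(..)`, precisely `w = 1 - s + 3 w`... (`s - 1 = 2w`, so `w = (s-1)/2 = 3w - (s - 1)`): `-e u/9 = z0 - e(a+b)/3 + e b s/3 - e b w`; so `F(-e ec u/9) = w^(2 * (-b)) F(z0) = w^b F(z0)` by (3), (4) (iterate; the hypothesis on `z` is preserved).
(6) `t w = w`, `t` acts by `u` on the 9-torsion, `u = 1 mod 3` (`acts_mod_three`): `t(F(z0)) = F(u z0)` (F is a rational function of `x(z0), y(z0), y(s z0)`), `F(z0)^3 = 3`, so `3^{1/3} = w^i F(z0)` and `t(3^{1/3}) = w^(nn u) 3^{1/3}` (`nn_eval`).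
Everything was checked numerically.
-/

set_option autoImplicit false

namespace MPd9f52e

open Complex

/-- `h = (y - w²)/(s x)` -/
noncomputable def hh (z : ℂ) : ℂ := (yy z - w ^ 2) / ((1 + 2 * w) * xx z)

/-- `zeta = s/(y(sz) - w²) - 1` -/
noncomputable def zt (z : ℂ) : ℂ := (1 + 2 * w) / (yy ((1 + 2 * w) * z) - w ^ 2) - 1

/-- `F = h (1 - zeta²)(1 - zeta⁴)` -/
noncomputable def FF (z : ℂ) : ℂ := hh z * (1 - zt z ^ 2) * (1 - zt z ^ 4)

/-! ### algebra -/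

private theorem alg1 {Y t W : ℂ} (h1 : (Y - W ^ 2) * (1 + t) = 1 + 2 * W) (h2 : t ^ 3 = W)
    (h3 : W ^ 2 = -1 - W) (h4 : 1 + t ≠ 0) : Y * ((1 - t ^ 2) * (1 - t ^ 4)) ^ 3 = 3 := by
  subst h2
  apply mul_right_cancel₀ h4
  linear_combination ((1 - t ^ 2) * (1 - t ^ 4)) ^ 3 * h1 + (t ^ 19 + t ^ 18 - 3 * t ^ 17 -
    4 * t ^ 16 + t ^ 15 + 3 * t ^ 14 + 5 * t ^ 13 + 7 * t ^ 12 - 6 * t ^ 11 - 10 * t ^ 10 +
    2 * t ^ 9 - 3 * t ^ 8 + t ^ 7 + 7 * t ^ 6 - 3 * t ^ 5 + 3 * t ^ 4 + 4 * t ^ 3 - 3 * t ^ 2 -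
    3 * t - 2) * h3

private theorem alg2 {x y a W x' y' : ℂ} (h1 : y ^ 2 + y = x ^ 3) (h2 : a ^ 3 = -1)
    (h3 : W ^ 2 = -1 - W) (hu : x - a ≠ 0)
    (hx' : x' = ((y - W ^ 2) / (x - a)) ^ 2 - x - a)
    (hy' : y' = -1 - ((y - W ^ 2) / (x - a) * (x' - x) + y)) :
    (y' - W ^ 2) * (y - W) = -3 * a * x * x' := by
  have e1 : x' * (x - a) ^ 2 = (y - W ^ 2) ^ 2 - (x + a) * (x - a) ^ 2 := by
    rw [hx']
    field_simp
    ring
  have e2 : y' * (x - a) ^ 3 = -(x - a) ^ 3 - (y - W ^ 2) * (x' * (x - a) ^ 2 -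
      x * (x - a) ^ 2) - y * (x - a) ^ 3 := by
    rw [hy']
    field_simp
    ring
  apply mul_right_cancel₀ (pow_ne_zero 3 hu)
  linear_combination (y - W) * e2 + (3 * a * x * (x - a) - (y - W ^ 2) * (y - W)) * e1 +
    (3 * x ^ 2 * a - 6 * x * a ^ 2 - y ^ 2 - 2 * y * W - 2 * y + 2 * a ^ 3 - W - 1) * h1 +
    (2 * x ^ 3 - 6 * x ^ 2 * a + 3 * x * a ^ 2 - 2 * y * W - y - W) * h2 +
    (-3 * x ^ 3 * y + 3 * x ^ 3 * W - 3 * x ^ 3 + 3 * x ^ 2 * a * W ^ 2 - 9 * x ^ 2 * a * W +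
      6 * x ^ 2 * a + 3 * x * y * a ^ 2 - 3 * x * a ^ 2 * W ^ 2 + 6 * x * a ^ 2 * W -
      3 * x * a ^ 2 + 3 * y ^ 3 - 3 * y ^ 2 * W ^ 2 + 3 * y ^ 2 + y * W ^ 4 + 2 * y * W ^ 3 -
      3 * y * W ^ 2 + y * W + 2 * y - W ^ 5 + W ^ 4 - W ^ 2 + W) * h3

private theorem alg3 {x y W x' y' : ℂ} (h1 : y ^ 2 + y = x ^ 3) (h3 : W ^ 2 = -1 - W)
    (hx : x ≠ 0) (hx' : x' * x ^ 2 = -y) (hy' : y' * (y + 1) = -1) :
    (y' - W ^ 2) * x = W ^ 2 * (y - W ^ 2) * x' := by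
  have hy0 : y + 1 ≠ 0 := by
    intro h
    rw [h, mul_zero] at hy'
    norm_num at hy'
  apply mul_right_cancel₀ (mul_ne_zero (pow_ne_zero 2 hx) hy0)
  linear_combination x ^ 3 * hy' - W ^ 2 * (y - W ^ 2) * (y + 1) * hx' +
    (1 + W ^ 2 * (y + 1)) * h1 - y * (y + 1) * (W ^ 2 - W + 1) * h3

private theorem alg5 {t W : ℂ} (h2 : t ^ 3 = W) (h3 : W ^ 2 = -1 - W) :
    -W * t * (1 + t) * (1 - (W ^ 2 * t) ^ 2) * (1 - (W ^ 2 * t) ^ 4) =
      (1 - t ^ 2) * (1 - t ^ 4) := by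
  subst h2
  linear_combination (-t ^ 41 - t ^ 40 + t ^ 38 + t ^ 37 - t ^ 32 - t ^ 31 + t ^ 29 + t ^ 28 + t ^ 27 + t ^ 26 -
    t ^ 24 - 2 * t ^ 23 - t ^ 22 + t ^ 20 + t ^ 19 + t ^ 18 + t ^ 17 - t ^ 15 - 2 * t ^ 14 + t ^ 12 +
    t ^ 11 + t ^ 8 - t ^ 6 - 2 * t ^ 5 + t ^ 3 + t ^ 2 - 1) * h3

/-! ### the lattice -/

private theorem s_ne_zero : (1 + 2 * w : ℂ) ≠ 0 := by
  rw [← ec_s3]
  apply ec_ne_zero
  intro h
  have := congrArg QuadraticAlgebra.re h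
  simp [s3] at this

private theorem s_sq : (1 + 2 * w : ℂ) * (1 + 2 * w) = -3 := by
  linear_combination 4 * w_sq

private theorem s_mem {z : ℂ} (h : z ∈ LO.lattice) : (1 + 2 * w) * z ∈ LO.lattice := by
  obtain ⟨b, rfl⟩ := (mem_LO _).1 h
  rw [← ec_s3, ← map_mul]
  exact ec_mem _

private theorem int_mem (n : ℤ) : (n : ℂ) ∈ LO.lattice := by
  have := ec_mem (n : Eis)
  rwa [map_intCast] at this

private theorem xy_congr {z u : ℂ} (h : z - u ∈ LO.lattice) : xx z = xx u ∧ yy z = yy u := by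
  obtain ⟨b, hb⟩ := (mem_LO _).1 h
  have : z = u + ec b := by rw [hb]; ring
  rw [this]
  exact ⟨xx_add u b, yy_add u b⟩

private theorem re_three (b : Eis) : (3 * b : Eis).re = 3 * b.re := by
  have h : (3 * b : Eis) = b + b + b := by ring
  rw [h, QuadraticAlgebra.re_add, QuadraticAlgebra.re_add]
  ring

private theorem q_not_mem {e : ℤ} (he : e = 1 ∨ e = -1) : (e : ℂ) / 3 ∉ LO.lattice := by
  intro h
  obtain ⟨b, hb⟩ := (mem_LO _).1 h
  have h1 : ec (3 * b) = ec (e : Eis) := by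
    rw [map_mul, hb, map_intCast]
    have : ec 3 = 3 := map_ofNat ec 3
    rw [this]
    ring
  have h2 := congrArg QuadraticAlgebra.re (ec_inj h1)
  have h3 : (3 * b : Eis).re = 3 * b.re := re_three b
  rw [h3] at h2
  have h4 : ((e : Eis)).re = e := by simp
  rw [h4] at h2
  omega

private theorem sq_not_mem {e : ℤ} (he : e = 1 ∨ e = -1) :
    (1 + 2 * w) * ((e : ℂ) / 3) ∉ LO.lattice := by
  intro h
  obtain ⟨b, hb⟩ := (mem_LO _).1 h
  have h1 : ec (3 * b) = ec (s3 * (e : Eis)) := by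
    rw [map_mul, hb, map_mul, map_intCast, ec_s3]
    have : ec 3 = 3 := map_ofNat ec 3
    rw [this]
    ring
  have h2 := congrArg QuadraticAlgebra.re (ec_inj h1)
  have h3 : (3 * b : Eis).re = 3 * b.re := re_three b
  have h4 : (s3 * (e : Eis)).re = e := by simp [s3]
  rw [h3, h4] at h2
  omega

/-- the sign `e` with `y(e/3) = w` -/
theorem exists_sign : ∃ e : ℤ, (e = 1 ∨ e = -1) ∧ yy ((e : ℂ) / 3) = w ∧ xx ((e : ℂ) / 3) ^ 3 = -1 := by
  have h1 : (3 : ℂ) * (((1 : ℤ) : ℂ) / 3) ∈ LO.lattice := by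
    have := int_mem 1
    rwa [mul_div_cancel₀ _ (by norm_num : (3 : ℂ) ≠ 0)]
  obtain ⟨h2, h3⟩ := three_tor h1 (sq_not_mem (Or.inl rfl))
  rcases h3 with h3 | h3
  · exact ⟨1, Or.inl rfl, h3, h2⟩
  · refine ⟨-1, Or.inr rfl, ?_, ?_⟩
    · have e1 : (((-1 : ℤ) : ℂ) / 3) = -(((1 : ℤ) : ℂ) / 3) := by push_cast; ring
      rw [e1, yy_neg, h3]
      linear_combination -w_sq
    · have e1 : (((-1 : ℤ) : ℂ) / 3) = -(((1 : ℤ) : ℂ) / 3) := by push_cast; ring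
      rw [e1, xx_neg, h2]

section
variable {e : ℤ}

private theorem x1_cube (he : e = 1 ∨ e = -1) (hy : yy ((e : ℂ) / 3) = w) :
    xx ((e : ℂ) / 3) ^ 3 = -1 := by
  rw [← curve (q_not_mem he), hy]
  linear_combination w_sq

private theorem x1_ne (he : e = 1 ∨ e = -1) (hy : yy ((e : ℂ) / 3) = w) :
    xx ((e : ℂ) / 3) ≠ 0 := by
  intro h
  have := x1_cube he hy
  rw [h] at this
  norm_num at this

/-- the point `-s e/3` is `(0,0)` -/
private theorem T_coord (he : e = 1 ∨ e = -1) (hy : yy ((e : ℂ) / 3) = w) :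
    xx (-((1 + 2 * w) * ((e : ℂ) / 3))) = 0 ∧ yy (-((1 + 2 * w) * ((e : ℂ) / 3))) = 0 := by
  have h1 := yy_s3' (q_not_mem he) (sq_not_mem he)
  have h2 := xx_s3 (q_not_mem he) (sq_not_mem he)
  have h3 := x1_ne he hy
  rw [hy, sub_self, zero_pow (by norm_num)] at h1
  rw [x1_cube he hy, neg_add_cancel] at h2
  constructor
  · rw [xx_neg]
    have h4 : -3 * xx ((e : ℂ) / 3) ^ 2 ≠ 0 := mul_ne_zero (by norm_num) (pow_ne_zero 2 h3)
    exact (mul_eq_zero.mp h2).resolve_right h4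
  · rw [yy_neg]
    have h4 : ((1 + 2 * w) * xx ((e : ℂ) / 3)) ^ 3 ≠ 0 :=
      pow_ne_zero 3 (mul_ne_zero s_ne_zero h3)
    have h5 := (mul_eq_zero.mp h1).resolve_right h4
    linear_combination -h5

/-- translation by `(0,0)` -/
private theorem tr_T (he : e = 1 ∨ e = -1) (hy : yy ((e : ℂ) / 3) = w) {z : ℂ}
    (hz : z ∉ LO.lattice) (hx : xx z ≠ 0) :
    z + -((1 + 2 * w) * ((e : ℂ) / 3)) ∉ LO.lattice ∧
    xx (z + -((1 + 2 * w) * ((e : ℂ) / 3))) * xx z ^ 2 = -yy z ∧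
      yy (z + -((1 + 2 * w) * ((e : ℂ) / 3))) * (yy z + 1) = -1 := by
  obtain ⟨h1, h2⟩ := T_coord he hy
  set T : ℂ := -((1 + 2 * w) * ((e : ℂ) / 3)) with hT
  have hTL : T ∉ LO.lattice := fun h => sq_not_mem he (by
    have := neg_mem h
    rwa [hT, neg_neg] at this)
  have hzT : z + T ∉ LO.lattice := by
    intro h
    have h3 := (xy_congr (z := z) (u := -T) (by rwa [sub_neg_eq_add])).1
    rw [xx_neg, h1] at h3
    exact hx h3
  obtain ⟨h3, h4⟩ := xy_add hz hTL hzT (by rw [h1]; exact hx)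
  have hc := curve hz
  rw [h1, h2, sub_zero, sub_zero, sub_zero] at h3
  rw [h1, h2, sub_zero, sub_zero] at h4
  have e1 : xx (z + T) * xx z ^ 2 = -yy z := by
    rw [h3]
    field_simp
    linear_combination hc
  refine ⟨hzT, e1, ?_⟩
  have e2 : yy (z + T) * xx z ^ 3 = -yy z := by
    rw [h4]
    field_simp
    linear_combination (-yy z) * e1 + hc
  have hy0 : yy z ≠ 0 := by
    intro h0
    rw [h0] at hc
    have : xx z ^ 3 = 0 := by rw [← hc]; ring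
    exact hx (pow_eq_zero_iff (by norm_num) |>.mp this)
  apply mul_right_cancel₀ hy0
  rw [← hc] at e2
  linear_combination e2

/-- the points attached to `z` -/
private theorem basic (he : e = 1 ∨ e = -1) (hy : yy ((e : ℂ) / 3) = w) {z : ℂ}
    (hz : -3 * z - (e : ℂ) / 3 ∈ LO.lattice) :
    3 * z ∉ LO.lattice ∧ z ∉ LO.lattice ∧ (1 + 2 * w) * z ∉ LO.lattice ∧
      (1 + 2 * w) * ((1 + 2 * w) * z) ∉ LO.lattice ∧
      xx ((1 + 2 * w) * ((1 + 2 * w) * z)) = xx ((e : ℂ) / 3) ∧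
      yy ((1 + 2 * w) * ((1 + 2 * w) * z)) = w := by
  have hss : (1 + 2 * w) * ((1 + 2 * w) * z) = -3 * z := by
    rw [← mul_assoc, s_sq]
  have h3 : 3 * z ∉ LO.lattice := by
    intro h
    apply q_not_mem he
    have := neg_mem (add_mem h hz)
    rwa [show -(3 * z + (-3 * z - (e : ℂ) / 3)) = (e : ℂ) / 3 by ring] at this
  have h2 : (1 + 2 * w) * ((1 + 2 * w) * z) ∉ LO.lattice := by
    rw [hss]
    intro h
    apply h3
    have := neg_mem h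
    rwa [show -(-3 * z) = 3 * z by ring] at this
  have h1 : (1 + 2 * w) * z ∉ LO.lattice := fun h => h2 (s_mem h)
  have h0 : z ∉ LO.lattice := fun h => h1 (s_mem h)
  refine ⟨h3, h0, h1, h2, ?_⟩
  rw [hss, (xy_congr hz).1, (xy_congr hz).2]
  exact ⟨rfl, hy⟩

/-- the root of unity `zeta` -/
private theorem zfacts (he : e = 1 ∨ e = -1) (hy : yy ((e : ℂ) / 3) = w) {z : ℂ}
    (hz : -3 * z - (e : ℂ) / 3 ∈ LO.lattice) :
    yy ((1 + 2 * w) * z) - w ^ 2 ≠ 0 ∧ 1 + zt z ≠ 0 ∧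
      (yy ((1 + 2 * w) * z) - w ^ 2) * (1 + zt z) = 1 + 2 * w ∧ zt z ^ 3 = w ∧
      xx ((1 + 2 * w) * z) ≠ 0 ∧
      xx ((1 + 2 * w) * z) * (zt z * (1 + zt z)) = -xx ((e : ℂ) / 3) * w ^ 2 := by
  obtain ⟨-, -, h1, h2, h3, h4⟩ := basic he hy hz
  have hX0 : xx ((1 + 2 * w) * z) ≠ 0 := xx_ne_zero h1 h2
  have hs := s_ne_zero
  have hw0 : w ≠ 0 := by
    intro h
    have := w_pow_three
    rw [h] at this
    norm_num at this
  have k1 := yy_s3 h1 h2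
  have k2 := yy_s3' h1 h2
  have k3 := xx_s3 h1 h2
  have k4 := curve h1
  rw [h4] at k1 k2
  rw [h3] at k3
  set X := xx ((1 + 2 * w) * z) with hX
  set Y := yy ((1 + 2 * w) * z) with hY
  have hY0 : Y - w ^ 2 ≠ 0 := by
    intro h0
    rw [h0, zero_pow (by norm_num)] at k1
    exact mul_ne_zero hw0 (pow_ne_zero 3 (mul_ne_zero hs hX0)) k1
  have hzt : zt z = (1 + 2 * w) / (Y - w ^ 2) - 1 := rfl
  have h5 : 1 + zt z = (1 + 2 * w) / (Y - w ^ 2) := by rw [hzt]; ring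
  have h6 : (Y - w ^ 2) * (1 + zt z) = 1 + 2 * w := by
    rw [h5, mul_div_cancel₀ _ hY0]
  have h7 : 1 + zt z ≠ 0 := by
    rw [h5]
    exact div_ne_zero hs hY0
  refine ⟨hY0, h7, h6, ?_⟩
  set t := zt z with ht
  have h8 : (Y - w) * (1 + t) = -(1 + 2 * w) * t := by
    linear_combination h6 + (1 + t) * w_sq
  -- `w (X (1 + t))^3 = 1`
  have hs3 : (1 + 2 * w) ^ 3 ≠ 0 := pow_ne_zero 3 hs
  have h9 : w * (X * (1 + t)) ^ 3 = 1 := by
    apply mul_right_cancel₀ hs3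
    have : (Y - w ^ 2) ^ 3 * (1 + t) ^ 3 = (1 + 2 * w) ^ 3 := by rw [← mul_pow, h6]
    linear_combination (1 + t) ^ 3 * k1 + this
  have h10 : (w + 1) * (X * (1 + t)) ^ 3 = -t ^ 3 := by
    apply mul_right_cancel₀ hs3
    have : (Y - w) ^ 3 * (1 + t) ^ 3 = (-(1 + 2 * w) * t) ^ 3 := by rw [← mul_pow, h8]
    linear_combination (1 + t) ^ 3 * k2 + this
  have h11 : t ^ 3 = w := by
    have h12 : (X * (1 + t)) ^ 3 = w ^ 2 := by
      linear_combination w ^ 2 * h9 - (X * (1 + t)) ^ 3 * w_pow_three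
    rw [h12] at h10
    linear_combination h10 - w_pow_three - w_sq
  refine ⟨h11, hX0, ?_⟩
  have h12 : (X * (1 + t)) ^ 3 = w ^ 2 := by
    linear_combination w ^ 2 * h9 - (X * (1 + t)) ^ 3 * w_pow_three
  have h13 : (X * (1 + t)) ^ 2 * xx ((e : ℂ) / 3) = -t := by
    have h14 : (Y - w) * (Y - w ^ 2) = X ^ 3 + 1 := by
      linear_combination k4 - Y * w_sq + w_pow_three
    have h15 : ((Y - w) * (1 + t)) * ((Y - w ^ 2) * (1 + t)) = 3 * t := by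
      rw [h8, h6]
      linear_combination (-t) * s_sq
    have h16 : (X ^ 3 + 1) * (1 + t) ^ 2 = 3 * t := by
      rw [← h14]
      linear_combination h15
    have h17 : (-3 : ℂ) ≠ 0 := by norm_num
    apply mul_left_cancel₀ h17
    linear_combination (1 + t) ^ 2 * k3 + h16
  linear_combination (X * (1 + t)) * h13 - xx ((e : ℂ) / 3) * h12

theorem FF_cube {e : ℤ} (he : e = 1 ∨ e = -1) (hy : yy ((e : ℂ) / 3) = w) {z : ℂ} (hz : -3 * z - (e : ℂ) / 3 ∈ LO.lattice) :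
    FF z ^ 3 = 3 := by
  obtain ⟨-, h0, h1, -, -, -⟩ := basic he hy hz
  obtain ⟨-, h2, h3, h4, -, -⟩ := zfacts he hy hz
  have k1 := yy_s3 h0 h1
  have hx0 : (1 + 2 * w) * xx z ≠ 0 := mul_ne_zero s_ne_zero (xx_ne_zero h0 h1)
  have h5 : hh z ^ 3 = yy ((1 + 2 * w) * z) := by
    unfold hh
    rw [div_pow, ← k1, mul_div_assoc, div_self (pow_ne_zero 3 hx0), mul_one]
  have h6 := alg1 h3 h4 w_sq h2
  calc FF z ^ 3 = hh z ^ 3 * ((1 - zt z ^ 2) * (1 - zt z ^ 4)) ^ 3 := by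
        unfold FF
        ring
    _ = 3 := by rw [h5, h6]

theorem FF_shift_s {e : ℤ} (he : e = 1 ∨ e = -1) (hy : yy ((e : ℂ) / 3) = w) {z : ℂ} (hz : -3 * z - (e : ℂ) / 3 ∈ LO.lattice) :
    FF (z - (e : ℂ) * (1 + 2 * w) / 3) = w ^ 2 * FF z := by
  obtain ⟨-, h0, h1, -, -, -⟩ := basic he hy hz
  have hx0 := xx_ne_zero h0 h1
  obtain ⟨h2, h3, h4⟩ := tr_T he hy h0 hx0
  have e0 : z - (e : ℂ) * (1 + 2 * w) / 3 = z + -((1 + 2 * w) * ((e : ℂ) / 3)) := by ring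
  rw [e0]
  set T : ℂ := -((1 + 2 * w) * ((e : ℂ) / 3)) with hT
  have hzt : zt (z + T) = zt z := by
    unfold zt
    have e1 : (1 + 2 * w) * (z + T) = (1 + 2 * w) * z + ec (e : Eis) := by
      rw [map_intCast, hT]
      linear_combination (-(e : ℂ) / 3) * s_sq
    rw [e1, yy_add]
  have hc := curve h0
  have hy0 : yy z ≠ 0 := by
    intro hy0
    rw [hy0] at hc
    have : xx z ^ 3 = 0 := by rw [← hc]; ring
    exact hx0 (pow_eq_zero_iff (by norm_num) |>.mp this)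
  have hx'0 : xx (z + T) ≠ 0 := by
    intro h
    rw [h, zero_mul] at h3
    exact hy0 (neg_eq_zero.mp h3.symm)
  have h5 := alg3 hc w_sq hx0 h3 h4
  have hhh : hh (z + T) = w ^ 2 * hh z := by
    unfold hh
    rw [← mul_div_assoc, div_eq_div_iff (mul_ne_zero s_ne_zero hx'0)
      (mul_ne_zero s_ne_zero hx0)]
    linear_combination (1 + 2 * w) * h5
  unfold FF
  rw [hzt, hhh]
  ring

theorem FF_shift_one {e : ℤ} (he : e = 1 ∨ e = -1) (hy : yy ((e : ℂ) / 3) = w) {z : ℂ} (hz : -3 * z - (e : ℂ) / 3 ∈ LO.lattice) :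
    FF (z - (e : ℂ) / 3) = FF z := by
  obtain ⟨h3z, h0, h1, h2, -, -⟩ := basic he hy hz
  obtain ⟨hY0, hz1, hz2, hz3, hX0, hz4⟩ := zfacts he hy hz
  have hx0 := xx_ne_zero h0 h1
  have hs := s_ne_zero
  have hx1 := x1_ne he hy
  set q : ℂ := (e : ℂ) / 3 with hq
  have h3q : 3 * q ∈ LO.lattice := by
    have := int_mem e
    rwa [hq, mul_div_cancel₀ _ (by norm_num : (3 : ℂ) ≠ 0)]
  have three_mem : ∀ {u : ℂ}, u ∈ LO.lattice → 3 * u ∈ LO.lattice := by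
    intro u hu
    have h := s_mem (s_mem hu)
    rw [← mul_assoc, s_sq] at h
    have := neg_mem h
    rwa [show -(-3 * u) = 3 * u by ring] at this
  have hzq : z - q ∉ LO.lattice := by
    intro h
    apply h3z
    have := add_mem (three_mem h) h3q
    rwa [show 3 * (z - q) + 3 * q = 3 * z by ring] at this
  have hzq' : z + q ∉ LO.lattice := by
    intro h
    apply h3z
    have := sub_mem (three_mem h) h3q
    rwa [show 3 * (z + q) - 3 * q = 3 * z by ring] at this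
  have hqL : -q ∉ LO.lattice := fun h => q_not_mem he (by
    have := neg_mem h
    rwa [neg_neg] at this)
  have hne : xx z ≠ xx q := by
    intro h
    rcases xx_inj h0 (q_not_mem he) h with h | h
    · exact hzq h
    · exact hzq' h
  -- the coordinates of `z - q`
  obtain ⟨k1, k2⟩ := xy_add h0 hqL (by rwa [← sub_eq_add_neg]) (by rw [xx_neg]; exact hne)
  have hyq : yy (-q) = w ^ 2 := by
    rw [yy_neg, hy]
    linear_combination -w_sq
  rw [xx_neg, hyq, ← sub_eq_add_neg] at k1 k2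
  have k3 := alg2 (curve h0) (x1_cube he hy) w_sq (sub_ne_zero.mpr hne) k1 k2
  -- `s (z - q)`
  have e1 : (1 + 2 * w) * (z - q) = (1 + 2 * w) * z + -((1 + 2 * w) * q) := by ring
  obtain ⟨t1, t2, t3⟩ := tr_T he hy h1 hX0
  have hszq : (1 + 2 * w) * (z - q) ∉ LO.lattice := by
    rw [e1]
    exact t1
  have hx'0 : xx (z - q) ≠ 0 := xx_ne_zero hzq hszq
  -- `zeta'`
  have hzt : zt (z - q) = w ^ 2 * zt z := by
    have hdef : zt (z - q) = (1 + 2 * w) / (yy ((1 + 2 * w) * z + -((1 + 2 * w) * q)) - w ^ 2) -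
        1 := by
      unfold zt
      rw [e1]
    rw [hdef]
    set Y := yy ((1 + 2 * w) * z) with hY
    set Y' := yy ((1 + 2 * w) * z + -((1 + 2 * w) * q)) with hY'
    set t := zt z with ht
    have hY1 : Y + 1 ≠ 0 := by
      intro h
      rw [h, mul_zero] at t3
      norm_num at t3
    have hw0 : w ^ 2 ≠ 0 := by
      intro h
      have := w_pow_three
      rw [pow_succ, h, zero_mul] at this
      norm_num at this
    have m1 : (Y' - w ^ 2) * (Y + 1) = -w ^ 2 * (Y - w ^ 2) := by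
      linear_combination t3 - (w ^ 2 - w + 1) * w_sq
    have m2 : Y' - w ^ 2 ≠ 0 := by
      intro h
      rw [h, zero_mul] at m1
      exact mul_ne_zero (neg_ne_zero.mpr hw0) hY0 m1.symm
    have m3 : 1 + 2 * w = (1 + w ^ 2 * t) * (Y' - w ^ 2) := by
      apply mul_right_cancel₀ hY1
      apply mul_right_cancel₀ hz1
      have m4 : (Y + 1) * (1 + t) = (1 + 2 * w) - w * (1 + t) := by
        linear_combination hz2 + (1 + t) * w_sq
      linear_combination (1 + 2 * w) * m4 - (1 + w ^ 2 * t) * (1 + t) * m1 +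
        w ^ 2 * (1 + w ^ 2 * t) * hz2 + (1 + 2 * w) * w_sq + (1 + 2 * w) * t * w * w_pow_three
    rw [sub_eq_iff_eq_add, div_eq_iff m2]
    linear_combination m3
  -- `h'`
  have hxs := xx_s3 h0 h1
  have g1 : hh (z - q) * ((yy z - w) / ((1 + 2 * w) * xx z)) = xx q := by
    unfold hh
    rw [div_mul_div_comm, k3, div_eq_iff (mul_ne_zero (mul_ne_zero hs hx'0)
      (mul_ne_zero hs hx0))]
    linear_combination (-(xx q * xx z * xx (z - q))) * s_sq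
  have g2 : hh z * ((yy z - w) / ((1 + 2 * w) * xx z)) = xx ((1 + 2 * w) * z) := by
    unfold hh
    rw [div_mul_div_comm, div_eq_iff (mul_ne_zero (mul_ne_zero hs hx0)
      (mul_ne_zero hs hx0))]
    linear_combination -hxs + curve h0 - yy z * w_sq + w_pow_three -
      xx ((1 + 2 * w) * z) * xx z ^ 2 * s_sq
  have g3 : hh (z - q) = -w * zt z * (1 + zt z) * hh z := by
    have g4 : hh (z - q) * xx ((1 + 2 * w) * z) = xx q * hh z := by
      rw [← g1, ← g2]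
      ring
    apply mul_right_cancel₀ hx1
    linear_combination (-w * (zt z * (1 + zt z))) * g4 + w * hh (z - q) * hz4 -
      hh (z - q) * xx q * w_pow_three
  unfold FF
  rw [hzt, g3]
  have g5 := alg5 hz3 w_sq
  linear_combination hh z * g5

theorem FF_add {z : ℂ} (b : Eis) : FF (z + ec b) = FF z := by
  have h1 : hh (z + ec b) = hh z := by
    unfold hh
    rw [xx_add, yy_add]
  have h2 : zt (z + ec b) = zt z := by
    unfold zt
    have e1 : (1 + 2 * w) * (z + ec b) = (1 + 2 * w) * z + ec (s3 * b) := by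
      rw [map_mul, ec_s3]
      ring
    rw [e1, yy_add]
  unfold FF
  rw [h1, h2]

end

end MPd9f52e
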