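import Mathlib
import Pool.Agent.Lib.MP_d9f52e_nt.G3A
import Pool.Agent.Lib.MP_d9f52e_nt.WAct

/-!
# G3B: the action on the cube root of 3  (about 120 lines; steps (5), (6) of the proof below)

`s = 1 + 2w` (`s^2 = -3`).  For `z` with `z, s z, s^2 z` off the lattice put `h z = (y z - w^2)/(s x z)`, `g z = (y z - w)/(s x z)`.  `h(z)^3 = y(s z)`, `g(z)^3 = y(s z) + 1` (`yy_s3`, `yy_s3'`), `g(z) h(z) = x(s z)` (`xx_s3`, `y^2+y = x^3`: `(y-w)(y-w^2) = x^3+1`).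
By `three_tor`, `y(1/3)` is `w` or `w^2`; let `e = 1` resp. `-1` with `y(e/3) = w` (`yy_neg`), `x1 = x(1/3) = x(e/3)`, `x1^3 = -1`.  Let `z` be a point with `s^2 z = e/3` mod the lattice (e.g. `z0 = -e/9`), `Q = s z`, `zeta = s/(y(Q) - w^2) - 1`.
(1) `y(s Q) = w`: `h(Q)^3 = w`, `g(Q) h(Q) = x1`.  `y Q - w^2 = s/(1+zeta)`, `y Q - w = -s zeta/(1+zeta)` so `g(Q) = -zeta h(Q)`, `-zeta h(Q)^2 = x1`, `h(Q) = w/h(Q)^2 = -w zeta/x1`, hence `zeta^3 = (-x1 h(Q)/w)^3 = 1 * w/1 = w` (`x1^3 = -1`, `h^3 = w`, `w^3 = 1`),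
    `x(Q) = (y Q - w^2)/(s h(Q)) = 1/((1+zeta) h(Q)) = -x1 w^2/(zeta (1+zeta))`.
(2) `F(z) = h(z) (1 - zeta^2)(1 - zeta^4)`: `F(z)^3 = y(Q) ((1-zeta^2)(1-zeta^4))^3 = 3`, `y Q = w^2 + s/(1+zeta) = w (1 + w zeta)/(1+zeta)`; identity in `ℚ(zeta)`, `zeta^3 = w`, `zeta^6+zeta^3+1 = 0`.
(3) translation by `T = (0,0)` (`T = -e s/3`, as `y(e s/3) = g^3 - 1 = ((w - w)/..)^3 - 1 = -1`: `y(s (e/3)) + 1 = g(e/3)^3 = 0`): `x(z + T) = -y/x^2`, `y(z+T) = -1/(y+1)`.  So `h(z - e s/3) = w^2 h(z)`, and `s z` changes by `3e` : `zeta` is unchanged: `F(z - e s/3) = w^2 F(z)`.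
(4) translation by `R = -e/3 = (x1, w^2)`: claim `h(z + R) g(z) = x1`.  Slope `l = (y - w^2)/(x - x1)`, `x' = l^2 - x - x1`, `y' = w - l(x' - x1)`; check `(y' - w^2)(y - w) = x1 s^2 x x' = -3 x1 x x'` using `y^2+y = x^3`, `x1^3 = -1`, `w^2+w+1 = 0`.
    `s z` changes by `-e s/3 = T`: `y(Q + T) = -1/(y Q+1)`, which is `zeta -> w^2 zeta`.  `F(z - e/3)/F(z) = x1/(g(z) h(z)) * (1 - w zeta^2)(1 - w^2 zeta^4)/((1-zeta^2)(1-zeta^4))`, `g h = x(Q)`; `= -w zeta (1+zeta)(1 - w zeta^2)(1 - zeta)/((1-zeta)(1+zeta)(1 - w zeta)) = 1`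
    (`w^2 zeta^4 = zeta`, `zeta^4 = w zeta`, `-w zeta (1 - w zeta^2) = 1 - w zeta` because `w^2 zeta^3 = 1`).
(5) `u = 1 + 3 (a + b om)`: `a + b w = (a + b) - b s + 3(..)`, precisely `w = 1 - s + 3 w`... (`s - 1 = 2w`, so `w = (s-1)/2 = 3w - (s - 1)`): `-e u/9 = z0 - e(a+b)/3 + e b s/3 - e b w`; so `F(-e ec u/9) = w^(2 * (-b)) F(z0) = w^b F(z0)` by (3), (4) (iterate; the hypothesis on `z` is preserved).
(6) `t w = w`, `t` acts by `u` on the 9-torsion, `u = 1 mod 3` (`acts_mod_three`): `t(F(z0)) = F(u z0)` (F is a rational function of `x(z0), y(z0), y(s z0)`), `F(z0)^3 = 3`, so `3^{1/3} = w^i F(z0)` and `t(3^{1/3}) = w^(nn u) 3^{1/3}` (`nn_eval`).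
Everything was checked numerically.
-/

set_option autoImplicit false

namespace MPd9f52e

open Complex

private lemma g3_ec_int (a : ℤ) : ec (a : Eis) = (a : ℂ) := by
  rw [map_intCast]

private lemma g3_ec_nat (a : ℕ) : ec (a : Eis) = (a : ℂ) := by
  rw [map_natCast]

private lemma g3_hyp_s {e : ℤ} {z : ℂ} (hz : -3 * z - (e : ℂ) / 3 ∈ LO.lattice) :
    -3 * (z - (e : ℂ) * (1 + 2 * w) / 3) - (e : ℂ) / 3 ∈ LO.lattice := by
  obtain ⟨c, hc⟩ := (mem_LO _).1 hz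
  refine (mem_LO _).2 ⟨c + (e : Eis) * s3, ?_⟩
  rw [map_add, map_mul, hc, g3_ec_int, ec_s3]
  ring

private lemma g3_hyp_one {e : ℤ} {z : ℂ} (hz : -3 * z - (e : ℂ) / 3 ∈ LO.lattice) :
    -3 * (z - (e : ℂ) / 3) - (e : ℂ) / 3 ∈ LO.lattice := by
  obtain ⟨c, hc⟩ := (mem_LO _).1 hz
  refine (mem_LO _).2 ⟨c + (e : Eis), ?_⟩
  rw [map_add, hc, g3_ec_int]
  ring

private lemma g3_iter_s {e : ℤ} (he : e = 1 ∨ e = -1) (hy : yy ((e : ℂ) / 3) = w) (k : ℕ) :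
    ∀ z : ℂ, -3 * z - (e : ℂ) / 3 ∈ LO.lattice →
      (-3 * (z - k * ((e : ℂ) * (1 + 2 * w) / 3)) - (e : ℂ) / 3 ∈ LO.lattice) ∧
      FF (z - k * ((e : ℂ) * (1 + 2 * w) / 3)) = (w ^ 2) ^ k * FF z := by
  induction k with
  | zero => intro z hz; simpa using hz
  | succ k ih =>
    intro z hz
    obtain ⟨h1, h2⟩ := ih z hz
    have h3 : z - ((k + 1 : ℕ) : ℂ) * ((e : ℂ) * (1 + 2 * w) / 3) =
        (z - k * ((e : ℂ) * (1 + 2 * w) / 3)) - (e : ℂ) * (1 + 2 * w) / 3 := by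
      push_cast; ring
    rw [h3]
    refine ⟨g3_hyp_s h1, ?_⟩
    rw [FF_shift_s he hy h1, h2]
    ring

private lemma g3_iter_one {e : ℤ} (he : e = 1 ∨ e = -1) (hy : yy ((e : ℂ) / 3) = w) (k : ℕ) :
    ∀ z : ℂ, -3 * z - (e : ℂ) / 3 ∈ LO.lattice →
      (-3 * (z - k * ((e : ℂ) / 3)) - (e : ℂ) / 3 ∈ LO.lattice) ∧
      FF (z - k * ((e : ℂ) / 3)) = FF z := by
  induction k with
  | zero => intro z hz; simpa using hz
  | succ k ih =>
    intro z hz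
    obtain ⟨h1, h2⟩ := ih z hz
    have h3 : z - ((k + 1 : ℕ) : ℂ) * ((e : ℂ) / 3) =
        (z - k * ((e : ℂ) / 3)) - (e : ℂ) / 3 := by
      push_cast; ring
    rw [h3]
    refine ⟨g3_hyp_one h1, ?_⟩
    rw [FF_shift_one he hy h1, h2]

private lemma g3_wpow (k : ℕ) (b : ℤ) (h : (3 : ℤ) ∣ k + b) : (w ^ 2) ^ k = wj (b : ZMod 3) := by
  have h1 : ((2 * k : ℕ) : ZMod 3) = (b : ZMod 3) := by
    obtain ⟨m, hm⟩ := h
    have h2 : (b : ℤ) = 2 * k + 3 * (m - k) := by linarith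
    rw [h2]
    push_cast
    have h3 : (3 : ZMod 3) = 0 := by decide
    rw [h3]; ring
  rw [← h1, ← pow_mul]
  unfold wj
  rw [ZMod.val_natCast]
  conv_lhs => rw [← Nat.mod_add_div (2 * k) 3, pow_add, pow_mul, w_pow_three, one_pow, mul_one]

/-- membership of the 9-torsion point -/
private lemma g3_nine {r : Eis} (h : ¬ (9 : Eis) ∣ r) : ec r / ((9 : ℕ) : ℂ) ∉ LO.lattice := by
  intro hc
  apply h
  have h9 : (9 : Eis) ≠ 0 := by
    intro h0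
    have := congrArg nm h0
    have h2 : nm (9 : Eis) = 81 := by
      have := nm_natCast 9
      simpa using this
    rw [h2, (nm_eq_zero 0).2 rfl] at this
    norm_num at this
  rw [← div_mem h9]
  have : ec (9 : Eis) = ((9 : ℕ) : ℂ) := by
    rw [show (9 : Eis) = ((9 : ℕ) : Eis) by norm_num, g3_ec_nat]
  rw [this]
  exact hc

private lemma g3_shift {e : ℤ} (he : e = 1 ∨ e = -1) (hy : yy ((e : ℂ) / 3) = w) (a b : ℤ) {z : ℂ}
    (hz : -3 * z - (e : ℂ) / 3 ∈ LO.lattice) :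
    FF (z - e * ((a : ℂ) + b * w) / 3) = wj (b : ZMod 3) * FF z := by
  obtain ⟨k, hk⟩ : ∃ k : ℕ, (k : ℤ) = -b + 3 * |b| :=
    ⟨(-b + 3 * |b|).toNat, Int.toNat_of_nonneg (by have := neg_abs_le b; have := le_abs_self b; have := abs_nonneg b; linarith)⟩
  obtain ⟨j, hj⟩ : ∃ j : ℕ, (j : ℤ) = (a + b) + 3 * |a + b| :=
    ⟨((a + b) + 3 * |a + b|).toNat, Int.toNat_of_nonneg (by have := neg_abs_le (a + b); have := abs_nonneg (a + b); linarith)⟩
  have hkC : (k : ℂ) = -b + 3 * (|b| : ℤ) := by exact_mod_cast congrArg (Int.cast : ℤ → ℂ) hk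
  have hjC : (j : ℂ) = (a + b) + 3 * (|a + b| : ℤ) := by exact_mod_cast congrArg (Int.cast : ℤ → ℂ) hj
  obtain ⟨h1, h2⟩ := g3_iter_s he hy k z hz
  obtain ⟨h3, h4⟩ := g3_iter_one he hy j _ h1
  have h5 : z - e * ((a : ℂ) + b * w) / 3 =
      (z - k * ((e : ℂ) * (1 + 2 * w) / 3) - j * ((e : ℂ) / 3)) +
        ec ((e : Eis) * ((|b| : ℤ) : Eis) * s3 + (e : Eis) * ((|a + b| : ℤ) : Eis) - (e : Eis) * (b : Eis) * om) := by
    rw [map_sub, map_add, map_mul, map_mul, map_mul, map_mul, map_mul, g3_ec_int, g3_ec_int, g3_ec_int, g3_ec_int,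
      ec_s3, ec_om, hkC, hjC]
    ring
  rw [h5, FF_add, h4, h2, g3_wpow k b ⟨|b|, by rw [hk]; ring⟩]

theorem act_cbrt3 {t : ℂ ≃+* ℂ} (ht : t w = w) {n : ℕ} (hn : 1 ≤ n) (h9 : 9 ∣ n) {u : Eis} (hu : ActsBy t n u) :
    t (((3 : ℝ) ^ (1 / 3 : ℝ) : ℝ) : ℂ) = wj (nn u) * (((3 : ℝ) ^ (1 / 3 : ℝ) : ℝ) : ℂ) := by
  obtain ⟨e, he, hy, -⟩ := exists_sign
  have hu9 : ActsBy t 9 u := acts_dvd hn h9 hu
  obtain ⟨c, hc⟩ := acts_mod_three ht (by norm_num) (by norm_num : 3 ∣ 9) hu9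
  have hz : -3 * (-(e : ℂ) / 9) - (e : ℂ) / 3 ∈ LO.lattice := by
    refine (mem_LO _).2 ⟨0, ?_⟩
    rw [map_zero]; ring
  -- the 9-torsion points
  have hr1 : ¬ (9 : Eis) ∣ (-e : Eis) := by
    rintro ⟨d, hd⟩
    have h1 := congrArg (fun x => nm x) hd
    simp only [nm_mul] at h1
    have h2 : nm (9 : Eis) = 81 := by
      have := nm_natCast 9
      simpa using this
    have h3 : nm (-(e : Eis)) = 1 := by
      rcases he with h | h <;> rw [h]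
      · rw [nm_neg]; simpa using nm_one
      · simpa using nm_one
    rw [h2, h3] at h1
    omega
  have hr2 : ¬ (9 : Eis) ∣ s3 * (-e : Eis) := by
    rintro ⟨d, hd⟩
    have h1 := congrArg (fun x => nm x) hd
    simp only [nm_mul] at h1
    have h2 : nm (9 : Eis) = 81 := by
      have := nm_natCast 9
      simpa using this
    have h3 : nm (-(e : Eis)) = 1 := by
      rcases he with h | h <;> rw [h]
      · rw [nm_neg]; simpa using nm_one
      · simpa using nm_one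
    rw [h2, h3, nm_s3] at h1
    omega
  have h1 := (hu9.2 _ (g3_nine hr1))
  have h2 := (hu9.2 _ (g3_nine hr2)).2
  have e1 : ec (-(e : Eis)) / ((9 : ℕ) : ℂ) = -(e : ℂ) / 9 := by
    rw [map_neg, g3_ec_int]; norm_num
  have e2 : ec (s3 * -(e : Eis)) / ((9 : ℕ) : ℂ) = (1 + 2 * w) * (-(e : ℂ) / 9) := by
    rw [map_mul, map_neg, g3_ec_int, ec_s3]; push_cast; ring
  have e3 : ec (u * -(e : Eis)) / ((9 : ℕ) : ℂ) = ec u * (-(e : ℂ) / 9) := by
    rw [map_mul, map_neg, g3_ec_int]; push_cast; ring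
  have e4 : ec (u * (s3 * -(e : Eis))) / ((9 : ℕ) : ℂ) = (1 + 2 * w) * (ec u * (-(e : ℂ) / 9)) := by
    rw [map_mul, map_mul, map_neg, g3_ec_int, ec_s3]; push_cast; ring
  rw [e1, e3] at h1
  rw [e2, e4] at h2
  have hF : t (FF (-(e : ℂ) / 9)) = FF (ec u * (-(e : ℂ) / 9)) := by
    unfold FF hh zt
    simp only [map_mul, map_sub, map_div₀, map_pow, map_add, map_one, ht, h1.1, h1.2, h2, map_ofNat]
  -- the shift
  have h5 : ec u * (-(e : ℂ) / 9) = -(e : ℂ) / 9 - e * ((c.re : ℂ) + c.im * w) / 3 := by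
    have : u = 1 + 3 * c := by rw [← hc]; ring
    rw [this, map_add, map_mul, map_one, show (3 : Eis) = ((3 : ℤ) : Eis) by norm_num, g3_ec_int, ec_eq]
    push_cast
    ring
  have h6 : nn u = (c.im : ZMod 3) := by
    have : u = ⟨1 + 3 * c.re, 3 * c.im⟩ := by
      have : u = 1 + 3 * c := by rw [← hc]; ring
      rw [this]
      have r1 : (1 : Eis).re = 1 := rfl
      have i1 : (1 : Eis).im = 0 := rfl
      have r3 : (3 : Eis).re = 3 := rfl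
      have i3 : (3 : Eis).im = 0 := rfl
      ext <;> simp [r1, i1, r3, i3]
    rw [this, nn_eval]
  rw [h5, g3_shift he hy c.re c.im hz, ← h6] at hF
  have hcube := FF_cube he hy hz
  set f := FF (-(e : ℂ) / 9) with hf
  set q : ℂ := (((3 : ℝ) ^ (1 / 3 : ℝ) : ℝ) : ℂ) with hq
  have hq3 : q ^ 3 = 3 := by
    rw [hq]
    norm_cast
    rw [← Real.rpow_natCast, ← Real.rpow_mul (by norm_num)]
    norm_num
  have hf0 : f ≠ 0 := by
    intro h0
    rw [h0] at hcube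
    norm_num at hcube
  have hroot : (q - f) * (q - w * f) * (q - w ^ 2 * f) = 0 := by
    have : (q - f) * (q - w * f) * (q - w ^ 2 * f) = q ^ 3 - f ^ 3 := by
      linear_combination (-(q * q * f) + q * f * f * w - f ^ 3 * (w - 1)) * (w_sq)
    rw [this, hq3, hcube]; ring
  have hfin : ∀ j : ℂ, t j = j → q = j * f → t q = wj (nn u) * q := by
    intro j hj hqf
    rw [hqf, map_mul, hj, hF]; ring
  rcases mul_eq_zero.1 hroot with h | h
  · rcases mul_eq_zero.1 h with h | h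
    · exact hfin 1 (map_one t) (by linear_combination h)
    · exact hfin w ht (by linear_combination h)
  · exact hfin (w ^ 2) (by rw [map_pow, ht]) (by linear_combination h)

end MPd9f52e
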