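import Mathlib
import Pool.Agent.Lib.MP_d9f52e_nt.RSym
import Pool.Agent.Lib.MP_d9f52e_nt.ESix
import Pool.Agent.Lib.MP_d9f52e_nt.WG3

/-!
# GGau: the Gauss lemma  (about 150 lines)

`q` a prime of `Eis`, `nm q` prime to 6, `V` a sixth system modulo `q`, `u` prime to `q`.  For `v` in `V`: `u v = e_v v' mod q` with a unit `e_v` and `v'` in `V`, and `v -> v'` is a bijection of `V`.
Multiply: `u^#V prod v = prod e_v prod v mod q`, `prod v` prime to `q`, so `q | u^((nm q-1)/6) - prod e_v` (`#V = (nm q-1)/6`, `card_sixth`).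
Squaring: `q | u^((nm q-1)/3) - (prod e_v)^2`, so `(prod e_v)^2 = om^(cs q u)` (`cs_eq_of`, units distinct mod `q` by `unit_congr`).
For a unit `e = ±om^j`: `x(ec e z) = w^j x(z)` (`xx_om`, `xx_neg`).  With `prod e_v = ±om^J`: `2J = cs q u` in `ZMod 3`, `prod_v x(u v/q) = w^J prod_v x(v/q)` and `J = -2 J * ... = - cs q u`: indeed `J = 4J = 2 cs q u = - cs q u`.
-/

set_option autoImplicit false

namespace MPd9f52e

open Complex

private theorem gg_prod {q : Eis} (V : Finset Eis) (f g : Eis → Eis)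
    (h : ∀ v ∈ V, q ∣ f v - g v) : q ∣ ∏ v ∈ V, f v - ∏ v ∈ V, g v := by
  rw [← Ideal.mem_span_singleton, ← Ideal.Quotient.eq, map_prod, map_prod]
  refine Finset.prod_congr rfl fun v hv => ?_
  rw [Ideal.Quotient.eq, Ideal.mem_span_singleton]
  exact h v hv

private theorem gg_om_pow (n : ℕ) : om ^ n = om ^ ((n : ZMod 3)).val := by
  rw [ZMod.val_natCast]
  conv_lhs => rw [← Nat.div_add_mod n 3]
  rw [pow_add, pow_mul, om_pow_three, one_pow, one_mul]

private theorem gg_w_pow (n : ℕ) : w ^ n = wj (n : ZMod 3) := by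
  rw [wj, ZMod.val_natCast]
  conv_lhs => rw [← Nat.div_add_mod n 3]
  rw [pow_add, pow_mul, w_pow_three, one_pow, one_mul]

private theorem gg_xpow (j : ℕ) (z : ℂ) : xx (w ^ j * z) = w ^ j * xx z := by
  induction j with
  | zero => rw [pow_zero, one_mul, one_mul]
  | succ j ih => rw [pow_succ', mul_assoc, xx_om, ih, mul_assoc]

private theorem gg_unit (ε : Eisˣ) (z : ℂ) : xx (ec ε * z) = ec ε ^ 4 * xx z := by
  have hw : w ^ 4 = w := by
    rw [show (4 : ℕ) = 3 + 1 by norm_num, pow_add, w_pow_three, one_mul, pow_one]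
  obtain ⟨j, -, h | h⟩ := units_eq ε
  · rw [h, map_pow, ec_om, gg_xpow, ← pow_mul, mul_comm j 4, pow_mul, hw]
  · rw [h, map_neg, map_pow, ec_om, neg_mul, xx_neg, gg_xpow, neg_pow, ← pow_mul w,
      mul_comm j 4, pow_mul w, hw]
    norm_num

theorem gauss6 {q : Eis} (hq : Prime q) (h2 : ¬ 2 ∣ nm q) (h3 : ¬ 3 ∣ nm q) {V : Finset Eis} (hV : IsSixth q V)
    {u : Eis} (hu : ¬ q ∣ u) :
    ∏ v ∈ V, xx (ec (u * v) / ec q) = wj (-cs q u) * ∏ v ∈ V, xx (ec v / ec q) := by
  classical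
  have hex : ∀ v ∈ V, ∃ v' ∈ V, ∃ ε : Eisˣ, q ∣ u * v - ε * v' := by
    intro v hv
    exact hV.2.2 (u * v) fun h => (hq.dvd_or_dvd h).elim hu (hV.1 v hv)
  choose! σ hσ e he using hex
  have hinj : Set.InjOn σ (V : Set Eis) := by
    intro v hv v' hv' hvv
    refine hV.2.1 v hv v' hv' ⟨e v * (e v')⁻¹, ?_⟩
    have h4 := he v hv
    have h5 := he v' hv'
    rw [← hvv] at h5
    have h6 : q ∣ u * (v - ((e v * (e v')⁻¹ : Eisˣ) : Eis) * v') := by
      have h7 : u * (v - ((e v * (e v')⁻¹ : Eisˣ) : Eis) * v') =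
          (u * v - e v * σ v) - ((e v * (e v')⁻¹ : Eisˣ) : Eis) * (u * v' - e v' * σ v) := by
        have h8 : ((e v * (e v')⁻¹ : Eisˣ) : Eis) * (e v' : Eis) = (e v : Eis) := by
          rw [← Units.val_mul, inv_mul_cancel_right]
        linear_combination (-σ v) * h8
      rw [h7]
      exact dvd_sub h4 (Dvd.dvd.mul_left h5 _)
    exact (hq.dvd_or_dvd h6).resolve_left hu
  have himg : V.image σ = V := by
    refine Finset.eq_of_subset_of_card_le ?_ (by rw [Finset.card_image_of_injOn hinj])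
    intro x hx
    obtain ⟨v, hv, rfl⟩ := Finset.mem_image.1 hx
    exact hσ v hv
  have hprodσ : ∀ {M : Type} [CommMonoid M] (F : Eis → M), ∏ v ∈ V, F (σ v) = ∏ v ∈ V, F v := by
    intro M _ F
    conv_rhs => rw [← himg]
    rw [Finset.prod_image hinj]
  set E : Eisˣ := ∏ v ∈ V, e v with hE
  -- the congruence
  have hc1 : q ∣ u ^ V.card * ∏ v ∈ V, v - (E : Eis) * ∏ v ∈ V, v := by
    have h4 := gg_prod V (fun v => u * v) (fun v => (e v : Eis) * σ v) he
    rw [Finset.prod_mul_distrib, Finset.prod_mul_distrib, Finset.prod_const,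
      hprodσ (fun v => v)] at h4
    rw [hE, Units.coe_prod]
    exact h4
  have hnd : ¬ q ∣ ∏ v ∈ V, v := by
    intro h
    obtain ⟨v, hv, h4⟩ := (hq.dvd_finsetProd_iff _).1 h
    exact hV.1 v hv h4
  have hc2 : q ∣ u ^ V.card - (E : Eis) := by
    have h4 : q ∣ (u ^ V.card - (E : Eis)) * ∏ v ∈ V, v := by
      rw [sub_mul]
      exact hc1
    exact (hq.dvd_or_dvd h4).resolve_right hnd
  have hcard := card_sixth h2 h3 hV
  have hexp : (nm q - 1) / 3 = V.card * 2 := by omega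
  have hc3 : q ∣ u ^ ((nm q - 1) / 3) - (E : Eis) ^ 2 := by
    rw [hexp, pow_mul]
    exact dvd_trans hc2 (sub_dvd_pow_sub_pow _ _ 2)
  -- the unit
  obtain ⟨j, -, hj⟩ := units_eq E
  have hE2 : (E : Eis) ^ 2 = om ^ (2 * j) := by
    rcases hj with h | h
    · rw [h, ← pow_mul, mul_comm]
    · rw [h, neg_sq, ← pow_mul, mul_comm]
  have hcs : cs q u = ((2 * j : ℕ) : ZMod 3) := by
    refine cs_eq_of hq h3 ?_
    rw [← gg_om_pow, ← hE2]
    exact hc3
  have hE4 : ec (E : Eis) ^ 4 = wj (-cs q u) := by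
    have h4 : ec (E : Eis) ^ 4 = w ^ (4 * j) := by
      rw [← map_pow, show (4 : ℕ) = 2 * 2 by norm_num, pow_mul, hE2, map_pow, map_pow, ec_om,
        ← pow_mul]
      congr 1
      ring
    rw [h4, gg_w_pow, hcs]
    congr 1
    push_cast
    have h5 : (6 : ZMod 3) = 0 := by decide
    linear_combination (j : ZMod 3) * h5
  have hq0 : ec q ≠ 0 := ec_ne_zero hq.ne_zero
  have hterm : ∀ v ∈ V, xx (ec (u * v) / ec q) = ec (e v : Eis) ^ 4 * xx (ec (σ v) / ec q) := by
    intro v hv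
    obtain ⟨t, ht⟩ := he v hv
    have h4 : ec (u * v) / ec q = ec (e v : Eis) * (ec (σ v) / ec q) + ec t := by
      have h5 : u * v = (e v : Eis) * σ v + q * t := by
        rw [← ht]
        ring
      rw [h5, map_add, map_mul, map_mul]
      field_simp
    rw [h4, xx_add, gg_unit]
  rw [Finset.prod_congr rfl hterm, Finset.prod_mul_distrib,
    hprodσ (fun v => xx (ec v / ec q)), ← hE4, hE, Units.coe_prod, map_prod, Finset.prod_pow]

end MPd9f52e
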