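import Mathlib
import Pool.Agent.Lib.MP_d9f52e_nt.GGau
import Pool.Agent.Lib.MP_d9f52e_nt.SAbs
import Pool.Agent.Lib.MP_d9f52e_nt.WAct
import Pool.Agent.Lib.MP_d9f52e_nt.ESix

/-!
# GCubA: the number C_q = prod x(v/q)  (about 150 lines)

`q` a prime of `Eis`, `nm q` prime to 6, `V` a sixth system modulo `q`, `C = prod_V x(v/q)`.
`act_C`: `t w = w`, `t` acts by `u` on the n-torsion and `q | n`: `v/q = (v k)/n` with `n = q k` in `Eis`, so `t(x(v/q)) = x(u v/q)`; `gauss6` (`q` does not divide `u` as `u` is prime to `n`).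
`abs_C`: `|C|^3 = 1/|q|`.  `|x(v/q)| = phi(s v/q)/phi(v/q)^3` (`xx_abs0`).  With `F r = 1` if `q | r`, `phi(ec r/ec q)` otherwise (periodic mod `q`, unit invariant): `prod_{r in S} F r = |q|` (`prod_phi`), so `(prod_V phi(v/q))^6 = |q|` (`prod_CRS_sixth`), and the same for
`prod_V phi(s3 v/q)`: `r -> F(s3 r)` has the same product over a complete system (`s3` is prime to `q`: `{s3 r}` is again a complete system, `prod_CRS_congr`).  So with `P = prod_V phi(v/q)`, `P^6 = |q|`, `prod_V phi(s3 v/q) = P` (positive numbers), `|C| = P^{-2}`, `|C|^3 = P^{-6} = 1/|q|`.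
-/

set_option autoImplicit false

namespace MPd9f52e

open Complex

/-- the product of the x-coordinates over a sixth system -/
noncomputable def Cq (q : Eis) (V : Finset Eis) : ℂ := ∏ v ∈ V, xx (ec v / ec q)

private theorem gc_q_ne {q : Eis} (hq : Prime q) : ec q ≠ 0 := ec_ne_zero hq.ne_zero

theorem act_C {t : ℂ ≃+* ℂ} (ht : t w = w) {n : ℕ} (hn : 1 ≤ n) {u : Eis} (hu : ActsBy t n u) {q : Eis} (hq : Prime q)
    (h2 : ¬ 2 ∣ nm q) (h3 : ¬ 3 ∣ nm q) {V : Finset Eis} (hV : IsSixth q V) (hqn : q ∣ (n : Eis)) :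
    t (Cq q V) = wj (-cs q u) * Cq q V := by
  obtain ⟨k, hk⟩ := hqn
  have hqu : ¬ q ∣ u := by
    intro h
    have h1 : q ∣ (n : Eis) := ⟨k, hk⟩
    exact hq.not_isUnit (hu.1.isUnit_of_dvd' h h1)
  have hn0 : (n : ℂ) ≠ 0 := by
    have : n ≠ 0 := by omega
    exact_mod_cast this
  have hnk : (n : ℂ) = ec q * ec k := by
    rw [← map_mul, ← hk, map_natCast]
  have hk0 : ec k ≠ 0 := by
    intro h0
    rw [h0, mul_zero] at hnk
    exact hn0 hnk
  have hq0 := gc_q_ne hq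
  have hdiv : ∀ v : Eis, ec v / ec q = ec (v * k) / n := by
    intro v
    rw [hnk, map_mul, mul_div_mul_right _ _ hk0]
  unfold Cq
  rw [← gauss6 hq h2 h3 hV hqu, map_prod]
  refine Finset.prod_congr rfl fun v hv => ?_
  have hoff : ec (v * k) / (n : ℂ) ∉ LO.lattice := by
    rw [← hdiv, div_mem hq.ne_zero]
    exact hV.1 v hv
  rw [hdiv v, (hu.2 (v * k) hoff).1, hdiv (u * v), mul_assoc]

open Classical in
/-- the periodic function used for the product over a complete system -/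
private noncomputable def gcF (q : Eis) (r : Eis) : ℝ := if q ∣ r then 1 else phi (ec r / ec q)

private theorem gcF_congr {q : Eis} (hq : Prime q) {x y : Eis} (h : q ∣ x - y) :
    gcF q x = gcF q y := by
  unfold gcF
  have hiff : q ∣ x ↔ q ∣ y := (dvd_iff_dvd_of_dvd_sub h)
  by_cases hx : q ∣ x
  · rw [if_pos hx, if_pos (hiff.1 hx)]
  · rw [if_neg hx, if_neg (fun h' => hx (hiff.2 h'))]
    obtain ⟨c, hc⟩ := h
    have h1 : ec x / ec q = ec y / ec q + ec c := by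
      have h2 : x = y + q * c := by rw [← hc]; ring
      rw [h2, map_add, map_mul, add_div, mul_div_cancel_left₀ _ (gc_q_ne hq)]
    rw [h1, phi_add]

private theorem gcF_unit {q : Eis} (ε : Eisˣ) (x : Eis) : gcF q (ε * x) = gcF q x := by
  unfold gcF
  have hiff : q ∣ (ε : Eis) * x ↔ q ∣ x := by
    rw [mul_comm]
    exact Units.dvd_mul_right
  by_cases hx : q ∣ x
  · rw [if_pos hx, if_pos (hiff.2 hx)]
  · rw [if_neg hx, if_neg (fun h' => hx (hiff.1 h')), map_mul, mul_div_assoc, phi_unit]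

private theorem gcF_zero (q : Eis) : gcF q 0 = 1 := by
  unfold gcF
  rw [if_pos (dvd_zero q)]

private theorem gcF_prod {q : Eis} (hq : Prime q) {S : Finset Eis} (hS : IsCRS q S) :
    ∏ r ∈ S, gcF q r = ‖ec q‖ := by
  classical
  rw [← prod_phi hq.ne_zero hS, Finset.prod_filter]
  refine Finset.prod_congr rfl fun r _ => ?_
  unfold gcF
  by_cases hr : q ∣ r
  · rw [if_pos hr, if_neg (not_not.2 hr)]
  · rw [if_neg hr, if_pos hr]

private theorem gc_s3 {q : Eis} (h3 : ¬ 3 ∣ nm q) : IsCoprime s3 q := by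
  apply isCoprime_of_nm
  rw [nm_s3]
  exact (Nat.Prime.coprime_iff_not_dvd Nat.prime_three).2 h3

private theorem gc_not_dvd {q : Eis} (hq : Prime q) (h3 : ¬ 3 ∣ nm q) : ¬ q ∣ s3 := fun h =>
  hq.not_isUnit ((gc_s3 h3).isUnit_of_dvd' h dvd_rfl)

private theorem gcF_prod_s3 {q : Eis} (hq : Prime q) (h3 : ¬ 3 ∣ nm q) {S : Finset Eis}
    (hS : IsCRS q S) : ∏ r ∈ S, gcF q (s3 * r) = ‖ec q‖ := by
  classical
  have hinj : ∀ r ∈ S, ∀ r' ∈ S, q ∣ s3 * r - s3 * r' → r = r' := by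
    intro r hr r' hr' h
    rw [← mul_sub] at h
    exact hS.1 r hr r' hr' ((hq.dvd_or_dvd h).resolve_left (gc_not_dvd hq h3))
  have hS' : IsCRS q (S.image (fun r => s3 * r)) := by
    constructor
    · intro x hx y hy h
      obtain ⟨r, hr, rfl⟩ := Finset.mem_image.1 hx
      obtain ⟨r', hr', rfl⟩ := Finset.mem_image.1 hy
      rw [hinj r hr r' hr' h]
    · intro x
      obtain ⟨a, b, hab⟩ := gc_s3 h3
      obtain ⟨r, hr, c, hc⟩ := hS.2 (x * a)
      refine ⟨s3 * r, Finset.mem_image_of_mem _ hr, s3 * c + x * b, ?_⟩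
      linear_combination (-x) * hab + s3 * hc
  have h1 : ∏ x ∈ S.image (fun r => s3 * r), gcF q x = ∏ r ∈ S, gcF q (s3 * r) := by
    refine Finset.prod_image fun r hr r' hr' h => ?_
    refine hinj r hr r' hr' ?_
    rw [h, sub_self]
    exact dvd_zero q
  rw [← h1, gcF_prod hq hS']

theorem abs_C {q : Eis} (hq : Prime q) (h2 : ¬ 2 ∣ nm q) (h3 : ¬ 3 ∣ nm q) {V : Finset Eis} (hV : IsSixth q V) :
    ‖Cq q V‖ ^ 3 = 1 / ‖ec q‖ := by
  obtain ⟨S, hS⟩ := exists_CRS hq.ne_zero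
  have hmem : ∀ v ∈ V, ec v / ec q ∉ LO.lattice := fun v hv => by
    rw [div_mem hq.ne_zero]
    exact hV.1 v hv
  have hP6 : (∏ v ∈ V, phi (ec v / ec q)) ^ 6 = ‖ec q‖ := by
    have h4 := prod_CRS_sixth h2 h3 hS hV (gcF q) (fun x y h => gcF_congr hq h)
      (fun ε x => gcF_unit ε x)
    rw [gcF_prod hq hS, gcF_zero, one_mul] at h4
    rw [h4]
    congr 1
    refine Finset.prod_congr rfl fun v hv => ?_
    unfold gcF
    rw [if_neg (hV.1 v hv)]
  have hQ6 : (∏ v ∈ V, phi ((1 + 2 * w) * (ec v / ec q))) ^ 6 = ‖ec q‖ := by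
    have h4 := prod_CRS_sixth h2 h3 hS hV (fun r => gcF q (s3 * r))
      (fun x y h => gcF_congr hq (by
        rw [← mul_sub]
        exact h.mul_left s3))
      (fun ε x => by
        have h5 : s3 * ((ε : Eis) * x) = ε * (s3 * x) := by ring
        rw [h5, gcF_unit])
    rw [gcF_prod_s3 hq h3 hS, mul_zero, gcF_zero, one_mul] at h4
    rw [h4]
    congr 1
    refine Finset.prod_congr rfl fun v hv => ?_
    unfold gcF
    rw [if_neg, map_mul, ec_s3, mul_div_assoc]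
    intro h5
    exact hV.1 v hv ((hq.dvd_or_dvd h5).resolve_left (gc_not_dvd hq h3))
  have hPpos : 0 < ∏ v ∈ V, phi (ec v / ec q) :=
    Finset.prod_pos fun v hv => phi_pos (hmem v hv)
  have hQnn : 0 ≤ ∏ v ∈ V, phi ((1 + 2 * w) * (ec v / ec q)) := by
    refine Finset.prod_nonneg fun v _ => ?_
    by_cases h4 : (1 + 2 * w) * (ec v / ec q) ∈ LO.lattice
    · rw [phi_eq_zero h4]
    · exact (phi_pos h4).le
  have hQP : ∏ v ∈ V, phi ((1 + 2 * w) * (ec v / ec q)) = ∏ v ∈ V, phi (ec v / ec q) :=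
    (pow_left_inj₀ hQnn hPpos.le (by norm_num : (6 : ℕ) ≠ 0)).1 (hQ6.trans hP6.symm)
  have hC : ‖Cq q V‖ = (∏ v ∈ V, phi (ec v / ec q)) / (∏ v ∈ V, phi (ec v / ec q)) ^ 3 := by
    unfold Cq
    rw [norm_prod]
    conv_rhs => rw [← hQP, hQP, ← Finset.prod_pow]
    rw [← hQP, ← Finset.prod_div_distrib]
    exact Finset.prod_congr rfl fun v hv => xx_abs0 (hmem v hv)
  rw [hC, ← hP6]
  have hne := hPpos.ne'
  field_simp

end MPd9f52e
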