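import Mathlib
import Pool.Agent.Lib.MP_d9f52e_nt.GCubA
import Pool.Agent.Lib.MP_d9f52e_nt.WTor
import Pool.Agent.Lib.MP_d9f52e_nt.RCsn
import Pool.Agent.Lib.MP_d9f52e_nt.GExt
import Pool.Agent.Lib.MP_d9f52e_nt.UVb

/-!
# GCubB: the action on the cube root of p, p = 2 mod 3  (about 150 lines)

`p <> 3` prime, `p | n`, `t w = w`, `t` acts by `u` on the n-torsion.  Claim `t(p^{1/3}) = w^(csp p u) p^{1/3}`, `p^{1/3}` the real cube root.
* `p = 2`: `e = x(1/2)`, `4e^3 = -1` (`xx_half`), so `(-2e)^3 = 2` and `2^{1/3} = w^i (-2e)`.  `u = om^j mod 2` (`u` is prime to 2: nonzero residues mod 2 are `1, om, om^2`), `t e = x(u/2) = w^j e`, and `csp 2 u = cs 2 u = j` (`nm 2 = 4`, `(4-1)/3 = 1`).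
* `p = 2 mod 3`, `p > 2`: `q = p`, `V` a sixth system, `C = Cq p V`.  `C^3 = prod x(v/p)^3` is fixed by every `t'` with `t' w = w` (`exists_acts` at level `p`, `act_C`: `(w^..)^3 = 1`) and by complex conjugation (`conj (x z)^3 = x(conj z)^3`: `conj_xy`, `xx_cube_unit`; `star V` is a sixth system, and the product over a sixth system of the
  unit invariant function `x(r/p)^3` does not depend on the system), and algebraic (`xx_alg`); every automorphism of `ℂ` fixes `w` or becomes so after composition with `cj` (`aut_w`); so by `descent` (F = ℚ) it is rational, `|C^3| = 1/p` (`abs_C`):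
  `C^3 = ±1/p` (it is real), `(±C^{-1})^3 = p`, `p^{1/3} = ± w^i C^{-1}`, `t(p^{1/3}) = w^(cs p u) p^{1/3}` (`csp_inert`).
* `p = 1 mod 3`, `nm l = p`, `C = Cq l V`: `C conj C = |C|^2 = p^{-1/3}` (`|ec l| = sqrt p`).  `conj C = prod conj x(v/l) = (cube root of unity) prod x(star v/star l)` (`conj_xy`: `conj x(z) = x(ec e conj z) = w^k x(conj z)` with a fixed `k`), `star V` is a sixth system mod `star l` (`star_sixth`), so `t(conj C) = w^(-cs (star l) u) conj C`.
  So `t(p^{-1/3}) = w^(-csp p u) p^{-1/3}` (`csp_eq`).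
-/

set_option autoImplicit false

namespace MPd9f52e

open Complex

/-- multiplication by a unit multiplies `xx` by a fixed power of `w` -/
private theorem xx_unit_pow (ε : Eisˣ) : ∃ k : ℕ, ∀ z : ℂ, xx (ec ε * z) = w ^ k * xx z := by
  have h1 : ∀ (j : ℕ) (z : ℂ), xx (w ^ j * z) = w ^ j * xx z := by
    intro j
    induction j with
    | zero => intro z; simp
    | succ j ih =>
      intro z
      have h2 : w ^ (j + 1) * z = w ^ j * (w * z) := by ring
      rw [h2, ih, xx_om]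
      ring
  obtain ⟨j, -, h | h⟩ := units_eq ε
  · refine ⟨j, fun z => ?_⟩
    rw [h, map_pow, ec_om, h1]
  · refine ⟨j, fun z => ?_⟩
    rw [h, map_neg, map_pow, ec_om, neg_mul, xx_neg, h1]

private theorem conj_Cq (q : Eis) (V : Finset Eis) :
    ∃ k : ℕ, (starRingEnd ℂ) (Cq q V) = w ^ k * Cq (star q) (V.image star) := by
  obtain ⟨ε, hε⟩ := conj_xy
  obtain ⟨k, hk⟩ := xx_unit_pow ε
  refine ⟨k * V.card, ?_⟩
  unfold Cq
  rw [map_prod, Finset.prod_image (fun x _ y _ h => star_injective h), pow_mul,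
    ← Finset.prod_const, ← Finset.prod_mul_distrib]
  refine Finset.prod_congr rfl fun v _ => ?_
  rw [(hε _).1, hk, map_div₀, ← ec_star, ← ec_star]

private theorem wj_neg_inv (j : ZMod 3) : (wj (-j))⁻¹ = wj j := by
  have h : wj j * wj (-j) = 1 := by rw [← wj_add, add_neg_cancel, wj_zero]
  exact inv_eq_of_mul_eq_one_left h

private theorem rpow_third (p : ℕ) : (((p : ℝ) ^ (1 / 3 : ℝ) : ℝ)) ^ 3 = p := by
  rw [← Real.rpow_natCast, ← Real.rpow_mul (Nat.cast_nonneg p)]
  norm_num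

private theorem cube_one {z : ℂ} (h : z ^ 3 = 1) : ∃ i : ℕ, z = w ^ i := by
  have h1 : (z - 1) * ((z - w) * (z - w ^ 2)) = 0 := by
    have e : (z - 1) * ((z - w) * (z - w ^ 2)) =
        z ^ 3 - w ^ 3 - (w ^ 2 + w + 1) * z ^ 2 + (w ^ 3 + w ^ 2 + w) * z := by ring
    rw [e, h, w_pow_three, w_sq]
    ring
  rcases mul_eq_zero.1 h1 with h2 | h2
  · exact ⟨0, by rw [pow_zero]; linear_combination h2⟩
  · rcases mul_eq_zero.1 h2 with h2 | h2
    · exact ⟨1, by rw [pow_one]; linear_combination h2⟩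
    · exact ⟨2, by linear_combination h2⟩

/-- the action on one cube root of `p` determines the action on the real one -/
private theorem act_of_cube {t : ℂ ≃+* ℂ} (ht : t w = w) {p : ℕ} (hp : p.Prime) {Y c : ℂ}
    (hY : Y ^ 3 = p) (hc : t Y = c * Y) :
    t (((p : ℝ) ^ (1 / 3 : ℝ) : ℝ) : ℂ) = c * (((p : ℝ) ^ (1 / 3 : ℝ) : ℝ) : ℂ) := by
  have hp0 : (p : ℂ) ≠ 0 := by exact_mod_cast hp.ne_zero
  have hY0 : Y ≠ 0 := by
    rintro rfl
    apply hp0
    rw [← hY]
    norm_num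
  set X : ℂ := (((p : ℝ) ^ (1 / 3 : ℝ) : ℝ) : ℂ) with hX
  have hX3 : X ^ 3 = p := by
    rw [hX, ← Complex.ofReal_pow, rpow_third]
    simp
  obtain ⟨i, hi⟩ := cube_one (z := X / Y) (by rw [div_pow, hX3, hY, div_self hp0])
  have hXY : X = w ^ i * Y := by
    rw [← hi]
    field_simp
  rw [hXY, map_mul, map_pow, ht, hc]
  ring

private theorem prod_sixth {a : Eis} {V V' : Finset Eis} (hV : IsSixth a V) (hV' : IsSixth a V')
    (F : Eis → ℂ) (hF : ∀ x y, a ∣ x - y → F x = F y) (hF' : ∀ (ε : Eisˣ) x, F (ε * x) = F x) :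
    ∏ v ∈ V, F v = ∏ v ∈ V', F v := by
  classical
  have h1 := hV.1
  have h2 := hV.2.1
  have h3 := hV.2.2
  have h1' := hV'.1
  have h2' := hV'.2.1
  have h3' := hV'.2.2
  have sy : ∀ x y : Eis, (∃ ε : Eisˣ, a ∣ x - ε * y) → ∃ ε : Eisˣ, a ∣ y - ε * x := by
    rintro x y ⟨ε, h⟩
    refine ⟨ε⁻¹, ?_⟩
    have e : y - ((ε⁻¹ : Eisˣ) : Eis) * x = -((ε⁻¹ : Eisˣ) : Eis) * (x - ε * y) := by
      have e1 : ((ε⁻¹ : Eisˣ) : Eis) * (ε : Eis) = 1 := ε.inv_mul
      linear_combination (-y) * e1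
    rw [e]
    exact Dvd.dvd.mul_left h _
  have tr : ∀ x y z : Eis, (∃ ε : Eisˣ, a ∣ x - ε * y) → (∃ ε : Eisˣ, a ∣ y - ε * z) →
      ∃ ε : Eisˣ, a ∣ x - ε * z := by
    rintro x y z ⟨ε, h⟩ ⟨ε', h'⟩
    refine ⟨ε * ε', ?_⟩
    have e : x - ((ε * ε' : Eisˣ) : Eis) * z = (x - ε * y) + ε * (y - ε' * z) := by
      rw [Units.val_mul]; ring
    rw [e]
    exact dvd_add h (Dvd.dvd.mul_left h' _)
  have hFR : ∀ x y : Eis, (∃ ε : Eisˣ, a ∣ x - ε * y) → F x = F y := by
    rintro x y ⟨ε, h⟩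
    rw [hF _ _ h, hF']
  refine Finset.prod_bij (fun v hv => (h3' v (h1 v hv)).choose) ?_ ?_ ?_ ?_
  · intro v hv
    exact (h3' v (h1 v hv)).choose_spec.1
  · intro v hv v1 hv1 h
    have e1 := (h3' v (h1 v hv)).choose_spec.2
    have e2 := (h3' v1 (h1 v1 hv1)).choose_spec.2
    rw [h] at e1
    exact h2 v hv v1 hv1 (tr _ _ _ e1 (sy _ _ e2))
  · intro v hv
    obtain ⟨v1, hv1, e⟩ := h3 v (h1' v hv)
    refine ⟨v1, hv1, ?_⟩
    have e1 := (h3' v1 (h1 v1 hv1)).choose_spec
    exact h2' _ e1.1 _ hv (tr _ _ _ (sy _ _ e1.2) (sy _ _ e))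
  · intro v hv
    exact hFR _ _ (h3' v (h1 v hv)).choose_spec.2

private theorem star_nat (p : ℕ) : star (p : Eis) = (p : Eis) := by
  apply ec_inj
  rw [ec_star, map_natCast]
  exact Complex.conj_natCast p

private theorem act_two {t : ℂ ≃+* ℂ} (ht : t w = w) {n : ℕ} (hn : 1 ≤ n) {u : Eis} (hu : ActsBy t n u)
    (hpn : 2 ∣ n) : t (-2 * xx (1 / 2)) = wj (csp 2 u) * (-2 * xx (1 / 2)) := by
  obtain ⟨m, rfl⟩ := hpn
  have hm : (m : ℂ) ≠ 0 := by
    have : m ≠ 0 := by omega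
    exact_mod_cast this
  have e1 : ∀ r : Eis, ec (r * (m : Eis)) / ((2 * m : ℕ) : ℂ) = ec r / 2 := by
    intro r
    rw [map_mul, map_natCast]
    push_cast
    field_simp
  have hno : ∀ r : Eis, ¬ ((2 : ℕ) : Eis) ∣ r → ec r / 2 ∉ LO.lattice := by
    intro r hr h
    apply hr
    have h2 : ec ((2 : ℕ) : Eis) = 2 := by rw [map_natCast]; norm_num
    rw [← h2, div_mem (by exact_mod_cast (two_ne_zero : (2 : Eis) ≠ 0))] at h
    exact h
  have h1no : ¬ ((2 : ℕ) : Eis) ∣ (1 : Eis) := by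
    intro h
    rw [natCast_dvd_iff] at h
    have := h.1
    simp only [QuadraticAlgebra.re_one] at this
    norm_num at this
  have h2 := (hu.2 (1 * (m : Eis)) (by rw [e1]; exact hno 1 h1no)).1
  have e2 : u * (1 * (m : Eis)) = u * (m : Eis) := by ring
  rw [e2, e1, e1, map_one] at h2
  have hcop : IsCoprime u ((2 : ℕ) : Eis) := by
    have := hu.1
    push_cast at this ⊢
    exact IsCoprime.of_mul_right_left this
  have hnu : ¬ ((2 : ℕ) : Eis) ∣ u := by
    intro h
    have h3 := hcop.isUnit_of_dvd' h dvd_rfl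
    rw [unit_iff, nm_natCast] at h3
    norm_num at h3
  -- the value at `u/2`
  have key : ∀ (c : Eis), ((2 : ℕ) : Eis) ∣ u - c → xx (ec u / 2) = xx (ec c / 2) := by
    rintro c ⟨b, hb⟩
    have h3 : ec u / 2 = ec c / 2 + ec b := by
      have h4 : u = c + ((2 : ℕ) : Eis) * b := by rw [← hb]; ring
      rw [h4, map_add, map_mul, map_natCast]
      push_cast
      ring
    rw [h3, xx_add]
  have hval : xx (ec u / 2) = wj (csp 2 u) * xx (1 / 2) := by
    rw [csp_inert Nat.prime_two (by norm_num)]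
    unfold cs
    have hnm : (nm ((2 : ℕ) : Eis) - 1) / 3 = 1 := by
      rw [nm_natCast]
      norm_num
    rw [hnm, pow_one]
    by_cases c1 : ((2 : ℕ) : Eis) ∣ u - om
    · rw [if_pos c1, key _ c1, ec_om]
      have : wj 1 = w := by
        unfold wj
        have : ((1 : ZMod 3)).val = 1 := rfl
        rw [this, pow_one]
      rw [this, ← xx_om]
      congr 1
      ring
    · rw [if_neg c1]
      by_cases c2 : ((2 : ℕ) : Eis) ∣ u - om ^ 2
      · rw [if_pos c2, key _ c2, map_pow, ec_om]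
        have : wj 2 = w ^ 2 := by
          unfold wj
          have : ((2 : ZMod 3)).val = 2 := rfl
          rw [this]
        rw [this, show w ^ 2 / 2 = w * (w * (1 / 2)) by ring, xx_om, xx_om]
        ring
      · rw [if_neg c2, wj_zero, one_mul]
        have c0 : ((2 : ℕ) : Eis) ∣ u - 1 := by
          rw [natCast_dvd_iff] at c1 c2 hnu ⊢
          rw [om_sq] at c2
          simp only [QuadraticAlgebra.re_sub, QuadraticAlgebra.im_sub, om, QuadraticAlgebra.re_neg,
            QuadraticAlgebra.im_neg, QuadraticAlgebra.re_one, QuadraticAlgebra.im_one] at c1 c2 ⊢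
          push_cast at c1 c2 hnu ⊢
          omega
        rw [key _ c0, map_one]
  rw [map_mul, h2, hval]
  have h5 : t (-2) = -2 := by
    rw [map_neg, map_ofNat]
  rw [h5]
  ring

theorem act_cbrt_inert {t : ℂ ≃+* ℂ} (ht : t w = w) {n : ℕ} (hn : 1 ≤ n) {u : Eis} (hu : ActsBy t n u) {p : ℕ}
    (hp : p.Prime) (h3 : p % 3 = 2) (hpn : p ∣ n) :
    t (((p : ℝ) ^ (1 / 3 : ℝ) : ℝ) : ℂ) = wj (csp p u) * (((p : ℝ) ^ (1 / 3 : ℝ) : ℝ) : ℂ) := by
  rcases Nat.Prime.eq_two_or_odd hp with rfl | hodd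
  · refine act_of_cube ht hp (Y := -2 * xx (1 / 2)) ?_ (act_two ht hn hu hpn)
    have h4 := xx_half
    push_cast
    linear_combination (-2) * h4
  · have h2' : ¬ 2 ∣ nm (p : Eis) := by
      rw [nm_natCast]
      intro h
      have := Nat.prime_two.dvd_of_dvd_pow h
      omega
    have h3' : ¬ 3 ∣ nm (p : Eis) := by
      rw [nm_natCast]
      intro h
      have := Nat.prime_three.dvd_of_dvd_pow h
      omega
    have hq : Prime (p : Eis) := prime_inert hp h3
    obtain ⟨V, hV⟩ := exists_sixth h2' h3'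
    have hpn' : (p : Eis) ∣ (n : Eis) := natCast_dvd.2 hpn
    have a1 := act_C ht hn hu hq h2' h3' hV hpn'
    have b1 := abs_C hq h2' h3' hV
    obtain ⟨k, hk⟩ := conj_Cq (p : Eis) V
    rw [star_nat] at hk
    have hV' := star_sixth hV
    rw [star_nat] at hV'
    have hp0 : (p : ℝ) ≠ 0 := by exact_mod_cast hp.ne_zero
    have hpe : ec (p : Eis) ≠ 0 := ec_ne_zero (by exact_mod_cast hp.ne_zero)
    -- the cubes agree
    have c1 : Cq (p : Eis) (V.image star) ^ 3 = Cq (p : Eis) V ^ 3 := by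
      unfold Cq
      rw [← Finset.prod_pow, ← Finset.prod_pow]
      refine prod_sixth hV' hV (fun r => xx (ec r / ec (p : Eis)) ^ 3) ?_ ?_
      · rintro x y ⟨b, hb⟩
        have h4 : ec x / ec (p : Eis) = ec y / ec (p : Eis) + ec b := by
          have h5 : x = y + (p : Eis) * b := by rw [← hb]; ring
          rw [h5, map_add, map_mul]
          field_simp
        show xx (ec x / ec (p : Eis)) ^ 3 = xx (ec y / ec (p : Eis)) ^ 3
        rw [h4, xx_add]
      · intro ε x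
        show xx (ec (ε * x) / ec (p : Eis)) ^ 3 = xx (ec x / ec (p : Eis)) ^ 3
        rw [map_mul, mul_div_assoc, xx_cube_unit]
    set C := Cq (p : Eis) V with hC
    have c2 : (starRingEnd ℂ) (C ^ 3) = C ^ 3 := by
      rw [map_pow, hk, mul_pow, c1, ← pow_mul, mul_comm k 3, pow_mul, w_pow_three, one_pow, one_mul]
    obtain ⟨r, hr⟩ := Complex.conj_eq_iff_real.1 c2
    have c3 : |r| = 1 / (p : ℝ) := by
      have h6 : ‖C ^ 3‖ = |r| := by rw [hr, Complex.norm_real, Real.norm_eq_abs]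
      rw [← h6, norm_pow, b1, map_natCast, Complex.norm_natCast]
    have c4 : r = 1 / (p : ℝ) ∨ r = -(1 / (p : ℝ)) := by
      rcases abs_choice r with h | h
      · left; rw [← c3, h]
      · right; rw [← c3, h, neg_neg]
    have hC0 : C ≠ 0 := by
      intro h
      rw [h, norm_zero] at b1
      have h7 : 0 < 1 / ‖ec (p : Eis)‖ := by positivity
      rw [← b1] at h7
      norm_num at h7
    have hpc : (p : ℂ) ≠ 0 := by exact_mod_cast hp.ne_zero
    have tinv : t C⁻¹ = wj (csp p u) * C⁻¹ := by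
      rw [map_inv₀, a1, mul_inv, wj_neg_inv, csp_inert hp h3]
    rcases c4 with h | h
    · refine act_of_cube ht hp (Y := C⁻¹) ?_ tinv
      rw [inv_pow, hr, h]
      push_cast
      rw [one_div, inv_inv]
    · refine act_of_cube ht hp (Y := -C⁻¹) ?_ (by rw [map_neg, tinv]; ring)
      rw [neg_pow, inv_pow, hr, h]
      push_cast
      field_simp

end MPd9f52e
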