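import Mathlib
import Pool.Agent.Lib.MP_d9f52e_nt.GCubA
import Pool.Agent.Lib.MP_d9f52e_nt.RCsn
import Pool.Agent.Lib.MP_d9f52e_nt.GExt

/-!
# GCubC: the action on the cube root of p, p = 1 mod 3  (about 150 lines)

`p <> 3` prime, `p | n`, `t w = w`, `t` acts by `u` on the n-torsion.  Claim `t(p^{1/3}) = w^(csp p u) p^{1/3}`, `p^{1/3}` the real cube root.
* `p = 2`: `e = x(1/2)`, `4e^3 = -1` (`xx_half`), so `(-2e)^3 = 2` and `2^{1/3} = w^i (-2e)`.  `u = om^j mod 2` (`u` is prime to 2: nonzero residues mod 2 are `1, om, om^2`), `t e = x(u/2) = w^j e`, and `csp 2 u = cs 2 u = j` (`nm 2 = 4`, `(4-1)/3 = 1`).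
* `p = 2 mod 3`, `p > 2`: `q = p`, `V` a sixth system, `C = Cq p V`.  `C^3 = prod x(v/p)^3` is fixed by every `t'` with `t' w = w` (`exists_acts` at level `p`, `act_C`: `(w^..)^3 = 1`) and by complex conjugation (`conj (x z)^3 = x(conj z)^3`: `conj_xy`, `xx_cube_unit`; `star V` is a sixth system, and the product over a sixth system of the
  unit invariant function `x(r/p)^3` does not depend on the system), and algebraic (`xx_alg`); every automorphism of `ℂ` fixes `w` or becomes so after composition with `cj` (`aut_w`); so by `descent` (F = ℚ) it is rational, `|C^3| = 1/p` (`abs_C`):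
  `C^3 = ±1/p` (it is real), `(±C^{-1})^3 = p`, `p^{1/3} = ± w^i C^{-1}`, `t(p^{1/3}) = w^(cs p u) p^{1/3}` (`csp_inert`).
* `p = 1 mod 3`, `nm l = p`, `C = Cq l V`: `C conj C = |C|^2 = p^{-1/3}` (`|ec l| = sqrt p`).  `conj C = prod conj x(v/l) = (cube root of unity) prod x(star v/star l)` (`conj_xy`: `conj x(z) = x(ec e conj z) = w^k x(conj z)` with a fixed `k`), `star V` is a sixth system mod `star l` (`star_sixth`), so `t(conj C) = w^(-cs (star l) u) conj C`.
  So `t(p^{-1/3}) = w^(-csp p u) p^{-1/3}` (`csp_eq`).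
-/

set_option autoImplicit false

namespace MPd9f52e

open Complex

/-- multiplication by a unit multiplies `xx` by a fixed power of `w` -/
private theorem xx_unit_pow (ε : Eisˣ) : ∃ k : ℕ, ∀ z : ℂ, xx (ec ε * z) = w ^ k * xx z := by
  have h1 : ∀ (j : ℕ) (z : ℂ), xx (w ^ j * z) = w ^ j * xx z := by
    intro j
    induction j with
    | zero => intro z; simp
    | succ j ih =>
      intro z
      have h2 : w ^ (j + 1) * z = w ^ j * (w * z) := by ring
      rw [h2, ih, xx_om]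
      ring
  obtain ⟨j, -, h | h⟩ := units_eq ε
  · refine ⟨j, fun z => ?_⟩
    rw [h, map_pow, ec_om, h1]
  · refine ⟨j, fun z => ?_⟩
    rw [h, map_neg, map_pow, ec_om, neg_mul, xx_neg, h1]

private theorem conj_Cq (q : Eis) (V : Finset Eis) :
    ∃ k : ℕ, (starRingEnd ℂ) (Cq q V) = w ^ k * Cq (star q) (V.image star) := by
  obtain ⟨ε, hε⟩ := conj_xy
  obtain ⟨k, hk⟩ := xx_unit_pow ε
  refine ⟨k * V.card, ?_⟩
  unfold Cq
  rw [map_prod, Finset.prod_image (fun x _ y _ h => star_injective h), pow_mul,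
    ← Finset.prod_const, ← Finset.prod_mul_distrib]
  refine Finset.prod_congr rfl fun v _ => ?_
  rw [(hε _).1, hk, map_div₀, ← ec_star, ← ec_star]

private theorem wj_neg_inv (j : ZMod 3) : (wj (-j))⁻¹ = wj j := by
  have h : wj j * wj (-j) = 1 := by rw [← wj_add, add_neg_cancel, wj_zero]
  exact inv_eq_of_mul_eq_one_left h

private theorem rpow_third (p : ℕ) : (((p : ℝ) ^ (1 / 3 : ℝ) : ℝ)) ^ 3 = p := by
  rw [← Real.rpow_natCast, ← Real.rpow_mul (Nat.cast_nonneg p)]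
  norm_num

theorem act_cbrt_split {t : ℂ ≃+* ℂ} (ht : t w = w) {n : ℕ} (hn : 1 ≤ n) {u : Eis} (hu : ActsBy t n u) {p : ℕ}
    (hp : p.Prime) (h3 : p % 3 = 1) (hpn : p ∣ n) :
    t (((p : ℝ) ^ (1 / 3 : ℝ) : ℝ) : ℂ) = wj (csp p u) * (((p : ℝ) ^ (1 / 3 : ℝ) : ℝ) : ℂ) := by
  obtain ⟨l, hl⟩ := exists_nm_eq hp h3
  have hlp : Prime l := prime_of_nm (by rw [hl]; exact hp)
  have hls : nm (star l) = p := by rw [nm_star, hl]
  have hlsp : Prime (star l) := prime_of_nm (by rw [hls]; exact hp)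
  have h2' : ¬ 2 ∣ p := by
    intro h
    have := (Nat.prime_dvd_prime_iff_eq Nat.prime_two hp).1 h
    omega
  have h3' : ¬ 3 ∣ p := by omega
  obtain ⟨V, hV⟩ := exists_sixth (a := l) (by rw [hl]; exact h2') (by rw [hl]; exact h3')
  have hpn' : (p : Eis) ∣ (n : Eis) := natCast_dvd.2 hpn
  have hll : l * star l = (p : Eis) := by rw [mul_star_self, hl]
  have hln : l ∣ (n : Eis) := (Dvd.intro _ hll).trans hpn'
  have hlsn : star l ∣ (n : Eis) := (Dvd.intro_left _ hll).trans hpn'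
  have a1 := act_C ht hn hu hlp (by rw [hl]; exact h2') (by rw [hl]; exact h3') hV hln
  have a2 := act_C ht hn hu hlsp (by rw [hls]; exact h2') (by rw [hls]; exact h3')
    (star_sixth hV) hlsn
  obtain ⟨k, hk⟩ := conj_Cq l V
  set C := Cq l V with hC
  have a3 : t ((starRingEnd ℂ) C) = wj (-cs (star l) u) * (starRingEnd ℂ) C := by
    rw [hk, map_mul, map_pow, ht, a2]
    ring
  have hp0 : (0 : ℝ) < p := by exact_mod_cast hp.pos
  have b1 := abs_C hlp (by rw [hl]; exact h2') (by rw [hl]; exact h3') hV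
  rw [← hC] at b1
  have b2 : ‖ec l‖ ^ 2 = p := by rw [← nm_cast, hl]
  have b3 : (‖C‖ ^ 2) ^ 3 = 1 / (p : ℝ) := by
    calc (‖C‖ ^ 2) ^ 3 = (‖C‖ ^ 3) ^ 2 := by ring
      _ = 1 / (p : ℝ) := by rw [b1, div_pow, b2, one_pow]
  have b4 : (p : ℝ) ^ (1 / 3 : ℝ) = (‖C‖ ^ 2)⁻¹ := by
    have h4 : ((p : ℝ) ^ (1 / 3 : ℝ)) ^ 3 = ((‖C‖ ^ 2)⁻¹) ^ 3 := by
      rw [rpow_third, inv_pow, b3, one_div, inv_inv]
    exact (pow_left_inj₀ (by positivity) (by positivity) (by norm_num)).1 h4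
  have b5 : (((p : ℝ) ^ (1 / 3 : ℝ) : ℝ) : ℂ) = (C * (starRingEnd ℂ) C)⁻¹ := by
    rw [b4, Complex.mul_conj, Complex.normSq_eq_norm_sq]
    push_cast
    rfl
  rw [b5, map_inv₀, map_mul, a1, a3, csp_eq hp hl (by intro h; omega) u]
  have b6 : wj (-cs l u) * C * (wj (-cs (star l) u) * (starRingEnd ℂ) C) =
      wj (-(cs l u + cs (star l) u)) * (C * (starRingEnd ℂ) C) := by
    rw [neg_add, wj_add]
    ring
  rw [b6, mul_inv, wj_neg_inv]

end MPd9f52e
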