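import Mathlib
import Pool.Agent.Lib.MP_d9f52e_nt.SRp
import Pool.Agent.Lib.MP_d9f52e_nt.WAct

/-!
# GRp: Galois action on the elliptic numbers  (about 120 lines)

`t w = w`, `t` acts by `u` on the n-torsion, `a` odd and prime to `n`, `z = ec r/n` off the lattice.  Let `u'` be the action on the `n k`-torsion, `k = nm a` (`exists_acts`; `acts_dvd`, `acts_unique`: `u' = u mod n`, if `n >= 2`; `n = 1` is void since `z` is off the lattice).
`t(x(ec r/n)) = x(ec(u r)/n)`, `t(x(v/a)) = x(u' v/a)` (`v/a = (star a v)/nm a` is a point of the `n nm a`-torsion).  `u' V` is a half system modulo `a` (`half_mul`, `u'` prime to `nm a`, so to `a`) and `x` is even and periodic (`prod_half_congr`), `t(ec a) = ec a`, `t(1+2w) = 1+2w`.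
-/

set_option autoImplicit false

namespace MPd9f52e

open Complex

private theorem gr_ec {t : ℂ ≃+* ℂ} (ht : t w = w) (b : Eis) : t (ec b) = ec b := by
  rw [ec_eq, map_add, map_mul, ht, map_intCast, map_intCast]

private theorem gr_periodic {a : Eis} (ha : a ≠ 0) {x y : Eis} (h : a ∣ x - y) :
    xx (ec x / ec a) = xx (ec y / ec a) := by
  obtain ⟨c, hc⟩ := h
  have h1 : ec x / ec a = ec y / ec a + ec c := by
    have h2 : x = y + a * c := by rw [← hc]; ring
    rw [h2, map_add, map_mul, add_div, mul_div_cancel_left₀ _ (ec_ne_zero ha)]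
  rw [h1, xx_add]

theorem act_Rp {t : ℂ ≃+* ℂ} (ht : t w = w) {n : ℕ} {u : Eis} (hu : ActsBy t n u) {a : Eis} (h2 : ¬ 2 ∣ nm a)
    (ha : IsCoprime a (n : Eis)) {r : Eis} (hr : ec r / n ∉ LO.lattice) :
    t (Rp a (ec r / n)) = Rp a (ec (u * r) / n) := by
  classical
  have hn : 1 ≤ n := by
    rcases Nat.eq_zero_or_pos n with h0 | h0
    · exfalso
      apply hr
      rw [h0, Nat.cast_zero, div_zero]
      exact zero_mem _
    · exact h0
  have hnm : nm a ≠ 0 := by
    intro h0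
    rw [h0] at h2
    exact h2 (dvd_zero 2)
  have ha0 : a ≠ 0 := fun h0 => hnm ((nm_eq_zero a).2 h0)
  have hk : 1 ≤ n * nm a := Nat.mul_pos hn (Nat.pos_of_ne_zero hnm)
  obtain ⟨u', hu'⟩ := exists_acts t ht hk
  have hact : ActsBy t (nm a) u' := acts_dvd hk (Nat.dvd_mul_left (nm a) n) hu'
  have hmul : a * star a = (nm a : Eis) := mul_star_self a
  have hcop : IsCoprime u' a :=
    IsCoprime.of_isCoprime_of_dvd_right hact.1 ⟨star a, hmul.symm⟩
  obtain ⟨hhalf, hinj⟩ := half_mul hcop (V2_spec h2)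
  have hnmc : (nm a : ℂ) = ec a * ec (star a) := by
    rw [← map_mul, hmul, map_natCast]
  have hs0 : ec (star a) ≠ 0 := by
    intro h0
    rw [h0, mul_zero] at hnmc
    exact hnm (by exact_mod_cast hnmc)
  have hdiv : ∀ v : Eis, ec v / ec a = ec (v * star a) / (nm a : ℂ) := by
    intro v
    rw [hnmc, map_mul, mul_div_mul_right _ _ hs0]
  have htv : ∀ v ∈ V2 a, t (xx (ec v / ec a)) = xx (ec (u' * v) / ec a) := by
    intro v hv
    have hoff : ec (v * star a) / (nm a : ℂ) ∉ LO.lattice := by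
      rw [← hdiv, div_mem ha0]
      exact (V2_spec h2).1 v hv
    rw [hdiv v, (hact.2 _ hoff).1, hdiv (u' * v), mul_assoc]
  unfold Rp
  rw [map_mul, map_inv₀, gr_ec ht, map_prod]
  congr 1
  have h3 : ∏ v ∈ V2 a, t (xx (ec r / n) - xx (ec v / ec a))⁻¹ =
      ∏ v ∈ V2 a, (xx (ec (u * r) / n) - xx (ec (u' * v) / ec a))⁻¹ := by
    refine Finset.prod_congr rfl fun v hv => ?_
    rw [map_inv₀, map_sub, (hu.2 r hr).1, htv v hv]
  rw [h3]
  have h4 : ∏ v ∈ V2 a, (xx (ec (u * r) / n) - xx (ec (u' * v) / ec a))⁻¹ =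
      ∏ x ∈ (V2 a).image (fun v => u' * v), (xx (ec (u * r) / n) - xx (ec x / ec a))⁻¹ := by
    rw [Finset.prod_image hinj]
  rw [h4]
  refine prod_half_congr hhalf (V2_spec h2)
    (fun x => (xx (ec (u * r) / n) - xx (ec x / ec a))⁻¹) ?_ ?_
  · intro x y hxy
    rw [gr_periodic ha0 hxy]
  · intro x
    rw [map_neg, neg_div, xx_neg]

theorem act_RR {t : ℂ ≃+* ℂ} (ht : t w = w) {n : ℕ} {u : Eis} (hu : ActsBy t n u) {a : Eis} (h2 : ¬ 2 ∣ nm a)
    (ha : IsCoprime a (n : Eis)) {r : Eis} (hr : ec r / n ∉ LO.lattice) :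
    t (RR a (ec r / n)) = RR a (ec (u * r) / n) := by
  unfold RR
  have h1 : t (1 + 2 * w) = 1 + 2 * w := by
    rw [map_add, map_mul, map_one, map_ofNat, ht]
  rw [map_mul, map_pow, map_pow, h1, act_Rp ht hu h2 ha hr]

end MPd9f52e
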