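import Mathlib
import Pool.Agent.Lib.MP_d9f52e_nt.SRp

/-!
# SZn: roots of unity as quotients of elliptic numbers  (about 120 lines)

`a1 = 1 + n om`, `a2 = 1 + n om^2`, `nm a1 = nm a2 = 1 - n + n^2` (odd), `z = ec r/n` off the lattice; `a1 z = z + w r`, `a2 z = z + w^2 r` are off the lattice.  `Rp_eq`: quotient `= sigma(a2 z)/sigma(a1 z)`.  `sigma_add` with `b = om^2 r` and `b = om r` (`2 | om r` iff `2 | om^2 r` iff `2 | r`;
`|om r| = |r|`): quotient `= exp(r0 (conj(w^2 r) - conj(w r)) z) = exp(r0 (w - w^2) conj(r) r/n)`, `conj w = w^2`, and `r0 (w - w^2) = (2 pi/sqrt 3) (i sqrt 3) = 2 pi i` (`s3_val`: `w - w^2 = 1 + 2w`).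
-/

set_option autoImplicit false

namespace MPd9f52e

open Complex

private theorem parity (n : ℕ) : ¬ 2 ∣ ((1 - (n : ℤ) + n ^ 2).natAbs) := by
  intro h
  have h1 : (2 : ℤ) ∣ (1 - (n : ℤ) + n ^ 2) := by
    rw [← Int.natCast_dvd_natCast, Int.dvd_natAbs] at h
    exact_mod_cast h
  have h2 : Even ((n : ℤ) * (n - 1)) := Int.even_mul_pred_self _
  obtain ⟨c, hc⟩ := h1
  obtain ⟨e, he⟩ := h2
  have : (1 : ℤ) = 2 * (c - e) := by linear_combination hc - he
  omega

private theorem nm_a1 (n : ℕ) : nm (1 + (n : Eis) * om) = (1 - (n : ℤ) + n ^ 2).natAbs := by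
  have h1 : (1 + (n : Eis) * om).re = 1 := by
    simp [om, QuadraticAlgebra.re_mul, QuadraticAlgebra.re_one]
  have h2 : (1 + (n : Eis) * om).im = n := by
    simp [om, QuadraticAlgebra.im_mul, QuadraticAlgebra.im_one]
  unfold nm
  rw [h1, h2]
  congr 1
  ring

private theorem nm_a2 (n : ℕ) : nm (1 + (n : Eis) * om ^ 2) = (1 - (n : ℤ) + n ^ 2).natAbs := by
  have h1 : (1 + (n : Eis) * om ^ 2).re = 1 - (n : ℤ) := by
    rw [om_sq]
    simp [om, QuadraticAlgebra.re_mul, QuadraticAlgebra.re_one, QuadraticAlgebra.im_one]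
    ring
  have h2 : (1 + (n : Eis) * om ^ 2).im = -(n : ℤ) := by
    rw [om_sq]
    simp [om, QuadraticAlgebra.im_mul, QuadraticAlgebra.im_one, QuadraticAlgebra.re_one]
  unfold nm
  rw [h1, h2]
  congr 1
  ring

private theorem ec_nat (n : ℕ) : ec (n : Eis) = n := map_natCast ec n

theorem zeta_formula {n : ℕ} (hn : 1 ≤ n) {r : Eis} (hr : ec r / n ∉ LO.lattice) :
    Rp (1 + (n : Eis) * om) (ec r / n) / Rp (1 + (n : Eis) * om ^ 2) (ec r / n) =
      Complex.exp (2 * Real.pi * I * (nm r : ℂ) / n) := by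
  classical
  have hn0 : (n : ℂ) ≠ 0 := by exact_mod_cast (by omega : n ≠ 0)
  have h1 : ¬ 2 ∣ nm (1 + (n : Eis) * om) := by rw [nm_a1]; exact parity n
  have h2 : ¬ 2 ∣ nm (1 + (n : Eis) * om ^ 2) := by rw [nm_a2]; exact parity n
  have e1 : ec (1 + (n : Eis) * om) * (ec r / n) = ec r / n + ec (om * r) := by
    rw [map_add, map_one, map_mul, map_mul, ec_nat]
    field_simp
  have e2 : ec (1 + (n : Eis) * om ^ 2) * (ec r / n) = ec r / n + ec (om ^ 2 * r) := by
    rw [map_add, map_one, map_mul, map_mul, ec_nat]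
    field_simp
  have hoff : ∀ b : Eis, ec r / n + ec b ∉ LO.lattice := by
    intro b h
    apply hr
    have := sub_mem h (ec_mem b)
    rwa [add_sub_cancel_right] at this
  have hz1 : ec (1 + (n : Eis) * om) * (ec r / n) ∉ LO.lattice := by rw [e1]; exact hoff _
  have hz2 : ec (1 + (n : Eis) * om ^ 2) * (ec r / n) ∉ LO.lattice := by rw [e2]; exact hoff _
  rw [Rp_eq h1 hz1, Rp_eq h2 hz2, nm_a1, nm_a2, e1, e2]
  have hs : ∀ {z : ℂ}, z ∉ LO.lattice → sigma z ≠ 0 := fun hz => by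
    rw [Ne, sigma_eq_zero]; exact hz
  have hOm := Om_ne_zero
  have hsz := hs hr
  have hs1 := hs (hoff (om * r))
  have hs2 := hs (hoff (om ^ 2 * r))
  have hX : (Om * sigma (ec r / n)) ^ ((1 - (n : ℤ) + n ^ 2).natAbs) ≠ 0 :=
    pow_ne_zero _ (mul_ne_zero hOm hsz)
  have h3 : ∀ X A B : ℂ, X ≠ 0 → A ≠ 0 → B ≠ 0 → X / (Om * A) / (X / (Om * B)) = B / A := by
    intro X A B hX hA hB
    field_simp
  rw [h3 _ _ _ hX hs1 hs2]
  -- the sign
  have hd1 : (2 : Eis) ∣ om * r ↔ (2 : Eis) ∣ r := by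
    constructor
    · intro h
      have := Dvd.dvd.mul_left h (om ^ 2)
      rwa [← mul_assoc, show om ^ 2 * om = om ^ 3 by ring, om_pow_three, one_mul] at this
    · intro h; exact Dvd.dvd.mul_left h _
  have hd2 : (2 : Eis) ∣ om ^ 2 * r ↔ (2 : Eis) ∣ r := by
    constructor
    · intro h
      have := Dvd.dvd.mul_left h om
      rwa [← mul_assoc, show om * om ^ 2 = om ^ 3 by ring, om_pow_three, one_mul] at this
    · intro h; exact Dvd.dvd.mul_left h _
  have hn1 : ‖ec (om * r)‖ = ‖ec r‖ := by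
    rw [map_mul, norm_mul, ec_om, norm_w, one_mul]
  have hn2 : ‖ec (om ^ 2 * r)‖ = ‖ec r‖ := by
    rw [map_mul, norm_mul, map_pow, norm_pow, ec_om, norm_w, one_pow, one_mul]
  rw [sigma_add (om * r), sigma_add (om ^ 2 * r), hn1, hn2]
  simp only [hd1, hd2]
  have hsgn : (if (2 : Eis) ∣ r then (1 : ℂ) else -1) ≠ 0 := by split_ifs <;> norm_num
  have h4 : ∀ S a b X : ℂ, S ≠ 0 → X ≠ 0 → S * Complex.exp a * X / (S * Complex.exp b * X) =
      Complex.exp (a - b) := by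
    intro S a b X hS hX
    rw [Complex.exp_sub]
    have := Complex.exp_ne_zero b
    field_simp
  rw [h4 _ _ _ _ hsgn hsz]
  congr 1
  have h5 : (r0 : ℂ) * (w - w ^ 2) = 2 * Real.pi * I := by
    have h6 : w - w ^ 2 = 1 + 2 * w := by rw [w_sq]; ring
    rw [h6, s3_val]
    unfold r0
    have h7 : (Real.sqrt 3 : ℂ) ≠ 0 := by
      rw [Ne, Complex.ofReal_eq_zero]; positivity
    push_cast
    field_simp
  have h8 : ec r * (starRingEnd ℂ) (ec r) = (nm r : ℂ) := by
    rw [Complex.mul_conj, Complex.normSq_eq_norm_sq, ← nm_cast]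
    simp
  have h9 : (starRingEnd ℂ) (ec (om ^ 2 * r)) = w * (starRingEnd ℂ) (ec r) := by
    rw [map_mul, map_mul, map_pow, map_pow, ec_om, conj_w, ← pow_mul,
      show w ^ (2 * 2) = w ^ 3 * w by ring, w_pow_three, one_mul]
  have h10 : (starRingEnd ℂ) (ec (om * r)) = w ^ 2 * (starRingEnd ℂ) (ec r) := by
    rw [map_mul, map_mul, ec_om, conj_w]
  rw [h9, h10, ← h5, ← h8]
  field_simp
  ring

end MPd9f52e
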