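import Mathlib
import Pool.Agent.Lib.MP_d9f52e_nt.GRp
import Pool.Agent.Lib.MP_d9f52e_nt.SZn

/-!
# GZeta: the cyclotomic character is the norm  (about 60 lines)

`n >= 2` (`n = 1` trivial): `exp(2 pi i/n) = Rp a1 (1/n)/Rp a2 (1/n)`, `a1 = 1 + n om`, `a2 = 1 + n om^2` (`zeta_formula`, `r = 1`), both odd and prime to `n`; apply `t` (`act_Rp`) and `zeta_formula` for `r = u` (`ec u/n` is off the lattice since `u` is prime to `n >= 2`).
-/

set_option autoImplicit false

namespace MPd9f52e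

open Complex

private theorem off_lat {n : ℕ} (hn : 2 ≤ n) {r : Eis} (hr : IsCoprime r (n : Eis)) :
    ec r / n ∉ LO.lattice := by
  have hn0 : (n : Eis) ≠ 0 := by
    intro h0
    have h1 := nm_natCast n
    rw [h0, (nm_eq_zero 0).2 rfl] at h1
    have : n ^ 2 ≠ 0 := by positivity
    exact this h1.symm
  have h1 : (n : ℂ) = ec (n : Eis) := by simp
  rw [h1, div_mem hn0]
  intro h
  have hu : IsUnit (n : Eis) := by
    rw [IsCoprime] at hr
    obtain ⟨a, b, hab⟩ := hr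
    apply isUnit_of_dvd_one
    rw [← hab]
    exact dvd_add (dvd_mul_of_dvd_right h _) (dvd_mul_left _ _)
  rw [unit_iff, nm_natCast] at hu
  nlinarith

private theorem nm_a1 (n : ℕ) : ¬ 2 ∣ nm (1 + (n : Eis) * om) := by
  have h1 : ((nm (1 + (n : Eis) * om) : ℕ) : ℤ) = 1 - n + n ^ 2 := by
    have : (1 + (n : Eis) * om) = ⟨1, n⟩ := by
      apply QuadraticAlgebra.ext <;> simp [om, QuadraticAlgebra.re_one, QuadraticAlgebra.im_one]
    rw [this, nm]
    rw [Int.natAbs_of_nonneg]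
    · ring
    · nlinarith [sq_nonneg ((n : ℤ) - 1)]
  intro h
  have h2 : (2 : ℤ) ∣ 1 - n + n ^ 2 := by
    rw [← h1]
    exact_mod_cast h
  rcases Int.even_or_odd (n : ℤ) with ⟨k, hk⟩ | ⟨k, hk⟩
  · rw [hk] at h2
    have : (1 - (k + k) + (k + k) ^ 2 : ℤ) = 2 * (2 * k ^ 2 - k) + 1 := by ring
    omega
  · rw [hk] at h2
    have : (1 - (2 * k + 1) + (2 * k + 1) ^ 2 : ℤ) = 2 * (2 * k ^ 2 + k) + 1 := by ring
    omega

private theorem star_a1 (n : ℕ) : star (1 + (n : Eis) * om) = 1 + (n : Eis) * om ^ 2 := by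
  rw [star_add, star_mul, star_om, star_one, star_natCast, mul_comm]

private theorem co_a1 (n : ℕ) : IsCoprime (1 + (n : Eis) * om) (n : Eis) :=
  ⟨1, -om, by ring⟩

theorem act_zeta {t : ℂ ≃+* ℂ} (ht : t w = w) {n : ℕ} (hn : 1 ≤ n) {u : Eis} (hu : ActsBy t n u) :
    t (Complex.exp (2 * Real.pi * I / n)) = Complex.exp (2 * Real.pi * I / n) ^ nm u := by
  rcases Nat.lt_or_ge n 2 with h2 | h2
  · have h1 : n = 1 := by omega
    subst h1
    have h3 : Complex.exp (2 * Real.pi * I / (1 : ℕ)) = 1 := by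
      rw [Nat.cast_one, div_one]
      exact Complex.exp_two_pi_mul_I
    rw [h3, map_one, one_pow]
  · have h1 := off_lat h2 (isCoprime_one_left : IsCoprime (1 : Eis) (n : Eis))
    have h3 := off_lat h2 hu.1
    have z1 := zeta_formula hn h1
    have z2 := zeta_formula hn h3
    have e2 : ¬ 2 ∣ nm (1 + (n : Eis) * om ^ 2) := by
      rw [← star_a1, nm_star]
      exact nm_a1 n
    have c2 : IsCoprime (1 + (n : Eis) * om ^ 2) (n : Eis) := ⟨1, -om ^ 2, by ring⟩
    have a1 := act_Rp ht hu (nm_a1 n) (co_a1 n) h1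
    have a2 := act_Rp ht hu e2 c2 h1
    rw [mul_one] at a1 a2
    rw [nm_one, Nat.cast_one, mul_one] at z1
    rw [← z1, map_div₀, a1, a2, z1, z2, ← Complex.exp_nat_mul]
    congr 1
    ring

end MPd9f52e
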