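import Mathlib
import Pool.Agent.Lib.MP_d9f52e_nt.GCubB
import Pool.Agent.Lib.MP_d9f52e_nt.GCubC
import Pool.Agent.Lib.MP_d9f52e_nt.G3B
import Pool.Agent.Lib.MP_d9f52e_nt.GZeta
import Pool.Agent.Lib.MP_d9f52e_nt.RKap

/-!
# GDel: the action on the cube root of d and on zeta_m  (about 120 lines)

`f = lev d m`, `t w = w`, `t` acts by `u` on the f-torsion.  `d^{1/3} = prod p^{v_p(d)/3}` (real cube roots), so `t(d^{1/3}) = w^(sum_p v_p c_p) d^{1/3}` with `c_p = csp p u` for `p <> 3` (`act_cbrt_inert`, `act_cbrt_split`, `p | d | f`) and `c_3 = nn u` (`act_cbrt3`; if `3 | d` then not case C and `9 | f`).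
Case C: `3` does not divide `d`: the sum is `csn d u = kap d m u`.  Otherwise `3 | f`, `u = 1 mod 3` (`acts_mod_three`), `prim u = u` (`prim_of_one`), and the sum is `csn d' u + v_3(d) nn u = kap d m u`.
`zeta_m = exp(2 pi i/m)`: `act_zeta` and `acts_dvd` (`m | f`).
-/

set_option autoImplicit false

namespace MPd9f52e

open Complex

private theorem wj_pow (j : ZMod 3) (n : ℕ) : wj j ^ n = wj ((n : ZMod 3) * j) := by
  induction n with
  | zero => rw [pow_zero, Nat.cast_zero, zero_mul, wj_zero]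
  | succ n ih => rw [pow_succ, ih, ← wj_add, Nat.cast_succ, add_mul, one_mul]

private theorem cbrt_mul (a b : ℕ) : ((((a * b : ℕ) : ℝ) ^ (1 / 3 : ℝ) : ℝ) : ℂ) =
    (((a : ℝ) ^ (1 / 3 : ℝ) : ℝ) : ℂ) * (((b : ℝ) ^ (1 / 3 : ℝ) : ℝ) : ℂ) := by
  rw [Nat.cast_mul, Real.mul_rpow (Nat.cast_nonneg a) (Nat.cast_nonneg b), Complex.ofReal_mul]

private theorem cbrt_pow (a v : ℕ) : ((((a ^ v : ℕ) : ℝ) ^ (1 / 3 : ℝ) : ℝ) : ℂ) =
    (((a : ℝ) ^ (1 / 3 : ℝ) : ℝ) : ℂ) ^ v := by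
  induction v with
  | zero => rw [pow_zero, pow_zero, Nat.cast_one, Real.one_rpow, Complex.ofReal_one]
  | succ v ih => rw [pow_succ, cbrt_mul, ih, pow_succ]

/-- the action on the cube root of a number prime to 3 -/
private theorem act_cbrt_csn {t : ℂ ≃+* ℂ} (ht : t w = w) {f : ℕ} (hf : 1 ≤ f) {u : Eis}
    (hu : ActsBy t f u) (n : ℕ) : n ≠ 0 → ¬ 3 ∣ n → (∀ p : ℕ, p.Prime → p ∣ n → p ∣ f) →
    t (((n : ℝ) ^ (1 / 3 : ℝ) : ℝ) : ℂ) = wj (csn n u) * (((n : ℝ) ^ (1 / 3 : ℝ) : ℝ) : ℂ) := by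
  induction n using induction_on_primes with
  | zero => exact fun h => absurd rfl h
  | one =>
    intro _ _ _
    rw [Nat.cast_one, Real.one_rpow, Complex.ofReal_one, map_one, csn_zero_one.2, wj_zero, one_mul]
  | prime_mul p a hp ih =>
    intro h0 h3 hpf
    have ha0 : a ≠ 0 := fun h => h0 (by rw [h, mul_zero])
    have ih' := ih ha0 (fun h => h3 (h.mul_left p)) (fun q hq hqa => hpf q hq (hqa.mul_left p))
    have hpd : p ∣ f := hpf p hp (dvd_mul_right p a)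
    have hp3 : p % 3 ≠ 0 := fun h => h3 ((Nat.dvd_of_mod_eq_zero h).mul_right a)
    have hpt : t (((p : ℝ) ^ (1 / 3 : ℝ) : ℝ) : ℂ) =
        wj (csp p u) * (((p : ℝ) ^ (1 / 3 : ℝ) : ℝ) : ℂ) := by
      have : p % 3 = 1 ∨ p % 3 = 2 := by omega
      rcases this with h | h
      · exact act_cbrt_split ht hf hu hp h hpd
      · exact act_cbrt_inert ht hf hu hp h hpd
    rw [cbrt_mul, map_mul, hpt, ih', csn_mul_left hp.ne_zero ha0, csn_prime hp, wj_add]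
    ring

theorem act_delta {d m : ℕ} (hd : 2 ≤ d) (hcf : ∀ p : ℕ, p.Prime → ¬ p ^ 3 ∣ d) (hm : 1 ≤ m) {t : ℂ ≃+* ℂ}
    (ht : t w = w) {u : Eis} (hu : ActsBy t (lev d m) u) :
    t (((d : ℝ) ^ (1 / 3 : ℝ) : ℝ) : ℂ) = wj (kap d m u) * (((d : ℝ) ^ (1 / 3 : ℝ) : ℝ) : ℂ) := by
  have hlev : 1 ≤ lev d m := by
    have := lev_pos hd hm
    omega
  have hdl : d ∣ lev d m := d_dvd_lev
  by_cases hC : caseC d m
  · have h3 : ¬ 3 ∣ d := by
      rcases hC.2 with h | h <;> omega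
    rw [act_cbrt_csn ht hlev hu d (by omega) h3 (fun p _ hpd => hpd.trans hdl)]
    unfold kap
    rw [if_pos hC]
  · have h9 : 9 ∣ lev d m := nine_dvd_lev hC
    have h3l : 3 ∣ lev d m := (by norm_num : (3 : ℕ) ∣ 9).trans h9
    have hu1 := acts_mod_three ht hlev h3l hu
    set v := d.factorization 3 with hv
    have hd0 : d ≠ 0 := by omega
    have hsplit : 3 ^ v * (d / 3 ^ v) = d := Nat.ordProj_mul_ordCompl_eq_self d 3
    have hd' : d / 3 ^ v ≠ 0 := fun h => hd0 (by rw [← hsplit, h, mul_zero])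
    have h3' : ¬ 3 ∣ d / 3 ^ v := Nat.not_dvd_ordCompl Nat.prime_three hd0
    have hdd : d / 3 ^ v ∣ d := Nat.ordCompl_dvd d 3
    have e1 := act_cbrt_csn ht hlev hu (d / 3 ^ v) hd' h3'
      (fun p _ hpd => (hpd.trans hdd).trans hdl)
    have e2 := act_cbrt3 ht hlev h9 hu
    have e3 : (((d : ℝ) ^ (1 / 3 : ℝ) : ℝ) : ℂ) = (((3 : ℝ) ^ (1 / 3 : ℝ) : ℝ) : ℂ) ^ v *
        ((((d / 3 ^ v : ℕ) : ℝ) ^ (1 / 3 : ℝ) : ℝ) : ℂ) := by
      conv_lhs => rw [← hsplit]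
      rw [cbrt_mul, cbrt_pow, Nat.cast_ofNat]
    have hk : kap d m u = csn (d / 3 ^ v) u + (v : ZMod 3) * nn u := by
      unfold kap
      rw [if_neg hC, prim_of_one hu1]
    rw [e3, map_mul, map_pow, e1, e2, hk, wj_add, ← wj_pow, mul_pow]
    ring

theorem act_zeta_m {d m : ℕ} (hd : 2 ≤ d) (hm : 1 ≤ m) {t : ℂ ≃+* ℂ}
    (ht : t w = w) {u : Eis} (hu : ActsBy t (lev d m) u) :
    t (Complex.exp (2 * Real.pi * I / m)) = Complex.exp (2 * Real.pi * I / m) ^ nm u := by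
  have hlev : 1 ≤ lev d m := by
    have := lev_pos hd hm
    omega
  exact act_zeta ht hm (acts_dvd hlev m_dvd_lev hu)

end MPd9f52e
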