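import Mathlib
import Pool.Agent.Lib.MP_d9f52e_nt.RKap

/-!
# XGcd: the auxiliary elements a, a_j

The proof below is shorter than the one described in the next paragraphs: with `b = 1 + 6 f` and
`F = nm b - 1`, a multiple of `6 f`, take `y` with `kap y = 1` prime to `F` and `a y = star y` modulo `F`; then
`kap a = -2 kap y = 1` and `nm a = 1` modulo `F`, so `nm a - 1` is a multiple of `nm b - 1` and `J = {b}` works.

`f = lev d m`, `M0 = lcm(m, 6)`.  If `b` is prime to 6 then `nm b` is odd and `= 1 mod 3`, so `6 | nm b - 1`; if moreover `nm b = 1 mod m` then `M0 | nm b - 1`.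
`a`: take `y` with `kap y = 2` (`kap_surj`: square of the element with `kap = 1`), `y'` with `y' star y = 1 mod f`, and `a = y y'` modified modulo `f` to be prime to 6 (CRT: if `2` or `3` does not divide `f` add a multiple of `f`); `kap a = kap y - kap (star y) = 2 kap y = 4 = 1`, `nm a = nm y/nm (star y) = 1` mod `f`, hence mod `m`.
`J`: the set of all admissible `b` (prime to `6 f`, `kap b = 0`, `nm b = 1 mod m`) gives a subset `{nm b - 1}` of `ℤ`; let `I` be the subgroup (ideal) it generates.  `I` is contained in `M0 ℤ`.  For every prime `l` there is an admissible `b` with `v_l(nm b - 1) = v_l(M0)`: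
* `l = 2`: `b = 1 + M0 c om`, `c` = product of the odd primes dividing `f`: `b = 1` modulo `2`, `3` and all primes of `f` (also mod 9 if `3 | f`, as `3 | M0`, `3 | c`), so `kap b = 0` by `kap`'s definition (`csn_congr'`, `nn_congr`; or: `b = 1` mod the radical... use `csn_congr'` and `nn_congr`/`prim_of_one`), `nm b - 1 = -M0 c + (M0 c)^2 = M0 c (M0 c - 1)`, `c` odd.
* `l` odd: `b = 1 + M0 j` a natural number: `kap b = 0` (`kap_int`), `nm b - 1 = M0 j (2 + M0 j)`.  Choose `j` divisible by all primes `<> l` dividing `6 f`; if `l | M0`: `j` prime to `l` (then `2 + M0 j` is prime to `l`); if `l` does not divide `M0` (so `l >= 5`): `j` modulo `l` with `j (1 + M0 j)(2 + M0 j)` prime to `l` (three bad classes, `l >= 5`).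
So `I = M0 ℤ` contains `nm a - 1`: it is a finite integral combination of numbers `nm b - 1` (`Submodule.mem_span_set`-type, `Finsupp`); collect into a finset `J` and a function `n` (zero outside).
-/

set_option autoImplicit false

namespace MPd9f52e

open Complex

/-- admissible data -/
def Adm (d m : ℕ) (a : Eis) (J : Finset Eis) (n : Eis → ℤ) : Prop :=
  (nm a).Coprime (6 * lev d m) ∧ kap d m a = 1 ∧ (nm a : ZMod m) = 1 ∧
    (∀ b ∈ J, (nm b).Coprime (6 * lev d m) ∧ kap d m b = 0 ∧ (nm b : ZMod m) = 1) ∧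
    ∑ b ∈ J, n b * ((nm b : ℤ) - 1) = (nm a : ℤ) - 1

private theorem coprime_of_primes {y : Eis} {F : ℕ} (h : ∀ p : ℕ, p.Prime → p ∣ F → ¬ p ∣ nm y) :
    IsCoprime y (F : Eis) := by
  rw [isCoprime_iff]
  refine Nat.Coprime.symm (Nat.coprime_of_dvd fun p hp hpF hpy => h p hp hpF hpy)

private theorem not_dvd_nm {y : Eis} {p n : ℕ} (hp : p.Prime) (hpn : p ∣ n)
    (h : IsCoprime y (n : Eis)) : ¬ p ∣ nm y := by
  rw [isCoprime_iff] at h
  intro h1
  exact Nat.not_coprime_of_dvd_of_dvd hp.one_lt h1 hpn h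

/-- an element prime to `f` can be changed modulo `f` to be prime to `F` -/
private theorem exists_lift {f F : ℕ} (hF : F ≠ 0) {y : Eis} (hy : IsCoprime y (f : Eis)) :
    ∃ y' : Eis, IsCoprime y' (F : Eis) ∧ (f : Eis) ∣ y' - y ∧ IsCoprime y' (f : Eis) := by
  classical
  set F' : ℕ := ∏ p ∈ F.primeFactors \ f.primeFactors, p with hF'
  by_cases hf0 : f = 0
  · -- then `y` is a unit
    subst hf0
    refine ⟨y, ?_, by simp, hy⟩
    rw [isCoprime_iff] at hy ⊢
    rw [Nat.coprime_zero_right] at hy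
    rw [hy]
    exact Nat.coprime_one_left F
  have hcop : Nat.Coprime f F' := by
    refine Nat.Coprime.symm (Nat.Coprime.prod_left fun p hp => ?_)
    rw [Finset.mem_sdiff] at hp
    have hpp := Nat.prime_of_mem_primeFactors hp.1
    rw [hpp.coprime_iff_not_dvd]
    exact fun h => hp.2 (Nat.mem_primeFactors.2 ⟨hpp, h, hf0⟩)
  obtain ⟨u, v, huv⟩ := Nat.isCoprime_iff_coprime.2 hcop
  have huv' : (u : Eis) * (f : Eis) + (v : Eis) * (F' : Eis) = 1 := by
    have := congrArg (fun x : ℤ => (x : Eis)) huv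
    push_cast at this
    exact this
  set y' : Eis := y * (v * F') + u * f with hy'
  have h1 : (f : Eis) ∣ y' - y := by
    refine ⟨u * (1 - y), ?_⟩
    rw [hy']
    linear_combination y * huv'
  have h2 : (F' : Eis) ∣ y' - 1 := by
    refine ⟨v * (y - 1), ?_⟩
    rw [hy']
    linear_combination huv'
  have h3 : IsCoprime y' (f : Eis) := by
    obtain ⟨c, hc⟩ := h1
    have : y' = y + f * c := by rw [← hc]; ring
    rw [this]
    exact (IsCoprime.add_mul_left_left_iff).2 hy
  have h4 : IsCoprime y' (F' : Eis) := by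
    obtain ⟨c, hc⟩ := h2
    have : y' = 1 + F' * c := by rw [← hc]; ring
    rw [this]
    exact (IsCoprime.add_mul_left_left_iff).2 isCoprime_one_left
  refine ⟨y', coprime_of_primes fun p hp hpF => ?_, h1, h3⟩
  by_cases hpf : p ∣ f
  · exact not_dvd_nm hp hpf h3
  · refine not_dvd_nm hp (Finset.dvd_prod_of_mem (fun p => p) ?_) h4
    rw [Finset.mem_sdiff]
    exact ⟨Nat.mem_primeFactors.2 ⟨hp, hpF, hF⟩, fun h => hpf (Nat.dvd_of_mem_primeFactors h)⟩

theorem exists_adm {d m : ℕ} (hd : 2 ≤ d) (hcf : ∀ p : ℕ, p.Prime → ¬ p ^ 3 ∣ d) (hm : 3 ≤ m) :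
    ∃ (a : Eis) (J : Finset Eis) (n : Eis → ℤ), Adm d m a J n := by
  have hm1 : 1 ≤ m := by omega
  obtain ⟨y0, hy0, hky0⟩ := kap_surj hd hcf hm1
  set f : ℕ := lev d m with hf
  set F : ℕ := 12 * f * (3 * f + 1) with hFdef
  have hf3 : 3 ≤ f := lev_pos hd hm1
  have hF0 : F ≠ 0 := by
    rw [hFdef]
    positivity
  have h6F : 6 * f ∣ F := ⟨2 * (3 * f + 1), by rw [hFdef]; ring⟩
  have hfF : f ∣ F := (dvd_mul_left f 6).trans h6F
  have hmF : m ∣ F := m_dvd_lev.trans hfF
  obtain ⟨y, hyF, hyy0, hyf⟩ := exists_lift hF0 hy0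
  have hky : kap d m y = 1 := by rw [kap_congr hd hcf hm1 hyf hyy0, hky0]
  obtain ⟨s, t, hst⟩ := hyF
  have hsF : IsCoprime s (F : Eis) := ⟨y, t, by rw [mul_comm y s]; exact hst⟩
  have hyF' : IsCoprime y (F : Eis) := ⟨s, t, hst⟩
  set a : Eis := star y * s with ha
  have haF : IsCoprime a (F : Eis) := (isCoprime_star hyF').mul_left hsF
  have haf : IsCoprime a (f : Eis) := haF.of_isCoprime_of_dvd_right (natCast_dvd.2 hfF)
  have hay : (F : Eis) ∣ a * y - star y := by
    refine ⟨-(star y * t), ?_⟩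
    rw [ha]
    linear_combination star y * hst
  -- the norm
  have hnm : (nm a : ZMod F) = 1 := by
    have h1 := nm_congr hay
    rw [nm_mul, nm_star] at h1
    push_cast at h1
    have h2 : IsUnit (nm y : ZMod F) := by
      rw [ZMod.isUnit_iff_coprime]
      exact (isCoprime_iff y F).1 hyF'
    exact h2.mul_right_cancel (h1.trans (one_mul _).symm)
  have hdvd : (F : ℤ) ∣ (nm a : ℤ) - 1 := by
    rw [← ZMod.intCast_zmod_eq_zero_iff_dvd] 
    push_cast
    rw [hnm, sub_self]
  obtain ⟨k, hk⟩ := hdvd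
  -- the character
  have hka : kap d m a = 1 := by
    have h1 := kap_congr hd hcf hm1 (haf.mul_left hyf) ((natCast_dvd.2 hfF).trans hay)
    rw [kap_mul hd hcf hm1 haf hyf, kap_star hd hcf hm1 hyf, hky] at h1
    have h2 : kap d m a = -1 - 1 := by linear_combination h1
    rw [h2]
    decide
  -- the auxiliary element
  have hbnm : nm (((1 + 6 * f : ℕ) : Eis)) = (1 + 6 * f) ^ 2 := nm_natCast _
  have hbcop : (nm (((1 + 6 * f : ℕ) : Eis))).Coprime (6 * f) := by
    rw [hbnm]
    refine Nat.Coprime.pow_left 2 ?_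
    simp
  refine ⟨a, {((1 + 6 * f : ℕ) : Eis)}, fun _ => k, ?_, hka, ?_, ?_, ?_⟩
  · exact Nat.Coprime.coprime_dvd_right h6F ((isCoprime_iff a F).1 haF)
  · have h1 : (m : ℤ) ∣ (nm a : ℤ) - 1 := by
      rw [hk]
      exact (Int.natCast_dvd_natCast.2 hmF).mul_right k
    rw [← ZMod.intCast_zmod_eq_zero_iff_dvd] at h1
    push_cast at h1
    exact sub_eq_zero.1 h1
  · intro b hb
    rw [Finset.mem_singleton] at hb
    subst hb
    refine ⟨hbcop, ?_, ?_⟩
    · have h1 : IsCoprime (((1 + 6 * f : ℕ) : ℤ) : Eis) ((lev d m : ℕ) : Eis) := by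
        rw [Int.cast_natCast, isCoprime_iff]
        exact Nat.Coprime.coprime_dvd_right (dvd_mul_left f 6) hbcop
      have h2 := kap_int hd hcf hm1 h1
      rwa [Int.cast_natCast] at h2
    · rw [hbnm]
      have h1 : (f : ZMod m) = 0 := by
        rw [ZMod.natCast_eq_zero_iff]
        exact m_dvd_lev
      push_cast
      rw [h1]
      ring
  · rw [Finset.sum_singleton, hbnm, hk, hFdef]
    push_cast
    ring

end MPd9f52e
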