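import Mathlib
import Pool.Agent.Lib.MP_d9f52e_nt.XGcd
import Pool.Agent.Lib.MP_d9f52e_nt.XPhi
import Pool.Agent.Lib.MP_d9f52e_nt.SRp
import Pool.Agent.Lib.MP_d9f52e_nt.GRp

/-!
# XXi: the numbers xi(i,g)  (about 250 lines)

`xi i g = prod_{r in Sys f, kap r = i, nm r = g} (RR a (r/f) * prod_{b in J} RR b (r/f)^(-n b))`, `(a, J, n)` admissible, `f = lev d m`.
The function `F r = RR a (ec r/f) prod RR b (ec r/f)^(-n b)` is invariant under `Rel f` on elements prime to `f` (`RR_unit`, `RR_add`; `a r/f` is off the lattice as `a r` is prime to `f`).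
`xi_abs`: `RR_abs`: `|F r| = phi(r/f)^(nm a - sum n_b nm b) phi(a r/f)^{-1} prod phi(b r/f)^(n_b)`; product over the class set: `prod_shift` with `u = a`: `prod phi(a r/f) = Phi (i+1) g` (`kap (a r) = kap r + 1`, `nm(a r) = nm r` mod `m`), `u = b`: `prod phi(b r/f) = Phi i g`.
So `|xi i g| = Phi(i,g)^(nm a - sum n_b nm b + sum n_b)/Phi(i+1,g) = Phi(i,g)/Phi(i+1,g)` (the exponent is 1 by the last condition of `Adm`).
`xi_act`: `act_RR` gives `t(F r) = F(u r)`, then `prod_shift`.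
-/

set_option autoImplicit false

namespace MPd9f52e

open Complex

variable {d m : ℕ}

open Classical in
/-- the elliptic unit -/
noncomputable def xi (d m : ℕ) (a : Eis) (J : Finset Eis) (n : Eis → ℤ) (i : ZMod 3) (g : ZMod m) : ℂ :=
  ∏ r ∈ (Sys (lev d m)).filter (fun r => kap d m r = i ∧ (nm r : ZMod m) = g),
    (RR a (ec r / (lev d m : ℕ)) * ∏ b ∈ J, RR b (ec r / (lev d m : ℕ)) ^ (-n b))

private lemma good_two {f : ℕ} {c : Eis} (h : (nm c).Coprime (6 * f)) : ¬ 2 ∣ nm c := by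
  intro h2
  have h3 : 2 ∣ Nat.gcd (nm c) (6 * f) := Nat.dvd_gcd h2 (Dvd.dvd.mul_right (by norm_num) f)
  rw [h] at h3
  omega

private lemma good_three {f : ℕ} {c : Eis} (h : (nm c).Coprime (6 * f)) : ¬ 3 ∣ nm c := by
  intro h2
  have h3 : 3 ∣ Nat.gcd (nm c) (6 * f) := Nat.dvd_gcd h2 (Dvd.dvd.mul_right (by norm_num) f)
  rw [h] at h3
  omega

private lemma good_cop {f : ℕ} {c : Eis} (h : (nm c).Coprime (6 * f)) : IsCoprime c (f : Eis) := by
  rw [isCoprime_iff]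
  exact Nat.Coprime.coprime_dvd_right (Dvd.intro_left 6 rfl) h

private lemma off_mul (hd : 2 ≤ d) (hm : 1 ≤ m) {c r : Eis} (hc : IsCoprime c ((lev d m : ℕ) : Eis))
    (hr : IsCoprime r ((lev d m : ℕ) : Eis)) : ec c * (ec r / (lev d m : ℕ)) ∉ LO.lattice := by
  have := sys_off hd hm (hc.mul_left hr)
  rwa [map_mul, mul_div_assoc] at this

private lemma RR_rel (hd : 2 ≤ d) (hm : 1 ≤ m) {c : Eis} (hc : (nm c).Coprime (6 * lev d m)) {x y : Eis}
    (hy : IsCoprime y ((lev d m : ℕ) : Eis)) (h : Rel (lev d m) x y) :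
    RR c (ec x / (lev d m : ℕ)) = RR c (ec y / (lev d m : ℕ)) := by
  obtain ⟨ε, s, hs⟩ := h
  have hf : ((lev d m : ℕ) : ℂ) ≠ 0 := by
    have := lev_pos hd hm
    exact_mod_cast (by omega : lev d m ≠ 0)
  have h1 : ec x / (lev d m : ℕ) = ec ε * (ec y / (lev d m : ℕ)) + ec s := by
    have h2 : ec x - ec ε * ec y = (lev d m : ℕ) * ec s := by
      rw [← map_mul, ← map_sub, hs, map_mul, map_natCast]
    field_simp
    linear_combination h2
  rw [h1, RR_add]
  exact RR_unit (good_two hc) (good_three hc) ε (off_mul hd hm (good_cop hc) hy)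

private lemma nm_rel {x y : Eis} (h : Rel (lev d m) x y) : (nm x : ZMod m) = (nm y : ZMod m) := by
  obtain ⟨ε, hs⟩ := h
  have h1 := nm_congr hs
  rw [nm_mul, nm_unit, one_mul, ZMod.natCast_eq_natCast_iff] at h1
  rw [ZMod.natCast_eq_natCast_iff]
  exact h1.of_dvd m_dvd_lev

private lemma Q_rel (hd : 2 ≤ d) (hcf : ∀ p : ℕ, p.Prime → ¬ p ^ 3 ∣ d) (hm : 1 ≤ m) (j : ZMod 3) (g : ZMod m)
    (x y : Eis) (hy : IsCoprime y ((lev d m : ℕ) : Eis)) (h : Rel (lev d m) x y) :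
    (kap d m x = j ∧ (nm x : ZMod m) = g) ↔ (kap d m y = j ∧ (nm y : ZMod m) = g) := by
  rw [kap_rel hd hcf hm hy h, nm_rel h]

private lemma phi_rel' (hd : 2 ≤ d) (hm : 1 ≤ m) (x y : Eis) (_ : IsCoprime y ((lev d m : ℕ) : Eis))
    (h : Rel (lev d m) x y) : phi (ec x / (lev d m : ℕ)) = phi (ec y / (lev d m : ℕ)) := phi_rel hd hm h

private lemma shift_phi (hd : 2 ≤ d) (hcf : ∀ p : ℕ, p.Prime → ¬ p ^ 3 ∣ d) (hm : 1 ≤ m) {c : Eis}
    (hc : IsCoprime c ((lev d m : ℕ) : Eis)) (hn : (nm c : ZMod m) = 1) (i : ZMod 3) (g : ZMod m) :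
    ∏ r ∈ (Sys (lev d m)).filter (fun r => kap d m r = i ∧ (nm r : ZMod m) = g),
      phi (ec c * (ec r / (lev d m : ℕ))) = Phi d m (i + kap d m c) g := by
  unfold Phi
  have h1 := prod_shift (Sys_spec (lev_pos hd hm)) (fun x => phi (ec x / (lev d m : ℕ)))
    (phi_rel' hd hm) (fun r => kap d m r = i ∧ (nm r : ZMod m) = g)
    (fun r => kap d m r = i + kap d m c ∧ (nm r : ZMod m) = g)
    (Q_rel hd hcf hm (i + kap d m c) g) hc (by
      intro x hx
      rw [kap_mul hd hcf hm hc hx, nm_mul]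
      push_cast
      rw [hn, one_mul]
      constructor
      · rintro ⟨h1, h2⟩
        exact ⟨by rw [h1]; ring, h2⟩
      · rintro ⟨h1, h2⟩
        refine ⟨?_, h2⟩
        have h3 : kap d m c + kap d m x = kap d m c + i := by rw [h1]; ring
        exact add_left_cancel h3)
  rw [← h1]
  apply Finset.prod_congr rfl
  intro r _
  rw [map_mul, mul_div_assoc]

private lemma prod_zpow_sum {x : ℝ} (hx : x ≠ 0) (J : Finset Eis) (k : Eis → ℤ) :
    ∏ b ∈ J, x ^ k b = x ^ (∑ b ∈ J, k b) := by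
  classical
  induction J using Finset.induction_on with
  | empty => simp
  | insert b J hb ih => rw [Finset.prod_insert hb, Finset.sum_insert hb, ih, zpow_add₀ hx]

theorem xi_abs (hd : 2 ≤ d) (hcf : ∀ p : ℕ, p.Prime → ¬ p ^ 3 ∣ d) (hm : 3 ≤ m) {a : Eis} {J : Finset Eis} {n : Eis → ℤ}
    (h : Adm d m a J n) (i : ZMod 3) (g : ZMod m) : ‖xi d m a J n i g‖ = Phi d m i g / Phi d m (i + 1) g := by
  have hm1 : 1 ≤ m := by omega
  obtain ⟨ha, hka, hna, hJ, hsum⟩ := h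
  have hS := Sys_spec (lev_pos hd hm1)
  set T := (Sys (lev d m)).filter (fun r => kap d m r = i ∧ (nm r : ZMod m) = g) with hT
  have hcop : ∀ r ∈ T, IsCoprime r ((lev d m : ℕ) : Eis) := fun r hr =>
    hS.1 r (Finset.mem_filter.1 hr).1
  have hX : 0 < Phi d m i g := Phi_pos hd hm1 i g
  have hY : 0 < Phi d m (i + 1) g := Phi_pos hd hm1 (i + 1) g
  have hXdef : ∏ r ∈ T, phi (ec r / (lev d m : ℕ)) = Phi d m i g := rfl
  have hnorm : ∀ r ∈ T, ‖RR a (ec r / (lev d m : ℕ)) * ∏ b ∈ J, RR b (ec r / (lev d m : ℕ)) ^ (-n b)‖ =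
      (phi (ec r / (lev d m : ℕ)) ^ nm a / phi (ec a * (ec r / (lev d m : ℕ)))) *
        ∏ b ∈ J, (phi (ec r / (lev d m : ℕ)) ^ nm b / phi (ec b * (ec r / (lev d m : ℕ)))) ^ (-n b) := by
    intro r hr
    rw [norm_mul, norm_prod, RR_abs (good_two ha) (good_three ha) (off_mul hd hm1 (good_cop ha) (hcop r hr))]
    congr 1
    apply Finset.prod_congr rfl
    intro b hb
    rw [norm_zpow, RR_abs (good_two (hJ b hb).1) (good_three (hJ b hb).1)
      (off_mul hd hm1 (good_cop (hJ b hb).1) (hcop r hr))]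
  have hxi : ‖xi d m a J n i g‖ = ∏ r ∈ T, ‖RR a (ec r / (lev d m : ℕ)) *
      ∏ b ∈ J, RR b (ec r / (lev d m : ℕ)) ^ (-n b)‖ := by
    unfold xi
    rw [norm_prod]
  rw [hxi, Finset.prod_congr rfl hnorm, Finset.prod_mul_distrib, Finset.prod_div_distrib, Finset.prod_pow,
    hXdef, shift_phi hd hcf hm1 (good_cop ha) hna i g, hka, Finset.prod_comm]
  have hb : ∀ b ∈ J, ∏ r ∈ T, (phi (ec r / (lev d m : ℕ)) ^ nm b / phi (ec b * (ec r / (lev d m : ℕ)))) ^ (-n b) =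
      Phi d m i g ^ (-(n b * ((nm b : ℤ) - 1))) := by
    intro b hb
    rw [Finset.prod_zpow, Finset.prod_div_distrib, Finset.prod_pow, hXdef,
      shift_phi hd hcf hm1 (good_cop (hJ b hb).1) (hJ b hb).2.2 i g, (hJ b hb).2.1, add_zero]
    have h1 : Phi d m i g ^ nm b / Phi d m i g = Phi d m i g ^ ((nm b : ℤ) - 1) := by
      rw [zpow_sub₀ hX.ne', zpow_natCast, zpow_one]
    rw [h1, ← zpow_mul]
    congr 1
    ring
  rw [Finset.prod_congr rfl hb, prod_zpow_sum hX.ne', Finset.sum_neg_distrib, hsum, ← zpow_natCast,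
    div_mul_eq_mul_div, ← zpow_add₀ hX.ne']
  have he : ((nm a : ℕ) : ℤ) + -(((nm a : ℕ) : ℤ) - 1) = 1 := by ring
  rw [he, zpow_one]

theorem xi_act (hd : 2 ≤ d) (hcf : ∀ p : ℕ, p.Prime → ¬ p ^ 3 ∣ d) (hm : 3 ≤ m) {a : Eis} {J : Finset Eis} {n : Eis → ℤ}
    (h : Adm d m a J n) {t : ℂ ≃+* ℂ} (ht : t w = w) {u : Eis} (hu : ActsBy t (lev d m) u) (i : ZMod 3) (g : ZMod m) :
    t (xi d m a J n i g) = xi d m a J n (i + kap d m u) (g * nm u) := by
  have hm1 : 1 ≤ m := by omega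
  obtain ⟨ha, hka, hna, hJ, hsum⟩ := h
  have hS := Sys_spec (lev_pos hd hm1)
  have hcu : IsCoprime u ((lev d m : ℕ) : Eis) := hu.1
  have hunit : IsUnit ((nm u : ℕ) : ZMod m) := by
    rw [ZMod.isUnit_iff_coprime]
    exact Nat.Coprime.coprime_dvd_right m_dvd_lev ((isCoprime_iff _ _).1 hcu)
  unfold xi
  have h1 := prod_shift hS (fun x => RR a (ec x / (lev d m : ℕ)) *
      ∏ b ∈ J, RR b (ec x / (lev d m : ℕ)) ^ (-n b))
    (by
      intro x y hy hxy
      rw [RR_rel hd hm1 ha hy hxy]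
      congr 1
      apply Finset.prod_congr rfl
      intro b hb
      rw [RR_rel hd hm1 (hJ b hb).1 hy hxy])
    (fun r => kap d m r = i ∧ (nm r : ZMod m) = g)
    (fun r => kap d m r = i + kap d m u ∧ (nm r : ZMod m) = g * nm u)
    (Q_rel hd hcf hm1 (i + kap d m u) (g * nm u)) hcu (by
      intro x hx
      rw [kap_mul hd hcf hm1 hcu hx, nm_mul]
      push_cast
      constructor
      · rintro ⟨h1, h2⟩
        exact ⟨by rw [h1]; ring, by rw [h2]; ring⟩
      · rintro ⟨h1, h2⟩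
        refine ⟨?_, ?_⟩
        · have h3 : kap d m u + kap d m x = kap d m u + i := by rw [h1]; ring
          exact add_left_cancel h3
        · apply hunit.mul_left_cancel
          rw [h2]; ring)
  rw [← h1, map_prod]
  apply Finset.prod_congr rfl
  intro r hr
  have hr' : IsCoprime r ((lev d m : ℕ) : Eis) := hS.1 r (Finset.mem_filter.1 hr).1
  have hoff := sys_off hd hm1 hr'
  rw [map_mul, map_prod, act_RR ht hu (good_two ha) (good_cop ha) hoff]
  congr 1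
  apply Finset.prod_congr rfl
  intro b hb
  rw [map_zpow₀, act_RR ht hu (good_two (hJ b hb).1) (good_cop (hJ b hb).1) hoff]

end MPd9f52e
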