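import Mathlib
import Pool.Agent.Lib.MP_d9f52e_nt.XXi
import Pool.Agent.Lib.MP_d9f52e_nt.UR

/-!
# XUnit: xi is a unit  (about 120 lines)

Let `V` be a valuation subring of `ℂ`, `v` its valuation (`v` of an integer is `<= 1`).  All `nm a`, `nm b` (`b in J`) are prime to `f` and to 6.
Case 1: `v(nm a) = 1` and `v(nm b) = 1` for all `b` in `J`.  `exists_cV`: `v(RR a P) = c(P)^((nm a-1)/2)`, the same for `b`: the factor of `r` has value `c(P)^((nm a - 1)/2 - sum n_b (nm b - 1)/2) = 1` by the last condition of `Adm`.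
Case 2: otherwise some `nm` has `v < 1`, and as it is prime to `f`: `v(f) = 1`, so all points `ec r/f` are good (`Good`: `n = 1`, `b = f`), `c(P) = 1`; each factor has value 1 by `exists_cV` or `RR_val_bad`.
So `v(xi) = 1` for all `V`; `isIntegral_of_val` for `xi` and `xi^{-1}`.
-/

set_option autoImplicit false

namespace MPd9f52e

open Complex

section

variable {Γ : Type*} [LinearOrderedCommGroupWithZero Γ]

private theorem v_nat_le (v : Valuation ℂ Γ) (n : ℕ) : v (n : ℂ) ≤ 1 := by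
  induction n with
  | zero => simp
  | succ k ih =>
    rw [Nat.cast_succ]
    exact v.map_add_le ih (le_of_eq v.map_one)

private theorem v_intZ_le (v : Valuation ℂ Γ) (n : ℤ) : v (n : ℂ) ≤ 1 := by
  obtain ⟨k, rfl | rfl⟩ := n.eq_nat_or_neg
  · exact_mod_cast v_nat_le v k
  · rw [Int.cast_neg, v.map_neg]
    exact_mod_cast v_nat_le v k

/-- torsion points are good -/
private theorem good_tor {v : Valuation ℂ Γ} {n : ℕ} (hn : 1 ≤ n) {r : Eis} (hv : v (n : ℂ) = 1)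
    (hr : ec r / n ∉ LO.lattice) : Good v (ec r / n) := by
  refine ⟨1, n, hv, by simpa using hr, ?_⟩
  have hn0 : (n : ℂ) ≠ 0 := by exact_mod_cast (by omega : n ≠ 0)
  have : (n : ℂ) * (((1 : ℕ) : ℂ) * (ec r / n)) = ec r := by
    push_cast
    field_simp
  rw [this]
  exact ec_mem r

private theorem val_coprime {v : Valuation ℂ Γ} {k n : ℕ} (hc : k.Coprime n)
    (hv : v (k : ℂ) < 1) : v (n : ℂ) = 1 := by
  refine le_antisymm (v_nat_le v n) (not_lt.1 fun hlt => ?_)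
  obtain ⟨x, y, hxy⟩ := Nat.isCoprime_iff_coprime.2 hc
  have e : (x : ℂ) * (k : ℂ) + (y : ℂ) * (n : ℂ) = 1 := by exact_mod_cast hxy
  have h1 : v ((x : ℂ) * (k : ℂ) + (y : ℂ) * (n : ℂ)) < 1 := by
    refine v.map_add_lt ?_ ?_
    · rw [v.map_mul]
      exact lt_of_le_of_lt (mul_le_of_le_one_left zero_le (v_intZ_le v x)) hv
    · rw [v.map_mul]
      exact lt_of_le_of_lt (mul_le_of_le_one_left zero_le (v_intZ_le v y)) hlt
  rw [e, v.map_one] at h1
  exact lt_irrefl _ h1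

private theorem prod_zpow_sum {ι : Type*} (J : Finset ι) {C : Γ} (hC : C ≠ 0) (f : ι → ℤ) :
    ∏ b ∈ J, C ^ f b = C ^ (∑ b ∈ J, f b) := by
  classical
  induction J using Finset.induction_on with
  | empty => simp
  | insert a s ha ih => rw [Finset.prod_insert ha, Finset.sum_insert ha, ih, zpow_add₀ hC]

private theorem cop6 {k f : ℕ} (h : k.Coprime (6 * f)) : ¬ 2 ∣ k ∧ ¬ 3 ∣ k ∧ k.Coprime f := by
  have h6 : k.Coprime 6 := Nat.Coprime.coprime_mul_right_right h
  have hf : k.Coprime f := Nat.Coprime.coprime_mul_left_right h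
  refine ⟨fun h2 => ?_, fun h3 => ?_, hf⟩
  · have := Nat.dvd_gcd h2 (show 2 ∣ 6 by norm_num)
    rw [Nat.coprime_iff_gcd_eq_one.1 h6] at this
    omega
  · have := Nat.dvd_gcd h3 (show 3 ∣ 6 by norm_num)
    rw [Nat.coprime_iff_gcd_eq_one.1 h6] at this
    omega

/-- the value of the factor of `r` -/
private theorem fac_val (v : Valuation ℂ Γ) {d m : ℕ} (hd : 2 ≤ d) (hm : 3 ≤ m) {a : Eis} {J : Finset Eis}
    {n : Eis → ℤ} (h : Adm d m a J n) {r : Eis} (hr : IsCoprime r ((lev d m : ℕ) : Eis)) :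
    v (RR a (ec r / (lev d m : ℕ)) * ∏ b ∈ J, RR b (ec r / (lev d m : ℕ)) ^ (-n b)) = 1 := by
  obtain ⟨hA, -, -, hJ, hsum⟩ := h
  obtain ⟨a2, a3, af⟩ := cop6 hA
  have hm1 : 1 ≤ m := by omega
  have hf := lev_pos (d := d) (m := m) hd hm1
  have hf1 : 1 ≤ lev d m := by omega
  have hoff := sys_off (d := d) (m := m) hd hm1 hr
  obtain ⟨c, hc0, hc1, hc2⟩ := exists_cV v
  rw [v.map_mul, map_prod]
  simp only [map_zpow₀]
  by_cases hall : v (nm a : ℂ) = 1 ∧ ∀ b ∈ J, v (nm b : ℂ) = 1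
  · obtain ⟨hva, hvb⟩ := hall
    have hC := hc0 (ec r / (lev d m : ℕ))
    set C := c (ec r / (lev d m : ℕ)) with hCdef
    have e1 : v (RR a (ec r / (lev d m : ℕ))) = C ^ ((((nm a - 1) / 2 : ℕ)) : ℤ) := by
      rw [zpow_natCast]
      exact hc2 a r _ a2 a3 hva hf1 af hoff
    have e2 : ∏ b ∈ J, v (RR b (ec r / (lev d m : ℕ))) ^ (-n b) =
        ∏ b ∈ J, C ^ ((((nm b - 1) / 2 : ℕ) : ℤ) * (-n b)) := by
      refine Finset.prod_congr rfl fun b hb => ?_
      obtain ⟨b2, b3, bf⟩ := cop6 (hJ b hb).1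
      rw [zpow_mul, zpow_natCast, hc2 b r _ b2 b3 (hvb b hb) hf1 bf hoff]
    rw [e1, e2, prod_zpow_sum J hC, ← zpow_add₀ hC]
    have e3 : (((nm a - 1) / 2 : ℕ) : ℤ) + ∑ b ∈ J, (((nm b - 1) / 2 : ℕ) : ℤ) * (-n b) = 0 := by
      have h1 : 2 * (((nm a - 1) / 2 : ℕ) : ℤ) = (nm a : ℤ) - 1 := by omega
      have h2 : 2 * ∑ b ∈ J, (((nm b - 1) / 2 : ℕ) : ℤ) * (-n b) =
          -∑ b ∈ J, n b * ((nm b : ℤ) - 1) := by
        rw [Finset.mul_sum, ← Finset.sum_neg_distrib]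
        refine Finset.sum_congr rfl fun b hb => ?_
        obtain ⟨b2, -, -⟩ := cop6 (hJ b hb).1
        have h3 : 2 * (((nm b - 1) / 2 : ℕ) : ℤ) = (nm b : ℤ) - 1 := by omega
        rw [← h3]
        ring
      rw [hsum, ← h1] at h2
      omega
    rw [e3, zpow_zero]
  · -- some norm is in the maximal ideal
    have hex : ∃ k : ℕ, k.Coprime (lev d m) ∧ v (k : ℂ) < 1 := by
      by_contra hno
      push Not at hno
      exact hall ⟨le_antisymm (v_nat_le v _) (hno _ af), fun b hb =>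
        le_antisymm (v_nat_le v _) (hno _ (cop6 (hJ b hb).1).2.2)⟩
    obtain ⟨k, hk, hvk⟩ := hex
    have hvf : v ((lev d m : ℕ) : ℂ) = 1 := val_coprime hk hvk
    have hC : c (ec r / (lev d m : ℕ)) = 1 := hc1 _ (good_tor hf1 hvf hoff)
    have main : ∀ b : Eis, (nm b).Coprime (6 * lev d m) →
        v (RR b (ec r / (lev d m : ℕ))) = 1 := by
      intro b hb
      obtain ⟨b2, b3, bf⟩ := cop6 hb
      rcases (v_nat_le v (nm b)).lt_or_eq with hlt | heq
      · exact RR_val_bad b2 b3 hlt hf1 bf hoff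
      · rw [hc2 b r _ b2 b3 heq hf1 bf hoff, hC, one_pow]
    rw [main a hA, one_mul]
    refine Finset.prod_eq_one fun b hb => ?_
    rw [main b (hJ b hb).1, one_zpow]

end

theorem xi_unit {d m : ℕ} (hd : 2 ≤ d) (hcf : ∀ p : ℕ, p.Prime → ¬ p ^ 3 ∣ d) (hm : 3 ≤ m) {a : Eis} {J : Finset Eis}
    {n : Eis → ℤ} (h : Adm d m a J n) (i : ZMod 3) (g : ZMod m) :
    IsIntegral ℤ (xi d m a J n i g) ∧ IsIntegral ℤ (xi d m a J n i g)⁻¹ ∧ xi d m a J n i g ≠ 0 := by
  have hf := lev_pos (d := d) (m := m) hd (by omega)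
  have hval : ∀ V : ValuationSubring ℂ, V.valuation (xi d m a J n i g) = 1 := by
    intro V
    unfold xi
    rw [map_prod]
    refine Finset.prod_eq_one fun r hr => ?_
    exact fac_val V.valuation hd hm h ((Sys_spec hf).1 r (Finset.mem_filter.1 hr).1)
  refine ⟨isIntegral_of_val fun V => (hval V).le, isIntegral_of_val fun V => ?_, ?_⟩
  · rw [map_inv₀, hval V, inv_one]
  · intro h0
    have := hval ⊤
    rw [h0, map_zero] at this
    exact zero_ne_one this

end MPd9f52e
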