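import Mathlib
import Pool.Agent.Lib.MP_d9f52e_nt.XUnit
import Pool.Agent.Lib.MP_d9f52e_nt.GDel
import Pool.Agent.Lib.MP_d9f52e_nt.GExt
import Pool.Agent.Lib.MP_d9f52e_nt.AIrr

/-!
# XZ: the unit z of M = Q(theta, zeta)  (about 300 lines)

`delta` = real cube root of `d`, `iota theta = w^j delta` with `j` in `{1,2}` (a non-real cube root of `d`).  WLOG `j = 1`: otherwise replace `iota` by `cj o iota` (norms do not change).  WLOG `iota zeta = exp(2 pi i/m)`: `iota zeta = exp(2 pi i k/m)` with `k` prime to `m`; replace `zeta` by the primitive root `zeta'` with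
`iota zeta' = exp(2 pi i/m)` (`zeta'` is a power of `zeta`, and `rho zeta' = zeta'^g` as well).  Write `zm = exp(2 pi i/m)`, `x0 = xi d m a J n 0 1` (`exists_adm`).
For an automorphism `t` of `ℂ` with `t w = w` let it act by `u` on the f-torsion (`exists_acts`): `t delta = w^(kap u) delta`, `t zm = zm^(nm u)` (`act_delta`, `act_zeta_m`), `t x0 = xi (kap u) (nm u)` (`xi_act`), so `|t x0| = Phi(i,g)/Phi(i+1,g)` if `t delta = w^i delta`, `t zm = zm^g`.   (*)
In particular if `t` fixes `w, delta, zm` then `t x0 = xi 0 1 = x0`.  (**)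
For `t` with `t w = w^2`: apply (*) to `cj o t`: `(cj t) w = w`; if `t (w delta) = w delta` then `t delta = w delta/w^2 = w^2 delta`... `(cj t) delta = cj(w^{-1} delta) = w delta`, `(cj t) zm = zm^{-g}`: `|t x0| = Phi(1,-g)/Phi(2,-g) = 1` (`Phi_neg`: `Phi 2 = Phi (-1) = Phi 1`).   (***)
Case A: `w` is in the image of `iota`.  `y = x0`.  If `t` fixes `iota(M)` then `t` fixes `w`, `w delta`, `zm`, so `t y = y`; `y` is algebraic (`xi_unit`), `descent`: `y = iota z`.
 `rho` with `rho theta = theta`, `rho zeta = zeta^g`: `t` with `t iota = iota rho` (`exists_aut`).  If `t w = w`: `|iota(rho z)| = |t x0| = Phi(0,g)/Phi(1,g)`.  If `t w = w^2`: `|t x0| = 1` by (***); and `w = iota(w0)`, `w0` a primitive cube root of unity of `M`.  Here `3 | m`: otherwise `M` contains `ℚ(zeta, w0)` of degree `phi(3m) = 2 phi(m)`, which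
 must divide `[M:Q]`, and `[M:ℚ]` divides `3 phi(m)` (it is `<= 3 phi(m)` and divisible by `phi(m)`..): use that `[M : ℚ(zeta)]` is 1 or 3 (`X^3 - d` over `ℚ(zeta)`: `M = ℚ(zeta)(theta)`) while `[ℚ(zeta, w0) : ℚ(zeta)] = 2` divides it only if it is even: contradiction [degree of `theta` over `ℚ(zeta)` is 1, 2 or 3; if it is 2 then `X^3 - d` has a root in
 `ℚ(zeta)`, an abelian extension of `ℚ`, so (all roots of `X^3-d` are in it as it is normal, and `ℚ(delta)` would be normal over `ℚ`) contradiction; if it is 1, the same].  So `w0` is a power of `zeta` and `rho w0 = w0^g`, `t w = w^g`, so `g = 2 mod 3`, and `Phi(0,g) = Phi(1,g) = 1` (`Phi_empty`).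
Case B: `w` is not in the image.  Then there is an automorphism `tau` of `ℂ` with `tau iota = iota` and `tau w = w^2` (`descent` with `y = w` gives `tau w <> w`, `aut_w`).  `y = x0 * tau x0`.  If `t` fixes `iota(M)`: if `t w = w`: `t x0 = x0` (**), and `tau^{-1} t tau` fixes `iota(M)` and `w` so `t (tau x0) = tau x0`.
 If `t w = w^2`: `tau^{-1} t` fixes `w` and `iota(M)`: `t x0 = tau x0`, and `t tau` too: `t tau x0 = x0`.  So `t y = y`, `y = iota z`.  For `rho`: choose `t` with `t iota = iota rho`; replacing `t` by `t tau` if necessary `t w = w`; `|iota(rho z)| = |t x0| |t tau x0|`, the first factor is `Phi(0,g)/Phi(1,g)`, `(t tau) w = w^2`: the second is 1 by (***).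
`z` and `z^{-1}` are integral because `y`, `y^{-1}` are (`isIntegral` is preserved by `t`, products; reflects through the injective `iota`).
-/

set_option autoImplicit false

namespace MPd9f52e

open Complex

private noncomputable def dl3 (d : ℕ) : ℂ := (((d : ℝ) ^ (1 / 3 : ℝ) : ℝ) : ℂ)

private noncomputable def zm (m : ℕ) : ℂ := Complex.exp (2 * Real.pi * I / m)

private theorem dl3_ne {d : ℕ} (hd : 2 ≤ d) : dl3 d ≠ 0 := by
  have : (0 : ℝ) < (d : ℝ) ^ (1 / 3 : ℝ) := Real.rpow_pos_of_pos (by positivity) _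
  unfold dl3
  exact_mod_cast this.ne'

private theorem dl3_cube (d : ℕ) : dl3 d ^ 3 = d := by
  unfold dl3
  rw [← Complex.ofReal_pow, ← Real.rpow_natCast, ← Real.rpow_mul (by positivity)]
  norm_num

private theorem zm_prim {m : ℕ} (hm : 3 ≤ m) : IsPrimitiveRoot (zm m) m := by
  have := Complex.isPrimitiveRoot_exp m (by omega)
  unfold zm
  exact this

private theorem w_ne_zero : w ≠ 0 := by
  intro h
  have := norm_w
  rw [h] at this
  simp at this

private theorem w_prim : IsPrimitiveRoot w 3 := by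
  rw [IsPrimitiveRoot.iff_def]
  refine ⟨w_pow_three, fun l hl => ?_⟩
  by_contra hc
  have hw1 : w ≠ 1 := by
    intro h
    have h1 := w_sq
    rw [h] at h1
    norm_num at h1
  have h3 : Nat.Coprime 3 l := (Nat.Prime.coprime_iff_not_dvd Nat.prime_three).2 hc
  have h4 : orderOf w ∣ 1 := by
    rw [← h3]
    exact Nat.dvd_gcd (orderOf_dvd_of_pow_eq_one w_pow_three) (orderOf_dvd_of_pow_eq_one hl)
  exact hw1 (orderOf_eq_one_iff.1 (Nat.dvd_one.1 h4))

private theorem prim_modEq {x : ℂ} {m a b : ℕ} (h : IsPrimitiveRoot x m) (hm : 0 < m) (hab : x ^ a = x ^ b) :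
    a ≡ b [MOD m] := by
  have h1 : x ^ (a % m) = x ^ (b % m) := by
    rw [← pow_eq_pow_mod a h.pow_eq_one, ← pow_eq_pow_mod b h.pow_eq_one, hab]
  exact h.pow_inj (Nat.mod_lt _ hm) (Nat.mod_lt _ hm) h1

private theorem cj_w : cj w = w ^ 2 := conj_w

private theorem cj_dl3 (d : ℕ) : cj (dl3 d) = dl3 d := Complex.conj_ofReal _

private theorem cj_zm {m : ℕ} (hm : 3 ≤ m) : cj (zm m) = zm m ^ (m - 1) := by
  have h1 : zm m ^ m = 1 := (zm_prim hm).pow_eq_one
  have h2 : zm m * zm m ^ (m - 1) = 1 := by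
    rw [← pow_succ', Nat.sub_add_cancel (by omega)]; exact h1
  have hn : ‖zm m‖ = 1 := (zm_prim hm).norm'_eq_one (by omega)
  have h3 : zm m * cj (zm m) = 1 := by
    have : zm m * (starRingEnd ℂ) (zm m) = ((‖zm m‖ ^ 2 : ℝ) : ℂ) := by
      rw [Complex.mul_conj, Complex.normSq_eq_norm_sq]
    rw [hn] at this
    show zm m * (starRingEnd ℂ) (zm m) = 1
    rw [this]; simp
  have h0 : zm m ≠ 0 := (zm_prim hm).ne_zero (by omega)
  exact mul_left_cancel₀ h0 (h3.trans h2.symm)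

private theorem norm_cj (y : ℂ) : ‖cj y‖ = ‖y‖ := Complex.norm_conj y

section
variable {d m : ℕ} {a : Eis} {J : Finset Eis} {n : Eis → ℤ}

private theorem key1 (hd : 2 ≤ d) (hcf : ∀ p : ℕ, p.Prime → ¬ p ^ 3 ∣ d) (hm : 3 ≤ m) (h : Adm d m a J n)
    {t : ℂ ≃+* ℂ} (ht : t w = w) {i : ZMod 3} (hi : t (dl3 d) = wj i * dl3 d) {g : ℕ} (hg : t (zm m) = zm m ^ g) :
    t (xi d m a J n 0 1) = xi d m a J n i (g : ZMod m) := by
  have hl : 3 ≤ lev d m := lev_pos hd (by omega)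
  obtain ⟨u, hu⟩ := exists_acts t ht (n := lev d m) (by omega)
  have h1 := act_delta hd hcf (by omega : 1 ≤ m) ht hu
  have h2 := act_zeta_m hd (by omega : 1 ≤ m) ht hu
  have h3 := xi_act hd hcf hm h ht hu 0 1
  have h4 : wj i = wj (kap d m u) := by
    have : wj i * dl3 d = wj (kap d m u) * dl3 d := hi.symm.trans h1
    exact mul_right_cancel₀ (dl3_ne hd) this
  have h5 : i = kap d m u := wj_injective h4
  have h6 : zm m ^ g = zm m ^ nm u := hg.symm.trans h2
  have h7 : ((g : ℕ) : ZMod m) = (nm u : ZMod m) := by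
    rw [ZMod.natCast_eq_natCast_iff]
    exact prim_modEq (zm_prim hm) (by omega) h6
  rw [h3, h5, h7, zero_add, one_mul]

private theorem key2 (hd : 2 ≤ d) (hcf : ∀ p : ℕ, p.Prime → ¬ p ^ 3 ∣ d) (hm : 3 ≤ m) (h : Adm d m a J n)
    {t : ℂ ≃+* ℂ} (ht : t w = w) (hi : t (w * dl3 d) = w * dl3 d) (hg : t (zm m) = zm m) :
    t (xi d m a J n 0 1) = xi d m a J n 0 1 := by
  have h1 : t (dl3 d) = dl3 d := by
    rw [map_mul, ht] at hi
    exact mul_left_cancel₀ w_ne_zero hi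
  have := key1 hd hcf hm h ht (i := 0) (by rw [wj_zero, one_mul]; exact h1) (g := 1) (by rw [pow_one]; exact hg)
  rw [this]; simp

private theorem key3 (hd : 2 ≤ d) (hcf : ∀ p : ℕ, p.Prime → ¬ p ^ 3 ∣ d) (hm : 3 ≤ m) (h : Adm d m a J n)
    {t : ℂ ≃+* ℂ} (ht : t w = w ^ 2) (hi : t (w * dl3 d) = w * dl3 d) {g : ℕ} (hg : t (zm m) = zm m ^ g) :
    ‖t (xi d m a J n 0 1)‖ = 1 := by
  let t' : ℂ ≃+* ℂ := t.trans cj
  have hw3 := w_pow_three
  have h1 : t' w = w := by
    show cj (t w) = w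
    rw [ht, map_pow, cj_w, ← pow_mul]
    calc w ^ (2 * 2) = w ^ 3 * w := by ring
      _ = w := by rw [hw3, one_mul]
  have h2 : t' (dl3 d) = wj 1 * dl3 d := by
    have h3 : w * t (dl3 d) = dl3 d := by
      rw [map_mul, ht] at hi
      have : w * (w * t (dl3 d)) = w * dl3 d := by rw [← hi]; ring
      exact mul_left_cancel₀ w_ne_zero this
    show cj (t (dl3 d)) = wj 1 * dl3 d
    have h4 : cj w * cj (t (dl3 d)) = dl3 d := by
      rw [← map_mul, h3, cj_dl3]
    rw [cj_w] at h4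
    have h5 : wj 1 = w := by
      unfold wj
      rw [show (1 : ZMod 3).val = 1 from rfl, pow_one]
    rw [h5]
    calc cj (t (dl3 d)) = w ^ 3 * cj (t (dl3 d)) := by rw [hw3, one_mul]
      _ = w * (w ^ 2 * cj (t (dl3 d))) := by ring
      _ = w * dl3 d := by rw [h4]
  have h3 : t' (zm m) = zm m ^ ((m - 1) * g) := by
    show cj (t (zm m)) = _
    rw [hg, map_pow, cj_zm hm, ← pow_mul]
  have h4 := key1 hd hcf hm h h1 h2 h3
  have h5 : ‖t (xi d m a J n 0 1)‖ = ‖t' (xi d m a J n 0 1)‖ := (norm_cj _).symm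
  rw [h5, h4, xi_abs hd hcf hm h]
  have h6 : Phi d m (1 + 1) (((m - 1) * g : ℕ) : ZMod m) = Phi d m 1 (((m - 1) * g : ℕ) : ZMod m) := by
    have := Phi_neg hd hcf (by omega : 1 ≤ m) 1 (((m - 1) * g : ℕ) : ZMod m)
    rw [← this]
    rfl
  rw [h6]
  exact div_self (Phi_pos hd (by omega) _ _).ne'

end

private theorem three_dvd {d m : ℕ} (hd : 2 ≤ d) (hcf : ∀ p : ℕ, p.Prime → ¬ p ^ 3 ∣ d) (hm : 3 ≤ m) {M : Type}
    [Field M] [NumberField M] (θ ζ : M) (hθ : θ ^ 3 = d) (hζ : IsPrimitiveRoot ζ m)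
    (hM : IntermediateField.adjoin ℚ {θ, ζ} = ⊤) {w0 : M} (hw : IsPrimitiveRoot w0 3) : 3 ∣ m := by
  by_contra h3
  have hcop : Nat.Coprime 3 m := (Nat.Prime.coprime_iff_not_dvd Nat.prime_three).2 h3
  let K := IntermediateField.adjoin ℚ {θ}
  have hnr : ∀ b : ℚ, b ^ 3 ≠ (d : ℚ) := fun b => by
    have htop : IntermediateField.adjoin ℚ ({1} : Set ℚ) = ⊤ := by
      refine eq_top_iff.2 fun x _ => ?_
      exact IntermediateField.algebraMap_mem _ x
    exact no_root (F := ℚ) (m := 1) (by norm_num) (ξ := 1) (IsPrimitiveRoot.one) htop hd hcf b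
  have hirr : Irreducible (Polynomial.X ^ 3 - Polynomial.C (d : ℚ)) :=
    X_pow_sub_C_irreducible_of_prime Nat.prime_three hnr
  have hroot : Polynomial.aeval θ (Polynomial.X ^ 3 - Polynomial.C (d : ℚ)) = 0 := by
    simp [hθ]
  have hmin : minpoly ℚ θ = Polynomial.X ^ 3 - Polynomial.C (d : ℚ) :=
    (minpoly.eq_of_irreducible_of_monic hirr hroot (Polynomial.monic_X_pow_sub_C _ (by norm_num))).symm
  have hfin : Module.finrank ℚ K = 3 := by
    rw [IntermediateField.adjoin.finrank (Algebra.IsIntegral.isIntegral θ), hmin]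
    exact Polynomial.natDegree_X_pow_sub_C
  let θ' : K := IntermediateField.AdjoinSimple.gen ℚ θ
  have hθ' : θ' ^ 3 = (d : K) := by
    apply Subtype.ext
    push_cast
    exact hθ
  have hgen : IntermediateField.adjoin K {ζ} = ⊤ := by
    have h1 := IntermediateField.adjoin_adjoin_left ℚ {θ} {ζ} (E := M)
    have h2 : ({θ} ∪ {ζ} : Set M) = {θ, ζ} := by ext x; simp [or_comm]
    rw [h2, hM] at h1
    rw [← IntermediateField.restrictScalars_eq_top_iff (K := ℚ)]
    exact h1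
  have hcyc : Cyc d m K M θ' ζ := ⟨hd, hcf, hm, hfin, hθ', hζ, hgen⟩
  have hdeg := cyc_finrank hcyc
  have hprim : IsPrimitiveRoot (w0 * ζ) (3 * m) := by
    rw [IsPrimitiveRoot.iff_orderOf]
    rw [(Commute.all w0 ζ).orderOf_mul_eq_mul_orderOf_of_coprime]
    · rw [← hw.eq_orderOf, ← hζ.eq_orderOf]
    · rw [← hw.eq_orderOf, ← hζ.eq_orderOf]; exact hcop
  have hdeg2 : (minpoly ℚ (w0 * ζ)).natDegree = Nat.totient (3 * m) := by
    rw [← Polynomial.cyclotomic_eq_minpoly_rat hprim (by omega), Polynomial.natDegree_cyclotomic]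
  have hdvd : (minpoly ℚ (w0 * ζ)).natDegree ∣ Module.finrank ℚ M := by
    rw [← IntermediateField.adjoin.finrank (Algebra.IsIntegral.isIntegral (w0 * ζ))]
    exact Dvd.intro _ (Module.finrank_mul_finrank ℚ (IntermediateField.adjoin ℚ {w0 * ζ}) M)
  rw [hdeg2, hdeg, Nat.totient_mul hcop, show Nat.totient 3 = 2 from rfl] at hdvd
  have hpos : 0 < Nat.totient m := Nat.totient_pos.2 (by omega)
  have := Nat.dvd_of_mul_dvd_mul_right hpos hdvd
  omega


private theorem core {d m : ℕ} (hd : 2 ≤ d) (hcf : ∀ p : ℕ, p.Prime → ¬ p ^ 3 ∣ d) (hm : 3 ≤ m) {M : Type}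
    [Field M] [NumberField M] (θ ζ : M) (hθ : θ ^ 3 = d) (hζ : IsPrimitiveRoot ζ m)
    (hM : IntermediateField.adjoin ℚ {θ, ζ} = ⊤) (ι : M →+* ℂ) (hιθ : ι θ = w * dl3 d) (hιζ : ι ζ = zm m) :
    ∃ z : M, z ≠ 0 ∧ IsIntegral ℤ z ∧ IsIntegral ℤ z⁻¹ ∧
      ∀ ρ : M ≃+* M, ρ θ = θ → ∀ g : ℕ, ρ ζ = ζ ^ g →
        ‖ι (ρ z)‖ = Phi d m 0 (g : ZMod m) / Phi d m 1 (g : ZMod m) := by
  obtain ⟨a, J, n, hadm⟩ := exists_adm (d := d) (m := m) hd hcf (by omega)
  obtain ⟨hu1, hu2, hu3⟩ := xi_unit hd hcf hm hadm 0 1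
  set x0 := xi d m a J n 0 1 with hx0
  have hinj : Function.Injective ι := ι.injective
  have fin : ∀ z : M, ∀ y : ℂ, ι z = y → y ≠ 0 → IsIntegral ℤ y → IsIntegral ℤ y⁻¹ →
      z ≠ 0 ∧ IsIntegral ℤ z ∧ IsIntegral ℤ z⁻¹ := by
    intro z y hz hy0 hy1 hy2
    refine ⟨fun h => hy0 (by rw [← hz, h, map_zero]), ?_, ?_⟩
    · rw [← hz] at hy1
      exact (isIntegral_algHom_iff ι.toIntAlgHom hinj).1 hy1
    · rw [← hz, ← map_inv₀] at hy2
      exact (isIntegral_algHom_iff ι.toIntAlgHom hinj).1 hy2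
  have halg : ∀ y : ℂ, IsIntegral ℤ y → IsAlgebraic ℚ y := fun y hy =>
    (IsIntegral.tower_top (R := ℤ) (A := ℚ) hy).isAlgebraic
  have key : ∀ t : ℂ ≃+* ℂ, ∀ ρ : M ≃+* M, (∀ x, t (ι x) = ι (ρ x)) → ρ θ = θ → ∀ g : ℕ, ρ ζ = ζ ^ g →
      t (w * dl3 d) = w * dl3 d ∧ t (zm m) = zm m ^ g := by
    intro t ρ ht hρ g hg
    constructor
    · rw [← hιθ, ht, hρ]
    · rw [← hιζ, ht, hg, map_pow]
  have keyw : ∀ t : ℂ ≃+* ℂ, t w = w → t (w * dl3 d) = w * dl3 d → t (dl3 d) = wj 0 * dl3 d := by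
    intro t h1 h2
    rw [map_mul, h1] at h2
    rw [wj_zero, one_mul]
    exact mul_left_cancel₀ w_ne_zero h2
  by_cases hw : ∃ w0 : M, ι w0 = w
  · obtain ⟨w0, hw0⟩ := hw
    have hw0p : IsPrimitiveRoot w0 3 := by
      have h3 : IsPrimitiveRoot w 3 := w_prim
      rw [← hw0] at h3
      exact (IsPrimitiveRoot.map_iff_of_injective hinj).1 h3
    have h3m := three_dvd hd hcf hm θ ζ hθ hζ hM hw0p
    obtain ⟨z, hz⟩ := descent ι x0 (halg _ hu1) (fun t ht => by
      have h1 : t w = w := by rw [← hw0]; exact ht w0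
      have h2 : t (w * dl3 d) = w * dl3 d := by rw [← hιθ]; exact ht θ
      have h3 : t (zm m) = zm m := by rw [← hιζ]; exact ht ζ
      exact key2 hd hcf hm hadm h1 h2 h3)
    obtain ⟨f1, f2, f3⟩ := fin z x0 hz hu3 hu1 hu2
    refine ⟨z, f1, f2, f3, ?_⟩
    intro ρ hρ g hg
    obtain ⟨t, ht⟩ := exists_aut ι (ι.comp (ρ : M →+* M))
    have ht' : ∀ x, t (ι x) = ι (ρ x) := ht
    obtain ⟨k1, k2⟩ := key t ρ ht' hρ g hg
    rw [← ht', hz]
    rcases aut_w t with h1 | h1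
    · rw [key1 hd hcf hm hadm h1 (keyw t h1 k1) k2, xi_abs hd hcf hm hadm, zero_add]
    · rw [key3 hd hcf hm hadm h1 k1 k2]
      obtain ⟨c, rfl⟩ := h3m
      have hg3 : g % 3 = 2 := by
        have hp : IsPrimitiveRoot (zm (3 * c) ^ c) 3 := (zm_prim hm).pow (by omega) (by ring)
        have hp2 : IsPrimitiveRoot w 3 := w_prim
        obtain ⟨i, hi, hi2⟩ := hp.eq_pow_of_pow_eq_one hp2.pow_eq_one
        have h5 : t w = w ^ g := by
          rw [← hi2, map_pow, map_pow, k2]; ring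
        rw [h1] at h5
        have h6 := prim_modEq hp2 (by norm_num) h5
        exact h6.symm
      rw [Phi_empty hd (by omega) (Dvd.intro _ rfl) 0 hg3, Phi_empty hd (by omega) (Dvd.intro _ rfl) 1 hg3, div_one]
  · have hwalg : IsAlgebraic ℚ w := halg w (IsPrimitiveRoot.isIntegral w_prim (by norm_num))
    have hτ : ∃ τ : ℂ ≃+* ℂ, (∀ x, τ (ι x) = ι x) ∧ τ w = w ^ 2 := by
      by_contra hcon
      push Not at hcon
      apply hw
      refine descent ι w hwalg fun t ht => ?_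
      rcases aut_w t with h | h
      · exact h
      · exact absurd h (hcon t ht)
    obtain ⟨τ, hτ1, hτ2⟩ := hτ
    have hτθ : τ (w * dl3 d) = w * dl3 d := by rw [← hιθ]; exact hτ1 θ
    have hτζ : τ (zm m) = zm m := by rw [← hιζ]; exact hτ1 ζ
    have hw4 : (w ^ 2) ^ 2 = w := by
      calc (w ^ 2) ^ 2 = w ^ 3 * w := by ring
        _ = w := by rw [w_pow_three, one_mul]
    have hτsymm : ∀ x, τ.symm (ι x) = ι x := fun x => by
      rw [RingEquiv.symm_apply_eq]; exact (hτ1 x).symm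
    have hτsw : τ.symm (w ^ 2) = w := by
      rw [RingEquiv.symm_apply_eq]; exact hτ2.symm
    have fix1 : ∀ t : ℂ ≃+* ℂ, (∀ x, t (ι x) = ι x) → t w = w → t x0 = x0 := by
      intro t ht h1
      have h2 : t (w * dl3 d) = w * dl3 d := by rw [← hιθ]; exact ht θ
      have h3 : t (zm m) = zm m := by rw [← hιζ]; exact ht ζ
      exact key2 hd hcf hm hadm h1 h2 h3
    have hwz : w * τ w = 1 := by rw [hτ2, ← pow_succ']; exact w_pow_three
    have hfix : ∀ t : ℂ ≃+* ℂ, (∀ x, t (ι x) = ι x) → t (x0 * τ x0) = x0 * τ x0 := by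
      intro t ht
      rcases aut_w t with h | h
      · have e1 := fix1 t ht h
        have e2 : t (τ x0) = τ x0 := by
          have := fix1 ((τ.trans t).trans τ.symm) (fun x => by
            show τ.symm (t (τ (ι x))) = ι x
            rw [hτ1, ht, hτsymm]) (by
            show τ.symm (t (τ w)) = w
            rw [hτ2, map_pow, h, hτsw])
          have h5 : τ.symm (t (τ x0)) = x0 := this
          rwa [RingEquiv.symm_apply_eq] at h5
        rw [map_mul, e1, e2]
      · have e1 : t x0 = τ x0 := by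
          have := fix1 (t.trans τ.symm) (fun x => by
            show τ.symm (t (ι x)) = ι x
            rw [ht, hτsymm]) (by
            show τ.symm (t w) = w
            rw [h, hτsw])
          have h5 : τ.symm (t x0) = x0 := this
          rwa [RingEquiv.symm_apply_eq] at h5
        have e2 : t (τ x0) = x0 := by
          exact fix1 (τ.trans t) (fun x => by
            show t (τ (ι x)) = ι x
            rw [hτ1, ht]) (by
            show t (τ w) = w
            rw [hτ2, map_pow, h, hw4])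
        rw [map_mul, e1, e2, mul_comm]
    have hy0 : x0 * τ x0 ≠ 0 := mul_ne_zero hu3 (by simpa using hu3)
    have hy1 : IsIntegral ℤ (x0 * τ x0) := hu1.mul (map_isIntegral_int τ hu1)
    have hy2 : IsIntegral ℤ (x0 * τ x0)⁻¹ := by
      rw [mul_inv, ← map_inv₀]
      exact hu2.mul (map_isIntegral_int τ hu2)
    obtain ⟨z, hz⟩ := descent ι (x0 * τ x0) (halg _ hy1) hfix
    obtain ⟨f1, f2, f3⟩ := fin z _ hz hy0 hy1 hy2
    refine ⟨z, f1, f2, f3, ?_⟩
    intro ρ hρ g hg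
    have hex : ∃ t : ℂ ≃+* ℂ, (∀ x, t (ι x) = ι (ρ x)) ∧ t w = w := by
      obtain ⟨t, ht⟩ := exists_aut ι (ι.comp (ρ : M →+* M))
      have ht' : ∀ x, t (ι x) = ι (ρ x) := ht
      rcases aut_w t with h | h
      · exact ⟨t, ht', h⟩
      · refine ⟨τ.trans t, fun x => ?_, ?_⟩
        · show t (τ (ι x)) = _
          rw [hτ1, ht']
        · show t (τ w) = w
          rw [hτ2, map_pow, h, hw4]
    obtain ⟨t, ht', htw⟩ := hex
    obtain ⟨k1, k2⟩ := key t ρ ht' hρ g hg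
    rw [← ht', hz, map_mul, norm_mul]
    have n1 : ‖t x0‖ = Phi d m 0 (g : ZMod m) / Phi d m 1 (g : ZMod m) := by
      rw [key1 hd hcf hm hadm htw (keyw t htw k1) k2, xi_abs hd hcf hm hadm, zero_add]
    have n2 : ‖t (τ x0)‖ = 1 := by
      have := key3 hd hcf hm hadm (t := τ.trans t) (by
        show t (τ w) = w ^ 2
        rw [hτ2, map_pow, htw]) (by
        show t (τ (w * dl3 d)) = _
        rw [hτθ, k1]) (g := g) (by
        show t (τ (zm m)) = _
        rw [hτζ, k2])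
      exact this
    rw [n1, n2, mul_one]

theorem exists_z {d m : ℕ} (hd : 2 ≤ d) (hcf : ∀ p : ℕ, p.Prime → ¬ p ^ 3 ∣ d) (hm : 3 ≤ m) {M : Type} [Field M]
    [NumberField M] (θ ζ : M) (hθ : θ ^ 3 = d) (hζ : IsPrimitiveRoot ζ m) (hM : IntermediateField.adjoin ℚ {θ, ζ} = ⊤)
    (ι : M →+* ℂ) (hι : (starRingEnd ℂ) (ι θ) ≠ ι θ) :
    ∃ z : M, z ≠ 0 ∧ IsIntegral ℤ z ∧ IsIntegral ℤ z⁻¹ ∧
      ∀ ρ : M ≃+* M, ρ θ = θ → ∀ g : ℕ, ρ ζ = ζ ^ g →
        ‖ι (ρ z)‖ = Phi d m 0 (g : ZMod m) / Phi d m 1 (g : ZMod m) := by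
  have hd0 := dl3_ne hd
  have h1 : ∃ ι' : M →+* ℂ, (∀ y, ‖ι' y‖ = ‖ι y‖) ∧ ι' θ = w * dl3 d := by
    have h2 : (ι θ / dl3 d) ^ 3 = 1 := by
      rw [div_pow, dl3_cube, ← map_pow, hθ, map_natCast, div_self]
      have : d ≠ 0 := by omega
      exact_mod_cast this
    obtain ⟨i, hi, hi2⟩ := (w_prim : IsPrimitiveRoot w 3).eq_pow_of_pow_eq_one h2
    have h3 : ι θ = w ^ i * dl3 d := by rw [hi2, div_mul_cancel₀ _ hd0]
    interval_cases i
    · exfalso; apply hι
      rw [h3, pow_zero, one_mul]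
      exact cj_dl3 d
    · exact ⟨ι, fun _ => rfl, by rw [h3, pow_one]⟩
    · refine ⟨(cj : ℂ →+* ℂ).comp ι, fun y => norm_cj _, ?_⟩
      show cj (ι θ) = _
      rw [h3, map_mul, map_pow, cj_w, cj_dl3, ← pow_mul]
      congr 1
      calc w ^ (2 * 2) = w ^ 3 * w := by ring
        _ = w := by rw [w_pow_three, one_mul]
  obtain ⟨ι', hι1, hι2⟩ := h1
  have hinj : Function.Injective ι' := ι'.injective
  have hp : IsPrimitiveRoot (ι' ζ) m := (IsPrimitiveRoot.map_iff_of_injective hinj).2 hζ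
  have hm0 : NeZero m := ⟨by omega⟩
  obtain ⟨k, hk, hkc, hk2⟩ := hp.isPrimitiveRoot_iff.1 (zm_prim hm)
  have hζ' : IsPrimitiveRoot (ζ ^ k) m := hζ.pow_of_coprime k hkc
  obtain ⟨l, hl, hl2⟩ := hζ'.eq_pow_of_pow_eq_one hζ.pow_eq_one
  have hM' : IntermediateField.adjoin ℚ {θ, ζ ^ k} = ⊤ := by
    refine eq_top_iff.2 ?_
    rw [← hM, IntermediateField.adjoin_le_iff]
    have hmem : ζ ^ k ∈ IntermediateField.adjoin ℚ ({θ, ζ ^ k} : Set M) :=
      IntermediateField.subset_adjoin _ _ (Or.inr rfl)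
    have hmem2 := pow_mem hmem l
    rw [hl2] at hmem2
    rintro x (rfl | rfl)
    · exact IntermediateField.subset_adjoin _ _ (Or.inl rfl)
    · exact hmem2
  obtain ⟨z, z1, z2, z3, z4⟩ := core hd hcf hm θ (ζ ^ k) hθ hζ' hM' ι' hι2 (by rw [map_pow, hk2])
  refine ⟨z, z1, z2, z3, fun ρ hρ g hg => ?_⟩
  rw [← hι1]
  exact z4 ρ hρ g (by rw [map_pow, hg, ← pow_mul, ← pow_mul, mul_comm])

end MPd9f52e
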