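import Mathlib
import Pool.Agent.Lib.MP_d9f52e_nt.KMain
import Pool.Agent.Lib.MP_d9f52e_nt.TZZ
import Pool.Agent.Lib.MP_d9f52e_nt.XZ
import Pool.Agent.Lib.MP_d9f52e_nt.AMain

/-!
# AEnd: Stark's conjecture for the subextensions of `K(ζ_m) / K`

* `zeta_ideals`: by `ZZ_coeff` and `card_ideals` the series over `n ≡ g` of the number of ideals of
  norm `n` times `n ^ (-s)` has sum `ZZ d m g s`; the ideals of given norm are finite in number
  (`Ideal.finite_setOf_absNorm_eq`). Group the ideals by their norm: `HasSum.sigma_of_hasSum`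
  along `Equiv.sigmaFiberEquiv`; the absolute summability follows from the case of the real
  number `s.re`, where all terms are nonnegative (`summable_sigma_of_nonneg`).
* `stark_cyc`: `S` from `cyc_equiv`, `ι` from `exists_iota`, `iota_theta`; `z` from `exists_z` with
  `θ = algebraMap K M θ`; `‖ι (S g z)‖ = Phi d m 0 g / Phi d m 1 g` (`ρ = S g`), both `Phi` are positive
  (`Phi_pos`); `Zf g = ZZ d m g`, `ZZ_diff`, `ZZ_deriv`; `stark_of_data`.
-/

set_option autoImplicit false

open NumberField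

namespace MPd9f52e

variable {d m : ℕ} [NeZero m] {K L M : Type} [Field K] [NumberField K] [Field L] [NumberField L]
  [Field M] [NumberField M] [Algebra K M] [Algebra K L] [Algebra L M] [IsScalarTower K L M]
  {θ : K} {ζ : M}

omit [NumberField K] in
/-- `θ` as an algebraic integer -/
theorem exists_th (hθ : θ ^ 3 = (d : K)) :
    ∃ th : 𝓞 K, algebraMap (𝓞 K) K th = θ ∧ th ^ 3 = (d : 𝓞 K) := by
  have hint : IsIntegral ℤ θ := ⟨Polynomial.X ^ 3 - Polynomial.C (d : ℤ), by
    constructor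
    · exact Polynomial.monic_X_pow_sub_C _ (by norm_num)
    · simp [hθ]⟩
  obtain ⟨th, h1⟩ : ∃ th : 𝓞 K, algebraMap (𝓞 K) K th = θ := ⟨⟨θ, hint⟩, rfl⟩
  refine ⟨th, h1, ?_⟩
  apply RingOfIntegers.coe_injective
  rw [map_pow, map_natCast, h1]
  exact hθ

/-- `K = ℚ(θ)` -/
theorem adjoin_theta (hd : 2 ≤ d) (hcf : ∀ p : ℕ, p.Prime → ¬ p ^ 3 ∣ d)
    (hK : Module.finrank ℚ K = 3) (hθ : θ ^ 3 = (d : K)) : IntermediateField.adjoin ℚ {θ} = ⊤ := by
  obtain ⟨th, hth0, hth⟩ := exists_th hθ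
  have hint : IsIntegral ℤ θ := hth0 ▸ RingOfIntegers.isIntegral_coe th
  have hmin := minpoly_th (d := d) ⟨hd, hcf⟩ hK th hth
  have h2 : minpoly ℤ θ = minpoly ℤ th := by
    rw [← hth0]
    exact minpoly.algebraMap_eq (A := ℤ) (B := 𝓞 K) (B' := K) (RingOfIntegers.coe_injective) th
  have h3 : minpoly ℚ θ = (minpoly ℤ θ).map (algebraMap ℤ ℚ) :=
    minpoly.isIntegrallyClosed_eq_field_fractions' ℚ hint
  have h4 : (minpoly ℚ θ).natDegree = 3 := by
    rw [h3, h2, hmin, Polynomial.natDegree_map_eq_of_injective (by exact Int.cast_injective)]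
    exact Polynomial.natDegree_X_pow_sub_C
  have hfr : Module.finrank ℚ (IntermediateField.adjoin ℚ {θ}) = 3 := by
    rw [IntermediateField.adjoin.finrank (Algebra.IsIntegral.isIntegral θ), h4]
  apply IntermediateField.eq_of_le_of_finrank_eq le_top
  rw [hfr, IntermediateField.finrank_top', hK]

omit [NeZero m] in
theorem adjoin_top (h : Cyc d m K M θ ζ) :
    IntermediateField.adjoin ℚ {algebraMap K M θ, ζ} = ⊤ := by
  have h1 := adjoin_theta h.two_le h.cubefree h.finrank h.theta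
  rw [eq_top_iff]
  intro x _
  have hK : ∀ y : K, algebraMap K M y ∈ IntermediateField.adjoin ℚ {algebraMap K M θ, ζ} := by
    intro y
    have hy : y ∈ IntermediateField.adjoin ℚ {θ} := by rw [h1]; exact IntermediateField.mem_top
    have hle : IntermediateField.adjoin ℚ {θ} ≤
        (IntermediateField.adjoin ℚ {algebraMap K M θ, ζ}).comap
          ((algebraMap K M).toRatAlgHom) := by
      rw [IntermediateField.adjoin_le_iff]
      rintro z (rfl : z = θ)
      exact IntermediateField.subset_adjoin ℚ _ (by simp)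
    exact hle hy
  have hx : x ∈ IntermediateField.adjoin K {ζ} := by rw [h.gen]; exact IntermediateField.mem_top
  induction hx using IntermediateField.adjoin_induction with
  | mem x hx =>
    rcases hx with rfl
    exact IntermediateField.subset_adjoin ℚ _ (by simp)
  | algebraMap y => exact hK y
  | add x y _ _ hx hy => exact add_mem (hx trivial) (hy trivial)
  | inv x _ hx => exact inv_mem (hx trivial)
  | mul x y _ _ hx hy => exact mul_mem (hx trivial) (hy trivial)

theorem zeta_ideals (hd : 2 ≤ d) (hcf : ∀ p : ℕ, p.Prime → ¬ p ^ 3 ∣ d) (hm : 2 ≤ m)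
    (hK : Module.finrank ℚ K = 3) (hθ : θ ^ 3 = (d : K)) (g : (ZMod m)ˣ) {s : ℂ} (hs : 1 < s.re) :
    HasSum
      (fun a : {a : Ideal (𝓞 K) // a ≠ ⊥ ∧ (g : ZMod m) = (Ideal.absNorm a : ZMod m)} =>
        (Ideal.absNorm a.1 : ℂ) ^ (-s)) (ZZ d m (g : ZMod m) s) := by
  obtain ⟨th, -, hth⟩ := exists_th hθ
  have hm1 : 1 ≤ m := by omega
  -- the number of ideals of norm `n`
  set c : ℕ → ℂ := fun n => (Nat.card {I : Ideal (𝓞 K) // Ideal.absNorm I = n} : ℂ) with hc
  have hcop : ∀ n : ℕ, (n : ZMod m) = g → Nat.Coprime n m := by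
    intro n hn
    rw [← ZMod.isUnit_iff_coprime, hn]
    exact g.isUnit
  have hn0 : ∀ n : ℕ, (n : ZMod m) = g → n ≠ 0 := by
    rintro n hn rfl
    have := hcop 0 hn
    rw [Nat.coprime_zero_left] at this
    omega
  have hsum : ∀ t : ℂ, 1 < t.re → HasSum (fun n : ℕ => if (n : ZMod m) = g then
      c n * (n : ℂ) ^ (-t) else 0) (ZZ d m (g : ZMod m) t) := by
    intro t ht
    have := ZZ_coeff hd hcf hm g ht
    convert this using 2 with n
    by_cases hn : (n : ZMod m) = g
    · rw [if_pos hn, if_pos hn, hc, ← card_ideals hd hcf hm1 hK th hth (hn0 n hn) (hcop n hn)]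
    · rw [if_neg hn, if_neg hn]
  set A := {a : Ideal (𝓞 K) // a ≠ ⊥ ∧ (g : ZMod m) = (Ideal.absNorm a : ZMod m)} with hA
  let e : (Σ n : ℕ, {a : A // Ideal.absNorm a.1 = n}) ≃ A :=
    Equiv.sigmaFiberEquiv (fun a : A => Ideal.absNorm a.1)
  -- the fibre
  have hfib : ∀ n : ℕ, (n : ZMod m) = g →
      Nonempty ({a : A // Ideal.absNorm a.1 = n} ≃ {I : Ideal (𝓞 K) // Ideal.absNorm I = n}) := by
    intro n hn
    refine ⟨⟨fun a => ⟨a.1.1, a.2⟩, fun I => ⟨⟨I.1, ?_, ?_⟩, I.2⟩, fun a => rfl, fun I => rfl⟩⟩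
    · intro h0
      have := I.2
      rw [h0, Ideal.absNorm_bot] at this
      exact hn0 n hn this.symm
    · rw [I.2, hn]
  have hfib' : ∀ n : ℕ, (n : ZMod m) ≠ g → IsEmpty {a : A // Ideal.absNorm a.1 = n} := by
    intro n hn
    refine ⟨fun a => hn ?_⟩
    rw [a.1.2.2, a.2]
  have hfin : ∀ n : ℕ, Finite {a : A // Ideal.absNorm a.1 = n} := by
    intro n
    by_cases hn : (n : ZMod m) = g
    · have : Finite {I : Ideal (𝓞 K) // Ideal.absNorm I = n} :=
        (Ideal.finite_setOfPred_absNorm_eq (S := 𝓞 K) n).to_subtype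
      exact Finite.of_equiv _ (hfib n hn).some.symm
    · have := hfib' n hn
      infer_instance
  have hfibsum : ∀ (n : ℕ) (z : ℂ), HasSum (fun _ : {a : A // Ideal.absNorm a.1 = n} => z)
      (if (n : ZMod m) = g then c n * z else 0) := by
    intro n z
    have := hfin n
    have := Fintype.ofFinite {a : A // Ideal.absNorm a.1 = n}
    by_cases hn : (n : ZMod m) = g
    · rw [if_pos hn]
      have h1 := hasSum_fintype (fun _ : {a : A // Ideal.absNorm a.1 = n} => z)
      rw [Finset.sum_const, Finset.card_univ, nsmul_eq_mul] at h1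
      convert h1 using 2
      rw [hc]
      simp only
      rw [← Nat.card_congr (hfib n hn).some, Nat.card_eq_fintype_card]
    · rw [if_neg hn]
      have := hfib' n hn
      exact hasSum_empty
  have key : ∀ t : ℂ, HasSum (fun n : ℕ => if (n : ZMod m) = g then
      c n * (n : ℂ) ^ (-t) else 0) (ZZ d m (g : ZMod m) t) →
      Summable (fun a : A => (Ideal.absNorm a.1 : ℂ) ^ (-t)) →
      HasSum (fun a : A => (Ideal.absNorm a.1 : ℂ) ^ (-t)) (ZZ d m (g : ZMod m) t) := by
    intro t ht hs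
    rw [← e.hasSum_iff]
    refine HasSum.sigma_of_hasSum ht ?_ (e.summable_iff.2 hs)
    intro n
    have h1 := hfibsum n ((n : ℂ) ^ (-t))
    convert h1 using 2 with a
    have : Ideal.absNorm (e ⟨n, a⟩).1 = n := a.2
    simp only [Function.comp_apply, this]
  refine key s (hsum s hs) ?_
  rw [← summable_norm_iff, ← e.summable_iff]
  have hnn : ∀ x : (Σ n : ℕ, {a : A // Ideal.absNorm a.1 = n}),
      0 ≤ ((fun a : A => ‖(Ideal.absNorm a.1 : ℂ) ^ (-s)‖) ∘ e) x := fun x => norm_nonneg _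
  rw [summable_sigma_of_nonneg hnn]
  constructor
  · intro n
    have := hfin n
    have := Fintype.ofFinite {a : A // Ideal.absNorm a.1 = n}
    exact (hasSum_fintype _).summable
  · have h1 := (hsum s hs).summable.norm
    convert h1 using 2 with n
    have h2 : ∀ a : {a : A // Ideal.absNorm a.1 = n},
        ((fun a : A => ‖(Ideal.absNorm a.1 : ℂ) ^ (-s)‖) ∘ e) ⟨n, a⟩ = ‖(n : ℂ) ^ (-s)‖ := by
      intro a
      have : Ideal.absNorm (e ⟨n, a⟩).1 = n := a.2
      simp only [Function.comp_apply, this]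
    simp_rw [h2]
    have h3 := (hfibsum n ((‖(n : ℂ) ^ (-s)‖ : ℝ) : ℂ)).tsum_eq
    rw [← Complex.ofReal_tsum] at h3
    have h4 : ‖((∑' _ : {a : A // Ideal.absNorm a.1 = n}, ‖(n : ℂ) ^ (-s)‖ : ℝ) : ℂ)‖ =
        ∑' _ : {a : A // Ideal.absNorm a.1 = n}, ‖(n : ℂ) ^ (-s)‖ := by
      rw [Complex.norm_real, Real.norm_of_nonneg]
      exact tsum_nonneg fun _ => norm_nonneg _
    rw [← h4, h3]
    by_cases hn : (n : ZMod m) = g
    · rw [if_pos hn, if_pos hn, norm_mul, norm_mul, Complex.norm_real, norm_norm]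
    · rw [if_neg hn, if_neg hn]

theorem stark_cyc (h : Cyc d m K M θ ζ) {f : Ideal (𝓞 K)}
    (hf : ∀ P : Ideal (𝓞 K), P.IsPrime → (f ≤ P ↔ (m : 𝓞 K) ∈ P)) (v : InfinitePlace L)
    (hv : (v.comap (algebraMap K L)).IsComplex) : Stark K L f v := by
  obtain ⟨S, hS⟩ := cyc_equiv h
  obtain ⟨ι, hι⟩ := exists_iota (M := M) v
  have him := iota_theta h hv hι
  have hm : 1 ≤ m := by have := h.three_le; omega
  have hm2 : 2 ≤ m := by have := h.three_le; omega
  have hconj : (starRingEnd ℂ) (ι (algebraMap K M θ)) ≠ ι (algebraMap K M θ) := by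
    intro hc
    exact him (Complex.conj_eq_iff_im.1 hc)
  obtain ⟨z, hz, hz1, hz2, hz3⟩ := exists_z h.two_le h.cubefree h.three_le (algebraMap K M θ) ζ
    (by rw [← map_pow, h.theta, map_natCast]) h.prim (adjoin_top h) ι hconj
  have hz4 : ∀ g : (ZMod m)ˣ, ‖ι (S g z)‖ =
      Phi d m 0 (g : ZMod m) / Phi d m 1 (g : ZMod m) := by
    intro g
    have := hz3 (S g).toRingEquiv (by simp) ((g : ZMod m).val) (by simpa using hS g)
    rw [ZMod.natCast_zmod_val] at this
    simpa using this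
  refine stark_of_data h hS hf v hι hz hz1 hz2 (fun g => ZZ d m (g : ZMod m)) ?_ ?_ ?_
  · intro g
    exact ZZ_diff h.two_le _
  · intro g s hs
    exact zeta_ideals h.two_le h.cubefree hm2 h.finrank h.theta g hs
  · intro g
    rw [ZZ_deriv h.two_le h.cubefree hm2 g]
    congr 1
    rw [Finset.mul_sum]
    refine Finset.sum_congr rfl fun b _ => ?_
    rw [hz4, Real.log_div (Phi_pos h.two_le hm _ _).ne' (Phi_pos h.two_le hm _ _).ne']
    simp only [bet]
    push_cast
    ring

end MPd9f52e
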