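import Pool.Agent.Lib.MP_d9f52e_nt.ADef

/-!
# The narrow ray class field and question Q1: definitions
-/

set_option autoImplicit false

open NumberField

namespace MPd9f52e

/-- The classes modulo `P(f)_+` of `a` and `b` are equal: `a = (β / α) b` with `α ≡ β ≡ 1` modulo
`f` and `α`, `β` positive at the real embeddings of `K`. -/
def RayEquiv (K : Type) [Field K] [NumberField K] (f a b : Ideal (𝓞 K)) : Prop :=
  ∃ α β : 𝓞 K, α ≠ 0 ∧ β ≠ 0 ∧ α - 1 ∈ f ∧ β - 1 ∈ f ∧
    (∀ φ : K →+* ℝ, 0 < φ (α : K) ∧ 0 < φ (β : K)) ∧ Ideal.span {α} * a = Ideal.span {β} * b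

/-- `L` is the narrow ray class field of `K` modulo `f`: the Artin map is defined on the nonzero
ideals prime to `f`, surjective, and two ideals have the same Artin symbol if and only if their
classes modulo `P(f)_+` are equal. -/
structure IsRayField (K L : Type) [Field K] [NumberField K] [Field L] [NumberField L] [Algebra K L]
    (f : Ideal (𝓞 K)) : Prop where
  galois : IsGalois K L
  comm : ∀ σ τ : L ≃ₐ[K] L, σ * τ = τ * σ
  exists_artin : ∀ a : Ideal (𝓞 K), a ≠ ⊥ → IsCoprime a f → ∃ σ : L ≃ₐ[K] L, IsArtin K L a σ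
  kernel : ∀ a b : Ideal (𝓞 K), a ≠ ⊥ → b ≠ ⊥ → IsCoprime a f → IsCoprime b f →
    ∀ σ τ : L ≃ₐ[K] L, IsArtin K L a σ → IsArtin K L b τ → (σ = τ ↔ RayEquiv K f a b)
  surj : ∀ σ : L ≃ₐ[K] L, ∃ a : Ideal (𝓞 K), a ≠ ⊥ ∧ IsCoprime a f ∧ IsArtin K L a σ

/-- Question Q1 for the field `K` with exactly one complex place and the ideal `f`: Stark's
conditions hold for the narrow ray class field of `K` modulo `f` and every place `v` above the
complex place of `K`. -/
def Q1 (K : Type) [Field K] [NumberField K] (f : Ideal (𝓞 K)) : Prop :=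
  ∀ (L : Type) [Field L] [NumberField L] [Algebra K L], IsRayField K L f →
    ∀ v : InfinitePlace L, (v.comap (algebraMap K L)).IsComplex → Stark K L f v

/-- The class modulo `P(f)_+` of an ideal prime to `f` is determined by its norm modulo `m`. -/
def NormDet (K : Type) [Field K] [NumberField K] (f : Ideal (𝓞 K)) (m : ℕ) : Prop :=
  ∀ a b : Ideal (𝓞 K), a ≠ ⊥ → b ≠ ⊥ → IsCoprime a f → IsCoprime b f →
    (Ideal.absNorm a : ZMod m) = (Ideal.absNorm b : ZMod m) → RayEquiv K f a b

end MPd9f52e
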