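import Pool.Agent.Lib.MP_d9f52e_nt.AArt
import Pool.Agent.Lib.MP_d9f52e_nt.AEnd
import Pool.Agent.Lib.MP_d9f52e_nt.RDef

/-!
# The narrow ray class field

The definition of the narrow ray class field `K(f)` of `K` modulo `f`, and the theorem: if `K` is a
pure cubic field of class number one, `m ≥ 3` is squarefree without prime factor `≡ 1` modulo `3`
and `f ^ 3 = (m)`, then `K(ζ_m)` is the narrow ray class field of `K` modulo `f`.
-/

open NumberField

namespace MPd9f52e

/-! ## Signs of norms -/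

section sign

variable {K : Type} [Field K] [NumberField K]

/-- an element which is positive at all real embeddings has positive norm -/
theorem ray_norm_pos {x : K} (hx : x ≠ 0) (h : ∀ φ : K →+* ℝ, 0 < φ x) : 0 < Algebra.norm ℚ x := by
  classical
  have hprod : ((Algebra.norm ℚ x : ℚ) : ℂ) = ∏ σ : K →ₐ[ℚ] ℂ, σ x := by
    have := Algebra.norm_eq_prod_embeddings ℚ ℂ x
    simpa using this
  let g : (K →ₐ[ℚ] ℂ) → (K →ₐ[ℚ] ℂ) := fun σ => ((starRingEnd ℂ).comp (σ : K →+* ℂ)).toRatAlgHom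
  have hg : ∀ (σ : K →ₐ[ℚ] ℂ) (y : K), g σ y = (starRingEnd ℂ) (σ y) := fun σ y => rfl
  have hne : ∀ σ : K →ₐ[ℚ] ℂ, σ x ≠ 0 := fun σ => (map_ne_zero_iff σ σ.injective).2 hx
  have h1 : ∏ σ : K →ₐ[ℚ] ℂ, σ x / ‖σ x‖ = 1 := by
    refine Finset.prod_involution (fun σ _ => g σ) ?_ ?_ (fun σ _ => Finset.mem_univ _) ?_
    · intro σ _
      rw [hg, Complex.norm_conj, div_mul_div_comm, Complex.mul_conj]
      have h2 : (‖σ x‖ : ℂ) ≠ 0 := by
        exact_mod_cast (norm_ne_zero_iff.2 (hne σ))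
      rw [Complex.normSq_eq_norm_sq]
      push_cast
      field_simp
    · intro σ _ hσ hfix
      apply hσ
      have hreal : ∀ y : K, (σ y).im = 0 := by
        intro y
        have : (starRingEnd ℂ) (σ y) = σ y := by rw [← hg, hfix]
        exact Complex.conj_eq_iff_im.1 this
      let φ : K →+* ℝ :=
        { toFun := fun y => (σ y).re
          map_one' := by simp
          map_mul' := fun a b => by simp [Complex.mul_re, hreal]
          map_zero' := by simp
          map_add' := fun a b => by simp }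
      have hφ : (σ x) = ((φ x : ℝ) : ℂ) := by
        apply Complex.ext
        · rfl
        · simp [hreal]
      have hpos := h φ
      rw [hφ, Complex.norm_real, Real.norm_of_nonneg hpos.le, div_self]
      exact_mod_cast hpos.ne'
    · intro σ _
      apply AlgHom.ext
      intro y
      rw [hg, hg, Complex.conj_conj]
  rw [Finset.prod_div_distrib, ← hprod] at h1
  have h3 : ∏ σ : K →ₐ[ℚ] ℂ, (‖σ x‖ : ℂ) = ((∏ σ : K →ₐ[ℚ] ℂ, ‖σ x‖ : ℝ) : ℂ) := by push_cast; rfl
  have h4 : 0 < ∏ σ : K →ₐ[ℚ] ℂ, ‖σ x‖ := Finset.prod_pos fun σ _ => norm_pos_iff.2 (hne σ)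
  rw [h3, div_eq_one_iff_eq (by exact_mod_cast h4.ne')] at h1
  have h5 : ((Algebra.norm ℚ x : ℚ) : ℝ) = ∏ σ : K →ₐ[ℚ] ℂ, ‖σ x‖ := by exact_mod_cast h1
  have h6 : (0 : ℝ) < ((Algebra.norm ℚ x : ℚ) : ℝ) := by rw [h5]; exact h4
  exact_mod_cast h6

/-- the absolute norm of the ideal of an element which is positive at all real embeddings -/
theorem ray_absNorm_pos {x : 𝓞 K} (hx : x ≠ 0) (h : ∀ φ : K →+* ℝ, 0 < φ (x : K)) :
    ((Ideal.absNorm (Ideal.span {x}) : ℕ) : ℤ) = Algebra.norm ℤ x := by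
  have h1 : 0 < Algebra.norm ℚ (x : K) := ray_norm_pos (by simpa using hx) h
  rw [Ideal.absNorm_span_singleton]
  have h2 : ((Algebra.norm ℤ x : ℤ) : ℚ) = Algebra.norm ℚ (x : K) := by
    have := Algebra.coe_norm_int x
    simpa using this
  have h3 : 0 < Algebra.norm ℤ x := by
    have : (0 : ℚ) < ((Algebra.norm ℤ x : ℤ) : ℚ) := by rw [h2]; exact h1
    exact_mod_cast this
  rw [Int.natCast_natAbs, abs_of_pos h3]

end sign

/-! ## Norms modulo `m` -/

section normMod

variable {K : Type} [Field K] [NumberField K] {m : ℕ} {f : Ideal (𝓞 K)}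

omit [NumberField K] in
theorem ray_m_mem (hf : f ^ 3 = Ideal.span {(m : 𝓞 K)}) : (m : 𝓞 K) ∈ f := by
  have h1 : (m : 𝓞 K) ∈ f ^ 3 := by rw [hf]; exact Ideal.mem_span_singleton_self _
  exact Ideal.pow_le_self (by norm_num) h1

theorem ray_norm_mod (hsq : Squarefree m) (hK : Module.finrank ℚ K = 3)
    (hf : f ^ 3 = Ideal.span {(m : 𝓞 K)}) {x : 𝓞 K} {r : ℤ} (h : x - r ∈ f) :
    ((Algebra.norm ℤ x : ℤ) : ZMod m) = (r : ZMod m) ^ 3 := by
  classical
  let b := RingOfIntegers.basis K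
  set t : 𝓞 K := x - r with ht
  have hx : x = (r : 𝓞 K) + t := by rw [ht]; ring
  have hcard : Fintype.card (Module.Free.ChooseBasisIndex ℤ (𝓞 K)) = 3 := by
    rw [← Module.finrank_eq_card_basis b, RingOfIntegers.rank, hK]
  have hred : IsReduced (ZMod m) := isReduced_zmod.2 (Or.inl hsq)
  set c : ℤ →+* ZMod m := Int.castRingHom (ZMod m) with hc
  set T := Algebra.leftMulMatrix b t with hT
  have hnil : (c.mapMatrix T) ^ 3 = 0 := by
    have h3 : t ^ 3 ∈ Ideal.span {(m : 𝓞 K)} := by rw [← hf]; exact Ideal.pow_mem_pow h 3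
    obtain ⟨u, hu⟩ := Ideal.mem_span_singleton'.1 h3
    rw [← map_pow, hT, ← map_pow, ← hu, map_mul, map_mul, map_natCast, map_natCast]
    have : ((m : ℕ) : Matrix (Module.Free.ChooseBasisIndex ℤ (𝓞 K))
        (Module.Free.ChooseBasisIndex ℤ (𝓞 K)) (ZMod m)) = 0 := by
      rw [← Matrix.diagonal_natCast, CharP.cast_eq_zero]
      simp
    rw [this, mul_zero]
  have hchar : (c.mapMatrix T).charpoly = Polynomial.X ^ 3 := by
    have := Matrix.isNilpotent_charpoly_sub_pow_of_isNilpotent (M := c.mapMatrix T) ⟨3, hnil⟩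
    rw [hcard, Polynomial.isNilpotent_iff] at this
    refine sub_eq_zero.1 (Polynomial.ext fun i => ?_)
    rw [Polynomial.coeff_zero]
    exact (this i).eq_zero
  have hev := congrArg (Polynomial.eval (-(r : ZMod m))) hchar
  rw [Matrix.eval_charpoly, Polynomial.eval_pow, Polynomial.eval_X] at hev
  have h1 : ((Algebra.norm ℤ x : ℤ) : ZMod m) =
      (Matrix.scalar _ (r : ZMod m) + c.mapMatrix T).det := by
    rw [Algebra.norm_eq_matrix_det b, hx, map_add, ← hT]
    have : ((Algebra.leftMulMatrix b (r : 𝓞 K) + T).det : ZMod m) =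
        (c.mapMatrix (Algebra.leftMulMatrix b (r : 𝓞 K) + T)).det := by
      exact (RingHom.map_det c _)
    rw [this, map_add, map_intCast, map_intCast]
    congr 2
  have h2 : (Matrix.scalar _ (r : ZMod m) + c.mapMatrix T) =
      -(Matrix.scalar _ (-(r : ZMod m)) - c.mapMatrix T) := by
    rw [map_neg, neg_sub, sub_neg_eq_add, add_comm]
  rw [h1, h2, Matrix.det_neg, hev, hcard]
  ring

theorem ray_norm_int (hK : Module.finrank ℚ K = 3) (n : ℤ) :
    Algebra.norm ℤ (n : 𝓞 K) = n ^ 3 := by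
  have := Algebra.norm_algebraMap (S := 𝓞 K) n
  rw [RingOfIntegers.rank, hK] at this
  simpa using this

theorem ray_int_mem (hsq : Squarefree m) (hK : Module.finrank ℚ K = 3)
    (hf : f ^ 3 = Ideal.span {(m : 𝓞 K)}) {n : ℤ} (h : (n : 𝓞 K) ∈ f) : (m : ℤ) ∣ n := by
  have hred : IsReduced (ZMod m) := isReduced_zmod.2 (Or.inl hsq)
  have h1 := ray_norm_mod hsq hK hf (x := (n : 𝓞 K)) (r := 0) (by simpa using h)
  rw [ray_norm_int hK] at h1
  have h2 : (n : ZMod m) ^ 3 = 0 := by push_cast at h1; simpa using h1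
  rw [← ZMod.intCast_zmod_eq_zero_iff_dvd]
  exact pow_eq_zero_iff (n := 3) (by norm_num) |>.1 h2

theorem ray_absNorm_f (hK : Module.finrank ℚ K = 3)
    (hf : f ^ 3 = Ideal.span {(m : 𝓞 K)}) : Ideal.absNorm f = m := by
  have h1 : Ideal.absNorm f ^ 3 = m ^ 3 := by
    rw [← map_pow, hf, Ideal.absNorm_span_singleton]
    have := ray_norm_int hK (m : ℤ)
    rw [Int.cast_natCast] at this
    rw [this, Int.natAbs_pow, Int.natAbs_natCast]
  exact Nat.pow_left_injective (n := 3) (by norm_num) h1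

theorem ray_exists_int (hm : m ≠ 0) (hsq : Squarefree m) (hK : Module.finrank ℚ K = 3)
    (hf : f ^ 3 = Ideal.span {(m : 𝓞 K)}) (x : 𝓞 K) : ∃ r : ℤ, x - r ∈ f := by
  classical
  have hcard : Nat.card (𝓞 K ⧸ f) = m := by
    rw [← ray_absNorm_f hK hf]
    rfl
  have hfin : Finite (𝓞 K ⧸ f) := Nat.finite_of_card_ne_zero (by rw [hcard]; exact hm)
  have hinj : Function.Injective (fun i : Fin m => Ideal.Quotient.mk f ((i : ℕ) : 𝓞 K)) := by
    intro i j hij
    have h1 : (((i : ℕ) : ℤ) - ((j : ℕ) : ℤ) : ℤ) = ((i : ℕ) : ℤ) - ((j : ℕ) : ℤ) := rfl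
    have h2 : ((((i : ℕ) : ℤ) - ((j : ℕ) : ℤ) : ℤ) : 𝓞 K) ∈ f := by
      have := Ideal.Quotient.eq.1 hij
      push_cast
      exact this
    have h3 := ray_int_mem hsq hK hf h2
    have h4 : ((i : ℕ) : ℤ) = ((j : ℕ) : ℤ) := by
      have hi := i.2
      have hj := j.2
      obtain ⟨k, hk⟩ := h3
      have hk0 : k = 0 := by
        by_contra hk0
        rcases lt_or_gt_of_ne hk0 with hneg | hpos
        · have : (m : ℤ) * k ≤ -(m : ℤ) := by nlinarith
          omega
        · have : (m : ℤ) ≤ (m : ℤ) * k := by nlinarith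
          omega
      rw [hk0, mul_zero] at hk
      omega
    exact Fin.ext (by exact_mod_cast h4)
  have hbij := hinj.bijective_of_nat_card_le (by rw [hcard, Nat.card_fin])
  obtain ⟨i, hi⟩ := hbij.2 (Ideal.Quotient.mk f x)
  refine ⟨((i : ℕ) : ℤ), ?_⟩
  rw [Int.cast_natCast]
  exact Ideal.Quotient.eq.1 hi.symm

theorem ray_coprime (hm : m ≠ 0) (hsq : Squarefree m)
    (h1 : ∀ p : ℕ, p.Prime → p ∣ m → p % 3 ≠ 1) : Nat.Coprime (Nat.totient m) 3 := by
  rw [Nat.coprime_comm, Nat.Prime.coprime_iff_not_dvd Nat.prime_three,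
    Nat.totient_eq_prod_factorization hm]
  intro h
  rw [Finsupp.prod, Prime.dvd_finsetProd_iff Nat.prime_three.prime] at h
  obtain ⟨p, hp, hdvd⟩ := h
  have hpp : p.Prime := Nat.prime_of_mem_primeFactors (by simpa using hp)
  have hpm : p ∣ m := Nat.dvd_of_mem_primeFactors (by simpa using hp)
  have hk : m.factorization p = 1 := by
    have h2 := hsq.natFactorization_le_one p
    have h3 : m.factorization p ≠ 0 := by simpa using Finsupp.mem_support_iff.1 hp
    omega
  rw [hk] at hdvd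
  simp only [Nat.sub_self, pow_zero, one_mul] at hdvd
  have := h1 p hpp hpm
  have h5 := hpp.one_lt
  omega

theorem ray_cube (hm : m ≠ 0) (hsq : Squarefree m)
    (h1 : ∀ p : ℕ, p.Prime → p ∣ m → p % 3 ≠ 1) : Function.Bijective
      (fun g : (ZMod m)ˣ => g ^ 3) := by
  have : NeZero m := ⟨hm⟩
  have h2 : (Nat.card (ZMod m)ˣ).Coprime 3 := by
    rw [Nat.card_eq_fintype_card, ZMod.card_units_eq_totient]
    exact ray_coprime hm hsq h1
  exact (powCoprime h2).bijective

end normMod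

/-! ## The real embedding -/

section real

variable {K : Type} [Field K] [NumberField K] {d : ℕ} {θ : K}

/-- up to sign every element is positive at all real embeddings -/
theorem ray_sign (hd : 2 ≤ d) (hcf : ∀ p : ℕ, p.Prime → ¬ p ^ 3 ∣ d)
    (hK : Module.finrank ℚ K = 3) (hθ : θ ^ 3 = (d : K)) {x : K} (hx : x ≠ 0) :
    (∀ φ : K →+* ℝ, 0 < φ x) ∨ (∀ φ : K →+* ℝ, 0 < φ (-x)) := by
  have huniq : ∀ φ ψ : K →+* ℝ, φ = ψ := by
    intro φ ψ
    have h1 : φ θ = ψ θ := by
      have h2 : (φ θ) ^ 3 = (ψ θ) ^ 3 := by rw [← map_pow, ← map_pow, hθ, map_natCast, map_natCast]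
      exact (Odd.strictMono_pow (by decide : Odd 3)).injective h2
    ext y
    have hy : y ∈ IntermediateField.adjoin ℚ {θ} := by
      rw [adjoin_theta hd hcf hK hθ]; exact IntermediateField.mem_top
    induction hy using IntermediateField.adjoin_induction with
    | mem x hx => rcases hx with rfl; exact h1
    | algebraMap q => simp
    | add x y _ _ hx hy => rw [map_add, map_add, hx, hy]
    | inv x _ hx => rw [map_inv₀, map_inv₀, hx]
    | mul x y _ _ hx hy => rw [map_mul, map_mul, hx, hy]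
  by_cases h : ∃ φ : K →+* ℝ, 0 < φ (-x)
  · obtain ⟨φ, hφ⟩ := h
    right
    intro ψ
    rw [huniq ψ φ]
    exact hφ
  · left
    push Not at h
    intro φ
    have h1 := h φ
    rw [map_neg] at h1
    have h2 : φ x ≠ 0 := (map_ne_zero φ).2 hx
    have h3 : 0 ≤ φ x := by linarith
    exact lt_of_le_of_ne h3 h2.symm

end real

/-! ## The class group modulo `f` -/

section classes

variable {K : Type} [Field K] [NumberField K] {d m : ℕ} {θ : K} {f : Ideal (𝓞 K)}

omit [NumberField K] in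
theorem ray_f_mem_iff (hf : f ^ 3 = Ideal.span {(m : 𝓞 K)}) (P : Ideal (𝓞 K)) (hP : P.IsPrime) :
    f ≤ P ↔ (m : 𝓞 K) ∈ P := by
  constructor
  · intro h
    exact h (ray_m_mem hf)
  · intro h
    have h1 : f ^ 3 ≤ P := by
      rw [hf, Ideal.span_singleton_le_iff_mem]
      exact h
    exact (Ideal.IsPrime.pow_le_iff (by norm_num)).1 h1

omit [NumberField K] in
/-- congruence modulo `f` of elements with integral representatives -/
private theorem mem_of_cast_eq (hf : f ^ 3 = Ideal.span {(m : 𝓞 K)}) {x y : 𝓞 K} {r s : ℤ}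
    (hx : x - r ∈ f) (hy : y - s ∈ f) (h : (r : ZMod m) = (s : ZMod m)) : x - y ∈ f := by
  have h1 : (m : ℤ) ∣ r - s := (ZMod.intCast_eq_intCast_iff_dvd_sub _ _ _).1 h.symm
  obtain ⟨k, hk⟩ := h1
  have h2 : ((r : 𝓞 K) - s) = (m : 𝓞 K) * (k : 𝓞 K) := by
    have := congrArg (fun z : ℤ => (z : 𝓞 K)) hk
    push_cast at this
    exact this
  have h3 : x - y = (x - r) - (y - s) + (m : 𝓞 K) * (k : 𝓞 K) := by rw [← h2]; ring
  rw [h3]
  exact add_mem (sub_mem hx hy) (Ideal.mul_mem_right _ _ (ray_m_mem hf))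

theorem ray_equiv_iff (hd : 2 ≤ d) (hcf : ∀ p : ℕ, p.Prime → ¬ p ^ 3 ∣ d) (hm : m ≠ 0)
    (hK : Module.finrank ℚ K = 3) (hθ : θ ^ 3 = (d : K)) (hsq : Squarefree m)
    (h1 : ∀ p : ℕ, p.Prime → p ∣ m → p % 3 ≠ 1) (hf : f ^ 3 = Ideal.span {(m : 𝓞 K)})
    (hcl : IsPrincipalIdealRing (𝓞 K)) {a b : Ideal (𝓞 K)} (ha : a ≠ ⊥) (hb : b ≠ ⊥)
    (ha' : Nat.Coprime (Ideal.absNorm a) m) (hb' : Nat.Coprime (Ideal.absNorm b) m) :
    (Ideal.absNorm a : ZMod m) = (Ideal.absNorm b : ZMod m) ↔ RayEquiv K f a b := by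
  have : NeZero m := ⟨hm⟩
  constructor
  · intro hab
    -- positive generators
    have hgen : ∀ c : Ideal (𝓞 K), c ≠ ⊥ → ∃ x : 𝓞 K, x ≠ 0 ∧ Ideal.span {x} = c ∧
        ∀ φ : K →+* ℝ, 0 < φ (x : K) := by
      intro c hc
      obtain ⟨x, hx⟩ := (hcl.principal c).principal
      have hx' : Ideal.span {x} = c := hx.symm
      have hx0 : x ≠ 0 := by
        rintro rfl
        apply hc
        rw [← hx', Ideal.span_singleton_eq_bot]
      rcases ray_sign hd hcf hK hθ (x := (x : K)) (by simpa using hx0) with h | h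
      · exact ⟨x, hx0, hx', h⟩
      · exact ⟨-x, neg_ne_zero.2 hx0, by rw [Ideal.span_singleton_neg, hx'], by simpa using h⟩
    obtain ⟨x, hx0, hxa, hxp⟩ := hgen a ha
    obtain ⟨y, hy0, hyb, hyp⟩ := hgen b hb
    have hNx := ray_absNorm_pos hx0 hxp
    have hNy := ray_absNorm_pos hy0 hyp
    rw [hxa] at hNx
    rw [hyb] at hNy
    obtain ⟨r, hr⟩ := ray_exists_int hm hsq hK hf x
    obtain ⟨s, hs⟩ := ray_exists_int hm hsq hK hf y
    have hr3 := ray_norm_mod hsq hK hf hr
    have hs3 := ray_norm_mod hsq hK hf hs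
    rw [← hNx] at hr3
    rw [← hNy] at hs3
    rw [Int.cast_natCast] at hr3 hs3
    have hru : IsUnit (r : ZMod m) := by
      have : IsUnit ((Ideal.absNorm a : ℕ) : ZMod m) := (ZMod.isUnit_iff_coprime _ _).2 ha'
      rw [hr3] at this
      exact (isUnit_pow_iff (by norm_num)).1 this
    have hsu : IsUnit (s : ZMod m) := by
      have : IsUnit ((Ideal.absNorm b : ℕ) : ZMod m) := (ZMod.isUnit_iff_coprime _ _).2 hb'
      rw [hs3] at this
      exact (isUnit_pow_iff (by norm_num)).1 this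
    have hrs : (r : ZMod m) = (s : ZMod m) := by
      obtain ⟨u, hu⟩ := hru
      obtain ⟨w, hw⟩ := hsu
      have h3 : u ^ 3 = w ^ 3 := by
        ext
        rw [Units.val_pow_eq_pow_val, Units.val_pow_eq_pow_val, hu, hw, ← hr3, ← hs3, hab]
      rw [← hu, ← hw, (ray_cube hm hsq h1).1 h3]
    -- an inverse of `s`
    obtain ⟨w, hw⟩ := hsu
    set n : ℕ := ((w⁻¹ : (ZMod m)ˣ) : ZMod m).val + m with hn
    have hns : ((n : ℤ) : ZMod m) * (s : ZMod m) = 1 := by
      rw [hn]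
      push_cast
      rw [ZMod.natCast_zmod_val, CharP.cast_eq_zero, add_zero, ← hw, Units.inv_mul]
    have hn0 : n ≠ 0 := by omega
    have hns' : ((n : ℤ) : ZMod m) * (r : ZMod m) = 1 := by rw [hrs]; exact hns
    have hcong : ∀ (z : 𝓞 K) (t : ℤ), z - t ∈ f → ((n : ℤ) : ZMod m) * (t : ZMod m) = 1 →
        (n : 𝓞 K) * z - 1 ∈ f := by
      intro z t hz ht
      have e1 : (n : 𝓞 K) * z - ((n * t : ℤ) : 𝓞 K) ∈ f := by
        have : (n : 𝓞 K) * z - ((n * t : ℤ) : 𝓞 K) = (n : 𝓞 K) * (z - t) := by push_cast; ring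
        rw [this]
        exact Ideal.mul_mem_left _ _ hz
      have e2 : (1 : 𝓞 K) - ((1 : ℤ) : 𝓞 K) ∈ f := by simp
      refine mem_of_cast_eq hf e1 e2 ?_
      push_cast
      push_cast at ht
      exact ht
    refine ⟨(n : 𝓞 K) * y, (n : 𝓞 K) * x, mul_ne_zero (by exact_mod_cast hn0) hy0,
      mul_ne_zero (by exact_mod_cast hn0) hx0, hcong y s hs hns, hcong x r hr hns', ?_, ?_⟩
    · intro φ
      have hnp : (0 : ℝ) < n := by exact_mod_cast Nat.pos_of_ne_zero hn0
      constructor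
      · have := mul_pos hnp (hyp φ)
        simpa using this
      · have := mul_pos hnp (hxp φ)
        simpa using this
    · rw [← hxa, ← hyb, Ideal.span_singleton_mul_span_singleton,
        Ideal.span_singleton_mul_span_singleton]
      congr 2
      ring
  · rintro ⟨α, β, hα0, hβ0, hα, hβ, hpos, heq⟩
    have hNα := ray_absNorm_pos hα0 fun φ => (hpos φ).1
    have hNβ := ray_absNorm_pos hβ0 fun φ => (hpos φ).2
    have e1 : ((Ideal.absNorm (Ideal.span {α}) : ℕ) : ZMod m) = 1 := by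
      have := ray_norm_mod hsq hK hf (x := α) (r := 1) (by simpa using hα)
      rw [← hNα] at this
      simpa using this
    have e2 : ((Ideal.absNorm (Ideal.span {β}) : ℕ) : ZMod m) = 1 := by
      have := ray_norm_mod hsq hK hf (x := β) (r := 1) (by simpa using hβ)
      rw [← hNβ] at this
      simpa using this
    have h3 := congrArg (fun c : Ideal (𝓞 K) => ((Ideal.absNorm c : ℕ) : ZMod m)) heq
    simp only [map_mul, Nat.cast_mul, e1, e2, one_mul] at h3
    exact h3

end classes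

/-! ## The theorem -/

section main

variable {d m : ℕ} {K M : Type} [Field K] [NumberField K] [Field M] [NumberField M] [Algebra K M]
  {θ : K} {ζ : M}

/-- `K(ζ_m)` is the narrow ray class field of `K` modulo `f`, `f ^ 3 = (m)`. -/
theorem ray_cyc (h : Cyc d m K M θ ζ) (hsq : Squarefree m)
    (h1 : ∀ p : ℕ, p.Prime → p ∣ m → p % 3 ≠ 1) {f : Ideal (𝓞 K)}
    (hf : f ^ 3 = Ideal.span {(m : 𝓞 K)}) (hcl : IsPrincipalIdealRing (𝓞 K)) :
    IsRayField K M f := by
  have hm : m ≠ 0 := by have := h.three_le; omega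
  have : NeZero m := ⟨hm⟩
  have hgal := cyc_galois h
  have hfP := ray_f_mem_iff hf
  obtain ⟨S, hS⟩ := cyc_equiv h
  have hrs : ∀ g : (ZMod m)ˣ, rs M S g = S g := by
    intro g
    ext y
    exact AlgEquiv.restrictNormal_commutes (S g) M y
  have hcop : ∀ a : Ideal (𝓞 K), a ≠ ⊥ → (IsCoprime a f ↔ Nat.Coprime (Ideal.absNorm a) m) :=
    fun a ha => absNorm_coprime hfP ha
  have hunit : ∀ a : Ideal (𝓞 K), a ≠ ⊥ → IsCoprime a f →
      ∃ g : (ZMod m)ˣ, (g : ZMod m) = (Ideal.absNorm a : ZMod m) := by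
    intro a ha haf
    obtain ⟨g, hg⟩ := (ZMod.isUnit_iff_coprime _ _).2 ((hcop a ha).1 haf)
    exact ⟨g, hg⟩
  refine ⟨hgal, (cyc_sub h M).2, ?_, ?_, ?_⟩
  · intro a ha haf
    obtain ⟨g, hg⟩ := hunit a ha haf
    exact ⟨rs M S g, (artin_iff h hS ha hg _).2 rfl⟩
  · intro a b ha hb haf hbf σ τ hσ hτ
    obtain ⟨g, hg⟩ := hunit a ha haf
    obtain ⟨g', hg'⟩ := hunit b hb hbf
    rw [← (artin_iff h hS ha hg σ).1 hσ, ← (artin_iff h hS hb hg' τ).1 hτ, hrs, hrs,
      S.injective.eq_iff, ← ray_equiv_iff h.two_le h.cubefree hm h.finrank h.theta hsq h1 hf hcl ha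
        hb ((hcop a ha).1 haf) ((hcop b hb).1 hbf), ← hg, ← hg']
    exact ⟨fun e => by rw [e], fun e => Units.ext e⟩
  · intro σ
    obtain ⟨g, hg⟩ := S.surjective σ
    obtain ⟨r, hr⟩ := (ray_cube hm hsq h1).2 g
    set n : ℕ := (r : ZMod m).val + m with hn
    have hn0 : n ≠ 0 := by omega
    have hnr : (n : ZMod m) = r := by
      rw [hn]
      push_cast
      rw [ZMod.natCast_zmod_val, CharP.cast_eq_zero, add_zero]
    have hne : Ideal.span {(n : 𝓞 K)} ≠ ⊥ := by
      rw [Ne, Ideal.span_singleton_eq_bot]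
      exact_mod_cast hn0
    have hnorm : Ideal.absNorm (Ideal.span {(n : 𝓞 K)}) = n ^ 3 := by
      rw [Ideal.absNorm_span_singleton]
      have := ray_norm_int h.finrank (n : ℤ)
      rw [Int.cast_natCast] at this
      rw [this, Int.natAbs_pow, Int.natAbs_natCast]
    have hg' : (g : ZMod m) = (Ideal.absNorm (Ideal.span {(n : 𝓞 K)}) : ZMod m) := by
      rw [hnorm, Nat.cast_pow, hnr, ← hr]
      simp
    refine ⟨Ideal.span {(n : 𝓞 K)}, hne, ?_, ?_⟩
    · rw [hcop _ hne, ← ZMod.isUnit_iff_coprime, ← hg']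
      exact g.isUnit
    · rw [artin_iff h hS hne hg', hrs, hg]

end main

end MPd9f52e
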