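import Pool.Agent.Lib.MP_d9f52e_nt.ATor

/-!
# The Stickelberger element
-/

open NumberField

namespace MPd9f52e

private theorem thQ_shift {m : ℕ} [NeZero m] {K L : Type} [Field K] [Field L] [Algebra K L]
    (r : (ZMod m)ˣ →* (L ≃ₐ[K] L)) (g : (ZMod m)ˣ) (σ : L ≃ₐ[K] L) :
    thQ r ((r g)⁻¹ * σ) = by
      classical
      exact ∑ y : (ZMod m)ˣ, if r y⁻¹ = σ then bet m (g * y) else 0 := by
  classical
  unfold thQ
  refine (Fintype.sum_equiv (Equiv.mulLeft g) _ _ fun y => ?_).symm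
  have e : (Equiv.mulLeft g) y = g * y := rfl
  rw [e]
  have h1 : r (g * y)⁻¹ = (r g)⁻¹ * r y⁻¹ := by
    rw [← map_inv, ← map_mul, mul_inv]
  rw [h1]
  simp only [mul_right_inj]

private theorem bet_mul {m : ℕ} [NeZero m] {g : (ZMod m)ˣ} {c : ℕ} (hc : Odd c)
    (hg : (g : ZMod m) = (c : ZMod m)) (y : (ZMod m)ˣ) :
    bet m (g * y) - c * bet m y =
      (((1 - (c : ℤ)) / 2 + ((c * (y : ZMod m).val / m : ℕ) : ℤ) : ℤ) : ℚ) := by
  have hval : ((g * y : (ZMod m)ˣ) : ZMod m).val = (c * (y : ZMod m).val) % m := by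
    rw [Units.val_mul, hg, ← ZMod.val_natCast, Nat.cast_mul, ZMod.natCast_zmod_val]
  have hm : (m : ℚ) ≠ 0 := Nat.cast_ne_zero.2 (NeZero.ne m)
  have h := Nat.mod_add_div (c * (y : ZMod m).val) m
  generalize c * (y : ZMod m).val / m = q at h ⊢
  have hdiv : (((c * (y : ZMod m).val) % m : ℕ) : ℚ) =
      (c : ℚ) * ((y : ZMod m).val : ℚ) - m * (q : ℚ) := by
    have h' := congrArg (Nat.cast : ℕ → ℚ) h
    push_cast at h'
    push_cast
    linarith
  obtain ⟨k, hk⟩ := hc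
  have hz : (1 - (c : ℤ)) / 2 = -(k : ℤ) := by
    rw [hk]
    push_cast
    omega
  unfold bet
  rw [hval, hdiv, hz]
  push_cast
  have hcq : (c : ℚ) = 2 * k + 1 := by exact_mod_cast hk
  field_simp
  rw [hcq]
  ring

variable {d m : ℕ} [NeZero m] {K L M : Type} [Field K] [NumberField K] [Field L] [NumberField L]
  [Field M] [NumberField M] [Algebra K M] [Algebra K L] [Algebra L M] [IsScalarTower K L M]
  [Normal K L] {θ : K} {ζ : M}

theorem stick_id (h : Cyc d m K M θ ζ) {S : (ZMod m)ˣ ≃* (M ≃ₐ[K] M)}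
    (hS : IsCycEquiv m K M ζ S) {g : (ZMod m)ˣ} {c : ℕ} (hc : Odd c)
    (hg : (g : ZMod m) = (c : ZMod m)) (σ : L ≃ₐ[K] L) :
    thQ (rs L S) ((rs L S g)⁻¹ * σ) - c * thQ (rs L S) σ = (thB (rs L S) c σ : ℚ) := by
  classical
  rw [thQ_shift]
  unfold thQ thB
  rw [Finset.mul_sum, ← Finset.sum_sub_distrib, Int.cast_sum]
  refine Finset.sum_congr (by ext; simp) fun y _ => ?_
  by_cases hy : rs L S y⁻¹ = σ
  · simp only [hy, if_true]
    exact bet_mul hc hg y
  · simp only [hy, if_false]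
    simp

theorem stick_odd (h : Cyc d m K M θ ζ) {S : (ZMod m)ˣ ≃* (M ≃ₐ[K] M)}
    (hS : IsCycEquiv m K M ζ S) (σ : L ≃ₐ[K] L) :
    thQ (rs L S) ((rs L S (-1))⁻¹ * σ) = - thQ (rs L S) σ := by
  classical
  rw [thQ_shift]
  unfold thQ
  rw [← Finset.sum_neg_distrib]
  refine Finset.sum_congr (by ext; simp) fun y _ => ?_
  by_cases hy : rs L S y⁻¹ = σ
  · simp only [hy, if_true]
    have hm3 := h.three_le
    have hm : (m : ℚ) ≠ 0 := Nat.cast_ne_zero.2 (NeZero.ne m)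
    have : Fact (1 < m) := ⟨by omega⟩
    have hy0 : (y : ZMod m) ≠ 0 := y.ne_zero
    have hval : ((-1 * y : (ZMod m)ˣ) : ZMod m).val = m - (y : ZMod m).val := by
      rw [Units.val_mul, Units.val_neg, Units.val_one, neg_one_mul, ZMod.neg_val, if_neg hy0]
    unfold bet
    rw [hval, Nat.cast_sub (ZMod.val_lt _).le]
    field_simp
    ring
  · simp only [hy, if_false, neg_zero]

/-- the integers `n` with `n Θ` integral -/
private def stI {m : ℕ} [NeZero m] {K L : Type} [Field K] [Field L] [Algebra K L]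
    (r : (ZMod m)ˣ →* (L ≃ₐ[K] L)) : AddSubgroup ℤ where
  carrier := {n | ∀ σ, ∃ a : ℤ, (a : ℚ) = n * thQ r σ}
  zero_mem' := fun σ => ⟨0, by simp⟩
  add_mem' := by
    intro a b ha hb σ
    obtain ⟨x, hx⟩ := ha σ
    obtain ⟨y, hy⟩ := hb σ
    exact ⟨x + y, by push_cast; rw [hx, hy]; ring⟩
  neg_mem' := by
    intro a ha σ
    obtain ⟨x, hx⟩ := ha σ
    exact ⟨-x, by push_cast; rw [hx]; ring⟩

theorem stick_int (h : Cyc d m K M θ ζ) {S : (ZMod m)ˣ ≃* (M ≃ₐ[K] M)}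
    (hS : IsCycEquiv m K M ζ S) :
    ∃ A : (L ≃ₐ[K] L) → ℤ, ∀ σ, (A σ : ℚ) = (Units.torsionOrder L : ℚ) * thQ (rs L S) σ := by
  classical
  have hm3 := h.three_le
  have hm0 : 0 < m := by omega
  set r := rs L S with hr
  -- the subgroup of integers
  have hI1 : ∀ (g : (ZMod m)ˣ) (c : ℕ), Odd c → (g : ZMod m) = (c : ZMod m) → r g = 1 →
      (1 - (c : ℤ)) ∈ stI r := by
    intro g c hc hg hrg σ
    refine ⟨thB r c σ, ?_⟩
    rw [hr, ← stick_id h hS hc hg σ, ← hr, hrg, inv_one, one_mul]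
    push_cast
    ring
  obtain ⟨D0, hD0⟩ := Int.subgroup_cyclic (stI r)
  obtain ⟨D, hD⟩ : ∃ D : ℕ, ∀ n : ℤ, n ∈ stI r ↔ (D : ℤ) ∣ n := by
    refine ⟨D0.natAbs, fun n => ?_⟩
    rw [hD0, ← AddSubgroup.zmultiples_eq_closure, Int.mem_zmultiples_iff, Int.natAbs_dvd]
  -- D divides 2m, and m if m is even
  have h2m : D ∣ 2 * m := by
    have h1 := hI1 1 (1 + 2 * m) ⟨m, by ring⟩ (by simp) (map_one r)
    rw [hD] at h1
    push_cast at h1
    have h2 : (1 - (1 + 2 * (m : ℤ))) = -((2 * m : ℕ) : ℤ) := by push_cast; ring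
    rw [h2, dvd_neg] at h1
    exact Int.natCast_dvd_natCast.1 h1
  have hD1 : 0 < D := Nat.pos_of_dvd_of_pos h2m (by omega)
  have hev : Even m → D ∣ m := by
    intro he
    have h1 := hI1 1 (1 + m) (by
      rw [Nat.odd_add]
      exact ⟨fun _ => he, fun _ => odd_one⟩) (by simp) (map_one r)
    rw [hD] at h1
    push_cast at h1
    have h2 : (1 - (1 + (m : ℤ))) = -((m : ℕ) : ℤ) := by ring
    rw [h2, dvd_neg] at h1
    exact Int.natCast_dvd_natCast.1 h1
  -- a primitive D-th root of unity in M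
  obtain ⟨ξ, hξ⟩ : ∃ ξ : M, IsPrimitiveRoot ξ D := by
    rcases Nat.even_or_odd m with he | ho
    · obtain ⟨k, hk⟩ := hev he
      exact ⟨ζ ^ k, h.prim.pow hm0 (by rw [hk]; ring)⟩
    · have hneg : IsPrimitiveRoot (-ζ) (2 * m) := by
        have h1 : IsPrimitiveRoot (-1 : M) 2 := IsPrimitiveRoot.neg_one 0 (by norm_num)
        have h2 : orderOf ((-1 : M) * ζ) = 2 * m := by
          have hcop : (orderOf (-1 : M)).Coprime (orderOf ζ) := by
            rw [← h1.eq_orderOf, ← h.prim.eq_orderOf]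
            exact Nat.coprime_two_left.2 ho
          rw [(Commute.all (-1 : M) ζ).orderOf_mul_eq_mul_orderOf_of_coprime hcop,
            ← h1.eq_orderOf, ← h.prim.eq_orderOf]
        rw [neg_one_mul] at h2
        exact IsPrimitiveRoot.iff_orderOf.2 h2
      obtain ⟨k, hk⟩ := h2m
      exact ⟨(-ζ) ^ k, hneg.pow (by omega) (by rw [hk]; ring)⟩
  -- it is fixed by the automorphisms of M / L
  have : IsGalois K M := cyc_galois h
  have : IsGalois L M := IsGalois.tower_top_of_isGalois K L M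
  have : FiniteDimensional L M := Module.Finite.of_restrictScalars_finite ℚ L M
  have hfix : ∀ φ : M ≃ₐ[L] M, φ ξ = ξ := by
    intro φ
    obtain ⟨g, hg⟩ : ∃ g, S g = φ.restrictScalars K := S.surjective _
    have hrg : r g = 1 := by
      show AlgEquiv.restrictNormalHom L (S g) = 1
      rw [hg]
      ext l
      apply (algebraMap L M).injective
      have h1 := AlgEquiv.restrictNormal_commutes (φ.restrictScalars K) L l
      refine h1.trans ?_
      exact φ.commutes l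
    obtain ⟨c, hc, hcm, hgc⟩ := odd_rep hm3 g
    have h1 := hI1 g c hc hgc hrg
    rw [hD] at h1
    have h2 : S g ξ = ξ ^ c := S_root h hS hc hgc hD1 hξ.pow_eq_one
    have h3 : (φ.restrictScalars K) ξ = ξ ^ c := by rw [← hg]; exact h2
    have h4 : φ ξ = ξ ^ c := h3
    rw [h4]
    obtain ⟨k, hk⟩ : D ∣ c - 1 := by
      have hc1 : 1 ≤ c := hc.pos
      have : ((c - 1 : ℕ) : ℤ) = -(1 - (c : ℤ)) := by
        rw [Nat.cast_sub hc1]; push_cast; ring
      have h5 : (D : ℤ) ∣ ((c - 1 : ℕ) : ℤ) := by rw [this, dvd_neg]; exact h1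
      exact Int.natCast_dvd_natCast.1 h5
    have hc' : c = D * k + 1 := by have := hc.pos; omega
    rw [hc', pow_succ, pow_mul, hξ.pow_eq_one, one_pow, one_mul]
  obtain ⟨ξ', hξ'⟩ := (IsGalois.mem_range_algebraMap_iff_fixed ξ).2 hfix
  have hprim : IsPrimitiveRoot ξ' D := by
    rw [← hξ'] at hξ
    exact IsPrimitiveRoot.of_map_of_injective hξ (algebraMap L M).injective
  have : NeZero D := ⟨hD1.ne'⟩
  have hdvd : D ∣ Units.torsionOrder L := NumberField.Units.dvd_torsionOrder_of_isPrimitiveRoot hprim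
  have hmem : ((Units.torsionOrder L : ℕ) : ℤ) ∈ stI r := by
    rw [hD]
    exact Int.natCast_dvd_natCast.2 hdvd
  choose A hA using hmem
  exact ⟨A, fun σ => by rw [hA σ]; push_cast; rfl⟩

end MPd9f52e
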